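import Pool.Agent.Lib.MP_009d13_co.OD.Defs

/-! # OD, module LS4: weights of lists -/

set_option autoImplicit false

namespace Pool.Agent.Lib.MP_009d13_co.OD

open Finset Classical

noncomputable section

variable {V : Type} [Fintype V]

theorem pw_append (μ : V → V → ℝ) (P : List V) (x : V) (Q : List V) :
    pw μ (P ++ x :: Q) = pw μ (P ++ [x]) * pw μ (x :: Q) := by
  induction P with
  | nil => simp [pw]
  | cons p P ih =>
    cases P with
    | nil => simp [pw]
    | cons p' P' =>
      have h1 : pw μ (p :: p' :: P' ++ x :: Q) = μ p p' * pw μ (p' :: P' ++ x :: Q) := rfl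
      have h2 : pw μ (p :: p' :: P' ++ [x]) = μ p p' * pw μ (p' :: P' ++ [x]) := rfl
      rw [h1, h2, ih, mul_assoc]

theorem pw_append_two (μ : V → V → ℝ) (P : List V) (x y : V) (Q : List V) :
    pw μ (P ++ x :: y :: Q) = pw μ (P ++ [x]) * μ x y * pw μ (y :: Q) := by
  rw [pw_append, mul_assoc]
  rfl

theorem pw_reverse (μ : V → V → ℝ) (hs : ∀ a b, μ a b = μ b a) (L : List V) :
    pw μ L.reverse = pw μ L := by
  induction L with
  | nil => rfl
  | cons a T ih =>
    cases T with
    | nil => rfl
    | cons b t =>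
      have h1 : (a :: b :: t).reverse = t.reverse ++ b :: [a] := by simp
      have h2 : (b :: t).reverse = t.reverse ++ [b] := by simp
      rw [h1, pw_append, ← h2, ih]
      have h3 : pw μ (a :: b :: t) = μ a b * pw μ (b :: t) := rfl
      have h4 : pw μ [b, a] = μ b a := by simp [pw]
      rw [h3, h4, hs b a, mul_comm]

theorem pw_nonneg (μ : V → V → ℝ) (h : ∀ a b, 0 ≤ μ a b) (L : List V) : 0 ≤ pw μ L := by
  induction L with
  | nil => simp [pw]
  | cons a T ih =>
    cases T with
    | nil => simp [pw]
    | cons b t => exact mul_nonneg (h a b) ih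

theorem hd_append (g : V → ℝ) {P : List V} (hP : P ≠ []) (Q : List V) :
    hd g (P ++ Q) = hd g P := by
  cases P with
  | nil => exact absurd rfl hP
  | cons a t => rfl

theorem ls_append (g : V → ℝ) (P : List V) {Q : List V} (hQ : Q ≠ []) :
    ls g (P ++ Q) = ls g Q := by
  unfold ls
  rw [List.reverse_append]
  exact hd_append g (by simpa using hQ) _

theorem ls_snoc (g : V → ℝ) (P : List V) (x : V) : ls g (P ++ [x]) = g x := by
  unfold ls
  rw [List.reverse_append]
  rfl

theorem ls_reverse (g : V → ℝ) (L : List V) : ls g L.reverse = hd g L := by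
  unfold ls
  rw [List.reverse_reverse]

theorem hd_reverse (g : V → ℝ) (L : List V) : hd g L.reverse = ls g L := rfl

theorem hd_nonneg {g : V → ℝ} (h : ∀ a, 0 ≤ g a) (L : List V) : 0 ≤ hd g L := by
  cases L with
  | nil => exact zero_le_one
  | cons a t => exact h a

theorem ls_nonneg {g : V → ℝ} (h : ∀ a, 0 ≤ g a) (L : List V) : 0 ≤ ls g L :=
  hd_nonneg h _

theorem pw_mono {μ μ' : V → V → ℝ} (h0 : ∀ a b, 0 ≤ μ a b) (h : ∀ a b, μ a b ≤ μ' a b)
    (L : List V) : pw μ L ≤ pw μ' L := by
  induction L with
  | nil => exact le_refl _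
  | cons a T ih =>
    cases T with
    | nil => exact le_refl _
    | cons b t =>
      exact mul_le_mul (h a b) ih (pw_nonneg μ h0 _) ((h0 a b).trans (h a b))

theorem pw_smul (μ : V → V → ℝ) (c : ℝ) (L : List V) :
    pw (fun a b => c * μ a b) L = c ^ (L.length - 1) * pw μ L := by
  induction L with
  | nil => simp [pw]
  | cons a T ih =>
    cases T with
    | nil => simp [pw]
    | cons b t =>
      have h1 : pw (fun a b => c * μ a b) (a :: b :: t)
        = (c * μ a b) * pw (fun a b => c * μ a b) (b :: t) := rfl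
      have h2 : pw μ (a :: b :: t) = μ a b * pw μ (b :: t) := rfl
      rw [h1, h2, ih]
      simp only [List.length_cons, Nat.add_sub_cancel]
      rw [pow_succ]
      ring

end

end Pool.Agent.Lib.MP_009d13_co.OD
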