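import Pool.Agent.Lib.MP_009d13_co.OD.BR

/-! EM: monotonicity of the functionals. -/

set_option autoImplicit false

namespace Pool.Agent.Lib.MP_009d13_co.OD

open Finset Classical

noncomputable section

variable {V : Type} [Fintype V]

omit [Fintype V] in
theorem em_hd_mono {g g' : V → ℝ} (h : ∀ a, g a ≤ g' a) (L : List V) : hd g L ≤ hd g' L := by
  cases L with
  | nil => exact le_refl _
  | cons a t => exact h a

omit [Fintype V] in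
theorem em_ls_mono {g g' : V → ℝ} (h : ∀ a, g a ≤ g' a) (L : List V) : ls g L ≤ ls g' L :=
  em_hd_mono h _

theorem em_cc_nonneg {μ : V → V → ℝ} {χ ψ : V → ℝ} {e : V → V → ℝ} (h0 : ∀ a b, 0 ≤ μ a b)
    (hχ : ∀ a, 0 ≤ χ a) (hψ : ∀ a, 0 ≤ ψ a) (he : ∀ a b, 0 ≤ e a b) (N : ℕ) :
    0 ≤ CC μ χ e ψ N := by
  unfold CC
  refine Finset.sum_nonneg fun i _ => Finset.sum_nonneg fun P _ => Finset.sum_nonneg fun Q _ => ?_
  exact mul_nonneg (mul_nonneg (mul_nonneg (mul_nonneg (hd_nonneg hχ P) (pw_nonneg μ h0 P))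
    (ls_nonneg (fun a => hd_nonneg (he a) Q) P)) (pw_nonneg μ h0 Q)) (ls_nonneg hψ Q)

theorem em_cc_mono {μ μ' : V → V → ℝ} {χ χ' ψ ψ' : V → ℝ} {e e' : V → V → ℝ}
    (h0 : ∀ a b, 0 ≤ μ a b) (h : ∀ a b, μ a b ≤ μ' a b)
    (hχ0 : ∀ a, 0 ≤ χ a) (hχ : ∀ a, χ a ≤ χ' a) (hψ0 : ∀ a, 0 ≤ ψ a) (hψ : ∀ a, ψ a ≤ ψ' a)
    (he0 : ∀ a b, 0 ≤ e a b) (he : ∀ a b, e a b ≤ e' a b) (N : ℕ) :
    CC μ χ e ψ N ≤ CC μ' χ' e' ψ' N := by
  unfold CC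
  refine Finset.sum_le_sum fun i _ => Finset.sum_le_sum fun P _ => Finset.sum_le_sum fun Q _ => ?_
  have a1 := hd_nonneg hχ0 P
  have a2 := em_hd_mono hχ P
  have b1 := pw_nonneg μ h0 P
  have b2 := pw_mono h0 h P
  have c1 : 0 ≤ ls (fun a => hd (e a) Q) P := ls_nonneg (fun a => hd_nonneg (he0 a) Q) P
  have c2 : ls (fun a => hd (e a) Q) P ≤ ls (fun a => hd (e' a) Q) P :=
    em_ls_mono (fun a => em_hd_mono (he a) Q) P
  have d1 := pw_nonneg μ h0 Q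
  have d2 := pw_mono h0 h Q
  have f1 := ls_nonneg hψ0 Q
  have f2 := em_ls_mono hψ Q
  have e1 := mul_le_mul a2 b2 b1 (a1.trans a2)
  have e2 := mul_le_mul e1 c2 c1 ((mul_nonneg a1 b1).trans e1)
  have e3 := mul_le_mul e2 d2 d1 ((mul_nonneg (mul_nonneg a1 b1) c1).trans e2)
  exact mul_le_mul e3 f2 f1 ((mul_nonneg (mul_nonneg (mul_nonneg a1 b1) c1) d1).trans e3)

theorem em_sum_mono {μ μ' : V → V → ℝ} {χ χ' ψ ψ' : V → ℝ}
    (h0 : ∀ a b, 0 ≤ μ a b) (h : ∀ a b, μ a b ≤ μ' a b)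
    (hχ0 : ∀ a, 0 ≤ χ a) (hχ : ∀ a, χ a ≤ χ' a) (hψ0 : ∀ a, 0 ≤ ψ a) (hψ : ∀ a, ψ a ≤ ψ' a)
    (N : ℕ) :
    ∑ L ∈ NL (∅ : Finset V) N, hd χ L * pw μ L * ls ψ L
      ≤ ∑ L ∈ NL (∅ : Finset V) N, hd χ' L * pw μ' L * ls ψ' L := by
  refine Finset.sum_le_sum fun P _ => ?_
  have a1 := hd_nonneg hχ0 P
  have a2 := em_hd_mono hχ P
  have b1 := pw_nonneg μ h0 P
  have b2 := pw_mono h0 h P
  have f1 := ls_nonneg hψ0 P
  have f2 := em_ls_mono hψ P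
  have e1 := mul_le_mul a2 b2 b1 (a1.trans a2)
  exact mul_le_mul e1 f2 f1 ((mul_nonneg a1 b1).trans e1)

theorem em_sum_nonneg {μ : V → V → ℝ} {χ ψ : V → ℝ} (h0 : ∀ a b, 0 ≤ μ a b)
    (hχ : ∀ a, 0 ≤ χ a) (hψ : ∀ a, 0 ≤ ψ a) (N : ℕ) :
    0 ≤ ∑ L ∈ NL (∅ : Finset V) N, hd χ L * pw μ L * ls ψ L :=
  Finset.sum_nonneg fun L _ => mul_nonneg (mul_nonneg (hd_nonneg hχ L) (pw_nonneg μ h0 L))
    (ls_nonneg hψ L)

omit [Fintype V] in
theorem em_ind (a : V) : ∀ u : V, (0 : ℝ) ≤ if u = a then 1 else 0 := fun u => by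
  split_ifs <;> norm_num

omit [Fintype V] in
theorem em_ind2 (a b : V) : ∀ u w : V, (0 : ℝ) ≤ if u = a ∧ w = b then 1 else 0 := fun u w => by
  split_ifs <;> norm_num

theorem fd_mono {μ μ' : V → V → ℝ} {d d' : V → ℝ} {e : V → V → ℝ} (h0 : ∀ a b, 0 ≤ μ a b)
    (h : ∀ a b, μ a b ≤ μ' a b) (hd0 : ∀ a, 0 ≤ d a) (hd : ∀ a, d a ≤ d' a)
    (he : ∀ a b, 0 ≤ e a b) (l : ℕ) :
    Fd μ d e l ≤ Fd μ' d' e l ∧ Wo μ d l ≤ Wo μ' d' l := by
  have h1 : Wo μ d l ≤ Wo μ' d' l := em_sum_mono h0 h hd0 hd hd0 hd l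
  have h2 : Ao μ d l ≤ Ao μ' d' l := by
    refine Finset.sum_le_sum fun P _ => ?_
    exact mul_le_mul (pw_mono h0 h P) (em_ls_mono hd P) (ls_nonneg hd0 P)
      ((pw_nonneg μ h0 P).trans (pw_mono h0 h P))
  have h3 : CC μ d e d (l + 1) ≤ CC μ' d' e d' (l + 1) :=
    em_cc_mono h0 h hd0 hd hd0 hd he (fun _ _ => le_refl _) (l + 1)
  refine ⟨?_, h1⟩
  unfold Fd
  have h4 : (0 : ℝ) ≤ 2 * (l + 1) := by positivity
  have h5 := mul_le_mul_of_nonneg_left h1 h4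
  linarith

theorem so_mono {μ μ' : V → V → ℝ} {d d' : V → ℝ} (h0 : ∀ a b, 0 ≤ μ a b)
    (h : ∀ a b, μ a b ≤ μ' a b) (hd0 : ∀ a, 0 ≤ d a) (hd : ∀ a, d a ≤ d' a) (l : ℕ) (a b : V) :
    So μ d l a b ≤ So μ' d' l a b ∧ En μ d l a ≤ En μ' d' l a :=
  ⟨em_cc_mono h0 h hd0 hd hd0 hd (em_ind2 a b) (fun _ _ => le_refl _) l,
    em_sum_mono h0 h (em_ind a) (fun _ => le_refl _) hd0 hd l⟩

theorem gm_mono {μ μ' : V → V → ℝ} {d d' : V → ℝ} (h0 : ∀ a b, 0 ≤ μ a b)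
    (h : ∀ a b, μ a b ≤ μ' a b) (hd0 : ∀ a, 0 ≤ d a) (hd : ∀ a, d a ≤ d' a) (l : ℕ) (a : V) :
    gm μ d l a ≤ gm μ' d' l a ∧ em μ d l ≤ em μ' d' l := by
  constructor
  · unfold gm
    refine ciSup_mono (Set.finite_range _).bddAbove fun b => ?_
    split_ifs with hb
    · exact le_refl _
    · have h1 := (so_mono h0 h hd0 hd l a b).1
      have h2 := (so_mono h0 h hd0 hd l a b).2
      have h3 := (so_mono h0 h hd0 hd l b a).2
      linarith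
  · unfold em
    refine ciSup_mono (Set.finite_range _).bddAbove fun p => ?_
    split_ifs with hb
    · exact le_refl _
    · have h2 := (so_mono h0 h hd0 hd l p.1 p.2).2
      have h3 := (so_mono h0 h hd0 hd l p.2 p.1).2
      linarith

theorem so_nonneg {μ : V → V → ℝ} {d : V → ℝ} (h0 : ∀ a b, 0 ≤ μ a b) (hd0 : ∀ a, 0 ≤ d a)
    (l : ℕ) (a b : V) : 0 ≤ So μ d l a b ∧ 0 ≤ En μ d l a ∧ 0 ≤ gm μ d l a ∧ 0 ≤ em μ d l := by
  refine ⟨em_cc_nonneg h0 hd0 hd0 (em_ind2 a b) l, em_sum_nonneg h0 (em_ind a) hd0 l, ?_, ?_⟩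
  · unfold gm
    refine le_ciSup_of_le (Set.finite_range _).bddAbove a ?_
    rw [if_pos rfl]
  · unfold em
    refine le_ciSup_of_le (Set.finite_range _).bddAbove (a, a) ?_
    rw [if_pos rfl]

theorem so_symm {μ : V → V → ℝ} (h : Wt μ) (d : V → ℝ) (l : ℕ) (a b : V) :
    So μ d l a b = So μ d l b a := by
  unfold So
  refine cc_rev h d d ?_ l
  intro u w
  simp only [and_comm]

theorem so_self {μ : V → V → ℝ} (d : V → ℝ) (l : ℕ) (a : V) : So μ d l a a = 0 := by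
  unfold So CC
  refine Finset.sum_eq_zero fun i hi => Finset.sum_eq_zero fun P hP =>
    Finset.sum_eq_zero fun Q hQ => ?_
  rw [Finset.mem_range] at hi
  rw [mem_NL] at hP hQ
  have hP0 : P ≠ [] := by
    intro h
    rw [h] at hP
    simp at hP
  have hQ0 : Q ≠ [] := by
    intro h
    rw [h] at hQ
    have := hQ.1
    simp at this
    omega
  obtain ⟨y, Q', rfl⟩ := List.exists_cons_of_ne_nil hQ0
  obtain ⟨P', x, rfl⟩ : ∃ P' x, P = P' ++ [x] :=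
    ⟨P.dropLast, P.getLast hP0, (List.dropLast_append_getLast hP0).symm⟩
  have hy := hQ.2.2 y (by simp)
  have hxy : ¬ (x = a ∧ y = a) := by
    rintro ⟨rfl, rfl⟩
    exact hy (by simp)
  rw [ls_snoc]
  have : hd (fun w => if x = a ∧ w = a then (1 : ℝ) else 0) (y :: Q') = 0 := by
    show (if x = a ∧ y = a then (1 : ℝ) else 0) = 0
    rw [if_neg hxy]
  rw [this]
  ring

theorem le_gm {μ : V → V → ℝ} {d : V → ℝ} (l : ℕ) {a b : V} (hab : b ≠ a) :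
    So μ d l a b + En μ d l a + En μ d l b ≤ gm μ d l a := by
  unfold gm
  refine le_ciSup_of_le (Set.finite_range _).bddAbove b ?_
  rw [if_neg hab]

theorem le_em {μ : V → V → ℝ} {d : V → ℝ} (l : ℕ) {a b : V} (hab : a ≠ b) :
    En μ d l a + En μ d l b ≤ em μ d l := by
  unfold em
  refine le_ciSup_of_le (Set.finite_range _).bddAbove (a, b) ?_
  rw [if_neg hab]

end

end Pool.Agent.Lib.MP_009d13_co.OD
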