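import Pool.Agent.Lib.MP_009d13_co.OD.Defs2
import Pool.Agent.Lib.MP_009d13_co.OD.EM

/-! BDA: the weights `ps` and `ff`. -/

set_option autoImplicit false

namespace Pool.Agent.Lib.MP_009d13_co.OD

open Finset Classical
open Pool.Agent.Lib.MP_009d13_co.P5 (nb kk)

noncomputable section

variable {V : Type} [Fintype V] (G : SimpleGraph V) (H : Finset V)

theorem wt_mH : Wt (mH G H) where
  symm a b := by
    unfold mH
    have h1 : (a ∈ H ∧ b ∈ H ∧ a ≠ b) ↔ (b ∈ H ∧ a ∈ H ∧ b ≠ a) := by
      constructor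
      · rintro ⟨p, q, r⟩
        exact ⟨q, p, r.symm⟩
      · rintro ⟨p, q, r⟩
        exact ⟨q, p, r.symm⟩
    by_cases h : a ∈ H ∧ b ∈ H ∧ a ≠ b
    · rw [if_pos h, if_pos (h1.1 h), Finset.inter_comm]
    · rw [if_neg h, if_neg (fun h' => h (h1.2 h'))]
  diag a := by
    unfold mH
    rw [if_neg (fun h => h.2.2 rfl)]
  nonneg a b := by
    unfold mH
    split_ifs
    · exact Nat.cast_nonneg _
    · exact le_refl _

theorem dH_nonneg (a : V) : 0 ≤ dH G H a := by
  unfold dH
  split_ifs
  · exact Nat.cast_nonneg _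
  · exact le_refl _

theorem sp_aj (hS : P5.Sparse6 G) : Sp (aj G) where
  symm a b := by
    unfold aj
    simp only [G.adj_comm]
  diag a := by
    unfold aj
    rw [if_neg (G.loopless.irrefl a)]
  nonneg a b := by
    unfold aj
    split_ifs <;> norm_num
  le_one a b := by
    unfold aj
    split_ifs <;> norm_num
  sparse S := by
    have h1 : ∑ a ∈ S, ∑ b ∈ S, aj G a b = ((P5.pr G S S).card : ℝ) := by
      unfold aj
      rw [← Finset.sum_product' S S (fun a b => if G.Adj a b then (1 : ℝ) else 0),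
        Finset.sum_boole]
      congr 2
      ext p
      simp only [P5.pr, Finset.mem_filter, Finset.mem_product, Finset.mem_univ, true_and, and_assoc]
    rw [h1]
    exact_mod_cast hS S

theorem ps_comm (l : ℕ) (x y : V) : ps G H l x y = ps G H l y x := by
  unfold ps
  rw [Finset.sum_comm]
  have h1 : ∑ b ∈ kk G H y, ∑ a ∈ kk G H x, So (mH G H) (dH G H) l a b
      = ∑ b ∈ kk G H y, ∑ a ∈ kk G H x, So (mH G H) (dH G H) l b a :=
    Finset.sum_congr rfl fun b _ => Finset.sum_congr rfl fun a _ => so_symm (wt_mH G H) _ l a b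
  rw [h1]
  ring

theorem bda_nn (l : ℕ) (a b : V) : 0 ≤ So (mH G H) (dH G H) l a b
    ∧ 0 ≤ En (mH G H) (dH G H) l a ∧ 0 ≤ gm (mH G H) (dH G H) l a
    ∧ 0 ≤ em (mH G H) (dH G H) l :=
  so_nonneg (wt_mH G H).nonneg (dH_nonneg G H) l a b

theorem ps_nonneg (l : ℕ) (x y : V) : 0 ≤ ps G H l x y := by
  unfold ps
  have h1 : 0 ≤ ∑ a ∈ kk G H x, ∑ b ∈ kk G H y, So (mH G H) (dH G H) l a b :=
    Finset.sum_nonneg fun a _ => Finset.sum_nonneg fun b _ => (bda_nn G H l a b).1
  have h2 : ∀ K : Finset V, 0 ≤ ∑ a ∈ K, En (mH G H) (dH G H) l a := fun K =>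
    Finset.sum_nonneg fun a _ => (bda_nn G H l a a).2.1
  have h3 := h2 (kk G H x)
  have h4 := h2 (kk G H y)
  linarith

theorem ff_nonneg (l : ℕ) (x : V) : 0 ≤ ff G H l x := by
  unfold ff
  split_ifs
  · exact (bda_nn G H l x x).2.2.2
  · exact Finset.sum_nonneg fun a _ => add_nonneg (bda_nn G H l a a).2.1 (bda_nn G H l a a).2.2.1
  · have h1 : 0 ≤ ∑ a ∈ kk G H x, ∑ b ∈ kk G H x, So (mH G H) (dH G H) l a b :=
      Finset.sum_nonneg fun a _ => Finset.sum_nonneg fun b _ => (bda_nn G H l a b).1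
    have h2 : 0 ≤ ∑ a ∈ kk G H x, En (mH G H) (dH G H) l a :=
      Finset.sum_nonneg fun a _ => (bda_nn G H l a a).2.1
    linarith

omit [Fintype V] in
/-- A set with at most two elements lies in a pair. -/
theorem bda_pair {K : Finset V} (hK : K.card ≤ 2) {u v : V} (huv : u ≠ v) :
    ∃ p q : V, p ≠ q ∧ K ⊆ {p, q} := by
  rcases Nat.lt_or_ge K.card 2 with h | h
  · rcases Nat.lt_or_ge K.card 1 with h0 | h0
    · refine ⟨u, v, huv, ?_⟩
      have : K = ∅ := Finset.card_eq_zero.1 (by omega)
      rw [this]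
      exact Finset.empty_subset _
    · obtain ⟨b, rfl⟩ := Finset.card_eq_one.1 (show K.card = 1 by omega)
      by_cases hb : u = b
      · refine ⟨b, v, by rw [← hb]; exact huv, ?_⟩
        intro z hz
        rw [Finset.mem_singleton] at hz
        simp [hz]
      · refine ⟨b, u, fun h => hb h.symm, ?_⟩
        intro z hz
        rw [Finset.mem_singleton] at hz
        simp [hz]
  · obtain ⟨p, q, hpq, rfl⟩ := Finset.card_eq_two.1 (show K.card = 2 by omega)
    exact ⟨p, q, hpq, Finset.Subset.refl _⟩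

theorem bda_ne {x a : V} (h : a ∈ kk G H x) : a ≠ x := by
  rintro rfl
  unfold P5.kk P5.nb at h
  rw [Finset.mem_inter, Finset.mem_filter] at h
  exact G.loopless.irrefl _ h.1.2

theorem ps_le_ff (l : ℕ) {x y : V} (h2 : (kk G H x ∪ kk G H y).card ≤ 2) :
    ps G H l x y ≤ ff G H l x := by
  have hEn : ∀ a, 0 ≤ En (mH G H) (dH G H) l a := fun a => (bda_nn G H l a a).2.1
  have hSo : ∀ a b, 0 ≤ So (mH G H) (dH G H) l a b := fun a b => (bda_nn G H l a b).1
  unfold ff ps
  split_ifs with h0 h1
  · -- no hub at x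
    have hx : kk G H x = ∅ := Finset.card_eq_zero.1 h0
    rw [hx] at h2 ⊢
    rw [Finset.empty_union] at h2
    simp only [Finset.sum_empty, zero_add]
    rcases (kk G H y).eq_empty_or_nonempty with hy | ⟨b, hb⟩
    · rw [hy, Finset.sum_empty]
      exact (bda_nn G H l x x).2.2.2
    · obtain ⟨p, q, hpq, hK⟩ := bda_pair h2 (bda_ne G H hb)
      refine (Finset.sum_le_sum_of_subset_of_nonneg hK fun a _ _ => hEn a).trans ?_
      rw [Finset.sum_pair hpq]
      exact le_em l hpq
  · -- one hub at x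
    obtain ⟨a, ha⟩ := Finset.card_eq_one.1 h1
    have hax : a ≠ x := bda_ne G H (by rw [ha]; exact Finset.mem_singleton_self a)
    rw [ha] at h2 ⊢
    simp only [Finset.sum_singleton]
    have key : ∃ b', b' ≠ a ∧ kk G H y ⊆ {a, b'} := by
      by_cases hex : ∃ b ∈ kk G H y, b ≠ a
      · obtain ⟨b, hb, hba⟩ := hex
        refine ⟨b, hba, ?_⟩
        have hsub : ({a, b} : Finset V) ⊆ {a} ∪ kk G H y := by
          intro z hz
          rw [Finset.mem_insert, Finset.mem_singleton] at hz
          rcases hz with rfl | rfl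
          · simp
          · exact Finset.mem_union_right _ hb
        have hcard : ({a, b} : Finset V).card = 2 := Finset.card_pair hba.symm
        have heq := Finset.eq_of_subset_of_card_le hsub (by rw [hcard]; exact h2)
        rw [heq]
        exact Finset.subset_union_right
      · refine ⟨x, hax.symm, ?_⟩
        intro z hz
        have : z = a := by
          by_contra hne
          exact hex ⟨z, hz, hne⟩
        simp [this]
    obtain ⟨b', hb', hK⟩ := key
    have h3 : ∑ b ∈ kk G H y, So (mH G H) (dH G H) l a b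
        ≤ So (mH G H) (dH G H) l a a + So (mH G H) (dH G H) l a b' := by
      refine (Finset.sum_le_sum_of_subset_of_nonneg hK fun b _ _ => hSo a b).trans ?_
      rw [Finset.sum_pair hb'.symm]
    have h4 : ∑ b ∈ kk G H y, En (mH G H) (dH G H) l b
        ≤ En (mH G H) (dH G H) l a + En (mH G H) (dH G H) l b' := by
      refine (Finset.sum_le_sum_of_subset_of_nonneg hK fun b _ _ => hEn b).trans ?_
      rw [Finset.sum_pair hb'.symm]
    have h5 := le_gm (μ := mH G H) (d := dH G H) l hb'
    have h6 := so_self (μ := mH G H) (dH G H) l a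
    linarith
  · -- at least two hubs at x
    have hcard : 2 ≤ (kk G H x).card := by omega
    have hsub : kk G H y ⊆ kk G H x := by
      have heq := Finset.eq_of_subset_of_card_le
        (Finset.subset_union_left : kk G H x ⊆ kk G H x ∪ kk G H y) (by omega)
      have hy : kk G H y ⊆ kk G H x ∪ kk G H y := Finset.subset_union_right
      rwa [← heq] at hy
    have h3 : ∑ a ∈ kk G H x, ∑ b ∈ kk G H y, So (mH G H) (dH G H) l a b
        ≤ ∑ a ∈ kk G H x, ∑ b ∈ kk G H x, So (mH G H) (dH G H) l a b :=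
      Finset.sum_le_sum fun a _ =>
        Finset.sum_le_sum_of_subset_of_nonneg hsub fun b _ _ => hSo a b
    have h4 : ∑ b ∈ kk G H y, En (mH G H) (dH G H) l b
        ≤ ∑ b ∈ kk G H x, En (mH G H) (dH G H) l b :=
      Finset.sum_le_sum_of_subset_of_nonneg hsub fun b _ _ => hEn b
    linarith

end

end Pool.Agent.Lib.MP_009d13_co.OD
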