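import Pool.Agent.Lib.MP_009d13_co.OD.Defs

/-! OPB: operators. -/

set_option autoImplicit false

namespace Pool.Agent.Lib.MP_009d13_co.OD

open Finset Classical

noncomputable section

variable {V : Type} [Fintype V]

theorem Pp_eq_TW (μ : V → V → ℝ) : Pp μ = TW (fun _ v b => μ v b) := by
  funext g A v
  rfl

theorem Op_eq_TW (μ : V → V → ℝ) :
    Op μ = TW (fun A v b => Real.exp (1 - un μ A v) * μ v b) := by
  funext g A v
  unfold Op Pp TW
  rw [Finset.mul_sum]
  exact Finset.sum_congr rfl fun b _ => by ring

theorem Xw_eq_TW (μ : V → V → ℝ) :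
    Xw μ = TW (fun A v b => (if 1 / 2 ≤ un μ A v then (un μ A v)⁻¹ else 0) * μ v b) := by
  funext g A v
  unfold Xw Pp TW
  rw [Finset.mul_sum]
  exact Finset.sum_congr rfl fun b _ => by ring

theorem Nf_eq_TW (μ : V → V → ℝ) :
    Nf μ = TW (fun A v b => μ v b / un μ A v *
      (un μ (insert v A) b * Real.exp (1 - un μ (insert v A) b))) := by
  funext g A v
  rfl

theorem TW_mono {w : Finset V → V → V → ℝ} (hw : ∀ A v b, 0 ≤ w A v b)
    {g g' : Finset V → V → ℝ} (h : ∀ A v, v ∉ A → g A v ≤ g' A v) (k : ℕ) {A : Finset V} {v : V}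
    (hv : v ∉ A) : (TW w)^[k] g A v ≤ (TW w)^[k] g' A v := by
  induction k generalizing A v with
  | zero => exact h A v hv
  | succ k ih =>
    rw [Function.iterate_succ_apply', Function.iterate_succ_apply']
    refine Finset.sum_le_sum fun b hb => ?_
    exact mul_le_mul_of_nonneg_left (ih (Finset.mem_compl.1 hb)) (hw A v b)

theorem TW_congr {w : Finset V → V → V → ℝ}
    {g g' : Finset V → V → ℝ} (h : ∀ A v, v ∉ A → g A v = g' A v) (k : ℕ) {A : Finset V} {v : V}
    (hv : v ∉ A) : (TW w)^[k] g A v = (TW w)^[k] g' A v := by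
  induction k generalizing A v with
  | zero => exact h A v hv
  | succ k ih =>
    rw [Function.iterate_succ_apply', Function.iterate_succ_apply']
    refine Finset.sum_congr rfl fun b hb => ?_
    rw [ih (Finset.mem_compl.1 hb)]

theorem TW_nonneg {w : Finset V → V → V → ℝ} (hw : ∀ A v b, 0 ≤ w A v b)
    {g : Finset V → V → ℝ} (h : ∀ A v, v ∉ A → 0 ≤ g A v) (k : ℕ) {A : Finset V} {v : V}
    (hv : v ∉ A) : 0 ≤ (TW w)^[k] g A v := by
  induction k generalizing A v with
  | zero => exact h A v hv
  | succ k ih =>
    rw [Function.iterate_succ_apply']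
    exact Finset.sum_nonneg fun b hb => mul_nonneg (hw A v b) (ih (Finset.mem_compl.1 hb))

theorem TW_add (w : Finset V → V → V → ℝ) (g g' : Finset V → V → ℝ) (k : ℕ) (A : Finset V)
    (v : V) : (TW w)^[k] (fun A v => g A v + g' A v) A v
      = (TW w)^[k] g A v + (TW w)^[k] g' A v := by
  induction k generalizing A v with
  | zero => rfl
  | succ k ih =>
    rw [Function.iterate_succ_apply', Function.iterate_succ_apply', Function.iterate_succ_apply']
    unfold TW
    rw [← Finset.sum_add_distrib]
    refine Finset.sum_congr rfl fun b _ => ?_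
    have := ih (insert v A) b
    unfold TW at this
    rw [this]
    ring

theorem TW_smul (w : Finset V → V → V → ℝ) (c : ℝ) (g : Finset V → V → ℝ) (k : ℕ)
    (A : Finset V) (v : V) :
    (TW w)^[k] (fun A v => c * g A v) A v = c * (TW w)^[k] g A v := by
  induction k generalizing A v with
  | zero => rfl
  | succ k ih =>
    rw [Function.iterate_succ_apply', Function.iterate_succ_apply']
    unfold TW
    rw [Finset.mul_sum]
    refine Finset.sum_congr rfl fun b _ => ?_
    have := ih (insert v A) b
    unfold TW at this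
    rw [this]
    ring

theorem opb_const_zero (w : Finset V → V → V → ℝ) (k : ℕ) (A : Finset V) (v : V) :
    (TW w)^[k] (fun _ _ => 0) A v = 0 := by
  induction k generalizing A v with
  | zero => rfl
  | succ k ih =>
    rw [Function.iterate_succ_apply']
    unfold TW
    refine Finset.sum_eq_zero fun b _ => ?_
    have := ih (insert v A) b
    unfold TW at this
    rw [this, mul_zero]

theorem TW_sum {ι : Type} (w : Finset V → V → V → ℝ) (s : Finset ι)
    (g : ι → Finset V → V → ℝ) (k : ℕ) (A : Finset V) (v : V) :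
    (TW w)^[k] (fun A v => ∑ i ∈ s, g i A v) A v = ∑ i ∈ s, (TW w)^[k] (g i) A v := by
  induction s using Finset.induction_on with
  | empty =>
    simp only [Finset.sum_empty]
    exact opb_const_zero w k A v
  | insert i s hi ih =>
    have e : (fun (A : Finset V) (v : V) => ∑ i ∈ insert i s, g i A v)
        = fun A v => g i A v + ∑ i ∈ s, g i A v := by
      funext A v
      rw [Finset.sum_insert hi]
    rw [Finset.sum_insert hi, ← ih, ← TW_add, e]

theorem TW_le {w w' : Finset V → V → V → ℝ} (hw : ∀ A v b, 0 ≤ w A v b)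
    (hww : ∀ A v b, v ∉ A → b ∉ insert v A → w A v b ≤ w' A v b) {g : Finset V → V → ℝ}
    (h : ∀ A v, v ∉ A → 0 ≤ g A v) (k : ℕ) {A : Finset V} {v : V} (hv : v ∉ A) :
    (TW w)^[k] g A v ≤ (TW w')^[k] g A v := by
  induction k generalizing A v with
  | zero => exact le_refl _
  | succ k ih =>
    rw [Function.iterate_succ_apply', Function.iterate_succ_apply']
    refine Finset.sum_le_sum fun b hb => ?_
    have hb' := Finset.mem_compl.1 hb
    have h1 := TW_nonneg hw h k hb'
    have h2 := hww A v b hv hb'
    exact mul_le_mul h2 (ih hb') h1 ((hw A v b).trans h2)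

theorem TW_zero (w : Finset V → V → V → ℝ) (g : Finset V → V → ℝ) {k : ℕ}
    (hk : Fintype.card V ≤ k) {A : Finset V} {v : V} (hv : v ∉ A) :
    (TW w)^[k] g A v = 0 := by
  have key : ∀ (k : ℕ) (A : Finset V) (v : V), v ∉ A → ((insert v A)ᶜ).card < k →
      (TW w)^[k] g A v = 0 := by
    intro k
    induction k with
    | zero => intro A v _ h; exact absurd h (Nat.not_lt_zero _)
    | succ k ih =>
      intro A v hv h
      rw [Function.iterate_succ_apply']
      refine Finset.sum_eq_zero fun b hb => ?_
      have hb' := Finset.mem_compl.1 hb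
      rw [ih (insert v A) b hb', mul_zero]
      have h1 : (insert b (insert v A))ᶜ.card < (insert v A)ᶜ.card := by
        apply Finset.card_lt_card
        rw [Finset.ssubset_iff_of_subset
          (Finset.compl_subset_compl.2 (Finset.subset_insert b (insert v A)))]
        exact ⟨b, hb, by simp⟩
      omega
  apply key k A v hv
  have h1 : (insert v A)ᶜ.card < Fintype.card V := by
    rw [Finset.card_compl]
    have h2 : 0 < (insert v A).card := Finset.card_pos.2 ⟨v, Finset.mem_insert_self v A⟩
    have h3 : 0 < Fintype.card V := Fintype.card_pos_iff.2 ⟨v⟩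
    omega
  omega

end

end Pool.Agent.Lib.MP_009d13_co.OD
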