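import Pool.Agent.Lib.MP_009d13_co.OD.OPA
import Pool.Agent.Lib.MP_009d13_co.OD.OPB

/-! GEN: general bounds for the number of paths. -/

set_option autoImplicit false

namespace Pool.Agent.Lib.MP_009d13_co.OD

open Finset Classical

noncomputable section

variable {V : Type} [Fintype V]

theorem gen_le_exp (D : ℝ) : D ≤ Real.exp (D - 1) := by
  have := Real.add_one_le_exp (D - 1)
  linarith

theorem gen_exp {μ : V → V → ℝ} (h : Wt μ) (k : ℕ) {A : Finset V} {v : V} (hv : v ∉ A) :
    (Pp μ)^[k] (fun _ _ => 1) A v ≤ Real.exp (ms μ A - k) := by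
  induction k generalizing A v with
  | zero =>
    simp only [Function.iterate_zero, id, Nat.cast_zero, sub_zero]
    exact Real.one_le_exp (ms_nonneg h A)
  | succ k ih =>
    rw [Function.iterate_succ_apply']
    have h1 : Pp μ ((Pp μ)^[k] fun _ _ => 1) A v
        ≤ ∑ b ∈ (insert v A)ᶜ, μ v b * Real.exp (ms μ (insert v A) - k) :=
      Finset.sum_le_sum fun b hb =>
        mul_le_mul_of_nonneg_left (ih (Finset.mem_compl.1 hb)) (h.nonneg _ _)
    rw [← Finset.sum_mul, un_eq_insert h, ms_insert h hv] at h1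
    refine h1.trans ?_
    calc un μ A v * Real.exp (ms μ A - un μ A v - k)
        ≤ Real.exp (un μ A v - 1) * Real.exp (ms μ A - un μ A v - k) :=
          mul_le_mul_of_nonneg_right (gen_le_exp _) (Real.exp_pos _).le
      _ = Real.exp (ms μ A - ((k + 1 : ℕ) : ℝ)) := by
          rw [← Real.exp_add]
          congr 1
          push_cast
          ring

theorem gen_amgm (a b : ℝ) (ha : 0 ≤ a) (hb : 0 ≤ b) (k : ℕ) :
    a * b ^ k ≤ ((a + k * b) / (k + 1)) ^ (k + 1) := by
  rcases hb.eq_or_lt with rfl | hb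
  · rcases Nat.eq_zero_or_pos k with rfl | hk
    · simp
    · rw [zero_pow hk.ne']
      have : 0 ≤ ((a + k * 0) / ((k : ℝ) + 1)) ^ (k + 1) := by positivity
      simpa using this
  · set M : ℝ := (a + k * b) / (k + 1) with hM
    have hk : (0 : ℝ) < (k : ℝ) + 1 := by positivity
    have hM0 : 0 ≤ M := by positivity
    have h1 : (-2 : ℝ) ≤ (M - b) / b := by
      rw [le_div_iff₀ hb]
      linarith
    have h2 := one_add_mul_le_pow h1 (k + 1)
    have h3 : 1 + (M - b) / b = M / b := by
      field_simp
      ring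
    have h4 : 1 + ((k + 1 : ℕ) : ℝ) * ((M - b) / b) = a / b := by
      push_cast
      have : ((k : ℝ) + 1) * M = a + k * b := by
        rw [hM]
        field_simp
      field_simp
      linarith
    rw [h3, h4, div_pow, le_div_iff₀ (pow_pos hb _)] at h2
    calc a * b ^ k = a / b * b ^ (k + 1) := by
          rw [pow_succ]
          field_simp
      _ ≤ M ^ (k + 1) := h2

theorem gen_pow {μ : V → V → ℝ} (h : Wt μ) (k : ℕ) {A : Finset V} {v : V} (hv : v ∉ A) :
    (Pp μ)^[k] (fun _ _ => 1) A v ≤ (ms μ A / k) ^ k := by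
  induction k generalizing A v with
  | zero => simp
  | succ k ih =>
    rw [Function.iterate_succ_apply']
    have h1 : Pp μ ((Pp μ)^[k] fun _ _ => 1) A v
        ≤ ∑ b ∈ (insert v A)ᶜ, μ v b * (ms μ (insert v A) / k) ^ k :=
      Finset.sum_le_sum fun b hb =>
        mul_le_mul_of_nonneg_left (ih (Finset.mem_compl.1 hb)) (h.nonneg _ _)
    rw [← Finset.sum_mul, un_eq_insert h, ms_insert h hv] at h1
    refine h1.trans ?_
    have hD := un_le_ms h hv
    have hD0 := un_nonneg h A v
    rcases Nat.eq_zero_or_pos k with rfl | hk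
    · simp only [pow_zero, mul_one, zero_add, Nat.cast_one, div_one, pow_one]
      exact hD
    · have hk' : (0 : ℝ) < k := by exact_mod_cast hk
      have h2 := gen_amgm (un μ A v) ((ms μ A - un μ A v) / k) hD0
        (div_nonneg (by linarith) hk'.le) k
      have h3 : un μ A v + k * ((ms μ A - un μ A v) / k) = ms μ A := by
        field_simp
        ring
      rw [h3] at h2
      have h4 : ((k + 1 : ℕ) : ℝ) = (k : ℝ) + 1 := by push_cast; ring
      rw [h4]
      exact h2

theorem op_one {μ : V → V → ℝ} (h : Wt μ) {A : Finset V} {v : V} :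
    Op μ (fun _ _ => 1) A v ≤ 1 := by
  unfold Op Pp
  simp only [mul_one]
  rw [un_eq_insert h]
  calc Real.exp (1 - un μ A v) * un μ A v
      ≤ Real.exp (1 - un μ A v) * Real.exp (un μ A v - 1) :=
        mul_le_mul_of_nonneg_left (gen_le_exp _) (Real.exp_pos _).le
    _ = 1 := by
        rw [← Real.exp_add]
        simp

end

end Pool.Agent.Lib.MP_009d13_co.OD
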