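import Pool.Agent.Lib.MP_009d13_co.OD.BR
import Pool.Agent.Lib.MP_009d13_co.OD.GEN
import Pool.Agent.Lib.MP_009d13_co.OD.EM
import Pool.Agent.Lib.MP_009d13_co.OD.BDA

/-! BDB: crude bounds. -/

set_option autoImplicit false

namespace Pool.Agent.Lib.MP_009d13_co.OD

open Finset Classical
open Pool.Agent.Lib.MP_009d13_co.P5 (nb kk)

noncomputable section

variable {V : Type} [Fintype V] (G : SimpleGraph V) (H : Finset V)

theorem bdb_En_sum (μ : V → V → ℝ) (d : V → ℝ) {l : ℕ} (hl : 1 ≤ l) :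
    ∑ a, En μ d l a = ∑ L ∈ NL (∅ : Finset V) l, hd (fun _ => 1) L * pw μ L * ls d L := by
  unfold En
  rw [sum_comm]
  refine sum_congr rfl fun L hL => ?_
  rw [mem_NL] at hL
  cases L with
  | nil => simp at hL; omega
  | cons u t =>
    have h1 : ∀ g : V → ℝ, hd g (u :: t) = g u := fun _ => rfl
    simp only [h1, mul_assoc]
    rw [← sum_mul]
    simp

theorem bdb_link (P Q : List V) (hP : P ≠ []) (hQ : Q ≠ []) :
    ∑ a, ∑ b, ls (fun u => hd (fun w => if u = a ∧ w = b then (1 : ℝ) else 0) Q) P = 1 := by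
  obtain ⟨P', x, rfl⟩ : ∃ P' x, P = P' ++ [x] :=
    ⟨P.dropLast, P.getLast hP, (List.dropLast_append_getLast hP).symm⟩
  cases Q with
  | nil => exact absurd rfl hQ
  | cons w t =>
    have h1 : ∀ g : V → ℝ, hd g (w :: t) = g w := fun _ => rfl
    simp only [ls_snoc, h1]
    rw [sum_eq_single x, sum_eq_single w]
    · simp
    · intro b _ hb; simp [hb.symm]
    · intro hb; exact absurd (mem_univ _) hb
    · intro a _ ha
      exact sum_eq_zero fun b _ => by simp [ha.symm]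
    · intro hb; exact absurd (mem_univ _) hb

theorem bdb_So_sum (μ : V → V → ℝ) (d : V → ℝ) (l : ℕ) :
    ∑ a, ∑ b, So μ d l a b = ∑ i ∈ range (l - 1), ∑ P ∈ NL (∅ : Finset V) (i + 1),
      ∑ Q ∈ NL P.toFinset (l - 1 - i), hd d P * pw μ P * (pw μ Q * ls d Q) := by
  unfold So CC
  have e1 : ∀ a : V, (∑ b, ∑ i ∈ range (l - 1), ∑ P ∈ NL (∅ : Finset V) (i + 1),
      ∑ Q ∈ NL P.toFinset (l - 1 - i), hd d P * pw μ P *
        ls (fun u => hd ((fun u w => if u = a ∧ w = b then (1 : ℝ) else 0) u) Q) P * pw μ Q *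
        ls d Q) = ∑ i ∈ range (l - 1), ∑ P ∈ NL (∅ : Finset V) (i + 1),
      ∑ Q ∈ NL P.toFinset (l - 1 - i), ∑ b, hd d P * pw μ P *
        ls (fun u => hd ((fun u w => if u = a ∧ w = b then (1 : ℝ) else 0) u) Q) P * pw μ Q *
        ls d Q := by
    intro a
    rw [sum_comm]
    refine sum_congr rfl fun i _ => ?_
    rw [sum_comm]
    refine sum_congr rfl fun P _ => ?_
    rw [sum_comm]
  simp only [e1]
  rw [sum_comm]
  refine sum_congr rfl fun i hi => ?_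
  rw [mem_range] at hi
  rw [sum_comm]
  refine sum_congr rfl fun P hP => ?_
  rw [sum_comm]
  refine sum_congr rfl fun Q hQ => ?_
  rw [mem_NL] at hP hQ
  have hP0 : P ≠ [] := by
    rintro rfl
    simp at hP
  have hQ0 : Q ≠ [] := by
    rintro rfl
    simp at hQ
    omega
  have h2 := bdb_link P Q hP0 hQ0
  calc ∑ a, ∑ b, hd d P * pw μ P *
        ls (fun u => hd ((fun u w => if u = a ∧ w = b then (1 : ℝ) else 0) u) Q) P * pw μ Q *
        ls d Q
      = hd d P * pw μ P * (pw μ Q * ls d Q) * ∑ a, ∑ b,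
        ls (fun u => hd (fun w => if u = a ∧ w = b then (1 : ℝ) else 0) Q) P := by
        rw [mul_sum]
        refine sum_congr rfl fun a _ => ?_
        rw [mul_sum]
        refine sum_congr rfl fun b _ => ?_
        ring
    _ = _ := by rw [h2, mul_one]

/-- paths with `k + 1` hubs, one end free -/
theorem bdb_half {μ : V → V → ℝ} (h : Wt μ) {d : V → ℝ} (hd0 : ∀ a, 0 ≤ d a) {n : ℝ}
    (hn : 0 ≤ n) (hm : ms μ ∅ ≤ 2 * n) (hs : ∑ a, d a ≤ 6 * n) (k : ℕ) :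
    ∑ L ∈ NL (∅ : Finset V) (k + 1), hd d L * pw μ L * ls (fun _ => 1) L
      ≤ 6 * n * (2 * n) ^ k := by
  rw [br1]
  have h1 : ∀ v, (Pp μ)^[k] (fun _ _ => 1) ∅ v ≤ (2 * n) ^ k := by
    intro v
    refine (gen_pow h k (notMem_empty v)).trans ?_
    rcases k with _ | k
    · simp
    · apply pow_le_pow_left₀
      · have := ms_nonneg h ∅
        positivity
      · have hk : (1 : ℝ) ≤ ((k + 1 : ℕ) : ℝ) := by
          push_cast
          have : (0 : ℝ) ≤ k := Nat.cast_nonneg k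
          linarith
        rw [div_le_iff₀ (by linarith)]
        nlinarith
  calc ∑ v, d v * (Pp μ)^[k] (fun _ _ => 1) ∅ v ≤ ∑ v, d v * (2 * n) ^ k :=
        sum_le_sum fun v _ => mul_le_mul_of_nonneg_left (h1 v) (hd0 v)
    _ = (∑ v, d v) * (2 * n) ^ k := by rw [sum_mul]
    _ ≤ _ := mul_le_mul_of_nonneg_right hs (by positivity)

theorem bdb_ls_one (L : List V) : ls (fun _ => (1 : ℝ)) L = 1 := by
  unfold ls
  cases L.reverse <;> rfl

theorem bdb_hd_one (L : List V) : hd (fun _ => (1 : ℝ)) L = 1 := by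
  cases L <;> rfl

theorem bdb_En {μ : V → V → ℝ} (h : Wt μ) {d : V → ℝ} (hd0 : ∀ a, 0 ≤ d a) {n : ℝ}
    (hn : 0 ≤ n) (hm : ms μ ∅ ≤ 2 * n) (hs : ∑ a, d a ≤ 6 * n) {l : ℕ} (hl : 1 ≤ l) :
    ∑ a, En μ d l a ≤ 3 * (2 * n) ^ l := by
  rw [bdb_En_sum μ d hl, wo_rev h]
  obtain ⟨k, rfl⟩ : ∃ k, l = k + 1 := ⟨l - 1, by omega⟩
  refine (bdb_half h hd0 hn hm hs k).trans (le_of_eq ?_)
  rw [pow_succ]; ring

theorem bdb_So {μ : V → V → ℝ} (h : Wt μ) {d : V → ℝ} (hd0 : ∀ a, 0 ≤ d a) {n : ℝ}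
    (hn : 0 ≤ n) (hm : ms μ ∅ ≤ 2 * n) (hs : ∑ a, d a ≤ 6 * n) {l : ℕ} (hl : 2 ≤ l) :
    ∑ a, ∑ b, So μ d l a b ≤ (l - 1) * (9 * (2 * n) ^ l) := by
  rw [bdb_So_sum]
  have h1 : ∀ i ∈ range (l - 1), ∑ P ∈ NL (∅ : Finset V) (i + 1),
      ∑ Q ∈ NL P.toFinset (l - 1 - i), hd d P * pw μ P * (pw μ Q * ls d Q)
      ≤ 9 * (2 * n) ^ l := by
    intro i hi
    rw [mem_range] at hi
    obtain ⟨j, hj⟩ : ∃ j, l - 1 - i = j + 1 := ⟨l - 1 - i - 1, by omega⟩
    rw [hj]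
    have hP := bdb_half h hd0 hn hm hs i
    have hQ : ∑ Q ∈ NL (∅ : Finset V) (j + 1), pw μ Q * ls d Q ≤ 6 * n * (2 * n) ^ j := by
      have h2 := bdb_half h hd0 hn hm hs j
      rw [wo_rev h] at h2
      simpa only [bdb_hd_one, one_mul] using h2
    have hQ0 : ∀ Q, 0 ≤ pw μ Q * ls d Q := fun Q =>
      mul_nonneg (pw_nonneg μ h.nonneg Q) (ls_nonneg hd0 Q)
    have hP0 : ∀ P, 0 ≤ hd d P * pw μ P := fun P =>
      mul_nonneg (hd_nonneg hd0 P) (pw_nonneg μ h.nonneg P)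
    calc ∑ P ∈ NL (∅ : Finset V) (i + 1),
        ∑ Q ∈ NL P.toFinset (j + 1), hd d P * pw μ P * (pw μ Q * ls d Q)
        ≤ ∑ P ∈ NL (∅ : Finset V) (i + 1), hd d P * pw μ P *
          ∑ Q ∈ NL (∅ : Finset V) (j + 1), pw μ Q * ls d Q := by
          refine sum_le_sum fun P _ => ?_
          rw [← mul_sum]
          apply mul_le_mul_of_nonneg_left _ (hP0 P)
          apply sum_le_sum_of_subset_of_nonneg
          · intro Q hQ
            rw [mem_NL] at hQ ⊢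
            exact ⟨hQ.1, hQ.2.1, fun x _ => notMem_empty x⟩
          · intro Q _ _
            exact hQ0 Q
      _ = (∑ P ∈ NL (∅ : Finset V) (i + 1), hd d P * pw μ P * ls (fun _ => 1) P) *
          ∑ Q ∈ NL (∅ : Finset V) (j + 1), pw μ Q * ls d Q := by
          rw [sum_mul]
          refine sum_congr rfl fun P _ => ?_
          rw [bdb_ls_one, mul_one]
      _ ≤ (6 * n * (2 * n) ^ i) * (6 * n * (2 * n) ^ j) := by
          apply mul_le_mul hP hQ (sum_nonneg fun Q _ => hQ0 Q) (by positivity)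
      _ = 9 * (2 * n) ^ l := by
          have : l = i + j + 2 := by omega
          rw [this, pow_add, pow_add]; ring
  refine (sum_le_sum h1).trans (le_of_eq ?_)
  rw [sum_const, card_range, nsmul_eq_mul]
  have : ((l - 1 : ℕ) : ℝ) = (l : ℝ) - 1 := by
    rw [Nat.cast_sub (by omega)]; simp
  rw [this]

theorem bdb_fin {l N : ℝ} (hl : 2 ≤ l) (hN : 0 ≤ N) :
    (l - 1) * (9 * N) + 2 * (3 * N) ≤ 40 * l * N := by
  nlinarith [mul_nonneg (by linarith : (0 : ℝ) ≤ l) hN]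

/-! ### BDB (uses BR GEN EM) : crude bounds -/
theorem ps_crude {l : ℕ} (hl : 2 ≤ l) (hm : ms (mH G H) ∅ ≤ 2 * (Fintype.card V : ℝ))
    (hd : ∑ a, dH G H a ≤ 6 * (Fintype.card V : ℝ)) (x y : V) :
    ps G H l x y ≤ 40 * l * 2 ^ l * (Fintype.card V : ℝ) ^ l := by
  set n : ℝ := (Fintype.card V : ℝ) with hn
  have hn0 : 0 ≤ n := Nat.cast_nonneg _
  have hW := wt_mH G H
  have hd0 := dH_nonneg G H
  have hEn := bdb_En hW hd0 hn0 hm hd (by omega : 1 ≤ l)
  have hSo := bdb_So hW hd0 hn0 hm hd hl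
  have hnn := so_nonneg (μ := mH G H) (d := dH G H) hW.nonneg hd0 l
  have h1 : ∑ a ∈ kk G H x, ∑ b ∈ kk G H y, So (mH G H) (dH G H) l a b
      ≤ ∑ a, ∑ b, So (mH G H) (dH G H) l a b := by
    calc _ ≤ ∑ a ∈ kk G H x, ∑ b, So (mH G H) (dH G H) l a b :=
          sum_le_sum fun a _ => sum_le_univ_sum_of_nonneg fun b => (hnn a b).1
      _ ≤ _ := sum_le_univ_sum_of_nonneg fun a => sum_nonneg fun b _ => (hnn a b).1
  have h2 : ∀ z, ∑ a ∈ kk G H z, En (mH G H) (dH G H) l a ≤ ∑ a, En (mH G H) (dH G H) l a :=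
    fun z => sum_le_univ_sum_of_nonneg fun a => (hnn a a).2.1
  have h3 := h2 x
  have h4 := h2 y
  have hl2 : (2 : ℝ) ≤ l := by exact_mod_cast hl
  have h5 := bdb_fin hl2 (pow_nonneg (by linarith : (0 : ℝ) ≤ 2 * n) l)
  have e1 : 40 * (l : ℝ) * 2 ^ l * n ^ l = 40 * l * (2 * n) ^ l := by rw [mul_pow]; ring
  rw [e1]
  unfold ps
  linarith

theorem ff_crude {l : ℕ} (hl : 2 ≤ l) (hm : ms (mH G H) ∅ ≤ 2 * (Fintype.card V : ℝ))
    (hd : ∑ a, dH G H a ≤ 6 * (Fintype.card V : ℝ)) {x : V} (hx : (kk G H x).card ≤ 2) :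
    ff G H l x ≤ 40 * l * 2 ^ l * (Fintype.card V : ℝ) ^ l := by
  set n : ℝ := (Fintype.card V : ℝ) with hn
  have hn0 : 0 ≤ n := Nat.cast_nonneg _
  have hW := wt_mH G H
  have hd0 := dH_nonneg G H
  have hEn := bdb_En hW hd0 hn0 hm hd (by omega : 1 ≤ l)
  have hSo := bdb_So hW hd0 hn0 hm hd hl
  have hnn := so_nonneg (μ := mH G H) (d := dH G H) hW.nonneg hd0 l
  have hl2 : (2 : ℝ) ≤ l := by exact_mod_cast hl
  have hN : 0 ≤ (2 * n) ^ l := by positivity
  have h5 := bdb_fin hl2 hN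
  have e1 : 40 * (l : ℝ) * 2 ^ l * n ^ l = 40 * l * (2 * n) ^ l := by rw [mul_pow]; ring
  rw [e1]
  have hEn1 : ∀ a, En (mH G H) (dH G H) l a ≤ ∑ a, En (mH G H) (dH G H) l a := fun a =>
    single_le_sum (fun a _ => (hnn a a).2.1) (mem_univ a)
  have hEn2 : ∀ a b, a ≠ b → En (mH G H) (dH G H) l a + En (mH G H) (dH G H) l b
      ≤ ∑ a, En (mH G H) (dH G H) l a := fun a b hab => by
    rw [← sum_pair hab]
    exact sum_le_univ_sum_of_nonneg fun a => (hnn a a).2.1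
  have hSo1 : ∀ a b, So (mH G H) (dH G H) l a b ≤ ∑ a, ∑ b, So (mH G H) (dH G H) l a b := by
    intro a b
    calc _ ≤ ∑ b, So (mH G H) (dH G H) l a b :=
          single_le_sum (fun b _ => (hnn a b).1) (mem_univ b)
      _ ≤ _ := single_le_sum (f := fun a => ∑ b, So (mH G H) (dH G H) l a b)
          (fun a _ => sum_nonneg fun b _ => (hnn a b).1) (mem_univ a)
  have hem : em (mH G H) (dH G H) l ≤ 3 * (2 * n) ^ l := by
    unfold em
    haveI : Nonempty (V × V) := ⟨(x, x)⟩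
    apply ciSup_le
    intro p
    split_ifs with hp
    · positivity
    · exact (hEn2 p.1 p.2 hp).trans hEn
  have hgm : ∀ a, En (mH G H) (dH G H) l a + gm (mH G H) (dH G H) l a
      ≤ (l - 1) * (9 * (2 * n) ^ l) + 2 * (3 * (2 * n) ^ l) := by
    intro a
    have h6 : gm (mH G H) (dH G H) l a ≤ (l - 1) * (9 * (2 * n) ^ l) + 3 * (2 * n) ^ l := by
      unfold gm
      haveI : Nonempty V := ⟨x⟩
      apply ciSup_le
      intro b
      split_ifs with hb
      · have : 0 ≤ ((l : ℝ) - 1) := by linarith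
        positivity
      · have := hEn2 a b (Ne.symm hb)
        have := hSo1 a b
        linarith
    have := hEn1 a
    linarith
  unfold ff
  split_ifs with c0 c1
  · nlinarith
  · obtain ⟨a, ha⟩ := card_eq_one.mp c1
    rw [ha, sum_singleton]
    exact (hgm a).trans h5
  · have h1 : ∑ a ∈ kk G H x, ∑ b ∈ kk G H x, So (mH G H) (dH G H) l a b
        ≤ ∑ a, ∑ b, So (mH G H) (dH G H) l a b := by
      calc _ ≤ ∑ a ∈ kk G H x, ∑ b, So (mH G H) (dH G H) l a b :=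
            sum_le_sum fun a _ => sum_le_univ_sum_of_nonneg fun b => (hnn a b).1
        _ ≤ _ := sum_le_univ_sum_of_nonneg fun a => sum_nonneg fun b _ => (hnn a b).1
    have h2 : ∑ a ∈ kk G H x, En (mH G H) (dH G H) l a ≤ ∑ a, En (mH G H) (dH G H) l a :=
      sum_le_univ_sum_of_nonneg fun a => (hnn a a).2.1
    linarith

end

end Pool.Agent.Lib.MP_009d13_co.OD
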