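import Pool.Agent.Lib.MP_009d13_co.OD.BDA

/-! BDS: the sum of the weights of the low vertices. -/

set_option autoImplicit false

namespace Pool.Agent.Lib.MP_009d13_co.OD

open Finset Classical
open Pool.Agent.Lib.MP_009d13_co.P5 (nb kk)

noncomputable section

variable {V : Type} [Fintype V] (G : SimpleGraph V) (H : Finset V)

omit [Fintype V] in
theorem bds_card (s : Finset V) (p : V → Prop) [DecidablePred p] :
    ((s.filter p).card : ℝ) = ∑ z ∈ s, if p z then (1 : ℝ) else 0 := by
  rw [Finset.sum_boole]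

/-- One low vertex. -/
theorem bds_one (l : ℕ) {z : V} (h2 : (kk G H z).card ≤ 2) :
    (3 - ((kk G H z).card : ℝ)) * ff G H l z
      ≤ 1 / 2 * (∑ a ∈ H, ∑ b ∈ H.erase a, (if kk G H z = {a, b} then (1 : ℝ) else 0)
          * (2 * So (mH G H) (dH G H) l a b + 2 * En (mH G H) (dH G H) l a
            + 2 * En (mH G H) (dH G H) l b))
        + 2 * (∑ a ∈ H, (if kk G H z = {a} then (1 : ℝ) else 0)
          * (En (mH G H) (dH G H) l a + gm (mH G H) (dH G H) l a))
        + 3 * ((if kk G H z = ∅ then (1 : ℝ) else 0) * em (mH G H) (dH G H) l) := by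
  have hEn : ∀ a, 0 ≤ En (mH G H) (dH G H) l a := fun a => (bda_nn G H l a a).2.1
  have hGm : ∀ a, 0 ≤ gm (mH G H) (dH G H) l a := fun a => (bda_nn G H l a a).2.2.1
  have hEm : 0 ≤ em (mH G H) (dH G H) l := (bda_nn G H l z z).2.2.2
  have hSo : ∀ a b, 0 ≤ So (mH G H) (dH G H) l a b := fun a b => (bda_nn G H l a b).1
  have hb : ∀ P : Prop, [Decidable P] → (0 : ℝ) ≤ if P then 1 else 0 := fun P _ => by
    split_ifs <;> norm_num
  have hG : ∀ a b, 0 ≤ 2 * So (mH G H) (dH G H) l a b + 2 * En (mH G H) (dH G H) l a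
            + 2 * En (mH G H) (dH G H) l b := fun a b => by
    have := hSo a b
    have := hEn a
    have := hEn b
    linarith
  have t1 : ∀ a b, 0 ≤ (if kk G H z = {a, b} then (1 : ℝ) else 0)
      * (2 * So (mH G H) (dH G H) l a b + 2 * En (mH G H) (dH G H) l a
            + 2 * En (mH G H) (dH G H) l b) := fun a b => mul_nonneg (hb _) (hG a b)
  have t2 : ∀ a, 0 ≤ (if kk G H z = {a} then (1 : ℝ) else 0)
          * (En (mH G H) (dH G H) l a + gm (mH G H) (dH G H) l a) := fun a =>
    mul_nonneg (hb _) (add_nonneg (hEn a) (hGm a))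
  have t3 : 0 ≤ (if kk G H z = ∅ then (1 : ℝ) else 0) * em (mH G H) (dH G H) l :=
    mul_nonneg (hb _) hEm
  have s1 : 0 ≤ ∑ a ∈ H, ∑ b ∈ H.erase a, (if kk G H z = {a, b} then (1 : ℝ) else 0)
          * (2 * So (mH G H) (dH G H) l a b + 2 * En (mH G H) (dH G H) l a
            + 2 * En (mH G H) (dH G H) l b) :=
    Finset.sum_nonneg fun a _ => Finset.sum_nonneg fun b _ => t1 a b
  have s2 : 0 ≤ ∑ a ∈ H, (if kk G H z = {a} then (1 : ℝ) else 0)
          * (En (mH G H) (dH G H) l a + gm (mH G H) (dH G H) l a) :=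
    Finset.sum_nonneg fun a _ => t2 a
  have hkH : kk G H z ⊆ H := by
    unfold P5.kk
    exact Finset.inter_subset_right
  have hff0 : (kk G H z).card = 0 → ff G H l z = em (mH G H) (dH G H) l := fun h => by
    unfold ff
    rw [if_pos h]
  have hff1 : (kk G H z).card = 1 → ff G H l z
      = ∑ a ∈ kk G H z, (En (mH G H) (dH G H) l a + gm (mH G H) (dH G H) l a) := fun h => by
    unfold ff
    rw [if_neg (by omega), if_pos h]
  have hff2 : (kk G H z).card = 2 → ff G H l z
      = (∑ a ∈ kk G H z, ∑ b ∈ kk G H z, So (mH G H) (dH G H) l a b)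
        + 2 * ∑ a ∈ kk G H z, En (mH G H) (dH G H) l a := fun h => by
    unfold ff
    rw [if_neg (by omega), if_neg (by omega)]
  have hcases : (kk G H z).card = 0 ∨ (kk G H z).card = 1 ∨ (kk G H z).card = 2 := by omega
  rcases hcases with h0 | h3 | hc2
  · rw [hff0 h0, h0]
    have hempty : kk G H z = ∅ := Finset.card_eq_zero.1 h0
    have t3' : (if kk G H z = ∅ then (1 : ℝ) else 0) * em (mH G H) (dH G H) l
        = em (mH G H) (dH G H) l := by
      rw [if_pos hempty, one_mul]
    rw [t3']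
    simp only [Nat.cast_zero, sub_zero]
    linarith
  · obtain ⟨a, ha⟩ := Finset.card_eq_one.1 h3
    have haH : a ∈ H := hkH (by rw [ha]; exact Finset.mem_singleton_self a)
    have h4 : En (mH G H) (dH G H) l a + gm (mH G H) (dH G H) l a
        ≤ ∑ a ∈ H, (if kk G H z = {a} then (1 : ℝ) else 0)
          * (En (mH G H) (dH G H) l a + gm (mH G H) (dH G H) l a) := by
      refine le_trans ?_ (Finset.single_le_sum (f := fun a =>
        (if kk G H z = {a} then (1 : ℝ) else 0)
          * (En (mH G H) (dH G H) l a + gm (mH G H) (dH G H) l a)) (fun a _ => t2 a) haH)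
      show _ ≤ (if kk G H z = {a} then (1 : ℝ) else 0)
          * (En (mH G H) (dH G H) l a + gm (mH G H) (dH G H) l a)
      rw [if_pos ha, one_mul]
    rw [hff1 h3, h3]
    have h5 : ∑ a ∈ kk G H z, (En (mH G H) (dH G H) l a + gm (mH G H) (dH G H) l a)
        = En (mH G H) (dH G H) l a + gm (mH G H) (dH G H) l a := by
      rw [ha, Finset.sum_singleton]
    rw [h5]
    push_cast
    linarith
  · obtain ⟨p, q, hpq, hK⟩ := Finset.card_eq_two.1 hc2
    have hpH : p ∈ H := hkH (by rw [hK]; simp)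
    have hqH : q ∈ H := hkH (by rw [hK]; simp)
    have h4 : 2 * (2 * So (mH G H) (dH G H) l p q + 2 * En (mH G H) (dH G H) l p
            + 2 * En (mH G H) (dH G H) l q)
        ≤ ∑ a ∈ H, ∑ b ∈ H.erase a, (if kk G H z = {a, b} then (1 : ℝ) else 0)
          * (2 * So (mH G H) (dH G H) l a b + 2 * En (mH G H) (dH G H) l a
            + 2 * En (mH G H) (dH G H) l b) := by
      have hsub : ({p, q} : Finset V) ⊆ H := by
        rw [← hK]
        exact hkH
      refine le_trans ?_ (Finset.sum_le_sum_of_subset_of_nonneg hsub fun a _ _ =>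
        Finset.sum_nonneg fun b _ => t1 a b)
      rw [Finset.sum_pair hpq]
      have u1 := Finset.single_le_sum (f := fun b =>
        (if kk G H z = {p, b} then (1 : ℝ) else 0)
          * (2 * So (mH G H) (dH G H) l p b + 2 * En (mH G H) (dH G H) l p
            + 2 * En (mH G H) (dH G H) l b)) (fun b _ => t1 p b)
        (Finset.mem_erase.2 ⟨hpq.symm, hqH⟩)
      have u2 := Finset.single_le_sum (f := fun b =>
        (if kk G H z = {q, b} then (1 : ℝ) else 0)
          * (2 * So (mH G H) (dH G H) l q b + 2 * En (mH G H) (dH G H) l q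
            + 2 * En (mH G H) (dH G H) l b)) (fun b _ => t1 q b)
        (Finset.mem_erase.2 ⟨hpq, hpH⟩)
      beta_reduce at u1 u2
      rw [if_pos hK, one_mul] at u1
      rw [if_pos (by rw [hK, Finset.pair_comm]), one_mul,
        so_symm (wt_mH G H) (dH G H) l q p] at u2
      linarith
    rw [hff2 hc2, hc2]
    have h5 : (∑ a ∈ kk G H z, ∑ b ∈ kk G H z, So (mH G H) (dH G H) l a b)
        + 2 * ∑ a ∈ kk G H z, En (mH G H) (dH G H) l a
        = 2 * So (mH G H) (dH G H) l p q + 2 * En (mH G H) (dH G H) l p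
            + 2 * En (mH G H) (dH G H) l q := by
      rw [hK, Finset.sum_pair hpq, Finset.sum_pair hpq, Finset.sum_pair hpq, Finset.sum_pair hpq,
        so_self, so_self, so_symm (wt_mH G H) (dH G H) l q p]
      ring
    rw [h5]
    push_cast
    linarith

theorem sum_ff (l : ℕ) (S : Finset V) (hS : Disjoint S H)
    (h2 : ∀ z ∈ S, (kk G H z).card ≤ 2) :
    ∑ z ∈ S, (3 - ((kk G H z).card : ℝ)) * ff G H l z
      ≤ 1 / 2 * (∑ a ∈ H, ∑ b ∈ H.erase a, (P5.n2 G H a b : ℝ)
          * (2 * So (mH G H) (dH G H) l a b + 2 * En (mH G H) (dH G H) l a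
            + 2 * En (mH G H) (dH G H) l b))
        + 2 * (∑ a ∈ H, (P5.n1 G H a : ℝ)
          * (En (mH G H) (dH G H) l a + gm (mH G H) (dH G H) l a))
        + 3 * ((P5.n0 G H : ℝ) * em (mH G H) (dH G H) l) := by
  have hEn : ∀ a, 0 ≤ En (mH G H) (dH G H) l a := fun a => (bda_nn G H l a a).2.1
  have hGm : ∀ a, 0 ≤ gm (mH G H) (dH G H) l a := fun a => (bda_nn G H l a a).2.2.1
  have hSo : ∀ a b, 0 ≤ So (mH G H) (dH G H) l a b := fun a b => (bda_nn G H l a b).1
  have hb : ∀ P : Prop, [Decidable P] → (0 : ℝ) ≤ if P then 1 else 0 := fun P _ => by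
    split_ifs <;> norm_num
  have hsub : S ⊆ Hᶜ := by
    intro z hz
    rw [Finset.mem_compl]
    intro hzH
    exact Finset.disjoint_left.1 hS hz hzH
  refine (Finset.sum_le_sum fun z hz => bds_one G H l (h2 z hz)).trans ?_
  -- the right hand side as a sum over the low vertices
  have e1 : ∀ a b, (P5.n2 G H a b : ℝ) = ∑ z ∈ Hᶜ, if kk G H z = {a, b} then (1 : ℝ) else 0 :=
    fun a b => by
      unfold P5.n2
      exact bds_card Hᶜ fun z => kk G H z = {a, b}
  have e2 : ∀ a, (P5.n1 G H a : ℝ) = ∑ z ∈ Hᶜ, if kk G H z = {a} then (1 : ℝ) else 0 :=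
    fun a => by
      unfold P5.n1
      exact bds_card Hᶜ fun z => kk G H z = {a}
  have e3 : (P5.n0 G H : ℝ) = ∑ z ∈ Hᶜ, if kk G H z = ∅ then (1 : ℝ) else 0 :=
    by
      unfold P5.n0
      exact bds_card Hᶜ fun z => kk G H z = ∅
  have e4 : 1 / 2 * (∑ a ∈ H, ∑ b ∈ H.erase a, (P5.n2 G H a b : ℝ)
          * (2 * So (mH G H) (dH G H) l a b + 2 * En (mH G H) (dH G H) l a
            + 2 * En (mH G H) (dH G H) l b))
        + 2 * (∑ a ∈ H, (P5.n1 G H a : ℝ)
          * (En (mH G H) (dH G H) l a + gm (mH G H) (dH G H) l a))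
        + 3 * ((P5.n0 G H : ℝ) * em (mH G H) (dH G H) l)
      = ∑ z ∈ Hᶜ, (1 / 2 * (∑ a ∈ H, ∑ b ∈ H.erase a, (if kk G H z = {a, b} then (1 : ℝ) else 0)
          * (2 * So (mH G H) (dH G H) l a b + 2 * En (mH G H) (dH G H) l a
            + 2 * En (mH G H) (dH G H) l b))
        + 2 * (∑ a ∈ H, (if kk G H z = {a} then (1 : ℝ) else 0)
          * (En (mH G H) (dH G H) l a + gm (mH G H) (dH G H) l a))
        + 3 * ((if kk G H z = ∅ then (1 : ℝ) else 0) * em (mH G H) (dH G H) l)) := by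
    rw [Finset.sum_add_distrib, Finset.sum_add_distrib, ← Finset.mul_sum, ← Finset.mul_sum,
      ← Finset.mul_sum, ← Finset.sum_mul, ← e3]
    congr 1
    congr 1
    · congr 1
      rw [Finset.sum_comm]
      refine Finset.sum_congr rfl fun a _ => ?_
      rw [Finset.sum_comm]
      refine Finset.sum_congr rfl fun b _ => ?_
      rw [← Finset.sum_mul, ← e1]
    · congr 1
      rw [Finset.sum_comm]
      refine Finset.sum_congr rfl fun a _ => ?_
      rw [← Finset.sum_mul, ← e2]
  rw [e4]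
  refine Finset.sum_le_sum_of_subset_of_nonneg hsub fun z _ _ => ?_
  have t1 : 0 ≤ ∑ a ∈ H, ∑ b ∈ H.erase a, (if kk G H z = {a, b} then (1 : ℝ) else 0)
          * (2 * So (mH G H) (dH G H) l a b + 2 * En (mH G H) (dH G H) l a
            + 2 * En (mH G H) (dH G H) l b) :=
    Finset.sum_nonneg fun a _ => Finset.sum_nonneg fun b _ => mul_nonneg (hb _) (by
      have := hSo a b
      have := hEn a
      have := hEn b
      linarith)
  have t2 : 0 ≤ ∑ a ∈ H, (if kk G H z = {a} then (1 : ℝ) else 0)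
          * (En (mH G H) (dH G H) l a + gm (mH G H) (dH G H) l a) :=
    Finset.sum_nonneg fun a _ => mul_nonneg (hb _) (add_nonneg (hEn a) (hGm a))
  have t3 : 0 ≤ (if kk G H z = ∅ then (1 : ℝ) else 0) * em (mH G H) (dH G H) l :=
    mul_nonneg (hb _) (bda_nn G H l z z).2.2.2
  linarith

end

end Pool.Agent.Lib.MP_009d13_co.OD
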