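import Mathlib

/-! LAY: layer cake for sparse sets of pairs. -/

set_option autoImplicit false

namespace Pool.Agent.Lib.MP_009d13_co.OD

open Finset Classical

noncomputable section

theorem lay_aux {W : Type} (c : W → ℝ) (c0 : ℝ) :
    ∀ (S : Finset W) (R : Finset (W × W)) (f : W → ℝ) (F : ℝ), 0 ≤ F * c0 →
    (∀ z ∈ S, 0 ≤ f z) → (∀ z ∈ S, f z ≤ F) → 0 ≤ c0 → (∀ p ∈ R, p.1 ∈ S ∧ p.2 ∈ S) →
    (∀ Z ⊆ S, ((R.filter fun p => p.1 ∈ Z ∧ p.2 ∈ Z).card : ℝ) ≤ 2 * (∑ z ∈ Z, c z + c0)) →
    ∑ p ∈ R, min (f p.1) (f p.2) ≤ 2 * (∑ z ∈ S, c z * f z + c0 * F) := by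
  intro S
  induction S using Finset.strongInduction with
  | H S ih =>
    intro R f F hF hf0 hf hc0 hR h
    rcases S.eq_empty_or_nonempty with rfl | hne
    · have hRe : R = ∅ := by
        rw [Finset.eq_empty_iff_forall_notMem]
        intro p hp
        exact absurd (hR p hp).1 (Finset.notMem_empty _)
      rw [hRe]
      simp only [Finset.sum_empty, zero_add]
      linarith
    · obtain ⟨s0, hs0, hmin⟩ := S.exists_min_image f hne
      have hm0 : 0 ≤ f s0 := hf0 s0 hs0
      set m := f s0 with hm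
      set S' := S.erase s0 with hS'
      set R' := R.filter (fun p => p.1 ∈ S' ∧ p.2 ∈ S') with hR'
      have hsub : S' ⊂ S := Finset.erase_ssubset hs0
      have hmemS' : ∀ z, z ∈ S → z ≠ s0 → z ∈ S' := fun z hz hne => Finset.mem_erase.2 ⟨hne, hz⟩
      have hFm : m ≤ F := hf s0 hs0
      -- induction hypothesis
      have IH := ih S' hsub R' (fun z => f z - m) (F - m)
        (mul_nonneg (by linarith) hc0)
        (fun z hz => by
          have := hmin z (hsub.1 hz)
          show 0 ≤ f z - m
          linarith)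
        (fun z hz => by
          have := hf z (hsub.1 hz)
          show f z - m ≤ F - m
          linarith)
        hc0 (fun p hp => (Finset.mem_filter.1 hp).2)
        (fun Z hZ => by
          refine le_trans ?_ (h Z (hZ.trans hsub.1))
          have : (R'.filter fun p => p.1 ∈ Z ∧ p.2 ∈ Z) ⊆ (R.filter fun p => p.1 ∈ Z ∧ p.2 ∈ Z) :=
            Finset.filter_subset_filter _ (Finset.filter_subset _ _)
          exact_mod_cast Finset.card_le_card this)
      have e1 : ∑ p ∈ R, min (f p.1) (f p.2)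
          = (R.card : ℝ) * m + ∑ p ∈ R, min (f p.1 - m) (f p.2 - m) := by
        rw [← nsmul_eq_mul, ← Finset.sum_const, ← Finset.sum_add_distrib]
        refine Finset.sum_congr rfl fun p _ => ?_
        rw [min_sub_sub_right]
        ring
      have e2 : ∑ p ∈ R, min (f p.1 - m) (f p.2 - m) = ∑ p ∈ R', min (f p.1 - m) (f p.2 - m) := by
        symm
        refine Finset.sum_subset (Finset.filter_subset _ _) ?_
        intro p hp hnp
        have hpS := hR p hp
        have h1 : 0 ≤ f p.1 - m := by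
          have := hmin p.1 hpS.1
          linarith
        have h2 : 0 ≤ f p.2 - m := by
          have := hmin p.2 hpS.2
          linarith
        rw [hR', Finset.mem_filter, not_and, not_and_or] at hnp
        rcases hnp hp with h3 | h3
        · have h4 : p.1 = s0 := by
            by_contra hne
            exact h3 (hmemS' _ hpS.1 hne)
          have h5 : f p.1 - m = 0 := by
            rw [h4, hm]
            ring
          rw [h5]
          exact min_eq_left h2
        · have h4 : p.2 = s0 := by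
            by_contra hne
            exact h3 (hmemS' _ hpS.2 hne)
          have h5 : f p.2 - m = 0 := by
            rw [h4, hm]
            ring
          rw [h5]
          exact min_eq_right h1
      have e3 : (R.card : ℝ) ≤ 2 * (∑ z ∈ S, c z + c0) := by
        have h1 := h S (Finset.Subset.refl S)
        rwa [Finset.filter_true_of_mem hR] at h1
      have e4 : ∑ z ∈ S, c z * f z = ∑ z ∈ S', c z * (f z - m) + m * ∑ z ∈ S, c z := by
        have h1 : ∑ z ∈ S', c z * (f z - m) = ∑ z ∈ S, c z * (f z - m) := by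
          rw [← Finset.add_sum_erase S (fun z => c z * (f z - m)) hs0]
          show _ = c s0 * (f s0 - m) + _
          rw [← hm, sub_self, mul_zero, zero_add]
        rw [h1, Finset.mul_sum, ← Finset.sum_add_distrib]
        exact Finset.sum_congr rfl fun z _ => by ring
      rw [e1, e2, e4]
      have e5 : (R.card : ℝ) * m ≤ 2 * (∑ z ∈ S, c z + c0) * m :=
        mul_le_mul_of_nonneg_right e3 hm0
      have e6 : 2 * (∑ z ∈ S, c z + c0) * m = 2 * (m * ∑ z ∈ S, c z) + 2 * (c0 * m) := by ring
      have IH' : ∑ p ∈ R', min (f p.1 - m) (f p.2 - m)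
          ≤ 2 * (∑ z ∈ S', c z * (f z - m) + c0 * (F - m)) := IH
      have e7 : c0 * (F - m) = c0 * F - c0 * m := by ring
      rw [e7] at IH'
      linarith

theorem layer_real {W : Type} (R : Finset (W × W)) (S : Finset W) (c f : W → ℝ) (c0 F : ℝ)
    (hc : ∀ z, 0 ≤ c z) (hc0 : 0 ≤ c0) (hf0 : ∀ z, 0 ≤ f z) (hF : 0 ≤ F)
    (hf : ∀ z ∈ S, f z ≤ F) (hR : ∀ p ∈ R, p.1 ∈ S ∧ p.2 ∈ S)
    (h : ∀ Z ⊆ S, ((R.filter fun p => p.1 ∈ Z ∧ p.2 ∈ Z).card : ℝ) ≤ 2 * (∑ z ∈ Z, c z + c0)) :
    ∑ p ∈ R, min (f p.1) (f p.2) ≤ 2 * (∑ z ∈ S, c z * f z + c0 * F) := by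
  have _ := hc
  exact lay_aux c c0 S R f F (mul_nonneg hF hc0) (fun z _ => hf0 z) hf hc0 hR h

end

end Pool.Agent.Lib.MP_009d13_co.OD
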