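import Pool.Agent.Lib.MP_009d13_co.OD.BDA
import Pool.Agent.Lib.MP_009d13_co.OD.LAY
import Pool.Agent.Lib.MP_009d13_co.OD.BDS
import Pool.Agent.Lib.MP_009d13_co.OD.BDB
import Pool.Agent.Lib.MP_009d13_co.P5.K33
import Pool.Agent.Lib.MP_009d13_co.P5.BED3
import Pool.Agent.Lib.MP_009d13_co.P5.BED

/-! BDM: the pairs of low vertices. -/

set_option autoImplicit false

namespace Pool.Agent.Lib.MP_009d13_co.OD

open Finset Classical
open Pool.Agent.Lib.MP_009d13_co.P5 (nb kk)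

noncomputable section

variable {V : Type} [Fintype V] (G : SimpleGraph V) (H : Finset V)

theorem bd_main (hS : P5.Sparse6 G) (hK : P5.NoK33m G) {l : ℕ} (hl : 2 ≤ l) {k : ℕ} (hk0 : 1 ≤ k)
    (hk : ∀ Q : Finset V, Disjoint Q H → Q.card ≤ 4 * H.card ^ 3 + 1 →
      k * ∑ v ∈ Q, (nb G v).card ≤ Fintype.card V)
    (hm : ms (mH G H) ∅ ≤ 2 * (Fintype.card V : ℝ))
    (hd : ∑ a, dH G H a ≤ 6 * (Fintype.card V : ℝ)) :
    ∑ p ∈ P5.pr G Hᶜ Hᶜ, ps G H l p.1 p.2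
      ≤ (∑ a ∈ H, ∑ b ∈ H.erase a, (P5.n2 G H a b : ℝ)
          * (2 * So (mH G H) (dH G H) l a b + 2 * En (mH G H) (dH G H) l a
            + 2 * En (mH G H) (dH G H) l b))
        + 4 * (∑ a ∈ H, (P5.n1 G H a : ℝ)
          * (En (mH G H) (dH G H) l a + gm (mH G H) (dH G H) l a))
        + 6 * ((P5.n0 G H : ℝ) * em (mH G H) (dH G H) l)
        + (6 * H.card + 2 * (Fintype.card V : ℝ) / k)
          * (40 * l * 2 ^ l * (Fintype.card V : ℝ) ^ l) := by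
  obtain ⟨Q, hQH, hQc, hQ⟩ := P5.exists_cover G hK H
  have hkQ := hk Q hQH (hQc.trans (Nat.le_succ _))
  set C : ℝ := 40 * l * 2 ^ l * (Fintype.card V : ℝ) ^ l with hC
  have hC0 : 0 ≤ C := by positivity
  set W : Finset V := Hᶜ \ Q with hW
  have hWH : Disjoint W H := by
    rw [Finset.disjoint_left]
    intro z hz
    rw [hW, mem_sdiff, mem_compl] at hz
    exact hz.1
  have hW2 : ∀ z ∈ W, (kk G H z).card ≤ 2 := by
    intro z hz
    rw [hW, mem_sdiff, mem_compl] at hz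
    have := hQ z z hz.2 hz.2 hz.1 hz.1 (Or.inl rfl)
    rwa [union_self] at this
  have hR : ∀ p ∈ P5.pr G Hᶜ Hᶜ, p.1 ∉ H ∧ p.2 ∉ H ∧ G.Adj p.1 p.2 := by
    intro p hp
    simpa [P5.pr] using hp
  have hsplit : ∑ p ∈ P5.pr G Hᶜ Hᶜ, ps G H l p.1 p.2
      = ∑ p ∈ (P5.pr G Hᶜ Hᶜ).filter (fun p => p.1 ∈ Q ∨ p.2 ∈ Q), ps G H l p.1 p.2
      + ∑ p ∈ (P5.pr G Hᶜ Hᶜ).filter (fun p => ¬ (p.1 ∈ Q ∨ p.2 ∈ Q)), ps G H l p.1 p.2 := by
    rw [Finset.sum_filter_add_sum_filter_not]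
  have hbad : ∑ p ∈ (P5.pr G Hᶜ Hᶜ).filter (fun p => p.1 ∈ Q ∨ p.2 ∈ Q), ps G H l p.1 p.2
      ≤ 2 * (Fintype.card V : ℝ) / k * C := by
    refine (Finset.sum_le_card_nsmul _ _ C fun p _ => ps_crude G H hl hm hd p.1 p.2).trans ?_
    rw [nsmul_eq_mul]
    apply mul_le_mul_of_nonneg_right _ hC0
    have h1 := P5.BEDS.bad_card G (P5.pr G Hᶜ Hᶜ) (fun p hp => (hR p hp).2.2) Q
    have hk' : (0 : ℝ) < k := by exact_mod_cast hk0
    have h2 : (k : ℝ) * ((∑ v ∈ Q, (nb G v).card : ℕ) : ℝ) ≤ (Fintype.card V : ℝ) := by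
      exact_mod_cast hkQ
    have h3 : ((((P5.pr G Hᶜ Hᶜ).filter (fun p => p.1 ∈ Q ∨ p.2 ∈ Q)).card : ℕ) : ℝ)
        ≤ 2 * ((∑ v ∈ Q, (nb G v).card : ℕ) : ℝ) := by exact_mod_cast h1
    rw [le_div_iff₀ hk']
    nlinarith
  set R : Finset (V × V) := (P5.pr G Hᶜ Hᶜ).filter (fun p => ¬ (p.1 ∈ Q ∨ p.2 ∈ Q)) with hRdef
  have hRm : ∀ p ∈ R, p.1 ∈ W ∧ p.2 ∈ W ∧ G.Adj p.1 p.2 := by
    intro p hp
    rw [hRdef, mem_filter, not_or] at hp
    have h := hR p hp.1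
    rw [hW]
    simp only [mem_sdiff, mem_compl]
    exact ⟨⟨h.1, hp.2.1⟩, ⟨h.2.1, hp.2.2⟩, h.2.2⟩
  have hgood : ∑ p ∈ R, ps G H l p.1 p.2 ≤ ∑ p ∈ R, min (ff G H l p.1) (ff G H l p.2) := by
    refine Finset.sum_le_sum fun p hp => ?_
    obtain ⟨h1, h2, h3⟩ := hRm p hp
    rw [hW, mem_sdiff, mem_compl] at h1 h2
    have h4 := hQ p.1 p.2 h1.2 h2.2 h1.1 h2.1 (Or.inr h3)
    refine le_min (ps_le_ff G H l h4) ?_
    rw [ps_comm]
    rw [union_comm] at h4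
    exact ps_le_ff G H l h4
  have hlayer := layer_real R W (fun z => ((3 - (kk G H z).card : ℕ) : ℝ)) (ff G H l)
    (3 * H.card : ℝ) C (fun _ => Nat.cast_nonneg _) (by positivity) (ff_nonneg G H l) hC0
    (fun z hz => ff_crude G H hl hm hd (hW2 z hz))
    (fun p hp => ⟨(hRm p hp).1, (hRm p hp).2.1⟩) (by
      intro Z hZ
      have h1 : (R.filter fun p => p.1 ∈ Z ∧ p.2 ∈ Z).card
          ≤ 2 * (∑ z ∈ Z, (3 - (kk G H z).card) + 3 * H.card) := by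
        refine le_trans (card_le_card ?_)
          (P5.cap G hS H Z (Finset.disjoint_of_subset_left hZ hWH) fun z hz => hW2 z (hZ hz))
        intro p hp
        rw [mem_filter] at hp
        have := hRm p hp.1
        simp only [P5.pr, mem_filter, mem_univ, true_and]
        exact ⟨hp.2.1, hp.2.2, this.2.2⟩
      exact_mod_cast h1)
  have hff := sum_ff G H l W hWH hW2
  have hcast : ∑ z ∈ W, ((3 - (kk G H z).card : ℕ) : ℝ) * ff G H l z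
      = ∑ z ∈ W, (3 - ((kk G H z).card : ℝ)) * ff G H l z := by
    refine sum_congr rfl fun z hz => ?_
    have := hW2 z hz
    rw [Nat.cast_sub (by omega)]
    norm_num
  rw [hcast] at hlayer
  rw [hsplit]
  have h1 := hgood.trans hlayer
  have h2 : (6 * (H.card : ℝ) + 2 * (Fintype.card V : ℝ) / k) * C
      = 2 * (3 * H.card * C) + 2 * (Fintype.card V : ℝ) / k * C := by ring
  rw [h2]
  linarith

theorem x4_le (hS : P5.Sparse6 G) {d : ℝ} (hd0 : 0 ≤ d) (hd : ∀ v ∉ H, ((nb G v).card : ℝ) ≤ d) :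
    x4 G H ≤ 36 * d * (Fintype.card V : ℝ) := by
  set f : V → ℝ := fun z => ((nb G z).card : ℝ) with hf
  have hf0 : ∀ z, 0 ≤ f z := fun z => Nat.cast_nonneg _
  have h1 := layer_real (P5.pr G Hᶜ Hᶜ) Hᶜ (fun _ => 3) f 0 d (fun _ => by norm_num) le_rfl hf0 hd0
    (fun z hz => hd z (mem_compl.mp hz)) (by
      intro p hp
      simp only [P5.pr, mem_filter, mem_univ, true_and] at hp
      exact ⟨hp.1, hp.2.1⟩) (by
      intro Z _
      have h2 : ((P5.pr G Hᶜ Hᶜ).filter fun p => p.1 ∈ Z ∧ p.2 ∈ Z).card ≤ 6 * Z.card := by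
        refine (card_le_card ?_).trans (hS Z)
        intro p hp
        simp only [P5.pr, mem_filter, mem_univ, true_and] at hp ⊢
        exact ⟨hp.2.1, hp.2.2, hp.1.2.2⟩
      have h3 : (((P5.pr G Hᶜ Hᶜ).filter fun p => p.1 ∈ Z ∧ p.2 ∈ Z).card : ℝ)
          ≤ 6 * (Z.card : ℝ) := by exact_mod_cast h2
      refine h3.trans (le_of_eq ?_)
      rw [sum_const, nsmul_eq_mul]
      ring)
  have h2 : ∑ z ∈ Hᶜ, f z ≤ 6 * (Fintype.card V : ℝ) := by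
    have h3 := P5.BED1.sum_nb G hS
    have h4 : ∑ z, f z ≤ 6 * (Fintype.card V : ℝ) := by
      simp only [hf]
      exact_mod_cast h3
    exact (sum_le_univ_sum_of_nonneg hf0).trans h4
  have hterm : ∀ p ∈ P5.pr G Hᶜ Hᶜ, f p.1 * f p.2 ≤ d * min (f p.1) (f p.2) := by
    intro p hp
    simp only [P5.pr, mem_filter, mem_univ, true_and, mem_compl] at hp
    rw [← max_mul_min (f p.1) (f p.2)]
    exact mul_le_mul_of_nonneg_right (max_le (hd _ hp.1) (hd _ hp.2.1)) (le_min (hf0 _) (hf0 _))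
  calc x4 G H = ∑ p ∈ P5.pr G Hᶜ Hᶜ, f p.1 * f p.2 := rfl
    _ ≤ ∑ p ∈ P5.pr G Hᶜ Hᶜ, d * min (f p.1) (f p.2) := sum_le_sum hterm
    _ = d * ∑ p ∈ P5.pr G Hᶜ Hᶜ, min (f p.1) (f p.2) := by rw [mul_sum]
    _ ≤ d * (2 * (∑ z ∈ Hᶜ, 3 * f z + 0 * d)) := mul_le_mul_of_nonneg_left h1 hd0
    _ = 6 * d * ∑ z ∈ Hᶜ, f z := by rw [← mul_sum]; ring
    _ ≤ 6 * d * (6 * (Fintype.card V : ℝ)) := mul_le_mul_of_nonneg_left h2 (by positivity)
    _ = _ := by ring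

end

end Pool.Agent.Lib.MP_009d13_co.OD
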