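import Pool.Agent.Lib.MP_009d13_co.OD.JL

/-! # OD, module BR: list sums in operator form -/

set_option autoImplicit false

namespace Pool.Agent.Lib.MP_009d13_co.OD

open Finset Classical

noncomputable section

variable {V : Type} [Fintype V]

theorem br1 (μ : V → V → ℝ) (χ t : V → ℝ) (k : ℕ) :
    ∑ L ∈ NL (∅ : Finset V) (k + 1), hd χ L * pw μ L * ls t L
      = ∑ v, χ v * (Pp μ)^[k] (fun _ u => t u) ∅ v := by
  rw [sum_NL_succ, Finset.compl_empty]
  refine Finset.sum_congr rfl fun v _ => ?_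
  rw [Pp_list_ls μ t k (Finset.notMem_empty v), Finset.mul_sum]
  refine Finset.sum_congr rfl fun T _ => ?_
  have h1 : hd χ (v :: T) = χ v := rfl
  rw [h1, mul_assoc]

theorem BR_en_snoc (g : Finset V → V → ℝ) (A : Finset V) (P : List V) (x : V) :
    en g A (P ++ [x]) = g (A ∪ P.toFinset) x := by
  induction P generalizing A with
  | nil => simp [en]
  | cons p P ih =>
    have h1 : en g A (p :: P ++ [x]) = en g (insert p A) (P ++ [x]) := by
      cases P with
      | nil => rfl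
      | cons q P' => rfl
    rw [h1, ih]
    congr 1
    ext y
    simp only [mem_union, mem_insert, List.mem_toFinset, List.mem_cons]
    tauto

theorem BR_inner (μ : V → V → ℝ) (ψ : V → ℝ) (e : V → V → ℝ) (k : ℕ) (P : List V)
    (hP : P ≠ []) :
    ∑ Q ∈ NL P.toFinset (k + 1), ls (fun a => hd (e a) Q) P * pw μ Q * ls ψ Q
      = en (fun A x => ∑ y ∈ (insert x A)ᶜ,
          e x y * (Pp μ)^[k] (fun _ u => ψ u) (insert x A) y) ∅ P := by
  obtain ⟨P', x, rfl⟩ : ∃ P' x, P = P' ++ [x] :=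
    ⟨P.dropLast, P.getLast hP, (List.dropLast_append_getLast hP).symm⟩
  rw [BR_en_snoc]
  have e1 : (P' ++ [x]).toFinset = insert x (∅ ∪ P'.toFinset) := by
    ext y
    simp only [mem_insert, mem_union, List.mem_toFinset, List.mem_append, List.mem_singleton]
    simp only [notMem_empty, false_or]
    tauto
  rw [e1, sum_NL_succ]
  refine Finset.sum_congr rfl fun y hy => ?_
  have hy' : y ∉ insert x (∅ ∪ P'.toFinset) := by rwa [mem_compl] at hy
  rw [Pp_list_ls μ ψ k hy', Finset.mul_sum]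
  refine Finset.sum_congr rfl fun T _ => ?_
  rw [ls_snoc]
  have h1 : hd (e x) (y :: T) = e x y := rfl
  rw [h1, mul_assoc]

theorem br2 (μ : V → V → ℝ) (χ ψ : V → ℝ) (e : V → V → ℝ) (N : ℕ) (hN : 1 ≤ N) :
    CC μ χ e ψ (N + 1) = ∑ i ∈ range N, ∑ v, χ v * (Pp μ)^[i] (fun A x =>
      ∑ y ∈ (insert x A)ᶜ, e x y * (Pp μ)^[N - 1 - i] (fun _ u => ψ u) (insert x A) y) ∅ v := by
  unfold CC
  rw [Nat.add_sub_cancel]
  refine Finset.sum_congr rfl fun i hi => ?_
  have hi' : i < N := Finset.mem_range.mp hi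
  have e1 : N - i = (N - 1 - i) + 1 := by omega
  rw [sum_NL_succ, Finset.compl_empty]
  refine Finset.sum_congr rfl fun v _ => ?_
  rw [Pp_list μ _ i (Finset.notMem_empty v), Finset.mul_sum]
  refine Finset.sum_congr rfl fun T _ => ?_
  rw [← BR_inner μ ψ e (N - 1 - i) (v :: T) (by simp), e1, Finset.mul_sum, Finset.mul_sum]
  refine Finset.sum_congr rfl fun Q _ => ?_
  have h1 : hd χ (v :: T) = χ v := rfl
  rw [h1]
  ring

theorem BR_link {e e' : V → V → ℝ} (he : ∀ a b, e a b = e' b a) (P Q : List V) :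
    hd (fun a => ls (e' a) Q) P = ls (fun a => hd (e a) P) Q := by
  cases P with
  | nil =>
    have h1 : (fun a => hd (e a) ([] : List V)) = fun _ => (1 : ℝ) := rfl
    rw [h1, JL_ls_one]
    rfl
  | cons p T =>
    have h1 : (fun a => hd (e a) (p :: T)) = e' p := by
      funext a
      exact he a p
    rw [h1]
    rfl

theorem cc_rev {μ : V → V → ℝ} (h : Wt μ) (χ ψ : V → ℝ) {e e' : V → V → ℝ}
    (he : ∀ a b, e a b = e' b a) (N : ℕ) : CC μ χ e ψ N = CC μ ψ e' χ N := by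
  unfold CC
  rw [← Finset.sum_range_reflect (fun i => ∑ P ∈ NL (∅ : Finset V) (i + 1),
    ∑ Q ∈ NL P.toFinset (N - 1 - i),
      hd ψ P * pw μ P * ls (fun a => hd (e' a) Q) P * pw μ Q * ls χ Q) (N - 1)]
  refine Finset.sum_congr rfl fun i hi => ?_
  have hi' : i < N - 1 := Finset.mem_range.mp hi
  have e1 : N - 1 - 1 - i + 1 = N - 1 - i := by omega
  have e2 : N - 1 - (N - 1 - 1 - i) = i + 1 := by omega
  simp only [e1, e2]
  have hs := sum_NL_swap (∅ : Finset V) (N - 1 - i) (i + 1)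
    (fun P Q => hd ψ P * pw μ P * ls (fun a => hd (e' a) Q) P * pw μ Q * ls χ Q)
  simp only [Finset.empty_union] at hs
  rw [hs]
  rw [← sum_NL_reverse ∅ (i + 1) (fun Q => ∑ P ∈ NL Q.toFinset (N - 1 - i),
    hd ψ P * pw μ P * ls (fun a => hd (e' a) Q) P * pw μ Q * ls χ Q)]
  refine Finset.sum_congr rfl fun P _ => ?_
  rw [List.toFinset_reverse]
  rw [← sum_NL_reverse P.toFinset (N - 1 - i) (fun Q =>
    hd ψ Q * pw μ Q * ls (fun a => hd (e' a) P.reverse) Q * pw μ P.reverse * ls χ P.reverse)]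
  refine Finset.sum_congr rfl fun Q _ => ?_
  rw [pw_reverse μ h.symm, pw_reverse μ h.symm, ls_reverse, ls_reverse, hd_reverse]
  have h1 : (fun a => hd (e' a) P.reverse) = fun a => ls (e' a) P := rfl
  rw [h1, BR_link he Q P]
  ring

theorem wo_rev {μ : V → V → ℝ} (h : Wt μ) (χ ψ : V → ℝ) (N : ℕ) :
    ∑ L ∈ NL (∅ : Finset V) N, hd χ L * pw μ L * ls ψ L
      = ∑ L ∈ NL (∅ : Finset V) N, hd ψ L * pw μ L * ls χ L := by
  rw [← sum_NL_reverse]
  refine Finset.sum_congr rfl fun L _ => ?_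
  rw [pw_reverse μ h.symm, ls_reverse, hd_reverse]
  ring

theorem BR_hd_sq (d : V → ℝ) (L : List V) : hd (fun v => d v ^ 2) L = hd d L ^ 2 := by
  cases L with
  | nil => simp [hd]
  | cons a t => rfl

theorem BR_ls_sq (d : V → ℝ) (L : List V) : ls (fun v => d v ^ 2) L = ls d L ^ 2 :=
  BR_hd_sq d _

/-- one-sided forms -/
theorem wo_le_sq {μ : V → V → ℝ} (h : Wt μ) {d : V → ℝ} (l : ℕ) (hl : 1 ≤ l) :
    Wo μ d l ≤ ∑ v, d v ^ 2 * (Pp μ)^[l - 1] (fun _ _ => 1) ∅ v := by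
  obtain ⟨k, rfl⟩ : ∃ k, l = k + 1 := ⟨l - 1, by omega⟩
  rw [Nat.add_sub_cancel]
  have h1 := br1 μ (fun v => d v ^ 2) (fun _ => 1) k
  have h2 := wo_rev h (fun v => d v ^ 2) (fun _ => 1) (k + 1)
  have h3 : Wo μ d (k + 1)
      ≤ ((∑ L ∈ NL (∅ : Finset V) (k + 1), hd (fun v => d v ^ 2) L * pw μ L * ls (fun _ => 1) L)
        + ∑ L ∈ NL (∅ : Finset V) (k + 1),
            hd (fun _ => 1) L * pw μ L * ls (fun v => d v ^ 2) L) / 2 := by
    unfold Wo
    rw [← Finset.sum_add_distrib, Finset.sum_div]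
    refine Finset.sum_le_sum fun L _ => ?_
    rw [JL_hd_one, JL_ls_one, BR_hd_sq, BR_ls_sq]
    have hp := pw_nonneg μ h.nonneg L
    nlinarith [mul_nonneg hp (sq_nonneg (hd d L - ls d L))]
  rw [← h2, h1] at h3
  linarith

theorem cc_le_sq {μ : V → V → ℝ} (h : Wt μ) {d : V → ℝ} {e : V → V → ℝ}
    (he : ∀ a b, 0 ≤ e a b) (hs : ∀ a b, e a b = e b a) (N : ℕ) :
    CC μ d e d N ≤ CC μ (fun v => d v ^ 2) e (fun _ => 1) N := by
  have h2 := cc_rev h (fun v => d v ^ 2) (fun _ => 1) hs N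
  have h3 : CC μ d e d N ≤ (CC μ (fun v => d v ^ 2) e (fun _ => 1) N
      + CC μ (fun _ => 1) e (fun v => d v ^ 2) N) / 2 := by
    unfold CC
    rw [← Finset.sum_add_distrib, Finset.sum_div]
    refine Finset.sum_le_sum fun i _ => ?_
    rw [← Finset.sum_add_distrib, Finset.sum_div]
    refine Finset.sum_le_sum fun P _ => ?_
    rw [← Finset.sum_add_distrib, Finset.sum_div]
    refine Finset.sum_le_sum fun Q _ => ?_
    rw [JL_hd_one, JL_ls_one, BR_hd_sq, BR_ls_sq]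
    have hp := pw_nonneg μ h.nonneg P
    have hq := pw_nonneg μ h.nonneg Q
    have hE : 0 ≤ ls (fun a => hd (e a) Q) P := ls_nonneg (fun a => hd_nonneg (he a) Q) P
    nlinarith [mul_nonneg (mul_nonneg (mul_nonneg hp hE) hq) (sq_nonneg (hd d P - ls d Q))]
  rw [← h2] at h3
  linarith

theorem ao_eq {μ : V → V → ℝ} (h : Wt μ) (d : V → ℝ) (l : ℕ) :
    Ao μ d l = ∑ v, d v * (Pp μ)^[l] (fun _ _ => 1) ∅ v := by
  have h1 := br1 μ d (fun _ => 1) l
  rw [← h1]
  unfold Ao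
  rw [← sum_NL_reverse]
  refine Finset.sum_congr rfl fun L _ => ?_
  rw [pw_reverse μ h.symm, ls_reverse, JL_ls_one]
  ring

end

end Pool.Agent.Lib.MP_009d13_co.OD
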