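import Pool.Agent.Lib.MP_009d13_co.OD.OPA
import Pool.Agent.Lib.MP_009d13_co.OD.OPB

set_option autoImplicit false

namespace Pool.Agent.Lib.MP_009d13_co.OD

open Finset Classical

noncomputable section

variable {V : Type} [Fintype V]

/-! ### CAM : near jumps -/

theorem cam_Pp_mono {μ : V → V → ℝ} (h : Wt μ) {g g' : Finset V → V → ℝ}
    (hgg : ∀ B u, u ∉ B → g B u ≤ g' B u) (A : Finset V) (v : V) :
    Pp μ g A v ≤ Pp μ g' A v := by
  unfold Pp
  apply Finset.sum_le_sum
  intro b hb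
  have hb' : b ∉ insert v A := by simpa using hb
  exact mul_le_mul_of_nonneg_left (hgg _ _ hb') (h.nonneg _ _)

theorem cam_Pp_nonneg {μ : V → V → ℝ} (h : Wt μ) {g : Finset V → V → ℝ}
    (hg : ∀ B u, u ∉ B → 0 ≤ g B u) (A : Finset V) (v : V) : 0 ≤ Pp μ g A v := by
  unfold Pp
  apply Finset.sum_nonneg
  intro b hb
  have hb' : b ∉ insert v A := by simpa using hb
  exact mul_nonneg (h.nonneg _ _) (hg _ _ hb')

theorem cam_it_nonneg {μ : V → V → ℝ} (h : Wt μ) {g : Finset V → V → ℝ}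
    (hg : ∀ B u, u ∉ B → 0 ≤ g B u) (k : ℕ) {A : Finset V} {v : V} (hv : v ∉ A) :
    0 ≤ (Pp μ)^[k] g A v := by
  rw [Pp_eq_TW]
  exact TW_nonneg (fun _ _ _ => h.nonneg _ _) hg k hv

theorem cam_it_mono {μ : V → V → ℝ} (h : Wt μ) {g g' : Finset V → V → ℝ}
    (hg : ∀ B u, u ∉ B → g B u ≤ g' B u) (k : ℕ) {A : Finset V} {v : V} (hv : v ∉ A) :
    (Pp μ)^[k] g A v ≤ (Pp μ)^[k] g' A v := by
  rw [Pp_eq_TW]
  exact TW_mono (fun _ _ _ => h.nonneg _ _) hg k hv

theorem cam_it_add (μ : V → V → ℝ) (g g' : Finset V → V → ℝ) (k : ℕ) (A : Finset V) (v : V) :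
    (Pp μ)^[k] (fun B b => g B b + g' B b) A v = (Pp μ)^[k] g A v + (Pp μ)^[k] g' A v := by
  rw [Pp_eq_TW]
  exact TW_add _ g g' k A v

theorem cam_it_smul (μ : V → V → ℝ) (c : ℝ) (g : Finset V → V → ℝ) (k : ℕ) (A : Finset V)
    (v : V) : (Pp μ)^[k] (fun B b => c * g B b) A v = c * (Pp μ)^[k] g A v := by
  rw [Pp_eq_TW]
  exact TW_smul _ c g k A v

theorem cam_it_sum {ι : Type} (μ : V → V → ℝ) (s : Finset ι) (g : ι → Finset V → V → ℝ) (k : ℕ)
    (A : Finset V) (v : V) :
    (Pp μ)^[k] (fun B b => ∑ i ∈ s, g i B b) A v = ∑ i ∈ s, (Pp μ)^[k] (g i) A v := by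
  rw [Pp_eq_TW]
  exact TW_sum _ s g k A v

theorem cam_aa_nonneg (x : ℝ) : 0 ≤ aa x := by
  unfold aa
  split_ifs
  · exact mul_nonneg (by norm_num) (le_max_left _ _)
  · exact le_rfl

theorem cam_aa_le_one (x : ℝ) : aa x ≤ 1 := by
  unfold aa
  split_ifs with h
  · rcases le_total 0 (1 - x) with h1 | h1
    · rw [max_eq_right h1]; linarith
    · rw [max_eq_left h1]; norm_num
  · norm_num

theorem cam_inv_le (x : ℝ) : (if 1 / 2 ≤ x then x⁻¹ else 0) ≤ 1 + aa x := by
  unfold aa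
  split_ifs with h
  · have hx : 0 < x := by linarith
    rw [inv_le_iff_one_le_mul₀ hx]
    rcases le_total 0 (1 - x) with h1 | h1
    · rw [max_eq_right h1]; nlinarith
    · rw [max_eq_left h1]; nlinarith
  · norm_num

theorem cam_Xw_le {μ : V → V → ℝ} (h : Wt μ) {g : Finset V → V → ℝ}
    (hg : ∀ B u, u ∉ B → 0 ≤ g B u) (A : Finset V) (v : V) :
    Xw μ g A v ≤ Pp μ g A v + aa (un μ A v) * Pp μ g A v := by
  unfold Xw
  have h1 := cam_inv_le (un μ A v)
  have h2 := cam_Pp_nonneg h hg A v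
  nlinarith [mul_le_mul_of_nonneg_right h1 h2]

theorem cam_Xw_nonneg {μ : V → V → ℝ} (h : Wt μ) {g : Finset V → V → ℝ}
    (hg : ∀ B u, u ∉ B → 0 ≤ g B u) (A : Finset V) (v : V) : 0 ≤ Xw μ g A v := by
  unfold Xw
  apply mul_nonneg _ (cam_Pp_nonneg h hg A v)
  split_ifs with h1
  · exact inv_nonneg.2 (by linarith)
  · exact le_rfl

theorem cam_Xw_it_nonneg {μ : V → V → ℝ} (h : Wt μ) {g : Finset V → V → ℝ}
    (hg : ∀ B u, u ∉ B → 0 ≤ g B u) (k : ℕ) : ∀ B u, u ∉ B → 0 ≤ (Xw μ)^[k] g B u := by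
  induction k with
  | zero => exact hg
  | succ k ih =>
    intro B u hu
    rw [Function.iterate_succ_apply']
    exact cam_Xw_nonneg h ih B u

theorem cam_Xw_it_le {μ : V → V → ℝ} (h : Wt μ) {g : Finset V → V → ℝ}
    (hg : ∀ B u, u ∉ B → 0 ≤ g B u) (k : ℕ) :
    ∀ B u, u ∉ B → (Xw μ)^[k] g B u ≤ 2 ^ k * (Pp μ)^[k] g B u := by
  induction k with
  | zero => intro B u _; simp
  | succ k ih =>
    intro B u hu
    rw [Function.iterate_succ_apply', Function.iterate_succ_apply']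
    have h1 := cam_Xw_le h (cam_Xw_it_nonneg h hg k) B u
    have h2 : Pp μ ((Xw μ)^[k] g) B u ≤ 2 ^ k * Pp μ ((Pp μ)^[k] g) B u := by
      have h3 := cam_Pp_mono h ih B u
      have h4 := cam_it_smul μ (2 ^ k) ((Pp μ)^[k] g) 1 B u
      simp only [Function.iterate_one] at h4
      rw [h4] at h3
      exact h3
    have h5 := cam_Pp_nonneg h (cam_Xw_it_nonneg h hg k) B u
    have h6 := cam_aa_le_one (un μ B u)
    have h7 : aa (un μ B u) * Pp μ ((Xw μ)^[k] g) B u ≤ 1 * Pp μ ((Xw μ)^[k] g) B u :=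
      mul_le_mul_of_nonneg_right h6 h5
    rw [pow_succ]
    linarith

theorem xw_marks {μ : V → V → ℝ} (h : Wt μ) {g : Finset V → V → ℝ}
    (hg : ∀ A v, v ∉ A → 0 ≤ g A v) (τ : ℕ) {A : Finset V} {v : V} (hv : v ∉ A) :
    (Xw μ)^[τ + 1] g A v ≤ (Pp μ)^[τ + 1] g A v + 2 ^ τ * ∑ s ∈ range (τ + 1),
      (Pp μ)^[s] (fun B b => aa (un μ B b) * (Pp μ)^[τ + 1 - s] g B b) A v := by
  induction τ generalizing A v with
  | zero =>
    simp only [zero_add, Function.iterate_one, pow_zero, one_mul, Finset.sum_range_one,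
      Function.iterate_zero, id, Nat.sub_zero]
    exact cam_Xw_le h hg A v
  | succ τ ih =>
    rw [Function.iterate_succ_apply' (Xw μ)]
    have hX0 := cam_Xw_it_nonneg h hg (τ + 1)
    have h1 := cam_Xw_le h hX0 A v
    have h2 : Pp μ ((Xw μ)^[τ + 1] g) A v ≤ (Pp μ)^[τ + 1 + 1] g A v
        + 2 ^ τ * ∑ s ∈ range (τ + 1),
        (Pp μ)^[s + 1] (fun B b => aa (un μ B b) * (Pp μ)^[τ + 1 - s] g B b) A v := by
      have h3 := cam_Pp_mono h (g := (Xw μ)^[τ + 1] g) (g' := fun A v =>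
        (Pp μ)^[τ + 1] g A v + 2 ^ τ * ∑ s ∈ range (τ + 1),
        (Pp μ)^[s] (fun B b => aa (un μ B b) * (Pp μ)^[τ + 1 - s] g B b) A v)
        (fun B u hu => ih hu) A v
      have h4 := cam_it_add μ ((Pp μ)^[τ + 1] g) (fun A v => 2 ^ τ * ∑ s ∈ range (τ + 1),
        (Pp μ)^[s] (fun B b => aa (un μ B b) * (Pp μ)^[τ + 1 - s] g B b) A v) 1 A v
      have h5 := cam_it_smul μ (2 ^ τ) (fun A v => ∑ s ∈ range (τ + 1),
        (Pp μ)^[s] (fun B b => aa (un μ B b) * (Pp μ)^[τ + 1 - s] g B b) A v) 1 A v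
      have h6 := cam_it_sum μ (range (τ + 1)) (fun s A v =>
        (Pp μ)^[s] (fun B b => aa (un μ B b) * (Pp μ)^[τ + 1 - s] g B b) A v) 1 A v
      simp only [Function.iterate_one] at h4 h5 h6
      rw [h4, h5, h6] at h3
      simp only [Function.iterate_succ_apply'] at h3 ⊢
      exact h3
    have h7 : Pp μ ((Xw μ)^[τ + 1] g) A v ≤ 2 ^ (τ + 1) * (Pp μ)^[τ + 1 + 1] g A v := by
      have h3 := cam_Pp_mono h (cam_Xw_it_le h hg (τ + 1)) A v
      have h4 := cam_it_smul μ (2 ^ (τ + 1)) ((Pp μ)^[τ + 1] g) 1 A v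
      simp only [Function.iterate_one] at h4
      rw [h4] at h3
      rw [Function.iterate_succ_apply' (Pp μ) (τ + 1)]
      exact h3
    have h8 : aa (un μ A v) * Pp μ ((Xw μ)^[τ + 1] g) A v
        ≤ aa (un μ A v) * (2 ^ (τ + 1) * (Pp μ)^[τ + 1 + 1] g A v) :=
      mul_le_mul_of_nonneg_left h7 (cam_aa_nonneg _)
    have h9 : 0 ≤ ∑ s ∈ range (τ + 1),
        (Pp μ)^[s + 1] (fun B b => aa (un μ B b) * (Pp μ)^[τ + 1 - s] g B b) A v := by
      apply Finset.sum_nonneg
      intro s _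
      apply cam_it_nonneg h _ _ hv
      intro B u hu
      exact mul_nonneg (cam_aa_nonneg _) (cam_it_nonneg h hg _ hu)
    rw [Finset.sum_range_succ' _ (τ + 1)]
    simp only [Nat.add_sub_add_right, Function.iterate_zero, id, Nat.sub_zero]
    have h10 : (2 : ℝ) ^ (τ + 1) = 2 * 2 ^ τ := by ring
    have h11 : (0 : ℝ) < 2 ^ τ := by positivity
    have h12 : (2 : ℝ) ^ τ * ∑ s ∈ range (τ + 1),
        (Pp μ)^[s + 1] (fun B b => aa (un μ B b) * (Pp μ)^[τ + 1 - s] g B b) A v
        ≤ 2 ^ (τ + 1) * ∑ s ∈ range (τ + 1),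
        (Pp μ)^[s + 1] (fun B b => aa (un μ B b) * (Pp μ)^[τ + 1 - s] g B b) A v := by
      apply mul_le_mul_of_nonneg_right _ h9
      rw [h10]; linarith
    rw [mul_add]
    have h13 : (2 : ℝ) ^ (τ + 1) * (aa (un μ A v) * (Pp μ)^[τ + 1 + 1] g A v)
        = aa (un μ A v) * (2 ^ (τ + 1) * (Pp μ)^[τ + 1 + 1] g A v) := by ring
    rw [h13]
    linarith

/-- `x - 1 - log x`. -/
def cam_phi (x : ℝ) : ℝ := if x ≤ 0 then 0 else x - 1 - Real.log x

theorem cam_phi_nonneg (x : ℝ) : 0 ≤ cam_phi x := by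
  unfold cam_phi
  split_ifs with h
  · exact le_rfl
  · push Not at h
    have := Real.log_le_sub_one_of_pos h
    linarith

/-- `(1 - x)² ≤ 2 phi x` below `1`. -/
theorem cam_sq_le {x : ℝ} (h0 : 0 < x) (h1 : x ≤ 1) : (1 - x) ^ 2 ≤ 2 * cam_phi x := by
  unfold cam_phi
  rw [if_neg (by linarith)]
  -- `log x ≤ (x - 1) - (1 - x)² / 2`
  have h2 : Real.log x ≤ (x - 1) - (1 - x) ^ 2 / 2 := by
    -- exp (-(t + t²/2)) ≥ 1 - t  with t = 1 - x
    have h3 : x ≤ Real.exp ((x - 1) - (1 - x) ^ 2 / 2) := by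
      set t := 1 - x with ht
      have hx : x = 1 - t := by rw [ht]; ring
      have ht0 : 0 ≤ t := by rw [ht]; linarith
      have ht1 : t < 1 := by rw [ht]; linarith
      have h4 := Real.abs_log_sub_add_sum_range_le (x := t) (by rw [abs_of_nonneg ht0]; exact ht1) 2
      -- log (1 - t) ≤ -(t + t^2/2) through the monotone series
      have h5 : t + t ^ 2 / 2 ≤ -Real.log (1 - t) := by
        have h6 := Real.hasSum_pow_div_log_of_abs_lt_one (x := t)
          (by rw [abs_of_nonneg ht0]; exact ht1)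
        have h7 := sum_le_hasSum (range 2) (fun i _ => by positivity) h6
        simp [Finset.sum_range_succ] at h7
        norm_num at h7
        linarith
      have h8 : 0 < 1 - t := by linarith
      calc x = Real.exp (Real.log (1 - t)) := by rw [Real.exp_log h8, hx]
        _ ≤ Real.exp ((x - 1) - t ^ 2 / 2) := by
            apply Real.exp_le_exp.2
            rw [hx]
            linarith
    calc Real.log x ≤ Real.log (Real.exp ((x - 1) - (1 - x) ^ 2 / 2)) :=
          Real.log_le_log h0 h3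
      _ = _ := Real.log_exp _
  linarith

theorem cam_aa_le {ε : ℝ} (hε : 0 < ε) (x : ℝ) : aa x ≤ ε + 2 / ε * cam_phi x := by
  have h0 : 0 ≤ 2 / ε * cam_phi x := mul_nonneg (by positivity) (cam_phi_nonneg x)
  unfold aa
  split_ifs with h
  · rcases le_total 0 (1 - x) with h1 | h1
    · rw [max_eq_right h1]
      have h2 := cam_sq_le (x := x) (by linarith) (by linarith)
      have h3 : (1 - x) ^ 2 / ε ≤ 2 / ε * cam_phi x := by
        rw [div_mul_eq_mul_div]
        exact div_le_div_of_nonneg_right h2 hε.le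
      have h4 : 2 * (1 - x) ≤ ε + (1 - x) ^ 2 / ε := by
        have h5 : 0 ≤ (ε - (1 - x)) ^ 2 / ε := by positivity
        have h6 : (ε - (1 - x)) ^ 2 / ε = ε - 2 * (1 - x) + (1 - x) ^ 2 / ε := by
          field_simp
          ring
        linarith
      linarith
    · rw [max_eq_left h1]
      linarith
  · linarith

/-- The marked sum. -/
theorem cam_marked {μ : V → V → ℝ} (h : Wt μ) (K : ℕ) : ∀ {A : Finset V} {v : V}, v ∉ A →
    (Pp μ)^[K] (fun _ _ => 1) A v + ∑ m ∈ range K, (Pp μ)^[m] (fun B b => cam_phi (un μ B b)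
      * (Pp μ)^[K - m] (fun _ _ => 1) B b) A v ≤ Real.exp (ms μ A - K) := by
  induction K with
  | zero =>
    intro A v hv
    simp
    exact ms_nonneg h A
  | succ K ih =>
    intro A v hv
    rw [Finset.sum_range_succ' _ K]
    simp only [Nat.add_sub_add_right, Function.iterate_zero, id, Nat.sub_zero]
    have h1 : ∑ s ∈ range K,
        (Pp μ)^[s + 1] (fun B b => cam_phi (un μ B b) * (Pp μ)^[K - s] (fun _ _ => 1) B b) A v
        = Pp μ (fun A v => ∑ s ∈ range K,
        (Pp μ)^[s] (fun B b => cam_phi (un μ B b) * (Pp μ)^[K - s] (fun _ _ => 1) B b) A v) A v := by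
      have h6 := cam_it_sum μ (range K) (fun s A v =>
        (Pp μ)^[s] (fun B b => cam_phi (un μ B b) * (Pp μ)^[K - s] (fun _ _ => 1) B b) A v) 1 A v
      simp only [Function.iterate_one] at h6
      rw [h6]
      simp only [Function.iterate_succ_apply']
    have h2 : (Pp μ)^[K + 1] (fun _ _ => 1) A v = Pp μ ((Pp μ)^[K] (fun _ _ => 1)) A v := by
      rw [Function.iterate_succ_apply']
    rw [h1, h2]
    set P := Pp μ ((Pp μ)^[K] (fun _ _ => 1)) A v with hP
    set Q := Pp μ (fun A v => ∑ s ∈ range K,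
        (Pp μ)^[s] (fun B b => cam_phi (un μ B b) * (Pp μ)^[K - s] (fun _ _ => 1) B b) A v) A v
        with hQ
    have hQ0 : 0 ≤ Q := by
      apply cam_Pp_nonneg h
      intro B u hu
      apply Finset.sum_nonneg
      intro s _
      apply cam_it_nonneg h _ _ hu
      intro B' u' hu'
      exact mul_nonneg (cam_phi_nonneg _) (cam_it_nonneg h (fun _ _ _ => zero_le_one) _ hu')
    have hPQ : P + Q ≤ un μ A v * Real.exp (ms μ A - un μ A v - K) := by
      have h3 := cam_Pp_mono h (g := fun A v => (Pp μ)^[K] (fun _ _ => 1) A v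
        + ∑ s ∈ range K, (Pp μ)^[s] (fun B b => cam_phi (un μ B b)
          * (Pp μ)^[K - s] (fun _ _ => 1) B b) A v)
        (g' := fun A _ => Real.exp (ms μ A - K)) (fun B u hu => ih hu) A v
      have h4 := cam_it_add μ ((Pp μ)^[K] (fun _ _ => 1)) (fun A v => ∑ s ∈ range K,
        (Pp μ)^[s] (fun B b => cam_phi (un μ B b) * (Pp μ)^[K - s] (fun _ _ => 1) B b) A v) 1 A v
      simp only [Function.iterate_one] at h4
      rw [h4] at h3
      have h5 : Pp μ (fun A _ => Real.exp (ms μ A - K)) A v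
          = un μ A v * Real.exp (ms μ A - un μ A v - K) := by
        unfold Pp
        rw [← Finset.sum_mul, un_eq_insert h A v, ms_insert h hv]
      rw [h5] at h3
      exact h3
    have hf0 := cam_phi_nonneg (un μ A v)
    have hD0 := un_nonneg h A v
    have h7 : P + (Q + cam_phi (un μ A v) * P) ≤ (1 + cam_phi (un μ A v)) * (P + Q) := by
      nlinarith [mul_nonneg hf0 hQ0]
    refine h7.trans ?_
    have h8 : (1 + cam_phi (un μ A v)) * (P + Q)
        ≤ (1 + cam_phi (un μ A v)) * (un μ A v * Real.exp (ms μ A - un μ A v - K)) :=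
      mul_le_mul_of_nonneg_left hPQ (by linarith)
    refine h8.trans ?_
    rcases hD0.eq_or_lt with hD | hD
    · rw [← hD]
      simp
      exact (Real.exp_pos _).le
    · have h9 : 1 + cam_phi (un μ A v) ≤ Real.exp (cam_phi (un μ A v)) := by
        have := Real.add_one_le_exp (cam_phi (un μ A v))
        linarith
      have h10 : 0 ≤ un μ A v * Real.exp (ms μ A - un μ A v - K) :=
        mul_nonneg hD0 (Real.exp_pos _).le
      refine (mul_le_mul_of_nonneg_right h9 h10).trans ?_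
      have h11 : un μ A v = Real.exp (Real.log (un μ A v)) := (Real.exp_log hD).symm
      have h12 : cam_phi (un μ A v) = un μ A v - 1 - Real.log (un μ A v) := by
        unfold cam_phi
        rw [if_neg (by linarith)]
      have h13 : Real.exp (cam_phi (un μ A v)) * (un μ A v * Real.exp (ms μ A - un μ A v - K))
          = Real.exp (ms μ A - (K + 1 : ℕ)) := by
        conv_lhs => rw [h12]
        calc Real.exp (un μ A v - 1 - Real.log (un μ A v))
              * (un μ A v * Real.exp (ms μ A - un μ A v - K))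
            = Real.exp (un μ A v - 1 - Real.log (un μ A v))
              * (Real.exp (Real.log (un μ A v)) * Real.exp (ms μ A - un μ A v - K)) := by
              rw [Real.exp_log hD]
          _ = Real.exp (ms μ A - (K + 1 : ℕ)) := by
              rw [← Real.exp_add, ← Real.exp_add]
              congr 1
              push_cast
              ring
      exact h13.le

theorem marks_le {μ : V → V → ℝ} (h : Wt μ) {ε : ℝ} (hε : 0 < ε) (K : ℕ) {A : Finset V} {v : V}
    (hv : v ∉ A) :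
    ∑ m ∈ range K, (Pp μ)^[m] (fun B b => aa (un μ B b) * (Pp μ)^[K - m] (fun _ _ => 1) B b) A v
      ≤ (ε * K + 2 / ε) * Real.exp (ms μ A - K) := by
  have h1 := cam_marked h K hv
  have h2 : 0 ≤ (Pp μ)^[K] (fun _ _ => 1) A v :=
    cam_it_nonneg h (fun _ _ _ => zero_le_one) K hv
  have h3 : 0 ≤ ∑ m ∈ range K, (Pp μ)^[m] (fun B b => cam_phi (un μ B b)
      * (Pp μ)^[K - m] (fun _ _ => 1) B b) A v := by
    apply Finset.sum_nonneg
    intro s _
    apply cam_it_nonneg h _ _ hv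
    intro B' u' hu'
    exact mul_nonneg (cam_phi_nonneg _) (cam_it_nonneg h (fun _ _ _ => zero_le_one) _ hu')
  have h4 : ∀ m ∈ range K,
      (Pp μ)^[m] (fun B b => aa (un μ B b) * (Pp μ)^[K - m] (fun _ _ => 1) B b) A v
      ≤ ε * (Pp μ)^[K] (fun _ _ => 1) A v + 2 / ε * (Pp μ)^[m] (fun B b => cam_phi (un μ B b)
      * (Pp μ)^[K - m] (fun _ _ => 1) B b) A v := by
    intro m hm
    have hm' : m < K := Finset.mem_range.1 hm
    have h5 : (Pp μ)^[K] (fun _ _ => 1) A v
        = (Pp μ)^[m] ((Pp μ)^[K - m] (fun _ _ => 1)) A v := by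
      rw [← Function.iterate_add_apply, Nat.add_sub_cancel' hm'.le]
    rw [h5, ← cam_it_smul, ← cam_it_smul, ← cam_it_add]
    apply cam_it_mono h _ _ hv
    intro B u hu
    have h6 := cam_aa_le hε (un μ B u)
    have h7 : 0 ≤ (Pp μ)^[K - m] (fun _ _ => 1) B u :=
      cam_it_nonneg h (fun _ _ _ => zero_le_one) _ hu
    have h8 := mul_le_mul_of_nonneg_right h6 h7
    linarith
  refine (Finset.sum_le_sum h4).trans ?_
  rw [Finset.sum_add_distrib, Finset.sum_const, Finset.card_range, nsmul_eq_mul,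
    ← Finset.mul_sum]
  have h5 : (K : ℝ) * (ε * (Pp μ)^[K] (fun _ _ => 1) A v) ≤ ε * K * Real.exp (ms μ A - K) := by
    have h6 : (Pp μ)^[K] (fun _ _ => 1) A v ≤ Real.exp (ms μ A - K) := by linarith
    have h7 : 0 ≤ ε * K := by positivity
    have h8 := mul_le_mul_of_nonneg_left h6 h7
    linarith
  have h6 : 2 / ε * ∑ m ∈ range K, (Pp μ)^[m] (fun B b => cam_phi (un μ B b)
      * (Pp μ)^[K - m] (fun _ _ => 1) B b) A v ≤ 2 / ε * Real.exp (ms μ A - K) := by
    apply mul_le_mul_of_nonneg_left _ (by positivity)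
    linarith
  linarith

end

end Pool.Agent.Lib.MP_009d13_co.OD
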