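import Pool.Agent.Lib.MP_009d13_co.OD.OPA
import Pool.Agent.Lib.MP_009d13_co.OD.OPB
import Pool.Agent.Lib.MP_009d13_co.OD.CAM

/-! CAN: the near jumps, sum over all positions. -/

set_option autoImplicit false

namespace Pool.Agent.Lib.MP_009d13_co.OD

open Finset Classical

noncomputable section

variable {V : Type} [Fintype V]

theorem can_mono {μ : V → V → ℝ} (h : Wt μ) {g g' : Finset V → V → ℝ}
    (hg : ∀ A v, v ∉ A → g A v ≤ g' A v) (k : ℕ) {A : Finset V} {v : V} (hv : v ∉ A) :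
    (Pp μ)^[k] g A v ≤ (Pp μ)^[k] g' A v := by
  rw [Pp_eq_TW]
  exact TW_mono (fun _ v b => h.nonneg v b) hg k hv

theorem can_nonneg {μ : V → V → ℝ} (h : Wt μ) {g : Finset V → V → ℝ}
    (hg : ∀ A v, v ∉ A → 0 ≤ g A v) (k : ℕ) {A : Finset V} {v : V} (hv : v ∉ A) :
    0 ≤ (Pp μ)^[k] g A v := by
  rw [Pp_eq_TW]
  exact TW_nonneg (fun _ v b => h.nonneg v b) hg k hv

theorem can_one {μ : V → V → ℝ} (h : Wt μ) (k : ℕ) {A : Finset V} {v : V} (hv : v ∉ A) :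
    0 ≤ (Pp μ)^[k] (fun _ _ => 1) A v :=
  can_nonneg h (fun _ _ _ => zero_le_one) k hv

theorem can_aa (x : ℝ) : 0 ≤ aa x := by
  unfold aa
  split_ifs
  · exact mul_nonneg (by norm_num) (le_max_left _ _)
  · exact le_rfl

/-- the marked sum at position `m` out of `K` -/
def canM (μ : V → V → ℝ) (K m : ℕ) (A : Finset V) (v : V) : ℝ :=
  (Pp μ)^[m] (fun B b => aa (un μ B b) * (Pp μ)^[K - m] (fun _ _ => 1) B b) A v

theorem canM_nonneg {μ : V → V → ℝ} (h : Wt μ) (K m : ℕ) {A : Finset V} {v : V} (hv : v ∉ A) :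
    0 ≤ canM μ K m A v :=
  can_nonneg h (fun _ _ hv => mul_nonneg (can_aa _) (can_one h _ hv)) m hv

/-- one state: the natural walk followed by the rest of the path -/
theorem can_state {μ : V → V → ℝ} (h : Wt μ) {t : V → ℝ} (ht : ∀ y, t y ≤ 1)
    (j τ : ℕ) (hj : 1 ≤ j) {A : Finset V} {v : V} (hv : v ∉ A) :
    (Xw μ)^[τ + 1] (Hd μ t j) A v ≤ (Pp μ)^[τ + j] (fun _ _ => 1) A v
      + 2 ^ τ * ∑ s ∈ range (τ + 1), canM μ (τ + j) s A v := by
  have h1 : (Xw μ)^[τ + 1] (Hd μ t j) A v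
      ≤ (Xw μ)^[τ + 1] ((Pp μ)^[j - 1] (fun _ _ => 1)) A v := by
    rw [Xw_eq_TW]
    apply TW_mono _ _ _ hv
    · intro A v b
      apply mul_nonneg _ (h.nonneg v b)
      split_ifs with hc
      · exact inv_nonneg.mpr (by linarith)
      · exact le_rfl
    · intro B b hb
      unfold Hd
      calc t b * (Pp μ)^[j - 1] (fun _ _ => 1) B b ≤ 1 * (Pp μ)^[j - 1] (fun _ _ => 1) B b :=
            mul_le_mul_of_nonneg_right (ht b) (can_one h _ hb)
        _ = _ := one_mul _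
  refine h1.trans ((xw_marks h (fun _ _ hv => can_one h _ hv) τ hv).trans (le_of_eq ?_))
  congr 1
  · rw [← Function.iterate_add_apply]
    have : τ + 1 + (j - 1) = τ + j := by omega
    rw [this]
  · congr 1
    refine sum_congr rfl fun s hs => ?_
    rw [mem_range] at hs
    unfold canM
    have e0 : (fun (B : Finset V) (b : V) => aa (un μ B b) *
        (Pp μ)^[τ + 1 - s] (fun x y => (Pp μ)^[j - 1] (fun _ _ => 1) x y) B b)
        = fun B b => aa (un μ B b) * (Pp μ)^[τ + j - s] (fun _ _ => 1) B b := by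
      funext B b
      have : τ + j - s = τ + 1 - s + (j - 1) := by omega
      rw [this, Function.iterate_add_apply]
    rw [← e0]

theorem can_add (μ : V → V → ℝ) (g g' : Finset V → V → ℝ) (k : ℕ) (A : Finset V) (v : V) :
    (Pp μ)^[k] (fun A v => g A v + g' A v) A v = (Pp μ)^[k] g A v + (Pp μ)^[k] g' A v := by
  rw [Pp_eq_TW]
  exact TW_add _ _ _ _ _ _

theorem can_smul (μ : V → V → ℝ) (c : ℝ) (g : Finset V → V → ℝ) (k : ℕ) (A : Finset V) (v : V) :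
    (Pp μ)^[k] (fun A v => c * g A v) A v = c * (Pp μ)^[k] g A v := by
  rw [Pp_eq_TW]
  exact TW_smul _ _ _ _ _ _

theorem can_sum {ι : Type} (μ : V → V → ℝ) (s : Finset ι) (g : ι → Finset V → V → ℝ) (k : ℕ)
    (A : Finset V) (v : V) :
    (Pp μ)^[k] (fun A v => ∑ i ∈ s, g i A v) A v = ∑ i ∈ s, (Pp μ)^[k] (g i) A v := by
  rw [Pp_eq_TW]
  exact TW_sum _ _ _ _ _ _

/-- one position `i` and one length `τ` -/
theorem can_pos {μ : V → V → ℝ} (h : Wt μ) {e : V → V → ℝ} (he1 : ∀ a b, e a b ≤ 1)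
    {l i : ℕ} (hi : i < l) (τ : ℕ) (v : V) :
    (Pp μ)^[i] (fun A x => (Xw μ)^[τ + 1] (Hd μ (e x) (l - i)) A x) ∅ v
      ≤ (Pp μ)^[l + τ] (fun _ _ => 1) ∅ v
        + 2 ^ τ * ∑ s ∈ range (τ + 1), canM μ (l + τ) (i + s) ∅ v := by
  have hv : v ∉ (∅ : Finset V) := notMem_empty v
  have h1 : (Pp μ)^[i] (fun A x => (Xw μ)^[τ + 1] (Hd μ (e x) (l - i)) A x) ∅ v
      ≤ (Pp μ)^[i] (fun A x => (Pp μ)^[τ + (l - i)] (fun _ _ => 1) A x
        + 2 ^ τ * ∑ s ∈ range (τ + 1), canM μ (τ + (l - i)) s A x) ∅ v := by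
    apply can_mono h _ i hv
    intro A x hx
    exact can_state h (he1 x) (l - i) τ (by omega) hx
  refine h1.trans (le_of_eq ?_)
  rw [can_add μ (fun A x => (Pp μ)^[τ + (l - i)] (fun _ _ => 1) A x),
    can_smul μ (2 ^ τ) (fun A x => ∑ s ∈ range (τ + 1), canM μ (τ + (l - i)) s A x),
    can_sum μ (range (τ + 1)) (fun s A x => canM μ (τ + (l - i)) s A x)]
  congr 1
  · have e1 : (Pp μ)^[i] (fun A x => (Pp μ)^[τ + (l - i)] (fun _ _ => 1) A x) ∅ v
        = (Pp μ)^[i + (τ + (l - i))] (fun _ _ => 1) ∅ v := by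
      rw [Function.iterate_add_apply (Pp μ) i (τ + (l - i))]
    rw [e1]
    have : i + (τ + (l - i)) = l + τ := by omega
    rw [this]
  · congr 1
    refine sum_congr rfl fun s hs => ?_
    rw [mem_range] at hs
    unfold canM
    have e1 : (Pp μ)^[i] (fun A x => (Pp μ)^[s] (fun B b => aa (un μ B b) *
        (Pp μ)^[τ + (l - i) - s] (fun _ _ => 1) B b) A x) ∅ v
        = (Pp μ)^[i + s] (fun B b => aa (un μ B b) *
        (Pp μ)^[τ + (l - i) - s] (fun _ _ => 1) B b) ∅ v := by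
      rw [Function.iterate_add_apply]
    rw [e1]
    have : τ + (l - i) - s = l + τ - (i + s) := by omega
    rw [this]

/-- all positions `i` -/
theorem can_all {μ : V → V → ℝ} (h : Wt μ) {e : V → V → ℝ} (he1 : ∀ a b, e a b ≤ 1)
    {l : ℕ} (τ : ℕ) (v : V) :
    ∑ i ∈ range l, (Pp μ)^[i] (fun A x => (Xw μ)^[τ + 1] (Hd μ (e x) (l - i)) A x) ∅ v
      ≤ l * (Pp μ)^[l + τ] (fun _ _ => 1) ∅ v
        + 2 ^ τ * ((τ + 1) * ∑ m ∈ range (l + τ), canM μ (l + τ) m ∅ v) := by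
  have hv : v ∉ (∅ : Finset V) := notMem_empty v
  calc ∑ i ∈ range l, (Pp μ)^[i] (fun A x => (Xw μ)^[τ + 1] (Hd μ (e x) (l - i)) A x) ∅ v
      ≤ ∑ i ∈ range l, ((Pp μ)^[l + τ] (fun _ _ => 1) ∅ v
        + 2 ^ τ * ∑ s ∈ range (τ + 1), canM μ (l + τ) (i + s) ∅ v) :=
        sum_le_sum fun i hi => can_pos h he1 (mem_range.mp hi) τ v
    _ = l * (Pp μ)^[l + τ] (fun _ _ => 1) ∅ v
        + 2 ^ τ * ∑ s ∈ range (τ + 1), ∑ i ∈ range l, canM μ (l + τ) (i + s) ∅ v := by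
        rw [sum_add_distrib, sum_const, card_range, nsmul_eq_mul, ← mul_sum, sum_comm]
    _ ≤ l * (Pp μ)^[l + τ] (fun _ _ => 1) ∅ v
        + 2 ^ τ * ∑ s ∈ range (τ + 1), ∑ m ∈ range (l + τ), canM μ (l + τ) m ∅ v := by
        gcongr with s hs
        rw [mem_range] at hs
        have hinj : Set.InjOn (fun i => i + s) (range l : Set ℕ) := fun a _ b _ hab => by
          simpa using hab
        rw [← sum_image (f := fun m => canM μ (l + τ) m ∅ v) (g := fun i => i + s) hinj]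
        apply sum_le_sum_of_subset_of_nonneg
        · intro m hm
          rw [mem_image] at hm
          obtain ⟨i, hi, rfl⟩ := hm
          rw [mem_range] at hi ⊢
          omega
        · intro m _ _
          exact canM_nonneg h _ _ hv
    _ = _ := by
        rw [sum_const, card_range, nsmul_eq_mul]
        push_cast
        ring

theorem can_r : 2 * Real.exp (-1) ≤ 736 / 1000 := by
  rw [Real.exp_neg]
  have := Real.exp_one_gt_d9
  rw [mul_inv_le_iff₀ (Real.exp_pos 1)]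
  linarith

theorem can_geom (n : ℕ) {r : ℝ} (hr0 : 0 ≤ r) (hr : r ≤ 736 / 1000) :
    ∑ τ ∈ range n, ((τ : ℝ) + 1) * (τ + 3) * r ^ τ
      + (19 / 5 * (n : ℝ) ^ 2 + 182 / 5 * n + 124) * r ^ n ≤ 124 := by
  induction n with
  | zero => simp
  | succ n ih =>
    rw [sum_range_succ]
    refine le_trans ?_ ih
    have hn : (0 : ℝ) ≤ n := Nat.cast_nonneg n
    have hp : 0 ≤ r ^ n := by positivity
    have key : ((n : ℝ) + 1) * (n + 3) + (19 / 5 * ((n : ℝ) + 1) ^ 2 + 182 / 5 * (n + 1) + 124) * r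
        ≤ 19 / 5 * (n : ℝ) ^ 2 + 182 / 5 * n + 124 := by
      have h1 : (19 / 5 * ((n : ℝ) + 1) ^ 2 + 182 / 5 * (n + 1) + 124) * r
          ≤ (19 / 5 * ((n : ℝ) + 1) ^ 2 + 182 / 5 * (n + 1) + 124) * (736 / 1000) :=
        mul_le_mul_of_nonneg_left hr (by positivity)
      nlinarith
    have h2 := mul_le_mul_of_nonneg_right key hp
    push_cast
    rw [pow_succ r n]
    nlinarith

theorem can_num {l : ℕ} (hl : 1 ≤ l) (n : ℕ) :
    ∑ τ ∈ range n, (2 : ℝ) ^ τ * ((τ + 1) * ((1 / Real.sqrt l * ((l + τ : ℕ) : ℝ)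
      + 2 / (1 / Real.sqrt l)) * Real.exp (-τ))) ≤ 150 * Real.sqrt l := by
  have hl1 : (1 : ℝ) ≤ l := by exact_mod_cast hl
  set q := Real.sqrt l with hq
  have hq1 : 1 ≤ q := Real.one_le_sqrt.mpr hl1
  have hqq : q * q = l := Real.mul_self_sqrt (by linarith)
  have hq0 : 0 < q := by linarith
  have h1 : ∀ τ : ℕ, (2 : ℝ) ^ τ * ((τ + 1) * ((1 / q * ((l + τ : ℕ) : ℝ)
      + 2 / (1 / q)) * Real.exp (-τ))) ≤ q * (((τ : ℝ) + 1) * (τ + 3) * (2 * Real.exp (-1)) ^ τ) := by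
    intro τ
    have e1 : Real.exp (-(τ : ℝ)) = Real.exp (-1) ^ τ := by
      rw [← Real.exp_nat_mul]; ring_nf
    have hτ : (0 : ℝ) ≤ τ := Nat.cast_nonneg τ
    have h2 : 1 / q * ((l + τ : ℕ) : ℝ) + 2 / (1 / q) ≤ q * (τ + 3) := by
      have e2 : 1 / q * ((l + τ : ℕ) : ℝ) = q + τ / q := by
        push_cast
        rw [← hqq]
        field_simp
      have e3 : 2 / (1 / q) = 2 * q := by field_simp
      have e4 : (τ : ℝ) / q ≤ τ * q := by
        rw [div_le_iff₀ hq0]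
        nlinarith
      rw [e2, e3]
      linarith
    rw [e1, mul_pow]
    have h3 : 0 ≤ (2 : ℝ) ^ τ * (((τ : ℝ) + 1) * Real.exp (-1) ^ τ) := by positivity
    calc (2 : ℝ) ^ τ * (((τ : ℝ) + 1) * ((1 / q * ((l + τ : ℕ) : ℝ) + 2 / (1 / q)) *
          Real.exp (-1) ^ τ))
        = (2 : ℝ) ^ τ * (((τ : ℝ) + 1) * Real.exp (-1) ^ τ) *
          (1 / q * ((l + τ : ℕ) : ℝ) + 2 / (1 / q)) := by ring
      _ ≤ (2 : ℝ) ^ τ * (((τ : ℝ) + 1) * Real.exp (-1) ^ τ) * (q * (τ + 3)) :=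
          mul_le_mul_of_nonneg_left h2 h3
      _ = _ := by ring
  calc _ ≤ ∑ τ ∈ range n, q * (((τ : ℝ) + 1) * (τ + 3) * (2 * Real.exp (-1)) ^ τ) :=
        sum_le_sum fun τ _ => h1 τ
    _ = q * ∑ τ ∈ range n, ((τ : ℝ) + 1) * (τ + 3) * (2 * Real.exp (-1)) ^ τ := by rw [mul_sum]
    _ ≤ q * 150 := by
        apply mul_le_mul_of_nonneg_left _ hq0.le
        have h4 := can_geom n (r := 2 * Real.exp (-1)) (by positivity) can_r
        have h5 : 0 ≤ (19 / 5 * (n : ℝ) ^ 2 + 182 / 5 * n + 124) * (2 * Real.exp (-1)) ^ n := by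
          positivity
        linarith
    _ = _ := by ring

theorem ca_main {μ : V → V → ℝ} (h : Wt μ) {l : ℕ} (hl : 1 ≤ l) (hm : ms μ ∅ = l)
    {χ : V → ℝ} (hχ : ∀ v, 0 ≤ χ v) {e : V → V → ℝ}
    (he : ∀ a b, 0 ≤ e a b) (he1 : ∀ a b, e a b ≤ 1) (n : ℕ) :
    ∑ i ∈ range l, ∑ τ ∈ range n, ∑ v, χ v *
      (Pp μ)^[i] (fun A x => (Xw μ)^[τ + 1] (Hd μ (e x) (l - i)) A x) ∅ v
      ≤ l * ∑ τ ∈ range n, ∑ v, χ v * (Pp μ)^[l + τ] (fun _ _ => 1) ∅ v
        + 150 * Real.sqrt l * ∑ v, χ v := by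
  have hl1 : (1 : ℝ) ≤ l := by exact_mod_cast hl
  have hq0 : 0 < Real.sqrt l := Real.sqrt_pos.mpr (by linarith)
  have h1 : ∀ (τ : ℕ) (v : V),
      ∑ i ∈ range l, (Pp μ)^[i] (fun A x => (Xw μ)^[τ + 1] (Hd μ (e x) (l - i)) A x) ∅ v
      ≤ l * (Pp μ)^[l + τ] (fun _ _ => 1) ∅ v
        + 2 ^ τ * ((τ + 1) * ((1 / Real.sqrt l * ((l + τ : ℕ) : ℝ)
          + 2 / (1 / Real.sqrt l)) * Real.exp (-τ))) := by
    intro τ v
    refine (can_all h he1 τ v).trans ?_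
    have h2 := marks_le h (ε := 1 / Real.sqrt l) (by positivity) (l + τ) (notMem_empty v)
    rw [hm] at h2
    have e1 : (l : ℝ) - ((l + τ : ℕ) : ℝ) = -τ := by push_cast; ring
    rw [e1] at h2
    unfold canM
    gcongr
  calc ∑ i ∈ range l, ∑ τ ∈ range n, ∑ v, χ v *
      (Pp μ)^[i] (fun A x => (Xw μ)^[τ + 1] (Hd μ (e x) (l - i)) A x) ∅ v
      = ∑ τ ∈ range n, ∑ v, χ v * ∑ i ∈ range l,
        (Pp μ)^[i] (fun A x => (Xw μ)^[τ + 1] (Hd μ (e x) (l - i)) A x) ∅ v := by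
        rw [sum_comm]
        refine sum_congr rfl fun τ _ => ?_
        rw [sum_comm]
        refine sum_congr rfl fun v _ => ?_
        rw [mul_sum]
    _ ≤ ∑ τ ∈ range n, ∑ v, χ v * (l * (Pp μ)^[l + τ] (fun _ _ => 1) ∅ v
        + 2 ^ τ * ((τ + 1) * ((1 / Real.sqrt l * ((l + τ : ℕ) : ℝ)
          + 2 / (1 / Real.sqrt l)) * Real.exp (-τ)))) :=
        sum_le_sum fun τ _ => sum_le_sum fun v _ => mul_le_mul_of_nonneg_left (h1 τ v) (hχ v)
    _ = l * ∑ τ ∈ range n, ∑ v, χ v * (Pp μ)^[l + τ] (fun _ _ => 1) ∅ v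
        + (∑ τ ∈ range n, (2 : ℝ) ^ τ * ((τ + 1) * ((1 / Real.sqrt l * ((l + τ : ℕ) : ℝ)
          + 2 / (1 / Real.sqrt l)) * Real.exp (-τ)))) * ∑ v, χ v := by
        rw [mul_sum, sum_mul, ← sum_add_distrib]
        refine sum_congr rfl fun τ _ => ?_
        rw [mul_sum, mul_sum, ← sum_add_distrib]
        refine sum_congr rfl fun v _ => ?_
        ring
    _ ≤ _ := by
        apply add_le_add_right
        exact mul_le_mul_of_nonneg_right (can_num hl n) (sum_nonneg fun v _ => hχ v)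

end

end Pool.Agent.Lib.MP_009d13_co.OD
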