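import Pool.Agent.Lib.MP_009d13_co.OD.Defs

/-! # OD, module LS1: lists without repetition -/

set_option autoImplicit false

namespace Pool.Agent.Lib.MP_009d13_co.OD

open Finset Classical

noncomputable section

variable {V : Type} [Fintype V]

theorem mem_NL {A : Finset V} {k : ℕ} {L : List V} :
    L ∈ NL A k ↔ L.length = k ∧ L.Nodup ∧ ∀ x ∈ L, x ∉ A := by
  induction k generalizing A L with
  | zero =>
    constructor
    · intro h
      have : L = [] := by simpa [NL] using h
      subst this
      simp
    · rintro ⟨h, -, -⟩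
      have : L = [] := List.length_eq_zero_iff.mp h
      subst this
      simp [NL]
  | succ k ih =>
    constructor
    · intro h
      simp only [NL, mem_biUnion, mem_image, mem_compl] at h
      obtain ⟨a, ha, T, hT, rfl⟩ := h
      obtain ⟨h1, h2, h3⟩ := ih.mp hT
      refine ⟨by simp [h1], ?_, ?_⟩
      · rw [List.nodup_cons]
        refine ⟨?_, h2⟩
        intro haT
        exact h3 a haT (mem_insert_self a A)
      · intro x hx
        rcases List.mem_cons.mp hx with rfl | hx
        · exact ha
        · intro hxA
          exact h3 x hx (mem_insert_of_mem hxA)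
    · rintro ⟨h1, h2, h3⟩
      cases L with
      | nil => simp at h1
      | cons a T =>
        rw [List.nodup_cons] at h2
        simp only [NL, mem_biUnion, mem_image, mem_compl]
        refine ⟨a, h3 a (by simp), T, ?_, rfl⟩
        refine ih.mpr ⟨by simpa using h1, h2.2, ?_⟩
        intro x hx
        rw [mem_insert, not_or]
        refine ⟨?_, h3 x (List.mem_cons_of_mem a hx)⟩
        rintro rfl
        exact h2.1 hx

theorem sum_NL_zero (A : Finset V) (f : List V → ℝ) : ∑ L ∈ NL A 0, f L = f [] := by
  simp [NL]

theorem sum_NL_succ (A : Finset V) (k : ℕ) (f : List V → ℝ) :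
    ∑ L ∈ NL A (k + 1), f L = ∑ a ∈ Aᶜ, ∑ T ∈ NL (insert a A) k, f (a :: T) := by
  have hd : ((Aᶜ : Finset V) : Set V).PairwiseDisjoint
      fun a => (NL (insert a A) k).image (List.cons a) := by
    intro a _ b _ hab
    simp only [Function.onFun]
    rw [Finset.disjoint_left]
    intro L h1 h2
    simp only [mem_image] at h1 h2
    obtain ⟨T, -, rfl⟩ := h1
    obtain ⟨T', -, h⟩ := h2
    exact hab (List.cons.inj h).1.symm
  rw [NL, Finset.sum_biUnion hd]
  refine Finset.sum_congr rfl fun a _ => ?_
  rw [Finset.sum_image]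
  intro T _ T' _ h
  exact (List.cons.inj h).2

theorem NL_eq_empty (A : Finset V) (k : ℕ) (h : Aᶜ.card < k) : NL A k = ∅ := by
  rw [Finset.eq_empty_iff_forall_notMem]
  intro L hL
  obtain ⟨h1, h2, h3⟩ := mem_NL.mp hL
  have h4 : L.toFinset ⊆ Aᶜ := by
    intro x hx
    rw [mem_compl]
    exact h3 x (List.mem_toFinset.mp hx)
  have h5 := Finset.card_le_card h4
  rw [List.toFinset_card_of_nodup h2, h1] at h5
  omega

end

end Pool.Agent.Lib.MP_009d13_co.OD
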