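import Pool.Agent.Lib.MP_009d13_co.OD.LS1

/-! # OD, module LS2: concatenation, reversal and exchange of lists -/

set_option autoImplicit false

namespace Pool.Agent.Lib.MP_009d13_co.OD

open Finset Classical

noncomputable section

variable {V : Type} [Fintype V]

theorem sum_NL_append (A : Finset V) (j k : ℕ) (f : List V → ℝ) :
    ∑ L ∈ NL A (j + k), f L
      = ∑ P ∈ NL A j, ∑ Q ∈ NL (A ∪ P.toFinset) k, f (P ++ Q) := by
  induction j generalizing A f with
  | zero =>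
    rw [sum_NL_zero, Nat.zero_add]
    simp
  | succ j ih =>
    have e : j + 1 + k = (j + k) + 1 := by omega
    rw [e, sum_NL_succ, sum_NL_succ]
    refine Finset.sum_congr rfl fun a _ => ?_
    rw [ih (insert a A) (fun L => f (a :: L))]
    refine Finset.sum_congr rfl fun T _ => ?_
    have e2 : insert a A ∪ T.toFinset = A ∪ (a :: T).toFinset := by
      ext x
      simp only [mem_union, mem_insert, List.mem_toFinset, List.mem_cons]
      tauto
    rw [e2]
    rfl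

theorem sum_NL_reverse (A : Finset V) (k : ℕ) (f : List V → ℝ) :
    ∑ L ∈ NL A k, f L.reverse = ∑ L ∈ NL A k, f L := by
  refine Finset.sum_nbij' (fun L => L.reverse) (fun L => L.reverse) ?_ ?_ ?_ ?_ ?_
  · intro L hL
    obtain ⟨h1, h2, h3⟩ := mem_NL.mp hL
    refine mem_NL.mpr ⟨by simp [h1], List.nodup_reverse.mpr h2, ?_⟩
    intro x hx
    exact h3 x (List.mem_reverse.mp hx)
  · intro L hL
    obtain ⟨h1, h2, h3⟩ := mem_NL.mp hL
    refine mem_NL.mpr ⟨by simp [h1], List.nodup_reverse.mpr h2, ?_⟩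
    intro x hx
    exact h3 x (List.mem_reverse.mp hx)
  · intro L _
    exact List.reverse_reverse L
  · intro L _
    exact List.reverse_reverse L
  · intro L _
    rfl

theorem LS2_mem_pair (A : Finset V) (j k : ℕ) (P Q : List V) :
    P ∈ NL A j ∧ Q ∈ NL (A ∪ P.toFinset) k ↔ P ∈ NL (A ∪ Q.toFinset) j ∧ Q ∈ NL A k := by
  simp only [mem_NL, mem_union, List.mem_toFinset, not_or]
  constructor
  · rintro ⟨⟨h1, h2, h3⟩, h4, h5, h6⟩
    exact ⟨⟨h1, h2, fun x hx => ⟨h3 x hx, fun hxQ => (h6 x hxQ).2 hx⟩⟩, h4, h5,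
      fun x hx => (h6 x hx).1⟩
  · rintro ⟨⟨h1, h2, h3⟩, h4, h5, h6⟩
    exact ⟨⟨h1, h2, fun x hx => (h3 x hx).1⟩, h4, h5,
      fun x hx => ⟨h6 x hx, fun hxP => (h3 x hxP).2 hx⟩⟩

theorem sum_NL_swap (A : Finset V) (j k : ℕ) (f : List V → List V → ℝ) :
    ∑ P ∈ NL A j, ∑ Q ∈ NL (A ∪ P.toFinset) k, f P Q
      = ∑ Q ∈ NL A k, ∑ P ∈ NL (A ∪ Q.toFinset) j, f P Q :=
  Finset.sum_comm' (fun P Q => LS2_mem_pair A j k P Q)

end

end Pool.Agent.Lib.MP_009d13_co.OD
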