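import Pool.Agent.Lib.MP_009d13_co.OD.LS2

/-! # OD, module LS3: splitting a list at an entry -/

set_option autoImplicit false

namespace Pool.Agent.Lib.MP_009d13_co.OD

open Finset Classical

noncomputable section

variable {V : Type} [Fintype V]

theorem sum_NL_split (A : Finset V) (j : ℕ) (f : List V → ℝ) {b : V} (hb : b ∉ A) :
    ∑ L ∈ NL A j, f L = ∑ L ∈ NL (insert b A) j, f L
      + ∑ i ∈ range j, ∑ P ∈ NL (insert b A) i,
          ∑ Q ∈ NL (insert b A ∪ P.toFinset) (j - 1 - i), f (P ++ b :: Q) := by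
  induction j generalizing A f with
  | zero => simp [sum_NL_zero]
  | succ j ih =>
    have hc : (Aᶜ : Finset V) = insert b (insert b A)ᶜ := by
      ext x
      simp only [mem_compl, mem_insert, not_or]
      constructor
      · intro hx
        by_cases hxb : x = b
        · exact Or.inl hxb
        · exact Or.inr ⟨hxb, hx⟩
      · rintro (rfl | ⟨_, hx⟩)
        · exact hb
        · exact hx
    have hbn : b ∉ (insert b A)ᶜ := by simp
    rw [sum_NL_succ, hc, Finset.sum_insert hbn, sum_NL_succ, Finset.sum_range_succ']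
    have h0 : ∑ P ∈ NL (insert b A) 0,
          ∑ Q ∈ NL (insert b A ∪ P.toFinset) (j + 1 - 1 - 0), f (P ++ b :: Q)
        = ∑ T ∈ NL (insert b A) j, f (b :: T) := by
      rw [sum_NL_zero]
      simp
    rw [h0]
    have h1 : ∀ i ∈ range j, ∑ P ∈ NL (insert b A) (i + 1),
          ∑ Q ∈ NL (insert b A ∪ P.toFinset) (j + 1 - 1 - (i + 1)), f (P ++ b :: Q)
        = ∑ a ∈ (insert b A)ᶜ, ∑ P ∈ NL (insert b (insert a A)) i,
          ∑ Q ∈ NL (insert b (insert a A) ∪ P.toFinset) (j - 1 - i), f (a :: (P ++ b :: Q)) := by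
      intro i _
      rw [sum_NL_succ]
      refine Finset.sum_congr rfl fun a _ => ?_
      rw [Finset.insert_comm a b A]
      refine Finset.sum_congr rfl fun P _ => ?_
      have e1 : insert b A ∪ (a :: P).toFinset = insert b (insert a A) ∪ P.toFinset := by
        ext x
        simp only [mem_union, mem_insert, List.mem_toFinset, List.mem_cons]
        tauto
      have e2 : j + 1 - 1 - (i + 1) = j - 1 - i := by omega
      rw [e1, e2]
      rfl
    rw [Finset.sum_congr rfl h1, Finset.sum_comm]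
    have h2 : ∀ a ∈ (insert b A)ᶜ, ∑ T ∈ NL (insert a A) j, f (a :: T)
        = ∑ T ∈ NL (insert a (insert b A)) j, f (a :: T)
          + ∑ i ∈ range j, ∑ P ∈ NL (insert b (insert a A)) i,
          ∑ Q ∈ NL (insert b (insert a A) ∪ P.toFinset) (j - 1 - i), f (a :: (P ++ b :: Q)) := by
      intro a ha
      have hba : b ∉ insert a A := by
        rw [mem_compl, mem_insert, not_or] at ha
        rw [mem_insert, not_or]
        exact ⟨fun h => ha.1 h.symm, hb⟩
      rw [ih (insert a A) (fun T => f (a :: T)) hba, Finset.insert_comm a b A]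
    rw [Finset.sum_congr rfl h2, Finset.sum_add_distrib]
    ring

theorem sum_NL_vanish (A B : Finset V) (k : ℕ) (f : List V → ℝ)
    (h : ∀ L : List V, (∃ x ∈ L, x ∈ B) → f L = 0) :
    ∑ L ∈ NL A k, f L = ∑ L ∈ NL (A ∪ B) k, f L := by
  symm
  refine Finset.sum_subset ?_ ?_
  · intro L hL
    obtain ⟨h1, h2, h3⟩ := mem_NL.mp hL
    refine mem_NL.mpr ⟨h1, h2, fun x hx hxA => h3 x hx (mem_union_left B hxA)⟩
  · intro L hL hL'
    obtain ⟨h1, h2, h3⟩ := mem_NL.mp hL
    refine h L ?_
    by_contra hcon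
    push Not at hcon
    refine hL' (mem_NL.mpr ⟨h1, h2, fun x hx => ?_⟩)
    rw [mem_union, not_or]
    exact ⟨h3 x hx, hcon x hx⟩

theorem sum_NL_snoc (A : Finset V) (k : ℕ) (f : List V → ℝ) :
    ∑ L ∈ NL A (k + 1), f L
      = ∑ P ∈ NL A k, ∑ b ∈ (A ∪ P.toFinset)ᶜ, f (P ++ [b]) := by
  rw [sum_NL_append]
  refine Finset.sum_congr rfl fun P _ => ?_
  have e : (1 : ℕ) = 0 + 1 := rfl
  rw [e, sum_NL_succ]
  refine Finset.sum_congr rfl fun b _ => ?_
  rw [sum_NL_zero]

end

end Pool.Agent.Lib.MP_009d13_co.OD
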