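import Pool.Agent.Lib.MP_009d13_co.OD.Defs

/-! OPA: masses. -/

set_option autoImplicit false

namespace Pool.Agent.Lib.MP_009d13_co.OD

open Finset Classical

noncomputable section

variable {V : Type} [Fintype V]

theorem dg_eq (μ : V → V → ℝ) (v : V) : dg μ v = un μ ∅ v := by
  unfold dg un
  rw [Finset.compl_empty]

theorem un_nonneg {μ : V → V → ℝ} (h : Wt μ) (A : Finset V) (v : V) : 0 ≤ un μ A v :=
  Finset.sum_nonneg fun _ _ => h.nonneg _ _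

theorem opa_compl {A : Finset V} {v : V} (hv : v ∉ A) : insert v (insert v A)ᶜ = Aᶜ := by
  ext x
  simp only [Finset.mem_insert, Finset.mem_compl, not_or]
  constructor
  · rintro (rfl | ⟨-, hx⟩)
    · exact hv
    · exact hx
  · intro hx
    by_cases hxv : x = v
    · exact Or.inl hxv
    · exact Or.inr ⟨hxv, hx⟩

theorem opa_notMem {A : Finset V} {v : V} : v ∉ (insert v A)ᶜ := by
  simp

theorem opa_sum {A : Finset V} {v : V} (hv : v ∉ A) (f : V → ℝ) :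
    ∑ b ∈ Aᶜ, f b = f v + ∑ b ∈ (insert v A)ᶜ, f b := by
  rw [← opa_compl hv, Finset.sum_insert opa_notMem]

theorem un_insert (μ : V → V → ℝ) {A : Finset V} {v : V} (hv : v ∉ A) (z : V) :
    un μ (insert v A) z = un μ A z - μ z v := by
  have := opa_sum hv (fun b => μ z b)
  unfold un
  linarith

theorem un_anti {μ : V → V → ℝ} (h : Wt μ) {A B : Finset V} (hAB : A ⊆ B) (v : V) :
    un μ B v ≤ un μ A v := by
  apply Finset.sum_le_sum_of_subset_of_nonneg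
  · exact Finset.compl_subset_compl.2 hAB
  · intro i _ _
    exact h.nonneg _ _

theorem un_le_dg {μ : V → V → ℝ} (h : Wt μ) (A : Finset V) (v : V) : un μ A v ≤ dg μ v := by
  rw [dg_eq]
  exact un_anti h (Finset.empty_subset A) v

theorem un_eq_insert {μ : V → V → ℝ} (h : Wt μ) (A : Finset V) (v : V) :
    ∑ b ∈ (insert v A)ᶜ, μ v b = un μ A v := by
  by_cases hv : v ∈ A
  · rw [Finset.insert_eq_of_mem hv]
    rfl
  · have := opa_sum hv (fun b => μ v b)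
    unfold un
    rw [this, h.diag v, zero_add]

theorem le_un {μ : V → V → ℝ} (h : Wt μ) {A : Finset V} {v b : V} (hb : b ∉ A) :
    μ v b ≤ un μ A v :=
  Finset.single_le_sum (f := fun b => μ v b) (fun _ _ => h.nonneg _ _) (Finset.mem_compl.2 hb)

theorem ms_insert {μ : V → V → ℝ} (h : Wt μ) {A : Finset V} {v : V} (hv : v ∉ A) :
    ms μ (insert v A) = ms μ A - un μ A v := by
  have e1 : ∑ a ∈ Aᶜ, ∑ b ∈ Aᶜ, μ a b
      = ∑ b ∈ Aᶜ, μ v b + ∑ a ∈ (insert v A)ᶜ, ∑ b ∈ Aᶜ, μ a b := opa_sum hv _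
  have e2 : ∑ a ∈ (insert v A)ᶜ, ∑ b ∈ Aᶜ, μ a b
      = ∑ a ∈ (insert v A)ᶜ, (μ a v + ∑ b ∈ (insert v A)ᶜ, μ a b) :=
    Finset.sum_congr rfl fun a _ => opa_sum hv (fun b => μ a b)
  have e3 : ∑ a ∈ (insert v A)ᶜ, μ a v = un μ A v := by
    rw [← un_eq_insert h A v]
    exact Finset.sum_congr rfl fun a _ => h.symm a v
  rw [Finset.sum_add_distrib] at e2
  unfold ms
  rw [e1, e2, e3]
  show _ = (un μ A v + _) / 2 - un μ A v
  ring

theorem ms_nonneg {μ : V → V → ℝ} (h : Wt μ) (A : Finset V) : 0 ≤ ms μ A := by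
  unfold ms
  have : 0 ≤ ∑ a ∈ Aᶜ, ∑ b ∈ Aᶜ, μ a b :=
    Finset.sum_nonneg fun _ _ => Finset.sum_nonneg fun _ _ => h.nonneg _ _
  linarith

theorem un_le_ms {μ : V → V → ℝ} (h : Wt μ) {A : Finset V} {v : V} (hv : v ∉ A) :
    un μ A v ≤ ms μ A := by
  have := ms_insert h hv
  have := ms_nonneg h (insert v A)
  linarith

theorem ms_anti {μ : V → V → ℝ} (h : Wt μ) {A B : Finset V} (hAB : A ⊆ B) :
    ms μ B ≤ ms μ A := by
  unfold ms
  have : ∑ a ∈ Bᶜ, ∑ b ∈ Bᶜ, μ a b ≤ ∑ a ∈ Aᶜ, ∑ b ∈ Aᶜ, μ a b :=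
    calc ∑ a ∈ Bᶜ, ∑ b ∈ Bᶜ, μ a b ≤ ∑ a ∈ Bᶜ, ∑ b ∈ Aᶜ, μ a b :=
          Finset.sum_le_sum fun a _ => un_anti h hAB a
      _ ≤ ∑ a ∈ Aᶜ, ∑ b ∈ Aᶜ, μ a b :=
          Finset.sum_le_sum_of_subset_of_nonneg (Finset.compl_subset_compl.2 hAB)
            fun _ _ _ => Finset.sum_nonneg fun _ _ => h.nonneg _ _
  linarith

theorem sum_un {μ : V → V → ℝ} (A : Finset V) :
    ∑ z ∈ Aᶜ, un μ A z = 2 * ms μ A := by
  unfold un ms
  ring

theorem sum_dg (μ : V → V → ℝ) : ∑ z, dg μ z = 2 * ms μ ∅ := by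
  have := sum_un (μ := μ) (∅ : Finset V)
  rw [Finset.compl_empty] at this
  rw [← this]
  exact Finset.sum_congr rfl fun z _ => dg_eq μ z

end

end Pool.Agent.Lib.MP_009d13_co.OD
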