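import Pool.Agent.Lib.MP_009d13_co.OD.LS1
import Pool.Agent.Lib.MP_009d13_co.OD.OPA

/-! # OD, module OPC: operators and lists -/

set_option autoImplicit false

namespace Pool.Agent.Lib.MP_009d13_co.OD

open Finset Classical

noncomputable section

variable {V : Type} [Fintype V]

theorem Pp_list (μ : V → V → ℝ) (g : Finset V → V → ℝ) (k : ℕ) {A : Finset V} {v : V}
    (hv : v ∉ A) : (Pp μ)^[k] g A v
      = ∑ L ∈ NL (insert v A) k, pw μ (v :: L) * en g A (v :: L) := by
  induction k generalizing A v with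
  | zero =>
    rw [sum_NL_zero]
    simp [pw, en]
  | succ k ih =>
    rw [Function.iterate_succ_apply', sum_NL_succ]
    refine Finset.sum_congr rfl fun b hb => ?_
    have hb' : b ∉ insert v A := by rwa [mem_compl] at hb
    rw [ih hb', Finset.mul_sum]
    refine Finset.sum_congr rfl fun T _ => ?_
    have h1 : pw μ (v :: b :: T) = μ v b * pw μ (b :: T) := rfl
    have h2 : en g A (v :: b :: T) = en g (insert v A) (b :: T) := rfl
    rw [h1, h2, mul_assoc]

theorem OPC_en (t : V → ℝ) (A : Finset V) (v : V) (L : List V) :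
    en (fun _ u => t u) A (v :: L) = ls t (v :: L) := by
  induction L generalizing A v with
  | nil => rfl
  | cons b T ih =>
    have h1 : en (fun _ u => t u) A (v :: b :: T)
      = en (fun _ u => t u) (insert v A) (b :: T) := rfl
    rw [h1, ih]
    unfold ls
    rw [List.reverse_cons (as := b :: T)]
    have h2 : (b :: T).reverse ≠ [] := by simp
    cases h3 : (b :: T).reverse with
    | nil => exact absurd h3 h2
    | cons c S => rfl

theorem Pp_list_ls (μ : V → V → ℝ) (t : V → ℝ) (k : ℕ) {A : Finset V} {v : V} (hv : v ∉ A) :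
    (Pp μ)^[k] (fun _ u => t u) A v
      = ∑ L ∈ NL (insert v A) k, pw μ (v :: L) * ls t (v :: L) := by
  rw [Pp_list μ _ k hv]
  refine Finset.sum_congr rfl fun L _ => ?_
  rw [OPC_en]

theorem Pp_conj {μ : V → V → ℝ} (h : Wt μ) (g : Finset V → V → ℝ) (k : ℕ) {A : Finset V}
    {v : V} (hv : v ∉ A) : (Pp μ)^[k] g A v
      = Real.exp (ms μ A - k) * (Op μ)^[k] (fun A v => Real.exp (-ms μ A) * g A v) A v := by
  induction k generalizing A v with
  | zero =>
    simp only [Function.iterate_zero, id_eq, Nat.cast_zero, sub_zero]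
    rw [← mul_assoc, ← Real.exp_add]
    simp
  | succ k ih =>
    rw [Function.iterate_succ_apply', Function.iterate_succ_apply']
    unfold Pp Op Pp
    rw [← mul_assoc, ← Real.exp_add, Finset.mul_sum]
    refine Finset.sum_congr rfl fun b hb => ?_
    have hb' : b ∉ insert v A := by rwa [mem_compl] at hb
    have h1 := ih hb'
    unfold Pp at h1
    rw [h1, ms_insert h hv]
    have e : ms μ A - ((k + 1 : ℕ) : ℝ) + (1 - un μ A v) = ms μ A - un μ A v - k := by
      push_cast
      ring
    rw [e]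
    unfold Op Pp
    ring

theorem OPC_compl (A B : Finset V) (f : V → ℝ) (hf : ∀ b ∈ B, f b = 0) :
    ∑ b ∈ (A ∪ B)ᶜ, f b = ∑ b ∈ Aᶜ, f b := by
  refine Finset.sum_subset ?_ ?_
  · intro x hx
    rw [mem_compl] at hx ⊢
    exact fun h => hx (mem_union_left B h)
  · intro x hx hx'
    rw [mem_compl] at hx
    rw [mem_compl, not_not, mem_union] at hx'
    rcases hx' with h | h
    · exact absurd h hx
    · exact hf x h

/-- passing to a larger visited set that only adds hubs without mass -/
theorem Pp_zer {μ : V → V → ℝ} (h : Wt μ) (B : Finset V) (hB : ∀ a ∈ B, ∀ b, μ a b = 0)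
    (g : Finset V → V → ℝ) (hg : ∀ A v, g (A ∪ B) v = g A v) (k : ℕ) {A : Finset V} {v : V} :
    (Pp μ)^[k] g A v = (Pp μ)^[k] g (A ∪ B) v := by
  induction k generalizing A v with
  | zero => exact (hg A v).symm
  | succ k ih =>
    rw [Function.iterate_succ_apply']
    unfold Pp
    have e : insert v (A ∪ B) = insert v A ∪ B := by rw [Finset.insert_union]
    rw [e]
    rw [← OPC_compl (insert v A) B]
    · refine Finset.sum_congr rfl fun b _ => ?_
      have h1 := ih (A := insert v A) (v := b)
      unfold Pp at h1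
      rw [h1]
    · intro b hb
      rw [h.symm v b, hB b hb v, zero_mul]

theorem un_zer {μ : V → V → ℝ} (h : Wt μ) (B : Finset V) (hB : ∀ a ∈ B, ∀ b, μ a b = 0)
    (A : Finset V) (v : V) : un μ (A ∪ B) v = un μ A v := by
  unfold un
  refine OPC_compl A B _ fun b hb => ?_
  rw [h.symm v b, hB b hb v]

theorem ms_zer {μ : V → V → ℝ} (h : Wt μ) (B : Finset V) (hB : ∀ a ∈ B, ∀ b, μ a b = 0)
    (A : Finset V) : ms μ (A ∪ B) = ms μ A := by
  unfold ms
  congr 1
  have h1 : ∀ a ∈ (A ∪ B)ᶜ, ∑ b ∈ (A ∪ B)ᶜ, μ a b = ∑ b ∈ Aᶜ, μ a b := by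
    intro a _
    refine OPC_compl A B _ fun b hb => ?_
    rw [h.symm a b, hB b hb a]
  rw [Finset.sum_congr rfl h1]
  refine OPC_compl A B _ fun b hb => ?_
  exact Finset.sum_eq_zero fun c _ => hB b hb c

end

end Pool.Agent.Lib.MP_009d13_co.OD
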