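import Pool.Agent.Lib.MP_009d13_co.OD.Defs
import Pool.Agent.Lib.MP_009d13_co.OD.LS1
import Pool.Agent.Lib.MP_009d13_co.OD.LS2
import Pool.Agent.Lib.MP_009d13_co.OD.LS3
import Pool.Agent.Lib.MP_009d13_co.OD.LS4
import Pool.Agent.Lib.MP_009d13_co.OD.OPA
import Pool.Agent.Lib.MP_009d13_co.OD.OPC

/-!
# JST: one step of the natural walk from the tip of the first path
-/

set_option autoImplicit false

namespace Pool.Agent.Lib.MP_009d13_co.OD

open Finset Classical

noncomputable section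

variable {V : Type} [Fintype V]

omit [Fintype V] in
theorem JST_hd_one (L : List V) : hd (fun _ : V => (1 : ℝ)) L = 1 := by
  cases L <;> rfl

omit [Fintype V] in
theorem JST_ls_one (L : List V) : ls (fun _ : V => (1 : ℝ)) L = 1 := JST_hd_one _

theorem JST_ne {A : Finset V} {i : ℕ} (hi : 1 ≤ i) {L : List V} (hL : L ∈ NL A i) : L ≠ [] := by
  rintro rfl
  have := (mem_NL.1 hL).1
  simp at this
  omega

theorem JST_first (μ : V → V → ℝ) (t : V → ℝ) (j : ℕ) {B : Finset V} {b : V} (hb : b ∉ B) :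
    ∑ P ∈ NL (insert b B) 0, ∑ Q ∈ NL (insert b B ∪ P.toFinset) (j - 1 - 0),
      hd t (P ++ b :: Q) * pw μ (P ++ b :: Q) = Hd μ t j B b := by
  rw [sum_NL_zero]
  have h1 := Pp_list_ls μ (fun _ => (1 : ℝ)) (j - 1) hb
  unfold Hd
  rw [h1, mul_sum]
  have h2 : insert b B ∪ ([] : List V).toFinset = insert b B := by simp
  rw [h2, Nat.sub_zero]
  refine sum_congr rfl fun Q _ => ?_
  rw [JST_ls_one]
  simp [hd]

theorem JST_last {μ : V → V → ℝ} (h : Wt μ) (t : V → ℝ) {j : ℕ} (hj : 2 ≤ j) {B : Finset V}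
    {b : V} (hb : b ∉ B) :
    ∑ P ∈ NL (insert b B) (j - 1), ∑ Q ∈ NL (insert b B ∪ P.toFinset) (j - 1 - (j - 1)),
      hd t (P ++ b :: Q) * pw μ (P ++ b :: Q) = Ls μ t j B b := by
  unfold Ls
  rw [if_pos hj, Pp_list_ls μ t (j - 1) hb, ← sum_NL_reverse]
  refine sum_congr rfl fun P _ => ?_
  rw [Nat.sub_self, sum_NL_zero]
  have h1 : P.reverse ++ [b] = (b :: P).reverse := by simp
  rw [h1, pw_reverse μ h.symm, mul_comm]
  rfl

theorem JST_inner (μ : V → V → ℝ) (t : V → ℝ) (j : ℕ) (B : Finset V) (b : V) :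
    ∑ i ∈ Ico 1 (j - 1), ∑ P ∈ NL (insert b B) i, ∑ Q ∈ NL (insert b B ∪ P.toFinset) (j - 1 - i),
      hd t (P ++ b :: Q) * pw μ (P ++ b :: Q) = In μ t j B b := by
  unfold In
  refine sum_congr rfl fun i hi => sum_congr rfl fun P hP => sum_congr rfl fun Q _ => ?_
  rw [hd_append t (JST_ne (mem_Ico.1 hi).1 hP)]

theorem JST_split {μ : V → V → ℝ} (h : Wt μ) (t : V → ℝ) {j : ℕ} (hj : 1 ≤ j) {B : Finset V}
    {b : V} (hb : b ∉ B) :
    ∑ Q ∈ NL B j, hd t Q * pw μ Q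
      = JJ μ t j B b + Hd μ t j B b + Ls μ t j B b + In μ t j B b := by
  rw [sum_NL_split B j (fun Q => hd t Q * pw μ Q) hb]
  have hJ : ∑ L ∈ NL (insert b B) j, hd t L * pw μ L = JJ μ t j B b := rfl
  rw [hJ, ← JST_inner μ t j B b, ← JST_first μ t j hb]
  rcases Nat.lt_or_ge j 2 with h2 | h2
  · obtain rfl : j = 1 := by omega
    simp [Ls]
  · rw [← JST_last h t h2 hb]
    obtain ⟨m, rfl⟩ : ∃ m, j = m + 2 := ⟨j - 2, by omega⟩
    rw [sum_range_succ, Finset.range_eq_Ico, Finset.sum_eq_sum_Ico_succ_bot (by omega : 0 < m + 1)]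
    simp only [show m + 2 - 1 = m + 1 by omega, zero_add]
    ring

/-! ### JST (uses LS3 LS4 OPA OPC JL) : one step of the walk -/
theorem jstep {μ : V → V → ℝ} (h : Wt μ) (t : V → ℝ) {j : ℕ} (hj : 1 ≤ j) {A : Finset V} {x : V}
    (hx : x ∉ A) : JJ μ t j A x = wJ μ t j A x
      + Xw μ (fun B b => JJ μ t j B b + Hd μ t j B b + Ls μ t j B b + In μ t j B b) A x := by
  unfold wJ Xw
  rcases lt_or_ge (un μ A x) (1 / 2) with hD | hD
  · rw [if_pos hD, if_neg (not_le.2 hD)]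
    ring
  · rw [if_neg (not_lt.2 hD), if_pos hD, zero_add]
    have hD0 : un μ A x ≠ 0 := by
      intro h0
      rw [h0] at hD
      norm_num at hD
    have h1 : Pp μ (fun B b => JJ μ t j B b + Hd μ t j B b + Ls μ t j B b + In μ t j B b) A x
        = un μ A x * JJ μ t j A x := by
      unfold Pp
      rw [← un_eq_insert h A x, sum_mul]
      refine sum_congr rfl fun b hb => ?_
      have h2 := JST_split h t hj (mem_compl.1 hb)
      exact congrArg (fun r => μ x b * r) h2.symm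
    rw [h1, ← mul_assoc, inv_mul_cancel₀ hD0, one_mul]

end

end Pool.Agent.Lib.MP_009d13_co.OD
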