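import Pool.Agent.Lib.MP_009d13_co.OD.OPB
import Pool.Agent.Lib.MP_009d13_co.OD.JST

/-! JUN: unrolling of the jump decomposition. -/

set_option autoImplicit false

namespace Pool.Agent.Lib.MP_009d13_co.OD

open Finset Classical

noncomputable section

variable {V : Type} [Fintype V]

theorem jun_iter {μ : V → V → ℝ} (h : Wt μ) (t : V → ℝ) {j : ℕ} (hj : 1 ≤ j) {A : Finset V}
    {x : V} (hx : x ∉ A) (n : ℕ) : JJ μ t j A x
      = ∑ τ ∈ range n, ((Xw μ)^[τ] (wJ μ t j) A x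
        + (Xw μ)^[τ + 1] (Hd μ t j) A x + (Xw μ)^[τ + 1] (Ls μ t j) A x
        + (Xw μ)^[τ + 1] (In μ t j) A x) + (Xw μ)^[n] (JJ μ t j) A x := by
  induction n with
  | zero => simp
  | succ n ih =>
    rw [sum_range_succ, ih, add_assoc]
    congr 1
    have e1 : (Xw μ)^[n] (JJ μ t j) A x = (Xw μ)^[n] (fun A x => wJ μ t j A x
        + Xw μ (fun B b => JJ μ t j B b + Hd μ t j B b + Ls μ t j B b + In μ t j B b) A x) A x := by
      rw [Xw_eq_TW]
      apply TW_congr _ n hx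
      intro A v hv
      rw [← Xw_eq_TW]
      exact jstep h t hj hv
    have e2 : (Xw μ)^[n] (fun A x => wJ μ t j A x
        + Xw μ (fun B b => JJ μ t j B b + Hd μ t j B b + Ls μ t j B b + In μ t j B b) A x) A x
        = (Xw μ)^[n] (wJ μ t j) A x + (Xw μ)^[n + 1]
          (fun B b => JJ μ t j B b + Hd μ t j B b + Ls μ t j B b + In μ t j B b) A x := by
      rw [Function.iterate_succ_apply]
      conv_lhs => rw [Xw_eq_TW]
      rw [TW_add, Xw_eq_TW]
    have e3 : (Xw μ)^[n + 1]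
          (fun B b => JJ μ t j B b + Hd μ t j B b + Ls μ t j B b + In μ t j B b) A x
        = (Xw μ)^[n + 1] (JJ μ t j) A x + (Xw μ)^[n + 1] (Hd μ t j) A x
          + (Xw μ)^[n + 1] (Ls μ t j) A x + (Xw μ)^[n + 1] (In μ t j) A x := by
      rw [Xw_eq_TW, TW_add, TW_add, TW_add]
    rw [e1, e2, e3]
    ring

theorem junroll {μ : V → V → ℝ} (h : Wt μ) (t : V → ℝ) {j : ℕ} (hj : 1 ≤ j) {A : Finset V}
    {x : V} (hx : x ∉ A) : JJ μ t j A x
      = ∑ τ ∈ range (Fintype.card V), ((Xw μ)^[τ] (wJ μ t j) A x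
        + (Xw μ)^[τ + 1] (Hd μ t j) A x + (Xw μ)^[τ + 1] (Ls μ t j) A x
        + (Xw μ)^[τ + 1] (In μ t j) A x) := by
  have h1 := jun_iter h t hj hx (Fintype.card V)
  have h2 : (Xw μ)^[Fintype.card V] (JJ μ t j) A x = 0 := by
    rw [Xw_eq_TW]
    exact TW_zero _ _ le_rfl hx
  rw [h2, add_zero] at h1
  exact h1

theorem jun_scale (w : Finset V → V → V → ℝ) (c : ℝ) (g : Finset V → V → ℝ) (k : ℕ)
    (A : Finset V) (v : V) :
    (TW (fun A v b => c * w A v b))^[k] g A v = c ^ k * (TW w)^[k] g A v := by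
  induction k generalizing A v with
  | zero => simp
  | succ k ih =>
    rw [Function.iterate_succ_apply', Function.iterate_succ_apply']
    unfold TW
    rw [mul_sum]
    refine sum_congr rfl fun b _ => ?_
    have := ih (insert v A) b
    unfold TW at this
    rw [this]
    ring

theorem xw_le {μ : V → V → ℝ} (h : Wt μ) {g : Finset V → V → ℝ}
    (hg : ∀ A v, v ∉ A → 0 ≤ g A v) (τ : ℕ) {A : Finset V} {v : V} (hv : v ∉ A) :
    (Xw μ)^[τ] g A v ≤ 2 ^ τ * (Pp μ)^[τ] g A v := by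
  have h1 : (Xw μ)^[τ] g A v ≤ (TW (fun _ v b => 2 * μ v b))^[τ] g A v := by
    rw [Xw_eq_TW]
    apply TW_le _ _ hg τ hv
    · intro A v b
      apply mul_nonneg _ (h.nonneg v b)
      split_ifs with hc
      · exact inv_nonneg.mpr (by linarith)
      · exact le_rfl
    · intro A v b _ _
      apply mul_le_mul_of_nonneg_right _ (h.nonneg v b)
      split_ifs with hc
      · calc (un μ A v)⁻¹ ≤ (1 / 2 : ℝ)⁻¹ := inv_anti₀ (by norm_num) hc
          _ = 2 := by norm_num
      · norm_num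
  rw [jun_scale (fun _ v b => μ v b) 2 g τ A v, ← Pp_eq_TW] at h1
  exact h1

end

end Pool.Agent.Lib.MP_009d13_co.OD
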