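import Pool.Agent.Lib.MP_009d13_co.OD.OPA
import Pool.Agent.Lib.MP_009d13_co.OD.JUN
import Pool.Agent.Lib.MP_009d13_co.OD.GEN

/-! FB: the walk hits the last hub. -/

set_option autoImplicit false

namespace Pool.Agent.Lib.MP_009d13_co.OD

open Finset Classical

noncomputable section

variable {V : Type} [Fintype V]

theorem fb_mono {μ : V → V → ℝ} (h : Wt μ) {g g' : Finset V → V → ℝ}
    (hg : ∀ A v, v ∉ A → g A v ≤ g' A v) (k : ℕ) {A : Finset V} {v : V} (hv : v ∉ A) :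
    (Pp μ)^[k] g A v ≤ (Pp μ)^[k] g' A v := by
  rw [Pp_eq_TW]
  exact TW_mono (fun _ v b => h.nonneg v b) hg k hv

theorem fb_nonneg {μ : V → V → ℝ} (h : Wt μ) {g : Finset V → V → ℝ}
    (hg : ∀ A v, v ∉ A → 0 ≤ g A v) (k : ℕ) {A : Finset V} {v : V} (hv : v ∉ A) :
    0 ≤ (Pp μ)^[k] g A v := by
  rw [Pp_eq_TW]
  exact TW_nonneg (fun _ v b => h.nonneg v b) hg k hv

theorem fb_smul (μ : V → V → ℝ) (c : ℝ) (g : Finset V → V → ℝ) (k : ℕ) (A : Finset V) (v : V) :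
    (Pp μ)^[k] (fun A v => c * g A v) A v = c * (Pp μ)^[k] g A v := by
  rw [Pp_eq_TW]
  exact TW_smul _ _ _ _ _ _

theorem fb_two_aux {μ : V → V → ℝ} (h : Wt μ) {e : V → V → ℝ} (he : ∀ a b, 0 ≤ e a b)
    (m K : ℕ) (hm : m ≤ K) {A : Finset V} {v : V} (hv : v ∉ A) :
    ∑ i ∈ range m, (Pp μ)^[i] (fun B x => (Pp μ)^[K - i] (fun _ u => e x u) B x) A v
      ≤ (Pp μ)^[K] (fun _ u => ∑ x ∈ Aᶜ, e x u) A v := by
  induction m generalizing K A v with
  | zero =>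
    simp only [range_zero, sum_empty]
    exact fb_nonneg h (fun _ u _ => sum_nonneg fun x _ => he x u) K hv
  | succ m ih =>
    obtain ⟨K, rfl⟩ : ∃ K', K = K' + 1 := ⟨K - 1, by omega⟩
    rw [sum_range_succ']
    have e1 : ∑ i ∈ range m, (Pp μ)^[i + 1]
        (fun B x => (Pp μ)^[K + 1 - (i + 1)] (fun _ u => e x u) B x) A v
        ≤ (Pp μ)^[K + 1] (fun _ u => ∑ x ∈ (insert v A)ᶜ, e x u) A v := by
      simp only [Function.iterate_succ_apply', Nat.add_sub_add_right]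
      unfold Pp
      rw [sum_comm]
      refine sum_le_sum fun b hb => ?_
      have hb' : b ∉ insert v A := by simpa [mem_compl] using hb
      rw [← mul_sum]
      apply mul_le_mul_of_nonneg_left _ (h.nonneg v b)
      exact ih K (by omega) hb'
    have e2 : (Pp μ)^[0] (fun B x => (Pp μ)^[K + 1 - 0] (fun _ u => e x u) B x) A v
        = (Pp μ)^[K + 1] (fun _ u => e v u) A v := rfl
    rw [e2]
    refine (add_le_add_left e1 _).trans (le_of_eq ?_)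
    conv_lhs => rw [Pp_eq_TW]
    rw [← TW_add, ← Pp_eq_TW]
    have e3 : (fun (_ : Finset V) (u : V) => ∑ x ∈ Aᶜ, e x u)
        = fun _ u => ∑ x ∈ (insert v A)ᶜ, e x u + e v u := by
      funext _ u
      rw [opa_sum hv, add_comm]
    rw [e3]

theorem two_point {μ : V → V → ℝ} (h : Wt μ) {e : V → V → ℝ} (he : ∀ a b, 0 ≤ e a b) {c : ℝ}
    (hcol : ∀ y, ∑ x, e x y ≤ c) (m K : ℕ) (hm : m ≤ K) {A : Finset V} {v : V} (hv : v ∉ A) :
    ∑ i ∈ range m, (Pp μ)^[i] (fun B x => (Pp μ)^[K - i] (fun _ u => e x u) B x) A v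
      ≤ c * (Pp μ)^[K] (fun _ _ => 1) A v := by
  refine (fb_two_aux h he m K hm hv).trans ?_
  rw [← fb_smul]
  apply fb_mono h _ K hv
  intro B u _
  rw [mul_one]
  exact (sum_le_univ_sum_of_nonneg fun x => he x u).trans (hcol u)

/-- geometric sum with ratio `2 / e` -/
theorem fb_geom (n : ℕ) :
    ∑ τ ∈ range n, (2 : ℝ) ^ (τ + 1) * Real.exp (-τ) ≤ 10 := by
  have hr : 2 * Real.exp (-1) ≤ 3 / 4 := by
    rw [Real.exp_neg]
    have := Real.exp_one_gt_d9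
    rw [mul_inv_le_iff₀ (Real.exp_pos 1)]
    linarith
  have h1 : ∀ τ : ℕ, (2 : ℝ) ^ (τ + 1) * Real.exp (-τ) ≤ 2 * (3 / 4) ^ τ := by
    intro τ
    have e1 : Real.exp (-(τ : ℝ)) = Real.exp (-1) ^ τ := by
      rw [← Real.exp_nat_mul]; ring_nf
    rw [e1, pow_succ, mul_comm ((2 : ℝ) ^ τ) 2, mul_assoc, ← mul_pow]
    apply mul_le_mul_of_nonneg_left _ (by norm_num)
    exact pow_le_pow_left₀ (by positivity) hr τ
  calc ∑ τ ∈ range n, (2 : ℝ) ^ (τ + 1) * Real.exp (-τ)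
      ≤ ∑ τ ∈ range n, 2 * (3 / 4 : ℝ) ^ τ := sum_le_sum fun τ _ => h1 τ
    _ = 2 * ∑ τ ∈ range n, (3 / 4 : ℝ) ^ τ := by rw [mul_sum]
    _ ≤ 2 * 4 := by
        apply mul_le_mul_of_nonneg_left _ (by norm_num)
        rw [geom_sum_eq (by norm_num)]
        have : (0 : ℝ) ≤ (3 / 4 : ℝ) ^ n := by positivity
        rw [div_le_iff_of_neg (by norm_num)]
        linarith
    _ ≤ 10 := by norm_num

theorem far_b {μ : V → V → ℝ} (h : Wt μ) {l : ℕ} (hl : 1 ≤ l) (hm : ms μ ∅ = l)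
    {χ : V → ℝ} (hχ : ∀ v, 0 ≤ χ v) {e : V → V → ℝ} (he : ∀ a b, 0 ≤ e a b) {c : ℝ}
    (hcol : ∀ y, ∑ x, e x y ≤ c) (n : ℕ) :
    ∑ i ∈ range l, ∑ τ ∈ range n, ∑ v, χ v *
      (Pp μ)^[i] (fun A x => (Xw μ)^[τ + 1] (Ls μ (e x) (l - i)) A x) ∅ v
      ≤ 10 * c * ∑ v, χ v := by
  rcases isEmpty_or_nonempty V with hV | hV
  · simp
  have hc : 0 ≤ c := (sum_nonneg fun x _ => he x (Classical.arbitrary V)).trans (hcol _)
  -- one term
  have h1 : ∀ i ∈ range l, ∀ τ : ℕ, ∀ v : V,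
      (Pp μ)^[i] (fun A x => (Xw μ)^[τ + 1] (Ls μ (e x) (l - i)) A x) ∅ v
      ≤ 2 ^ (τ + 1) * (Pp μ)^[i] (fun A x => (Pp μ)^[(l + τ) - i] (fun _ u => e x u) A x) ∅ v := by
    intro i hi τ v
    rw [mem_range] at hi
    rw [← fb_smul]
    apply fb_mono h _ i (notMem_empty v)
    intro A x hx
    have hLs : ∀ A v, v ∉ A → 0 ≤ Ls μ (e x) (l - i) A v := by
      intro A v hv
      unfold Ls
      split_ifs
      · exact fb_nonneg h (fun _ u _ => he x u) _ hv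
      · exact le_rfl
    refine (xw_le h hLs (τ + 1) hx).trans ?_
    apply mul_le_mul_of_nonneg_left _ (by positivity)
    have e1 : (l + τ) - i = (τ + 1) + (l - i - 1) := by omega
    rw [e1, Function.iterate_add_apply (Pp μ) (τ + 1) (l - i - 1)]
    apply fb_mono h _ _ hx
    intro B u hu
    unfold Ls
    split_ifs
    · exact le_rfl
    · exact fb_nonneg h (fun _ u _ => he x u) _ hu
  have h2 : ∀ τ : ℕ, ∑ i ∈ range l, ∑ v, χ v *
      (Pp μ)^[i] (fun A x => (Xw μ)^[τ + 1] (Ls μ (e x) (l - i)) A x) ∅ v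
      ≤ c * (2 ^ (τ + 1) * Real.exp (-τ)) * ∑ v, χ v := by
    intro τ
    rw [sum_comm, mul_sum]
    refine sum_le_sum fun v _ => ?_
    rw [← mul_sum, mul_comm _ (χ v)]
    apply mul_le_mul_of_nonneg_left _ (hχ v)
    calc ∑ i ∈ range l, (Pp μ)^[i] (fun A x => (Xw μ)^[τ + 1] (Ls μ (e x) (l - i)) A x) ∅ v
        ≤ ∑ i ∈ range l, 2 ^ (τ + 1) *
          (Pp μ)^[i] (fun A x => (Pp μ)^[(l + τ) - i] (fun _ u => e x u) A x) ∅ v :=
          sum_le_sum fun i hi => h1 i hi τ v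
      _ = 2 ^ (τ + 1) * ∑ i ∈ range l,
          (Pp μ)^[i] (fun A x => (Pp μ)^[(l + τ) - i] (fun _ u => e x u) A x) ∅ v := by
          rw [mul_sum]
      _ ≤ 2 ^ (τ + 1) * (c * (Pp μ)^[l + τ] (fun _ _ => 1) ∅ v) := by
          apply mul_le_mul_of_nonneg_left _ (by positivity)
          exact two_point h he hcol l (l + τ) (by omega) (notMem_empty v)
      _ ≤ 2 ^ (τ + 1) * (c * Real.exp (-τ)) := by
          apply mul_le_mul_of_nonneg_left _ (by positivity)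
          apply mul_le_mul_of_nonneg_left _ hc
          refine (gen_exp h (l + τ) (notMem_empty v)).trans (le_of_eq ?_)
          rw [hm]; congr 1; push_cast; ring
      _ = _ := by ring
  calc ∑ i ∈ range l, ∑ τ ∈ range n, ∑ v, χ v *
      (Pp μ)^[i] (fun A x => (Xw μ)^[τ + 1] (Ls μ (e x) (l - i)) A x) ∅ v
      = ∑ τ ∈ range n, ∑ i ∈ range l, ∑ v, χ v *
        (Pp μ)^[i] (fun A x => (Xw μ)^[τ + 1] (Ls μ (e x) (l - i)) A x) ∅ v := sum_comm
    _ ≤ ∑ τ ∈ range n, c * (2 ^ (τ + 1) * Real.exp (-τ)) * ∑ v, χ v :=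
        sum_le_sum fun τ _ => h2 τ
    _ = c * (∑ τ ∈ range n, (2 : ℝ) ^ (τ + 1) * Real.exp (-τ)) * ∑ v, χ v := by
        rw [← sum_mul, ← mul_sum]
    _ ≤ c * 10 * ∑ v, χ v := by
        apply mul_le_mul_of_nonneg_right _ (sum_nonneg fun v _ => hχ v)
        exact mul_le_mul_of_nonneg_left (fb_geom n) hc
    _ = _ := by ring

end

end Pool.Agent.Lib.MP_009d13_co.OD
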