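import Pool.Agent.Lib.MP_009d13_co.OD.OPB

/-! COMP: composition of two geometric families of walks. -/

set_option autoImplicit false

namespace Pool.Agent.Lib.MP_009d13_co.OD

open Finset Classical

noncomputable section

variable {V : Type} [Fintype V]

theorem comp {μ : V → V → ℝ} (h : Wt μ) {g : Finset V → V → ℝ}
    (hg : ∀ A v, v ∉ A → 0 ≤ g A v) {r : ℝ} (hr : 0 ≤ r) (hr1 : r < 1) (m n : ℕ)
    {A : Finset V} {v : V} (hv : v ∉ A) :
    ∑ k ∈ range m, (Op μ)^[k] (fun A v => ∑ τ ∈ range n, r ^ τ * (Op μ)^[τ] g A v) A v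
      ≤ (1 / (1 - r)) * ∑ k ∈ range (m + n), (Op μ)^[k] g A v := by
  have hw : ∀ (A : Finset V) (v b : V), 0 ≤ Real.exp (1 - un μ A v) * μ v b := fun A v b =>
    mul_nonneg (Real.exp_pos _).le (h.nonneg _ _)
  rw [Op_eq_TW]
  set w : Finset V → V → V → ℝ := fun A v b => Real.exp (1 - un μ A v) * μ v b with hwdef
  have hnn : ∀ k, 0 ≤ (TW w)^[k] g A v := fun k => TW_nonneg hw hg k hv
  have h1 : ∀ k, (TW w)^[k] (fun A v => ∑ τ ∈ range n, r ^ τ * (TW w)^[τ] g A v) A v
      = ∑ τ ∈ range n, r ^ τ * (TW w)^[k + τ] g A v := by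
    intro k
    rw [TW_sum w (range n) (fun τ A v => r ^ τ * (TW w)^[τ] g A v)]
    refine Finset.sum_congr rfl fun τ _ => ?_
    rw [TW_smul w (r ^ τ) ((TW w)^[τ] g), Function.iterate_add_apply]
  simp only [h1]
  rw [Finset.sum_comm]
  have h2 : ∀ τ ∈ range n, ∑ k ∈ range m, r ^ τ * (TW w)^[k + τ] g A v
      ≤ r ^ τ * ∑ k ∈ range (m + n), (TW w)^[k] g A v := by
    intro τ hτ
    rw [← Finset.mul_sum]
    refine mul_le_mul_of_nonneg_left ?_ (pow_nonneg hr τ)
    have h3 : ∑ k ∈ range m, (TW w)^[k + τ] g A v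
        = ∑ j ∈ (range m).image (fun k => k + τ), (TW w)^[j] g A v := by
      rw [Finset.sum_image]
      intro a _ b _ hab
      exact Nat.add_right_cancel hab
    rw [h3]
    refine Finset.sum_le_sum_of_subset_of_nonneg ?_ fun j _ _ => hnn j
    intro j hj
    rw [Finset.mem_image] at hj
    obtain ⟨k, hk, rfl⟩ := hj
    rw [Finset.mem_range] at hk hτ ⊢
    omega
  refine (Finset.sum_le_sum h2).trans ?_
  rw [← Finset.sum_mul]
  refine mul_le_mul_of_nonneg_right ?_ (Finset.sum_nonneg fun k _ => hnn k)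
  have h4 : 0 < 1 - r := by linarith
  rw [le_div_iff₀ h4]
  have h5 := geom_sum_mul_neg r n
  have h6 := pow_nonneg hr n
  linarith

end

end Pool.Agent.Lib.MP_009d13_co.OD
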