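import Pool.Agent.Lib.MP_009d13_co.OD.LS2
import Pool.Agent.Lib.MP_009d13_co.OD.LS4
import Pool.Agent.Lib.MP_009d13_co.OD.OPC

/-! # OD, module JL: the second path in operator form -/

set_option autoImplicit false

namespace Pool.Agent.Lib.MP_009d13_co.OD

open Finset Classical

noncomputable section

variable {V : Type} [Fintype V]

theorem JL_hd_one (L : List V) : hd (fun _ => (1 : ℝ)) L = 1 := by
  cases L with
  | nil => rfl
  | cons a t => rfl

theorem JL_ls_one (L : List V) : ls (fun _ => (1 : ℝ)) L = 1 := JL_hd_one _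

theorem JJ_eq {μ : V → V → ℝ} (h : Wt μ) (t : V → ℝ) {j : ℕ} (hj : 1 ≤ j) (A : Finset V)
    (x : V) : JJ μ t j A x
      = ∑ y ∈ (insert x A)ᶜ, t y * (Pp μ)^[j - 1] (fun _ _ => 1) (insert x A) y := by
  obtain ⟨k, rfl⟩ : ∃ k, j = k + 1 := ⟨j - 1, by omega⟩
  unfold JJ
  rw [sum_NL_succ, Nat.add_sub_cancel]
  refine Finset.sum_congr rfl fun y hy => ?_
  have hy' : y ∉ insert x A := by rwa [mem_compl] at hy
  have h1 := Pp_list_ls μ (fun _ => 1) k hy'
  rw [h1, Finset.mul_sum]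
  refine Finset.sum_congr rfl fun T _ => ?_
  rw [JL_ls_one, mul_one]
  rfl

theorem JJ_nonneg {μ : V → V → ℝ} (h : Wt μ) {t : V → ℝ} (ht : ∀ y, 0 ≤ t y) (j : ℕ)
    (A : Finset V) (x : V) : 0 ≤ JJ μ t j A x := by
  unfold JJ
  exact Finset.sum_nonneg fun Q _ => mul_nonneg (hd_nonneg ht Q) (pw_nonneg μ h.nonneg Q)

theorem In_nonneg {μ : V → V → ℝ} (h : Wt μ) {t : V → ℝ} (ht : ∀ y, 0 ≤ t y) (j : ℕ)
    (A : Finset V) (x : V) : 0 ≤ In μ t j A x := by
  unfold In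
  exact Finset.sum_nonneg fun i _ => Finset.sum_nonneg fun Q _ => Finset.sum_nonneg fun R _ =>
    mul_nonneg (hd_nonneg ht Q) (pw_nonneg μ h.nonneg _)

end

end Pool.Agent.Lib.MP_009d13_co.OD
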