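import Pool.Agent.Lib.MP_009d13_co.OD.POT2

/-!
# POT3: one step from a weak or a very strong tip
-/

set_option autoImplicit false

namespace Pool.Agent.Lib.MP_009d13_co.OD

open Finset Classical

noncomputable section

variable {V : Type} [Fintype V]

theorem pot3_log_two : (69 / 100 : ℝ) ≤ Real.log 2 := by
  have := Real.log_two_gt_d9
  linarith

theorem pot3_D {D : ℝ} (hD : 0 < D) (h1 : D < 1 / 2 ∨ 3 < D) :
    19 / 100 ≤ D - 1 - Real.log D := by
  rcases h1 with h1 | h1
  · have h2 := Real.log_le_sub_one_of_pos (x := 2 * D) (by positivity)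
    rw [Real.log_mul (by norm_num) hD.ne'] at h2
    have h3 := pot3_log_two
    linarith
  · have h2 := Real.log_le_sub_one_of_pos (x := D / 2) (by positivity)
    rw [Real.log_div hD.ne' (by norm_num)] at h2
    have h3 := Real.log_two_lt_d9
    linarith

theorem pot3_D' {D : ℝ} (hD : 0 < D) (h1 : D < 1 / 2 ∨ 3 < D) :
    D * Real.exp (1 - D) * Real.exp (9 / 50000 * phit D) ≤ Real.exp (-(189 / 1000)) := by
  have h2 := phit_le_one D
  have h3 : D = Real.exp (Real.log D) := (Real.exp_log hD).symm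
  have h4 : D * Real.exp (1 - D) * Real.exp (9 / 50000 * phit D) =
      Real.exp (Real.log D + (1 - D) + 9 / 50000 * phit D) := by
    rw [Real.exp_add, Real.exp_add, ← h3]
  rw [h4]
  apply Real.exp_le_exp.2
  have h5 := pot3_D hD h1
  linarith

theorem step_abnormal {μ : V → V → ℝ} (h : Wt μ) {A : Finset V} {v : V} (hv : v ∉ A)
    (h6 : un μ A v ≤ 6) (h1 : un μ A v < 1 / 2 ∨ 3 < un μ A v) :
    Op μ (EE μ) A v + 1 / 10 ^ 9 * K1 μ A v ≤ EE μ A v := by
  have hE := pot2_EE_pos μ A v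
  rcases (un_nonneg h A v).eq_or_lt with hD0 | hD
  · -- no mass left
    have h2 : ∀ b ∈ (insert v A)ᶜ, μ v b = 0 := by
      have h3 := un_eq_insert h A v
      rw [← hD0] at h3
      exact (sum_eq_zero_iff_of_nonneg fun b _ => h.nonneg v b).1 h3
    have h4 : Op μ (EE μ) A v = 0 := by
      unfold Op Pp
      rw [sum_eq_zero fun b hb => by rw [h2 b hb, zero_mul], mul_zero]
    have h5 : K1 μ A v = 0 := by
      unfold K1
      rw [sum_eq_zero fun b hb => by rw [h2 b hb, zero_mul], mul_zero]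
    rw [h4, h5]
    linarith
  rw [pot2_reduce μ hD]
  have hprob := pot2_sum_p h hD
  have hp0 : ∀ b ∈ (insert v A)ᶜ, 0 ≤ μ v b / un μ A v := fun b _ =>
    div_nonneg (h.nonneg v b) hD.le
  have hp1 : ∀ b ∈ (insert v A)ᶜ, μ v b / un μ A v ≤ 1 := fun b hb => by
    rw [← hprob]
    exact single_le_sum hp0 hb
  have hle : ∑ b ∈ (insert v A)ᶜ, μ v b / un μ A v *
        (1 + 1 / 10 ^ 9 * (un μ A v * (1 - μ v b / un μ A v))) *
        Real.exp (-(9 / 50000 * (pG μ A v + pa μ A v b))) ≤ 1 * 11 / 10 := by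
    have hfin : ∑ b ∈ (insert v A)ᶜ, μ v b / un μ A v * (11 / 10) = 1 * 11 / 10 := by
      rw [← sum_mul, hprob]
      ring
    rw [← hfin]
    refine sum_le_sum fun b hb => ?_
    rw [mul_assoc]
    apply mul_le_mul_of_nonneg_left _ (hp0 b hb)
    have h3 : 0 ≤ 1 - μ v b / un μ A v := by linarith [hp1 b hb]
    have h4 : un μ A v * (1 - μ v b / un μ A v) ≤ 6 * 1 :=
      mul_le_mul h6 (by linarith [hp0 b hb]) h3 (by norm_num)
    have h5 : 1 + 1 / 10 ^ 9 * (un μ A v * (1 - μ v b / un μ A v)) ≤ 101 / 100 := by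
      linarith
    have h7 : Real.exp (-(9 / 50000 * (pG μ A v + pa μ A v b))) ≤ 101 / 100 := by
      have h8 := (pot2_G_bound h hv).1
      have h9 := (pot2_a_bound μ A v b).1
      have h10 : -(9 / 50000 * (pG μ A v + pa μ A v b)) ≤ 9 / 1000 := by linarith
      have h11 : Real.exp (9 / 1000) ≤ 101 / 100 := by
        have h12 := Real.exp_bound' (x := 9 / 1000) (by norm_num) (by norm_num) (n := 2)
          (by norm_num)
        refine h12.trans ?_
        norm_num [Finset.sum_range_succ, Nat.factorial]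
      exact (Real.exp_le_exp.2 h10).trans h11
    calc (1 + 1 / 10 ^ 9 * (un μ A v * (1 - μ v b / un μ A v))) *
        Real.exp (-(9 / 50000 * (pG μ A v + pa μ A v b))) ≤ 101 / 100 * (101 / 100) :=
          mul_le_mul h5 h7 (Real.exp_pos _).le (by norm_num)
      _ ≤ 11 / 10 := by norm_num
  have hS0 : 0 ≤ ∑ b ∈ (insert v A)ᶜ, μ v b / un μ A v *
        (1 + 1 / 10 ^ 9 * (un μ A v * (1 - μ v b / un μ A v))) *
        Real.exp (-(9 / 50000 * (pG μ A v + pa μ A v b))) := by
    refine sum_nonneg fun b hb => ?_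
    have h3 : 0 ≤ 1 - μ v b / un μ A v := by linarith [hp1 b hb]
    have h4 := hp0 b hb
    positivity
  have hfac := pot3_D' hD h1
  have hexp : Real.exp (-(189 / 1000)) ≤ 10 / 11 := by
    rw [Real.exp_neg]
    have h3 := Real.add_one_le_exp (189 / 1000 : ℝ)
    rw [inv_le_comm₀ (Real.exp_pos _) (by norm_num)]
    refine le_trans ?_ h3
    norm_num
  calc EE μ A v *
      (un μ A v * Real.exp (1 - un μ A v) * Real.exp (9 / 50000 * phit (un μ A v))) *
      ∑ b ∈ (insert v A)ᶜ, μ v b / un μ A v *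
        (1 + 1 / 10 ^ 9 * (un μ A v * (1 - μ v b / un μ A v))) *
        Real.exp (-(9 / 50000 * (pG μ A v + pa μ A v b)))
      ≤ EE μ A v * (10 / 11) * (1 * 11 / 10) := by
        apply mul_le_mul _ hle hS0 (by positivity)
        exact mul_le_mul_of_nonneg_left (hfac.trans hexp) hE.le
    _ = EE μ A v := by ring

end

end Pool.Agent.Lib.MP_009d13_co.OD
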