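import Pool.Agent.Lib.MP_009d13_co.OD.POT2
import Pool.Agent.Lib.MP_009d13_co.OD.POT3

/-!
# POT4: consequences of the one step inequalities
-/

set_option autoImplicit false

namespace Pool.Agent.Lib.MP_009d13_co.OD

open Finset Classical

noncomputable section

variable {V : Type} [Fintype V]

theorem pot4_step {μ : V → V → ℝ} (h : Wt μ) (h6 : ∀ v, dg μ v ≤ 6) {A : Finset V} {v : V}
    (hv : v ∉ A) : Op μ (EE μ) A v + 1 / 10 ^ 9 * K1 μ A v ≤ EE μ A v := by
  have hD6 : un μ A v ≤ 6 := (un_le_dg h A v).trans (h6 v)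
  rcases lt_or_ge (un μ A v) (1 / 2) with h1 | h1
  · exact step_abnormal h hv hD6 (Or.inl h1)
  · rcases le_or_gt (un μ A v) 3 with h2 | h2
    · exact step_normal h hv h1 h2
    · exact step_abnormal h hv hD6 (Or.inr h2)

theorem pot4_K1_nonneg {μ : V → V → ℝ} (h : Wt μ) {A : Finset V} {v : V} :
    0 ≤ K1 μ A v := by
  unfold K1
  refine mul_nonneg (Real.exp_pos _).le (sum_nonneg fun b hb => ?_)
  refine mul_nonneg (h.nonneg v b) (mul_nonneg ?_ (pot2_EE_pos μ _ _).le)
  have hb' : b ∉ A := fun h1 => (mem_compl.1 hb) (mem_insert_of_mem h1)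
  have := le_un h (v := v) hb'
  linarith

theorem pot4_op {μ : V → V → ℝ} (h : Wt μ) (h6 : ∀ v, dg μ v ≤ 6) {A : Finset V} {v : V}
    (hv : v ∉ A) : Op μ (EE μ) A v ≤ EE μ A v := by
  have h1 := pot4_step h h6 hv
  have h2 : 0 ≤ 1 / 10 ^ 9 * K1 μ A v := mul_nonneg (by norm_num) (pot4_K1_nonneg h)
  linarith

/-- monotonicity of one step -/
theorem pot4_mono {μ : V → V → ℝ} (h : Wt μ) {g g' : Finset V → V → ℝ} {A : Finset V} {v : V}
    (hg : ∀ b ∈ (insert v A)ᶜ, g (insert v A) b ≤ g' (insert v A) b) :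
    Op μ g A v ≤ Op μ g' A v := by
  unfold Op Pp
  apply mul_le_mul_of_nonneg_left _ (Real.exp_pos _).le
  exact sum_le_sum fun b hb => mul_le_mul_of_nonneg_left (hg b hb) (h.nonneg v b)

/-- splitting off the first step -/
theorem pot4_succ (μ : V → V → ℝ) (g : Finset V → V → ℝ) (n : ℕ) (A : Finset V) (v : V) :
    ∑ k ∈ range (n + 1), (Op μ)^[k] g A v =
      Op μ (fun B u => ∑ k ∈ range n, (Op μ)^[k] g B u) A v + g A v := by
  rw [sum_range_succ']
  congr 1
  have h1 : ∀ k ∈ range n, (Op μ)^[k + 1] g A v = Real.exp (1 - un μ A v) *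
      ∑ b ∈ (insert v A)ᶜ, μ v b * (Op μ)^[k] g (insert v A) b := by
    intro k _
    rw [Function.iterate_succ_apply']
    rfl
  rw [sum_congr rfl h1, ← mul_sum]
  unfold Op Pp
  congr 1
  rw [sum_comm]
  exact sum_congr rfl fun b _ => by rw [mul_sum]

theorem pot4_op_const {μ : V → V → ℝ} (h : Wt μ) (c : ℝ) (A : Finset V) (v : V) :
    Op μ (fun _ _ => c) A v = c * (un μ A v * Real.exp (1 - un μ A v)) := by
  unfold Op Pp
  rw [← sum_mul, un_eq_insert h A v]
  ring

theorem pot4_op_smul (μ : V → V → ℝ) (c : ℝ) (g : Finset V → V → ℝ) (A : Finset V) (v : V) :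
    Op μ (fun B u => c * g B u) A v = c * Op μ g A v := by
  unfold Op Pp
  rw [mul_left_comm]
  congr 1
  rw [mul_sum]
  exact sum_congr rfl fun b _ => by ring

theorem ve {μ : V → V → ℝ} (h : Wt μ) (h6 : ∀ v, dg μ v ≤ 6) (k : ℕ) {A : Finset V} {v : V}
    (hv : v ∉ A) : (Pp μ)^[k] (fun _ _ => 1) A v ≤ 2 * Real.exp (ms μ A - k) * EE μ A v := by
  induction k generalizing A v with
  | zero =>
    rw [Function.iterate_zero, id, Nat.cast_zero, sub_zero]
    have h1 : ∑ z ∈ (insert v A)ᶜ, kap (un μ A z) ≤ 2 * ms μ A := by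
      rw [← sum_un A]
      calc ∑ z ∈ (insert v A)ᶜ, kap (un μ A z) ≤ ∑ z ∈ (insert v A)ᶜ, un μ A z :=
            sum_le_sum fun z _ => kap_le_self (un_nonneg h A z)
        _ ≤ ∑ z ∈ Aᶜ, un μ A z := by
            apply sum_le_sum_of_subset_of_nonneg
            · exact Finset.compl_subset_compl.2 (subset_insert v A)
            · intro z _ _
              exact un_nonneg h A z
    have h2 := phit_le_one (un μ A v)
    have h3 := ms_nonneg h A
    unfold EE
    rw [mul_assoc, ← Real.exp_add]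
    have h4 : -(1 / 2) ≤ ms μ A + -(9 / 50000 * (9 / 10000 *
        (∑ z ∈ (insert v A)ᶜ, kap (un μ A z)) + phit (un μ A v))) := by linarith
    have h5 := Real.add_one_le_exp (ms μ A + -(9 / 50000 * (9 / 10000 *
        (∑ z ∈ (insert v A)ᶜ, kap (un μ A z)) + phit (un μ A v))))
    linarith
  | succ k ih =>
    rw [Function.iterate_succ_apply']
    have h1 : Pp μ ((Pp μ)^[k] (fun _ _ => 1)) A v ≤ Pp μ (fun B u =>
        2 * Real.exp (ms μ (insert v A) - k) * EE μ B u) A v := by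
      unfold Pp
      refine sum_le_sum fun b hb => ?_
      exact mul_le_mul_of_nonneg_left (ih (mem_compl.1 hb)) (h.nonneg v b)
    refine h1.trans ?_
    have h2 : Pp μ (fun B u => 2 * Real.exp (ms μ (insert v A) - k) * EE μ B u) A v =
        2 * Real.exp (ms μ A - (k + 1 : ℕ)) * Op μ (EE μ) A v := by
      unfold Op Pp
      have h3 : Real.exp (ms μ (insert v A) - k) =
          Real.exp (ms μ A - (k + 1 : ℕ)) * Real.exp (1 - un μ A v) := by
        rw [ms_insert h hv, ← Real.exp_add]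
        congr 1
        push_cast
        ring
      rw [h3, mul_sum, mul_sum]
      exact sum_congr rfl fun b _ => by ring
    rw [h2]
    exact mul_le_mul_of_nonneg_left (pot4_op h h6 hv) (by positivity)

theorem nc0 {μ : V → V → ℝ} (h : Wt μ) (h6 : ∀ v, dg μ v ≤ 6) {t : V → ℝ} (ht : ∀ y, 0 ≤ t y)
    (n : ℕ) {A : Finset V} {v : V} (hv : v ∉ A) :
    ∑ k ∈ range n, (Op μ)^[k] (fun A u => t u * EE μ A u) A v
      ≤ (∑ y ∈ Aᶜ, t y) * EE μ A v := by
  induction n generalizing A v with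
  | zero =>
    rw [range_zero, sum_empty]
    exact mul_nonneg (sum_nonneg fun y _ => ht y) (pot2_EE_pos μ A v).le
  | succ n ih =>
    rw [pot4_succ]
    have h1 : Op μ (fun B u => ∑ k ∈ range n, (Op μ)^[k] (fun A u => t u * EE μ A u) B u) A v ≤
        Op μ (fun B u => (∑ y ∈ (insert v A)ᶜ, t y) * EE μ B u) A v :=
      pot4_mono h fun b hb => ih (mem_compl.1 hb)
    rw [pot4_op_smul] at h1
    have h2 : (∑ y ∈ (insert v A)ᶜ, t y) * Op μ (EE μ) A v ≤
        (∑ y ∈ (insert v A)ᶜ, t y) * EE μ A v :=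
      mul_le_mul_of_nonneg_left (pot4_op h h6 hv) (sum_nonneg fun y _ => ht y)
    rw [opa_sum hv t, add_mul]
    linarith

theorem nc2 {μ : V → V → ℝ} (h : Wt μ) (h6 : ∀ v, dg μ v ≤ 6) (n : ℕ) {A : Finset V} {v : V}
    (hv : v ∉ A) : ∑ k ∈ range n, (Op μ)^[k] (K1 μ) A v ≤ 10 ^ 9 * EE μ A v := by
  induction n generalizing A v with
  | zero =>
    rw [range_zero, sum_empty]
    exact mul_nonneg (by positivity) (pot2_EE_pos μ A v).le
  | succ n ih =>
    rw [pot4_succ]
    have h1 : Op μ (fun B u => ∑ k ∈ range n, (Op μ)^[k] (K1 μ) B u) A v ≤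
        Op μ (fun B u => 10 ^ 9 * EE μ B u) A v :=
      pot4_mono h fun b hb => ih (mem_compl.1 hb)
    rw [pot4_op_smul] at h1
    have h2 := pot4_step h h6 hv
    have h3 : 10 ^ 9 * (Op μ (EE μ) A v + 1 / 10 ^ 9 * K1 μ A v) ≤ 10 ^ 9 * EE μ A v :=
      mul_le_mul_of_nonneg_left h2 (by positivity)
    have h4 : (10 : ℝ) ^ 9 * (Op μ (EE μ) A v + 1 / 10 ^ 9 * K1 μ A v) =
        10 ^ 9 * Op μ (EE μ) A v + K1 μ A v := by ring
    linarith

theorem pot4_weak {D : ℝ} (h0 : 0 ≤ D) (h1 : D < 1 / 2) : D * Real.exp (1 - D) ≤ 5 / 6 := by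
  -- `x exp (1 - x)` at `x < 1 / 2`
  have h2 : Real.exp (1 - D) = Real.exp (1 / 2) * Real.exp (1 / 2 - D) := by
    rw [← Real.exp_add]
    congr 1
    ring
  have h3 : Real.exp (1 / 2) ≤ 5 / 3 := by
    have h4 := Real.exp_bound' (x := 1 / 2) (by norm_num) (by norm_num) (n := 4) (by norm_num)
    refine h4.trans ?_
    norm_num [Finset.sum_range_succ, Nat.factorial]
  -- exp t ≤ 1 / (1 - t)
  have h5 : Real.exp (1 / 2 - D) * (1 / 2 + D) ≤ 1 := by
    have h6 := Real.add_one_le_exp (-(1 / 2 - D))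
    have h7 : Real.exp (1 / 2 - D) * Real.exp (-(1 / 2 - D)) = 1 := by
      rw [← Real.exp_add]
      simp
    calc Real.exp (1 / 2 - D) * (1 / 2 + D)
        ≤ Real.exp (1 / 2 - D) * Real.exp (-(1 / 2 - D)) :=
          mul_le_mul_of_nonneg_left (by linarith) (Real.exp_pos _).le
      _ = 1 := h7
  have h8 : D * Real.exp (1 / 2 - D) ≤ 1 / 2 := by
    have h9 : 0 < Real.exp (1 / 2 - D) := Real.exp_pos _
    nlinarith
  rw [h2]
  have h10 : 0 ≤ Real.exp (1 / 2) := (Real.exp_pos _).le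
  calc D * (Real.exp (1 / 2) * Real.exp (1 / 2 - D))
      = Real.exp (1 / 2) * (D * Real.exp (1 / 2 - D)) := by ring
    _ ≤ 5 / 3 * (1 / 2) := mul_le_mul h3 h8 (mul_nonneg h0 (Real.exp_pos _).le) (by norm_num)
    _ = 5 / 6 := by norm_num

theorem pot4_one (D : ℝ) : D * Real.exp (1 - D) ≤ 1 := by
  have h1 := Real.add_one_le_exp (D - 1)
  have h2 : Real.exp (D - 1) * Real.exp (1 - D) = 1 := by
    rw [← Real.exp_add]
    simp
  calc D * Real.exp (1 - D) ≤ Real.exp (D - 1) * Real.exp (1 - D) :=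
        mul_le_mul_of_nonneg_right (by linarith) (Real.exp_pos _).le
    _ = 1 := h2

theorem wk {μ : V → V → ℝ} (h : Wt μ) (n : ℕ) {A : Finset V} {v : V}
    (hv : v ∉ A) : ∑ k ∈ range n,
      (Op μ)^[k] (fun A u => if un μ A u < 1 / 2 then 1 else 0) A v ≤ 6 := by
  induction n generalizing A v with
  | zero =>
    rw [range_zero, sum_empty]
    norm_num
  | succ n ih =>
    rw [pot4_succ]
    have h1 : Op μ (fun B u => ∑ k ∈ range n,
        (Op μ)^[k] (fun A u => if un μ A u < 1 / 2 then 1 else 0) B u) A v ≤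
        Op μ (fun _ _ => 6) A v :=
      pot4_mono h fun b hb => ih (mem_compl.1 hb)
    rw [pot4_op_const h] at h1
    have h0 := un_nonneg h A v
    split_ifs with hD
    · have h2 := pot4_weak h0 hD
      linarith
    · have h2 := pot4_one (un μ A v)
      linarith

end

end Pool.Agent.Lib.MP_009d13_co.OD
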