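import Pool.Agent.Lib.MP_009d13_co.OD.INB
import Pool.Agent.Lib.MP_009d13_co.OD.JL
import Pool.Agent.Lib.MP_009d13_co.OD.JUN
import Pool.Agent.Lib.MP_009d13_co.OD.COMP
import Pool.Agent.Lib.MP_009d13_co.OD.POT4

/-! FC: the walk hits an inner hub of the second path. -/

set_option autoImplicit false

namespace Pool.Agent.Lib.MP_009d13_co.OD

open Finset Classical

noncomputable section

variable {V : Type} [Fintype V]

theorem FC_Op_nonneg {μ : V → V → ℝ} (h : Wt μ) {g : Finset V → V → ℝ}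
    (hg : ∀ A v, v ∉ A → 0 ≤ g A v) (k : ℕ) {A : Finset V} {v : V} (hv : v ∉ A) :
    0 ≤ (Op μ)^[k] g A v := by
  rw [Op_eq_TW]
  exact TW_nonneg (fun A v b => mul_nonneg (Real.exp_pos _).le (h.nonneg _ _)) hg k hv

theorem FC_Pp_mono {μ : V → V → ℝ} (h : Wt μ) {g g' : Finset V → V → ℝ}
    (hg : ∀ A v, v ∉ A → g A v ≤ g' A v) (k : ℕ) {A : Finset V} {v : V} (hv : v ∉ A) :
    (Pp μ)^[k] g A v ≤ (Pp μ)^[k] g' A v := by
  rw [Pp_eq_TW]
  exact TW_mono (fun _ _ _ => h.nonneg _ _) hg k hv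

theorem FC_Pp_smul (μ : V → V → ℝ) (c : ℝ) (g : Finset V → V → ℝ) (k : ℕ)
    (A : Finset V) (v : V) :
    (Pp μ)^[k] (fun A v => c * g A v) A v = c * (Pp μ)^[k] g A v := by
  rw [Pp_eq_TW]
  exact TW_smul _ c g k A v

theorem FC_Op_smul (μ : V → V → ℝ) (c : ℝ) (g : Finset V → V → ℝ) (k : ℕ)
    (A : Finset V) (v : V) :
    (Op μ)^[k] (fun A v => c * g A v) A v = c * (Op μ)^[k] g A v := by
  rw [Op_eq_TW]
  exact TW_smul _ c g k A v

/-- Paths weighted by `exp (ms)`. -/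
theorem FC_conj {μ : V → V → ℝ} (h : Wt μ) (c : ℝ) (g : Finset V → V → ℝ) (k : ℕ)
    {A : Finset V} {v : V} (hv : v ∉ A) :
    (Pp μ)^[k] (fun A v => c * (Real.exp (ms μ A) * g A v)) A v
      = c * Real.exp (ms μ A - k) * (Op μ)^[k] g A v := by
  have e : (fun (A : Finset V) v => Real.exp (-ms μ A) * (Real.exp (ms μ A) * g A v)) = g := by
    funext A v
    rw [← mul_assoc, ← Real.exp_add, neg_add_cancel, Real.exp_zero, one_mul]
  rw [FC_Pp_smul μ c (fun A v => Real.exp (ms μ A) * g A v), Pp_conj h _ k hv, mul_assoc, e]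

/-- A walk of two parts: the first part of length `i`, the second of length `τ` by `Xw`. -/
theorem FC_gen {μ : V → V → ℝ} (h : Wt μ) {l : ℕ} (hm : ms μ ∅ = l) {g : Finset V → V → ℝ}
    {F : V → Finset V → V → ℝ}
    (hF0 : ∀ x A b, b ∉ A → 0 ≤ F x A b) {K : ℝ}
    (hF : ∀ x A b, b ∉ A → F x A b ≤ K * (Real.exp (ms μ A) * g A b)) (i τ : ℕ) (v : V) :
    (Pp μ)^[i] (fun A x => (Xw μ)^[τ] (F x) A x) ∅ v
      ≤ K * Real.exp (l - i) * (2 / Real.exp 1) ^ τ * (Op μ)^[i] ((Op μ)^[τ] g) ∅ v := by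
  have hr : (2 / Real.exp 1) ^ τ = 2 ^ τ * Real.exp (-(τ : ℝ)) := by
    rw [div_pow, ← Real.exp_nat_mul, mul_one, Real.exp_neg]
    rfl
  have h1 : ∀ A x, x ∉ A → (Xw μ)^[τ] (F x) A x ≤
      (K * (2 / Real.exp 1) ^ τ) * (Real.exp (ms μ A) * (Op μ)^[τ] g A x) := by
    intro A x hx
    have e1 := xw_le h (hF0 x) τ hx
    have e2 := FC_Pp_mono h (hF x) τ hx
    rw [FC_conj h K g τ hx] at e2
    have e3 : Real.exp (ms μ A - τ) = Real.exp (ms μ A) * Real.exp (-(τ : ℝ)) := by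
      rw [← Real.exp_add, sub_eq_add_neg]
    calc (Xw μ)^[τ] (F x) A x ≤ 2 ^ τ * (Pp μ)^[τ] (F x) A x := e1
      _ ≤ 2 ^ τ * (K * Real.exp (ms μ A - τ) * (Op μ)^[τ] g A x) :=
          mul_le_mul_of_nonneg_left e2 (by positivity)
      _ = _ := by
          rw [hr, e3]
          ring
  have hv : v ∉ (∅ : Finset V) := Finset.notMem_empty v
  calc (Pp μ)^[i] (fun A x => (Xw μ)^[τ] (F x) A x) ∅ v
      ≤ (Pp μ)^[i] (fun A x => (K * (2 / Real.exp 1) ^ τ) *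
          (Real.exp (ms μ A) * (Op μ)^[τ] g A x)) ∅ v := FC_Pp_mono h h1 i hv
    _ = (K * (2 / Real.exp 1) ^ τ) * Real.exp (ms μ ∅ - i) * (Op μ)^[i] ((Op μ)^[τ] g) ∅ v :=
        FC_conj h _ _ i hv
    _ = _ := by
        rw [hm]
        ring

theorem FC_e_lt : (27 / 10 : ℝ) < Real.exp 1 := by
  have := Real.exp_one_gt_d9
  linarith

theorem FC_e_gt : Real.exp 1 < (272 / 100 : ℝ) := by
  have := Real.exp_one_lt_d9
  linarith

theorem FC_r_nonneg : 0 ≤ 2 / Real.exp 1 := by positivity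

theorem FC_r_lt : 2 / Real.exp 1 ≤ 3 / 4 := by
  rw [div_le_iff₀ (Real.exp_pos 1)]
  have := FC_e_lt
  linarith

theorem FC_r_lt_one : 2 / Real.exp 1 < 1 := by
  have := FC_r_lt
  linarith

/-- The sum over the lengths of the two parts. -/
theorem FC_comp {μ : V → V → ℝ} (h : Wt μ) {g : Finset V → V → ℝ}
    (hg : ∀ A v, v ∉ A → 0 ≤ g A v) (l n : ℕ) (v : V) :
    ∑ i ∈ range l, ∑ τ ∈ range n, (2 / Real.exp 1) ^ τ * (Op μ)^[i] ((Op μ)^[τ] g) ∅ v
      ≤ 4 * ∑ k ∈ range (l + n), (Op μ)^[k] g ∅ v := by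
  have hv : v ∉ (∅ : Finset V) := Finset.notMem_empty v
  have h1 := comp h hg FC_r_nonneg FC_r_lt_one l n hv
  have h2 : ∀ i, (Op μ)^[i] (fun A v => ∑ τ ∈ range n, (2 / Real.exp 1) ^ τ *
      (Op μ)^[τ] g A v) ∅ v = ∑ τ ∈ range n, (2 / Real.exp 1) ^ τ *
        (Op μ)^[i] ((Op μ)^[τ] g) ∅ v := by
    intro i
    have e1 : (Op μ)^[i] (fun A v => ∑ τ ∈ range n, (2 / Real.exp 1) ^ τ *
        (Op μ)^[τ] g A v) ∅ v = ∑ τ ∈ range n,
          (Op μ)^[i] (fun A v => (2 / Real.exp 1) ^ τ * (Op μ)^[τ] g A v) ∅ v := by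
      rw [Op_eq_TW]
      exact TW_sum _ _ _ i ∅ v
    rw [e1]
    exact Finset.sum_congr rfl fun τ _ => FC_Op_smul μ _ _ i ∅ v
  rw [Finset.sum_congr rfl fun i _ => h2 i] at h1
  refine h1.trans (mul_le_mul_of_nonneg_right ?_
    (Finset.sum_nonneg fun k _ => FC_Op_nonneg h hg k hv))
  have h3 := FC_r_lt
  rw [div_le_iff₀ (by linarith [FC_r_lt_one])]
  linarith

theorem FC_K1_nonneg {μ : V → V → ℝ} (h : Wt μ) {A : Finset V} {v : V} :
    0 ≤ K1 μ A v := by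
  unfold K1
  refine mul_nonneg (Real.exp_pos _).le (Finset.sum_nonneg fun b hb => ?_)
  refine mul_nonneg (h.nonneg _ _) (mul_nonneg ?_ (Real.exp_pos _).le)
  rw [Finset.mem_compl, Finset.mem_insert, not_or] at hb
  linarith [le_un h (A := A) (v := v) hb.2]

theorem far_c {μ : V → V → ℝ} (h : Wt μ) {l : ℕ} (hl : 1 ≤ l) (hm : ms μ ∅ = l)
    (h6 : ∀ v, dg μ v ≤ 6) {χ : V → ℝ} (hχ : ∀ v, 0 ≤ χ v) {e : V → V → ℝ}
    (he : ∀ a b, 0 ≤ e a b) {c : ℝ} (hrow : ∀ x, ∑ y, e x y ≤ c) (n : ℕ) :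
    ∑ i ∈ range l, ∑ τ ∈ range n, ∑ v, χ v *
      (Pp μ)^[i] (fun A x => (Xw μ)^[τ + 1] (In μ (e x) (l - i)) A x) ∅ v
      ≤ 2 * 10 ^ 11 * c * ∑ v, χ v := by
  rcases isEmpty_or_nonempty V with hV | hV
  · simp
  have hc : 0 ≤ c := by
    obtain ⟨x⟩ := hV
    exact (Finset.sum_nonneg fun y _ => he x y).trans (hrow x)
  have hK1 : ∀ (A : Finset V) v, v ∉ A → 0 ≤ K1 μ A v := fun A v _ => FC_K1_nonneg h
  have h1 : ∀ i ∈ range l, ∀ τ v,
      (Pp μ)^[i] (fun A x => (Xw μ)^[τ + 1] (In μ (e x) (l - i)) A x) ∅ v ≤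
        (4 * c * Real.exp 2) * ((2 / Real.exp 1) ^ (τ + 1) *
          (Op μ)^[i] ((Op μ)^[τ + 1] (K1 μ)) ∅ v) := by
    intro i hi τ v
    rw [Finset.mem_range] at hi
    have e1 := FC_gen h hm (g := K1 μ) (F := fun x => In μ (e x) (l - i))
      (K := 4 * Real.exp (2 - ((l - i : ℕ) : ℝ)) * c)
      (fun x A b _ => In_nonneg h (he x) _ A b) (fun x A b hb => by
        refine (in_le h h6 (he x) (l - i) hb).trans ?_
        have e2 := hrow x
        have e3 : 0 ≤ Real.exp (ms μ A) * K1 μ A b :=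
          mul_nonneg (Real.exp_pos _).le (FC_K1_nonneg h)
        calc 4 * Real.exp (2 - ((l - i : ℕ) : ℝ)) * (∑ y, e x y) * Real.exp (ms μ A) * K1 μ A b
            = (∑ y, e x y) * (4 * Real.exp (2 - ((l - i : ℕ) : ℝ)) *
              (Real.exp (ms μ A) * K1 μ A b)) := by ring
          _ ≤ c * (4 * Real.exp (2 - ((l - i : ℕ) : ℝ)) * (Real.exp (ms μ A) * K1 μ A b)) :=
              mul_le_mul_of_nonneg_right e2 (by positivity)
          _ = _ := by ring) i (τ + 1) v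
    refine e1.trans (le_of_eq ?_)
    have e4 : Real.exp (2 - ((l - i : ℕ) : ℝ)) * Real.exp ((l : ℝ) - i) = Real.exp 2 := by
      rw [← Real.exp_add, Nat.cast_sub hi.le]
      congr 1
      ring
    calc 4 * Real.exp (2 - ((l - i : ℕ) : ℝ)) * c * Real.exp ((l : ℝ) - i) *
          (2 / Real.exp 1) ^ (τ + 1) * (Op μ)^[i] ((Op μ)^[τ + 1] (K1 μ)) ∅ v
        = 4 * c * (Real.exp (2 - ((l - i : ℕ) : ℝ)) * Real.exp ((l : ℝ) - i)) *
          ((2 / Real.exp 1) ^ (τ + 1) * (Op μ)^[i] ((Op μ)^[τ + 1] (K1 μ)) ∅ v) := by ring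
      _ = _ := by rw [e4]
  have h2 : ∀ v, ∑ i ∈ range l, ∑ τ ∈ range n, (2 / Real.exp 1) ^ (τ + 1) *
      (Op μ)^[i] ((Op μ)^[τ + 1] (K1 μ)) ∅ v ≤ 3 * 10 ^ 9 := by
    intro v
    have hv : v ∉ (∅ : Finset V) := Finset.notMem_empty v
    have hg : ∀ (A : Finset V) v, v ∉ A → 0 ≤ Op μ (K1 μ) A v := fun A v hv =>
      FC_Op_nonneg h hK1 1 hv
    have e1 := FC_comp h hg l n v
    have e2 : ∑ k ∈ range (l + n), (Op μ)^[k] (Op μ (K1 μ)) ∅ v ≤ 10 ^ 9 := by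
      have e3 := nc2 h h6 (l + n + 1) hv
      rw [Finset.sum_range_succ'] at e3
      have e4 : 0 ≤ (Op μ)^[0] (K1 μ) ∅ v := FC_K1_nonneg h
      have e5 : EE μ ∅ v ≤ 1 := by
        unfold EE
        rw [Real.exp_le_one_iff, neg_nonpos]
        refine mul_nonneg (by norm_num) (add_nonneg (mul_nonneg (by norm_num)
          (Finset.sum_nonneg fun z _ => kap_nonneg _)) (phit_nonneg _))
      have e6 : ∀ k, (Op μ)^[k + 1] (K1 μ) ∅ v = (Op μ)^[k] (Op μ (K1 μ)) ∅ v := fun k => rfl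
      rw [Finset.sum_congr rfl fun k _ => e6 k] at e3
      linarith
    calc ∑ i ∈ range l, ∑ τ ∈ range n, (2 / Real.exp 1) ^ (τ + 1) *
          (Op μ)^[i] ((Op μ)^[τ + 1] (K1 μ)) ∅ v
        = (2 / Real.exp 1) * ∑ i ∈ range l, ∑ τ ∈ range n, (2 / Real.exp 1) ^ τ *
          (Op μ)^[i] ((Op μ)^[τ] (Op μ (K1 μ))) ∅ v := by
          rw [Finset.mul_sum]
          refine Finset.sum_congr rfl fun i _ => ?_
          rw [Finset.mul_sum]
          refine Finset.sum_congr rfl fun τ _ => ?_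
          rw [pow_succ]
          have e6 : (Op μ)^[τ + 1] (K1 μ) = (Op μ)^[τ] (Op μ (K1 μ)) := rfl
          rw [e6]
          ring
      _ ≤ (3 / 4) * ∑ i ∈ range l, ∑ τ ∈ range n, (2 / Real.exp 1) ^ τ *
          (Op μ)^[i] ((Op μ)^[τ] (Op μ (K1 μ))) ∅ v := by
          refine mul_le_mul_of_nonneg_right FC_r_lt (Finset.sum_nonneg fun i _ =>
            Finset.sum_nonneg fun τ _ => mul_nonneg (pow_nonneg FC_r_nonneg _) ?_)
          exact FC_Op_nonneg h (fun A v hv => FC_Op_nonneg h hg τ hv) i hv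
      _ ≤ (3 / 4) * (4 * 10 ^ 9) := by
          refine mul_le_mul_of_nonneg_left ?_ (by norm_num)
          linarith
      _ = 3 * 10 ^ 9 := by norm_num
  have he2 : Real.exp 2 ≤ 75 / 10 := by
    have e1 : Real.exp 2 = Real.exp 1 * Real.exp 1 := by
      rw [← Real.exp_add]
      norm_num
    have := FC_e_gt
    have := Real.exp_pos 1
    rw [e1]
    nlinarith
  calc ∑ i ∈ range l, ∑ τ ∈ range n, ∑ v, χ v *
        (Pp μ)^[i] (fun A x => (Xw μ)^[τ + 1] (In μ (e x) (l - i)) A x) ∅ v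
      ≤ ∑ i ∈ range l, ∑ τ ∈ range n, ∑ v, χ v * ((4 * c * Real.exp 2) *
          ((2 / Real.exp 1) ^ (τ + 1) * (Op μ)^[i] ((Op μ)^[τ + 1] (K1 μ)) ∅ v)) :=
        Finset.sum_le_sum fun i hi => Finset.sum_le_sum fun τ _ =>
          Finset.sum_le_sum fun v _ => mul_le_mul_of_nonneg_left (h1 i hi τ v) (hχ v)
    _ = ∑ v, χ v * ((4 * c * Real.exp 2) * ∑ i ∈ range l, ∑ τ ∈ range n,
          (2 / Real.exp 1) ^ (τ + 1) * (Op μ)^[i] ((Op μ)^[τ + 1] (K1 μ)) ∅ v) := by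
        rw [Finset.sum_congr rfl fun i _ => Finset.sum_comm, Finset.sum_comm]
        refine Finset.sum_congr rfl fun v _ => ?_
        rw [Finset.mul_sum, Finset.mul_sum]
        refine Finset.sum_congr rfl fun i _ => ?_
        rw [Finset.mul_sum, Finset.mul_sum]
    _ ≤ ∑ v, χ v * (2 * 10 ^ 11 * c) := by
        refine Finset.sum_le_sum fun v _ => mul_le_mul_of_nonneg_left ?_ (hχ v)
        calc (4 * c * Real.exp 2) * ∑ i ∈ range l, ∑ τ ∈ range n,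
              (2 / Real.exp 1) ^ (τ + 1) * (Op μ)^[i] ((Op μ)^[τ + 1] (K1 μ)) ∅ v
            ≤ (4 * c * (75 / 10)) * (3 * 10 ^ 9) := by
              refine mul_le_mul ?_ (h2 v) ?_ (by positivity)
              · exact mul_le_mul_of_nonneg_left he2 (by positivity)
              · refine Finset.sum_nonneg fun i _ => Finset.sum_nonneg fun τ _ =>
                  mul_nonneg (pow_nonneg FC_r_nonneg _) ?_
                exact FC_Op_nonneg h (fun A v hv => FC_Op_nonneg h hK1 (τ + 1) hv) i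
                  (Finset.notMem_empty v)
          _ ≤ 2 * 10 ^ 11 * c := by nlinarith
    _ = 2 * 10 ^ 11 * c * ∑ v, χ v := by
        rw [← Finset.sum_mul]
        ring

end

end Pool.Agent.Lib.MP_009d13_co.OD
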