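import Pool.Agent.Lib.MP_009d13_co.OD.FC
import Pool.Agent.Lib.MP_009d13_co.OD.JL
import Pool.Agent.Lib.MP_009d13_co.OD.GEN

/-! FD: the walk stops at a weak tip. -/

set_option autoImplicit false

namespace Pool.Agent.Lib.MP_009d13_co.OD

open Finset Classical

noncomputable section

variable {V : Type} [Fintype V]

/-- The number of the second paths. -/
theorem FD_JJ {μ : V → V → ℝ} (h : Wt μ) {t : V → ℝ} (ht : ∀ y, 0 ≤ t y) {c : ℝ}
    (hc : ∑ y, t y ≤ c) {j : ℕ} (hj : 1 ≤ j) {A : Finset V} {x : V} (hx : x ∉ A) :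
    JJ μ t j A x ≤ c * Real.exp (ms μ A - (j - 1)) := by
  rw [JJ_eq h t hj A x]
  have h1 : ms μ (insert x A) ≤ ms μ A := ms_anti h (Finset.subset_insert x A)
  have h2 : ∀ y ∈ (insert x A)ᶜ, t y * (Pp μ)^[j - 1] (fun _ _ => 1) (insert x A) y ≤
      t y * Real.exp (ms μ A - (j - 1)) := by
    intro y hy
    rw [Finset.mem_compl] at hy
    refine mul_le_mul_of_nonneg_left ((gen_exp h (j - 1) hy).trans ?_) (ht y)
    apply Real.exp_le_exp.2
    rw [Nat.cast_sub hj]
    push_cast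
    linarith
  refine (Finset.sum_le_sum h2).trans ?_
  rw [← Finset.sum_mul]
  refine mul_le_mul_of_nonneg_right ?_ (Real.exp_pos _).le
  refine le_trans ?_ hc
  exact Finset.sum_le_sum_of_subset_of_nonneg (Finset.subset_univ _) fun y _ _ => ht y

theorem far_d {μ : V → V → ℝ} (h : Wt μ) {l : ℕ} (hl : 1 ≤ l) (hm : ms μ ∅ = l)
    {χ : V → ℝ} (hχ : ∀ v, 0 ≤ χ v) {e : V → V → ℝ}
    (he : ∀ a b, 0 ≤ e a b) {c : ℝ} (hrow : ∀ x, ∑ y, e x y ≤ c) (n : ℕ) :
    ∑ i ∈ range l, ∑ τ ∈ range n, ∑ v, χ v *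
      (Pp μ)^[i] (fun A x => (Xw μ)^[τ] (wJ μ (e x) (l - i)) A x) ∅ v
      ≤ 100 * c * ∑ v, χ v := by
  rcases isEmpty_or_nonempty V with hV | hV
  · simp
  have hc : 0 ≤ c := by
    obtain ⟨x⟩ := hV
    exact (Finset.sum_nonneg fun y _ => he x y).trans (hrow x)
  obtain ⟨g, hg⟩ : ∃ g : Finset V → V → ℝ, g = fun A u => if un μ A u < 1 / 2 then 1 else 0 :=
    ⟨_, rfl⟩
  have hg0 : ∀ (A : Finset V) v, v ∉ A → 0 ≤ g A v := by
    intro A v _
    rw [hg]
    simp only
    split_ifs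
    · exact zero_le_one
    · exact le_rfl
  have h1 : ∀ i ∈ range l, ∀ τ v,
      (Pp μ)^[i] (fun A x => (Xw μ)^[τ] (wJ μ (e x) (l - i)) A x) ∅ v ≤
        (c * Real.exp 1) * ((2 / Real.exp 1) ^ τ * (Op μ)^[i] ((Op μ)^[τ] g) ∅ v) := by
    intro i hi τ v
    rw [Finset.mem_range] at hi
    have e1 := FC_gen h hm (g := g) (F := fun x => wJ μ (e x) (l - i))
      (K := c * Real.exp (1 - ((l - i : ℕ) : ℝ)))
      (fun x A b _ => by
        unfold wJ
        split_ifs
        · exact JJ_nonneg h (he x) _ A b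
        · exact le_rfl) (fun x A b hb => by
        unfold wJ
        rw [hg]
        simp only
        split_ifs with hw
        · refine (FD_JJ h (he x) (hrow x) (by omega) hb).trans (le_of_eq ?_)
          rw [mul_one, mul_assoc, ← Real.exp_add]
          congr 2
          ring
        · rw [mul_zero, mul_zero]) i τ v
    refine e1.trans (le_of_eq ?_)
    have e4 : Real.exp (1 - ((l - i : ℕ) : ℝ)) * Real.exp ((l : ℝ) - i) = Real.exp 1 := by
      rw [← Real.exp_add, Nat.cast_sub hi.le]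
      congr 1
      ring
    calc c * Real.exp (1 - ((l - i : ℕ) : ℝ)) * Real.exp ((l : ℝ) - i) *
          (2 / Real.exp 1) ^ τ * (Op μ)^[i] ((Op μ)^[τ] g) ∅ v
        = c * (Real.exp (1 - ((l - i : ℕ) : ℝ)) * Real.exp ((l : ℝ) - i)) *
          ((2 / Real.exp 1) ^ τ * (Op μ)^[i] ((Op μ)^[τ] g) ∅ v) := by ring
      _ = _ := by rw [e4]
  have h2 : ∀ v, ∑ i ∈ range l, ∑ τ ∈ range n, (2 / Real.exp 1) ^ τ *
      (Op μ)^[i] ((Op μ)^[τ] g) ∅ v ≤ 24 := by
    intro v
    have hv : v ∉ (∅ : Finset V) := Finset.notMem_empty v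
    have e1 := FC_comp h hg0 l n v
    have e2 := wk h (l + n) hv
    rw [← hg] at e2
    linarith
  calc ∑ i ∈ range l, ∑ τ ∈ range n, ∑ v, χ v *
        (Pp μ)^[i] (fun A x => (Xw μ)^[τ] (wJ μ (e x) (l - i)) A x) ∅ v
      ≤ ∑ i ∈ range l, ∑ τ ∈ range n, ∑ v, χ v * ((c * Real.exp 1) *
          ((2 / Real.exp 1) ^ τ * (Op μ)^[i] ((Op μ)^[τ] g) ∅ v)) :=
        Finset.sum_le_sum fun i hi => Finset.sum_le_sum fun τ _ =>
          Finset.sum_le_sum fun v _ => mul_le_mul_of_nonneg_left (h1 i hi τ v) (hχ v)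
    _ = ∑ v, χ v * ((c * Real.exp 1) * ∑ i ∈ range l, ∑ τ ∈ range n,
          (2 / Real.exp 1) ^ τ * (Op μ)^[i] ((Op μ)^[τ] g) ∅ v) := by
        rw [Finset.sum_congr rfl fun i _ => Finset.sum_comm, Finset.sum_comm]
        refine Finset.sum_congr rfl fun v _ => ?_
        rw [Finset.mul_sum, Finset.mul_sum]
        refine Finset.sum_congr rfl fun i _ => ?_
        rw [Finset.mul_sum, Finset.mul_sum]
    _ ≤ ∑ v, χ v * (100 * c) := by
        refine Finset.sum_le_sum fun v _ => mul_le_mul_of_nonneg_left ?_ (hχ v)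
        calc (c * Real.exp 1) * ∑ i ∈ range l, ∑ τ ∈ range n,
              (2 / Real.exp 1) ^ τ * (Op μ)^[i] ((Op μ)^[τ] g) ∅ v
            ≤ (c * 3) * 24 := by
              refine mul_le_mul ?_ (h2 v) ?_ (by positivity)
              · exact mul_le_mul_of_nonneg_left (by linarith [FC_e_gt]) hc
              · refine Finset.sum_nonneg fun i _ => Finset.sum_nonneg fun τ _ =>
                  mul_nonneg (pow_nonneg FC_r_nonneg _) ?_
                exact FC_Op_nonneg h (fun A v hv => FC_Op_nonneg h hg0 τ hv) i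
                  (Finset.notMem_empty v)
          _ ≤ 100 * c := by nlinarith
    _ = 100 * c * ∑ v, χ v := by
        rw [← Finset.sum_mul]
        ring

end

end Pool.Agent.Lib.MP_009d13_co.OD
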