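import Pool.Agent.Lib.MP_009d13_co.OD.BR
import Pool.Agent.Lib.MP_009d13_co.OD.JUN
import Pool.Agent.Lib.MP_009d13_co.OD.FB
import Pool.Agent.Lib.MP_009d13_co.OD.FC
import Pool.Agent.Lib.MP_009d13_co.OD.FD

/-! FAR: everything but the near jumps. -/

set_option autoImplicit false

namespace Pool.Agent.Lib.MP_009d13_co.OD

open Finset Classical

noncomputable section

variable {V : Type} [Fintype V]

/-- The four parts of the sum over structures with a jump. -/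
theorem FAR_dec {μ : V → V → ℝ} (h : Wt μ) {l : ℕ} (hl : 1 ≤ l) (χ : V → ℝ) (e : V → V → ℝ) :
    CC μ χ e (fun _ => 1) (l + 1)
      = ∑ i ∈ range l, ∑ τ ∈ range (Fintype.card V), ∑ v, χ v *
          (Pp μ)^[i] (fun A x => (Xw μ)^[τ + 1] (Hd μ (e x) (l - i)) A x) ∅ v
        + ∑ i ∈ range l, ∑ τ ∈ range (Fintype.card V), ∑ v, χ v *
          (Pp μ)^[i] (fun A x => (Xw μ)^[τ + 1] (Ls μ (e x) (l - i)) A x) ∅ v
        + ∑ i ∈ range l, ∑ τ ∈ range (Fintype.card V), ∑ v, χ v *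
          (Pp μ)^[i] (fun A x => (Xw μ)^[τ + 1] (In μ (e x) (l - i)) A x) ∅ v
        + ∑ i ∈ range l, ∑ τ ∈ range (Fintype.card V), ∑ v, χ v *
          (Pp μ)^[i] (fun A x => (Xw μ)^[τ] (wJ μ (e x) (l - i)) A x) ∅ v := by
  rw [br2 μ χ (fun _ => 1) e l hl, ← Finset.sum_add_distrib, ← Finset.sum_add_distrib,
    ← Finset.sum_add_distrib]
  refine Finset.sum_congr rfl fun i hi => ?_
  rw [Finset.mem_range] at hi
  have h1 : ∀ v, (Pp μ)^[i] (fun A x => ∑ y ∈ (insert x A)ᶜ, e x y *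
      (Pp μ)^[l - 1 - i] (fun _ _ => 1) (insert x A) y) ∅ v =
      ∑ τ ∈ range (Fintype.card V), ((Pp μ)^[i] (fun A x => (Xw μ)^[τ + 1]
        (Hd μ (e x) (l - i)) A x) ∅ v + (Pp μ)^[i] (fun A x => (Xw μ)^[τ + 1]
        (Ls μ (e x) (l - i)) A x) ∅ v + (Pp μ)^[i] (fun A x => (Xw μ)^[τ + 1]
        (In μ (e x) (l - i)) A x) ∅ v + (Pp μ)^[i] (fun A x => (Xw μ)^[τ]
        (wJ μ (e x) (l - i)) A x) ∅ v) := by
    intro v
    have hv : v ∉ (∅ : Finset V) := Finset.notMem_empty v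
    have e1 : (Pp μ)^[i] (fun A x => ∑ y ∈ (insert x A)ᶜ, e x y *
        (Pp μ)^[l - 1 - i] (fun _ _ => 1) (insert x A) y) ∅ v =
        (Pp μ)^[i] (fun A x => ∑ τ ∈ range (Fintype.card V), ((Xw μ)^[τ + 1]
          (Hd μ (e x) (l - i)) A x + (Xw μ)^[τ + 1] (Ls μ (e x) (l - i)) A x +
          (Xw μ)^[τ + 1] (In μ (e x) (l - i)) A x + (Xw μ)^[τ] (wJ μ (e x) (l - i)) A x)) ∅ v := by
      rw [Pp_eq_TW]
      refine TW_congr (fun A x hx => ?_) i hv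
      rw [← Pp_eq_TW]
      have e2 := JJ_eq h (e x) (j := l - i) (by omega) A x
      have e3 : l - i - 1 = l - 1 - i := by omega
      rw [e3] at e2
      rw [← e2, junroll h (e x) (by omega) hx]
      refine Finset.sum_congr rfl fun τ _ => ?_
      ring
    rw [e1, Pp_eq_TW, TW_sum]
    refine Finset.sum_congr rfl fun τ _ => ?_
    rw [TW_add, TW_add, TW_add]
  have h2 : ∑ v, χ v * (Pp μ)^[i] (fun A x => ∑ y ∈ (insert x A)ᶜ, e x y *
      (Pp μ)^[l - 1 - i] (fun _ _ => 1) (insert x A) y) ∅ v =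
      ∑ τ ∈ range (Fintype.card V), ∑ v, χ v * ((Pp μ)^[i] (fun A x => (Xw μ)^[τ + 1]
        (Hd μ (e x) (l - i)) A x) ∅ v + (Pp μ)^[i] (fun A x => (Xw μ)^[τ + 1]
        (Ls μ (e x) (l - i)) A x) ∅ v + (Pp μ)^[i] (fun A x => (Xw μ)^[τ + 1]
        (In μ (e x) (l - i)) A x) ∅ v + (Pp μ)^[i] (fun A x => (Xw μ)^[τ]
        (wJ μ (e x) (l - i)) A x) ∅ v) := by
    rw [Finset.sum_comm]
    refine Finset.sum_congr rfl fun v _ => ?_
    rw [h1 v, Finset.mul_sum]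
  rw [h2, ← Finset.sum_add_distrib, ← Finset.sum_add_distrib, ← Finset.sum_add_distrib]
  refine Finset.sum_congr rfl fun τ _ => ?_
  rw [← Finset.sum_add_distrib, ← Finset.sum_add_distrib, ← Finset.sum_add_distrib]
  refine Finset.sum_congr rfl fun v _ => ?_
  ring

theorem far_all {μ : V → V → ℝ} (h : Wt μ) {l : ℕ} (hl : 1 ≤ l) (hm : ms μ ∅ = l)
    (h6 : ∀ v, dg μ v ≤ 6) {χ : V → ℝ} (hχ : ∀ v, 0 ≤ χ v) {e : V → V → ℝ}
    (he : ∀ a b, 0 ≤ e a b) {c : ℝ} (hrow : ∀ x, ∑ y, e x y ≤ c) (hcol : ∀ y, ∑ x, e x y ≤ c) :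
    CC μ χ e (fun _ => 1) (l + 1)
      ≤ ∑ i ∈ range l, ∑ τ ∈ range (Fintype.card V), ∑ v, χ v *
          (Pp μ)^[i] (fun A x => (Xw μ)^[τ + 1] (Hd μ (e x) (l - i)) A x) ∅ v
        + 3 * 10 ^ 11 * c * ∑ v, χ v := by
  rw [FAR_dec h hl χ e]
  have h1 := far_b h hl hm hχ he hcol (Fintype.card V)
  have h2 := far_c h hl hm h6 hχ he hrow (Fintype.card V)
  have h3 := far_d h hl hm hχ he hrow (Fintype.card V)
  have h4 : 0 ≤ c * ∑ v, χ v := by
    rcases isEmpty_or_nonempty V with hV | hV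
    · simp
    · obtain ⟨x⟩ := hV
      exact mul_nonneg ((Finset.sum_nonneg fun y _ => he x y).trans (hrow x))
        (Finset.sum_nonneg fun v _ => hχ v)
  nlinarith

end

end Pool.Agent.Lib.MP_009d13_co.OD
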