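import Pool.Agent.Lib.MP_009d13_co.OD.Defs

/-!
# POT1: the inequality for one hub
-/

set_option autoImplicit false

namespace Pool.Agent.Lib.MP_009d13_co.OD

open Finset Classical

noncomputable section

theorem pot1_sub_log_nonneg {x : ℝ} (hx : 0 < x) : 0 ≤ x - 1 - Real.log x := by
  have := Real.log_le_sub_one_of_pos hx
  linarith

theorem phit_nonneg (x : ℝ) : 0 ≤ phit x := by
  unfold phit
  split_ifs with h
  · exact zero_le_one
  · exact le_min zero_le_one (pot1_sub_log_nonneg (not_le.1 h))

theorem phit_le_one (x : ℝ) : phit x ≤ 1 := by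
  unfold phit
  split_ifs with h
  · exact le_rfl
  · exact min_le_left _ _

theorem phit_le {x : ℝ} (hx : 0 < x) : phit x ≤ x - 1 - Real.log x := by
  unfold phit
  rw [if_neg (not_le.2 hx)]
  exact min_le_right _ _

theorem pot1_log_lo : Real.log (9 / 10) ≤ -(1046 / 10000) := by
  have h1 : Real.exp (1046 / 10000) ≤ 10 / 9 := by
    have h2 := Real.exp_bound' (x := 1046 / 10000) (by norm_num) (by norm_num) (n := 3)
      (by norm_num)
    refine h2.trans ?_
    norm_num [Finset.sum_range_succ, Nat.factorial]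
  have h3 : (9 / 10 : ℝ) = (10 / 9)⁻¹ := by norm_num
  rw [h3, Real.log_inv, neg_le_neg_iff]
  rw [Real.le_log_iff_exp_le (by norm_num)]
  exact h1

theorem pot1_log_hi : Real.log (11 / 10) ≤ 954 / 10000 := by
  rw [Real.log_le_iff_le_exp (by norm_num)]
  have h2 := Real.sum_le_exp_of_nonneg (x := 954 / 10000) (by norm_num) 4
  refine le_trans ?_ h2
  norm_num [Finset.sum_range_succ, Nat.factorial]

theorem phit_far {x : ℝ} (hx : x ≤ 9 / 10 ∨ 11 / 10 ≤ x) : 46 / 10000 ≤ phit x := by
  unfold phit
  split_ifs with h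
  · norm_num
  · have h0 : 0 < x := not_le.1 h
    refine le_min (by norm_num) ?_
    rcases hx with hx | hx
    · have h1 := Real.log_le_sub_one_of_pos (x := x / (9 / 10)) (by positivity)
      rw [Real.log_div h0.ne' (by norm_num)] at h1
      have h2 := pot1_log_lo
      linarith
    · have h1 := Real.log_le_sub_one_of_pos (x := x / (11 / 10)) (by positivity)
      rw [Real.log_div h0.ne' (by norm_num)] at h1
      have h2 := pot1_log_hi
      linarith

theorem kap_nonneg (x : ℝ) : 0 ≤ kap x := le_max_left _ _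

theorem kap_le (x : ℝ) : kap x ≤ 9 / 10 := by
  unfold kap
  refine max_le (by norm_num) ?_
  rcases le_total x (9 / 10) with h | h
  · exact (min_le_left _ _).trans h
  · exact (min_le_right _ _).trans (by linarith)

theorem kap_le_self {x : ℝ} (hx : 0 ≤ x) : kap x ≤ x := max_le hx (min_le_left _ _)

theorem kap_zero {x : ℝ} (hx : 6 / 5 ≤ x) : kap x = 0 := by
  unfold kap
  apply max_eq_left
  exact (min_le_right _ _).trans (by linarith)

/-- upward slope at most `1` -/
theorem kap_sub_le {x y : ℝ} (h : y ≤ x) : kap x - kap y ≤ x - y := by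
  unfold kap
  rw [sub_le_iff_le_add]
  refine max_le ?_ ?_
  · have := le_max_left 0 (min y (18 / 5 - 3 * y))
    linarith
  · have h1 := le_max_right 0 (min y (18 / 5 - 3 * y))
    rcases le_total y (18 / 5 - 3 * y) with h2 | h2
    · rw [min_eq_left h2] at h1 ⊢
      have := min_le_left x (18 / 5 - 3 * x)
      linarith
    · rw [min_eq_right h2] at h1 ⊢
      have := min_le_right x (18 / 5 - 3 * x)
      linarith

/-- downward slope at most `3` -/
theorem kap_sub_ge {x y : ℝ} (h : y ≤ x) : kap y - kap x ≤ 3 * (x - y) := by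
  unfold kap
  rw [sub_le_iff_le_add]
  refine max_le ?_ ?_
  · have := le_max_left 0 (min x (18 / 5 - 3 * x))
    linarith
  · have h1 := le_max_right 0 (min x (18 / 5 - 3 * x))
    rcases le_total x (18 / 5 - 3 * x) with h2 | h2
    · rw [min_eq_left h2] at h1 ⊢
      have := min_le_left y (18 / 5 - 3 * y)
      linarith
    · rw [min_eq_right h2] at h1 ⊢
      have := min_le_right y (18 / 5 - 3 * y)
      linarith

theorem pot1_kap_mid {x : ℝ} (h1 : 9 / 10 ≤ x) (h2 : x ≤ 6 / 5) : kap x = 18 / 5 - 3 * x := by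
  unfold kap
  rw [min_eq_right (by linarith), max_eq_right (by linarith)]

theorem hub_ineq {x p E : ℝ} (hp : 0 ≤ p) (hp1 : p ≤ 1) (hE : 1 / 2 ≤ E) (hE3 : E ≤ 3)
    (hx : 0 ≤ x - p * E) :
    27 / 100000 * (p * (1 - p)) ≤ 9 / 10000 * (kap (x - p * E) - kap x)
      + p * (phit (x - p * E) - 9 / 10000 * kap (x - p * E)) := by
  have _ := hx
  obtain ⟨y, hy⟩ : ∃ y, y = x - p * E := ⟨_, rfl⟩
  rw [← hy]
  have hpE : 0 ≤ p * E := mul_nonneg hp (by linarith)
  have hyx : y ≤ x := by linarith
  have hpE3 : p * E ≤ 3 * p := by nlinarith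
  have hpE1 : p / 2 ≤ p * E := by nlinarith
  have hpp : p * (1 - p) ≤ p := by nlinarith
  have hpp' : p * (1 - p) ≤ 1 - p := by nlinarith
  by_cases hfar : y ≤ 9 / 10 ∨ 11 / 10 ≤ y
  · have h1 := phit_far hfar
    have h2 := kap_sub_le hyx
    have h3 := kap_le y
    have h4 : p * (46 / 10000 - 9 / 10000 * (9 / 10)) ≤ p * (phit y - 9 / 10000 * kap y) := by
      apply mul_le_mul_of_nonneg_left _ hp
      linarith
    linarith
  · push Not at hfar
    have h0 := phit_nonneg y
    have hk := pot1_kap_mid hfar.1.le (by linarith [hfar.2])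
    have h4 : p * (0 - 9 / 10000 * kap y) ≤ p * (phit y - 9 / 10000 * kap y) := by
      apply mul_le_mul_of_nonneg_left _ hp
      linarith
    rcases le_or_gt (6 / 5) x with h | h
    · rw [kap_zero h]
      have h5 : 3 / 10 ≤ kap y := by
        rw [hk]
        linarith [hfar.2]
      have h6 : 3 / 10 * (1 - p) ≤ kap y * (1 - p) :=
        mul_le_mul_of_nonneg_right h5 (by linarith)
      linarith
    · have hkx := pot1_kap_mid (by linarith [hfar.1] : 9 / 10 ≤ x) h.le
      have h5 : kap y ≤ 9 / 10 := kap_le y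
      have h6 : p * kap y ≤ p * (9 / 10) := mul_le_mul_of_nonneg_left h5 hp
      have h7 : kap y - kap x = 3 * (p * E) := by
        rw [hk, hkx, hy]
        ring
      rw [h7]
      linarith

end

end Pool.Agent.Lib.MP_009d13_co.OD
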