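import Pool.Agent.Lib.MP_009d13_co.OD.OPA
import Pool.Agent.Lib.MP_009d13_co.OD.POT1

set_option autoImplicit false

namespace Pool.Agent.Lib.MP_009d13_co.OD

open Finset Classical

noncomputable section

variable {V : Type} [Fintype V]

/-! ### LEF : the loss of the left over hubs -/

/-- Bounded growth function of a hub that has lost mass. -/
def lef_H (x : ℝ) : ℝ := max 0 (min (24 / 100) (4 / 5 - x))

/-- Potential of the left over hubs. -/
def lef_Psi (μ : V → V → ℝ) (A : Finset V) (v : V) : ℝ :=
  Real.exp (1 / 1500 * ∑ z ∈ (insert v A)ᶜ, lef_H (un μ A z))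

theorem lef_H_nonneg (x : ℝ) : 0 ≤ lef_H x := le_max_left _ _

theorem lef_H_zero {x : ℝ} (hx : 4 / 5 ≤ x) : lef_H x = 0 := by
  unfold lef_H
  apply max_eq_left
  exact (min_le_right _ _).trans (by linarith)

theorem lef_H_big {x : ℝ} (hx : x ≤ 56 / 100) : 24 / 100 ≤ lef_H x := by
  unfold lef_H
  apply le_max_of_le_right
  apply le_min le_rfl
  linarith

theorem lef_H_sub {x y : ℝ} (h : y ≤ x) : lef_H y - lef_H x ≤ x - y := by
  have h1 : lef_H y ≤ lef_H x + (x - y) := by
    unfold lef_H
    apply max_le
    · have := le_max_left (0 : ℝ) (min (24 / 100) (4 / 5 - x))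
      linarith
    · have h2 : min (24 / 100) (4 / 5 - y) - (x - y) ≤ min (24 / 100) (4 / 5 - x) := by
        apply le_min
        · have := min_le_left (24 / 100 : ℝ) (4 / 5 - y)
          linarith
        · have := min_le_right (24 / 100 : ℝ) (4 / 5 - y)
          linarith
      have := le_max_right (0 : ℝ) (min (24 / 100) (4 / 5 - x))
      linarith
  linarith

theorem lef_phit_low {x : ℝ} (hx : x < 4 / 5) : 1 / 50 ≤ phit x := by
  unfold phit
  split_ifs with h0
  · norm_num
  · push Not at h0
    apply le_min (by norm_num)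
    have h1 : Real.exp (22 / 100) ≤ 5 / 4 := by
      have h2 := Real.exp_bound' (x := 22 / 100) (by norm_num) (by norm_num) (n := 3) (by norm_num)
      refine h2.trans ?_
      norm_num [Finset.sum_range_succ, Nat.factorial]
    have h2 : 22 / 100 ≤ Real.log (5 / 4) := by
      rw [Real.le_log_iff_exp_le (by norm_num)]
      exact h1
    have h3 : Real.log x + Real.log (5 / 4) ≤ x * (5 / 4) - 1 := by
      rw [← Real.log_mul (by linarith) (by norm_num)]
      exact Real.log_le_sub_one_of_pos (by positivity)
    linarith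

theorem lef_exp_quarter {t : ℝ} (h0 : 0 ≤ t) (h1 : t ≤ 1) :
    Real.exp (-(t / 4)) ≤ 1 - 1 / 5 * t := by
  have h2 : 1 + t / 4 ≤ Real.exp (t / 4) := by
    have := Real.add_one_le_exp (t / 4)
    linarith
  have h3 : Real.exp (-(t / 4)) * Real.exp (t / 4) = 1 := by
    rw [← Real.exp_add]; simp
  have h4 : 0 < Real.exp (-(t / 4)) := Real.exp_pos _
  have h5 : Real.exp (-(t / 4)) * (1 + t / 4) ≤ 1 := by nlinarith
  have h6 : 1 ≤ (1 - 1 / 5 * t) * (1 + t / 4) := by nlinarith
  have h7 : 0 < 1 + t / 4 := by linarith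
  by_contra hc
  push Not at hc
  nlinarith

/-- One step of the walk. -/
theorem lef_step {μ : V → V → ℝ} (h : Wt μ) {A : Finset V} {v : V} (hv : v ∉ A)
    (h6 : un μ A v ≤ 6) :
    ∑ b ∈ (insert v A)ᶜ, μ v b / un μ A v *
      (Real.exp (-(phit (un μ (insert v A) b) / 4)) * lef_Psi μ (insert v A) b)
      ≤ lef_Psi μ A v := by
  have hD0 : 0 ≤ un μ A v := un_nonneg h A v
  rcases hD0.eq_or_lt with hD | hD
  · rw [← hD]
    simp only [div_zero, zero_mul, Finset.sum_const_zero]
    exact (Real.exp_pos _).le
  · set D := un μ A v with hDdef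
    have hp0 : ∀ b, 0 ≤ μ v b / D := fun b => div_nonneg (h.nonneg _ _) hD0
    have hp1 : ∑ b ∈ (insert v A)ᶜ, μ v b / D = 1 := by
      rw [← Finset.sum_div, un_eq_insert h A v]
      exact div_self hD.ne'
    set S' := ∑ z ∈ (insert v A)ᶜ, lef_H (un μ (insert v A) z) with hS'
    set S := ∑ z ∈ (insert v A)ᶜ, lef_H (un μ A z) with hS
    set T := ∑ b ∈ (insert v A)ᶜ, μ v b / D * phit (un μ (insert v A) b) with hT
    have h1 : ∀ b, lef_Psi μ (insert v A) b ≤ Real.exp (1 / 1500 * S') := by
      intro b
      unfold lef_Psi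
      apply Real.exp_le_exp.2
      apply mul_le_mul_of_nonneg_left _ (by norm_num)
      apply Finset.sum_le_sum_of_subset_of_nonneg
      · intro z hz
        simp only [Finset.mem_compl, Finset.mem_insert, not_or] at hz ⊢
        exact hz.2
      · intro z _ _
        exact lef_H_nonneg _
    have h2 : ∑ b ∈ (insert v A)ᶜ, μ v b / D *
        (Real.exp (-(phit (un μ (insert v A) b) / 4)) * lef_Psi μ (insert v A) b)
        ≤ ∑ b ∈ (insert v A)ᶜ, μ v b / D *
          ((1 - 1 / 5 * phit (un μ (insert v A) b)) * Real.exp (1 / 1500 * S')) := by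
      apply Finset.sum_le_sum
      intro b _
      apply mul_le_mul_of_nonneg_left _ (hp0 b)
      have h3 := lef_exp_quarter (phit_nonneg (un μ (insert v A) b))
        (phit_le_one (un μ (insert v A) b))
      exact mul_le_mul h3 (h1 b) (Real.exp_pos _).le ((Real.exp_pos _).le.trans h3)
    have h3 : ∑ b ∈ (insert v A)ᶜ, μ v b / D *
          ((1 - 1 / 5 * phit (un μ (insert v A) b)) * Real.exp (1 / 1500 * S'))
        = (1 - 1 / 5 * T) * Real.exp (1 / 1500 * S') := by
      have e1 : ∀ b ∈ (insert v A)ᶜ, μ v b / D *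
          ((1 - 1 / 5 * phit (un μ (insert v A) b)) * Real.exp (1 / 1500 * S'))
          = (μ v b / D - 1 / 5 * (μ v b / D * phit (un μ (insert v A) b)))
            * Real.exp (1 / 1500 * S') := by
        intro b _
        ring
      rw [Finset.sum_congr rfl e1, ← Finset.sum_mul, Finset.sum_sub_distrib, hp1,
        ← Finset.mul_sum]
    have h4 : (1 - 1 / 5 * T) ≤ Real.exp (-(1 / 5 * T)) := by
      have := Real.add_one_le_exp (-(1 / 5 * T))
      linarith
    have h5 : S' - S ≤ 300 * T := by
      rw [hS', hS, hT, ← Finset.sum_sub_distrib, Finset.mul_sum]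
      apply Finset.sum_le_sum
      intro z _
      have hx : un μ (insert v A) z = un μ A z - μ z v := un_insert μ hv z
      have hzv : 0 ≤ μ z v := h.nonneg _ _
      rcases lt_or_ge (un μ (insert v A) z) (4 / 5) with hz | hz
      · have h6' := lef_phit_low hz
        have h7 : lef_H (un μ (insert v A) z) - lef_H (un μ A z) ≤ μ z v := by
          have := lef_H_sub (x := un μ A z) (y := un μ (insert v A) z) (by linarith)
          linarith
        have h8 : μ z v = μ v z / D * D := by
          rw [h.symm z v]; field_simp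
        have h9 : 0 ≤ μ v z / D := hp0 z
        have h10 : μ v z / D * D ≤ μ v z / D * 6 := mul_le_mul_of_nonneg_left h6 h9
        have h11 : μ v z / D * (1 / 50) ≤ μ v z / D * phit (un μ (insert v A) z) :=
          mul_le_mul_of_nonneg_left h6' h9
        linarith
      · rw [lef_H_zero hz]
        have h9 : 0 ≤ μ v z / D * phit (un μ (insert v A) z) :=
          mul_nonneg (hp0 z) (phit_nonneg _)
        have := lef_H_nonneg (un μ A z)
        linarith
    calc _ ≤ (1 - 1 / 5 * T) * Real.exp (1 / 1500 * S') := h2.trans h3.le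
      _ ≤ Real.exp (-(1 / 5 * T)) * Real.exp (1 / 1500 * S') :=
          mul_le_mul_of_nonneg_right h4 (Real.exp_pos _).le
      _ = Real.exp (-(1 / 5 * T) + 1 / 1500 * S') := (Real.exp_add _ _).symm
      _ ≤ Real.exp (1 / 1500 * S) := by
          apply Real.exp_le_exp.2
          linarith
      _ = lef_Psi μ A v := rfl

/-- The end of the walk. -/
theorem lef_end {μ : V → V → ℝ} (h : Wt μ) {B : Finset V} {u : V} (hu : u ∉ B)
    (hc : 3 ≤ Bᶜ.card) :
    Real.exp (-(3 / 4 * phit (un μ B u))) * Real.exp (-(ms μ (insert u B) / 2))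
      ≤ Real.exp (-(1 / 10000)) * lef_Psi μ B u := by
  unfold lef_Psi
  rw [← Real.exp_add, ← Real.exp_add]
  apply Real.exp_le_exp.2
  have hm : 0 ≤ ms μ (insert u B) := ms_nonneg h _
  have hph : 0 ≤ phit (un μ B u) := phit_nonneg _
  have hS : 0 ≤ ∑ z ∈ (insert u B)ᶜ, lef_H (un μ B z) :=
    Finset.sum_nonneg fun z _ => lef_H_nonneg _
  by_cases h1 : un μ B u ≤ 9 / 10 ∨ 11 / 10 ≤ un μ B u
  · have := phit_far h1
    linarith
  · push Not at h1
    rcases le_or_gt (1 / 100) (ms μ (insert u B)) with h2 | h2
    · linarith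
    · have hcard : 1 < ((insert u B)ᶜ).card := by
        have e1 : (insert u B)ᶜ = Bᶜ.erase u := by
          ext z
          simp only [Finset.mem_compl, Finset.mem_insert, not_or, Finset.mem_erase]
        rw [e1, Finset.card_erase_of_mem (by simpa using hu)]
        omega
      obtain ⟨z, hz, z', hz', hne⟩ := Finset.one_lt_card.1 hcard
      have hsum : μ u z + μ u z' ≤ un μ B u := by
        rw [← un_eq_insert h B u]
        have h3 : ∑ b ∈ ({z, z'} : Finset V), μ u b ≤ ∑ b ∈ (insert u B)ᶜ, μ u b := by
          apply Finset.sum_le_sum_of_subset_of_nonneg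
          · intro x hx
            simp only [Finset.mem_insert, Finset.mem_singleton] at hx
            rcases hx with rfl | rfl
            · exact hz
            · exact hz'
          · intro x _ _
            exact h.nonneg _ _
        rw [Finset.sum_pair hne] at h3
        exact h3
      have key : ∀ y ∈ (insert u B)ᶜ, μ u y ≤ 55 / 100 →
          24 / 100 ≤ ∑ z ∈ (insert u B)ᶜ, lef_H (un μ B z) := by
        intro y hy hy1
        have hy2 : y ∉ insert u B := by simpa using hy
        have h4 : un μ (insert u B) y ≤ ms μ (insert u B) := un_le_ms h hy2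
        have h5 : un μ (insert u B) y = un μ B y - μ y u := un_insert μ hu y
        have h6 : μ y u = μ u y := h.symm _ _
        have h7 : un μ B y ≤ 56 / 100 := by linarith
        have h8 := lef_H_big h7
        exact h8.trans (Finset.single_le_sum
          (f := fun z => lef_H (un μ B z)) (fun z _ => lef_H_nonneg _) hy)
      have h9 : 24 / 100 ≤ ∑ z ∈ (insert u B)ᶜ, lef_H (un μ B z) := by
        rcases le_total (μ u z) (55 / 100) with h10 | h10
        · exact key z hz h10
        · exact key z' hz' (by linarith [h1.2])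
      linarith

theorem lef_x_exp {x : ℝ} (hx : 0 ≤ x) : x * Real.exp (1 - x) ≤ Real.exp (-phit x) := by
  rcases hx.eq_or_lt with h0 | h0
  · rw [← h0]; simp [(Real.exp_pos _).le]
  · have h1 := phit_le h0
    calc x * Real.exp (1 - x) = Real.exp (Real.log x) * Real.exp (1 - x) := by
          rw [Real.exp_log h0]
      _ = Real.exp (Real.log x + (1 - x)) := (Real.exp_add _ _).symm
      _ ≤ Real.exp (-phit x) := by
          apply Real.exp_le_exp.2
          linarith

theorem lef_main {μ : V → V → ℝ} (h : Wt μ) (k : ℕ) : ∀ {A : Finset V} {v : V},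
    v ∉ A → (∀ z ∉ A, un μ A z ≤ 6) → k + 4 ≤ Aᶜ.card →
    (Nf μ)^[k + 1] (fun B u => Real.exp (-(ms μ (insert u B) / 2))) A v
      ≤ Real.exp (-(1 / 10000)) * lef_Psi μ A v := by
  induction k with
  | zero =>
    intro A v hv hz hc
    rw [zero_add, Function.iterate_one]
    have hcard : ((insert v A)ᶜ).card + 1 = Aᶜ.card := by
      have e1 : (insert v A)ᶜ = Aᶜ.erase v := by
        ext z
        simp only [Finset.mem_compl, Finset.mem_insert, not_or, Finset.mem_erase]
      rw [e1, Finset.card_erase_of_mem (by simpa using hv)]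
      have : 0 < Aᶜ.card := by omega
      omega
    have h1 : Nf μ (fun B u => Real.exp (-(ms μ (insert u B) / 2))) A v
        ≤ ∑ b ∈ (insert v A)ᶜ, μ v b / un μ A v * (Real.exp (-(phit (un μ (insert v A) b) / 4))
          * (Real.exp (-(1 / 10000)) * lef_Psi μ (insert v A) b)) := by
      unfold Nf
      apply Finset.sum_le_sum
      intro b hb
      have hb' : b ∉ insert v A := by simpa using hb
      rw [mul_assoc]
      apply mul_le_mul_of_nonneg_left _ (div_nonneg (h.nonneg _ _) (un_nonneg h _ _))
      have h2 := lef_x_exp (un_nonneg h (insert v A) b)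
      have h3 := lef_end h (B := insert v A) (u := b) hb' (by omega)
      have h4 : Real.exp (-phit (un μ (insert v A) b))
          = Real.exp (-(phit (un μ (insert v A) b) / 4))
            * Real.exp (-(3 / 4 * phit (un μ (insert v A) b))) := by
        rw [← Real.exp_add]
        congr 1
        ring
      calc _ ≤ Real.exp (-phit (un μ (insert v A) b))
            * Real.exp (-(ms μ (insert b (insert v A)) / 2)) :=
            mul_le_mul_of_nonneg_right h2 (Real.exp_pos _).le
        _ = Real.exp (-(phit (un μ (insert v A) b) / 4))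
            * (Real.exp (-(3 / 4 * phit (un μ (insert v A) b)))
            * Real.exp (-(ms μ (insert b (insert v A)) / 2))) := by
            rw [h4, mul_assoc]
        _ ≤ _ := mul_le_mul_of_nonneg_left h3 (Real.exp_pos _).le
    refine h1.trans ?_
    have h5 := lef_step h hv (hz v hv)
    have h6 : ∑ b ∈ (insert v A)ᶜ, μ v b / un μ A v * (Real.exp (-(phit (un μ (insert v A) b) / 4))
          * (Real.exp (-(1 / 10000)) * lef_Psi μ (insert v A) b))
        = Real.exp (-(1 / 10000)) * ∑ b ∈ (insert v A)ᶜ, μ v b / un μ A v *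
          (Real.exp (-(phit (un μ (insert v A) b) / 4)) * lef_Psi μ (insert v A) b) := by
      rw [Finset.mul_sum]
      apply Finset.sum_congr rfl
      intro b _
      ring
    rw [h6]
    exact mul_le_mul_of_nonneg_left h5 (Real.exp_pos _).le
  | succ k ih =>
    intro A v hv hz hc
    rw [Function.iterate_succ_apply']
    have hcard : ((insert v A)ᶜ).card + 1 = Aᶜ.card := by
      have e1 : (insert v A)ᶜ = Aᶜ.erase v := by
        ext z
        simp only [Finset.mem_compl, Finset.mem_insert, not_or, Finset.mem_erase]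
      rw [e1, Finset.card_erase_of_mem (by simpa using hv)]
      have : 0 < Aᶜ.card := by omega
      omega
    have h1 : Nf μ ((Nf μ)^[k + 1] (fun B u => Real.exp (-(ms μ (insert u B) / 2)))) A v
        ≤ ∑ b ∈ (insert v A)ᶜ, μ v b / un μ A v * (Real.exp (-(phit (un μ (insert v A) b) / 4))
          * (Real.exp (-(1 / 10000)) * lef_Psi μ (insert v A) b)) := by
      rw [Nf]
      apply Finset.sum_le_sum
      intro b hb
      have hb' : b ∉ insert v A := by simpa using hb
      rw [mul_assoc]
      apply mul_le_mul_of_nonneg_left _ (div_nonneg (h.nonneg _ _) (un_nonneg h _ _))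
      have h2 := lef_x_exp (un_nonneg h (insert v A) b)
      have h2' : 0 ≤ un μ (insert v A) b * Real.exp (1 - un μ (insert v A) b) :=
        mul_nonneg (un_nonneg h _ _) (Real.exp_pos _).le
      have h3 := ih (A := insert v A) (v := b) hb' (by
        intro z hz'
        refine (un_anti h (Finset.subset_insert v A) z).trans (hz z ?_)
        intro hzA
        exact hz' (Finset.mem_insert_of_mem hzA)) (by omega)
      have h4 : Real.exp (-phit (un μ (insert v A) b))
          ≤ Real.exp (-(phit (un μ (insert v A) b) / 4)) := by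
        apply Real.exp_le_exp.2
        have := phit_nonneg (un μ (insert v A) b)
        linarith
      have h5 : 0 ≤ Real.exp (-(1 / 10000)) * lef_Psi μ (insert v A) b :=
        mul_nonneg (Real.exp_pos _).le (Real.exp_pos _).le
      calc _ ≤ un μ (insert v A) b * Real.exp (1 - un μ (insert v A) b)
            * (Real.exp (-(1 / 10000)) * lef_Psi μ (insert v A) b) :=
            mul_le_mul_of_nonneg_left h3 h2'
        _ ≤ _ := mul_le_mul_of_nonneg_right (h2.trans h4) h5
    refine h1.trans ?_
    have h5 := lef_step h hv (hz v hv)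
    have h6 : ∑ b ∈ (insert v A)ᶜ, μ v b / un μ A v * (Real.exp (-(phit (un μ (insert v A) b) / 4))
          * (Real.exp (-(1 / 10000)) * lef_Psi μ (insert v A) b))
        = Real.exp (-(1 / 10000)) * ∑ b ∈ (insert v A)ᶜ, μ v b / un μ A v *
          (Real.exp (-(phit (un μ (insert v A) b) / 4)) * lef_Psi μ (insert v A) b) := by
      rw [Finset.mul_sum]
      apply Finset.sum_congr rfl
      intro b _
      ring
    rw [h6]
    exact mul_le_mul_of_nonneg_left h5 (Real.exp_pos _).le

theorem left_walk {μ : V → V → ℝ} (h : Wt μ) (k : ℕ) (hk : 1 ≤ k) {A : Finset V} {v : V}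
    (hv : v ∉ A) (hz : ∀ z ∉ A, 4 / 5 ≤ un μ A z ∧ un μ A z ≤ 6) (hc : k + 3 ≤ Aᶜ.card) :
    (Nf μ)^[k] (fun B u => Real.exp (-(ms μ (insert u B) / 2))) A v
      ≤ Real.exp (-(1 / 10000)) := by
  obtain ⟨j, rfl⟩ : ∃ j, k = j + 1 := ⟨k - 1, by omega⟩
  have h1 := lef_main h j hv (fun z hz' => (hz z hz').2) (by omega)
  have h2 : lef_Psi μ A v = 1 := by
    unfold lef_Psi
    have h3 : ∑ z ∈ (insert v A)ᶜ, lef_H (un μ A z) = 0 := by
      apply Finset.sum_eq_zero
      intro z hz'
      apply lef_H_zero
      apply (hz z _).1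
      simp only [Finset.mem_compl, Finset.mem_insert, not_or] at hz'
      exact hz'.2
    rw [h3]
    simp
  rw [h2, mul_one] at h1
  exact h1

end

end Pool.Agent.Lib.MP_009d13_co.OD
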