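import Pool.Agent.Lib.MP_009d13_co.OD.OPA
import Pool.Agent.Lib.MP_009d13_co.OD.OPB

/-! NFC: the natural walk. -/

set_option autoImplicit false

namespace Pool.Agent.Lib.MP_009d13_co.OD

open Finset Classical

noncomputable section

variable {V : Type} [Fintype V]

theorem nf_conj {μ : V → V → ℝ} (h : Wt μ) (g : Finset V → V → ℝ) (k : ℕ) {A : Finset V} {v : V}
    (hv : v ∉ A) :
    (Pp μ)^[k] (fun B u => un μ B u * g B u) A v
      = un μ A v * Real.exp (ms μ A - un μ A v - k)
        * (Nf μ)^[k] (fun B u => Real.exp (-(ms μ (insert u B))) * g B u) A v := by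
  induction k generalizing A v with
  | zero =>
    simp only [Function.iterate_zero, id, Nat.cast_zero, sub_zero]
    rw [ms_insert h hv]
    have e : Real.exp (ms μ A - un μ A v) * Real.exp (-(ms μ A - un μ A v)) = 1 := by
      rw [← Real.exp_add, add_neg_cancel, Real.exp_zero]
    linear_combination (-(un μ A v * g A v)) * e
  | succ k ih =>
    rw [Function.iterate_succ_apply', Function.iterate_succ_apply']
    unfold Pp Nf
    rw [mul_sum]
    refine sum_congr rfl fun b hb => ?_
    have hb' : b ∉ insert v A := by simpa [mem_compl] using hb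
    have ih' := ih hb'
    unfold Pp Nf at ih'
    rw [ih', ms_insert h hv]
    push_cast
    by_cases h0 : un μ A v = 0
    · have hz : μ v b = 0 := by
        have h1 := un_eq_insert h A v
        rw [h0] at h1
        exact (sum_eq_zero_iff_of_nonneg fun c _ => h.nonneg v c).mp h1 b hb
      rw [hz, h0]
      ring
    · have e : Real.exp (ms μ A - un μ A v - un μ (insert v A) b - k)
          = Real.exp (ms μ A - un μ A v - (k + 1)) * Real.exp (1 - un μ (insert v A) b) := by
        rw [← Real.exp_add]
        congr 1
        ring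
      rw [e]
      field_simp

theorem nfc_le (x : ℝ) : x * Real.exp (1 - x) ≤ 1 := by
  have h1 := Real.add_one_le_exp (x - 1)
  have h2 : Real.exp (x - 1) * Real.exp (1 - x) = 1 := by
    rw [← Real.exp_add]; simp
  calc x * Real.exp (1 - x) ≤ Real.exp (x - 1) * Real.exp (1 - x) :=
        mul_le_mul_of_nonneg_right (by linarith) (Real.exp_pos _).le
    _ = 1 := h2

theorem nf_one {μ : V → V → ℝ} (h : Wt μ) (k : ℕ) {A : Finset V} {v : V} (hv : v ∉ A) :
    (Nf μ)^[k] (fun _ _ => 1) A v ≤ 1 := by
  induction k generalizing A v with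
  | zero => simp
  | succ k ih =>
    rw [Function.iterate_succ_apply']
    have h1 : Nf μ ((Nf μ)^[k] fun _ _ => 1) A v ≤ ∑ b ∈ (insert v A)ᶜ, μ v b / un μ A v := by
      unfold Nf
      refine sum_le_sum fun b hb => ?_
      have hb' : b ∉ insert v A := by simpa [mem_compl] using hb
      have ih' := ih hb'
      unfold Nf at ih'
      have hw : 0 ≤ μ v b / un μ A v := div_nonneg (h.nonneg v b) (un_nonneg h A v)
      have hx : 0 ≤ un μ (insert v A) b * Real.exp (1 - un μ (insert v A) b) :=
        mul_nonneg (un_nonneg h _ _) (Real.exp_pos _).le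
      calc _ ≤ μ v b / un μ A v * (un μ (insert v A) b * Real.exp (1 - un μ (insert v A) b)) * 1 :=
            mul_le_mul_of_nonneg_left ih' (mul_nonneg hw hx)
        _ ≤ μ v b / un μ A v * 1 := by
            rw [mul_one]
            exact mul_le_mul_of_nonneg_left (nfc_le _) hw
        _ = _ := mul_one _
    refine h1.trans ?_
    rw [← sum_div, un_eq_insert h A v]
    exact div_self_le_one _

end

end Pool.Agent.Lib.MP_009d13_co.OD
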