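import Pool.Agent.Lib.MP_009d13_co.OD.OPC
import Pool.Agent.Lib.MP_009d13_co.OD.BR
import Pool.Agent.Lib.MP_009d13_co.OD.NFC
import Pool.Agent.Lib.MP_009d13_co.OD.LEF

set_option autoImplicit false

namespace Pool.Agent.Lib.MP_009d13_co.OD

open Finset Classical

noncomputable section

variable {V : Type} [Fintype V]

/-! ### LFT : left over hubs -/

theorem lft_Nf_mono {μ : V → V → ℝ} (h : Wt μ) {g g' : Finset V → V → ℝ}
    (hg : ∀ B u, u ∉ B → g B u ≤ g' B u) (k : ℕ) {A : Finset V} {v : V} (hv : v ∉ A) :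
    (Nf μ)^[k] g A v ≤ (Nf μ)^[k] g' A v := by
  rw [Nf_eq_TW]
  exact TW_mono (fun A v b => mul_nonneg (div_nonneg (h.nonneg _ _) (un_nonneg h _ _))
    (mul_nonneg (un_nonneg h _ _) (Real.exp_pos _).le)) hg k hv

theorem lft_sq {d : ℝ} (hd : 0 ≤ d) : d ^ 2 * (d * Real.exp (2 - d)) ≤ 4 * d := by
  have h1 : d / 2 * Real.exp (1 - d / 2) ≤ 1 := by
    have h2 : d / 2 ≤ Real.exp (d / 2 - 1) := by
      have := Real.add_one_le_exp (d / 2 - 1)
      linarith
    calc d / 2 * Real.exp (1 - d / 2)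
        ≤ Real.exp (d / 2 - 1) * Real.exp (1 - d / 2) :=
          mul_le_mul_of_nonneg_right h2 (Real.exp_pos _).le
      _ = 1 := by rw [← Real.exp_add]; simp
  have h0 : 0 ≤ d / 2 * Real.exp (1 - d / 2) := by positivity
  have h3 : (d / 2 * Real.exp (1 - d / 2)) * (d / 2 * Real.exp (1 - d / 2)) ≤ 1 := by
    nlinarith
  have h4 : (d / 2 * Real.exp (1 - d / 2)) * (d / 2 * Real.exp (1 - d / 2))
      = d ^ 2 / 4 * Real.exp (2 - d) := by
    have h5 : Real.exp (2 - d) = Real.exp (1 - d / 2) * Real.exp (1 - d / 2) := by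
      rw [← Real.exp_add]; congr 1; ring
    rw [h5]; ring
  rw [h4] at h3
  have h6 : d * (d ^ 2 / 4 * Real.exp (2 - d)) ≤ d * 1 := mul_le_mul_of_nonneg_left h3 hd
  nlinarith

theorem left {μ : V → V → ℝ} (h : Wt μ) {l : ℕ} (hl : 3 ≤ l) (hm : ms μ ∅ = l)
    (B : Finset V) (hB : ∀ a ∈ B, ∀ b, μ a b = 0)
    (hz : ∀ z ∉ B, 4 / 5 ≤ dg μ z ∧ dg μ z ≤ 6) (hc : l + 1 ≤ Bᶜ.card) :
    ∑ v, dg μ v ^ 2 * (Pp μ)^[l - 1] (fun A _ => Real.exp (ms μ A / 2)) ∅ v
      ≤ 8 * l * Real.exp (-(1 / 10000)) := by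
  have hunB : ∀ z, un μ B z = dg μ z := by
    intro z
    have h1 := un_zer h B hB ∅ z
    rw [Finset.empty_union] at h1
    rw [h1, dg_eq]
  have hmsB : ms μ B = l := by
    have h1 := ms_zer h B hB ∅
    rw [Finset.empty_union] at h1
    rw [h1, hm]
  have hd0 : ∀ z, 0 ≤ dg μ z := by
    intro z; rw [dg_eq]; exact un_nonneg h _ _
  have key : ∀ v, dg μ v ^ 2 * (Pp μ)^[l - 1] (fun A _ => Real.exp (ms μ A / 2)) ∅ v
      ≤ 4 * dg μ v * Real.exp (-(1 / 10000)) := by
    intro v
    by_cases hv : v ∈ B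
    · have h0 : dg μ v = 0 := by
        unfold dg
        exact Finset.sum_eq_zero fun b _ => hB v hv b
      rw [h0]; simp
    · have h1 : (Pp μ)^[l - 1] (fun A _ => Real.exp (ms μ A / 2)) ∅ v
          = (Pp μ)^[l - 1] (fun A _ => Real.exp (ms μ A / 2)) B v := by
        have h2 := Pp_zer h B hB (fun A _ => Real.exp (ms μ A / 2))
          (fun A _ => by simp only [ms_zer h B hB A]) (l - 1) (A := ∅) (v := v)
        rw [Finset.empty_union] at h2
        exact h2
      have h2 : l - 1 = (l - 2) + 1 := by omega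
      have h3 : (Pp μ)^[l - 1] (fun A _ => Real.exp (ms μ A / 2)) B v
          = (Pp μ)^[l - 2] (fun B u => un μ B u * Real.exp (ms μ (insert u B) / 2)) B v := by
        have h20 : Pp μ (fun A _ => Real.exp (ms μ A / 2))
            = fun B u => un μ B u * Real.exp (ms μ (insert u B) / 2) := by
          funext A u
          unfold Pp
          rw [← Finset.sum_mul, un_eq_insert h A u]
        rw [h2, Function.iterate_succ_apply, h20]
      have h4 := nf_conj h (fun B u => Real.exp (ms μ (insert u B) / 2)) (l - 2) hv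
      have h5 : (Nf μ)^[l - 2] (fun B u => Real.exp (-(ms μ (insert u B)))
          * Real.exp (ms μ (insert u B) / 2)) B v ≤ Real.exp (-(1 / 10000)) := by
        have h6 := left_walk h (l - 2) (by omega) hv (fun z hz' => by
          rw [hunB]; exact hz z hz') (by omega)
        have h7 : (fun (B : Finset V) (u : V) => Real.exp (-(ms μ (insert u B)))
          * Real.exp (ms μ (insert u B) / 2))
          = fun B u => Real.exp (-(ms μ (insert u B) / 2)) := by
          funext B u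
          rw [← Real.exp_add]
          congr 1
          ring
        rw [h7]
        exact h6
      have h6 : (((l - 2 : ℕ) : ℝ)) = (l : ℝ) - 2 := by
        rw [Nat.cast_sub (by omega)]; norm_num
      rw [h1, h3, h4, hunB, hmsB, h6]
      have h8 : (l : ℝ) - dg μ v - (l - 2) = 2 - dg μ v := by ring
      rw [h8]
      have h9 : 0 ≤ dg μ v * Real.exp (2 - dg μ v) := mul_nonneg (hd0 v) (Real.exp_pos _).le
      have h10 : dg μ v * Real.exp (2 - dg μ v) * (Nf μ)^[l - 2] (fun B u =>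
          Real.exp (-(ms μ (insert u B))) * Real.exp (ms μ (insert u B) / 2)) B v
          ≤ dg μ v * Real.exp (2 - dg μ v) * Real.exp (-(1 / 10000)) :=
        mul_le_mul_of_nonneg_left h5 h9
      have h11 := mul_le_mul_of_nonneg_left h10 (sq_nonneg (dg μ v))
      refine h11.trans ?_
      have h12 := mul_le_mul_of_nonneg_right (lft_sq (hd0 v))
        (Real.exp_pos (-(1 / 10000 : ℝ))).le
      calc _ = dg μ v ^ 2 * (dg μ v * Real.exp (2 - dg μ v)) * Real.exp (-(1 / 10000)) := by ring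
        _ ≤ _ := h12
  refine (Finset.sum_le_sum fun v _ => key v).trans ?_
  have h1 := sum_dg μ
  rw [← Finset.sum_mul, ← Finset.mul_sum, h1, hm]
  apply le_of_eq
  ring

theorem wo_le {μ : V → V → ℝ} (h : Wt μ) {l : ℕ} (hl : 2 ≤ l) (hm : ms μ ∅ = l) :
    Wo μ (dg μ) l ≤ 8 * l := by
  have hd0 : ∀ z, 0 ≤ dg μ z := by
    intro z; rw [dg_eq]; exact un_nonneg h _ _
  refine (wo_le_sq h l (by omega)).trans ?_
  have key : ∀ v, dg μ v ^ 2 * (Pp μ)^[l - 1] (fun _ _ => 1) ∅ v ≤ 4 * dg μ v := by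
    intro v
    have hv : v ∉ (∅ : Finset V) := Finset.notMem_empty v
    have h2 : l - 1 = (l - 2) + 1 := by omega
    have h3 : (Pp μ)^[l - 1] (fun _ _ => 1) ∅ v
        = (Pp μ)^[l - 2] (fun B u => un μ B u * 1) ∅ v := by
      have h20 : Pp μ (fun _ _ => 1) = fun B u => un μ B u * 1 := by
        funext A u
        unfold Pp
        rw [← Finset.sum_mul, un_eq_insert h A u]
      rw [h2, Function.iterate_succ_apply, h20]
    have h4 := nf_conj h (fun _ _ => 1) (l - 2) hv
    have h5 : (Nf μ)^[l - 2] (fun B u => Real.exp (-(ms μ (insert u B))) * 1) ∅ v ≤ 1 := by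
      refine (lft_Nf_mono h (g' := fun _ _ => 1) (fun B u _ => ?_) (l - 2) hv).trans
        (nf_one h (l - 2) hv)
      rw [mul_one]
      apply Real.exp_le_one_iff.2
      have := ms_nonneg h (insert u B)
      linarith
    have h6 : (((l - 2 : ℕ) : ℝ)) = (l : ℝ) - 2 := by
      rw [Nat.cast_sub hl]; norm_num
    rw [h3, h4, ← dg_eq, hm, h6]
    have h8 : (l : ℝ) - dg μ v - (l - 2) = 2 - dg μ v := by ring
    rw [h8]
    have h9 : 0 ≤ dg μ v * Real.exp (2 - dg μ v) := mul_nonneg (hd0 v) (Real.exp_pos _).le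
    have h10 := mul_le_mul_of_nonneg_left h5 h9
    have h11 := mul_le_mul_of_nonneg_left h10 (sq_nonneg (dg μ v))
    refine h11.trans ?_
    rw [mul_one]
    exact lft_sq (hd0 v)
  refine (Finset.sum_le_sum fun v _ => key v).trans ?_
  rw [← Finset.mul_sum, sum_dg, hm]
  apply le_of_eq
  ring

end

end Pool.Agent.Lib.MP_009d13_co.OD
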