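import Pool.Agent.Lib.MP_009d13_co.OD.OPA
import Pool.Agent.Lib.MP_009d13_co.OD.OPB
import Pool.Agent.Lib.MP_009d13_co.OD.GEN

/-! MSM: the main sum. -/

set_option autoImplicit false

namespace Pool.Agent.Lib.MP_009d13_co.OD

open Finset Classical

noncomputable section

variable {V : Type} [Fintype V]

theorem msm_two_mul_pow (t : ℕ) (ht : 1 ≤ t) : 2 * t ^ t ≤ (t + 1) ^ t := by
  have h1 : (2 : ℝ) * (t : ℝ) ^ t ≤ ((t : ℝ) + 1) ^ t := by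
    have ht0 : (0 : ℝ) < t := by exact_mod_cast ht
    have h2 := one_add_mul_le_pow (a := 1 / (t : ℝ)) (by
      have : (0 : ℝ) < 1 / t := by positivity
      linarith) t
    have h3 : 1 + (t : ℝ) * (1 / t) = 2 := by field_simp; norm_num
    rw [h3] at h2
    have h4 : (t : ℝ) + 1 = (1 + 1 / t) * t := by field_simp
    rw [h4, mul_pow]
    exact mul_le_mul_of_nonneg_right h2 (by positivity)
  exact_mod_cast h1

theorem msm_fact (τ : ℕ) : (τ + 1).factorial * 2 ^ τ ≤ (τ + 1) ^ (τ + 1) := by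
  induction τ with
  | zero => simp
  | succ τ ih =>
    calc (τ + 1 + 1).factorial * 2 ^ (τ + 1)
        = (τ + 1 + 1) * 2 * ((τ + 1).factorial * 2 ^ τ) := by
          rw [Nat.factorial_succ (τ + 1), pow_succ]; ring
      _ ≤ (τ + 1 + 1) * 2 * (τ + 1) ^ (τ + 1) := Nat.mul_le_mul_left _ ih
      _ = (τ + 1 + 1) * (2 * (τ + 1) ^ (τ + 1)) := by ring
      _ ≤ (τ + 1 + 1) * (τ + 1 + 1) ^ (τ + 1) :=
          Nat.mul_le_mul_left _ (msm_two_mul_pow (τ + 1) (by omega))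
      _ = _ := by rw [pow_succ (τ + 1 + 1) (τ + 1)]; ring

theorem exp_half (S : ℝ) (hS : 0 ≤ S) (n : ℕ) :
    1 + 1 / 2 * ∑ τ ∈ range n, (S / (τ + 1 : ℕ)) ^ (τ + 1) ≤ Real.exp (S / 2) := by
  have h1 := Real.sum_le_exp_of_nonneg (x := S / 2) (by linarith) (n + 1)
  rw [sum_range_succ'] at h1
  simp only [pow_zero, Nat.factorial_zero, Nat.cast_one, div_one] at h1
  rw [mul_sum]
  refine le_trans ?_ h1
  rw [add_comm]
  apply add_le_add_left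
  refine sum_le_sum fun τ _ => ?_
  have hf : (((τ + 1).factorial : ℝ)) * 2 ^ τ ≤ ((τ + 1 : ℕ) : ℝ) ^ (τ + 1) := by
    exact_mod_cast msm_fact τ
  have hf0 : (0 : ℝ) < (τ + 1).factorial := by exact_mod_cast Nat.factorial_pos _
  have ht : (0 : ℝ) < ((τ + 1 : ℕ) : ℝ) := by positivity
  rw [div_pow, div_pow, mul_div_assoc', div_div, div_le_div_iff₀ (by positivity) (by positivity)]
  have hS' : 0 ≤ S ^ (τ + 1) := by positivity
  calc 1 / 2 * S ^ (τ + 1) * (2 ^ (τ + 1) * ((τ + 1).factorial : ℝ))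
      = S ^ (τ + 1) * (((τ + 1).factorial : ℝ) * 2 ^ τ) := by rw [pow_succ (2 : ℝ) τ]; ring
    _ ≤ S ^ (τ + 1) * ((τ + 1 : ℕ) : ℝ) ^ (τ + 1) := mul_le_mul_of_nonneg_left hf hS'

theorem msm_step {μ : V → V → ℝ} (h : Wt μ) {l : ℕ} (hl : 1 ≤ l) (n : ℕ) (v : V) :
    (Pp μ)^[l - 1] (fun _ _ => 1) ∅ v + 1 / 2 * ∑ τ ∈ range n, (Pp μ)^[l + τ] (fun _ _ => 1) ∅ v
      ≤ (Pp μ)^[l - 1] (fun A _ => Real.exp (ms μ A / 2)) ∅ v := by
  have hv : v ∉ (∅ : Finset V) := notMem_empty v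
  have h1 : (Pp μ)^[l - 1] (fun A v => 1 + 1 / 2 * ∑ τ ∈ range n,
      (Pp μ)^[τ + 1] (fun _ _ => 1) A v) ∅ v
      ≤ (Pp μ)^[l - 1] (fun A _ => Real.exp (ms μ A / 2)) ∅ v := by
    conv_lhs => rw [Pp_eq_TW]
    conv_rhs => rw [Pp_eq_TW]
    apply TW_mono (fun _ v b => h.nonneg v b) _ _ hv
    intro A u hu
    rw [← Pp_eq_TW]
    refine le_trans ?_ (exp_half (ms μ A) (ms_nonneg h A) n)
    have : ∑ τ ∈ range n, (Pp μ)^[τ + 1] (fun _ _ => 1) A u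
        ≤ ∑ τ ∈ range n, (ms μ A / (τ + 1 : ℕ)) ^ (τ + 1) :=
      sum_le_sum fun τ _ => gen_pow h (τ + 1) hu
    linarith
  refine le_trans (le_of_eq ?_) h1
  have e1 : ∀ (g g' : Finset V → V → ℝ) (k : ℕ), (Pp μ)^[k] (fun A v => g A v + g' A v) ∅ v
      = (Pp μ)^[k] g ∅ v + (Pp μ)^[k] g' ∅ v := by
    intro g g' k
    rw [Pp_eq_TW]; exact TW_add _ _ _ _ _ _
  have e2 : ∀ (c : ℝ) (g : Finset V → V → ℝ) (k : ℕ), (Pp μ)^[k] (fun A v => c * g A v) ∅ v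
      = c * (Pp μ)^[k] g ∅ v := by
    intro c g k
    rw [Pp_eq_TW]; exact TW_smul _ _ _ _ _ _
  rw [e1 (fun _ _ => 1) (fun A v => 1 / 2 * ∑ τ ∈ range n, (Pp μ)^[τ + 1] (fun _ _ => 1) A v),
    e2 (1 / 2) (fun A v => ∑ τ ∈ range n, (Pp μ)^[τ + 1] (fun _ _ => 1) A v)]
  congr 2
  have e3 : (Pp μ)^[l - 1] (fun A v => ∑ τ ∈ range n, (Pp μ)^[τ + 1] (fun _ _ => 1) A v) ∅ v
      = ∑ τ ∈ range n, (Pp μ)^[l - 1] ((Pp μ)^[τ + 1] (fun _ _ => 1)) ∅ v := by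
    rw [Pp_eq_TW]; exact TW_sum _ _ (fun τ => (TW fun _ v b => μ v b)^[τ + 1] (fun _ _ => 1)) _ _ _
  rw [e3]
  refine sum_congr rfl fun τ _ => ?_
  have e4 : l - 1 + (τ + 1) = l + τ := by omega
  rw [← Function.iterate_add_apply, e4]

theorem main_sum {μ : V → V → ℝ} (h : Wt μ) {l : ℕ} (hl : 1 ≤ l) {χ : V → ℝ}
    (hχ : ∀ v, 0 ≤ χ v) (n : ℕ) :
    2 * (l + 1) * (∑ v, χ v * (Pp μ)^[l - 1] (fun _ _ => 1) ∅ v)
      + l * ∑ τ ∈ range n, ∑ v, χ v * (Pp μ)^[l + τ] (fun _ _ => 1) ∅ v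
      ≤ 2 * (l + 1) * ∑ v, χ v * (Pp μ)^[l - 1] (fun A _ => Real.exp (ms μ A / 2)) ∅ v := by
  have hl0 : (0 : ℝ) ≤ l := Nat.cast_nonneg l
  have h1 : ∑ v, χ v * (Pp μ)^[l - 1] (fun _ _ => 1) ∅ v
      + 1 / 2 * ∑ τ ∈ range n, ∑ v, χ v * (Pp μ)^[l + τ] (fun _ _ => 1) ∅ v
      ≤ ∑ v, χ v * (Pp μ)^[l - 1] (fun A _ => Real.exp (ms μ A / 2)) ∅ v := by
    rw [sum_comm, mul_sum, ← sum_add_distrib]
    refine sum_le_sum fun v _ => ?_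
    have h2 := mul_le_mul_of_nonneg_left (msm_step h hl n v) (hχ v)
    refine le_trans (le_of_eq ?_) h2
    rw [mul_add, ← mul_sum]
    ring
  have h2 : 0 ≤ ∑ τ ∈ range n, ∑ v, χ v * (Pp μ)^[l + τ] (fun _ _ => 1) ∅ v := by
    refine sum_nonneg fun τ _ => sum_nonneg fun v _ => mul_nonneg (hχ v) ?_
    rw [Pp_eq_TW]
    exact TW_nonneg (fun _ v b => h.nonneg v b) (fun _ _ _ => zero_le_one) _ (notMem_empty v)
  have h3 := mul_le_mul_of_nonneg_left h1 (by positivity : (0 : ℝ) ≤ 2 * (l + 1))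
  nlinarith

end

end Pool.Agent.Lib.MP_009d13_co.OD
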