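import Pool.Agent.Lib.MP_009d13_co.OD.Defs
import Pool.Agent.Lib.MP_009d13_co.OD.LS1
import Pool.Agent.Lib.MP_009d13_co.OD.LS4
import Pool.Agent.Lib.MP_009d13_co.OD.OPA
import Pool.Agent.Lib.MP_009d13_co.OD.BR
import Pool.Agent.Lib.MP_009d13_co.OD.GEN
import Pool.Agent.Lib.MP_009d13_co.OD.CAN
import Pool.Agent.Lib.MP_009d13_co.OD.MSM
import Pool.Agent.Lib.MP_009d13_co.OD.LFT
import Pool.Agent.Lib.MP_009d13_co.OD.FAR
import Pool.Agent.Lib.MP_009d13_co.OD.STAR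

/-!
# FIN: the functional when there are at least `l + 1` heavy hubs
-/

set_option autoImplicit false

namespace Pool.Agent.Lib.MP_009d13_co.OD

open Finset Classical

noncomputable section

variable {V : Type} [Fintype V]

/-! ### The jump sum as a linear function of the adjacency -/

omit [Fintype V] in
theorem FIN_ls_hd (e : V → V → ℝ) (P : List V) (u w : V) (Q : List V) :
    ls (fun a => hd (e a) (w :: Q)) (P ++ [u]) = e u w := by
  simp [ls, hd]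

theorem FIN_ne_nil {A : Finset V} {k : ℕ} (hk : k ≠ 0) {P : List V} (hP : P ∈ NL A k) :
    P ≠ [] := by
  rintro rfl
  have := (mem_NL.1 hP).1
  simp at this
  exact hk this.symm

/-- To compare two jump sums it is enough to compare the adjacencies. -/
theorem FIN_cc_le {μ : V → V → ℝ} (h : Wt μ) {χ ψ : V → ℝ} (hχ : ∀ a, 0 ≤ χ a)
    (hψ : ∀ a, 0 ≤ ψ a) {e e' : V → V → ℝ} (he : ∀ a b, e a b ≤ e' a b) (N : ℕ) :
    CC μ χ e ψ N ≤ CC μ χ e' ψ N := by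
  unfold CC
  refine sum_le_sum fun i hi => sum_le_sum fun P hP => sum_le_sum fun Q hQ => ?_
  have hi' := mem_range.1 hi
  have hP0 := FIN_ne_nil (by omega) hP
  have hQ0 := FIN_ne_nil (by omega : N - 1 - i ≠ 0) hQ
  have h1 : ls (fun a => hd (e a) Q) P ≤ ls (fun a => hd (e' a) Q) P := by
    obtain ⟨w, Q', rfl⟩ := List.exists_cons_of_ne_nil hQ0
    obtain ⟨P', u, rfl⟩ := List.eq_nil_or_concat P |>.resolve_left hP0
    simp only [List.concat_eq_append]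
    rw [FIN_ls_hd, FIN_ls_hd]
    exact he u w
  have h2 : 0 ≤ hd χ P * pw μ P := mul_nonneg (hd_nonneg hχ P) (pw_nonneg μ h.nonneg P)
  have h3 : 0 ≤ pw μ Q := pw_nonneg μ h.nonneg Q
  have h4 : 0 ≤ ls ψ Q := ls_nonneg hψ Q
  exact mul_le_mul_of_nonneg_right (mul_le_mul_of_nonneg_right
    (mul_le_mul_of_nonneg_left h1 h2) h3) h4

theorem FIN_cc_add (μ : V → V → ℝ) (χ ψ : V → ℝ) (e e' : V → V → ℝ) (N : ℕ) :
    CC μ χ (fun a b => e a b + e' a b) ψ N = CC μ χ e ψ N + CC μ χ e' ψ N := by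
  unfold CC
  simp only [← sum_add_distrib]
  refine sum_congr rfl fun i hi => sum_congr rfl fun P hP => sum_congr rfl fun Q hQ => ?_
  have hi' := mem_range.1 hi
  have hP0 := FIN_ne_nil (by omega) hP
  have hQ0 := FIN_ne_nil (by omega : N - 1 - i ≠ 0) hQ
  obtain ⟨w, Q', rfl⟩ := List.exists_cons_of_ne_nil hQ0
  obtain ⟨P', u, rfl⟩ := List.eq_nil_or_concat P |>.resolve_left hP0
  simp only [List.concat_eq_append]
  rw [FIN_ls_hd, FIN_ls_hd, FIN_ls_hd]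
  ring

theorem FIN_cc_zero (μ : V → V → ℝ) (χ ψ : V → ℝ) (N : ℕ) :
    CC μ χ (fun _ _ => 0) ψ N = 0 := by
  have h1 := FIN_cc_add μ χ ψ (fun _ _ => 0) (fun _ _ => 0) N
  simp only [add_zero] at h1
  linarith

theorem FIN_cc_sum (μ : V → V → ℝ) (χ ψ : V → ℝ) (T : Finset V) (f : V → V → V → ℝ) (N : ℕ) :
    CC μ χ (fun a b => ∑ z ∈ T, f z a b) ψ N = ∑ z ∈ T, CC μ χ (f z) ψ N := by
  induction T using Finset.induction_on with
  | empty => simpa using FIN_cc_zero μ χ ψ N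
  | insert z T hz ih =>
    rw [sum_insert hz, ← ih, ← FIN_cc_add]
    congr 1
    funext a b
    rw [sum_insert hz]

/-! ### Hubs without mass -/

theorem FIN_dg_zero {μ : V → V → ℝ} {B : Finset V} (hB : ∀ a ∈ B, ∀ b, μ a b = 0) {a : V}
    (ha : a ∈ B) : dg μ a = 0 := by
  unfold dg
  exact sum_eq_zero fun b _ => hB a ha b

theorem FIN_start_zero {μ : V → V → ℝ} {B : Finset V} (hB : ∀ a ∈ B, ∀ b, μ a b = 0) {a : V}
    (ha : a ∈ B) (Q : List V) : pw μ (a :: Q) * ls (dg μ) (a :: Q) = 0 := by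
  cases Q with
  | nil =>
    have h1 : ls (dg μ) [a] = dg μ a := by simp [ls, hd]
    rw [h1, FIN_dg_zero hB ha, mul_zero]
  | cons b Q =>
    have h1 : pw μ (a :: b :: Q) = μ a b * pw μ (b :: Q) := rfl
    rw [h1, hB a ha b, zero_mul, zero_mul]

theorem FIN_end_zero {μ : V → V → ℝ} (h : Wt μ) {B : Finset V}
    (hB : ∀ a ∈ B, ∀ b, μ a b = 0) {a : V} (ha : a ∈ B) (P : List V) :
    hd (dg μ) (P ++ [a]) * pw μ (P ++ [a]) = 0 := by
  have h1 := FIN_start_zero hB ha P.reverse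
  have h2 : a :: P.reverse = (P ++ [a]).reverse := by simp
  rw [h2, pw_reverse μ h.symm, ls_reverse] at h1
  rw [mul_comm]
  exact h1

/-- The adjacency at the hubs without mass does not matter. -/
theorem FIN_cc_congr {μ : V → V → ℝ} (h : Wt μ) {B : Finset V}
    (hB : ∀ a ∈ B, ∀ b, μ a b = 0) {e e' : V → V → ℝ}
    (he : ∀ a b, a ∉ B → b ∉ B → e a b = e' a b) (N : ℕ) :
    CC μ (dg μ) e (dg μ) N = CC μ (dg μ) e' (dg μ) N := by
  unfold CC
  refine sum_congr rfl fun i hi => sum_congr rfl fun P hP => sum_congr rfl fun Q hQ => ?_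
  have hi' := mem_range.1 hi
  have hP0 := FIN_ne_nil (by omega) hP
  have hQ0 := FIN_ne_nil (by omega : N - 1 - i ≠ 0) hQ
  obtain ⟨w, Q', rfl⟩ := List.exists_cons_of_ne_nil hQ0
  obtain ⟨P', u, rfl⟩ := List.eq_nil_or_concat P |>.resolve_left hP0
  simp only [List.concat_eq_append]
  rw [FIN_ls_hd, FIN_ls_hd]
  by_cases hu : u ∈ B
  · rw [FIN_end_zero h hB hu P', zero_mul, zero_mul, zero_mul, zero_mul, zero_mul, zero_mul]
  · by_cases hw : w ∈ B
    · rw [mul_assoc, mul_assoc _ (pw μ (w :: Q')), FIN_start_zero hB hw Q', mul_zero, mul_zero]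
    · rw [he u w hu hw]

/-! ### Hubs of large degree -/

theorem FIN_star {μ : V → V → ℝ} (h : Wt μ) {l : ℕ} (hl : 1 ≤ l) (hm : ms μ ∅ = l)
    (h6 : ∀ v, dg μ v ≤ 6) (T : Finset V) {e0 e1 : V → V → ℝ}
    (hle : ∀ a b, e0 a b ≤ e1 a b + ∑ z ∈ T, ((if b = z then (1 : ℝ) else 0)
      + (if a = z then 1 else 0))) :
    CC μ (dg μ) e0 (dg μ) (l + 1)
      ≤ CC μ (dg μ) e1 (dg μ) (l + 1) + T.card * (6 * 10 ^ 12 * l) := by
  have hd0 : ∀ a, 0 ≤ dg μ a := fun a => sum_nonneg fun b _ => h.nonneg a b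
  refine (FIN_cc_le h hd0 hd0 hle (l + 1)).trans ?_
  rw [FIN_cc_add, FIN_cc_sum μ (dg μ) (dg μ) T
    (fun z a b => (if b = z then (1 : ℝ) else 0) + (if a = z then 1 else 0))]
  have h1 : ∀ z ∈ T, CC μ (dg μ) (fun a b => (if b = z then (1 : ℝ) else 0)
      + (if a = z then 1 else 0)) (dg μ) (l + 1) ≤ 6 * 10 ^ 12 * l := by
    intro z _
    rw [FIN_cc_add μ (dg μ) (dg μ) (fun a b => (if b = z then (1 : ℝ) else 0))
      (fun a b => (if a = z then (1 : ℝ) else 0))]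
    have h2 := star h hl hm h6 z
    have h3 := cc_rev h (dg μ) (dg μ) (e := fun a b => (if a = z then (1 : ℝ) else 0))
      (e' := fun a b => (if b = z then (1 : ℝ) else 0)) (fun a b => rfl) (l + 1)
    rw [h3]
    linarith
  have h2 := sum_le_card_nsmul T _ _ h1
  rw [nsmul_eq_mul] at h2
  linarith

theorem FIN_card {μ : V → V → ℝ} {l : ℕ} (hm : ms μ ∅ = l) (h : Wt μ) (B : Finset V)
    (hz : ∀ z ∉ B, 3 / 2 ≤ dg μ z) : (Bᶜ.card : ℝ) ≤ 4 / 3 * l := by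
  have h1 := sum_dg μ
  have h2 : ∑ z ∈ Bᶜ, (3 / 2 : ℝ) ≤ ∑ z ∈ Bᶜ, dg μ z :=
    sum_le_sum fun z hz' => hz z (mem_compl.1 hz')
  have h3 : ∑ z ∈ Bᶜ, dg μ z ≤ ∑ z, dg μ z :=
    sum_le_sum_of_subset_of_nonneg (subset_univ _) fun y _ _ => sum_nonneg fun b _ => h.nonneg y b
  rw [sum_const, nsmul_eq_mul] at h2
  rw [hm] at h1
  linarith

theorem FIN_degsum {e e0 : V → V → ℝ} (he : Sp e) (B : Finset V)
    (h0 : ∀ a b, e0 a b = if a ∈ B ∨ b ∈ B then 0 else e a b) :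
    ∑ x, ∑ y, e0 x y ≤ 6 * (Bᶜ.card : ℝ) := by
  refine le_trans (le_of_eq ?_) (he.sparse Bᶜ)
  have h1 : ∀ x, ∑ y, e0 x y = ∑ y ∈ Bᶜ, e0 x y := by
    intro x
    refine (sum_subset (subset_univ _) fun y _ hy => ?_).symm
    have hy' : y ∈ B := by simpa using hy
    rw [h0, if_pos (Or.inr hy')]
  have h2 : ∑ x, ∑ y, e0 x y = ∑ x ∈ Bᶜ, ∑ y, e0 x y := by
    refine (sum_subset (subset_univ _) fun x _ hx => ?_).symm
    have hx' : x ∈ B := by simpa using hx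
    refine sum_eq_zero fun y _ => ?_
    rw [h0, if_pos (Or.inl hx')]
  rw [h2]
  refine sum_congr rfl fun x hx => ?_
  rw [h1]
  refine sum_congr rfl fun y hy => ?_
  rw [h0, if_neg]
  rintro (h | h)
  · exact (mem_compl.1 hx) h
  · exact (mem_compl.1 hy) h

theorem FIN_T_card {e0 : V → V → ℝ} (he0 : ∀ a b, 0 ≤ e0 a b) {s : ℝ} (hs : 0 < s)
    (hsum : ∑ x, ∑ y, e0 x y ≤ 8 * (s * s)) :
    ((univ.filter fun x => s < ∑ y, e0 x y).card : ℝ) ≤ 8 * s := by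
  obtain ⟨T, hT⟩ : ∃ T, T = univ.filter fun x => s < ∑ y, e0 x y := ⟨_, rfl⟩
  rw [← hT]
  have h1 : ∑ x ∈ T, s ≤ ∑ x ∈ T, ∑ y, e0 x y := by
    refine sum_le_sum fun x hx => ?_
    rw [hT] at hx
    exact (mem_filter.1 hx).2.le
  have h2 : ∑ x ∈ T, ∑ y, e0 x y ≤ ∑ x, ∑ y, e0 x y :=
    sum_le_sum_of_subset_of_nonneg (subset_univ _) fun y _ _ => sum_nonneg fun b _ => he0 y b
  rw [sum_const, nsmul_eq_mul] at h1
  have h3 : (T.card : ℝ) * s ≤ 8 * s * s := by linarith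
  exact le_of_mul_le_mul_right h3 hs

/-- Numbers. `s` is the square root of `L`. -/
theorem FIN_num {L s M C A W : ℝ} (hs : 10 ^ 20 ≤ s) (hL : L = s * s)
    (hF : W ≤ 8 * L * Real.exp (-(1 / 10000))) (hA : A ≤ 2 * L)
    (hC : M + C ≤ 2 * (L + 1) * W + 150 * s * (12 * L) + 3 * 10 ^ 11 * s * (12 * L)
      + 8 * s * (6 * 10 ^ 12 * L)) :
    M + 2 * A + C ≤ 16 * L * (L + 1) - L ^ 2 / 1000 := by
  have hs0 : 0 < s := by linarith
  have hL0 : 0 < L := by rw [hL]; positivity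
  have hE : Real.exp (-(1 / 10000)) ≤ 10000 / 10001 := by
    have h1 := Real.add_one_le_exp (1 / 10000 : ℝ)
    have h2 : Real.exp (-(1 / 10000)) * Real.exp (1 / 10000) = 1 := by
      rw [← Real.exp_add]
      norm_num
    have h3 := Real.exp_pos (-(1 / 10000 : ℝ))
    nlinarith
  have h1 : 8 * L * Real.exp (-(1 / 10000)) ≤ 8 * L * (10000 / 10001) :=
    mul_le_mul_of_nonneg_left hE (by positivity)
  have h2 : 2 * (L + 1) * W ≤ 2 * (L + 1) * (8 * L * (10000 / 10001)) :=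
    mul_le_mul_of_nonneg_left (hF.trans h1) (by positivity)
  have h3 : s * L * 10 ^ 20 ≤ L * L := by
    have h4 : s * L * 10 ^ 20 ≤ s * L * s := mul_le_mul_of_nonneg_left hs (by positivity)
    have h5 : s * L * s = L * L := by
      rw [hL]
      ring
    linarith
  have h4 : L ≤ s * L := by nlinarith
  have h5 : 0 < s * L := by positivity
  nlinarith

/-! ### FIN (uses FAR STAR CAN MSM LFT BR) -/
theorem fin_b {μ : V → V → ℝ} (h : Wt μ) {e : V → V → ℝ} (he : Sp e) {l : ℕ}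
    (hl : 10 ^ 40 ≤ l) (hm : ms μ ∅ = l) (B : Finset V) (hB : ∀ a ∈ B, ∀ b, μ a b = 0)
    (hz : ∀ z ∉ B, 3 / 2 ≤ dg μ z ∧ dg μ z ≤ 6) (hc : l + 1 ≤ Bᶜ.card) :
    Fo μ e l ≤ 16 * l * (l + 1) - (l : ℝ) ^ 2 / 1000 := by
  have hl1 : 1 ≤ l := le_trans (by norm_num) hl
  have hl3 : 3 ≤ l := le_trans (by norm_num) hl
  have hd0 : ∀ a, 0 ≤ dg μ a := fun a => sum_nonneg fun b _ => h.nonneg a b
  have h6 : ∀ v, dg μ v ≤ 6 := by
    intro v
    by_cases hv : v ∈ B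
    · rw [FIN_dg_zero hB hv]
      norm_num
    · exact (hz v hv).2
  obtain ⟨s, hs⟩ : ∃ s, s = Real.sqrt l := ⟨_, rfl⟩
  have hs2 : (l : ℝ) = s * s := by
    rw [hs, Real.mul_self_sqrt (Nat.cast_nonneg l)]
  have hs20 : (10 : ℝ) ^ 20 ≤ s := by
    rw [hs]
    refine Real.le_sqrt_of_sq_le ?_
    have h1 : ((10 ^ 40 : ℕ) : ℝ) ≤ l := Nat.cast_le.2 hl
    have h2 : ((10 : ℝ) ^ 20) ^ 2 = ((10 ^ 40 : ℕ) : ℝ) := by norm_num
    rw [h2]
    exact h1
  have hs0 : 0 < s := lt_of_lt_of_le (by positivity) hs20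
  -- the restricted adjacency
  obtain ⟨e0, he0⟩ : ∃ e0 : V → V → ℝ, ∀ a b, e0 a b = if a ∈ B ∨ b ∈ B then 0 else e a b :=
    ⟨_, fun _ _ => rfl⟩
  have he0n : ∀ a b, 0 ≤ e0 a b := by
    intro a b
    rw [he0]
    split_ifs
    · exact le_rfl
    · exact he.nonneg a b
  have he01 : ∀ a b, e0 a b ≤ 1 := by
    intro a b
    rw [he0]
    split_ifs
    · exact zero_le_one
    · exact he.le_one a b
  have he0s : ∀ a b, e0 a b = e0 b a := by
    intro a b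
    rw [he0, he0, he.symm a b]
    simp only [or_comm]
  have hsum : ∑ x, ∑ y, e0 x y ≤ 8 * (s * s) := by
    have h1 := FIN_degsum he B he0
    have h2 := FIN_card hm h B fun z hz' => (hz z hz').1
    rw [← hs2]
    linarith
  have hTc := FIN_T_card he0n hs0 hsum
  obtain ⟨T, hT⟩ : ∃ T, T = univ.filter fun x => s < ∑ y, e0 x y := ⟨_, rfl⟩
  rw [← hT] at hTc
  obtain ⟨e1, he1⟩ : ∃ e1 : V → V → ℝ, ∀ a b, e1 a b = if a ∈ T ∨ b ∈ T then 0 else e0 a b :=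
    ⟨_, fun _ _ => rfl⟩
  have he1n : ∀ a b, 0 ≤ e1 a b := by
    intro a b
    rw [he1]
    split_ifs
    · exact le_rfl
    · exact he0n a b
  have he10 : ∀ a b, e1 a b ≤ e0 a b := by
    intro a b
    rw [he1]
    split_ifs
    · exact he0n a b
    · exact le_rfl
  have he1s : ∀ a b, e1 a b = e1 b a := by
    intro a b
    rw [he1, he1, he0s a b]
    simp only [or_comm]
  have hrow : ∀ x, ∑ y, e1 x y ≤ s := by
    intro x
    by_cases hx : x ∈ T
    · have h1 : ∑ y, e1 x y = 0 := sum_eq_zero fun y _ => by rw [he1, if_pos (Or.inl hx)]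
      rw [h1]
      exact hs0.le
    · have h1 : ∑ y, e1 x y ≤ ∑ y, e0 x y := sum_le_sum fun y _ => he10 x y
      have h2 : ∑ y, e0 x y ≤ s := by
        by_contra h3
        push Not at h3
        exact hx (by rw [hT]; exact mem_filter.2 ⟨mem_univ _, h3⟩)
      linarith
  have hcol : ∀ y, ∑ x, e1 x y ≤ s := by
    intro y
    have h1 : ∑ x, e1 x y = ∑ x, e1 y x := sum_congr rfl fun x _ => he1s x y
    rw [h1]
    exact hrow y
  have hle : ∀ a b, e0 a b ≤ e1 a b + ∑ z ∈ T, ((if b = z then (1 : ℝ) else 0)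
      + (if a = z then 1 else 0)) := by
    intro a b
    have h1 : ∑ z ∈ T, ((if b = z then (1 : ℝ) else 0) + (if a = z then 1 else 0))
        = (if b ∈ T then 1 else 0) + (if a ∈ T then 1 else 0) := by
      rw [sum_add_distrib, sum_ite_eq, sum_ite_eq]
    rw [h1, he1]
    have h2 := he01 a b
    by_cases ha : a ∈ T
    · rw [if_pos (Or.inl ha), if_pos ha]
      split_ifs <;> linarith
    · by_cases hb : b ∈ T
      · rw [if_pos (Or.inr hb), if_pos hb, if_neg ha]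
        linarith
      · rw [if_neg (not_or.2 ⟨ha, hb⟩), if_neg ha, if_neg hb]
        linarith
  -- the jump sum
  have c1 : CC μ (dg μ) e (dg μ) (l + 1) = CC μ (dg μ) e0 (dg μ) (l + 1) :=
    FIN_cc_congr h hB (fun a b ha hb => by rw [he0, if_neg (not_or.2 ⟨ha, hb⟩)]) (l + 1)
  have c2 := FIN_star h hl1 hm h6 T hle
  have c3 := cc_le_sq h (d := dg μ) he1n he1s (l + 1)
  have hχ : ∀ v, 0 ≤ dg μ v ^ 2 := fun v => sq_nonneg _
  have c4 := far_all h hl1 hm h6 hχ he1n hrow hcol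
  have c5 := ca_main h hl1 hm hχ he1n (fun a b => (he10 a b).trans (he01 a b))
    (Fintype.card V)
  have c6 := wo_le_sq h (d := dg μ) l hl1
  have c7 := main_sum h hl1 hχ (Fintype.card V)
  have c8 := left h hl3 hm B hB (fun z hz' => ⟨by linarith [(hz z hz').1], (hz z hz').2⟩) hc
  have hχs : ∑ v, dg μ v ^ 2 ≤ 12 * l := by
    have h1 : ∑ v, dg μ v ^ 2 ≤ ∑ v, 6 * dg μ v := by
      refine sum_le_sum fun v _ => ?_
      rw [sq]
      exact mul_le_mul_of_nonneg_right (h6 v) (hd0 v)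
    rw [← mul_sum, sum_dg, hm] at h1
    linarith
  have hA : Ao μ (dg μ) l ≤ 2 * l := by
    rw [ao_eq h]
    have h1 : ∀ v ∈ (univ : Finset V), dg μ v * (Pp μ)^[l] (fun _ _ => 1) ∅ v ≤ dg μ v := by
      intro v _
      have h2 := gen_exp h l (notMem_empty v)
      rw [hm, sub_self, Real.exp_zero] at h2
      have h3 := mul_le_mul_of_nonneg_left h2 (hd0 v)
      rwa [mul_one] at h3
    have h4 := sum_le_sum h1
    rw [sum_dg, hm] at h4
    exact h4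
  rw [← hs] at c5
  obtain ⟨W, hW⟩ : ∃ W, W = ∑ v, dg μ v ^ 2 *
    (Pp μ)^[l - 1] (fun A _ => Real.exp (ms μ A / 2)) ∅ v := ⟨_, rfl⟩
  rw [← hW] at c7 c8
  have c9 : 150 * s * ∑ v, dg μ v ^ 2 ≤ 150 * s * (12 * l) :=
    mul_le_mul_of_nonneg_left hχs (by positivity)
  have c10 : 3 * 10 ^ 11 * s * ∑ v, dg μ v ^ 2 ≤ 3 * 10 ^ 11 * s * (12 * l) :=
    mul_le_mul_of_nonneg_left hχs (by positivity)
  have c11 : (T.card : ℝ) * (6 * 10 ^ 12 * l) ≤ 8 * s * (6 * 10 ^ 12 * l) :=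
    mul_le_mul_of_nonneg_right hTc (by positivity)
  have c12 : 2 * ((l : ℝ) + 1) * Wo μ (dg μ) l
      ≤ 2 * (l + 1) * ∑ v, dg μ v ^ 2 * (Pp μ)^[l - 1] (fun _ _ => 1) ∅ v :=
    mul_le_mul_of_nonneg_left c6 (by positivity)
  have hfin := FIN_num (L := (l : ℝ)) (s := s) (M := 2 * (l + 1) * Wo μ (dg μ) l)
    (C := CC μ (dg μ) e (dg μ) (l + 1)) (A := Ao μ (dg μ) l) (W := W) hs20 hs2 c8 hA
    (by linarith)
  unfold Fo Fd
  exact hfin

end

end Pool.Agent.Lib.MP_009d13_co.OD
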