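import Pool.Agent.Lib.MP_009d13_co.OD.Defs

/-! KB: the distance from a ring. -/

set_option autoImplicit false

namespace Pool.Agent.Lib.MP_009d13_co.OD

open Finset Classical

noncomputable section

variable {V : Type} [Fintype V]

theorem kb_inj (l : ℕ) (h : Fin l ↪ V) {F : V → V → ℝ} (hF : ∀ a b, 0 ≤ F a b) :
    ∑ j, F (h j) (h (finRotate l j)) ≤ ∑ a, ∑ b, F a b := by
  rw [← Finset.sum_product' Finset.univ Finset.univ F]
  have e1 : ∑ j, F (h j) (h (finRotate l j))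
      = ∑ p ∈ (Finset.univ : Finset (Fin l)).image (fun j => (h j, h (finRotate l j))),
          F p.1 p.2 := by
    rw [Finset.sum_image]
    intro a _ b _ hab
    exact h.injective (congrArg Prod.fst hab)
  rw [e1]
  refine Finset.sum_le_sum_of_subset_of_nonneg ?_ fun p _ _ => hF _ _
  intro p _
  simp

theorem kb_rs_nonneg (l : ℕ) (μ : V → V → ℝ) (h : Fin l ↪ V) : 0 ≤ rs l μ h :=
  Finset.sum_nonneg fun _ _ => abs_nonneg _

theorem kb_bdd (l : ℕ) (μ : V → V → ℝ) : BddBelow (Set.range (rs (V := V) l μ)) :=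
  ⟨0, by rintro _ ⟨h, rfl⟩; exact kb_rs_nonneg l μ h⟩

theorem kb_rs_lip (l : ℕ) (μ μ' : V → V → ℝ) (h : Fin l ↪ V) :
    rs l μ h ≤ rs l μ' h + ∑ a, ∑ b, |μ a b - μ' a b| := by
  have h1 := kb_inj l h (F := fun a b => |μ a b - μ' a b|) fun _ _ => abs_nonneg _
  have h2 : rs l μ h ≤ rs l μ' h
      + ∑ j, |μ (h j) (h (finRotate l j)) - μ' (h j) (h (finRotate l j))| := by
    unfold rs
    rw [← Finset.sum_add_distrib]
    refine Finset.sum_le_sum fun j _ => ?_
    have := abs_add_le (μ' (h j) (h (finRotate l j)) - 1)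
      (μ (h j) (h (finRotate l j)) - μ' (h j) (h (finRotate l j)))
    refine le_trans (le_of_eq ?_) this
    congr 1
    ring
  linarith

theorem kb_one (l : ℕ) (μ μ' : V → V → ℝ) :
    ze l μ ≤ ze l μ' + ∑ a, ∑ b, |μ a b - μ' a b| := by
  have hD : 0 ≤ ∑ a, ∑ b, |μ a b - μ' a b| :=
    Finset.sum_nonneg fun _ _ => Finset.sum_nonneg fun _ _ => abs_nonneg _
  unfold ze
  rcases isEmpty_or_nonempty (Fin l ↪ V) with hE | hN
  · rw [Real.iInf_of_isEmpty, Real.iInf_of_isEmpty]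
    linarith
  · rw [← sub_le_iff_le_add]
    refine le_ciInf fun h => ?_
    rw [sub_le_iff_le_add]
    exact (ciInf_le (kb_bdd l μ) h).trans (kb_rs_lip l μ μ' h)

theorem ze_lip (l : ℕ) (μ μ' : V → V → ℝ) :
    |ze l μ - ze l μ'| ≤ ∑ a, ∑ b, |μ a b - μ' a b| := by
  rw [abs_le]
  have h1 := kb_one l μ μ'
  have h2 := kb_one l μ' μ
  have h3 : ∑ a, ∑ b, |μ' a b - μ a b| = ∑ a, ∑ b, |μ a b - μ' a b| :=
    Finset.sum_congr rfl fun a _ => Finset.sum_congr rfl fun b _ => abs_sub_comm _ _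
  rw [h3] at h2
  constructor <;> linarith

theorem ze_nonneg (l : ℕ) (μ : V → V → ℝ) : 0 ≤ ze l μ :=
  Real.iInf_nonneg fun h => kb_rs_nonneg l μ h

theorem ze_le {μ : V → V → ℝ} (h : Wt μ) {l : ℕ} (hm : ms μ ∅ = l) : ze l μ ≤ 3 * l := by
  have hl : (0 : ℝ) ≤ l := Nat.cast_nonneg l
  unfold ze
  rcases isEmpty_or_nonempty (Fin l ↪ V) with hE | ⟨⟨g⟩⟩
  · rw [Real.iInf_of_isEmpty]
    linarith
  · refine (ciInf_le (kb_bdd l μ) g).trans ?_
    have h1 : rs l μ g ≤ ∑ j, (μ (g j) (g (finRotate l j)) + 1) := by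
      refine Finset.sum_le_sum fun j _ => ?_
      have := h.nonneg (g j) (g (finRotate l j))
      rw [abs_le]
      constructor <;> linarith
    rw [Finset.sum_add_distrib] at h1
    have h2 := kb_inj l g h.nonneg
    have h3 : ∑ a, ∑ b, μ a b = 2 * l := by
      unfold ms at hm
      rw [Finset.compl_empty] at hm
      linarith
    have h4 : ∑ _j : Fin l, (1 : ℝ) = l := by simp
    linarith

theorem ze_attained (l : ℕ) (μ : V → V → ℝ) (hV : l ≤ Fintype.card V) :
    ∃ h : Fin l ↪ V, rs l μ h = ze l μ := by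
  have : Nonempty (Fin l ↪ V) :=
    Function.Embedding.nonempty_of_card_le (by simpa using hV)
  exact exists_eq_ciInf_of_finite

end

end Pool.Agent.Lib.MP_009d13_co.OD
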