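import Pool.Agent.Lib.MP_009d13_co.OD.KA
import Pool.Agent.Lib.MP_009d13_co.OD.KB

/-!
# KC: the maximum exists
-/

set_option autoImplicit false

namespace Pool.Agent.Lib.MP_009d13_co.OD

open Finset Classical

noncomputable section

variable {V : Type} [Fintype V]

theorem kc_ap (a b : V) : Continuous fun μ : V → V → ℝ => μ a b :=
  (continuous_apply b).comp (continuous_apply (A := fun _ : V => V → ℝ) a)

theorem kc_dg (v : V) : Continuous fun μ : V → V → ℝ => dg μ v := by
  unfold dg
  exact continuous_finsetSum _ fun b _ => kc_ap v b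

theorem kc_pw : ∀ L : List V, Continuous fun μ : V → V → ℝ => pw μ L
  | [] => continuous_const
  | [_] => continuous_const
  | a :: b :: t => by
    change Continuous fun μ : V → V → ℝ => μ a b * pw μ (b :: t)
    exact (kc_ap a b).mul (kc_pw (b :: t))

theorem kc_hd (L : List V) : Continuous fun μ : V → V → ℝ => hd (dg μ) L := by
  cases L with
  | nil => exact continuous_const
  | cons a t => exact kc_dg a

theorem kc_ls (L : List V) : Continuous fun μ : V → V → ℝ => ls (dg μ) L := kc_hd _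

theorem kc_fo (e : V → V → ℝ) (l : ℕ) : Continuous fun μ : V → V → ℝ => Fo μ e l := by
  unfold Fo Fd Wo Ao CC
  refine ((continuous_const.mul ?_).add (continuous_const.mul ?_)).add ?_
  · exact continuous_finsetSum _ fun L _ => ((kc_hd L).mul (kc_pw L)).mul (kc_ls L)
  · exact continuous_finsetSum _ fun L _ => (kc_pw L).mul (kc_ls L)
  · exact continuous_finsetSum _ fun i _ => continuous_finsetSum _ fun P _ =>
      continuous_finsetSum _ fun Q _ =>
        ((((kc_hd P).mul (kc_pw P)).mul continuous_const).mul (kc_pw Q)).mul (kc_ls Q)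

theorem kc_ze (l : ℕ) : Continuous fun μ : V → V → ℝ => ze l μ := by
  rw [continuous_iff_continuousAt]
  intro μ
  unfold ContinuousAt
  rw [tendsto_iff_norm_sub_tendsto_zero]
  have h1 : Continuous fun ν : V → V → ℝ => ∑ a, ∑ b, |ν a b - μ a b| :=
    continuous_finsetSum _ fun a _ => continuous_finsetSum _ fun b _ =>
      ((kc_ap a b).sub continuous_const).abs
  have h2 : Filter.Tendsto (fun ν : V → V → ℝ => ∑ a, ∑ b, |ν a b - μ a b|) (nhds μ)
      (nhds 0) := by
    have := h1.tendsto μ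
    simpa using this
  refine squeeze_zero (fun ν => norm_nonneg _) (fun ν => ?_) h2
  rw [Real.norm_eq_abs]
  exact ze_lip l ν μ

theorem kc_ms : Continuous fun μ : V → V → ℝ => ms μ ∅ := by
  simp only [ka_ms]
  exact (continuous_finsetSum _ fun a _ => continuous_finsetSum _ fun b _ =>
    kc_ap a b).div_const 2

theorem kc_compact (l : ℕ) : IsCompact {μ : V → V → ℝ | Wt μ ∧ ms μ ∅ = l} := by
  have hK : IsCompact (Set.pi Set.univ fun _ : V => Set.pi Set.univ fun _ : V =>
      Set.Icc (0 : ℝ) (2 * l)) :=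
    isCompact_univ_pi fun _ => isCompact_univ_pi fun _ => isCompact_Icc
  refine hK.of_isClosed_subset ?_ ?_
  · have e : {μ : V → V → ℝ | Wt μ ∧ ms μ ∅ = l}
        = (⋂ a : V, ⋂ b : V, {μ : V → V → ℝ | μ a b = μ b a}) ∩
          ((⋂ a : V, {μ : V → V → ℝ | μ a a = 0}) ∩
          ((⋂ a : V, ⋂ b : V, {μ : V → V → ℝ | 0 ≤ μ a b}) ∩
          {μ : V → V → ℝ | ms μ ∅ = l})) := by
      ext μ
      simp only [Set.mem_ofPred_eq, Set.mem_inter_iff, Set.mem_iInter]
      constructor
      · rintro ⟨h, hm⟩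
        exact ⟨h.symm, h.diag, h.nonneg, hm⟩
      · rintro ⟨h1, h2, h3, hm⟩
        exact ⟨⟨h1, h2, h3⟩, hm⟩
    have ca : ∀ a b : V, Continuous fun μ : V → V → ℝ => μ a b := kc_ap
    rw [e]
    refine IsClosed.inter ?_ (IsClosed.inter ?_ (IsClosed.inter ?_ ?_))
    · exact isClosed_iInter fun a => isClosed_iInter fun b => isClosed_eq (ca a b) (ca b a)
    · exact isClosed_iInter fun a => isClosed_eq (ca a a) continuous_const
    · exact isClosed_iInter fun a => isClosed_iInter fun b => isClosed_le continuous_const (ca a b)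
    · exact isClosed_eq kc_ms continuous_const
  · rintro μ ⟨h, hm⟩ a _ b _
    refine ⟨h.nonneg a b, ?_⟩
    rw [ka_ms] at hm
    have h1 : μ a b ≤ ∑ b, μ a b :=
      Finset.single_le_sum (f := fun b => μ a b) (fun b _ => h.nonneg a b) (Finset.mem_univ b)
    have h2 : ∑ b, μ a b ≤ ∑ a, ∑ b, μ a b :=
      Finset.single_le_sum (f := fun a => ∑ b, μ a b)
        (fun a _ => Finset.sum_nonneg fun b _ => h.nonneg a b) (Finset.mem_univ a)
    linarith

theorem exists_max (e : V → V → ℝ) (l : ℕ) (hV : 2 ≤ Fintype.card V) (lam δ : ℝ) :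
    ∃ μ : V → V → ℝ, Mx μ e l lam δ := by
  have hne : ({μ : V → V → ℝ | Wt μ ∧ ms μ ∅ = l}).Nonempty := by
    obtain ⟨x, y, hxy⟩ := Fintype.exists_pair_of_one_lt_card (α := V) (by omega)
    have h0 : Wt (fun _ _ : V => (0 : ℝ)) := ⟨fun _ _ => rfl, fun _ => rfl, fun _ _ => le_rfl⟩
    refine ⟨ad (fun _ _ => 0) x y l, wt_ad h0 hxy (Nat.cast_nonneg l), ?_⟩
    rw [ms_ad _ hxy, ka_ms]
    simp
  have hcont : Continuous fun μ : V → V → ℝ => Fo μ e l + lam * max 0 (ze l μ - δ) :=
    (kc_fo e l).add (continuous_const.mul (continuous_const.max ((kc_ze l).sub continuous_const)))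
  obtain ⟨μ, hμ, hmax⟩ := (kc_compact l).exists_isMaxOn hne hcont.continuousOn
  exact ⟨μ, hμ.1, hμ.2, fun μ' h' hm' => hmax (a := μ') ⟨h', hm'⟩⟩

end

end Pool.Agent.Lib.MP_009d13_co.OD
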