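import Pool.Agent.Lib.MP_009d13_co.OD.EI

/-! # OD, module XDG: jumps to a hub -/

set_option autoImplicit false

namespace Pool.Agent.Lib.MP_009d13_co.OD

open Finset Classical

noncomputable section

variable {V : Type} [Fintype V]

theorem XDG_so_self {μ : V → V → ℝ} (d : V → ℝ) (l : ℕ) (a : V) : So μ d l a a = 0 := by
  rw [EI_So, CC]
  refine Finset.sum_eq_zero fun i hi => Finset.sum_eq_zero fun P hP =>
    Finset.sum_eq_zero fun Q hQ => ?_
  rw [mem_range] at hi
  obtain ⟨P', x, rfl⟩ := EI_snoc (EI_ne hP (by omega))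
  obtain ⟨y, Q', rfl⟩ := EI_cons (EI_ne hQ (by omega))
  have h1 : ls (fun u => hd (EIk a a u) (y :: Q')) (P' ++ [x]) = 0 := by
    rw [ls_snoc]
    show EIk a a x y = 0
    rw [EIk, if_neg]
    rintro ⟨hx, hy⟩
    have h2 := (mem_NL.1 hQ).2.2 y (by simp)
    apply h2
    rw [hy, ← hx]
    simp
  rw [h1]
  ring

theorem XDG_en_zero {μ : V → V → ℝ} {d : V → ℝ} {l : ℕ} (hl : 2 ≤ l) {y : V}
    (hy : ∀ b, μ y b = 0) : En μ d l y = 0 := by
  obtain ⟨k, rfl⟩ : ∃ k, l = (k + 1) + 1 := ⟨l - 2, by omega⟩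
  rw [EI_en_tail]
  refine Finset.sum_eq_zero fun T hT => ?_
  obtain ⟨b, T', rfl⟩ := EI_cons (EI_ne hT (by omega))
  have h1 : pw μ (y :: b :: T') = μ y b * pw μ (b :: T') := rfl
  rw [h1, hy, zero_mul, zero_mul]

theorem XDG_so_zero {μ : V → V → ℝ} (h : Wt μ) {d : V → ℝ} {l : ℕ} {y : V}
    (hy : ∀ b, μ y b = 0) (hdy : d y = 0) (b : V) : So μ d l y b = 0 := by
  rw [EI_So, CC]
  refine Finset.sum_eq_zero fun i hi => Finset.sum_eq_zero fun P hP =>
    Finset.sum_eq_zero fun Q hQ => ?_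
  rw [mem_range] at hi
  obtain ⟨P', x, rfl⟩ := EI_snoc (EI_ne hP (by omega))
  obtain ⟨w, Q', rfl⟩ := EI_cons (EI_ne hQ (by omega))
  by_cases hx : x = y
  · subst hx
    have h1 : hd d (P' ++ [x]) * pw μ (P' ++ [x]) = 0 := by
      rcases eq_or_ne P' [] with h2 | h2
      · subst h2
        show d x * pw μ [x] = 0
        rw [hdy, zero_mul]
      · obtain ⟨P'', c, rfl⟩ := EI_snoc h2
        have h3 : P'' ++ [c] ++ [x] = P'' ++ c :: x :: [] := by simp
        rw [h3, pw_append_two, h.symm c x, hy]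
        ring
    rw [h1]
    ring
  · have h1 : ls (fun u => hd (EIk y b u) (w :: Q')) (P' ++ [x]) = 0 := by
      rw [ls_snoc]
      show EIk y b x w = 0
      rw [EIk, if_neg]
      rintro ⟨hx', -⟩
      exact hx hx'
    rw [h1]
    ring

/-- the first hub of the second path is `z` -/
theorem XDG_first {μ : V → V → ℝ} (h : Wt μ) {d : V → ℝ} (hd0 : ∀ v, 0 ≤ d v) {e : V → V → ℝ}
    (he : ∀ a b, 0 ≤ e a b) (z : V) {P : List V} (hP : P ≠ []) (k : ℕ) :
    ∑ Q ∈ NL P.toFinset (k + 1), hd d P * pw μ P *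
        ls (fun a => hd ((fun a b => if b = z then e a b else 0) a) Q) P * pw μ Q * ls d Q ≤
      ∑ T ∈ NL (insert z P.toFinset) k,
        hd d P * pw μ P * ls (fun a => e a z) P * pw μ (z :: T) * ls d (z :: T) := by
  obtain ⟨P', x, rfl⟩ := EI_snoc hP
  rw [sum_NL_succ]
  have hnn : ∀ T : List V, 0 ≤ hd d (P' ++ [x]) * pw μ (P' ++ [x]) *
      ls (fun a => e a z) (P' ++ [x]) * pw μ (z :: T) * ls d (z :: T) := by
    intro T
    have a1 : 0 ≤ hd d (P' ++ [x]) := hd_nonneg hd0 _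
    have a2 : 0 ≤ pw μ (P' ++ [x]) := pw_nonneg μ h.nonneg _
    have a3 : 0 ≤ pw μ (z :: T) := pw_nonneg μ h.nonneg _
    have a4 : 0 ≤ ls d (z :: T) := ls_nonneg hd0 _
    have a5 : 0 ≤ ls (fun a => e a z) (P' ++ [x]) := ls_nonneg (fun u => he u z) _
    positivity
  have h1 : ∀ q ∈ ((P' ++ [x]).toFinset)ᶜ, ∑ T ∈ NL (insert q (P' ++ [x]).toFinset) k,
      hd d (P' ++ [x]) * pw μ (P' ++ [x]) *
        ls (fun a => hd ((fun a b => if b = z then e a b else 0) a) (q :: T)) (P' ++ [x]) *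
          pw μ (q :: T) * ls d (q :: T) =
      if q = z then ∑ T ∈ NL (insert z (P' ++ [x]).toFinset) k,
        hd d (P' ++ [x]) * pw μ (P' ++ [x]) * ls (fun a => e a z) (P' ++ [x]) *
          pw μ (z :: T) * ls d (z :: T) else 0 := by
    intro q _
    by_cases hq : q = z
    · subst hq
      rw [if_pos rfl]
      refine Finset.sum_congr rfl fun T _ => ?_
      have h2 : ls (fun a => hd ((fun a b => if b = q then e a b else 0) a) (q :: T)) (P' ++ [x]) =
          ls (fun a => e a q) (P' ++ [x]) := by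
        rw [ls_snoc, ls_snoc]
        simp [hd]
      rw [h2]
    · rw [if_neg hq]
      refine Finset.sum_eq_zero fun T _ => ?_
      have h2 : ls (fun a => hd ((fun a b => if b = z then e a b else 0) a) (q :: T)) (P' ++ [x]) =
          0 := by
        rw [ls_snoc]
        simp [hd, hq]
      rw [h2]
      ring
  rw [Finset.sum_congr rfl h1, Finset.sum_ite_eq']
  split_ifs
  · exact le_rfl
  · exact Finset.sum_nonneg fun T _ => hnn T

theorem XDG_split {μ : V → V → ℝ} (h : Wt μ) {d : V → ℝ} (hd0 : ∀ v, 0 ≤ d v) {e : V → V → ℝ}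
    (he : ∀ a b, 0 ≤ e a b) (z : V) {l : ℕ} (hl : 2 ≤ l) :
    CC μ d (fun a b => if b = z then e a b else 0) d (l + 1) ≤
      d z * (∑ y, e y z * En μ d l y) + ∑ y, ∑ b, e y z * μ z b * So μ d l y b := by
  obtain ⟨m, rfl⟩ : ∃ m, l = m + 1 := ⟨l - 1, by omega⟩
  have hm : 1 ≤ m := by omega
  have hcc : ∑ y, ∑ b, e y z * μ z b * So μ d (m + 1) y b =
      CC μ d (fun u w => e u z * μ z w) d (m + 1) := by
    rw [EI_cc]
    rfl
  rw [hcc, CC, CC]
  have h0 : m + 1 + 1 - 1 = m + 1 := by omega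
  have h0' : m + 1 - 1 = m := by omega
  rw [h0, h0', Finset.sum_range_succ, add_comm]
  apply add_le_add
  · -- the last block
    have h1 : m + 1 - m = 0 + 1 := by omega
    rw [h1]
    have h2 : ∀ P ∈ NL (∅ : Finset V) (m + 1), ∑ Q ∈ NL P.toFinset (0 + 1), hd d P * pw μ P *
        ls (fun a => hd ((fun a b => if b = z then e a b else 0) a) Q) P * pw μ Q * ls d Q ≤
        (hd d P * pw μ P * ls (fun a => e a z) P) * d z := by
      intro P hP
      refine (XDG_first h hd0 he z (EI_ne hP (by omega)) 0).trans ?_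
      rw [sum_NL_zero]
      have h3 : pw μ [z] = 1 := rfl
      have h4 : ls d [z] = d z := rfl
      rw [h3, h4, mul_one]
    refine (Finset.sum_le_sum h2).trans ?_
    rw [← Finset.sum_mul, wo_rev h d (fun a => e a z) (m + 1),
      ← EI_en μ (fun a => e a z) d (by omega : 1 ≤ m + 1), mul_comm]
  · refine Finset.sum_le_sum fun i hi => Finset.sum_le_sum fun P hP => ?_
    rw [mem_range] at hi
    have h1 : m + 1 - i = (m - i) + 1 := by omega
    rw [h1]
    have hPne := EI_ne hP (by omega : 1 ≤ i + 1)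
    refine (XDG_first h hd0 he z hPne (m - i)).trans ?_
    have hsub : NL (insert z P.toFinset) (m - i) ⊆ NL P.toFinset (m - i) := by
      intro T hT
      rw [mem_NL] at hT ⊢
      exact ⟨hT.1, hT.2.1, fun x hx hxP => hT.2.2 x hx (Finset.mem_insert_of_mem hxP)⟩
    have h2 : ∀ T ∈ NL (insert z P.toFinset) (m - i),
        hd d P * pw μ P * ls (fun a => e a z) P * pw μ (z :: T) * ls d (z :: T) =
        hd d P * pw μ P * ls (fun u => hd ((fun u w => e u z * μ z w) u) T) P * pw μ T *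
          ls d T := by
      intro T hT
      have hTne := EI_ne hT (by omega : 1 ≤ m - i)
      obtain ⟨b, T', rfl⟩ := EI_cons hTne
      obtain ⟨P', x, rfl⟩ := EI_snoc hPne
      have h3 : pw μ (z :: b :: T') = μ z b * pw μ (b :: T') := rfl
      have h4 : ls d (z :: b :: T') = ls d (b :: T') := ls_append d [z] (by simp)
      rw [h3, h4, ls_snoc, ls_snoc]
      simp only [hd]
      ring
    rw [Finset.sum_congr rfl h2]
    refine Finset.sum_le_sum_of_subset_of_nonneg hsub fun T _ _ => ?_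
    have a1 : 0 ≤ hd d P := hd_nonneg hd0 _
    have a2 : 0 ≤ pw μ P := pw_nonneg μ h.nonneg _
    have a3 : 0 ≤ pw μ T := pw_nonneg μ h.nonneg _
    have a4 : 0 ≤ ls d T := ls_nonneg hd0 _
    have a5 : 0 ≤ ls (fun u => hd ((fun u w => e u z * μ z w) u) T) P :=
      ls_nonneg (fun u => hd_nonneg (fun w => mul_nonneg (he u z) (h.nonneg z w)) T) P
    positivity

theorem jump_deg {μ : V → V → ℝ} (h : Wt μ) {e : V → V → ℝ} (he : Sp e) {l : ℕ} (hl : 2 ≤ l)
    (z : V) {S : ℝ}
    (hS : ∀ a b, a ≠ b → So μ (dg μ) l a b + En μ (dg μ) l a + En μ (dg μ) l b ≤ S) :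
    CC μ (dg μ) (fun a b => if b = z then e a b else 0) (dg μ) (l + 1)
      ≤ (∑ y ∈ univ.filter (fun y => 0 < dg μ y), e y z) * dg μ z * S := by
  have hdg0 : ∀ v, 0 ≤ dg μ v := fun v => Finset.sum_nonneg fun b _ => h.nonneg v b
  refine (XDG_split h hdg0 he.nonneg z hl).trans ?_
  have h1 : dg μ z * (∑ y, e y z * En μ (dg μ) l y) +
      ∑ y, ∑ b, e y z * μ z b * So μ (dg μ) l y b =
      ∑ y, e y z * (dg μ z * En μ (dg μ) l y + ∑ b, μ z b * So μ (dg μ) l y b) := by
    rw [Finset.mul_sum, ← Finset.sum_add_distrib]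
    refine Finset.sum_congr rfl fun y _ => ?_
    rw [mul_add, Finset.mul_sum]
    congr 1
    · ring
    · refine Finset.sum_congr rfl fun b _ => ?_
      ring
  rw [h1, Finset.sum_mul, Finset.sum_mul, Finset.sum_filter]
  refine Finset.sum_le_sum fun y _ => ?_
  split_ifs with hy
  · -- `y` has positive degree
    have hen0 : ∀ a, 0 ≤ En μ (dg μ) l a := fun a => EI_en_nonneg h hdg0 l a
    obtain ⟨b₀, hb₀⟩ : ∃ b, 0 < μ y b := by
      by_contra hcon
      push Not at hcon
      have : dg μ y ≤ 0 := Finset.sum_nonpos fun b _ => hcon b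
      linarith
    have hb₀y : y ≠ b₀ := by
      rintro rfl
      rw [h.diag] at hb₀
      exact lt_irrefl _ hb₀
    have hEy : En μ (dg μ) l y ≤ S := by
      have h2 := hS y b₀ hb₀y
      have h3 := EI_so_nonneg h hdg0 l y b₀
      have h4 := hen0 b₀
      linarith
    have h2 : dg μ z * En μ (dg μ) l y + ∑ b, μ z b * So μ (dg μ) l y b ≤ dg μ z * S := by
      have h3 : dg μ z * En μ (dg μ) l y + ∑ b, μ z b * So μ (dg μ) l y b =
          ∑ b, μ z b * (En μ (dg μ) l y + So μ (dg μ) l y b) := by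
        conv_lhs => rw [dg]
        rw [Finset.sum_mul, ← Finset.sum_add_distrib]
        refine Finset.sum_congr rfl fun b _ => ?_
        rw [mul_add]
      have h4 : dg μ z * S = ∑ b, μ z b * S := by
        conv_lhs => rw [dg]
        rw [Finset.sum_mul]
      rw [h3, h4]
      refine Finset.sum_le_sum fun b _ => mul_le_mul_of_nonneg_left ?_ (h.nonneg z b)
      by_cases hb : y = b
      · subst hb
        rw [XDG_so_self, add_zero]
        exact hEy
      · have h5 := hS y b hb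
        have h6 := hen0 b
        linarith
    calc e y z * (dg μ z * En μ (dg μ) l y + ∑ b, μ z b * So μ (dg μ) l y b)
        ≤ e y z * (dg μ z * S) := mul_le_mul_of_nonneg_left h2 (he.nonneg y z)
      _ = e y z * dg μ z * S := by ring
  · -- `y` has degree zero
    have hdy : dg μ y = 0 := le_antisymm (not_lt.1 hy) (hdg0 y)
    have hμy : ∀ b, μ y b = 0 := by
      intro b
      have h2 : ∑ b, μ y b = 0 := hdy
      exact (Finset.sum_eq_zero_iff_of_nonneg fun b _ => h.nonneg y b).1 h2 b (mem_univ b)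
    have h2 : ∑ b, μ z b * So μ (dg μ) l y b = 0 := by
      refine Finset.sum_eq_zero fun b _ => ?_
      rw [XDG_so_zero h hμy hdy b, mul_zero]
    rw [XDG_en_zero hl hμy, h2]
    simp

end

end Pool.Agent.Lib.MP_009d13_co.OD
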