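import Pool.Agent.Lib.MP_009d13_co.OD.KDI
import Pool.Agent.Lib.MP_009d13_co.OD.XDG

/-!
# KTI: the tiny hubs of a maximiser have a huge degree
-/

set_option autoImplicit false

namespace Pool.Agent.Lib.MP_009d13_co.OD

open Finset Classical

noncomputable section

/-- the numerical part; `g` is the degree -/
theorem kti_num {L F F0 X G C g d : ℝ} (hL : 10 ^ 40 ≤ L) (hF : 16 * L ^ 2 ≤ F) (hd0 : 0 < d)
    (hd1 : d ≤ 10 ^ 13 / L) (hg : 0 ≤ g)
    (hC : C ≤ g * d * (101 / 100 * (F / (4 * L))))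
    (hX : X ≤ 7200 * L * d + 2 * C)
    (hF0 : F0 ≤ Real.exp (-d) * (F + 4 * d))
    (hG : G ≤ Real.exp ((L + 1) * (1 / d * d / L)) * (F + 4 * (1 / d * d)))
    (hU : F + (2 * (1 / d) + (1 / d) ^ 2) * (F - F0 - X) ≤ G) :
    19 / 10 * L ≤ g := by
  have hLp : 0 < L := lt_of_lt_of_le (by positivity) hL
  have hLbig : (10 : ℝ) ^ 20 ≤ L := le_trans (by norm_num) hL
  have hdd : 1 / d * d = 1 := by field_simp
  rw [hdd] at hG
  have hFp : 0 < F := by
    have : 0 < 16 * L ^ 2 := by positivity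
    linarith
  have hdL : d * L ≤ 10 ^ 13 := by
    rw [le_div_iff₀ hLp] at hd1
    exact hd1
  have hd2 : d ≤ 1 / 10 ^ 7 := by
    refine hd1.trans ?_
    rw [div_le_div_iff₀ hLp (by positivity)]
    refine le_trans (le_of_eq ?_) (le_trans hLbig (le_of_eq (one_mul _).symm))
    norm_num
  -- the exponential
  have he1 : Real.exp ((L + 1) * (1 / L)) ≤ 2719 / 1000 := by
    have h1 : (L + 1) * (1 / L) = 1 + 1 / L := by field_simp
    have h2 : 1 / L ≤ 1 / 10 ^ 20 := one_div_le_one_div_of_le (by positivity) hLbig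
    have h3 : 0 ≤ 1 / L := by positivity
    have h4 := kss_exp h3 (h2.trans (by norm_num))
    have h5 := Real.exp_one_lt_d9
    rw [h1, Real.exp_add]
    have h6 : Real.exp (1 / L) ≤ 100001 / 100000 := by
      refine h4.trans ?_
      have h7 : (1 / L) ^ 2 ≤ 1 / L := by
        have : 1 / L ≤ 1 := h2.trans (by norm_num)
        nlinarith
      have h8 : (1 : ℝ) / 10 ^ 20 ≤ 1 / 10 ^ 6 := by norm_num
      linarith
    calc Real.exp 1 * Real.exp (1 / L) ≤ 27182818286 / 10000000000 * (100001 / 100000) :=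
          mul_le_mul (by linarith) h6 (Real.exp_pos _).le (by norm_num)
      _ ≤ 2719 / 1000 := by norm_num
  have h4F : 4 * (1 : ℝ) ≤ 1 / 10 ^ 6 * F := by
    have h1 : (10 : ℝ) ^ 20 * 10 ^ 20 ≤ L * L := mul_le_mul hLbig hLbig (by positivity) hLp.le
    have h2 : (16 : ℝ) * (10 ^ 20 * 10 ^ 20) ≤ F := by nlinarith
    have h3 : (4 : ℝ) * 10 ^ 6 ≤ 16 * (10 ^ 20 * 10 ^ 20) := by norm_num
    linarith
  have hG2 : G ≤ 272 / 100 * F := by
    refine hG.trans ?_
    have h1 : F + 4 * 1 ≤ 1000001 / 1000000 * F := by linarith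
    calc Real.exp ((L + 1) * (1 / L)) * (F + 4 * 1) ≤ 2719 / 1000 * (1000001 / 1000000 * F) :=
          mul_le_mul he1 h1 (by linarith) (by norm_num)
      _ ≤ 272 / 100 * F := by linarith
  have hY : F - F0 - X ≤ 172 / 100 * d ^ 2 * F := by
    rcases le_total (F - F0 - X) 0 with h0 | h0
    · exact h0.trans (by positivity)
    · have h1 : (1 / d) ^ 2 * (F - F0 - X) ≤ (2 * (1 / d) + (1 / d) ^ 2) * (F - F0 - X) := by
        apply mul_le_mul_of_nonneg_right _ h0
        have : 0 < 1 / d := by positivity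
        linarith
      have h2 : (1 / d) ^ 2 * (F - F0 - X) ≤ 172 / 100 * F := by linarith
      have h3 : d ^ 2 * ((1 / d) ^ 2 * (F - F0 - X)) ≤ d ^ 2 * (172 / 100 * F) :=
        mul_le_mul_of_nonneg_left h2 (by positivity)
      have h4 : d ^ 2 * ((1 / d) ^ 2 * (F - F0 - X)) = F - F0 - X := by field_simp
      rw [h4] at h3
      linarith
  have hE := kdi_exp_neg hd0.le
  have hE0 : Real.exp (-d) ≤ 1 := Real.exp_le_one_iff.2 (by linarith)
  have hF02 : F0 ≤ (1 - d + d ^ 2 / 2) * F + 4 * d := by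
    have h1 : Real.exp (-d) * F ≤ (1 - d + d ^ 2 / 2) * F := mul_le_mul_of_nonneg_right hE hFp.le
    have h2 : Real.exp (-d) * (4 * d) ≤ 4 * d := by nlinarith
    linarith
  -- everything divided by `d`
  have hmain : d * (F * (1 - d / 2) - 4 - 7200 * L - 2 * (g * (101 / 100 * (F / (4 * L))))) ≤
      d * (172 / 100 * d * F) := by
    have h1 : X ≤ 7200 * L * d + 2 * (g * d * (101 / 100 * (F / (4 * L)))) := by linarith
    nlinarith
  have hdiv := le_of_mul_le_mul_left hmain hd0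
  -- multiply by `L / F`
  have hq : F / (4 * L) * (4 * L) = F := by field_simp
  obtain ⟨q, hqd⟩ : ∃ q, q = F / (4 * L) := ⟨_, rfl⟩
  rw [← hqd] at hdiv hq
  have hqp : 0 < q := by rw [hqd]; positivity
  have hq2 : 4 * L ≤ q := by
    rw [hqd, le_div_iff₀ (by positivity)]
    nlinarith
  have h1 : F * (1 - d / 2) - 172 / 100 * d * F - 4 - 7200 * L ≤ 202 / 100 * (g * q) := by
    linarith
  have h2 : F * d ≤ 1 / 1000 * F := by
    have : d ≤ 1 / 1000 := hd2.trans (by norm_num)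
    nlinarith
  have h3 : 4 + 7200 * L ≤ 1 / 1000 * F := by
    have h4 : (10 : ℝ) ^ 20 * L ≤ L ^ 2 := by nlinarith
    have h5 : (10 : ℝ) ^ 10 * L ≤ 10 ^ 20 * L := by
      apply mul_le_mul_of_nonneg_right _ hLp.le
      norm_num
    have h6 : (4 : ℝ) ≤ L := le_trans (by norm_num) hLbig
    linarith
  have h4 : 99 / 100 * F ≤ 202 / 100 * (g * q) := by linarith
  rw [← hq] at h4
  have h5 : q * (99 / 100 * (4 * L)) ≤ q * (202 / 100 * g) := by linarith
  have h6 := le_of_mul_le_mul_left h5 hqp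
  linarith

variable {V : Type} [Fintype V]

theorem mx_tiny {μ : V → V → ℝ} {e : V → V → ℝ} (he : Sp e) {l : ℕ} (hl : 10 ^ 40 ≤ l)
    {lam δ : ℝ} (hlam : 0 ≤ lam) (hlam1 : lam ≤ 1) (hM : Mx μ e l lam δ)
    (hF : 16 * (l : ℝ) ^ 2 ≤ Fo μ e l) {z : V} (hz : 0 < dg μ z) (hz1 : dg μ z ≤ 10 ^ 13 / l) :
    19 / 10 * l ≤ ∑ y ∈ univ.filter (fun y => 0 < dg μ y), e y z := by
  have hW := hM.1
  have hm := hM.2.1
  have hlR : (10 : ℝ) ^ 40 ≤ l := by exact_mod_cast hl
  have hl100 : 100 ≤ l := le_trans (by norm_num) hl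
  have hl1000 : 1000 ≤ l := le_trans (by norm_num) hl
  have h6 : ∀ v, dg μ v ≤ 6 := fun v => mx_deg6 he hl100 hlam hlam1 hM hF v
  have hs : (0 : ℝ) ≤ 1 / dg μ z := by positivity
  have hU := usage hW he (by omega : 2 ≤ l) z hs
  have hG := kd6_sc he.nonneg (by omega : 1 ≤ l) hlam hlam1 hM z
    (by positivity : (0 : ℝ) ≤ 1 + 1 / dg μ z)
  rw [add_sub_cancel_left, abs_of_nonneg hs] at hG
  push_cast at hG
  have hX := xz_le hW he (by omega : 2 ≤ l) hm h6 z
  have hC := jump_deg hW he (by omega : 2 ≤ l) z (S := 101 / 100 * (Fo μ e l / (4 * l)))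
    (fun a b hab => mx_class he hl1000 hlam hlam1 hM hF hab)
  exact kti_num hlR hF hz hz1 (sum_nonneg fun y _ => he.nonneg y z) hC hX
    (kdi_sc_zero he (by omega) hlam hlam1 hM z) hG hU

end

end Pool.Agent.Lib.MP_009d13_co.OD
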