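import Pool.Agent.Lib.MP_009d13_co.OD.KDI
import Pool.Agent.Lib.MP_009d13_co.OD.KTI

/-!
# KCN: a maximiser has no tiny hubs
-/

set_option autoImplicit false

namespace Pool.Agent.Lib.MP_009d13_co.OD

open Finset Classical

noncomputable section

variable {V : Type} [Fintype V]

theorem mx_heavy {μ : V → V → ℝ} {e : V → V → ℝ} (he : Sp e) {l : ℕ} (hl : 10 ^ 40 ≤ l)
    {lam δ : ℝ} (hlam : 0 ≤ lam) (hlam1 : lam ≤ 1) (hM : Mx μ e l lam δ)
    (hF : 16 * (l : ℝ) ^ 2 ≤ Fo μ e l) (z : V) (hz : 0 < dg μ z) : 3 / 2 ≤ dg μ z := by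
  have hW := hM.1
  have hm := hM.2.1
  have hlR : (10 : ℝ) ^ 40 ≤ l := by exact_mod_cast hl
  have hlp : (100 : ℝ) ≤ l := le_trans (by norm_num) hlR
  by_contra hcon
  set S : Finset V := univ.filter (fun y => 0 < dg μ y) with hS
  set T : Finset V := S.filter (fun y => ¬ 3 / 2 ≤ dg μ y) with hT
  set K : Finset V := S.filter (fun y => 3 / 2 ≤ dg μ y) with hK
  have hzT : z ∈ T := by
    rw [hT, hS]
    exact mem_filter.2 ⟨mem_filter.2 ⟨mem_univ _, hz⟩, hcon⟩
  have hcard : K.card + T.card = S.card := by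
    rw [hK, hT]
    exact card_filter_add_card_filter_not _
  -- heavy hubs
  have hKc : (K.card : ℝ) * (3 / 2) ≤ 2 * l := by
    have h1 : (K.card : ℝ) * (3 / 2) ≤ ∑ y ∈ K, dg μ y := by
      rw [← nsmul_eq_mul]
      exact card_nsmul_le_sum _ _ _ fun y hy => (mem_filter.1 hy).2
    have h2 : ∑ y ∈ K, dg μ y ≤ ∑ y, dg μ y :=
      sum_le_sum_of_subset_of_nonneg (subset_univ _) fun y _ _ => kd6_dg_nonneg hW y
    rw [sum_dg, hm] at h2
    linarith
  -- tiny hubs
  have hTd : ∀ y ∈ T, 19 / 10 * (l : ℝ) ≤ ∑ x ∈ S, e x y := by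
    intro y hy
    rw [hT] at hy
    obtain ⟨h1, h2⟩ := mem_filter.1 hy
    have h3 : 0 < dg μ y := (mem_filter.1 h1).2
    rcases mx_dich he hl hlam hlam1 hM hF y with h4 | h4
    · exact mx_tiny he hl hlam hlam1 hM hF h3 h4
    · exact absurd h4 h2
  have hsp := he.sparse S
  have hsum : (T.card : ℝ) * (19 / 10 * l) ≤ ∑ x ∈ S, ∑ y ∈ S, e x y := by
    rw [sum_comm]
    have h1 : (T.card : ℝ) * (19 / 10 * l) ≤ ∑ y ∈ T, ∑ x ∈ S, e x y := by
      rw [← nsmul_eq_mul]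
      exact card_nsmul_le_sum _ _ _ hTd
    refine h1.trans ?_
    refine sum_le_sum_of_subset_of_nonneg (filter_subset _ _) fun y _ _ => ?_
    exact sum_nonneg fun x _ => he.nonneg x y
  have hScard : (S.card : ℝ) = K.card + T.card := by
    rw [← hcard]
    push_cast
    ring
  have hT4 : T.card ≤ 4 := by
    by_contra h5
    have h6 : 5 ≤ T.card := by omega
    have h7 : (5 : ℝ) ≤ T.card := by exact_mod_cast h6
    rw [hScard] at hsp
    nlinarith
  have h8 : (T.card : ℝ) ≤ 4 := by exact_mod_cast hT4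
  have h9 : ∑ x ∈ S, e x z ≤ S.card := by
    have h10 : ∑ x ∈ S, e x z ≤ ∑ x ∈ S, (1 : ℝ) := sum_le_sum fun x _ => he.le_one x z
    rw [sum_const, nsmul_eq_mul, mul_one] at h10
    exact h10
  have h11 := hTd z hzT
  linarith

end

end Pool.Agent.Lib.MP_009d13_co.OD
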