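import Pool.Agent.Lib.MP_009d13_co.OD.LS4
import Pool.Agent.Lib.MP_009d13_co.OD.LS1

/-!
# KA: changes of a weight
-/

set_option autoImplicit false

namespace Pool.Agent.Lib.MP_009d13_co.OD

open Finset Classical

noncomputable section

variable {V : Type} [Fintype V]

theorem ka_sc {μ : V → V → ℝ} (h : Wt μ) (z : V) (c : ℝ) (a b : V) :
    sc μ z c a b = μ a b + (c - 1) * ((if a = z then μ a b else 0)
      + (if b = z then μ a b else 0)) := by
  unfold sc
  by_cases ha : a = z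
  · by_cases hb : b = z
    · subst ha; subst hb
      simp [h.diag]
    · rw [if_pos (Or.inl ha), if_pos ha, if_neg hb]; ring
  · by_cases hb : b = z
    · rw [if_pos (Or.inr hb), if_neg ha, if_pos hb]; ring
    · rw [if_neg (by tauto), if_neg ha, if_neg hb]; ring

theorem ka_ad (μ : V → V → ℝ) {x y : V} (hxy : x ≠ y) (η : ℝ) (a b : V) :
    ad μ x y η a b = μ a b + ((if a = x then (if b = y then η else 0) else 0)
      + (if a = y then (if b = x then η else 0) else 0)) := by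
  unfold ad
  congr 1
  by_cases ha : a = x
  · have hay : a ≠ y := by rw [ha]; exact hxy
    by_cases hb : b = y
    · rw [if_pos (Or.inl ⟨ha, hb⟩), if_pos ha, if_pos hb, if_neg hay, add_zero]
    · rw [if_neg (by tauto), if_pos ha, if_neg hb, if_neg hay, add_zero]
  · by_cases hay : a = y
    · by_cases hb : b = x
      · rw [if_pos (Or.inr ⟨hay, hb⟩), if_neg ha, if_pos hay, if_pos hb, zero_add]
      · rw [if_neg (by tauto), if_neg ha, if_pos hay, if_neg hb, add_zero]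
    · rw [if_neg (by tauto), if_neg ha, if_neg hay, add_zero]

theorem wt_sc {μ : V → V → ℝ} (h : Wt μ) (z : V) {c : ℝ} (hc : 0 ≤ c) : Wt (sc μ z c) := by
  refine ⟨fun a b => ?_, fun a => ?_, fun a b => ?_⟩
  · unfold sc
    by_cases hab : a = z ∨ b = z
    · rw [if_pos hab, if_pos hab.symm, h.symm a b]
    · rw [if_neg hab, if_neg (fun h' => hab h'.symm), h.symm a b]
  · unfold sc
    simp [h.diag]
  · unfold sc
    split_ifs
    · exact mul_nonneg hc (h.nonneg a b)
    · exact h.nonneg a b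

theorem wt_ad {μ : V → V → ℝ} (h : Wt μ) {x y : V} (hxy : x ≠ y) {η : ℝ} (hη : 0 ≤ η) :
    Wt (ad μ x y η) := by
  refine ⟨fun a b => ?_, fun a => ?_, fun a b => ?_⟩
  · unfold ad
    rw [h.symm a b]
    congr 1
    by_cases hab : (a = x ∧ b = y) ∨ (a = y ∧ b = x)
    · rw [if_pos hab, if_pos (by tauto)]
    · rw [if_neg hab, if_neg (by tauto)]
  · unfold ad
    rw [h.diag, if_neg, add_zero]
    rintro (⟨h1, h2⟩ | ⟨h1, h2⟩)
    · exact hxy (h1.symm.trans h2)
    · exact hxy (h2.symm.trans h1)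
  · unfold ad
    have := h.nonneg a b
    split_ifs <;> linarith

theorem wt_smul {μ : V → V → ℝ} (h : Wt μ) {c : ℝ} (hc : 0 ≤ c) :
    Wt (fun a b => c * μ a b) :=
  ⟨fun a b => by simp only [h.symm a b], fun a => by simp only [h.diag, mul_zero],
    fun a b => mul_nonneg hc (h.nonneg a b)⟩

theorem ka_ms (μ : V → V → ℝ) : ms μ ∅ = (∑ a, ∑ b, μ a b) / 2 := by
  unfold ms
  rw [Finset.compl_empty]

theorem ka_sum_sc {μ : V → V → ℝ} (h : Wt μ) (z : V) :
    ∑ a, ∑ b, ((if a = z then μ a b else 0) + (if b = z then μ a b else 0)) = 2 * dg μ z := by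
  have h1 : ∑ a, ∑ b, (if a = z then μ a b else 0) = dg μ z := by
    rw [Finset.sum_eq_single z]
    · simp [dg]
    · intro a _ ha
      exact Finset.sum_eq_zero fun b _ => if_neg ha
    · intro hz
      exact absurd (Finset.mem_univ z) hz
  have h2 : ∑ a, ∑ b, (if b = z then μ a b else 0) = dg μ z := by
    unfold dg
    refine Finset.sum_congr rfl fun a _ => ?_
    rw [Finset.sum_ite_eq' Finset.univ z (fun b => μ a b), if_pos (Finset.mem_univ z),
      h.symm a z]
  simp only [Finset.sum_add_distrib]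
  rw [h1, h2]; ring

theorem ka_sum_ad {x y : V} (η : ℝ) :
    ∑ a : V, ∑ b : V, ((if a = x then (if b = y then η else 0) else 0)
      + (if a = y then (if b = x then η else 0) else 0)) = 2 * η := by
  have h1 : ∀ u v : V, ∑ a : V, ∑ b : V, (if a = u then (if b = v then η else 0) else 0) = η := by
    intro u v
    rw [Finset.sum_eq_single u]
    · simp
    · intro a _ ha
      exact Finset.sum_eq_zero fun b _ => if_neg ha
    · intro hz
      exact absurd (Finset.mem_univ u) hz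
  simp only [Finset.sum_add_distrib]
  rw [h1, h1]; ring

theorem ms_sc {μ : V → V → ℝ} (h : Wt μ) (z : V) (c : ℝ) :
    ms (sc μ z c) ∅ = ms μ ∅ + (c - 1) * dg μ z := by
  rw [ka_ms, ka_ms]
  have h1 : ∑ a, ∑ b, sc μ z c a b = ∑ a, ∑ b, μ a b
      + (c - 1) * ∑ a, ∑ b, ((if a = z then μ a b else 0) + (if b = z then μ a b else 0)) := by
    rw [Finset.mul_sum, ← Finset.sum_add_distrib]
    refine Finset.sum_congr rfl fun a _ => ?_
    rw [Finset.mul_sum, ← Finset.sum_add_distrib]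
    exact Finset.sum_congr rfl fun b _ => ka_sc h z c a b
  rw [h1, ka_sum_sc h]; ring

theorem ms_ad (μ : V → V → ℝ) {x y : V} (hxy : x ≠ y) (η : ℝ) :
    ms (ad μ x y η) ∅ = ms μ ∅ + η := by
  rw [ka_ms, ka_ms]
  have h1 : ∑ a, ∑ b, ad μ x y η a b = ∑ a, ∑ b, μ a b
      + ∑ a : V, ∑ b : V, ((if a = x then (if b = y then η else 0) else 0)
      + (if a = y then (if b = x then η else 0) else 0)) := by
    rw [← Finset.sum_add_distrib]
    refine Finset.sum_congr rfl fun a _ => ?_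
    rw [← Finset.sum_add_distrib]
    exact Finset.sum_congr rfl fun b _ => ka_ad μ hxy η a b
  rw [h1, ka_sum_ad]; ring

theorem ms_smul (μ : V → V → ℝ) (c : ℝ) : ms (fun a b => c * μ a b) ∅ = c * ms μ ∅ := by
  rw [ka_ms, ka_ms]
  simp only [← Finset.mul_sum]
  ring

theorem dist_sc {μ : V → V → ℝ} (h : Wt μ) (z : V) (c : ℝ) :
    ∑ a, ∑ b, |sc μ z c a b - μ a b| = 2 * |c - 1| * dg μ z := by
  have h1 : ∑ a, ∑ b, |sc μ z c a b - μ a b|
      = |c - 1| * ∑ a, ∑ b, ((if a = z then μ a b else 0) + (if b = z then μ a b else 0)) := by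
    rw [Finset.mul_sum]
    refine Finset.sum_congr rfl fun a _ => ?_
    rw [Finset.mul_sum]
    refine Finset.sum_congr rfl fun b _ => ?_
    rw [ka_sc h z c a b, add_sub_cancel_left, abs_mul]
    congr 1
    refine abs_of_nonneg (add_nonneg ?_ ?_)
    · split_ifs
      · exact h.nonneg a b
      · exact le_rfl
    · split_ifs
      · exact h.nonneg a b
      · exact le_rfl
  rw [h1, ka_sum_sc h]; ring

theorem dist_ad (μ : V → V → ℝ) {x y : V} (hxy : x ≠ y) {η : ℝ} (hη : 0 ≤ η) :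
    ∑ a, ∑ b, |ad μ x y η a b - μ a b| = 2 * η := by
  rw [← ka_sum_ad (x := x) (y := y) η]
  refine Finset.sum_congr rfl fun a _ => Finset.sum_congr rfl fun b _ => ?_
  rw [ka_ad μ hxy η a b, add_sub_cancel_left]
  refine abs_of_nonneg (add_nonneg ?_ ?_)
  · split_ifs <;> first | exact hη | exact le_rfl
  · split_ifs <;> first | exact hη | exact le_rfl

theorem ka_dg_smul (μ : V → V → ℝ) (c : ℝ) :
    dg (fun a b => c * μ a b) = fun v => c * dg μ v := by
  funext v
  unfold dg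
  rw [Finset.mul_sum]

theorem ka_hd_smul (g : V → ℝ) (c : ℝ) {L : List V} (hL : L ≠ []) :
    hd (fun v => c * g v) L = c * hd g L := by
  cases L with
  | nil => exact absurd rfl hL
  | cons a t => rfl

theorem ka_ls_smul (g : V → ℝ) (c : ℝ) {L : List V} (hL : L ≠ []) :
    ls (fun v => c * g v) L = c * ls g L := by
  unfold ls
  exact ka_hd_smul g c (by simpa using hL)

theorem ka_ne {A : Finset V} {k : ℕ} {L : List V} (hL : L ∈ NL A k) (hk : 1 ≤ k) : L ≠ [] := by
  rintro rfl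
  have := (mem_NL.1 hL).1
  simp at this
  omega

theorem fo_smul (μ : V → V → ℝ) (e : V → V → ℝ) (l : ℕ) (hl : 1 ≤ l) (c : ℝ) :
    Fo (fun a b => c * μ a b) e l = c ^ (l + 1) * Fo μ e l := by
  have hW : Wo (fun a b => c * μ a b) (dg fun a b => c * μ a b) l
      = c ^ (l + 1) * Wo μ (dg μ) l := by
    unfold Wo
    rw [Finset.mul_sum]
    refine Finset.sum_congr rfl fun L hL => ?_
    have hne := ka_ne hL hl
    have hlen := (mem_NL.1 hL).1
    rw [ka_dg_smul, ka_hd_smul _ _ hne, ka_ls_smul _ _ hne, pw_smul, hlen]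
    have : c ^ (l + 1) = c * c ^ (l - 1) * c := by
      rw [show l + 1 = (l - 1) + 1 + 1 by omega, pow_succ, pow_succ]
      ring
    rw [this]; ring
  have hA : Ao (fun a b => c * μ a b) (dg fun a b => c * μ a b) l
      = c ^ (l + 1) * Ao μ (dg μ) l := by
    unfold Ao
    rw [Finset.mul_sum]
    refine Finset.sum_congr rfl fun L hL => ?_
    have hne := ka_ne hL (by omega)
    have hlen := (mem_NL.1 hL).1
    rw [ka_dg_smul, ka_ls_smul _ _ hne, pw_smul, hlen, Nat.add_sub_cancel, pow_succ]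
    ring
  have hC : CC (fun a b => c * μ a b) (dg fun a b => c * μ a b) e
      (dg fun a b => c * μ a b) (l + 1) = c ^ (l + 1) * CC μ (dg μ) e (dg μ) (l + 1) := by
    unfold CC
    rw [Finset.mul_sum]
    refine Finset.sum_congr rfl fun i hi => ?_
    rw [Finset.mul_sum]
    refine Finset.sum_congr rfl fun P hP => ?_
    rw [Finset.mul_sum]
    refine Finset.sum_congr rfl fun Q hQ => ?_
    have hi' : i < l := by
      have := Finset.mem_range.1 hi
      omega
    have hPne := ka_ne hP (by omega)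
    have hQne := ka_ne hQ (by omega)
    have hPl := (mem_NL.1 hP).1
    have hQl := (mem_NL.1 hQ).1
    rw [ka_dg_smul, ka_hd_smul _ _ hPne, ka_ls_smul _ _ hQne, pw_smul, pw_smul, hPl, hQl]
    have : c ^ (l + 1) = c * c ^ (i + 1 - 1) * c ^ (l + 1 - 1 - i - 1) * c := by
      rw [mul_assoc c, ← pow_add, ← pow_succ', ← pow_succ]
      congr 1
      omega
    rw [this]; ring
  unfold Fo Fd
  rw [hW, hA, hC]; ring

theorem ka_dg_nonneg {μ : V → V → ℝ} (h : Wt μ) (v : V) : 0 ≤ dg μ v :=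
  Finset.sum_nonneg fun b _ => h.nonneg v b

theorem ka_wo_nonneg {μ : V → V → ℝ} (h : ∀ a b, 0 ≤ μ a b) {d : V → ℝ} (hd0 : ∀ v, 0 ≤ d v)
    (l : ℕ) : 0 ≤ Wo μ d l :=
  Finset.sum_nonneg fun L _ => mul_nonneg (mul_nonneg (hd_nonneg hd0 L)
    (pw_nonneg μ h L)) (ls_nonneg hd0 L)

theorem ka_ao_nonneg {μ : V → V → ℝ} (h : ∀ a b, 0 ≤ μ a b) {d : V → ℝ} (hd0 : ∀ v, 0 ≤ d v)
    (l : ℕ) : 0 ≤ Ao μ d l :=
  Finset.sum_nonneg fun L _ => mul_nonneg (pw_nonneg μ h L) (ls_nonneg hd0 L)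

theorem ka_cc_nonneg {μ : V → V → ℝ} (h : ∀ a b, 0 ≤ μ a b) {χ ψ : V → ℝ}
    (hχ : ∀ v, 0 ≤ χ v) (hψ : ∀ v, 0 ≤ ψ v) {e : V → V → ℝ} (he : ∀ a b, 0 ≤ e a b)
    (N : ℕ) : 0 ≤ CC μ χ e ψ N :=
  Finset.sum_nonneg fun i _ => Finset.sum_nonneg fun P _ => Finset.sum_nonneg fun Q _ =>
    mul_nonneg (mul_nonneg (mul_nonneg (mul_nonneg (hd_nonneg hχ P) (pw_nonneg μ h P))
      (ls_nonneg (fun a => hd_nonneg (he a) Q) P)) (pw_nonneg μ h Q)) (ls_nonneg hψ Q)

theorem fo_nonneg {μ : V → V → ℝ} (h : Wt μ) {e : V → V → ℝ} (he : ∀ a b, 0 ≤ e a b) (l : ℕ) :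
    0 ≤ Fo μ e l := by
  unfold Fo Fd
  have h1 := ka_wo_nonneg h.nonneg (ka_dg_nonneg h) l
  have h2 := ka_ao_nonneg h.nonneg (ka_dg_nonneg h) l
  have h3 := ka_cc_nonneg h.nonneg (ka_dg_nonneg h) (ka_dg_nonneg h) he (l + 1)
  have h4 : (0 : ℝ) ≤ 2 * (l + 1) := by positivity
  have := mul_nonneg h4 h1
  linarith

theorem fo_of_ms_zero {μ : V → V → ℝ} (h : Wt μ) (e : V → V → ℝ) {l : ℕ} (hl : 1 ≤ l)
    (hm : ms μ ∅ = 0) : Fo μ e l = 0 := by
  have h0 : ∑ a, ∑ b, μ a b = 0 := by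
    rw [ka_ms] at hm
    linarith
  have h1 : ∀ a b, μ a b = 0 := by
    intro a b
    have h2 := (Finset.sum_eq_zero_iff_of_nonneg
      (fun a _ => Finset.sum_nonneg fun b _ => h.nonneg a b)).1 h0 a (Finset.mem_univ a)
    exact (Finset.sum_eq_zero_iff_of_nonneg (fun b _ => h.nonneg a b)).1 h2 b (Finset.mem_univ b)
  have h3 : μ = fun a b => 0 * μ a b := by
    funext a b
    rw [h1, mul_zero]
  rw [h3, fo_smul μ e l hl 0]
  simp

end

end Pool.Agent.Lib.MP_009d13_co.OD
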