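import Pool.Agent.Lib.MP_009d13_co.OD.KA

/-!
# KH: a hub is used by at most four factors
-/

set_option autoImplicit false

namespace Pool.Agent.Lib.MP_009d13_co.OD

open Finset Classical

noncomputable section

variable {V : Type} [Fintype V]

theorem kh_pw_not_mem (μ : V → V → ℝ) (z : V) (c : ℝ) :
    ∀ L : List V, z ∉ L → pw (sc μ z c) L = pw μ L
  | [], _ => rfl
  | [_], _ => rfl
  | a :: b :: t, h => by
    have ha : a ≠ z := fun h' => h (by rw [h']; exact List.mem_cons_self)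
    have hb : b ≠ z := fun h' => h (by
      rw [h']; exact List.mem_cons_of_mem _ List.mem_cons_self)
    have ih := kh_pw_not_mem μ z c (b :: t) (fun h' => h (List.mem_cons_of_mem _ h'))
    change sc μ z c a b * pw (sc μ z c) (b :: t) = μ a b * pw μ (b :: t)
    rw [ih]
    unfold sc
    rw [if_neg (by tauto)]

theorem kh_pw_cons {μ : V → V → ℝ} (h : Wt μ) (z : V) {Q : List V} (hQ : z ∉ Q) :
    1 / 2 * pw μ (z :: Q) ≤ pw (sc μ z (1 / 2)) (z :: Q) := by
  cases Q with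
  | nil => change 1 / 2 * (1 : ℝ) ≤ 1; norm_num
  | cons b t =>
    change 1 / 2 * (μ z b * pw μ (b :: t)) ≤ sc μ z (1 / 2) z b * pw (sc μ z (1 / 2)) (b :: t)
    rw [kh_pw_not_mem μ z _ _ hQ]
    unfold sc
    rw [if_pos (Or.inl rfl)]
    apply le_of_eq
    ring

theorem kh_pw {μ : V → V → ℝ} (h : Wt μ) (z : V) {L : List V} (hL : L.Nodup) :
    1 / 4 * pw μ L ≤ pw (sc μ z (1 / 2)) L := by
  have h' : Wt (sc μ z (1 / 2)) := wt_sc h z (by norm_num)
  by_cases hz : z ∈ L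
  · obtain ⟨P, Q, rfl⟩ := List.append_of_mem hz
    have hP : z ∉ P := by
      intro hP
      have := (List.nodup_append.1 hL).2.2 z hP z List.mem_cons_self
      exact this rfl
    have hQ : z ∉ Q := (List.nodup_cons.1 (List.nodup_append.1 hL).2.1).1
    rw [pw_append μ, pw_append (sc μ z (1 / 2))]
    have e1 : ∀ ν : V → V → ℝ, Wt ν → pw ν (P ++ [z]) = pw ν (z :: P.reverse) := by
      intro ν hν
      rw [← pw_reverse ν hν.symm (P ++ [z]), List.reverse_append]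
      rfl
    rw [e1 μ h, e1 _ h']
    have i1 := kh_pw_cons h z (Q := P.reverse) (by simpa using hP)
    have i2 := kh_pw_cons h z hQ
    have n1 := pw_nonneg μ h.nonneg (z :: P.reverse)
    have n2 := pw_nonneg μ h.nonneg (z :: Q)
    calc 1 / 4 * (pw μ (z :: P.reverse) * pw μ (z :: Q))
        = (1 / 2 * pw μ (z :: P.reverse)) * (1 / 2 * pw μ (z :: Q)) := by ring
      _ ≤ _ := mul_le_mul i1 i2 (by positivity) (pw_nonneg _ h'.nonneg _)
  · rw [kh_pw_not_mem μ z _ _ hz]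
    have n1 := pw_nonneg μ h.nonneg L
    linarith

theorem kh_dg {μ : V → V → ℝ} (h : Wt μ) (z a : V) :
    1 / 2 * dg μ a ≤ dg (sc μ z (1 / 2)) a := by
  unfold dg
  rw [Finset.mul_sum]
  refine Finset.sum_le_sum fun b _ => ?_
  have := h.nonneg a b
  unfold sc
  split_ifs <;> linarith

theorem kh_hd {g g' : V → ℝ} (hg : ∀ a, 1 / 2 * g a ≤ g' a) (L : List V) :
    1 / 2 * hd g L ≤ hd g' L := by
  cases L with
  | nil => change 1 / 2 * (1 : ℝ) ≤ 1; norm_num
  | cons a t => exact hg a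

theorem kh_ls {g g' : V → ℝ} (hg : ∀ a, 1 / 2 * g a ≤ g' a) (L : List V) :
    1 / 2 * ls g L ≤ ls g' L := kh_hd hg _

theorem kh_three {A B C A' B' C' : ℝ} (hA : 0 ≤ A) (hB : 0 ≤ B) (hC : 0 ≤ C)
    (h1 : 1 / 2 * A ≤ A') (h2 : 1 / 4 * B ≤ B') (h3 : 1 / 2 * C ≤ C') :
    A * B * C / 16 ≤ A' * B' * C' := by
  have hA' : 0 ≤ A' := le_trans (by positivity) h1
  have hB' : 0 ≤ B' := le_trans (by positivity) h2
  calc A * B * C / 16 = (1 / 2 * A) * (1 / 4 * B) * (1 / 2 * C) := by ring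
    _ ≤ A' * B' * C' := mul_le_mul (mul_le_mul h1 h2 (by positivity) hA') h3 (by positivity)
        (mul_nonneg hA' hB')

theorem usage_half {μ : V → V → ℝ} (h : Wt μ) {e : V → V → ℝ} (he : ∀ a b, 0 ≤ e a b) {l : ℕ}
    (hl : 2 ≤ l) (z : V) : Fo μ e l / 16 ≤ Fo (sc μ z (1 / 2)) e l := by
  have h' : Wt (sc μ z (1 / 2)) := wt_sc h z (by norm_num)
  have hd0 := ka_dg_nonneg h
  have hg := kh_dg h z
  have hW : Wo μ (dg μ) l / 16 ≤ Wo (sc μ z (1 / 2)) (dg (sc μ z (1 / 2))) l := by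
    unfold Wo
    rw [Finset.sum_div]
    refine Finset.sum_le_sum fun L hL => ?_
    exact kh_three (hd_nonneg hd0 L) (pw_nonneg μ h.nonneg L) (ls_nonneg hd0 L)
      (kh_hd hg L) (kh_pw h z (mem_NL.1 hL).2.1) (kh_ls hg L)
  have hA : Ao μ (dg μ) l / 16 ≤ Ao (sc μ z (1 / 2)) (dg (sc μ z (1 / 2))) l := by
    unfold Ao
    rw [Finset.sum_div]
    refine Finset.sum_le_sum fun L hL => ?_
    have := kh_three (A := 1) (A' := 1) (by norm_num) (pw_nonneg μ h.nonneg L)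
      (ls_nonneg hd0 L) (by norm_num) (kh_pw h z (mem_NL.1 hL).2.1) (kh_ls hg L)
    rw [one_mul, one_mul] at this
    exact this
  have hC : CC μ (dg μ) e (dg μ) (l + 1) / 16
      ≤ CC (sc μ z (1 / 2)) (dg (sc μ z (1 / 2))) e (dg (sc μ z (1 / 2))) (l + 1) := by
    unfold CC
    rw [Finset.sum_div]
    refine Finset.sum_le_sum fun i _ => ?_
    rw [Finset.sum_div]
    refine Finset.sum_le_sum fun P hP => ?_
    rw [Finset.sum_div]
    refine Finset.sum_le_sum fun Q hQ => ?_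
    have hE : 0 ≤ ls (fun a => hd (e a) Q) P := ls_nonneg (fun a => hd_nonneg (he a) Q) P
    have nP := pw_nonneg μ h.nonneg P
    have nQ := pw_nonneg μ h.nonneg Q
    have hPQ : 1 / 4 * (pw μ P * pw μ Q)
        ≤ pw (sc μ z (1 / 2)) P * pw (sc μ z (1 / 2)) Q := by
      by_cases hz : z ∈ P
      · have hzQ : z ∉ Q := fun hzQ => (mem_NL.1 hQ).2.2 z hzQ (List.mem_toFinset.2 hz)
        rw [kh_pw_not_mem μ z _ _ hzQ, ← mul_assoc]
        exact mul_le_mul_of_nonneg_right (kh_pw h z (mem_NL.1 hP).2.1) nQ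
      · rw [kh_pw_not_mem μ z _ _ hz]
        calc 1 / 4 * (pw μ P * pw μ Q) = pw μ P * (1 / 4 * pw μ Q) := by ring
          _ ≤ _ := mul_le_mul_of_nonneg_left (kh_pw h z (mem_NL.1 hQ).2.1) nP
    have h3 := kh_three (hd_nonneg hd0 P) (mul_nonneg nP nQ) (ls_nonneg hd0 Q)
      (kh_hd hg P) hPQ (kh_ls hg Q)
    have h4 := mul_le_mul_of_nonneg_right h3 hE
    calc hd (dg μ) P * pw μ P * ls (fun a => hd (e a) Q) P * pw μ Q * ls (dg μ) Q / 16
        = hd (dg μ) P * (pw μ P * pw μ Q) * ls (dg μ) Q / 16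
          * ls (fun a => hd (e a) Q) P := by ring
      _ ≤ _ := h4
      _ = _ := by ring
  unfold Fo Fd
  have h4 : (0 : ℝ) ≤ 2 * (l + 1) := by positivity
  have := mul_le_mul_of_nonneg_left hW h4
  linarith

end

end Pool.Agent.Lib.MP_009d13_co.OD
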