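import Pool.Agent.Lib.MP_009d13_co.OD.KA
import Pool.Agent.Lib.MP_009d13_co.OD.KB

/-!
# KS: the scaling inequality for a maximiser
-/

set_option autoImplicit false

namespace Pool.Agent.Lib.MP_009d13_co.OD

open Finset Classical

noncomputable section

variable {V : Type} [Fintype V]

theorem mx_sup {μ : V → V → ℝ} {e : V → V → ℝ} (he : ∀ a b, 0 ≤ e a b) {l : ℕ} (hl : 1 ≤ l)
    {lam δ : ℝ} (hlam : 0 ≤ lam) (hM : Mx μ e l lam δ) {μ' : V → V → ℝ} (h' : Wt μ') :
    Fo μ' e l ≤ (ms μ' ∅ / l) ^ (l + 1)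
      * (Fo μ e l + 2 * lam * ∑ a, ∑ b, |μ' a b - μ a b|) := by
  have hms : 0 ≤ ms μ' ∅ := by
    rw [ka_ms]
    have : 0 ≤ ∑ a, ∑ b, μ' a b :=
      Finset.sum_nonneg fun a _ => Finset.sum_nonneg fun b _ => h'.nonneg a b
    linarith
  have hD0 : 0 ≤ ∑ a, ∑ b, |μ' a b - μ a b| :=
    Finset.sum_nonneg fun a _ => Finset.sum_nonneg fun b _ => abs_nonneg _
  have hl0 : (0 : ℝ) < l := by exact_mod_cast hl
  rcases hms.eq_or_lt with h0 | hpos
  · rw [fo_of_ms_zero h' e hl h0.symm, ← h0]
    simp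
  · set m := ms μ' ∅ with hm
    set c := (l : ℝ) / m with hc
    have hc0 : 0 ≤ c := by positivity
    have hcm : c * m = l := by rw [hc]; field_simp
    have hw : Wt (fun a b => c * μ' a b) := wt_smul h' hc0
    have hmc : ms (fun a b => c * μ' a b) ∅ = l := by
      rw [ms_smul, ← hm, hcm]
    have hmax := hM.2.2 (fun a b => c * μ' a b) hw hmc
    have hsum : ∑ a, ∑ b, μ' a b = 2 * m := by
      rw [hm, ka_ms]; ring
    have hsum' : ∑ a, ∑ b, μ a b = 2 * l := by
      have := hM.2.1
      rw [ka_ms] at this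
      linarith
    -- distance
    have h1 : ∑ a, ∑ b, |c * μ' a b - μ' a b| = 2 * |(l : ℝ) - m| := by
      have : ∑ a, ∑ b, |c * μ' a b - μ' a b| = |c - 1| * ∑ a, ∑ b, μ' a b := by
        rw [Finset.mul_sum]
        refine Finset.sum_congr rfl fun a _ => ?_
        rw [Finset.mul_sum]
        refine Finset.sum_congr rfl fun b _ => ?_
        rw [show c * μ' a b - μ' a b = (c - 1) * μ' a b by ring, abs_mul,
          abs_of_nonneg (h'.nonneg a b)]
      rw [this, hsum]
      have h2 : |c - 1| * (2 * m) = 2 * (|c - 1| * |m|) := by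
        rw [abs_of_pos hpos]; ring
      rw [h2, ← abs_mul]
      congr 2
      rw [sub_mul, one_mul, hcm]
    have h2 : 2 * |(l : ℝ) - m| ≤ ∑ a, ∑ b, |μ' a b - μ a b| := by
      have h3 : |∑ a, ∑ b, (μ' a b - μ a b)| ≤ ∑ a, ∑ b, |μ' a b - μ a b| :=
        (Finset.abs_sum_le_sum_abs _ _).trans
          (Finset.sum_le_sum fun a _ => Finset.abs_sum_le_sum_abs _ _)
      have h4 : ∑ a, ∑ b, (μ' a b - μ a b) = -(2 * ((l : ℝ) - m)) := by
        simp only [Finset.sum_sub_distrib]
        rw [hsum, hsum']; ring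
      rw [h4, abs_neg, abs_mul, abs_of_pos (by norm_num : (0 : ℝ) < 2)] at h3
      exact h3
    have h3 : ∑ a, ∑ b, |μ a b - c * μ' a b| ≤ 2 * ∑ a, ∑ b, |μ' a b - μ a b| := by
      have h4 : ∑ a, ∑ b, |μ a b - c * μ' a b|
          ≤ ∑ a, ∑ b, (|c * μ' a b - μ' a b| + |μ' a b - μ a b|) := by
        refine Finset.sum_le_sum fun a _ => Finset.sum_le_sum fun b _ => ?_
        have := abs_add_le (c * μ' a b - μ' a b) (μ' a b - μ a b)
        rw [show c * μ' a b - μ' a b + (μ' a b - μ a b) = c * μ' a b - μ a b by ring,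
          abs_sub_comm] at this
        exact this
      simp only [Finset.sum_add_distrib] at h4
      rw [h1] at h4
      linarith
    have h5 : max 0 (ze l μ - δ) - max 0 (ze l (fun a b => c * μ' a b) - δ)
        ≤ 2 * ∑ a, ∑ b, |μ' a b - μ a b| := by
      have h6 := ze_lip l μ (fun a b => c * μ' a b)
      have h7 : max 0 (ze l μ - δ) - max 0 (ze l (fun a b => c * μ' a b) - δ)
          ≤ |ze l μ - ze l (fun a b => c * μ' a b)| := by
        have h8 := le_abs_self (ze l μ - ze l (fun a b => c * μ' a b))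
        have h9 := abs_nonneg (ze l μ - ze l (fun a b => c * μ' a b))
        have h10 : max 0 (ze l μ - δ) ≤ |ze l μ - ze l (fun a b => c * μ' a b)|
            + max 0 (ze l (fun a b => c * μ' a b) - δ) := by
          refine max_le (by
            have := le_max_left 0 (ze l (fun a b => c * μ' a b) - δ)
            linarith) ?_
          have := le_max_right 0 (ze l (fun a b => c * μ' a b) - δ)
          linarith
        linarith
      exact h7.trans (h6.trans h3)
    have h6 : Fo (fun a b => c * μ' a b) e l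
        ≤ Fo μ e l + 2 * lam * ∑ a, ∑ b, |μ' a b - μ a b| := by
      have := mul_le_mul_of_nonneg_left h5 hlam
      rw [mul_sub] at this
      linarith
    rw [fo_smul μ' e l hl c] at h6
    have h7 : (m / l) ^ (l + 1) * (c ^ (l + 1) * Fo μ' e l) = Fo μ' e l := by
      rw [← mul_assoc, ← mul_pow, hc]
      rw [show m / (l : ℝ) * ((l : ℝ) / m) = 1 by field_simp, one_pow, one_mul]
    rw [← h7]
    exact mul_le_mul_of_nonneg_left h6 (by positivity)

end

end Pool.Agent.Lib.MP_009d13_co.OD
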