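import Pool.Agent.Lib.MP_009d13_co.OD.OPA
import Pool.Agent.Lib.MP_009d13_co.OD.KA
import Pool.Agent.Lib.MP_009d13_co.OD.KS
import Pool.Agent.Lib.MP_009d13_co.OD.KH

/-!
# KD6: the degrees of a maximiser are at most six
-/

set_option autoImplicit false

namespace Pool.Agent.Lib.MP_009d13_co.OD

open Finset Classical

noncomputable section

variable {V : Type} [Fintype V]

theorem kd6_dg_nonneg {μ : V → V → ℝ} (h : Wt μ) (z : V) : 0 ≤ dg μ z :=
  sum_nonneg fun b _ => h.nonneg z b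

theorem kd6_dg_le {μ : V → V → ℝ} (h : Wt μ) {l : ℕ} (hm : ms μ ∅ = l) (z : V) : dg μ z ≤ l := by
  rw [← hm, dg_eq]
  exact un_le_ms h (notMem_empty z)

/-- `(1 + x) ^ n ≤ exp (n x)` -/
theorem kd6_pow {x : ℝ} (hx : 0 ≤ 1 + x) (n : ℕ) : (1 + x) ^ n ≤ Real.exp (n * x) := by
  rw [Real.exp_nat_mul]
  apply pow_le_pow_left₀ hx
  have := Real.add_one_le_exp x
  linarith

/-- scaling a hub of a maximiser by `c` -/
theorem kd6_sc {μ : V → V → ℝ} {e : V → V → ℝ} (he : ∀ a b, 0 ≤ e a b) {l : ℕ} (hl : 1 ≤ l)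
    {lam δ : ℝ} (hlam : 0 ≤ lam) (hlam1 : lam ≤ 1) (hM : Mx μ e l lam δ) (z : V) {c : ℝ}
    (hc : 0 ≤ c) :
    Fo (sc μ z c) e l ≤ Real.exp ((l + 1 : ℕ) * ((c - 1) * dg μ z / l)) *
      (Fo μ e l + 4 * (|c - 1| * dg μ z)) := by
  have hW := hM.1
  have hm := hM.2.1
  have hl0 : (0 : ℝ) < l := by exact_mod_cast hl
  have hd0 := kd6_dg_nonneg hW z
  have hdl := kd6_dg_le hW hm z
  have h1 := mx_sup he hl hlam hM (wt_sc hW z hc)
  rw [ms_sc hW, dist_sc hW, hm] at h1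
  have h2 : ((l : ℝ) + (c - 1) * dg μ z) / l = 1 + (c - 1) * dg μ z / l := by
    field_simp
  rw [h2] at h1
  have hF := fo_nonneg hW he l
  have h3 : 0 ≤ 1 + (c - 1) * dg μ z / l := by
    rw [← h2]
    apply div_nonneg _ hl0.le
    nlinarith
  have h4 := kd6_pow h3 (l + 1)
  have h5 : 0 ≤ |c - 1| * dg μ z := mul_nonneg (abs_nonneg _) hd0
  have h6 : Fo μ e l + 2 * lam * (2 * |c - 1| * dg μ z) ≤ Fo μ e l + 4 * (|c - 1| * dg μ z) := by
    nlinarith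
  refine h1.trans (mul_le_mul h4 h6 ?_ (Real.exp_pos _).le)
  have h7 : 0 ≤ lam * (|c - 1| * dg μ z) := mul_nonneg hlam h5
  linarith

theorem mx_deg6 {μ : V → V → ℝ} {e : V → V → ℝ} (he : Sp e) {l : ℕ} (hl : 100 ≤ l)
    {lam δ : ℝ} (hlam : 0 ≤ lam) (hlam1 : lam ≤ 1) (hM : Mx μ e l lam δ)
    (hF : 16 * (l : ℝ) ^ 2 ≤ Fo μ e l) (z : V) : dg μ z ≤ 6 := by
  have hW := hM.1
  have hm := hM.2.1
  have hl0 : (100 : ℝ) ≤ l := by exact_mod_cast hl
  have hd0 := kd6_dg_nonneg hW z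
  have hdl := kd6_dg_le hW hm z
  have h1 := usage_half hW he.nonneg (by omega : 2 ≤ l) z
  have h2 := kd6_sc he.nonneg (by omega : 1 ≤ l) hlam hlam1 hM z (by norm_num : (0 : ℝ) ≤ 1 / 2)
  by_contra hcon
  push Not at hcon
  have h3 : Real.exp ((l + 1 : ℕ) * ((1 / 2 - 1) * dg μ z / l)) ≤ Real.exp (-3) := by
    apply Real.exp_le_exp.2
    have h4 : ((l + 1 : ℕ) : ℝ) * ((1 / 2 - 1) * dg μ z / l) =
        -(dg μ z / 2) * (((l : ℝ) + 1) / l) := by
      push_cast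
      field_simp
      ring
    rw [h4]
    have h5 : (1 : ℝ) ≤ ((l : ℝ) + 1) / l := by
      rw [le_div_iff₀ (by linarith)]
      linarith
    nlinarith
  have h6 : Real.exp (-3) ≤ 1 / 18 := by
    rw [Real.exp_neg, one_div]
    apply inv_anti₀ (by norm_num)
    have h7 : Real.exp 3 = Real.exp 1 ^ 3 := by
      rw [← Real.exp_nat_mul]
      norm_num
    rw [h7]
    have h8 := Real.exp_one_gt_d9
    have h9 : (27 / 10 : ℝ) ^ 3 ≤ Real.exp 1 ^ 3 :=
      pow_le_pow_left₀ (by norm_num) (by linarith) 3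
    refine le_trans ?_ h9
    norm_num
  have h10 : |(1 / 2 : ℝ) - 1| = 1 / 2 := by
    rw [abs_of_neg] <;> norm_num
  rw [h10] at h2
  have h11 : Fo μ e l + 4 * (1 / 2 * dg μ z) ≤ 101 / 100 * Fo μ e l := by
    have h12 : (l : ℝ) * 100 ≤ l ^ 2 := by nlinarith
    nlinarith
  have hF0 : 0 < Fo μ e l := by
    have : 0 < 16 * (l : ℝ) ^ 2 := by positivity
    linarith
  have h13 : Fo μ e l / 16 ≤ 1 / 18 * (101 / 100 * Fo μ e l) := by
    refine h1.trans (h2.trans ?_)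
    apply mul_le_mul (h3.trans h6) h11 _ (by norm_num)
    linarith
  linarith

end

end Pool.Agent.Lib.MP_009d13_co.OD
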