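import Pool.Agent.Lib.MP_009d13_co.OD.KB

/-!
# KF: a maximiser with a big value has a big functional
-/

set_option autoImplicit false

namespace Pool.Agent.Lib.MP_009d13_co.OD

open Finset Classical

noncomputable section

variable {V : Type} [Fintype V]

theorem mx_big {μ : V → V → ℝ} {e : V → V → ℝ} {l : ℕ} (hl : 1 ≤ l) {lam δ : ℝ}
    (hlam : 0 ≤ lam) (hlam1 : lam ≤ 1) (hδ : 0 ≤ δ) (hM : Mx μ e l lam δ)
    (hbig : 16 * l * (l + 1) < Fo μ e l + lam * max 0 (ze l μ - δ)) :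
    16 * (l : ℝ) ^ 2 ≤ Fo μ e l := by
  have h1 : ze l μ ≤ 3 * l := ze_le hM.1 hM.2.1
  have hl0 : (0 : ℝ) ≤ l := Nat.cast_nonneg l
  have h2 : max 0 (ze l μ - δ) ≤ 3 * (l : ℝ) := by
    refine max_le (by positivity) ?_
    linarith
  have h3 : lam * max 0 (ze l μ - δ) ≤ 1 * (3 * (l : ℝ)) :=
    mul_le_mul hlam1 h2 (le_max_left _ _) (by norm_num)
  nlinarith

end

end Pool.Agent.Lib.MP_009d13_co.OD
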