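import Pool.Agent.Lib.MP_009d13_co.OD.LS3
import Pool.Agent.Lib.MP_009d13_co.OD.LS4
import Pool.Agent.Lib.MP_009d13_co.OD.OPA
import Pool.Agent.Lib.MP_009d13_co.OD.KB

/-!
# OD, module RC: hubs without mass are irrelevant
-/

set_option autoImplicit false

namespace Pool.Agent.Lib.MP_009d13_co.OD

open Finset Classical

noncomputable section

variable {V : Type} [Fintype V]

theorem rc_dg_pos {μ : V → V → ℝ} (h : Wt μ) {a b : V} (hab : μ a b ≠ 0) : 0 < dg μ a := by
  have h1 : 0 < μ a b := lt_of_le_of_ne (h.nonneg a b) (Ne.symm hab)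
  have h2 : μ a b ≤ dg μ a :=
    Finset.single_le_sum (f := fun c => μ a c) (fun c _ => h.nonneg a c) (Finset.mem_univ b)
  linarith

theorem rc_pos {μ : V → V → ℝ} (h : Wt μ) {L : List V} (hp : pw μ L ≠ 0)
    (he : ls (dg μ) L ≠ 0) : ∀ x ∈ L, 0 < dg μ x := by
  induction L with
  | nil => intro x hx; simp at hx
  | cons a T ih =>
    cases T with
    | nil =>
      intro x hx
      have h1 : x = a := by simpa using hx
      have h2 : ls (dg μ) [a] = dg μ a := rfl
      rw [h2] at he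
      rw [h1]
      refine lt_of_le_of_ne ?_ (Ne.symm he)
      rw [dg_eq]
      exact un_nonneg h ∅ a
    | cons b t =>
      have h1 : μ a b * pw μ (b :: t) ≠ 0 := hp
      have h2 : ls (dg μ) (a :: b :: t) = ls (dg μ) (b :: t) :=
        ls_append (dg μ) [a] (List.cons_ne_nil b t)
      rw [h2] at he
      intro x hx
      rcases List.mem_cons.1 hx with rfl | hx
      · exact rc_dg_pos h (left_ne_zero_of_mul h1)
      · exact ih (right_ne_zero_of_mul h1) he x hx

theorem rc_sum_map {l : ℕ} (σ : Fin l ↪ V) {A : Finset (Fin l)} {B : Finset V}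
    (hAB : ∀ a, a ∉ B ↔ ∃ i, i ∉ A ∧ σ i = a) (k : ℕ) (f : List V → ℝ) :
    ∑ L ∈ NL B k, f L = ∑ L ∈ NL A k, f (L.map σ) := by
  symm
  refine Finset.sum_bij (fun L _ => L.map σ) ?_ ?_ ?_ (fun _ _ => rfl)
  · intro L hL
    obtain ⟨h1, h2, h3⟩ := mem_NL.1 hL
    refine mem_NL.2 ⟨by rw [List.length_map]; exact h1, h2.map σ.injective, ?_⟩
    intro x hx
    obtain ⟨i, hi, rfl⟩ := List.mem_map.1 hx
    exact (hAB _).2 ⟨i, h3 i hi, rfl⟩
  · intro L _ L' _ hLL
    exact List.map_injective_iff.2 σ.injective hLL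
  · intro L hL
    obtain ⟨h1, h2, h3⟩ := mem_NL.1 hL
    have h4 : L ∈ Set.range (List.map σ) := by
      rw [Set.range_list_map]
      intro x hx
      obtain ⟨i, -, hi⟩ := (hAB x).1 (h3 x hx)
      exact ⟨i, hi⟩
    obtain ⟨T, rfl⟩ := h4
    refine ⟨T, mem_NL.2 ⟨by rwa [List.length_map] at h1, List.Nodup.of_map _ h2, ?_⟩, rfl⟩
    intro i hi
    obtain ⟨j, hj, hji⟩ := (hAB (σ i)).1 (h3 (σ i) (List.mem_map.2 ⟨i, hi, rfl⟩))
    rw [← σ.injective hji]
    exact hj

theorem rc_pw_map {l : ℕ} (σ : Fin l ↪ V) (μ : V → V → ℝ) (L : List (Fin l)) :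
    pw μ (L.map σ) = pw (fun i j => μ (σ i) (σ j)) L := by
  induction L with
  | nil => rfl
  | cons a T ih =>
    cases T with
    | nil => rfl
    | cons b t =>
      show μ (σ a) (σ b) * pw μ ((b :: t).map σ) = μ (σ a) (σ b) * pw _ (b :: t)
      rw [ih]

theorem rc_hd_map {l : ℕ} (σ : Fin l ↪ V) (g : V → ℝ) (L : List (Fin l)) :
    hd g (L.map σ) = hd (fun i => g (σ i)) L := by
  cases L <;> rfl

theorem rc_ls_map {l : ℕ} (σ : Fin l ↪ V) (g : V → ℝ) (L : List (Fin l)) :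
    ls g (L.map σ) = ls (fun i => g (σ i)) L := by
  unfold ls
  rw [← List.map_reverse, rc_hd_map]

theorem rc_sum_range {l : ℕ} (σ : Fin l ↪ V) (F : V → ℝ) (hF : ∀ a, (∀ i, σ i ≠ a) → F a = 0) :
    ∑ a, F a = ∑ i, F (σ i) := by
  rw [← Finset.sum_map Finset.univ σ F]
  symm
  refine Finset.sum_subset (Finset.subset_univ _) fun a _ ha => hF a fun i hi => ha ?_
  rw [Finset.mem_map]
  exact ⟨i, Finset.mem_univ i, hi⟩

theorem rc_zero {μ : V → V → ℝ} (h : Wt μ) {a : V} (ha : dg μ a = 0) (b : V) : μ b a = 0 := by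
  by_contra hne
  have h1 : μ a b ≠ 0 := by rwa [h.symm]
  have := rc_dg_pos h h1
  linarith

theorem rc_dg {l : ℕ} {μ : V → V → ℝ} (h : Wt μ) (σ : Fin l ↪ V)
    (hσ : ∀ a, (∀ i, σ i ≠ a) → dg μ a = 0) (i : Fin l) :
    dg μ (σ i) = dg (fun i j => μ (σ i) (σ j)) i :=
  rc_sum_range σ (fun b => μ (σ i) b) fun a ha => rc_zero h (hσ a ha) _

theorem wo_transport {l : ℕ} (hl : 1 ≤ l) {μ : V → V → ℝ} (h : Wt μ) (σ : Fin l ↪ V)
    (hσ : ∀ a, (∀ i, σ i ≠ a) → dg μ a = 0) :
    Wo μ (dg μ) l = Wo (fun i j => μ (σ i) (σ j)) (dg fun i j => μ (σ i) (σ j)) l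
      ∧ ms (fun i j => μ (σ i) (σ j)) ∅ = ms μ ∅
      ∧ ze l μ ≤ ze l (fun i j => μ (σ i) (σ j)) := by
  refine ⟨?_, ?_, ?_⟩
  · unfold Wo
    have h1 := sum_NL_vanish (∅ : Finset V) (Finset.univ.filter fun a => ∀ i, σ i ≠ a) l
      (fun L => hd (dg μ) L * pw μ L * ls (dg μ) L) (by
        rintro L ⟨x, hx, hxB⟩
        by_contra hne
        have h2 := rc_pos h (right_ne_zero_of_mul (left_ne_zero_of_mul hne))
          (right_ne_zero_of_mul hne) x hx
        rw [hσ x (Finset.mem_filter.1 hxB).2] at h2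
        exact lt_irrefl _ h2)
    rw [h1, rc_sum_map σ (A := ∅)]
    · refine Finset.sum_congr rfl fun L _ => ?_
      rw [rc_hd_map, rc_ls_map, rc_pw_map]
      have h2 : (fun i => dg μ (σ i)) = dg fun i j => μ (σ i) (σ j) :=
        funext fun i => rc_dg h σ hσ i
      rw [h2]
    · intro a
      simp
  · have h1 := sum_dg μ
    have h2 := sum_dg fun i j => μ (σ i) (σ j)
    rw [rc_sum_range σ (dg μ) hσ] at h1
    have h3 : ∑ i, dg μ (σ i) = ∑ i, dg (fun i j => μ (σ i) (σ j)) i :=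
      Finset.sum_congr rfl fun i _ => rc_dg h σ hσ i
    linarith
  · unfold ze
    have : Nonempty (Fin l ↪ Fin l) := ⟨Function.Embedding.refl _⟩
    refine le_ciInf fun g => ?_
    exact ciInf_le (kb_bdd l μ) (g.trans σ)

theorem ao_cc_zero {l : ℕ} (hl : 1 ≤ l) {μ : V → V → ℝ} (h : Wt μ) (e : V → V → ℝ)
    (hc : (univ.filter fun v => 0 < dg μ v).card ≤ l) :
    Ao μ (dg μ) l = 0 ∧ CC μ (dg μ) e (dg μ) (l + 1) = 0 := by
  have key : ∀ L : List V, L.Nodup → L.length = l + 1 → ¬ ∀ x ∈ L, 0 < dg μ x := by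
    intro L h1 h2 h3
    have h4 : L.toFinset ⊆ Finset.univ.filter fun v => 0 < dg μ v := by
      intro x hx
      exact Finset.mem_filter.2 ⟨Finset.mem_univ x, h3 x (List.mem_toFinset.1 hx)⟩
    have h5 := Finset.card_le_card h4
    rw [List.toFinset_card_of_nodup h1, h2] at h5
    omega
  constructor
  · unfold Ao
    refine Finset.sum_eq_zero fun L hL => ?_
    obtain ⟨h1, h2, -⟩ := mem_NL.1 hL
    by_contra hne
    exact key L h2 h1 (rc_pos h (left_ne_zero_of_mul hne) (right_ne_zero_of_mul hne))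
  · unfold CC
    refine Finset.sum_eq_zero fun i hi => Finset.sum_eq_zero fun P hP =>
      Finset.sum_eq_zero fun Q hQ => ?_
    have hi' := Finset.mem_range.1 hi
    obtain ⟨p1, p2, -⟩ := mem_NL.1 hP
    obtain ⟨q1, q2, q3⟩ := mem_NL.1 hQ
    by_contra hne
    have hQ1 := right_ne_zero_of_mul hne
    have hne2 := left_ne_zero_of_mul hne
    have hQ2 := right_ne_zero_of_mul hne2
    have hne3 := left_ne_zero_of_mul (left_ne_zero_of_mul hne2)
    have hP1 := left_ne_zero_of_mul hne3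
    have hP2 := right_ne_zero_of_mul hne3
    have hQpos := rc_pos h hQ2 hQ1
    have hPpos : ∀ x ∈ P, 0 < dg μ x := by
      intro x hx
      refine rc_pos h (L := P.reverse) ?_ ?_ x (List.mem_reverse.2 hx)
      · rwa [pw_reverse μ h.symm]
      · rwa [ls_reverse]
    refine key (P ++ Q) ?_ ?_ ?_
    · rw [List.nodup_append]
      refine ⟨p2, q2, fun a ha b hb hab => ?_⟩
      exact q3 b hb (List.mem_toFinset.2 (by rw [← hab]; exact ha))
    · rw [List.length_append, p1, q1]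
      omega
    · intro x hx
      rcases List.mem_append.1 hx with h6 | h6
      · exact hPpos x h6
      · exact hQpos x h6

end

end Pool.Agent.Lib.MP_009d13_co.OD
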