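import Pool.Agent.Lib.MP_009d13_co.OD.RB
import Pool.Agent.Lib.MP_009d13_co.OD.RC

/-!
# OD, module RD: at most `l` hubs
-/

set_option autoImplicit false

namespace Pool.Agent.Lib.MP_009d13_co.OD

open Finset Classical

noncomputable section

theorem few_hubs {l : ℕ} (hl : 3 ≤ l) {δ : ℝ} (hδ : 0 < δ) : ∃ lam : ℝ, 0 < lam ∧ lam ≤ 1 ∧
    ∀ (V : Type) [Fintype V] (μ e : V → V → ℝ), Wt μ → ms μ ∅ = l →
      (univ.filter fun v => 0 < dg μ v).card ≤ l →
      Fo μ e l + lam * max 0 (ze l μ - δ) ≤ 16 * l * (l + 1) := by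
  obtain ⟨γ, hγ, hgap⟩ := ring_gap hl hδ
  refine ⟨min 1 (γ / 2), lt_min one_pos (by linarith), min_le_left _ _, ?_⟩
  intro V _ μ e h hm hc
  have hlR : (3 : ℝ) ≤ l := by exact_mod_cast hl
  have hlam0 : 0 ≤ min 1 (γ / 2) := le_min zero_le_one (by linarith)
  have hlam1 : min 1 (γ / 2) ≤ 1 := min_le_left _ _
  have hlam2 : min 1 (γ / 2) ≤ γ / 2 := min_le_right _ _
  have hze := ze_le h hm
  have hmax : max 0 (ze l μ - δ) ≤ 3 * l := max_le (by linarith) (by linarith)
  have hmax0 : 0 ≤ max 0 (ze l μ - δ) := le_max_left _ _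
  obtain ⟨hA, hC⟩ := ao_cc_zero (by omega) h e hc
  have hFo : Fo μ e l = 2 * (l + 1) * Wo μ (dg μ) l := by
    unfold Fo Fd
    rw [hA, hC]
    ring
  rw [hFo]
  by_cases hV : Fintype.card V < l
  · have hW : Wo μ (dg μ) l = 0 := by
      unfold Wo
      rw [NL_eq_empty ∅ l (by rw [Finset.compl_empty, Finset.card_univ]; exact hV),
        Finset.sum_empty]
    rw [hW]
    nlinarith
  · push Not at hV
    obtain ⟨S, hS1, hS2⟩ : ∃ S : Finset V, (univ.filter fun v => 0 < dg μ v) ⊆ S ∧ S.card = l := by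
      obtain ⟨S, h1, h2⟩ := Finset.exists_superset_card_eq hc hV
      exact ⟨S, h1, h2⟩
    let σ : Fin l ↪ V :=
      (S.equivFinOfCardEq hS2).symm.toEmbedding.trans (Function.Embedding.subtype _)
    have hσ : ∀ a, (∀ i, σ i ≠ a) → dg μ a = 0 := by
      intro a ha
      by_contra hne
      have h1 : 0 < dg μ a := by
        refine lt_of_le_of_ne ?_ (Ne.symm hne)
        rw [dg_eq]
        exact un_nonneg h ∅ a
      have h2 : a ∈ S := hS1 (Finset.mem_filter.2 ⟨Finset.mem_univ a, h1⟩)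
      refine ha (S.equivFinOfCardEq hS2 ⟨a, h2⟩) ?_
      show ((S.equivFinOfCardEq hS2).symm (S.equivFinOfCardEq hS2 ⟨a, h2⟩) : V) = a
      rw [Equiv.symm_apply_apply]
    obtain ⟨t1, t2, t3⟩ := wo_transport (by omega) h σ hσ
    have hWt' : Wt fun i j => μ (σ i) (σ j) :=
      ⟨fun i j => h.symm _ _, fun i => h.diag _, fun i j => h.nonneg _ _⟩
    rw [hm] at t2
    by_cases hz : δ ≤ ze l fun i j => μ (σ i) (σ j)
    · have h1 := hgap _ hWt' t2 hz
      rw [t1]
      have h2 : min 1 (γ / 2) * max 0 (ze l μ - δ) ≤ γ / 2 * (3 * l) :=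
        mul_le_mul hlam2 hmax hmax0 (by linarith)
      have h3 : 2 * ((l : ℝ) + 1) * Wo (fun i j => μ (σ i) (σ j))
          (dg fun i j => μ (σ i) (σ j)) l ≤ 2 * (l + 1) * (8 * l - γ) :=
        mul_le_mul_of_nonneg_left h1 (by linarith)
      nlinarith
    · push Not at hz
      have h1 : max 0 (ze l μ - δ) = 0 := max_eq_left (by linarith)
      rw [h1, mul_zero, add_zero]
      have h2 := ra_le h (by omega : 2 ≤ l) hm
      nlinarith

end

end Pool.Agent.Lib.MP_009d13_co.OD
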