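import Pool.Agent.Lib.MP_009d13_co.OD.Defs
import Pool.Agent.Lib.MP_009d13_co.OD.KC
import Pool.Agent.Lib.MP_009d13_co.OD.KF
import Pool.Agent.Lib.MP_009d13_co.OD.KCN
import Pool.Agent.Lib.MP_009d13_co.OD.KD6
import Pool.Agent.Lib.MP_009d13_co.OD.FIN
import Pool.Agent.Lib.MP_009d13_co.OD.RD

/-!
# OD.BST: the limit inequality

lam from few_hubs(δ). If card V <= 1: ms = 0 ≠ l. Otherwise let μ be a maximiser (exists_max e l
lam δ). If its value is <= 16 l(l+1) we are done (Mx). Otherwise mx_big: F >= 16 l^2; mx_deg6,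
mx_heavy: all hubs have dg = 0 or in [3/2, 6]. B = {v | dg v = 0} (then μ a b = 0 for a ∈ B). If
|Bᶜ| <= l: few_hubs contradicts. If |Bᶜ| >= l+1: fin_b: F <= 16 l(l+1) - l^2/1000, penalty
<= 3l (ze_le, lam <= 1) < l^2/1000: contradiction.
-/

set_option autoImplicit false

namespace Pool.Agent.Lib.MP_009d13_co.OD

open Finset Classical

noncomputable section

variable {V : Type} [Fintype V]

theorem bst_dg_zero {μ : V → V → ℝ} (h : Wt μ) {a : V} (ha : dg μ a = 0) (b : V) : μ a b = 0 :=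
  (Finset.sum_eq_zero_iff_of_nonneg fun b _ => h.nonneg a b).1 ha b (mem_univ b)

theorem bst_dg_nonneg {μ : V → V → ℝ} (h : Wt μ) (a : V) : 0 ≤ dg μ a :=
  Finset.sum_nonneg fun b _ => h.nonneg a b

theorem bstar {l : ℕ} (hl : 10 ^ 40 ≤ l) {δ : ℝ} (hδ : 0 < δ) : ∃ lam : ℝ, 0 < lam ∧ lam ≤ 1 ∧
    ∀ (V : Type) [Fintype V] (μ e : V → V → ℝ), Wt μ → Sp e → ms μ ∅ = l →
      Fo μ e l + lam * max 0 (ze l μ - δ) ≤ 16 * l * (l + 1) := by
  have h3 : 3 ≤ l := le_trans (by norm_num) hl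
  have h100 : 100 ≤ l := le_trans (by norm_num) hl
  have hlR : (10 : ℝ) ^ 40 ≤ l := by exact_mod_cast hl
  have hl1 : 1 ≤ l := le_trans (by norm_num) hl
  obtain ⟨lam, hlam, hlam1, hfew⟩ := few_hubs h3 hδ
  refine ⟨lam, hlam, hlam1, ?_⟩
  intro V _ μ e hW he hm
  rcases Nat.lt_or_ge (Fintype.card V) 2 with hV | hV
  · exfalso
    have hsub : Subsingleton V := Fintype.card_le_one_iff_subsingleton.1 (by omega)
    have h0 : ms μ ∅ = 0 := by
      unfold ms
      rw [div_eq_zero_iff]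
      left
      refine Finset.sum_eq_zero fun a _ => Finset.sum_eq_zero fun b _ => ?_
      rw [Subsingleton.elim b a]
      exact hW.diag a
    rw [hm] at h0
    linarith
  obtain ⟨μ0, hM⟩ := exists_max e l hV lam δ
  refine (hM.2.2 μ hW hm).trans ?_
  by_contra hcon
  push Not at hcon
  obtain ⟨hW0, hm0, _⟩ := id hM
  have hF := mx_big hl1 hlam.le hlam1 hδ.le hM hcon
  have h6 := mx_deg6 he h100 hlam.le hlam1 hM hF
  have h32 := mx_heavy he hl hlam.le hlam1 hM hF
  set B : Finset V := univ.filter fun v => dg μ0 v = 0 with hB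
  have hBc : (univ.filter fun v => 0 < dg μ0 v) = Bᶜ := by
    ext v
    rw [mem_filter, mem_compl, hB, mem_filter]
    constructor
    · rintro ⟨_, h1⟩ ⟨_, h2⟩
      exact h1.ne' h2
    · intro h1
      refine ⟨mem_univ v, lt_of_le_of_ne (bst_dg_nonneg hW0 v) fun h2 => h1 ⟨mem_univ v, h2.symm⟩⟩
  rcases Nat.lt_or_ge l Bᶜ.card with hc | hc
  · have h1 := fin_b hW0 he hl hm0 B
      (fun a ha b => bst_dg_zero hW0 (mem_filter.1 ha).2 b)
      (fun z hz => by
        have h1 : z ∈ univ.filter fun v => 0 < dg μ0 v := by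
          rw [hBc]
          exact mem_compl.2 hz
        exact ⟨h32 z (mem_filter.1 h1).2, h6 z⟩) hc
    have h2 := ze_le hW0 hm0
    have h4 : max 0 (ze l μ0 - δ) ≤ 3 * l := by
      refine max_le (by positivity) ?_
      linarith
    have h5 : lam * max 0 (ze l μ0 - δ) ≤ 3 * l := by
      have h6 : lam * max 0 (ze l μ0 - δ) ≤ 1 * max 0 (ze l μ0 - δ) :=
        mul_le_mul_of_nonneg_right hlam1 (le_max_left _ _)
      linarith
    nlinarith
  · rw [← hBc] at hc
    have h1 := hfew V μ0 e hW0 hm0 hc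
    linarith

end

end Pool.Agent.Lib.MP_009d13_co.OD
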