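import Pool.Agent.Lib.MP_009d13_co.OD.Defs2
import Pool.Agent.Lib.MP_009d13_co.P5.CONL

/-! CFG: the classes of a graph. -/

set_option autoImplicit false

namespace Pool.Agent.Lib.MP_009d13_co.OD

open Finset Classical
open Pool.Agent.Lib.MP_009d13_co.P5 (nb kk)

noncomputable section

variable {V : Type} [Fintype V] (G : SimpleGraph V) (H : Finset V)

theorem cfg_kk_sub (z : V) : kk G H z ⊆ H := Finset.inter_subset_right

theorem cfg_one (z : V) : ∑ a ∈ H, (if kk G H z = {a} then 1 else 0) =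
    if (kk G H z).card = 1 then 1 else 0 := by
  by_cases h : (kk G H z).card = 1
  · rw [if_pos h]
    obtain ⟨x, hx⟩ := Finset.card_eq_one.mp h
    have hxH : x ∈ H := cfg_kk_sub G H z (by rw [hx]; exact Finset.mem_singleton_self x)
    rw [Finset.sum_eq_single x]
    · rw [if_pos hx]
    · intro a _ ha
      rw [if_neg]
      intro h2
      rw [hx] at h2
      exact ha (Finset.singleton_injective h2).symm
    · intro h2
      exact absurd hxH h2
  · rw [if_neg h]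
    refine Finset.sum_eq_zero fun a _ => if_neg ?_
    intro h2
    exact h (by rw [h2, Finset.card_singleton])

theorem cfg_two_at {a z : V} (_haH : a ∈ H) :
    ∑ b ∈ H.erase a, (if kk G H z = {a, b} then 1 else 0) =
      if a ∈ kk G H z ∧ (kk G H z).card = 2 then 1 else 0 := by
  by_cases h : a ∈ kk G H z ∧ (kk G H z).card = 2
  · rw [if_pos h]
    have h1 : ((kk G H z).erase a).card = 1 := by
      rw [Finset.card_erase_of_mem h.1, h.2]
    obtain ⟨x, hx⟩ := Finset.card_eq_one.mp h1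
    have hx' : x ∈ (kk G H z).erase a := by rw [hx]; exact Finset.mem_singleton_self x
    rw [Finset.mem_erase] at hx'
    have hkk : kk G H z = {a, x} := by
      rw [← Finset.insert_erase h.1, hx]
    rw [Finset.sum_eq_single x]
    · rw [if_pos hkk]
    · intro b hb hbx
      rw [if_neg]
      intro h2
      have h3 : x ∈ ({a, b} : Finset V) := by rw [← h2]; exact hx'.2
      rw [Finset.mem_insert, Finset.mem_singleton] at h3
      rcases h3 with h3 | h3
      · exact hx'.1 h3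
      · exact hbx h3.symm
    · intro h2
      exact absurd (Finset.mem_erase.mpr ⟨hx'.1, cfg_kk_sub G H z hx'.2⟩) h2
  · rw [if_neg h]
    refine Finset.sum_eq_zero fun b hb => if_neg ?_
    intro h2
    apply h
    have hba : b ≠ a := (Finset.mem_erase.mp hb).1
    refine ⟨by rw [h2]; exact Finset.mem_insert_self a _, ?_⟩
    rw [h2, Finset.card_pair (Ne.symm hba)]

theorem cfg_two (z : V) : ∑ a ∈ H, ∑ b ∈ H.erase a, (if kk G H z = {a, b} then 1 else 0) =
    if (kk G H z).card = 2 then 2 else 0 := by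
  rw [Finset.sum_congr rfl fun a ha => cfg_two_at G H (z := z) ha]
  by_cases h : (kk G H z).card = 2
  · rw [if_pos h]
    have h1 : ∀ a ∈ H, (if a ∈ kk G H z ∧ (kk G H z).card = 2 then 1 else 0) =
        if a ∈ kk G H z then 1 else 0 := by
      intro a _
      by_cases ha : a ∈ kk G H z
      · rw [if_pos ⟨ha, h⟩, if_pos ha]
      · rw [if_neg (fun h2 => ha h2.1), if_neg ha]
    rw [Finset.sum_congr rfl h1, P5.CONS.sum_ind, h]
  · rw [if_neg h]
    exact Finset.sum_eq_zero fun a _ => if_neg fun h2 => h h2.2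

theorem cfg_n1 : ∑ a ∈ H, P5.n1 G H a =
    ∑ z ∈ Hᶜ, if (kk G H z).card = 1 then 1 else 0 := by
  rw [← Finset.sum_congr rfl fun z _ => cfg_one G H z, Finset.sum_comm]
  exact Finset.sum_congr rfl fun a _ => by rw [P5.n1, Finset.card_filter]

theorem cfg_n2 : ∑ a ∈ H, ∑ b ∈ H.erase a, P5.n2 G H a b =
    ∑ z ∈ Hᶜ, if (kk G H z).card = 2 then 2 else 0 := by
  rw [← Finset.sum_congr rfl fun z _ => cfg_two G H z, Finset.sum_comm]
  refine Finset.sum_congr rfl fun a _ => ?_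
  rw [Finset.sum_comm]
  exact Finset.sum_congr rfl fun b _ => by rw [P5.n2, Finset.card_filter]

theorem cfg_n0 : P5.n0 G H = ∑ z ∈ Hᶜ, if (kk G H z).card = 0 then 1 else 0 := by
  rw [P5.n0, Finset.card_filter]
  refine Finset.sum_congr rfl fun z _ => ?_
  simp only [Finset.card_eq_zero]

theorem cfg_le : ∑ a ∈ H, ∑ b ∈ H.erase a, P5.n2 G H a b + 2 * (∑ a ∈ H, P5.n1 G H a) +
    2 * P5.n0 G H ≤ 2 * (Hᶜ : Finset V).card := by
  rw [cfg_n1, cfg_n2, cfg_n0, Finset.mul_sum, Finset.mul_sum, ← Finset.sum_add_distrib,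
    ← Finset.sum_add_distrib]
  have h1 : 2 * (Hᶜ : Finset V).card = ∑ z ∈ (Hᶜ : Finset V), 2 := by
    rw [Finset.sum_const, smul_eq_mul, mul_comm]
  rw [h1]
  refine Finset.sum_le_sum fun z _ => ?_
  split_ifs <;> omega

theorem cfg_ge (hK : P5.NoK33m G) : 2 * (Hᶜ : Finset V).card ≤
    ∑ a ∈ H, ∑ b ∈ H.erase a, P5.n2 G H a b + 2 * (∑ a ∈ H, P5.n1 G H a) +
    2 * P5.n0 G H + 2 * (2 * H.card ^ 3) := by
  have h2 := P5.card_exc G hK H
  rw [Finset.card_filter] at h2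
  have h3 : 2 * (Hᶜ : Finset V).card ≤
      ∑ a ∈ H, ∑ b ∈ H.erase a, P5.n2 G H a b + 2 * (∑ a ∈ H, P5.n1 G H a) +
      2 * P5.n0 G H + 2 * ∑ z ∈ Hᶜ, if 3 ≤ (kk G H z).card then 1 else 0 := by
    rw [cfg_n1, cfg_n2, cfg_n0, Finset.mul_sum, Finset.mul_sum, Finset.mul_sum,
      ← Finset.sum_add_distrib, ← Finset.sum_add_distrib, ← Finset.sum_add_distrib]
    have h1 : 2 * (Hᶜ : Finset V).card = ∑ z ∈ (Hᶜ : Finset V), 2 := by
      rw [Finset.sum_const, smul_eq_mul, mul_comm]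
    rw [h1]
    refine Finset.sum_le_sum fun z _ => ?_
    split_ifs <;> omega
  omega

theorem cfg_mm (hK : P5.NoK33m G) {a b : V} (ha : a ∈ H) (hb : b ∈ H) (hab : a ≠ b) :
    P5.mm G H a b ≤ P5.n2 G H a b + 2 * H.card ^ 3 := by
  have h2 := P5.card_exc G hK H
  rw [P5.CONS.mm_eq G H ha hb, P5.n2, Finset.card_filter]
  refine le_trans ?_ (Nat.add_le_add_left h2 _)
  rw [Finset.card_filter, ← Finset.sum_add_distrib]
  refine Finset.sum_le_sum fun z _ => ?_
  by_cases h : a ∈ kk G H z ∧ b ∈ kk G H z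
  · rw [if_pos h]
    by_cases h3 : 3 ≤ (kk G H z).card
    · rw [if_pos h3]; omega
    · rw [if_neg h3]
      have h4 : ({a, b} : Finset V) ⊆ kk G H z := by
        intro x hx
        rw [Finset.mem_insert, Finset.mem_singleton] at hx
        rcases hx with rfl | rfl
        · exact h.1
        · exact h.2
      have h5 : kk G H z = {a, b} :=
        (Finset.eq_of_subset_of_card_le h4 (by rw [Finset.card_pair hab]; omega)).symm
      rw [if_pos h5]
  · rw [if_neg h]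
    exact Nat.zero_le _

theorem cfg_dd (hK : P5.NoK33m G) {a : V} (ha : a ∈ H) :
    P5.dd G H a ≤ ∑ b ∈ H.erase a, P5.n2 G H a b + P5.n1 G H a + 2 * H.card ^ 3 := by
  have h2 := P5.card_exc G hK H
  have e1 : ∑ b ∈ H.erase a, P5.n2 G H a b =
      ∑ z ∈ Hᶜ, if a ∈ kk G H z ∧ (kk G H z).card = 2 then 1 else 0 := by
    rw [← Finset.sum_congr rfl fun z _ => cfg_two_at G H (z := z) ha, Finset.sum_comm]
    exact Finset.sum_congr rfl fun b _ => by rw [P5.n2, Finset.card_filter]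
  rw [P5.CONS.dd_eq G H ha, e1, P5.n1, Finset.card_filter]
  refine le_trans ?_ (Nat.add_le_add_left h2 _)
  rw [Finset.card_filter, ← Finset.sum_add_distrib, ← Finset.sum_add_distrib]
  refine Finset.sum_le_sum fun z _ => ?_
  by_cases h : a ∈ kk G H z
  · rw [if_pos h]
    by_cases h3 : 3 ≤ (kk G H z).card
    · rw [if_pos h3]; omega
    · by_cases h4 : (kk G H z).card = 2
      · rw [if_pos ⟨h, h4⟩]; omega
      · have h5 : 0 < (kk G H z).card := Finset.card_pos.mpr ⟨a, h⟩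
        have h6 : (kk G H z).card = 1 := by omega
        obtain ⟨x, hx⟩ := Finset.card_eq_one.mp h6
        rw [hx, Finset.mem_singleton] at h
        rw [hx, ← h, if_pos rfl]; omega
  · rw [if_neg h]
    exact Nat.zero_le _

theorem cfg_sum_mu (κ : ℝ) (a : V) (ha : a ∈ H) :
    ∑ b, muG G H κ a b = ∑ b ∈ H.erase a, ((P5.n2 G H a b : ℝ) + κ) := by
  rw [← Finset.sum_subset (Finset.subset_univ (H.erase a))]
  · refine Finset.sum_congr rfl fun b hb => ?_
    rw [Finset.mem_erase] at hb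
    rw [muG, if_pos ⟨ha, hb.2, Ne.symm hb.1⟩]
  · intro b _ hb
    rw [muG, if_neg]
    rintro ⟨_, h2, h3⟩
    exact hb (Finset.mem_erase.mpr ⟨Ne.symm h3, h2⟩)

theorem cfg_sum_mu0 (κ : ℝ) (a : V) (ha : a ∉ H) : ∑ b, muG G H κ a b = 0 :=
  Finset.sum_eq_zero fun b _ => by rw [muG, if_neg (fun h => ha h.1)]

theorem cfg_sum_mumu (κ : ℝ) :
    ∑ a, ∑ b, muG G H κ a b = ∑ a ∈ H, ∑ b ∈ H.erase a, ((P5.n2 G H a b : ℝ) + κ) := by
  rw [← Finset.sum_subset (Finset.subset_univ H)]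
  · exact Finset.sum_congr rfl fun a ha => cfg_sum_mu G H κ a ha
  · intro a _ ha
    exact cfg_sum_mu0 G H κ a ha

theorem cfg_sum_nu (κ : ℝ) :
    ∑ a, nuG G H κ a = ∑ a ∈ H, ((P5.n1 G H a : ℝ) + κ) := by
  rw [← Finset.sum_subset (Finset.subset_univ H)]
  · exact Finset.sum_congr rfl fun a ha => by rw [nuG, if_pos ha]
  · intro a _ ha
    rw [nuG, if_neg ha]

theorem cfg_wt {κ : ℝ} (hκ : 0 ≤ κ) : Wt (muG G H κ) where
  symm := by
    intro a b
    unfold muG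
    by_cases h : a ∈ H ∧ b ∈ H ∧ a ≠ b
    · rw [if_pos h, if_pos ⟨h.2.1, h.1, Ne.symm h.2.2⟩]
      have : P5.n2 G H a b = P5.n2 G H b a := by
        rw [P5.n2, P5.n2, Finset.pair_comm]
      rw [this]
    · rw [if_neg h, if_neg]
      rintro ⟨h1, h2, h3⟩
      exact h ⟨h2, h1, Ne.symm h3⟩
  diag := by
    intro a
    rw [muG, if_neg]
    rintro ⟨_, _, h⟩
    exact h rfl
  nonneg := by
    intro a b
    unfold muG
    split_ifs
    · positivity
    · exact le_refl _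

theorem cfg (hK : P5.NoK33m G) :
    Wt (muG G H (2 * (H.card : ℝ) ^ 3)) ∧
    (∀ a b, mH G H a b ≤ muG G H (2 * (H.card : ℝ) ^ 3) a b) ∧
    (∀ a, dH G H a ≤ dn (muG G H (2 * (H.card : ℝ) ^ 3)) (nuG G H (2 * (H.card : ℝ) ^ 3)) a) ∧
    ms (muG G H (2 * (H.card : ℝ) ^ 3)) ∅ + ∑ a, nuG G H (2 * (H.card : ℝ) ^ 3) a
      + (P5.n0 G H : ℝ) ≤ (Fintype.card V : ℝ) + 4 * (H.card : ℝ) ^ 5 ∧
    (Fintype.card V : ℝ) ≤ ms (muG G H (2 * (H.card : ℝ) ^ 3)) ∅
      + ∑ a, nuG G H (2 * (H.card : ℝ) ^ 3) a + (P5.n0 G H : ℝ) + H.card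
      + 2 * (H.card : ℝ) ^ 3 ∧
    (∀ a b, a ≠ b → muG G H (2 * (H.card : ℝ) ^ 3) a b
      ≤ ((nb G a ∩ nb G b).card : ℝ) + 2 * (H.card : ℝ) ^ 3) := by
  obtain ⟨κ, hκd⟩ : ∃ κ : ℝ, κ = 2 * (H.card : ℝ) ^ 3 := ⟨_, rfl⟩
  have hκ : 0 ≤ κ := by rw [hκd]; positivity
  rw [← hκd]
  have hw := cfg_wt G H hκ
  have hms : ms (muG G H κ) ∅ = (∑ a ∈ H, ∑ b ∈ H.erase a, ((P5.n2 G H a b : ℝ) + κ)) / 2 := by
    unfold ms
    rw [Finset.compl_empty, cfg_sum_mumu]
  have hsplit : ∑ a ∈ H, ∑ b ∈ H.erase a, ((P5.n2 G H a b : ℝ) + κ) =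
      ((∑ a ∈ H, ∑ b ∈ H.erase a, P5.n2 G H a b : ℕ) : ℝ) +
        (H.card : ℝ) * ((H.card : ℝ) - 1) * κ := by
    have h1 : ∀ a ∈ H, ∑ b ∈ H.erase a, ((P5.n2 G H a b : ℝ) + κ) =
        (∑ b ∈ H.erase a, (P5.n2 G H a b : ℝ)) + ((H.card : ℝ) - 1) * κ := by
      intro a ha
      rw [Finset.sum_add_distrib, Finset.sum_const, nsmul_eq_mul, Finset.card_erase_of_mem ha,
        Nat.cast_pred (Finset.card_pos.mpr ⟨a, ha⟩)]
    rw [Finset.sum_congr rfl h1, Finset.sum_add_distrib, Finset.sum_const, nsmul_eq_mul]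
    push_cast
    ring
  have hnu : ∑ a, nuG G H κ a = ((∑ a ∈ H, P5.n1 G H a : ℕ) : ℝ) + (H.card : ℝ) * κ := by
    rw [cfg_sum_nu, Finset.sum_add_distrib, Finset.sum_const, nsmul_eq_mul]
    push_cast
    ring
  have hcard : ((Hᶜ : Finset V).card : ℝ) + (H.card : ℝ) = (Fintype.card V : ℝ) := by
    have := Finset.card_compl_add_card H
    exact_mod_cast this
  refine ⟨hw, ?_, ?_, ?_, ?_, ?_⟩
  · intro a b
    unfold mH muG
    by_cases h : a ∈ H ∧ b ∈ H ∧ a ≠ b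
    · rw [if_pos h, if_pos h]
      have h1 := cfg_mm G H hK h.1 h.2.1 h.2.2
      have h2 : ((P5.mm G H a b : ℕ) : ℝ) ≤ (P5.n2 G H a b : ℝ) + 2 * (H.card : ℝ) ^ 3 := by
        exact_mod_cast h1
      rw [hκd]
      exact h2
    · rw [if_neg h, if_neg h]
  · intro a
    by_cases ha : a ∈ H
    · have h1 := cfg_dd G H hK ha
      have h2 : ((P5.dd G H a : ℕ) : ℝ) ≤ ((∑ b ∈ H.erase a, P5.n2 G H a b : ℕ) : ℝ) +
          (P5.n1 G H a : ℝ) + 2 * (H.card : ℝ) ^ 3 := by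
        exact_mod_cast h1
      have h3 : dH G H a = ((P5.dd G H a : ℕ) : ℝ) := by rw [dH, if_pos ha]; rfl
      unfold dn dg
      rw [h3, cfg_sum_mu G H κ a ha, nuG, if_pos ha, Finset.sum_add_distrib, ]
      have h4 : (0 : ℝ) ≤ ∑ b ∈ H.erase a, κ := Finset.sum_nonneg fun _ _ => hκ
      push_cast at h2
      linarith
    · have h3 : dH G H a = 0 := by rw [dH, if_neg ha]
      rw [h3]
      unfold dn dg
      refine add_nonneg (Finset.sum_nonneg fun b _ => hw.nonneg a b) ?_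
      rw [nuG, if_neg ha]
  · rw [hms, hsplit, hnu]
    have h1 := cfg_le G H
    have h2 : ((∑ a ∈ H, ∑ b ∈ H.erase a, P5.n2 G H a b : ℕ) : ℝ) +
        2 * ((∑ a ∈ H, P5.n1 G H a : ℕ) : ℝ) + 2 * (P5.n0 G H : ℝ) ≤
        2 * ((Hᶜ : Finset V).card : ℝ) := by exact_mod_cast h1
    have h3 : ((H.card : ℝ) * ((H.card : ℝ) - 1) * κ) / 2 + (H.card : ℝ) * κ ≤
        4 * (H.card : ℝ) ^ 5 := by
      have h4 : ((H.card : ℝ) * ((H.card : ℝ) - 1) * κ) / 2 + (H.card : ℝ) * κ =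
          (H.card : ℝ) ^ 5 + (H.card : ℝ) ^ 4 := by rw [hκd]; ring
      rw [h4]
      have h5 : (H.card : ℝ) ^ 4 ≤ (H.card : ℝ) ^ 5 := by
        rcases Nat.eq_zero_or_pos H.card with h0 | h0
        · rw [h0]; simp
        · have : (1 : ℝ) ≤ H.card := by exact_mod_cast h0
          exact pow_le_pow_right₀ this (by norm_num)
      have h6 : (0 : ℝ) ≤ (H.card : ℝ) ^ 5 := by positivity
      linarith
    have h7 : (0 : ℝ) ≤ H.card := by positivity
    linarith
  · rw [hms, hsplit, hnu]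
    have h1 := cfg_ge G H hK
    have h2 : 2 * ((Hᶜ : Finset V).card : ℝ) ≤
        ((∑ a ∈ H, ∑ b ∈ H.erase a, P5.n2 G H a b : ℕ) : ℝ) +
        2 * ((∑ a ∈ H, P5.n1 G H a : ℕ) : ℝ) + 2 * (P5.n0 G H : ℝ) +
        2 * (2 * (H.card : ℝ) ^ 3) := by exact_mod_cast h1
    have h3 : 0 ≤ ((H.card : ℝ) * ((H.card : ℝ) - 1) * κ) / 2 + (H.card : ℝ) * κ := by
      have h4 : ((H.card : ℝ) * ((H.card : ℝ) - 1) * κ) / 2 + (H.card : ℝ) * κ =
          (H.card : ℝ) ^ 5 + (H.card : ℝ) ^ 4 := by rw [hκd]; ring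
      rw [h4]
      positivity
    rw [hκd] at *
    linarith
  · intro a b hab
    unfold muG
    split_ifs with h
    · have h1 := P5.n2_le_mm G H a b
      have h2 : P5.mm G H a b ≤ (nb G a ∩ nb G b).card :=
        Finset.card_le_card Finset.sdiff_subset
      have h3 : (P5.n2 G H a b : ℝ) ≤ ((nb G a ∩ nb G b).card : ℝ) := by
        exact_mod_cast h1.trans h2
      linarith
    · positivity

theorem sum_dH (hS : P5.Sparse6 G) : ∑ a, dH G H a ≤ 6 * (Fintype.card V : ℝ) := by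
  have h1 : ∑ a, dH G H a = ((∑ a ∈ H, (nb G a \ H).card : ℕ) : ℝ) := by
    rw [← Finset.sum_subset (Finset.subset_univ H)]
    · rw [Nat.cast_sum]
      exact Finset.sum_congr rfl fun a ha => by rw [dH, if_pos ha]
    · intro a _ ha
      rw [dH, if_neg ha]
  have h2 : ∑ a ∈ H, (nb G a \ H).card ≤ (P5.pr G univ univ).card := by
    rw [← Finset.card_sigma]
    refine Finset.card_le_card_of_injOn (fun p => (p.1, p.2)) ?_ ?_
    · rintro ⟨a, z⟩ hz
      rw [Finset.mem_coe, Finset.mem_sigma, Finset.mem_sdiff, P5.CONS.mem_nb] at hz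
      show (a, z) ∈ ((P5.pr G univ univ : Finset (V × V)) : Set (V × V))
      rw [Finset.mem_coe, P5.pr, Finset.mem_filter]
      exact ⟨Finset.mem_univ _, Finset.mem_univ _, Finset.mem_univ _, hz.2.1⟩
    · rintro ⟨a, z⟩ _ ⟨a', z'⟩ _ h
      simp only [Prod.mk.injEq] at h
      obtain ⟨rfl, rfl⟩ := h
      rfl
  have h3 := hS univ
  rw [Finset.card_univ] at h3
  rw [h1]
  exact_mod_cast h2.trans h3

end

end Pool.Agent.Lib.MP_009d13_co.OD
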