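import Pool.Agent.Lib.MP_009d13_co.OD.Defs2
import Pool.Agent.Lib.MP_009d13_co.OD.LS1
import Pool.Agent.Lib.MP_009d13_co.OD.LS2
import Pool.Agent.Lib.MP_009d13_co.OD.LS4

/-! # OD, module CNA: words -/

set_option autoImplicit false

namespace Pool.Agent.Lib.MP_009d13_co.OD

open Finset Classical
open Pool.Agent.Lib.MP_009d13_co.P5 (nb kk)

noncomputable section

variable {V : Type} [Fintype V] (G : SimpleGraph V) (H : Finset V)

theorem cna_aj_nonneg (a b : V) : 0 ≤ aj G a b := by
  unfold aj; split_ifs <;> norm_num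

theorem cna_aj_le_one (a b : V) : aj G a b ≤ 1 := by
  unfold aj; split_ifs <;> norm_num

theorem cna_aj_symm (a b : V) : aj G a b = aj G b a := by
  unfold aj; simp only [G.adj_comm]

theorem cna_pw_nonneg (L : List V) : 0 ≤ pw (aj G) L := pw_nonneg _ (cna_aj_nonneg G) L

theorem cna_term_nonneg (Ps : List (Finset V)) (L : List V) :
    0 ≤ (if List.Forall₂ (fun v P => v ∈ P) L Ps then pw (aj G) L else 0) := by
  split_ifs
  · exact cna_pw_nonneg G L
  · exact le_rfl

theorem cn_nonneg (Ps : List (Finset V)) : 0 ≤ cn G Ps :=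
  Finset.sum_nonneg fun L _ => cna_term_nonneg G Ps L

theorem cna_pw_append (P Q : List V) : pw (aj G) (P ++ Q) ≤ pw (aj G) P * pw (aj G) Q := by
  induction P with
  | nil => simp [pw]
  | cons a T ih =>
    cases T with
    | nil =>
      cases Q with
      | nil => simp [pw]
      | cons b S =>
        have h1 : pw (aj G) ([a] ++ b :: S) = aj G a b * pw (aj G) (b :: S) := rfl
        rw [h1]
        have h2 : pw (aj G) [a] = 1 := rfl
        rw [h2]
        exact mul_le_mul_of_nonneg_right (cna_aj_le_one G a b) (cna_pw_nonneg G _)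
    | cons c S =>
      have h1 : pw (aj G) ((a :: c :: S) ++ Q) = aj G a c * pw (aj G) ((c :: S) ++ Q) := rfl
      have h2 : pw (aj G) (a :: c :: S) = aj G a c * pw (aj G) (c :: S) := rfl
      rw [h1, h2, mul_assoc]
      exact mul_le_mul_of_nonneg_left ih (cna_aj_nonneg G a c)

theorem cna_forall_append {Ps Qs : List (Finset V)} {P Q : List V} (hP : P.length = Ps.length) :
    List.Forall₂ (fun v P => v ∈ P) (P ++ Q) (Ps ++ Qs) ↔
      List.Forall₂ (fun v P => v ∈ P) P Ps ∧ List.Forall₂ (fun v P => v ∈ P) Q Qs := by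
  induction P generalizing Ps with
  | nil =>
    have : Ps = [] := List.length_eq_zero_iff.mp hP.symm
    subst this
    simp
  | cons a T ih =>
    cases Ps with
    | nil => simp at hP
    | cons X Xs =>
      have hT : T.length = Xs.length := by simpa using hP
      simp only [List.cons_append, List.forall₂_cons]
      rw [ih hT, and_assoc]

theorem cna_NL_anti {A B : Finset V} (h : A ⊆ B) (k : ℕ) : NL B k ⊆ NL A k := by
  intro L hL
  obtain ⟨h1, h2, h3⟩ := mem_NL.mp hL
  exact mem_NL.mpr ⟨h1, h2, fun x hx hxA => h3 x hx (h hxA)⟩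

theorem cn_append (Ps Qs : List (Finset V)) : cn G (Ps ++ Qs) ≤ cn G Ps * cn G Qs := by
  unfold cn
  rw [List.length_append, sum_NL_append, Finset.sum_mul]
  refine Finset.sum_le_sum fun P hP => ?_
  have hPl := (mem_NL.mp hP).1
  by_cases h : List.Forall₂ (fun v P => v ∈ P) P Ps
  · rw [if_pos h, Finset.mul_sum]
    refine le_trans (Finset.sum_le_sum (g := fun Q => pw (aj G) P *
      (if List.Forall₂ (fun v P => v ∈ P) Q Qs then pw (aj G) Q else 0)) fun Q _ => ?_)
      (Finset.sum_le_sum_of_subset_of_nonneg (cna_NL_anti (Finset.empty_subset _) _)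
        fun Q _ _ => mul_nonneg (cna_pw_nonneg G P) (cna_term_nonneg G Qs Q))
    by_cases h' : List.Forall₂ (fun v P => v ∈ P) Q Qs
    · rw [if_pos ((cna_forall_append hPl).mpr ⟨h, h'⟩), if_pos h']
      exact cna_pw_append G P Q
    · rw [if_neg (fun hc => h' ((cna_forall_append hPl).mp hc).2), if_neg h', mul_zero]
  · rw [if_neg h, zero_mul]
    refine le_of_eq (Finset.sum_eq_zero fun Q _ => ?_)
    rw [if_neg (fun hc => h ((cna_forall_append hPl).mp hc).1)]

theorem cna_nil : cn G ([] : List (Finset V)) = 1 := by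
  unfold cn
  simp [NL, pw]

theorem cna_sum_adj (v : V) : ∑ a, aj G v a = ((nb G v).card : ℝ) := by
  unfold aj nb
  rw [Finset.sum_boole]

theorem cn_pair (X Y : Finset V) : cn G [X, Y] = ((P5.pr G X Y).card : ℝ) := by
  unfold cn P5.pr
  have hl : ([X, Y] : List (Finset V)).length = 0 + 1 + 1 := rfl
  rw [hl]
  simp only [sum_NL_succ, sum_NL_zero]
  rw [Finset.card_filter]
  push_cast
  rw [Fintype.sum_prod_type]
  simp only [compl_empty]
  refine Finset.sum_congr rfl fun a _ => ?_
  rw [← Finset.sum_subset (Finset.subset_univ (insert a ∅ : Finset V)ᶜ)]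
  · refine Finset.sum_congr rfl fun b _ => ?_
    simp only [List.forall₂_cons, List.forall₂_nil_left_iff, and_true, pw, aj, mul_one]
    by_cases h1 : a ∈ X <;> by_cases h2 : b ∈ Y <;> simp [h1, h2]
  · intro b _ hb
    have : b = a := by simpa using hb
    subst this
    simp

theorem cn_pair_le (hS : P5.Sparse6 G) (X Y : Finset V) :
    cn G [X, Y] ≤ 6 * (Fintype.card V : ℝ) := by
  rw [cn_pair]
  have h1 : (P5.pr G X Y).card ≤ (P5.pr G univ univ).card := by
    refine Finset.card_le_card fun p hp => ?_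
    unfold P5.pr at hp ⊢
    simp only [mem_filter, mem_univ, true_and] at hp ⊢
    exact hp.2.2
  have h2 := h1.trans (hS univ)
  rw [Finset.card_univ] at h2
  exact_mod_cast h2

theorem cn_four (X Y : Finset V) : cn G [X, Hᶜ, Hᶜ, Y] ≤ x4 G H := by
  unfold cn x4
  have hl : ([X, Hᶜ, Hᶜ, Y] : List (Finset V)).length = 0 + 1 + 1 + 1 + 1 := rfl
  rw [hl]
  simp only [sum_NL_succ, sum_NL_zero, compl_empty]
  have hx : ∑ p ∈ P5.pr G Hᶜ Hᶜ, ((nb G p.1).card : ℝ) * ((nb G p.2).card : ℝ) =
      ∑ b, ∑ c, (if b ∈ Hᶜ ∧ c ∈ Hᶜ ∧ G.Adj b c then (∑ a, aj G b a) * (∑ d, aj G c d) else 0) := by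
    unfold P5.pr
    rw [Finset.sum_filter, Fintype.sum_prod_type]
    simp only [cna_sum_adj]
  rw [hx]
  -- enlarge the sums
  have h1 : ∀ a b c d : V, (if List.Forall₂ (fun v P => v ∈ P) [a, b, c, d] [X, Hᶜ, Hᶜ, Y] then
      pw (aj G) [a, b, c, d] else 0) ≤
      if b ∈ Hᶜ ∧ c ∈ Hᶜ ∧ G.Adj b c then aj G b a * aj G c d else 0 := by
    intro a b c d
    have hnn : 0 ≤ (if b ∈ Hᶜ ∧ c ∈ Hᶜ ∧ G.Adj b c then aj G b a * aj G c d else 0) := by
      split_ifs
      · exact mul_nonneg (cna_aj_nonneg G _ _) (cna_aj_nonneg G _ _)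
      · exact le_rfl
    split_ifs with h h'
    · have e : pw (aj G) [a, b, c, d] = aj G a b * (aj G b c * (aj G c d * 1)) := rfl
      rw [e, mul_one, cna_aj_symm G b a]
      have h2 := cna_aj_le_one G b c
      have h3 := mul_nonneg (cna_aj_nonneg G a b) (cna_aj_nonneg G c d)
      nlinarith
    · have e : pw (aj G) [a, b, c, d] = aj G a b * (aj G b c * (aj G c d * 1)) := rfl
      simp only [List.forall₂_cons] at h
      have hbc : ¬ G.Adj b c := fun hc => h' ⟨h.2.1, h.2.2.1, hc⟩
      rw [e]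
      have : aj G b c = 0 := by unfold aj; rw [if_neg hbc]
      rw [this]; simp
    · exact mul_nonneg (cna_aj_nonneg G _ _) (cna_aj_nonneg G _ _)
    · exact le_rfl
  have hT : ∀ a b c d : V, 0 ≤ (if List.Forall₂ (fun v P => v ∈ P) [a, b, c, d] [X, Hᶜ, Hᶜ, Y] then
      pw (aj G) [a, b, c, d] else 0) := fun a b c d => cna_term_nonneg G _ _
  calc ∑ a, ∑ b ∈ (insert a ∅ : Finset V)ᶜ, ∑ c ∈ (insert b (insert a ∅) : Finset V)ᶜ,
        ∑ d ∈ (insert c (insert b (insert a ∅)) : Finset V)ᶜ,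
        (if List.Forall₂ (fun v P => v ∈ P) [a, b, c, d] [X, Hᶜ, Hᶜ, Y] then
          pw (aj G) [a, b, c, d] else 0)
      ≤ ∑ a, ∑ b, ∑ c, ∑ d, (if List.Forall₂ (fun v P => v ∈ P) [a, b, c, d] [X, Hᶜ, Hᶜ, Y] then
          pw (aj G) [a, b, c, d] else 0) := by
        refine Finset.sum_le_sum fun a _ => ?_
        refine le_trans (Finset.sum_le_sum (g := fun b => ∑ c, ∑ d,
          (if List.Forall₂ (fun v P => v ∈ P) [a, b, c, d] [X, Hᶜ, Hᶜ, Y] then
          pw (aj G) [a, b, c, d] else 0)) fun b _ => ?_)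
          (Finset.sum_le_sum_of_subset_of_nonneg (Finset.subset_univ _) fun b _ _ =>
            Finset.sum_nonneg fun c _ => Finset.sum_nonneg fun d _ => hT a b c d)
        refine le_trans (Finset.sum_le_sum (g := fun c => ∑ d,
          (if List.Forall₂ (fun v P => v ∈ P) [a, b, c, d] [X, Hᶜ, Hᶜ, Y] then
          pw (aj G) [a, b, c, d] else 0)) fun c _ => ?_)
          (Finset.sum_le_sum_of_subset_of_nonneg (Finset.subset_univ _) fun c _ _ =>
            Finset.sum_nonneg fun d _ => hT a b c d)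
        exact Finset.sum_le_sum_of_subset_of_nonneg (Finset.subset_univ _) fun d _ _ => hT a b c d
    _ ≤ ∑ a, ∑ b, ∑ c, ∑ d,
          (if b ∈ Hᶜ ∧ c ∈ Hᶜ ∧ G.Adj b c then aj G b a * aj G c d else 0) := by
        refine Finset.sum_le_sum fun a _ => Finset.sum_le_sum fun b _ => Finset.sum_le_sum
          fun c _ => Finset.sum_le_sum fun d _ => h1 a b c d
    _ = ∑ b, ∑ c, (if b ∈ Hᶜ ∧ c ∈ Hᶜ ∧ G.Adj b c then
          (∑ a, aj G b a) * (∑ d, aj G c d) else 0) := by
        rw [Finset.sum_comm]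
        refine Finset.sum_congr rfl fun b _ => ?_
        rw [Finset.sum_comm]
        refine Finset.sum_congr rfl fun c _ => ?_
        by_cases h : b ∈ Hᶜ ∧ c ∈ Hᶜ ∧ G.Adj b c
        · simp only [if_pos h]
          rw [Finset.sum_mul_sum]
        · simp only [if_neg h]
          simp

theorem cn_pairs (hS : P5.Sparse6 G) (w : List (Bool × Bool)) :
    cn G (w.flatMap fun p => [cl H p.1, cl H p.2]) ≤ (6 * (Fintype.card V : ℝ)) ^ w.length := by
  induction w with
  | nil => simp [cna_nil]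
  | cons p w ih =>
    rw [List.flatMap_cons, List.length_cons, pow_succ']
    exact (cn_append G _ _).trans (mul_le_mul (cn_pair_le G hS _ _) ih (cn_nonneg G _)
      (by positivity))

end

end Pool.Agent.Lib.MP_009d13_co.OD
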