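import Pool.Agent.Lib.MP_009d13_co.OD.CNH

/-! # OD, module CNB: paths with one pair of consecutive low vertices -/

set_option autoImplicit false

namespace Pool.Agent.Lib.MP_009d13_co.OD

open Finset Classical
open Pool.Agent.Lib.MP_009d13_co.P5 (nb kk)

noncomputable section

variable {V : Type} [Fintype V] (G : SimpleGraph V) (H : Finset V)

theorem CNB_pr (f : V → V → ℝ) : ∑ p ∈ P5.pr G Hᶜ Hᶜ, f p.1 p.2
    = ∑ x, ∑ y, (if x ∈ Hᶜ ∧ y ∈ Hᶜ then aj G x y else 0) * f x y := by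
  unfold P5.pr
  rw [Finset.sum_filter, Fintype.sum_prod_type]
  refine Finset.sum_congr rfl fun x _ => Finset.sum_congr rfl fun y _ => ?_
  unfold aj
  by_cases h1 : x ∈ Hᶜ <;> by_cases h2 : y ∈ Hᶜ <;> by_cases h3 : G.Adj x y <;>
    simp [h1, h2, h3]

theorem CNB_c_nonneg (x y : V) : 0 ≤ (if x ∈ Hᶜ ∧ y ∈ Hᶜ then aj G x y else 0) := by
  split_ifs
  · exact CNF_aj_nonneg G x y
  · exact le_refl _

/-- the weight of the two halves -/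
def CNB_T (i j : ℕ) (x y : V) (L1 L2 : List V) : ℝ :=
  if List.Forall₂ (fun v P => v ∈ P) L1 (rp i Hᶜ H)
      ∧ List.Forall₂ (fun v P => v ∈ P) L2 (rp j H Hᶜ) then
    pw (aj G) L1 * pw (aj G) L2 * (ls (aj G x) L1 * hd (aj G y) L2) else 0

theorem CNB_T_nonneg (i j : ℕ) (x y : V) (L1 L2 : List V) : 0 ≤ CNB_T G H i j x y L1 L2 := by
  unfold CNB_T
  split_ifs
  · exact mul_nonneg (mul_nonneg (pw_nonneg _ (CNF_aj_nonneg G) _)
      (pw_nonneg _ (CNF_aj_nonneg G) _)) (mul_nonneg (ls_nonneg (CNF_aj_nonneg G x) _)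
        (hd_nonneg (CNF_aj_nonneg G y) _))
  · exact le_refl _

theorem CNB_one (i j : ℕ) (L1 : List V) :
    ∑ L2 ∈ NL L1.toFinset (2 * j + 1 + 1),
      (if List.Forall₂ (fun v P => v ∈ P) L1 (rp i Hᶜ H)
          ∧ List.Forall₂ (fun v P => v ∈ P) L2 (Hᶜ :: Hᶜ :: rp j H Hᶜ) then
        pw (aj G) L1 * ls (fun a => hd (aj G a) L2) L1 * pw (aj G) L2 else 0)
      ≤ ∑ x, ∑ y, (if x ∈ Hᶜ ∧ y ∈ Hᶜ then aj G x y else 0) *
        ∑ L2 ∈ NL L1.toFinset (2 * j), CNB_T G H i j x y L1 L2 := by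
  rw [sum_NL_succ]
  have hterm : ∀ x y L2, (if List.Forall₂ (fun v P => v ∈ P) L1 (rp i Hᶜ H)
          ∧ List.Forall₂ (fun v P => v ∈ P) (x :: y :: L2) (Hᶜ :: Hᶜ :: rp j H Hᶜ) then
        pw (aj G) L1 * ls (fun a => hd (aj G a) (x :: y :: L2)) L1
          * pw (aj G) (x :: y :: L2) else 0)
      = (if x ∈ Hᶜ ∧ y ∈ Hᶜ then aj G x y else 0) * CNB_T G H i j x y L1 L2 := by
    intro x y L2
    have h1 : (fun a => hd (aj G a) (x :: y :: L2)) = aj G x := by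
      funext a
      exact CNH_aj_symm G a x
    rw [h1, CNF_pw_cons2]
    unfold CNB_T
    have h2 : List.Forall₂ (fun v P => v ∈ P) (x :: y :: L2) (Hᶜ :: Hᶜ :: rp j H Hᶜ)
        ↔ (x ∈ Hᶜ ∧ y ∈ Hᶜ) ∧ List.Forall₂ (fun v P => v ∈ P) L2 (rp j H Hᶜ) := by
      rw [List.forall₂_cons, List.forall₂_cons, and_assoc]
    by_cases c1 : List.Forall₂ (fun v P => v ∈ P) L1 (rp i Hᶜ H)
    · by_cases c2 : x ∈ Hᶜ ∧ y ∈ Hᶜ
      · by_cases c3 : List.Forall₂ (fun v P => v ∈ P) L2 (rp j H Hᶜ)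
        · rw [if_pos ⟨c1, h2.mpr ⟨c2, c3⟩⟩, if_pos c2, if_pos ⟨c1, c3⟩]
          ring
        · rw [if_neg (fun h => c3 (h2.mp h.2).2), if_pos c2, if_neg (fun h => c3 h.2), mul_zero]
      · rw [if_neg (fun h => c2 (h2.mp h.2).1), if_neg c2, zero_mul]
    · rw [if_neg (fun h => c1 h.1)]
      have hz : (if List.Forall₂ (fun v P => v ∈ P) L1 (rp i Hᶜ H)
          ∧ List.Forall₂ (fun v P => v ∈ P) L2 (rp j H Hᶜ) then
          pw (aj G) L1 * pw (aj G) L2 * (ls (aj G x) L1 * hd (aj G y) L2) else 0) = 0 :=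
        if_neg (fun h => c1 h.1)
      rw [hz, mul_zero]
  have hin : ∀ x y, 0 ≤ (if x ∈ Hᶜ ∧ y ∈ Hᶜ then aj G x y else 0) *
        ∑ L2 ∈ NL L1.toFinset (2 * j), CNB_T G H i j x y L1 L2 := fun x y =>
    mul_nonneg (CNB_c_nonneg G H x y) (Finset.sum_nonneg fun L2 _ =>
      CNB_T_nonneg G H i j x y L1 L2)
  refine le_trans ?_ (Finset.sum_le_sum_of_subset_of_nonneg
    (Finset.subset_univ (L1.toFinset)ᶜ) fun x _ _ => Finset.sum_nonneg fun y _ => hin x y)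
  refine Finset.sum_le_sum fun x _ => ?_
  rw [sum_NL_succ]
  refine le_trans ?_ (Finset.sum_le_sum_of_subset_of_nonneg
    (Finset.subset_univ (insert x L1.toFinset)ᶜ) fun y _ _ => hin x y)
  refine Finset.sum_le_sum fun y _ => ?_
  rw [Finset.mul_sum]
  refine le_trans (le_of_eq (Finset.sum_congr rfl fun L2 _ => hterm x y L2)) ?_
  refine Finset.sum_le_sum_of_subset_of_nonneg ?_ fun L2 _ _ =>
    mul_nonneg (CNB_c_nonneg G H x y) (CNB_T_nonneg G H i j x y L1 L2)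
  intro Q hQ
  obtain ⟨h1, h2, h3⟩ := mem_NL.mp hQ
  exact mem_NL.mpr ⟨h1, h2, fun z hz hzA =>
    h3 z hz (mem_insert_of_mem (mem_insert_of_mem hzA))⟩

theorem CNB_gen (i j : ℕ) : cn G (rp i Hᶜ H ++ Hᶜ :: Hᶜ :: rp j H Hᶜ)
    ≤ ∑ p ∈ P5.pr G Hᶜ Hᶜ, ∑ P ∈ NL (∅ : Finset V) i, ∑ Q ∈ NL P.toFinset j,
      hd (dH G H) P * pw (mH G H) P * ls (aj G p.1) P
        * (hd (aj G p.2) Q * pw (mH G H) Q * ls (dH G H) Q) := by
  rw [CNH_cn_append, CNH_rp_length]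
  have hlen : (Hᶜ :: Hᶜ :: rp j H Hᶜ).length = 2 * j + 1 + 1 := by
    rw [List.length_cons, List.length_cons, CNH_rp_length]
  rw [hlen]
  refine (Finset.sum_le_sum fun L1 _ => CNB_one G H i j L1).trans ?_
  rw [CNB_pr G H (fun x y => ∑ P ∈ NL (∅ : Finset V) i, ∑ Q ∈ NL P.toFinset j,
      hd (dH G H) P * pw (mH G H) P * ls (aj G x) P
        * (hd (aj G y) Q * pw (mH G H) Q * ls (dH G H) Q)), Finset.sum_comm]
  refine Finset.sum_le_sum fun x _ => ?_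
  rw [Finset.sum_comm]
  refine Finset.sum_le_sum fun y _ => ?_
  rw [← Finset.mul_sum]
  refine mul_le_mul_of_nonneg_left ?_ (CNB_c_nonneg G H x y)
  have hd2 := CNH_double G H (fun P Q => ls (aj G x) P * hd (aj G y) Q)
    (fun P Q => mul_nonneg (ls_nonneg (CNF_aj_nonneg G x) P) (hd_nonneg (CNF_aj_nonneg G y) Q))
    (fun P Q => by simp only [CNF_hd_ev])
    (fun P Q => by simp only [ls_reverse, CNF_hd_ev]) i j
  refine le_trans (le_of_eq ?_) (hd2.trans (le_of_eq ?_))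
  · rfl
  · refine Finset.sum_congr rfl fun P _ => Finset.sum_congr rfl fun Q _ => ?_
    ring

theorem cn_b (i j : ℕ) (hi : 1 ≤ i) (hj : 1 ≤ j) : cn G (rp i Hᶜ H ++ Hᶜ :: Hᶜ :: rp j H Hᶜ)
    ≤ ∑ p ∈ P5.pr G Hᶜ Hᶜ, ∑ P ∈ NL (∅ : Finset V) i, ∑ Q ∈ NL P.toFinset j,
      hd (dH G H) P * pw (mH G H) P * ls (aj G p.1) P
        * (hd (aj G p.2) Q * pw (mH G H) Q * ls (dH G H) Q) :=
  CNB_gen G H i j

theorem cn_b0 (j : ℕ) (hj : 1 ≤ j) : cn G (Hᶜ :: Hᶜ :: rp j H Hᶜ)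
    ≤ ∑ p ∈ P5.pr G Hᶜ Hᶜ, ∑ Q ∈ NL (∅ : Finset V) j,
      hd (aj G p.2) Q * pw (mH G H) Q * ls (dH G H) Q := by
  have h := CNB_gen G H 0 j
  have e : rp 0 Hᶜ H ++ Hᶜ :: Hᶜ :: rp j H Hᶜ = Hᶜ :: Hᶜ :: rp j H Hᶜ := rfl
  rw [e] at h
  refine h.trans (le_of_eq ?_)
  refine Finset.sum_congr rfl fun p _ => ?_
  rw [sum_NL_zero]
  refine Finset.sum_congr rfl fun Q _ => ?_
  simp [pw, hd, ls]

theorem cn_b1 (i : ℕ) (hi : 1 ≤ i) : cn G (rp i Hᶜ H ++ [Hᶜ, Hᶜ])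
    ≤ ∑ p ∈ P5.pr G Hᶜ Hᶜ, ∑ P ∈ NL (∅ : Finset V) i,
      hd (dH G H) P * pw (mH G H) P * ls (aj G p.1) P := by
  have h := CNB_gen G H i 0
  have e : rp i Hᶜ H ++ Hᶜ :: Hᶜ :: rp 0 H Hᶜ = rp i Hᶜ H ++ [Hᶜ, Hᶜ] := rfl
  rw [e] at h
  refine h.trans (le_of_eq ?_)
  refine Finset.sum_congr rfl fun p _ => Finset.sum_congr rfl fun P _ => ?_
  rw [sum_NL_zero]
  simp [pw, hd, ls]

end

end Pool.Agent.Lib.MP_009d13_co.OD
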