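import Mathlib

/-!
# CNC: the words without a bad pair
-/

set_option autoImplicit false

namespace Pool.Agent.Lib.MP_009d13_co.OD

/-- the words without a pair `s s` at positions `2 i + 1, 2 i + 2` and without a pair
`h h` at positions `2 i, 2 i + 1` (`true` = hub) -/
theorem word_cases (w : List (Bool × Bool)) :
    (∃ u v, w = u ++ (true, true) :: v) ∨
    (∃ u v p q, w = u ++ (p, false) :: (false, q) :: v) ∨
    (∃ i j, w = List.replicate i (false, true) ++ List.replicate j (true, false)) ∨
    (∃ i j, w = List.replicate i (false, true) ++ (false, false) ::
      List.replicate j (true, false)) := by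
  induction w with
  | nil => exact Or.inr (Or.inr (Or.inl ⟨0, 0, rfl⟩))
  | cons a w ih =>
    rcases ih with ⟨u, v, h⟩ | ⟨u, v, p, q, h⟩ | ⟨i, j, h⟩ | ⟨i, j, h⟩
    · exact Or.inl ⟨a :: u, v, by rw [h]; rfl⟩
    · exact Or.inr (Or.inl ⟨a :: u, v, p, q, by rw [h]; rfl⟩)
    · rcases a with ⟨a1, a2⟩
      cases a1 <;> cases a2
      · -- (false, false)
        cases i with
        | zero => exact Or.inr (Or.inr (Or.inr ⟨0, j, by rw [h]; simp⟩))
        | succ i =>
          refine Or.inr (Or.inl ⟨[], List.replicate i (false, true) ++
            List.replicate j (true, false), false, true, ?_⟩)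
          rw [h, List.replicate_succ]
          rfl
      · exact Or.inr (Or.inr (Or.inl ⟨i + 1, j, by rw [h, List.replicate_succ]; rfl⟩))
      · cases i with
        | zero =>
          refine Or.inr (Or.inr (Or.inl ⟨0, j + 1, ?_⟩))
          rw [h, List.replicate_succ]
          simp
        | succ i =>
          refine Or.inr (Or.inl ⟨[], List.replicate i (false, true) ++
            List.replicate j (true, false), true, true, ?_⟩)
          rw [h, List.replicate_succ]
          rfl
      · exact Or.inl ⟨[], w, rfl⟩
    · rcases a with ⟨a1, a2⟩
      cases a1 <;> cases a2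
      · cases i with
        | zero =>
          refine Or.inr (Or.inl ⟨[], List.replicate j (true, false), false, false, ?_⟩)
          rw [h]
          simp
        | succ i =>
          refine Or.inr (Or.inl ⟨[], List.replicate i (false, true) ++ (false, false) ::
            List.replicate j (true, false), false, true, ?_⟩)
          rw [h, List.replicate_succ]
          rfl
      · exact Or.inr (Or.inr (Or.inr ⟨i + 1, j, by rw [h, List.replicate_succ]; rfl⟩))
      · cases i with
        | zero =>
          refine Or.inr (Or.inl ⟨[], List.replicate j (true, false), true, false, ?_⟩)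
          rw [h]
          simp
        | succ i =>
          refine Or.inr (Or.inl ⟨[], List.replicate i (false, true) ++ (false, false) ::
            List.replicate j (true, false), true, true, ?_⟩)
          rw [h, List.replicate_succ]
          rfl
      · exact Or.inl ⟨[], w, rfl⟩

end Pool.Agent.Lib.MP_009d13_co.OD
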