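import Pool.Agent.Lib.MP_009d13_co.OD.Defs2
import Pool.Agent.Lib.MP_009d13_co.OD.LS1
import Pool.Agent.Lib.MP_009d13_co.OD.LS4

/-! # OD, module CNF: the hubs of a path `h s h s ... h s` -/

set_option autoImplicit false

namespace Pool.Agent.Lib.MP_009d13_co.OD

open Finset Classical
open Pool.Agent.Lib.MP_009d13_co.P5 (nb kk)

noncomputable section

variable {V : Type} [Fintype V] (G : SimpleGraph V) (H : Finset V)

theorem CNF_rp (k : ℕ) (X Y : Finset V) : rp (k + 1) X Y = X :: Y :: rp k X Y := by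
  unfold rp
  rw [List.replicate_succ, List.flatten_cons]
  rfl

theorem CNF_aj_nonneg (a b : V) : 0 ≤ aj G a b := by
  unfold aj
  split_ifs
  · exact zero_le_one
  · exact le_refl _

theorem CNF_mH_nonneg (a b : V) : 0 ≤ mH G H a b := by
  unfold mH
  split_ifs
  · exact Nat.cast_nonneg _
  · exact le_refl _

theorem CNF_dH_nonneg (a : V) : 0 ≤ dH G H a := by
  unfold dH
  split_ifs
  · exact Nat.cast_nonneg _
  · exact le_refl _

theorem CNF_card1 (h : V) :
    ∑ s, (if s ∈ H then 0 else aj G h s) = ((nb G h \ H).card : ℝ) := by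
  have e : nb G h \ H = univ.filter (fun s => s ∉ H ∧ G.Adj h s) := by
    ext s
    simp [nb, and_comm]
  rw [e, Finset.card_filter]
  push_cast
  refine Finset.sum_congr rfl fun s _ => ?_
  unfold aj
  by_cases h1 : s ∈ H <;> by_cases h2 : G.Adj h s <;> simp [h1, h2]

theorem CNF_card2 (h h' : V) :
    ∑ s, (if s ∈ H then 0 else aj G h s * aj G s h')
      = (((nb G h ∩ nb G h') \ H).card : ℝ) := by
  have e : (nb G h ∩ nb G h') \ H = univ.filter (fun s => s ∉ H ∧ G.Adj h s ∧ G.Adj h' s) := by
    ext s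
    simp [nb, and_comm]
  rw [e, Finset.card_filter]
  push_cast
  refine Finset.sum_congr rfl fun s _ => ?_
  unfold aj
  rw [G.adj_comm s h']
  by_cases h1 : s ∈ H <;> by_cases h2 : G.Adj h s <;> by_cases h3 : G.Adj h' s <;>
    simp [h1, h2, h3]

theorem CNF_pwls_nonneg (Q : List V) : 0 ≤ pw (mH G H) Q * ls (dH G H) Q :=
  mul_nonneg (pw_nonneg _ (CNF_mH_nonneg G H) Q) (ls_nonneg (CNF_dH_nonneg G H) Q)

theorem CNF_pw_cons2 (μ : V → V → ℝ) (a b : V) (L : List V) :
    pw μ (a :: b :: L) = μ a b * (hd (μ b) L * pw μ L) := by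
  cases L with
  | nil => simp [pw, hd]
  | cons c t => rfl

theorem CNF_hd_ev (g : V → ℝ) (L : List V) : hd g (ev L) = hd g L := by
  cases L with
  | nil => rfl
  | cons a t =>
    cases t with
    | nil => rfl
    | cons b t' => rfl

theorem CNF_ls_cons (g : V → ℝ) (a b : V) (T : List V) :
    ls g (a :: b :: T) = ls g (b :: T) :=
  ls_append g [a] (Q := b :: T) (by simp)

theorem CNF_zero {a : V} (ha : a ∉ H) (T : List V) :
    pw (mH G H) (a :: T) * ls (dH G H) (a :: T) = 0 := by
  cases T with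
  | nil =>
    have h1 : ls (dH G H) [a] = dH G H a := rfl
    rw [h1]
    simp [dH, ha]
  | cons b t =>
    have h1 : pw (mH G H) (a :: b :: t) = mH G H a b * pw (mH G H) (b :: t) := rfl
    rw [h1]
    simp [mH, ha]

theorem CNF_key {h : V} (hh : h ∈ H) (S : Finset V) (Q : List V) (hQ : h ∉ Q) :
    (∑ s ∈ S, if s ∈ H then 0 else aj G h s * hd (aj G s) Q)
        * (pw (mH G H) Q * ls (dH G H) Q)
      ≤ pw (mH G H) (h :: Q) * ls (dH G H) (h :: Q) := by
  have hsub : (∑ s ∈ S, if s ∈ H then 0 else aj G h s * hd (aj G s) Q)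
      ≤ ∑ s, if s ∈ H then 0 else aj G h s * hd (aj G s) Q := by
    refine Finset.sum_le_sum_of_subset_of_nonneg (Finset.subset_univ S) fun s _ _ => ?_
    split_ifs
    · exact le_refl _
    · exact mul_nonneg (CNF_aj_nonneg G h s) (hd_nonneg (CNF_aj_nonneg G s) Q)
  cases Q with
  | nil =>
    have h1 : pw (mH G H) ([] : List V) * ls (dH G H) ([] : List V) = 1 := by
      simp [pw, ls, hd]
    have h2 : pw (mH G H) [h] * ls (dH G H) [h] = dH G H h := by
      simp [pw, ls, hd]
    rw [h1, h2, mul_one]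
    refine hsub.trans ?_
    have h3 : ∀ s, hd (aj G s) ([] : List V) = 1 := fun s => rfl
    simp only [h3, mul_one]
    rw [CNF_card1]
    simp [dH, hh]
  | cons a T =>
    by_cases ha : a ∈ H
    · have h1 : pw (mH G H) (h :: a :: T) = mH G H h a * pw (mH G H) (a :: T) := rfl
      rw [h1, CNF_ls_cons, mul_assoc]
      refine mul_le_mul_of_nonneg_right ?_ (CNF_pwls_nonneg G H _)
      refine hsub.trans ?_
      have h3 : ∀ s, hd (aj G s) (a :: T) = aj G s a := fun s => rfl
      simp only [h3]
      rw [CNF_card2]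
      have hne : h ≠ a := by
        rintro rfl
        exact hQ (by simp)
      simp [mH, hh, ha, hne]
    · rw [CNF_zero G H ha T, mul_zero]
      exact CNF_pwls_nonneg G H _

theorem CNF_fib (k : ℕ) (F : List V → ℝ) (hF : ∀ Q, 0 ≤ F Q) (A : Finset V) :
    ∑ L ∈ NL A (2 * k), (if List.Forall₂ (fun v P => v ∈ P) L (rp k H Hᶜ) then
        pw (aj G) L * F (ev L) else 0)
      ≤ ∑ Q ∈ NL A k, pw (mH G H) Q * ls (dH G H) Q * F Q := by
  induction k generalizing F A with
  | zero =>
    rw [Nat.mul_zero, sum_NL_zero, sum_NL_zero]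
    simp [rp, pw, ls, hd, ev]
  | succ k ih =>
    have e : 2 * (k + 1) = 2 * k + 1 + 1 := by ring
    rw [e, sum_NL_succ, sum_NL_succ]
    refine Finset.sum_le_sum fun h _ => ?_
    rw [sum_NL_succ]
    by_cases hh : h ∈ H
    · have s1 : ∑ s ∈ (insert h A)ᶜ, ∑ L ∈ NL (insert s (insert h A)) (2 * k),
          (if List.Forall₂ (fun v P => v ∈ P) (h :: s :: L) (rp (k + 1) H Hᶜ) then
            pw (aj G) (h :: s :: L) * F (ev (h :: s :: L)) else 0)
          ≤ ∑ s ∈ (insert h A)ᶜ, (if s ∈ H then 0 else aj G h s *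
            ∑ Q ∈ NL (insert h A) k, pw (mH G H) Q * ls (dH G H) Q *
              (hd (aj G s) Q * F (h :: Q))) := by
        refine Finset.sum_le_sum fun s _ => ?_
        by_cases hs : s ∈ H
        · rw [if_pos hs]
          refine le_of_eq (Finset.sum_eq_zero fun L _ => ?_)
          rw [if_neg]
          rw [CNF_rp, List.forall₂_cons, List.forall₂_cons]
          rintro ⟨-, h2, -⟩
          exact (mem_compl.mp h2) hs
        · rw [if_neg hs]
          have ih' := ih (fun Q => hd (aj G s) Q * F (h :: Q))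
            (fun Q => mul_nonneg (hd_nonneg (CNF_aj_nonneg G s) Q) (hF _))
            (insert s (insert h A))
          have hmono : ∑ Q ∈ NL (insert s (insert h A)) k, pw (mH G H) Q * ls (dH G H) Q *
              (hd (aj G s) Q * F (h :: Q))
              ≤ ∑ Q ∈ NL (insert h A) k, pw (mH G H) Q * ls (dH G H) Q *
              (hd (aj G s) Q * F (h :: Q)) := by
            refine Finset.sum_le_sum_of_subset_of_nonneg ?_ fun Q _ _ =>
              mul_nonneg (CNF_pwls_nonneg G H Q)
                (mul_nonneg (hd_nonneg (CNF_aj_nonneg G s) Q) (hF _))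
            intro Q hQ
            obtain ⟨h1, h2, h3⟩ := mem_NL.mp hQ
            exact mem_NL.mpr ⟨h1, h2, fun x hx hxA => h3 x hx (mem_insert_of_mem hxA)⟩
          have h4 := mul_le_mul_of_nonneg_left (ih'.trans hmono) (CNF_aj_nonneg G h s)
          refine le_trans (le_of_eq ?_) h4
          rw [Finset.mul_sum]
          refine Finset.sum_congr rfl fun L _ => ?_
          by_cases hL : List.Forall₂ (fun v P => v ∈ P) L (rp k H Hᶜ)
          · rw [if_pos hL, if_pos]
            · have h5 : ev (h :: s :: L) = h :: ev L := rfl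
              rw [h5, CNF_pw_cons2, CNF_hd_ev]
              ring
            · rw [CNF_rp, List.forall₂_cons, List.forall₂_cons]
              exact ⟨hh, mem_compl.mpr hs, hL⟩
          · rw [if_neg hL, if_neg, mul_zero]
            rw [CNF_rp, List.forall₂_cons, List.forall₂_cons]
            rintro ⟨-, -, h3⟩
            exact hL h3
      refine s1.trans ?_
      have s2 : ∑ s ∈ (insert h A)ᶜ, (if s ∈ H then 0 else aj G h s *
            ∑ Q ∈ NL (insert h A) k, pw (mH G H) Q * ls (dH G H) Q *
              (hd (aj G s) Q * F (h :: Q)))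
          = ∑ Q ∈ NL (insert h A) k, ((∑ s ∈ (insert h A)ᶜ, if s ∈ H then 0 else
              aj G h s * hd (aj G s) Q) * (pw (mH G H) Q * ls (dH G H) Q)) * F (h :: Q) := by
        have s3 : ∀ s ∈ (insert h A)ᶜ, (if s ∈ H then 0 else aj G h s *
            ∑ Q ∈ NL (insert h A) k, pw (mH G H) Q * ls (dH G H) Q *
              (hd (aj G s) Q * F (h :: Q)))
            = ∑ Q ∈ NL (insert h A) k, (if s ∈ H then 0 else aj G h s * hd (aj G s) Q)
              * ((pw (mH G H) Q * ls (dH G H) Q) * F (h :: Q)) := by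
          intro s _
          by_cases hs : s ∈ H
          · simp [hs]
          · simp only [hs, if_false]
            rw [Finset.mul_sum]
            refine Finset.sum_congr rfl fun Q _ => ?_
            ring
        rw [Finset.sum_congr rfl s3, Finset.sum_comm]
        refine Finset.sum_congr rfl fun Q _ => ?_
        rw [← Finset.sum_mul]
        ring
      rw [s2]
      refine Finset.sum_le_sum fun Q hQ => ?_
      obtain ⟨-, -, h3⟩ := mem_NL.mp hQ
      refine mul_le_mul_of_nonneg_right (CNF_key G H hh _ Q ?_) (hF _)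
      intro hhQ
      exact h3 h hhQ (mem_insert_self h A)
    · refine le_trans (le_of_eq (Finset.sum_eq_zero fun s _ =>
        Finset.sum_eq_zero fun L _ => ?_)) (Finset.sum_nonneg fun Q _ =>
          mul_nonneg (CNF_pwls_nonneg G H _) (hF _))
      rw [if_neg]
      rw [CNF_rp, List.forall₂_cons]
      rintro ⟨h1, -⟩
      exact hh h1

theorem fib (k : ℕ) (hk : 1 ≤ k) (F : List V → ℝ) (hF : ∀ Q, 0 ≤ F Q) (A : Finset V) :
    ∑ L ∈ NL A (2 * k), (if List.Forall₂ (fun v P => v ∈ P) L (rp k H Hᶜ) then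
        pw (aj G) L * F (ev L) else 0)
      ≤ ∑ Q ∈ NL A k, pw (mH G H) Q * ls (dH G H) Q * F Q :=
  CNF_fib G H k F hF A

end

end Pool.Agent.Lib.MP_009d13_co.OD
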