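import Pool.Agent.Lib.MP_009d13_co.OD.CNF
import Pool.Agent.Lib.MP_009d13_co.OD.LS2

/-! # OD, module CNH: paths without two consecutive low vertices -/

set_option autoImplicit false

namespace Pool.Agent.Lib.MP_009d13_co.OD

open Finset Classical
open Pool.Agent.Lib.MP_009d13_co.P5 (nb kk)

noncomputable section

variable {V : Type} [Fintype V] (G : SimpleGraph V) (H : Finset V)

theorem CNH_rp_succ' (k : ℕ) (X Y : Finset V) : rp (k + 1) X Y = rp k X Y ++ [X, Y] := by
  unfold rp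
  rw [List.replicate_succ', List.flatten_append]
  rfl

theorem CNH_rp_length (k : ℕ) (X Y : Finset V) : (rp k X Y).length = 2 * k := by
  induction k with
  | zero => rfl
  | succ k ih =>
    rw [CNF_rp, List.length_cons, List.length_cons, ih]
    ring

theorem CNH_rp_reverse (k : ℕ) (X Y : Finset V) : (rp k X Y).reverse = rp k Y X := by
  induction k with
  | zero => rfl
  | succ k ih =>
    rw [CNF_rp, CNH_rp_succ', List.reverse_cons, List.reverse_cons, ih]
    simp

theorem CNH_mH_symm (a b : V) : mH G H a b = mH G H b a := by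
  unfold mH
  have e : nb G a ∩ nb G b = nb G b ∩ nb G a := Finset.inter_comm _ _
  rw [e]
  by_cases h1 : a ∈ H <;> by_cases h2 : b ∈ H <;> by_cases h3 : a = b <;>
    simp [h1, h2, h3, eq_comm]

theorem CNH_aj_symm (a b : V) : aj G a b = aj G b a := by
  unfold aj
  rw [G.adj_comm a b]

theorem CNH_forall_append {α β : Type} (R : α → β → Prop) (L1 L2 : List α) (W1 W2 : List β)
    (h : L1.length = W1.length) :
    List.Forall₂ R (L1 ++ L2) (W1 ++ W2) ↔ List.Forall₂ R L1 W1 ∧ List.Forall₂ R L2 W2 := by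
  induction L1 generalizing W1 with
  | nil =>
    have h1 : W1 = [] := List.length_eq_zero_iff.mp h.symm
    subst h1
    simp
  | cons a T ih =>
    cases W1 with
    | nil => simp at h
    | cons w W =>
      rw [List.cons_append, List.cons_append, List.forall₂_cons, List.forall₂_cons,
        ih W (by simpa using h), and_assoc]

theorem CNH_pw_append (μ : V → V → ℝ) (P Q : List V) :
    pw μ (P ++ Q) = pw μ P * ls (fun a => hd (μ a) Q) P * pw μ Q := by
  cases Q with
  | nil =>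
    have h1 : (fun a => hd (μ a) ([] : List V)) = fun _ => (1 : ℝ) := rfl
    have h2 : ls (fun _ => (1 : ℝ)) P = 1 := by
      unfold ls
      cases P.reverse with
      | nil => rfl
      | cons a t => rfl
    rw [h1, h2]
    simp [pw]
  | cons y T =>
    by_cases hP : P = []
    · subst hP
      simp [pw, ls, hd]
    · obtain ⟨P', x, rfl⟩ : ∃ P' x, P = P' ++ [x] :=
        ⟨P.dropLast, P.getLast hP, (List.dropLast_append_getLast hP).symm⟩
      rw [ls_snoc]
      have h1 : P' ++ [x] ++ y :: T = P' ++ x :: y :: T := by simp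
      rw [h1, pw_append_two]
      rfl

theorem CNH_cn_append (W1 W2 : List (Finset V)) : cn G (W1 ++ W2)
    = ∑ L1 ∈ NL (∅ : Finset V) W1.length, ∑ L2 ∈ NL L1.toFinset W2.length,
      (if List.Forall₂ (fun v P => v ∈ P) L1 W1 ∧ List.Forall₂ (fun v P => v ∈ P) L2 W2 then
        pw (aj G) L1 * ls (fun a => hd (aj G a) L2) L1 * pw (aj G) L2 else 0) := by
  unfold cn
  rw [List.length_append, sum_NL_append]
  refine Finset.sum_congr rfl fun L1 hL1 => ?_
  rw [Finset.empty_union]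
  refine Finset.sum_congr rfl fun L2 _ => ?_
  have hlen : L1.length = W1.length := (mem_NL.mp hL1).1
  rw [CNH_pw_append]
  by_cases h1 : List.Forall₂ (fun v P => v ∈ P) L1 W1 ∧ List.Forall₂ (fun v P => v ∈ P) L2 W2
  · rw [if_pos h1, if_pos ((CNH_forall_append _ L1 L2 W1 W2 hlen).mpr h1)]
  · rw [if_neg h1, if_neg (fun h => h1 ((CNH_forall_append _ L1 L2 W1 W2 hlen).mp h))]

/-- the hubs of the reversed first half and of the second half -/
theorem CNH_double (K : List V → List V → ℝ) (hK0 : ∀ P Q, 0 ≤ K P Q)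
    (h1 : ∀ P Q, K P (ev Q) = K P Q) (h2 : ∀ P Q, K (ev P).reverse Q = K P.reverse Q)
    (i j : ℕ) :
    ∑ L1 ∈ NL (∅ : Finset V) (2 * i), ∑ L2 ∈ NL L1.toFinset (2 * j),
      (if List.Forall₂ (fun v P => v ∈ P) L1 (rp i Hᶜ H)
          ∧ List.Forall₂ (fun v P => v ∈ P) L2 (rp j H Hᶜ) then
        pw (aj G) L1 * pw (aj G) L2 * K L1 L2 else 0)
      ≤ ∑ P ∈ NL (∅ : Finset V) i, ∑ Q ∈ NL P.toFinset j,
        hd (dH G H) P * pw (mH G H) P * (pw (mH G H) Q * ls (dH G H) Q) * K P Q := by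
  have s1 : ∀ L1 ∈ NL (∅ : Finset V) (2 * i), ∑ L2 ∈ NL L1.toFinset (2 * j),
      (if List.Forall₂ (fun v P => v ∈ P) L1 (rp i Hᶜ H)
          ∧ List.Forall₂ (fun v P => v ∈ P) L2 (rp j H Hᶜ) then
        pw (aj G) L1 * pw (aj G) L2 * K L1 L2 else 0)
      ≤ ∑ Q ∈ NL (∅ ∪ L1.toFinset) j,
        (if List.Forall₂ (fun v P => v ∈ P) L1 (rp i Hᶜ H) then
          pw (aj G) L1 * (pw (mH G H) Q * ls (dH G H) Q) * K L1 Q else 0) := by
    intro L1 _
    rw [Finset.empty_union]
    by_cases hL1 : List.Forall₂ (fun v P => v ∈ P) L1 (rp i Hᶜ H)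
    · simp only [hL1, true_and, if_true]
      have hf := CNF_fib G H j (fun Q => K L1 Q) (fun Q => hK0 L1 Q) L1.toFinset
      have hp := pw_nonneg (aj G) (CNF_aj_nonneg G) L1
      have hf' := mul_le_mul_of_nonneg_left hf hp
      refine le_trans (le_of_eq ?_) (le_trans hf' (le_of_eq ?_))
      · rw [Finset.mul_sum]
        refine Finset.sum_congr rfl fun L2 _ => ?_
        by_cases h3 : List.Forall₂ (fun v P => v ∈ P) L2 (rp j H Hᶜ)
        · rw [if_pos h3, if_pos h3, h1]
          ring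
        · rw [if_neg h3, if_neg h3, mul_zero]
      · rw [Finset.mul_sum]
        refine Finset.sum_congr rfl fun Q _ => ?_
        ring
    · simp only [hL1, false_and, if_false]
      simp
  refine (Finset.sum_le_sum s1).trans ?_
  rw [sum_NL_swap ∅ (2 * i) j (fun L1 Q =>
    (if List.Forall₂ (fun v P => v ∈ P) L1 (rp i Hᶜ H) then
          pw (aj G) L1 * (pw (mH G H) Q * ls (dH G H) Q) * K L1 Q else 0))]
  have e3 : ∑ P ∈ NL (∅ : Finset V) i, ∑ Q ∈ NL P.toFinset j,
        hd (dH G H) P * pw (mH G H) P * (pw (mH G H) Q * ls (dH G H) Q) * K P Q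
      = ∑ Q ∈ NL (∅ : Finset V) j, ∑ P ∈ NL (∅ ∪ Q.toFinset) i,
        hd (dH G H) P * pw (mH G H) P * (pw (mH G H) Q * ls (dH G H) Q) * K P Q := by
    rw [← sum_NL_swap ∅ i j (fun P Q =>
      hd (dH G H) P * pw (mH G H) P * (pw (mH G H) Q * ls (dH G H) Q) * K P Q)]
    simp only [Finset.empty_union]
  rw [e3]
  refine Finset.sum_le_sum fun Q _ => ?_
  rw [Finset.empty_union]
  rw [← sum_NL_reverse Q.toFinset (2 * i), ← sum_NL_reverse Q.toFinset i]
  have hf := CNF_fib G H i (fun P => K P.reverse Q) (fun P => hK0 _ Q) Q.toFinset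
  have hq := CNF_pwls_nonneg G H Q
  have hf' := mul_le_mul_of_nonneg_left hf hq
  refine le_trans (le_of_eq ?_) (le_trans hf' (le_of_eq ?_))
  · rw [Finset.mul_sum]
    refine Finset.sum_congr rfl fun L _ => ?_
    have h3 : List.Forall₂ (fun v P => v ∈ P) L.reverse (rp i Hᶜ H)
        ↔ List.Forall₂ (fun v P => v ∈ P) L (rp i H Hᶜ) := by
      rw [← CNH_rp_reverse i H Hᶜ, List.forall₂_reverse_iff]
    by_cases h4 : List.Forall₂ (fun v P => v ∈ P) L (rp i H Hᶜ)
    · rw [if_pos (h3.mpr h4), if_pos h4, h2, pw_reverse (aj G) (CNH_aj_symm G)]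
      ring
    · rw [if_neg (fun h => h4 (h3.mp h)), if_neg h4, mul_zero]
  · rw [Finset.mul_sum]
    refine Finset.sum_congr rfl fun P _ => ?_
    rw [pw_reverse (mH G H) (CNH_mH_symm G H), hd_reverse]
    ring

theorem cn_hs (k : ℕ) (hk : 1 ≤ k) : cn G (rp k H Hᶜ)
    ≤ ∑ Q ∈ NL (∅ : Finset V) k, pw (mH G H) Q * ls (dH G H) Q := by
  have hf := CNF_fib G H k (fun _ => 1) (fun _ => zero_le_one) ∅
  simp only [mul_one] at hf
  unfold cn
  rw [CNH_rp_length]
  exact hf

theorem CNH_cn_reverse (W : List (Finset V)) : cn G W.reverse = cn G W := by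
  unfold cn
  rw [List.length_reverse, ← sum_NL_reverse]
  refine Finset.sum_congr rfl fun L _ => ?_
  rw [pw_reverse (aj G) (CNH_aj_symm G)]
  have h3 : List.Forall₂ (fun v P => v ∈ P) L.reverse W.reverse
      ↔ List.Forall₂ (fun v P => v ∈ P) L W := List.forall₂_reverse_iff
  by_cases h4 : List.Forall₂ (fun v P => v ∈ P) L W
  · rw [if_pos (h3.mpr h4), if_pos h4]
  · rw [if_neg (fun h => h4 (h3.mp h)), if_neg h4]

theorem cn_sh (k : ℕ) (hk : 1 ≤ k) : cn G (rp k Hᶜ H)
    ≤ ∑ Q ∈ NL (∅ : Finset V) k, pw (mH G H) Q * ls (dH G H) Q := by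
  rw [← CNH_rp_reverse k H Hᶜ, CNH_cn_reverse]
  exact cn_hs G H k hk

theorem cn_c (i j : ℕ) (hi : 1 ≤ i) (hj : 1 ≤ j) : cn G (rp i Hᶜ H ++ rp j H Hᶜ)
    ≤ ∑ P ∈ NL (∅ : Finset V) i, ∑ Q ∈ NL P.toFinset j, hd (dH G H) P * pw (mH G H) P
      * ls (fun a => hd (aj G a) Q) P * pw (mH G H) Q * ls (dH G H) Q := by
  rw [CNH_cn_append, CNH_rp_length, CNH_rp_length]
  have hd2 := CNH_double G H (fun P Q => ls (fun a => hd (aj G a) Q) P)
    (fun P Q => ls_nonneg (fun a => hd_nonneg (CNF_aj_nonneg G a) Q) P)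
    (fun P Q => by
      have : (fun a => hd (aj G a) (ev Q)) = fun a => hd (aj G a) Q := by
        funext a
        exact CNF_hd_ev _ Q
      simp only [this])
    (fun P Q => by
      simp only [ls_reverse]
      exact CNF_hd_ev _ P) i j
  refine le_trans (le_of_eq ?_) (hd2.trans (le_of_eq ?_))
  · refine Finset.sum_congr rfl fun L1 _ => Finset.sum_congr rfl fun L2 _ => ?_
    split_ifs
    · ring
    · rfl
  · refine Finset.sum_congr rfl fun P _ => Finset.sum_congr rfl fun Q _ => ?_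
    ring

end

end Pool.Agent.Lib.MP_009d13_co.OD
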