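import Pool.Agent.Lib.MP_009d13_co.OD.Defs2
import Pool.Agent.Lib.MP_009d13_co.OD.LS1

/-! # OD, module CNW: every path fits exactly one word -/

set_option autoImplicit false

namespace Pool.Agent.Lib.MP_009d13_co.OD

open Finset Classical
open Pool.Agent.Lib.MP_009d13_co.P5 (nb kk)

noncomputable section

variable {V : Type} [Fintype V] (G : SimpleGraph V) (H : Finset V)

theorem cnw_count (c : ℝ) (k : ℕ) (L : List V) (hL : L.length = 2 * k) :
    ∑ w : Fin k → Bool × Bool, (if List.Forall₂ (fun v P => v ∈ P) L
      ((List.ofFn w).flatMap fun p => [cl H p.1, cl H p.2]) then c else 0) = c := by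
  induction k generalizing L with
  | zero =>
    have : L = [] := List.length_eq_zero_iff.mp (by simpa using hL)
    subst this
    simp
  | succ k ih =>
    obtain ⟨x, y, T, rfl⟩ : ∃ x y T, L = x :: y :: T := by
      match L, hL with
      | [], h => simp at h
      | [a], h => simp at h; omega
      | x :: y :: T, _ => exact ⟨x, y, T, rfl⟩
    have hT : T.length = 2 * k := by simp at hL; omega
    rw [← (Fin.consEquiv (fun _ => Bool × Bool)).sum_comp, Fintype.sum_prod_type]
    have h1 : ∀ (p : Bool × Bool) (w : Fin k → Bool × Bool),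
        (if List.Forall₂ (fun v P => v ∈ P) (x :: y :: T)
          ((List.ofFn ((Fin.consEquiv (fun _ => Bool × Bool)) (p, w))).flatMap
            fun p => [cl H p.1, cl H p.2]) then c else 0) =
        if (x ∈ cl H p.1 ∧ y ∈ cl H p.2) then (if List.Forall₂ (fun v P => v ∈ P) T
          ((List.ofFn w).flatMap fun p => [cl H p.1, cl H p.2]) then c else 0) else 0 := by
      intro p w
      rw [List.ofFn_succ]
      simp only [Fin.consEquiv_apply, Fin.cons_zero, Fin.cons_succ, List.flatMap_cons,
        List.cons_append, List.nil_append, List.forall₂_cons]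
      rw [← ite_and]
      simp only [and_assoc]
    simp only [h1]
    have h2 : ∀ p : Bool × Bool, ∑ w : Fin k → Bool × Bool,
        (if (x ∈ cl H p.1 ∧ y ∈ cl H p.2) then (if List.Forall₂ (fun v P => v ∈ P) T
          ((List.ofFn w).flatMap fun p => [cl H p.1, cl H p.2]) then c else 0) else 0) =
        if (x ∈ cl H p.1 ∧ y ∈ cl H p.2) then c else 0 := by
      intro p
      split_ifs
      · exact ih T hT
      · simp
    simp only [h2]
    rw [Fintype.sum_prod_type]
    simp only [Fintype.sum_bool, cl]
    by_cases hx : x ∈ H <;> by_cases hy : y ∈ H <;> simp [hx, hy]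

theorem cnw_length (k : ℕ) (w : Fin k → Bool × Bool) :
    ((List.ofFn w).flatMap fun p => [cl H p.1, cl H p.2]).length = 2 * k := by
  rw [List.length_flatMap]
  simp [Function.comp_def, List.sum_ofFn, mul_comm]

theorem tk_words (k : ℕ) : Tk G (2 * k) = ∑ w : Fin k → Bool × Bool,
    cn G ((List.ofFn w).flatMap fun p => [cl H p.1, cl H p.2]) := by
  unfold Tk cn
  simp only [cnw_length]
  rw [Finset.sum_comm]
  refine Finset.sum_congr rfl fun L hL => ?_
  exact (cnw_count H (pw (aj G) L) k L (mem_NL.mp hL).1).symm

end

end Pool.Agent.Lib.MP_009d13_co.OD
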