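import Pool.Agent.Lib.MP_009d13_co.OD.Defs2
import Pool.Agent.Lib.MP_009d13_co.OD.LS1
import Pool.Agent.Lib.MP_009d13_co.OD.LS2
import Pool.Agent.Lib.MP_009d13_co.OD.LS4

/-! # OD, module CPS: `ps` in terms of lists -/

set_option autoImplicit false

namespace Pool.Agent.Lib.MP_009d13_co.OD

open Finset Classical
open Pool.Agent.Lib.MP_009d13_co.P5 (nb kk)

noncomputable section

variable {V : Type} [Fintype V] (G : SimpleGraph V) (H : Finset V)

theorem cps_mH_nonneg (a b : V) : 0 ≤ mH G H a b := by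
  unfold mH; split_ifs <;> positivity

theorem cps_dH_nonneg (a : V) : 0 ≤ dH G H a := by
  unfold dH; split_ifs <;> positivity

theorem cps_pw_nonneg (L : List V) : 0 ≤ pw (mH G H) L := pw_nonneg _ (cps_mH_nonneg G H) L

/-- A list of positive weight starts in `H`. -/
theorem cps_head {a : V} (ha : a ∉ H) (T : List V) :
    pw (mH G H) (a :: T) * ls (dH G H) (a :: T) = 0 := by
  cases T with
  | nil =>
    have : ls (dH G H) [a] = dH G H a := rfl
    rw [this]
    unfold dH
    rw [if_neg ha, mul_zero]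
  | cons b S =>
    have h1 : pw (mH G H) (a :: b :: S) = mH G H a b * pw (mH G H) (b :: S) := rfl
    have h2 : mH G H a b = 0 := by unfold mH; rw [if_neg (fun h => ha h.1)]
    rw [h1, h2, zero_mul, zero_mul]

/-- `aj` at the first hub as a sum over the hubs adjacent to `y`. -/
theorem cps_hd (y : V) {Q : List V} (hQ : Q ≠ []) :
    hd (aj G y) Q * pw (mH G H) Q * ls (dH G H) Q =
      ∑ b ∈ kk G H y, hd (fun u => if u = b then (1 : ℝ) else 0) Q * pw (mH G H) Q *
        ls (dH G H) Q := by
  cases Q with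
  | nil => exact absurd rfl hQ
  | cons a T =>
    simp only [hd]
    by_cases ha : a ∈ H
    · simp only [mul_assoc]
      rw [← Finset.sum_mul]
      congr 1
      rw [Finset.sum_ite_eq]
      unfold aj kk nb
      by_cases h : G.Adj y a <;> simp [h, ha]
    · have h0 := cps_head G H ha T
      simp only [mul_assoc, h0, mul_zero, Finset.sum_const_zero]

theorem cps_ls (x : V) {P : List V} (hP : P ≠ []) :
    hd (dH G H) P * pw (mH G H) P * ls (aj G x) P =
      ∑ a ∈ kk G H x, hd (dH G H) P * pw (mH G H) P *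
        ls (fun u => if u = a then (1 : ℝ) else 0) P := by
  have hs : ∀ a b, mH G H a b = mH G H b a := by
    intro a b
    unfold mH
    rw [Finset.inter_comm]
    by_cases h : a ∈ H ∧ b ∈ H ∧ a ≠ b
    · rw [if_pos h, if_pos ⟨h.2.1, h.1, h.2.2.symm⟩]
    · rw [if_neg h, if_neg (fun h' => h ⟨h'.2.1, h'.1, h'.2.2.symm⟩)]
  have h1 := cps_hd G H x (Q := P.reverse) (by simpa using hP)
  simp only [hd_reverse, ls_reverse, pw_reverse _ hs] at h1
  calc hd (dH G H) P * pw (mH G H) P * ls (aj G x) P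
      = ls (aj G x) P * pw (mH G H) P * hd (dH G H) P := by ring
    _ = _ := h1
    _ = _ := Finset.sum_congr rfl fun a _ => by ring

theorem cps_ne {A : Finset V} {k : ℕ} (hk : 1 ≤ k) {L : List V} (hL : L ∈ NL A k) : L ≠ [] := by
  rintro rfl
  have := (mem_NL.mp hL).1
  simp at this
  omega

theorem sum_ps (l : ℕ) (hl : 1 ≤ l) (x y : V) :
    (∑ i ∈ range (l - 1), ∑ P ∈ NL (∅ : Finset V) (i + 1), ∑ Q ∈ NL P.toFinset (l - 1 - i),
      hd (dH G H) P * pw (mH G H) P * ls (aj G x) P
        * (hd (aj G y) Q * pw (mH G H) Q * ls (dH G H) Q))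
      + (∑ Q ∈ NL (∅ : Finset V) l, hd (aj G y) Q * pw (mH G H) Q * ls (dH G H) Q)
      + (∑ P ∈ NL (∅ : Finset V) l, hd (dH G H) P * pw (mH G H) P * ls (aj G x) P)
      ≤ ps G H l x y := by
  have hs : ∀ a b, mH G H a b = mH G H b a := by
    intro a b
    unfold mH
    rw [Finset.inter_comm]
    by_cases h : a ∈ H ∧ b ∈ H ∧ a ≠ b
    · rw [if_pos h, if_pos ⟨h.2.1, h.1, h.2.2.symm⟩]
    · rw [if_neg h, if_neg (fun h' => h ⟨h'.2.1, h'.1, h'.2.2.symm⟩)]
  -- second term
  have e2 : ∑ Q ∈ NL (∅ : Finset V) l, hd (aj G y) Q * pw (mH G H) Q * ls (dH G H) Q =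
      ∑ b ∈ kk G H y, En (mH G H) (dH G H) l b := by
    unfold En
    rw [Finset.sum_comm]
    exact Finset.sum_congr rfl fun Q hQ => cps_hd G H y (cps_ne hl hQ)
  -- third term
  have e3 : ∑ P ∈ NL (∅ : Finset V) l, hd (dH G H) P * pw (mH G H) P * ls (aj G x) P =
      ∑ a ∈ kk G H x, En (mH G H) (dH G H) l a := by
    unfold En
    rw [← sum_NL_reverse, Finset.sum_comm]
    refine Finset.sum_congr rfl fun Q hQ => ?_
    rw [cps_ls G H x (P := Q.reverse) (by simpa using cps_ne hl hQ)]
    refine Finset.sum_congr rfl fun a _ => ?_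
    rw [hd_reverse, ls_reverse, pw_reverse _ hs]
    ring
  -- first term
  have e1 : ∑ i ∈ range (l - 1), ∑ P ∈ NL (∅ : Finset V) (i + 1),
      ∑ Q ∈ NL P.toFinset (l - 1 - i), hd (dH G H) P * pw (mH G H) P * ls (aj G x) P
        * (hd (aj G y) Q * pw (mH G H) Q * ls (dH G H) Q) =
      ∑ a ∈ kk G H x, ∑ b ∈ kk G H y, So (mH G H) (dH G H) l a b := by
    unfold So CC
    simp only [Finset.sum_comm (s := kk G H y)]
    simp only [Finset.sum_comm (s := kk G H x)]
    refine Finset.sum_congr rfl fun i hi => Finset.sum_congr rfl fun P hP =>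
      Finset.sum_congr rfl fun Q hQ => ?_
    have hi' := Finset.mem_range.mp hi
    have hPn : P ≠ [] := cps_ne (by omega) hP
    have hQn : Q ≠ [] := cps_ne (by omega) hQ
    rw [cps_ls G H x hPn, cps_hd G H y hQn, Finset.sum_mul_sum]
    rw [Finset.sum_comm (s := kk G H y) (t := kk G H x)]
    refine Finset.sum_congr rfl fun a _ => Finset.sum_congr rfl fun b _ => ?_
    cases Q with
    | nil => exact absurd rfl hQn
    | cons q T =>
      have e : ls (fun u => hd (fun w => if u = a ∧ w = b then (1 : ℝ) else 0) (q :: T)) P =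
          ls (fun u => if u = a then (1 : ℝ) else 0) P * (if q = b then 1 else 0) := by
        unfold ls
        cases hr : P.reverse with
        | nil => exact absurd (List.reverse_eq_nil_iff.mp hr) hPn
        | cons p S =>
          simp only [hd]
          by_cases h1 : p = a <;> by_cases h2 : q = b <;> simp [h1, h2]
      rw [e]
      simp only [hd]
      ring
  rw [e1, e2, e3]
  unfold ps
  linarith

end

end Pool.Agent.Lib.MP_009d13_co.OD
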