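import Pool.Agent.Lib.MP_009d13_co.OD.Defs
import Pool.Agent.Lib.MP_009d13_co.OD.LS1
import Pool.Agent.Lib.MP_009d13_co.OD.LS4

/-!
# Copies of a path and lists of vertices
-/

set_option autoImplicit false

namespace Pool.Agent.Lib.MP_009d13_co.OD

open Finset Classical

noncomputable section

variable {V : Type} [Fintype V] (G : SimpleGraph V)

/-- the reversal of the path -/
def cpy_revHom (k : ℕ) : SimpleGraph.pathGraph k →g SimpleGraph.pathGraph k where
  toFun := Fin.rev
  map_rel' := by
    intro a b h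
    rw [SimpleGraph.pathGraph_adj] at *
    simp only [Fin.val_rev]
    have ha := a.isLt
    have hb := b.isLt
    omega

/-- the reversal as a copy -/
def cpy_rev (k : ℕ) : SimpleGraph.Copy (SimpleGraph.pathGraph k) (SimpleGraph.pathGraph k) :=
  (cpy_revHom k).toCopy Fin.rev_injective

theorem cpy_toSubgraph {W : Type} {G : SimpleGraph W} {k : ℕ}
    (f : SimpleGraph.Copy (SimpleGraph.pathGraph k) G) :
    (f.comp (cpy_rev k)).toSubgraph = f.toSubgraph := by
  have key : ∀ g : SimpleGraph.Copy (SimpleGraph.pathGraph k) G,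
      (g.comp (cpy_rev k)).toSubgraph ≤ g.toSubgraph := by
    intro g
    refine ⟨?_, ?_⟩
    · rintro v ⟨i, -, rfl⟩
      exact ⟨Fin.rev i, trivial, rfl⟩
    · rintro v w ⟨i, j, hij, rfl, rfl⟩
      exact ⟨Fin.rev i, Fin.rev j, (cpy_revHom k).map_adj hij, rfl, rfl⟩
  apply le_antisymm (key f)
  have h2 := key (f.comp (cpy_rev k))
  have h3 : (f.comp (cpy_rev k)).comp (cpy_rev k) = f := by
    ext a
    show f (Fin.rev (Fin.rev a)) = f a
    rw [Fin.rev_rev]
  rwa [h3] at h2

theorem cpy_pw : ∀ (k : ℕ) (f : Fin k → V),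
    (∀ i j : Fin k, i.val + 1 = j.val → G.Adj (f i) (f j)) → pw (aj G) (List.ofFn f) = 1
  | 0, f, _ => by simp [pw]
  | 1, f, _ => by simp [pw]
  | k + 2, f, h => by
    have ih := cpy_pw (k + 1) (fun i => f i.succ) (fun i j hij => h _ _ (by
      simp only [Fin.val_succ]; omega))
    rw [List.ofFn_succ] at ih
    rw [List.ofFn_succ, List.ofFn_succ]
    change aj G (f 0) (f (Fin.succ 0)) * pw (aj G) _ = 1
    rw [ih, mul_one]
    unfold aj
    rw [if_pos (h _ _ (by simp))]

theorem copy_le (k : ℕ) (hk : 2 ≤ k) :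
    2 * (G.copyCount (SimpleGraph.pathGraph k) : ℝ) ≤ Tk G k := by
  have h1 : 2 * G.copyCount (SimpleGraph.pathGraph k) ≤
      (Finset.univ : Finset (SimpleGraph.Copy (SimpleGraph.pathGraph k) G)).card := by
    rw [SimpleGraph.copyCount_eq_card_image_copyToSubgraph]
    refine Finset.mul_card_image_le_card _ 2 ?_
    intro G' hG'
    rw [Finset.mem_image] at hG'
    obtain ⟨f, -, rfl⟩ := hG'
    have hne : f ≠ f.comp (cpy_rev k) := by
      intro h
      have h0 : f ⟨0, by omega⟩ = f (Fin.rev ⟨0, by omega⟩) :=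
        DFunLike.congr_fun h (⟨0, by omega⟩ : Fin k)
      have h2 := congrArg Fin.val (f.injective h0)
      simp only [Fin.val_rev] at h2
      omega
    rw [← Finset.card_pair hne]
    apply Finset.card_le_card
    intro g hg
    rw [Finset.mem_insert, Finset.mem_singleton] at hg
    rw [Finset.mem_filter]
    refine ⟨Finset.mem_univ _, ?_⟩
    rcases hg with rfl | rfl
    · rfl
    · exact cpy_toSubgraph f
  have hadj : ∀ (f : SimpleGraph.Copy (SimpleGraph.pathGraph k) G) (i j : Fin k),
      i.val + 1 = j.val → G.Adj (f i) (f j) := by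
    intro f i j hij
    exact f.toHom.map_adj (SimpleGraph.pathGraph_adj.mpr (Or.inl hij))
  have hinj : Function.Injective (fun f : SimpleGraph.Copy (SimpleGraph.pathGraph k) G =>
      List.ofFn (fun i : Fin k => f i)) := by
    intro f g h
    have h2 := List.ofFn_injective h
    ext a
    exact congrFun h2 a
  have h2 : ((Finset.univ : Finset (SimpleGraph.Copy (SimpleGraph.pathGraph k) G)).card : ℝ) ≤
      Tk G k := by
    unfold Tk
    have himg : (Finset.univ : Finset (SimpleGraph.Copy (SimpleGraph.pathGraph k) G)).image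
        (fun f => List.ofFn (fun i : Fin k => f i)) ⊆ NL (∅ : Finset V) k := by
      intro L hL
      rw [Finset.mem_image] at hL
      obtain ⟨f, -, rfl⟩ := hL
      rw [mem_NL]
      refine ⟨List.length_ofFn, ?_, fun x _ => Finset.notMem_empty x⟩
      rw [List.nodup_ofFn]
      exact f.injective
    calc ((Finset.univ : Finset (SimpleGraph.Copy (SimpleGraph.pathGraph k) G)).card : ℝ)
        = ∑ f : SimpleGraph.Copy (SimpleGraph.pathGraph k) G,
            pw (aj G) (List.ofFn (fun i : Fin k => f i)) := by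
          rw [Finset.sum_congr rfl (fun f _ => cpy_pw G k (fun i => f i) (hadj f))]
          simp
      _ = ∑ L ∈ (Finset.univ : Finset (SimpleGraph.Copy (SimpleGraph.pathGraph k) G)).image
            (fun f => List.ofFn (fun i : Fin k => f i)), pw (aj G) L := by
          rw [Finset.sum_image (fun a _ b _ h => hinj h)]
      _ ≤ ∑ L ∈ NL (∅ : Finset V) k, pw (aj G) L := by
          refine Finset.sum_le_sum_of_subset_of_nonneg himg (fun L _ _ => ?_)
          refine pw_nonneg _ (fun a b => ?_) L
          unfold aj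
          split_ifs <;> norm_num
  calc 2 * (G.copyCount (SimpleGraph.pathGraph k) : ℝ) =
      ((2 * G.copyCount (SimpleGraph.pathGraph k) : ℕ) : ℝ) := by push_cast; ring
    _ ≤ ((Finset.univ : Finset (SimpleGraph.Copy (SimpleGraph.pathGraph k) G)).card : ℝ) := by
        exact_mod_cast h1
    _ ≤ _ := h2

end

end Pool.Agent.Lib.MP_009d13_co.OD
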