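import Mathlib

/-!
# Odd paths in planar graphs: the limit functional

Definitions for the campaign OD: the number of paths with `2 l + 1` edges in a planar graph for all
large `l`. Hubs are the elements of a finite type `V`, `μ a b` is the mass of the class of low
vertices adjacent to the hubs `a` and `b`.
-/

set_option autoImplicit false

namespace Pool.Agent.Lib.MP_009d13_co.OD

open Finset Classical

noncomputable section

variable {V : Type} [Fintype V]

/-! ### Lists without repetition -/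

/-- Lists of length `k` without repetition whose entries avoid `A`. -/
def NL : Finset V → ℕ → Finset (List V)
  | _, 0 => {[]}
  | A, k + 1 => Aᶜ.biUnion fun a => (NL (insert a A) k).image (List.cons a)

/-- Product of the weights of the consecutive pairs of a list. -/
def pw (μ : V → V → ℝ) : List V → ℝ
  | [] => 1
  | [_] => 1
  | a :: b :: t => μ a b * pw μ (b :: t)

/-- The value of `g` at the first entry. -/
def hd (g : V → ℝ) : List V → ℝ
  | [] => 1
  | a :: _ => g a

/-- The value of `g` at the last entry. -/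
def ls (g : V → ℝ) (L : List V) : ℝ := hd g L.reverse

/-- The value of `g` at the last entry, together with the set of the earlier entries and `A`. -/
def en (g : Finset V → V → ℝ) : Finset V → List V → ℝ
  | _, [] => 1
  | A, [a] => g A a
  | A, a :: b :: t => en g (insert a A) (b :: t)

/-! ### Weights -/

/-- A symmetric weight on the pairs of hubs. -/
structure Wt (μ : V → V → ℝ) : Prop where
  symm : ∀ a b, μ a b = μ b a
  diag : ∀ a, μ a a = 0
  nonneg : ∀ a b, 0 ≤ μ a b

/-- The adjacency of hubs: symmetric, between `0` and `1`, every set `S` spans at most `3 |S|`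
edges. -/
structure Sp (e : V → V → ℝ) : Prop where
  symm : ∀ a b, e a b = e b a
  diag : ∀ a, e a a = 0
  nonneg : ∀ a b, 0 ≤ e a b
  le_one : ∀ a b, e a b ≤ 1
  sparse : ∀ S : Finset V, ∑ a ∈ S, ∑ b ∈ S, e a b ≤ 6 * (S.card : ℝ)

/-- Degree (total mass of the classes at `v`). -/
def dg (μ : V → V → ℝ) (v : V) : ℝ := ∑ b, μ v b

/-- Mass of the classes between `v` and hubs outside `A`. -/
def un (μ : V → V → ℝ) (A : Finset V) (v : V) : ℝ := ∑ b ∈ Aᶜ, μ v b

/-- Mass of the classes that do not touch `A`. -/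
def ms (μ : V → V → ℝ) (A : Finset V) : ℝ := (∑ a ∈ Aᶜ, ∑ b ∈ Aᶜ, μ a b) / 2

/-! ### Transfer operators on functions of a state (visited set `A`, current hub `v`) -/

/-- A weighted step: from `v` to a new hub `b`. -/
def TW (w : Finset V → V → V → ℝ) (g : Finset V → V → ℝ) (A : Finset V) (v : V) : ℝ :=
  ∑ b ∈ (insert v A)ᶜ, w A v b * g (insert v A) b

/-- One more step of a path. -/
def Pp (μ : V → V → ℝ) (g : Finset V → V → ℝ) (A : Finset V) (v : V) : ℝ :=
  ∑ b ∈ (insert v A)ᶜ, μ v b * g (insert v A) b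

/-- The normalised step. -/
def Op (μ : V → V → ℝ) (g : Finset V → V → ℝ) (A : Finset V) (v : V) : ℝ :=
  Real.exp (1 - un μ A v) * Pp μ g A v

/-- The natural (random) step from a strong tip. -/
def Xw (μ : V → V → ℝ) (g : Finset V → V → ℝ) (A : Finset V) (v : V) : ℝ :=
  (if 1 / 2 ≤ un μ A v then (un μ A v)⁻¹ else 0) * Pp μ g A v

/-- The natural step weighted by `x exp (1 - x)`, `x` the unseen mass of the new hub. -/
def Nf (μ : V → V → ℝ) (g : Finset V → V → ℝ) (A : Finset V) (v : V) : ℝ :=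
  ∑ b ∈ (insert v A)ᶜ, μ v b / un μ A v *
    (un μ (insert v A) b * Real.exp (1 - un μ (insert v A) b)) * g (insert v A) b

/-! ### The functional -/

/-- Paths with `l` hubs (both orientations). -/
def Wo (μ : V → V → ℝ) (d : V → ℝ) (l : ℕ) : ℝ :=
  ∑ L ∈ NL (∅ : Finset V) l, hd d L * pw μ L * ls d L

/-- Paths with `l + 1` hubs starting with a hub. -/
def Ao (μ : V → V → ℝ) (d : V → ℝ) (l : ℕ) : ℝ :=
  ∑ L ∈ NL (∅ : Finset V) (l + 1), pw μ L * ls d L

/-- Two disjoint paths with `N` hubs in total, joined by `e`. -/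
def CC (μ : V → V → ℝ) (χ : V → ℝ) (e : V → V → ℝ) (ψ : V → ℝ) (N : ℕ) : ℝ :=
  ∑ i ∈ range (N - 1), ∑ P ∈ NL (∅ : Finset V) (i + 1), ∑ Q ∈ NL P.toFinset (N - 1 - i),
    hd χ P * pw μ P * ls (fun a => hd (e a) Q) P * pw μ Q * ls ψ Q

/-- The functional with free degrees. -/
def Fd (μ : V → V → ℝ) (d : V → ℝ) (e : V → V → ℝ) (l : ℕ) : ℝ :=
  2 * (l + 1) * Wo μ d l + 2 * Ao μ d l + CC μ d e d (l + 1)

/-- The functional without private classes. -/
def Fo (μ : V → V → ℝ) (e : V → V → ℝ) (l : ℕ) : ℝ := Fd μ (dg μ) e l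

/-- Paths with `l` hubs whose first hub is `a`, the class at `a` left out. -/
def En (μ : V → V → ℝ) (d : V → ℝ) (l : ℕ) (a : V) : ℝ :=
  ∑ L ∈ NL (∅ : Finset V) l, hd (fun u => if u = a then 1 else 0) L * pw μ L * ls d L

/-- Paths with `l` hubs in which the class between `a` and `b` is left out. -/
def So (μ : V → V → ℝ) (d : V → ℝ) (l : ℕ) (a b : V) : ℝ :=
  CC μ d (fun u w => if u = a ∧ w = b then 1 else 0) d l

/-- Weight of a low vertex whose only hub is `a`. -/
def gm (μ : V → V → ℝ) (d : V → ℝ) (l : ℕ) (a : V) : ℝ :=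
  ⨆ b : V, if b = a then 0 else So μ d l a b + En μ d l a + En μ d l b

/-- Weight of a low vertex without hubs. -/
def em (μ : V → V → ℝ) (d : V → ℝ) (l : ℕ) : ℝ :=
  ⨆ p : V × V, if p.1 = p.2 then 0 else En μ d l p.1 + En μ d l p.2

/-- Degrees with private classes. -/
def dn (μ : V → V → ℝ) (ν : V → ℝ) (a : V) : ℝ := dg μ a + ν a

/-- The functional with private classes `ν a` and a class `ρ` without hubs. -/
def FG (μ : V → V → ℝ) (ν : V → ℝ) (ρ : ℝ) (e : V → V → ℝ) (l : ℕ) : ℝ :=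
  Fd μ (dn μ ν) e l + 4 * ∑ a, ν a * gm μ (dn μ ν) l a + 6 * (ρ * em μ (dn μ ν) l)

/-! ### Distance from a balanced ring -/

/-- Distance of the classes along the cyclic sequence `h` from `1`. -/
def rs (l : ℕ) (μ : V → V → ℝ) (h : Fin l ↪ V) : ℝ :=
  ∑ j, |μ (h j) (h (finRotate l j)) - 1|

/-- Distance from a balanced ring (zero if there are less than `l` hubs). -/
def ze (l : ℕ) (μ : V → V → ℝ) : ℝ := ⨅ h : Fin l ↪ V, rs l μ h

/-! ### The potential -/

/-- Tent function. -/
def kap (x : ℝ) : ℝ := max 0 (min x (18 / 5 - 3 * x))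

/-- `x - 1 - log x`, cut off at `1`. -/
def phit (x : ℝ) : ℝ := if x ≤ 0 then 1 else min 1 (x - 1 - Real.log x)

/-- The potential; `rho = 9 / 10000`, `theta = 9 / 50000`. -/
def EE (μ : V → V → ℝ) (A : Finset V) (v : V) : ℝ :=
  Real.exp (-(9 / 50000 * (9 / 10000 * (∑ z ∈ (insert v A)ᶜ, kap (un μ A z)) + phit (un μ A v))))

/-- `x ↦ 2 (1 - x)` on `[1/2, 1]`, zero elsewhere. -/
def aa (x : ℝ) : ℝ := if 1 / 2 ≤ x then 2 * max 0 (1 - x) else 0

/-- A normalised step marked by the mass that is not chosen. -/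
def K1 (μ : V → V → ℝ) (A : Finset V) (v : V) : ℝ :=
  Real.exp (1 - un μ A v) * ∑ b ∈ (insert v A)ᶜ, μ v b *
    ((un μ A v - μ v b) * EE μ (insert v A) b)

/-! ### Decomposition of the second path by a natural walk from the tip of the first path -/

/-- Second paths with `j` hubs outside `A` and `x`, first hub weighted by `t`. -/
def JJ (μ : V → V → ℝ) (t : V → ℝ) (j : ℕ) (A : Finset V) (x : V) : ℝ :=
  ∑ Q ∈ NL (insert x A) j, hd t Q * pw μ Q

/-- The walk hits the second path in its first hub `b`. -/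
def Hd (μ : V → V → ℝ) (t : V → ℝ) (j : ℕ) (A : Finset V) (b : V) : ℝ :=
  t b * (Pp μ)^[j - 1] (fun _ _ => 1) A b

/-- The walk hits the second path in its last hub `b`. -/
def Ls (μ : V → V → ℝ) (t : V → ℝ) (j : ℕ) (A : Finset V) (b : V) : ℝ :=
  if 2 ≤ j then (Pp μ)^[j - 1] (fun _ u => t u) A b else 0

/-- The walk hits the second path in an inner hub `b`. -/
def In (μ : V → V → ℝ) (t : V → ℝ) (j : ℕ) (A : Finset V) (b : V) : ℝ :=
  ∑ i ∈ Ico 1 (j - 1), ∑ Q ∈ NL (insert b A) i,
    ∑ R ∈ NL (insert b A ∪ Q.toFinset) (j - 1 - i), hd t Q * pw μ (Q ++ b :: R)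

/-- The tip is weak. -/
def wJ (μ : V → V → ℝ) (t : V → ℝ) (j : ℕ) (A : Finset V) (x : V) : ℝ :=
  if un μ A x < 1 / 2 then JJ μ t j A x else 0

/-! ### Changes of a weight -/

/-- All classes at `z` are multiplied by `c`. -/
def sc (μ : V → V → ℝ) (z : V) (c : ℝ) (a b : V) : ℝ :=
  if a = z ∨ b = z then c * μ a b else μ a b

/-- Mass `η` is added to the class between `x` and `y`. -/
def ad (μ : V → V → ℝ) (x y : V) (η : ℝ) (a b : V) : ℝ :=
  μ a b + if (a = x ∧ b = y) ∨ (a = y ∧ b = x) then η else 0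

/-- Structures using `z` exactly once (upper bound). -/
def Xz (μ : V → V → ℝ) (e : V → V → ℝ) (l : ℕ) (z : V) : ℝ :=
  4 * (l + 1) * (∑ L ∈ NL (∅ : Finset V) l, hd (μ z) L * pw μ L * ls (dg μ) L)
    + 2 * (∑ L ∈ NL (∅ : Finset V) (l + 1),
        hd (fun u => if u = z then 1 else 0) L * pw μ L * ls (dg μ) L)
    + 2 * (∑ L ∈ NL (∅ : Finset V) (l + 1), pw μ L * ls (μ z) L)
    + 2 * CC μ (dg μ) (fun a b => if b = z then e a b else 0) (dg μ) (l + 1)
    + 2 * CC μ (μ z) e (dg μ) (l + 1)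

/-- `μ` maximises the functional plus penalty among the weights of mass `l`. -/
def Mx (μ : V → V → ℝ) (e : V → V → ℝ) (l : ℕ) (lam δ : ℝ) : Prop :=
  Wt μ ∧ ms μ ∅ = l ∧ ∀ μ' : V → V → ℝ, Wt μ' → ms μ' ∅ = l →
    Fo μ' e l + lam * max 0 (ze l μ' - δ) ≤ Fo μ e l + lam * max 0 (ze l μ - δ)

/-! ### Graphs -/

variable (G : SimpleGraph V)

/-- Adjacency as a real number. -/
def aj (a b : V) : ℝ := if G.Adj a b then 1 else 0

/-- Number of paths with `k` vertices (both orientations). -/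
def Tk (k : ℕ) : ℝ := ∑ L ∈ NL (∅ : Finset V) k, pw (aj G) L

end

end Pool.Agent.Lib.MP_009d13_co.OD
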