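import Pool.Agent.Lib.MP_009d13_co.OD.Defs
import Pool.Agent.Lib.MP_009d13_co.P5.Defs

/-!
# Odd paths in planar graphs: definitions for the passage from a graph to the functional
-/

set_option autoImplicit false

namespace Pool.Agent.Lib.MP_009d13_co.OD

open Finset Classical
open Pool.Agent.Lib.MP_009d13_co.P5 (nb kk)

noncomputable section

variable {V : Type} [Fintype V] (G : SimpleGraph V) (H : Finset V)

/-- Number of paths whose `i`-th vertex lies in the `i`-th set. -/
def cn (Ps : List (Finset V)) : ℝ :=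
  ∑ L ∈ NL (∅ : Finset V) Ps.length,
    if List.Forall₂ (fun v P => v ∈ P) L Ps then pw (aj G) L else 0

/-- `H` or its complement. -/
def cl (b : Bool) : Finset V := if b then H else Hᶜ

/-- The word `X Y X Y ... X Y` with `k` pairs. -/
def rp (k : ℕ) (X Y : Finset V) : List (Finset V) := (List.replicate k [X, Y]).flatten

/-- Number of common low neighbours of two hubs. -/
def mH (a b : V) : ℝ :=
  if a ∈ H ∧ b ∈ H ∧ a ≠ b then (((nb G a ∩ nb G b) \ H).card : ℝ) else 0

/-- Number of low neighbours of a hub. -/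
def dH (a : V) : ℝ := if a ∈ H then ((nb G a \ H).card : ℝ) else 0

/-- Number of structures through an edge `x y` between low vertices. -/
def ps (l : ℕ) (x y : V) : ℝ :=
  (∑ a ∈ kk G H x, ∑ b ∈ kk G H y, So (mH G H) (dH G H) l a b)
    + (∑ a ∈ kk G H x, En (mH G H) (dH G H) l a) + ∑ b ∈ kk G H y, En (mH G H) (dH G H) l b

/-- Weight of a low vertex. -/
def ff (l : ℕ) (z : V) : ℝ :=
  if (kk G H z).card = 0 then em (mH G H) (dH G H) l
  else if (kk G H z).card = 1 then
    ∑ a ∈ kk G H z, (En (mH G H) (dH G H) l a + gm (mH G H) (dH G H) l a)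
  else (∑ a ∈ kk G H z, ∑ b ∈ kk G H z, So (mH G H) (dH G H) l a b)
    + 2 * ∑ a ∈ kk G H z, En (mH G H) (dH G H) l a

/-- Sum of the products of the degrees over the edges between low vertices. -/
def x4 : ℝ := ∑ p ∈ P5.pr G Hᶜ Hᶜ, ((nb G p.1).card : ℝ) * ((nb G p.2).card : ℝ)

/-- The entries at even positions. -/
def ev : List V → List V
  | [] => []
  | [a] => [a]
  | a :: _ :: t => a :: ev t

/-- Exact classes of the graph, increased by `κ`. -/
def muG (κ : ℝ) (a b : V) : ℝ :=
  if a ∈ H ∧ b ∈ H ∧ a ≠ b then (P5.n2 G H a b : ℝ) + κ else 0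

/-- Exact private classes, increased by `κ`. -/
def nuG (κ : ℝ) (a : V) : ℝ := if a ∈ H then (P5.n1 G H a : ℝ) + κ else 0

/-! ### Near a ring -/

variable {l : ℕ} (h : Fin l ↪ V)

/-- The hubs of the ring. -/
def Hr : Finset V := univ.map h

/-- Low vertices whose hubs are exactly `h j` and its successor. -/
def Yj (j : Fin l) : Finset V :=
  univ.filter fun z => z ∉ Hr h ∧ kk G (Hr h) z = {h j, h (finRotate l j)}

/-- The other low vertices. -/
def Or : Finset V :=
  univ.filter fun z => z ∉ Hr h ∧ ∀ j, kk G (Hr h) z ≠ {h j, h (finRotate l j)}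

/-- Mass of the classes between `h i` and the hubs that are not its neighbours on the ring. -/
def ch (μ : V → V → ℝ) (i : Fin l) : ℝ :=
  ∑ j ∈ univ.filter (fun j => j ≠ i ∧ j ≠ finRotate l i ∧ i ≠ finRotate l j), μ (h i) (h j)

end

end Pool.Agent.Lib.MP_009d13_co.OD
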