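import Pool.Agent.Lib.MP_009d13_co.OD.BR

/-! # OD, module EI: identities for the functional -/

set_option autoImplicit false

namespace Pool.Agent.Lib.MP_009d13_co.OD

open Finset Classical

noncomputable section

variable {V : Type} [Fintype V]

theorem EI_snoc {P : List V} (hP : P ≠ []) : ∃ P' x, P = P' ++ [x] :=
  ⟨P.dropLast, P.getLast hP, (List.dropLast_append_getLast hP).symm⟩

theorem EI_cons {Q : List V} (hQ : Q ≠ []) : ∃ y Q', Q = y :: Q' :=
  List.exists_cons_of_ne_nil hQ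

theorem EI_len {A : Finset V} {k : ℕ} {L : List V} (h : L ∈ NL A k) : L.length = k :=
  (mem_NL.1 h).1

theorem EI_ne {A : Finset V} {k : ℕ} {L : List V} (h : L ∈ NL A k) (hk : 1 ≤ k) : L ≠ [] := by
  have h1 := EI_len h
  rintro rfl
  simp at h1
  omega

/-- the indicator of a pair -/
def EIk (a b : V) : V → V → ℝ := fun u w => if u = a ∧ w = b then 1 else 0

theorem EI_So (μ : V → V → ℝ) (d : V → ℝ) (l : ℕ) (a b : V) :
    So μ d l a b = CC μ d (EIk a b) d l := rfl

theorem EI_ind2 (e : V → V → ℝ) (x y : V) :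
    ∑ a, ∑ b, e a b * EIk a b x y = e x y := by
  rw [Finset.sum_eq_single x, Finset.sum_eq_single y]
  · simp [EIk]
  · intro b _ hb
    simp [EIk, hb.symm]
  · intro h
    exact absurd (mem_univ _) h
  · intro a _ ha
    apply Finset.sum_eq_zero
    intro b _
    simp [EIk, ha.symm]
  · intro h
    exact absurd (mem_univ _) h

/-- the jump factor is linear -/
theorem EI_jump (e : V → V → ℝ) {P Q : List V} (hP : P ≠ []) (hQ : Q ≠ []) :
    ls (fun u => hd (e u) Q) P = ∑ a, ∑ b, e a b * ls (fun u => hd (EIk a b u) Q) P := by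
  obtain ⟨P', x, rfl⟩ := EI_snoc hP
  obtain ⟨y, Q', rfl⟩ := EI_cons hQ
  simp only [ls_snoc]
  exact (EI_ind2 e x y).symm

theorem EI_comm {ι : Type} (s : Finset ι) (N : ℕ) (T : ι → ℕ → List V → List V → ℝ) :
    ∑ i ∈ range (N - 1), ∑ P ∈ NL (∅ : Finset V) (i + 1), ∑ Q ∈ NL P.toFinset (N - 1 - i),
      ∑ p ∈ s, T p i P Q =
    ∑ p ∈ s, ∑ i ∈ range (N - 1), ∑ P ∈ NL (∅ : Finset V) (i + 1),
      ∑ Q ∈ NL P.toFinset (N - 1 - i), T p i P Q := by
  rw [Finset.sum_comm (s := s)]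
  refine Finset.sum_congr rfl fun i _ => ?_
  rw [Finset.sum_comm (s := s)]
  refine Finset.sum_congr rfl fun P _ => ?_
  rw [Finset.sum_comm]

theorem EI_cc (μ : V → V → ℝ) (χ ψ : V → ℝ) (e : V → V → ℝ) (N : ℕ) :
    CC μ χ e ψ N = ∑ a, ∑ b, e a b * CC μ χ (EIk a b) ψ N := by
  have h1 : ∑ a, ∑ b, e a b * CC μ χ (EIk a b) ψ N =
      ∑ p : V × V, e p.1 p.2 * CC μ χ (EIk p.1 p.2) ψ N := by
    rw [Fintype.sum_prod_type]
  rw [h1]
  have h2 : ∀ p : V × V, e p.1 p.2 * CC μ χ (EIk p.1 p.2) ψ N =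
      ∑ i ∈ range (N - 1), ∑ P ∈ NL (∅ : Finset V) (i + 1), ∑ Q ∈ NL P.toFinset (N - 1 - i),
        e p.1 p.2 * (hd χ P * pw μ P * ls (fun u => hd (EIk p.1 p.2 u) Q) P * pw μ Q * ls ψ Q) := by
    intro p
    rw [CC, Finset.mul_sum]
    refine Finset.sum_congr rfl fun i _ => ?_
    rw [Finset.mul_sum]
    refine Finset.sum_congr rfl fun P _ => ?_
    rw [Finset.mul_sum]
  rw [Finset.sum_congr rfl fun p _ => h2 p, ← EI_comm univ N (fun (p : V × V) _ P Q =>
    e p.1 p.2 * (hd χ P * pw μ P * ls (fun u => hd (EIk p.1 p.2 u) Q) P * pw μ Q * ls ψ Q)), CC]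
  refine Finset.sum_congr rfl fun i hi => Finset.sum_congr rfl fun P hP =>
    Finset.sum_congr rfl fun Q hQ => ?_
  rw [mem_range] at hi
  rw [EI_jump e (EI_ne hP (by omega)) (EI_ne hQ (by omega)), Fintype.sum_prod_type]
  rw [Finset.mul_sum, Finset.sum_mul, Finset.sum_mul]
  refine Finset.sum_congr rfl fun a _ => ?_
  rw [Finset.mul_sum, Finset.sum_mul, Finset.sum_mul]
  refine Finset.sum_congr rfl fun b _ => ?_
  ring

theorem EI_app (μ : V → V → ℝ) (χ ψ : V → ℝ) {P Q : List V} (hP : P ≠ []) (hQ : Q ≠ []) :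
    hd χ (P ++ Q) * pw μ (P ++ Q) * ls ψ (P ++ Q) =
      hd χ P * pw μ P * ls (fun u => hd (μ u) Q) P * pw μ Q * ls ψ Q := by
  rw [hd_append χ hP, ls_append ψ P hQ]
  obtain ⟨P', x, rfl⟩ := EI_snoc hP
  obtain ⟨y, Q', rfl⟩ := EI_cons hQ
  have h1 : (P' ++ [x]) ++ (y :: Q') = P' ++ x :: y :: Q' := by simp
  rw [h1, pw_append_two, ls_snoc]
  have h2 : hd (μ x) (y :: Q') = μ x y := rfl
  rw [h2]
  ring

theorem EI_split (A : Finset V) {l i : ℕ} (hi : i < l - 1) (f : List V → ℝ) :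
    ∑ L ∈ NL A l, f L =
      ∑ P ∈ NL A (i + 1), ∑ Q ∈ NL (A ∪ P.toFinset) (l - 1 - i), f (P ++ Q) := by
  have h := sum_NL_append A (i + 1) (l - 1 - i) f
  have hidx : (i + 1) + (l - 1 - i) = l := by omega
  rw [hidx] at h
  exact h

theorem EI_cc_wo (μ : V → V → ℝ) (d : V → ℝ) {l : ℕ} (hl : 1 ≤ l) :
    CC μ d μ d l = (l - 1) * Wo μ d l := by
  have h1 : ∀ i ∈ range (l - 1), ∑ P ∈ NL (∅ : Finset V) (i + 1),
      ∑ Q ∈ NL P.toFinset (l - 1 - i),
        hd d P * pw μ P * ls (fun u => hd (μ u) Q) P * pw μ Q * ls d Q = Wo μ d l := by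
    intro i hi
    rw [mem_range] at hi
    rw [Wo, EI_split ∅ hi]
    refine Finset.sum_congr rfl fun P hP => ?_
    rw [Finset.empty_union]
    refine Finset.sum_congr rfl fun Q hQ => ?_
    rw [EI_app μ d d (EI_ne hP (by omega)) (EI_ne hQ (by omega))]
  rw [CC, Finset.sum_congr rfl h1, Finset.sum_const, card_range, nsmul_eq_mul]
  congr 1
  rw [Nat.cast_sub hl, Nat.cast_one]

theorem sum_so {μ : V → V → ℝ} (_h : Wt μ) (d : V → ℝ) {l : ℕ} (hl : 1 ≤ l) :
    ∑ a, ∑ b, μ a b * So μ d l a b = (l - 1) * Wo μ d l := by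
  rw [← EI_cc_wo μ d hl, EI_cc μ d d μ l]
  rfl

theorem EI_ind1 (g : V → ℝ) (y : V) : ∑ a, g a * (if y = a then 1 else 0) = g y := by
  simp

theorem EI_en (μ : V → V → ℝ) (g ψ : V → ℝ) {l : ℕ} (hl : 1 ≤ l) :
    ∑ a, g a * En μ ψ l a = ∑ L ∈ NL (∅ : Finset V) l, hd g L * pw μ L * ls ψ L := by
  have h1 : ∀ a, g a * En μ ψ l a = ∑ L ∈ NL (∅ : Finset V) l,
      g a * (hd (fun u => if u = a then 1 else 0) L * pw μ L * ls ψ L) := by
    intro a
    rw [En, Finset.mul_sum]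
  rw [Finset.sum_congr rfl fun a _ => h1 a, Finset.sum_comm]
  refine Finset.sum_congr rfl fun L hL => ?_
  obtain ⟨y, L', rfl⟩ := EI_cons (EI_ne hL hl)
  have h2 : ∀ a : V, hd (fun u => if u = a then (1 : ℝ) else 0) (y :: L') =
      if y = a then 1 else 0 := fun a => rfl
  have h3 : hd g (y :: L') = g y := rfl
  rw [h3, ← EI_ind1 g y, Finset.sum_mul, Finset.sum_mul]
  refine Finset.sum_congr rfl fun a _ => ?_
  rw [h2]
  ring

theorem sum_en {μ : V → V → ℝ} (d : V → ℝ) {l : ℕ} (hl : 1 ≤ l) :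
    ∑ a, d a * En μ d l a = Wo μ d l := EI_en μ d d hl

theorem fg_identity {μ : V → V → ℝ} (h : Wt μ) (ν : V → ℝ) {l : ℕ} (hl : 1 ≤ l) :
    ∑ a, ∑ b, μ a b * (2 * So μ (dn μ ν) l a b + 2 * En μ (dn μ ν) l a + 2 * En μ (dn μ ν) l b)
      + 4 * ∑ a, ν a * En μ (dn μ ν) l a = 2 * (l + 1) * Wo μ (dn μ ν) l := by
  set d := dn μ ν with hd
  have h1 := sum_so h d hl
  have h2 := sum_en (μ := μ) d hl
  have h3 : ∑ a, ∑ b, μ a b * (2 * So μ d l a b + 2 * En μ d l a + 2 * En μ d l b) =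
      2 * (∑ a, ∑ b, μ a b * So μ d l a b) + 2 * (∑ a, dg μ a * En μ d l a) +
        2 * ∑ b, dg μ b * En μ d l b := by
    have h4 : ∑ a, ∑ b, μ a b * En μ d l b = ∑ b, dg μ b * En μ d l b := by
      rw [Finset.sum_comm]
      refine Finset.sum_congr rfl fun b _ => ?_
      rw [dg, Finset.sum_mul]
      refine Finset.sum_congr rfl fun a _ => ?_
      rw [h.symm]
    have h5 : ∑ a, ∑ b, μ a b * En μ d l a = ∑ a, dg μ a * En μ d l a := by
      refine Finset.sum_congr rfl fun a _ => ?_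
      rw [dg, Finset.sum_mul]
    have h6 : ∑ a, ∑ b, μ a b * (2 * So μ d l a b + 2 * En μ d l a + 2 * En μ d l b) =
        2 * (∑ a, ∑ b, μ a b * So μ d l a b) + 2 * (∑ a, ∑ b, μ a b * En μ d l a) +
        2 * ∑ a, ∑ b, μ a b * En μ d l b := by
      rw [Finset.mul_sum, Finset.mul_sum, Finset.mul_sum, ← Finset.sum_add_distrib,
        ← Finset.sum_add_distrib]
      refine Finset.sum_congr rfl fun a _ => ?_
      rw [Finset.mul_sum, Finset.mul_sum, Finset.mul_sum, ← Finset.sum_add_distrib,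
        ← Finset.sum_add_distrib]
      refine Finset.sum_congr rfl fun b _ => ?_
      ring
    rw [h6, h5, h4]
  have h6 : ∑ a, d a * En μ d l a = (∑ a, dg μ a * En μ d l a) + ∑ a, ν a * En μ d l a := by
    rw [← Finset.sum_add_distrib]
    refine Finset.sum_congr rfl fun a _ => ?_
    rw [hd, dn]
    ring
  rw [h3, h1]
  linarith

/-! ### Scaling -/

theorem EI_hd_smul (c : ℝ) (g : V → ℝ) {L : List V} (hL : L ≠ []) :
    hd (fun a => c * g a) L = c * hd g L := by
  obtain ⟨y, L', rfl⟩ := EI_cons hL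
  rfl

theorem EI_ls_smul (c : ℝ) (g : V → ℝ) {L : List V} (hL : L ≠ []) :
    ls (fun a => c * g a) L = c * ls g L := by
  obtain ⟨L', y, rfl⟩ := EI_snoc hL
  rw [ls_snoc, ls_snoc]

theorem EI_wo_smul (μ : V → V → ℝ) (d : V → ℝ) (c : ℝ) {l : ℕ} (hl : 1 ≤ l) :
    Wo (fun a b => c * μ a b) (fun a => c * d a) l = c ^ (l + 1) * Wo μ d l := by
  rw [Wo, Wo, Finset.mul_sum]
  refine Finset.sum_congr rfl fun L hL => ?_
  have hne := EI_ne hL hl
  rw [EI_hd_smul c d hne, EI_ls_smul c d hne, pw_smul, EI_len hL]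
  obtain ⟨m, rfl⟩ : ∃ m, l = m + 1 := ⟨l - 1, by omega⟩
  rw [Nat.add_sub_cancel]
  ring

theorem EI_ao_smul (μ : V → V → ℝ) (d : V → ℝ) (c : ℝ) (l : ℕ) :
    Ao (fun a b => c * μ a b) (fun a => c * d a) l = c ^ (l + 1) * Ao μ d l := by
  rw [Ao, Ao, Finset.mul_sum]
  refine Finset.sum_congr rfl fun L hL => ?_
  have hne := EI_ne hL (by omega)
  rw [EI_ls_smul c d hne, pw_smul, EI_len hL, Nat.add_sub_cancel]
  ring

theorem EI_cc_smul (μ : V → V → ℝ) (d : V → ℝ) (e : V → V → ℝ) (c : ℝ) (N : ℕ) :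
    CC (fun a b => c * μ a b) (fun a => c * d a) e (fun a => c * d a) N =
      c ^ N * CC μ d e d N := by
  rw [CC, CC, Finset.mul_sum]
  refine Finset.sum_congr rfl fun i hi => ?_
  rw [mem_range] at hi
  rw [Finset.mul_sum]
  refine Finset.sum_congr rfl fun P hP => ?_
  rw [Finset.mul_sum]
  refine Finset.sum_congr rfl fun Q hQ => ?_
  rw [EI_hd_smul c d (EI_ne hP (by omega)), EI_ls_smul c d (EI_ne hQ (by omega)), pw_smul, pw_smul,
    EI_len hP, EI_len hQ]
  obtain ⟨m, hm⟩ : ∃ m, N = i + m + 2 := ⟨N - i - 2, by omega⟩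
  have h1 : i + 1 - 1 = i := by omega
  have h2 : N - 1 - i - 1 = m := by omega
  rw [h1, h2, hm, pow_add, pow_add]
  ring

theorem EI_so_smul (μ : V → V → ℝ) (d : V → ℝ) (c : ℝ) (l : ℕ) (a b : V) :
    So (fun a b => c * μ a b) (fun a => c * d a) l a b = c ^ l * So μ d l a b := by
  rw [EI_So, EI_So, EI_cc_smul]

theorem EI_en_smul (μ : V → V → ℝ) (d : V → ℝ) (c : ℝ) {l : ℕ} (hl : 1 ≤ l) (a : V) :
    En (fun a b => c * μ a b) (fun a => c * d a) l a = c ^ l * En μ d l a := by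
  rw [En, En, Finset.mul_sum]
  refine Finset.sum_congr rfl fun L hL => ?_
  have hne := EI_ne hL hl
  rw [EI_ls_smul c d hne, pw_smul, EI_len hL]
  obtain ⟨m, rfl⟩ : ∃ m, l = m + 1 := ⟨l - 1, by omega⟩
  rw [Nat.add_sub_cancel]
  ring

theorem fg_smul (μ : V → V → ℝ) (ν : V → ℝ) (ρ : ℝ) (e : V → V → ℝ) {l : ℕ} (hl : 1 ≤ l)
    {c : ℝ} (hc : 0 ≤ c) :
    FG (fun a b => c * μ a b) (fun a => c * ν a) (c * ρ) e l = c ^ (l + 1) * FG μ ν ρ e l := by
  have hdn : dn (fun a b => c * μ a b) (fun a => c * ν a) = fun a => c * dn μ ν a := by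
    ext a
    rw [dn, dn, dg, dg, mul_add, Finset.mul_sum]
  have hgm : ∀ a, gm (fun a b => c * μ a b) (fun a => c * dn μ ν a) l a =
      c ^ l * gm μ (dn μ ν) l a := by
    intro a
    rw [gm, gm, Real.mul_iSup_of_nonneg (pow_nonneg hc l)]
    congr 1
    ext b
    split_ifs
    · rw [mul_zero]
    · rw [EI_so_smul, EI_en_smul _ _ _ hl, EI_en_smul _ _ _ hl]
      ring
  have hem : em (fun a b => c * μ a b) (fun a => c * dn μ ν a) l = c ^ l * em μ (dn μ ν) l := by
    rw [em, em, Real.mul_iSup_of_nonneg (pow_nonneg hc l)]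
    congr 1
    ext p
    split_ifs
    · rw [mul_zero]
    · rw [EI_en_smul _ _ _ hl, EI_en_smul _ _ _ hl]
      ring
  rw [FG, FG, hdn, Fd, Fd, EI_wo_smul _ _ _ hl, EI_ao_smul, EI_cc_smul, hem]
  have h1 : ∑ a, c * ν a * gm (fun a b => c * μ a b) (fun a => c * dn μ ν a) l a =
      c ^ (l + 1) * ∑ a, ν a * gm μ (dn μ ν) l a := by
    rw [Finset.mul_sum]
    refine Finset.sum_congr rfl fun a _ => ?_
    rw [hgm]
    ring
  rw [h1]
  ring

/-! ### Lower bounds for `So` -/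

theorem EI_so_nonneg {μ : V → V → ℝ} (h : Wt μ) {d : V → ℝ} (hd0 : ∀ v, 0 ≤ d v) (l : ℕ)
    (a b : V) : 0 ≤ So μ d l a b := by
  rw [So, CC]
  refine Finset.sum_nonneg fun i _ => Finset.sum_nonneg fun P _ => Finset.sum_nonneg fun Q _ => ?_
  have h1 : 0 ≤ hd d P := hd_nonneg hd0 P
  have h2 : 0 ≤ pw μ P := pw_nonneg μ h.nonneg P
  have h3 : 0 ≤ pw μ Q := pw_nonneg μ h.nonneg Q
  have h4 : 0 ≤ ls d Q := ls_nonneg hd0 Q
  have h5 : 0 ≤ ls (fun u => hd (fun w => if u = a ∧ w = b then (1 : ℝ) else 0) Q) P :=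
    ls_nonneg (fun u => hd_nonneg (fun w => by split_ifs <;> norm_num) Q) P
  positivity

theorem EI_en_nonneg {μ : V → V → ℝ} (h : Wt μ) {d : V → ℝ} (hd0 : ∀ v, 0 ≤ d v) (l : ℕ)
    (a : V) : 0 ≤ En μ d l a := by
  rw [En]
  refine Finset.sum_nonneg fun L _ => ?_
  have h1 : 0 ≤ hd (fun u => if u = a then (1 : ℝ) else 0) L :=
    hd_nonneg (fun w => by split_ifs <;> norm_num) L
  have h2 : 0 ≤ pw μ L := pw_nonneg μ h.nonneg L
  have h3 : 0 ≤ ls d L := ls_nonneg hd0 L
  positivity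

/-- `En` as a sum over the tails -/
theorem EI_en_tail (μ : V → V → ℝ) (d : V → ℝ) (k : ℕ) (a : V) :
    En μ d (k + 1) a = ∑ T ∈ NL (insert a (∅ : Finset V)) k, pw μ (a :: T) * ls d (a :: T) := by
  rw [En, sum_NL_succ, Finset.compl_empty, Finset.sum_eq_single a]
  · refine Finset.sum_congr rfl fun T _ => ?_
    have h1 : hd (fun u => if u = a then (1 : ℝ) else 0) (a :: T) = 1 := by simp [hd]
    rw [h1, one_mul]
  · intro b _ hb
    refine Finset.sum_eq_zero fun T _ => ?_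
    have h1 : hd (fun u => if u = a then (1 : ℝ) else 0) (b :: T) = 0 := by simp [hd, hb]
    rw [h1, zero_mul, zero_mul]
  · intro h
    exact absurd (mem_univ _) h

theorem EI_ge {μ : V → V → ℝ} (h : Wt μ) {d : V → ℝ} {l : ℕ} (hl : 2 ≤ l) (a : V)
    (hd0 : ∀ v, 0 ≤ d v) : d a * En μ d l a ≤ ∑ b, μ a b * So μ d l a b := by
  obtain ⟨k, rfl⟩ : ∃ k, l = k + 2 := ⟨l - 2, by omega⟩
  have h1 : ∀ b, ∑ Q ∈ NL (insert a (∅ : Finset V)) (k + 1),
      d a * hd (EIk a b a) Q * pw μ Q * ls d Q ≤ So μ d (k + 2) a b := by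
    intro b
    have hnn : ∀ (_ : ℕ) (P Q : List V), 0 ≤ hd d P * pw μ P * ls (fun u => hd (EIk a b u) Q) P * pw μ Q * ls d Q := by
      intro i P Q
      have h1 : 0 ≤ hd d P := hd_nonneg hd0 P
      have h2 : 0 ≤ pw μ P := pw_nonneg μ h.nonneg P
      have h3 : 0 ≤ pw μ Q := pw_nonneg μ h.nonneg Q
      have h4 : 0 ≤ ls d Q := ls_nonneg hd0 Q
      have h5 : 0 ≤ ls (fun u => hd (EIk a b u) Q) P :=
        ls_nonneg (fun u => hd_nonneg (fun w => by unfold EIk; split_ifs <;> norm_num) Q) P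
      positivity
    rw [EI_So, CC]
    have h0 : 0 ∈ range (k + 2 - 1) := by
      rw [mem_range]
      omega
    refine le_trans ?_ (Finset.single_le_sum (f := fun i => ∑ P ∈ NL (∅ : Finset V) (i + 1),
      ∑ Q ∈ NL P.toFinset (k + 2 - 1 - i),
        hd d P * pw μ P * ls (fun u => hd (EIk a b u) Q) P * pw μ Q * ls d Q)
      (fun i _ => Finset.sum_nonneg fun P _ => Finset.sum_nonneg fun Q _ => hnn i P Q) h0)
    have hP : [a] ∈ NL (∅ : Finset V) (0 + 1) := by
      rw [mem_NL]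
      refine ⟨rfl, List.nodup_singleton a, fun x _ => Finset.notMem_empty x⟩
    refine le_trans ?_ (Finset.single_le_sum (f := fun P => ∑ Q ∈ NL P.toFinset (k + 2 - 1 - 0),
        hd d P * pw μ P * ls (fun u => hd (EIk a b u) Q) P * pw μ Q * ls d Q)
      (fun P _ => Finset.sum_nonneg fun Q _ => hnn 0 P Q) hP)
    have h2 : ([a] : List V).toFinset = insert a ∅ := by simp
    have h3 : k + 2 - 1 - 0 = k + 1 := by omega
    rw [h2, h3]
    apply le_of_eq
    refine Finset.sum_congr rfl fun Q _ => ?_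
    have h4 : hd d [a] = d a := rfl
    have h5 : pw μ [a] = 1 := rfl
    have h6 : ls (fun u => hd (EIk a b u) Q) [a] = hd (EIk a b a) Q := ls_snoc _ [] a
    rw [h4, h5, h6]
    ring
  calc d a * En μ d (k + 2) a
      = ∑ b, μ a b * ∑ Q ∈ NL (insert a (∅ : Finset V)) (k + 1),
          d a * hd (EIk a b a) Q * pw μ Q * ls d Q := by
        have h2 : ∀ b, μ a b * ∑ Q ∈ NL (insert a (∅ : Finset V)) (k + 1),
            d a * hd (EIk a b a) Q * pw μ Q * ls d Q =
            ∑ Q ∈ NL (insert a (∅ : Finset V)) (k + 1),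
              μ a b * (d a * hd (EIk a b a) Q * pw μ Q * ls d Q) := fun b => Finset.mul_sum _ _ _
        rw [Finset.sum_congr rfl fun b _ => h2 b, Finset.sum_comm, EI_en_tail, Finset.mul_sum]
        refine Finset.sum_congr rfl fun Q hQ => ?_
        obtain ⟨y, Q', rfl⟩ := EI_cons (EI_ne hQ (by omega))
        have h3 : pw μ (a :: y :: Q') = μ a y * pw μ (y :: Q') := rfl
        have h4 : ls d (a :: y :: Q') = ls d (y :: Q') := ls_append d [a] (by simp)
        have h5 : ∀ b, hd (EIk a b a) (y :: Q') = if y = b then 1 else 0 := by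
          intro b
          simp [hd, EIk]
        rw [h3, h4, ← EI_ind1 (μ a) y, Finset.sum_mul, Finset.sum_mul, Finset.mul_sum]
        refine Finset.sum_congr rfl fun b _ => ?_
        rw [h5]
        ring
    _ ≤ ∑ b, μ a b * So μ d (k + 2) a b :=
        Finset.sum_le_sum fun b _ => mul_le_mul_of_nonneg_left (h1 b) (h.nonneg a b)

theorem exists_so_ge {μ : V → V → ℝ} (h : Wt μ) {d : V → ℝ} {l : ℕ} (hl : 2 ≤ l) {a : V}
    (hd0 : ∀ v, 0 ≤ d v) (hd : dg μ a ≤ d a) (ha : 0 < d a) (hE : 0 < En μ d l a) :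
    ∃ b, b ≠ a ∧ En μ d l a ≤ So μ d l a b := by
  by_contra hcon
  push Not at hcon
  have h1 := EI_ge h hl a hd0
  have h2 : ∀ b, μ a b * So μ d l a b ≤ μ a b * En μ d l a := by
    intro b
    by_cases hb : b = a
    · rw [hb, h.diag, zero_mul, zero_mul]
    · exact mul_le_mul_of_nonneg_left (hcon b hb).le (h.nonneg a b)
  have h3 : ∑ b, μ a b * En μ d l a = dg μ a * En μ d l a := by
    rw [dg, Finset.sum_mul]
  have hdg0 : 0 ≤ dg μ a := Finset.sum_nonneg fun b _ => h.nonneg a b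
  have h4 : d a * En μ d l a ≤ dg μ a * En μ d l a := by
    rw [← h3]
    exact h1.trans (Finset.sum_le_sum fun b _ => h2 b)
  have h5 : 0 < dg μ a := by
    by_contra h6
    push Not at h6
    have h7 : 0 < d a * En μ d l a := mul_pos ha hE
    nlinarith
  -- some class at `a` is positive
  obtain ⟨b, -, hb⟩ : ∃ b ∈ (univ : Finset V), 0 < μ a b := by
    by_contra h6
    push Not at h6
    have h7 : dg μ a ≤ 0 := Finset.sum_nonpos h6
    linarith
  have hba : b ≠ a := by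
    rintro rfl
    rw [h.diag] at hb
    exact lt_irrefl _ hb
  have h6 : ∑ b, μ a b * So μ d l a b < ∑ b, μ a b * En μ d l a :=
    Finset.sum_lt_sum (fun b _ => h2 b)
      ⟨b, mem_univ b, mul_lt_mul_of_pos_left (hcon b hba) hb⟩
  rw [h3] at h6
  have h7 : dg μ a * En μ d l a ≤ d a * En μ d l a := mul_le_mul_of_nonneg_right hd hE.le
  linarith

/-! ### Mass added to a class -/

/-- the sum over the places where a link is replaced -/
def EIJ (μ κ : V → V → ℝ) (L : List V) : ℝ :=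
  ∑ i ∈ range (L.length - 1), pw μ (L.take (i + 1)) *
    ls (fun u => hd (κ u) (L.drop (i + 1))) (L.take (i + 1)) * pw μ (L.drop (i + 1))

theorem EIJ_nonneg {μ κ : V → V → ℝ} (h : ∀ a b, 0 ≤ μ a b) (hκ : ∀ a b, 0 ≤ κ a b)
    (L : List V) : 0 ≤ EIJ μ κ L := by
  refine Finset.sum_nonneg fun i _ => ?_
  have h2 : 0 ≤ pw μ (L.take (i + 1)) := pw_nonneg μ h _
  have h3 : 0 ≤ pw μ (L.drop (i + 1)) := pw_nonneg μ h _
  have h5 : 0 ≤ ls (fun u => hd (κ u) (L.drop (i + 1))) (L.take (i + 1)) :=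
    ls_nonneg (fun u => hd_nonneg (fun w => hκ u w) _) _
  positivity

theorem EIJ_cons (μ κ : V → V → ℝ) (a b : V) (t : List V) :
    EIJ μ κ (a :: b :: t) = κ a b * pw μ (b :: t) + μ a b * EIJ μ κ (b :: t) := by
  have h1 : (a :: b :: t).length - 1 = ((b :: t).length - 1) + 1 := by simp
  rw [EIJ, h1, Finset.sum_range_succ', EIJ, Finset.mul_sum, add_comm]
  congr 1
  · have h2 : ls (fun u => hd (κ u) (b :: t)) [a] = κ a b := ls_snoc _ [] a
    have h3 : pw μ [a] = 1 := rfl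
    simp only [List.take_succ_cons, List.take_zero, List.drop_succ_cons, List.drop_zero, h2, h3]
    ring
  · refine Finset.sum_congr rfl fun i _ => ?_
    have h2 : (a :: b :: t).take (i + 1 + 1) = a :: (b :: t).take (i + 1) := rfl
    have h3 : (a :: b :: t).drop (i + 1 + 1) = (b :: t).drop (i + 1) := rfl
    have h4 : (b :: t).take (i + 1) = b :: t.take i := rfl
    have h5 : pw μ (a :: b :: t.take i) = μ a b * pw μ (b :: t.take i) := rfl
    have h6 : ∀ g : V → ℝ, ls g (a :: b :: t.take i) = ls g (b :: t.take i) :=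
      fun g => ls_append g [a] (by simp)
    rw [h2, h3, h4, h5, h6]
    ring

theorem EI_pw_add {μ κ : V → V → ℝ} (h : ∀ a b, 0 ≤ μ a b) (hκ : ∀ a b, 0 ≤ κ a b)
    (L : List V) : pw μ L + EIJ μ κ L ≤ pw (fun a b => μ a b + κ a b) L := by
  induction L with
  | nil => simp [EIJ, pw]
  | cons a t ih =>
    cases t with
    | nil => simp [EIJ, pw]
    | cons b t =>
      rw [EIJ_cons]
      have h1 : pw μ (a :: b :: t) = μ a b * pw μ (b :: t) := rfl
      have h2 : pw (fun a b => μ a b + κ a b) (a :: b :: t) =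
          (μ a b + κ a b) * pw (fun a b => μ a b + κ a b) (b :: t) := rfl
      rw [h1, h2]
      have h3 : 0 ≤ pw μ (b :: t) := pw_nonneg μ h _
      have h4 := EIJ_nonneg h hκ (b :: t)
      have h5 := h a b
      have h6 := hκ a b
      have h7 := mul_le_mul_of_nonneg_left ih (add_nonneg h5 h6)
      have h8 := mul_nonneg h6 h4
      linarith

theorem EI_sum_J (μ κ : V → V → ℝ) (d : V → ℝ) (l : ℕ) :
    ∑ L ∈ NL (∅ : Finset V) l, hd d L * EIJ μ κ L * ls d L = CC μ d κ d l := by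
  have h1 : ∀ L ∈ NL (∅ : Finset V) l, hd d L * EIJ μ κ L * ls d L =
      ∑ i ∈ range (l - 1), hd d L * (pw μ (L.take (i + 1)) *
        ls (fun u => hd (κ u) (L.drop (i + 1))) (L.take (i + 1)) * pw μ (L.drop (i + 1))) *
          ls d L := by
    intro L hL
    rw [EIJ, EI_len hL, Finset.mul_sum, Finset.sum_mul]
  rw [Finset.sum_congr rfl h1, Finset.sum_comm, CC]
  refine Finset.sum_congr rfl fun i hi => ?_
  rw [mem_range] at hi
  rw [EI_split ∅ hi]
  refine Finset.sum_congr rfl fun P hP => ?_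
  rw [Finset.empty_union]
  refine Finset.sum_congr rfl fun Q hQ => ?_
  have hlen := EI_len hP
  have h2 : (P ++ Q).take (i + 1) = P := by
    rw [← hlen]
    exact List.take_left
  have h3 : (P ++ Q).drop (i + 1) = Q := by
    rw [← hlen]
    exact List.drop_left
  rw [h2, h3, hd_append d (EI_ne hP (by omega)), ls_append d P (EI_ne hQ (by omega))]
  ring

theorem EI_so_symm {μ : V → V → ℝ} (h : Wt μ) (d : V → ℝ) (l : ℕ) (a b : V) :
    So μ d l a b = So μ d l b a := by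
  rw [EI_So, EI_So]
  apply cc_rev h
  intro u w
  unfold EIk
  by_cases h1 : u = a <;> by_cases h2 : w = b <;> simp [h1, h2]

theorem EI_hd_add (f g : V → ℝ) {L : List V} (hL : L ≠ []) :
    hd (fun a => f a + g a) L = hd f L + hd g L := by
  obtain ⟨y, L', rfl⟩ := EI_cons hL
  rfl

theorem EI_ls_add (f g : V → ℝ) {L : List V} (hL : L ≠ []) :
    ls (fun a => f a + g a) L = ls f L + ls g L := by
  obtain ⟨L', y, rfl⟩ := EI_snoc hL
  rw [ls_snoc, ls_snoc, ls_snoc]

theorem wo_ad {μ : V → V → ℝ} (h : Wt μ) {d : V → ℝ} (hd0 : ∀ v, 0 ≤ d v) {l : ℕ} (hl : 2 ≤ l)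
    {x y : V} (hxy : x ≠ y) {η α β : ℝ} (hη : 0 ≤ η) (hα : 0 ≤ α) (hβ : 0 ≤ β) :
    Wo μ d l + 2 * η * So μ d l x y + 2 * α * En μ d l x + 2 * β * En μ d l y
      ≤ Wo (ad μ x y η) (fun v => d v + (if v = x then α else 0) + if v = y then β else 0) l := by
  have hl1 : 1 ≤ l := by omega
  -- the added mass
  set κ : V → V → ℝ := fun a b => η * EIk x y a b + η * EIk y x a b with hκdef
  have hκ : ∀ a b, 0 ≤ κ a b := by
    intro a b
    have h1 : 0 ≤ EIk x y a b := by unfold EIk; split_ifs <;> norm_num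
    have h2 : 0 ≤ EIk y x a b := by unfold EIk; split_ifs <;> norm_num
    positivity
  have had : ad μ x y η = fun a b => μ a b + κ a b := by
    ext a b
    rw [ad, hκdef]
    simp only [EIk]
    by_cases h1 : a = x ∧ b = y
    · have h2 : ¬ (a = y ∧ b = x) := by
        rintro ⟨h3, -⟩
        exact hxy (h1.1.symm.trans h3)
      rw [if_pos (Or.inl h1), if_pos h1, if_neg h2]
      ring
    · by_cases h2 : a = y ∧ b = x
      · rw [if_pos (Or.inr h2), if_neg h1, if_pos h2]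
        ring
      · rw [if_neg (not_or.2 ⟨h1, h2⟩), if_neg h1, if_neg h2]
        ring
  -- the added degrees
  set g : V → ℝ := fun v => (if v = x then α else 0) + if v = y then β else 0 with hgdef
  have hg0 : ∀ v, 0 ≤ g v := by
    intro v
    rw [hgdef]
    simp only
    split_ifs <;> positivity
  have hd' : (fun v => d v + (if v = x then α else 0) + if v = y then β else 0) =
      fun v => d v + g v := by
    ext v
    rw [hgdef, add_assoc]
  rw [had, hd']
  -- the three sums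
  have hJ : ∑ L ∈ NL (∅ : Finset V) l, hd d L * EIJ μ κ L * ls d L = 2 * η * So μ d l x y := by
    rw [EI_sum_J, EI_cc]
    have h1 : ∑ a, ∑ b, κ a b * CC μ d (EIk a b) d l =
        η * (∑ a, ∑ b, EIk x y a b * So μ d l a b) + η * ∑ a, ∑ b, EIk y x a b * So μ d l a b := by
      rw [Finset.mul_sum, Finset.mul_sum, ← Finset.sum_add_distrib]
      refine Finset.sum_congr rfl fun a _ => ?_
      rw [Finset.mul_sum, Finset.mul_sum, ← Finset.sum_add_distrib]
      refine Finset.sum_congr rfl fun b _ => ?_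
      rw [EI_So]
      ring
    have h2 : ∀ x y : V, ∑ a, ∑ b, EIk x y a b * So μ d l a b = So μ d l x y := by
      intro x y
      rw [Finset.sum_eq_single x, Finset.sum_eq_single y]
      · simp [EIk]
      · intro b _ hb
        simp [EIk, hb]
      · intro h
        exact absurd (mem_univ _) h
      · intro a _ ha
        apply Finset.sum_eq_zero
        intro b _
        simp [EIk, ha]
      · intro h
        exact absurd (mem_univ _) h
    rw [h1, h2, h2, EI_so_symm h d l y x]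
    ring
  have hA : ∑ L ∈ NL (∅ : Finset V) l, hd g L * pw μ L * ls d L =
      α * En μ d l x + β * En μ d l y := by
    rw [← EI_en μ g d hl1]
    have h1 : ∀ a, g a * En μ d l a = (if a = x then α * En μ d l a else 0) +
        if a = y then β * En μ d l a else 0 := by
      intro a
      rw [hgdef]
      simp only
      split_ifs <;> ring
    rw [Finset.sum_congr rfl fun a _ => h1 a, Finset.sum_add_distrib]
    simp
  have hB : ∑ L ∈ NL (∅ : Finset V) l, hd d L * pw μ L * ls g L =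
      α * En μ d l x + β * En μ d l y := by
    rw [← hA]
    exact wo_rev h d g l
  have hkey : ∀ L ∈ NL (∅ : Finset V) l,
      hd d L * pw μ L * ls d L + hd d L * EIJ μ κ L * ls d L + hd g L * pw μ L * ls d L +
        hd d L * pw μ L * ls g L ≤
      hd (fun v => d v + g v) L * pw (fun a b => μ a b + κ a b) L * ls (fun v => d v + g v) L := by
    intro L hL
    have hne := EI_ne hL hl1
    rw [EI_hd_add d g hne, EI_ls_add d g hne]
    have h1 := EI_pw_add h.nonneg hκ L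
    have a1 : 0 ≤ hd d L := hd_nonneg hd0 L
    have a2 : 0 ≤ hd g L := hd_nonneg hg0 L
    have a3 : 0 ≤ pw μ L := pw_nonneg μ h.nonneg L
    have a4 : 0 ≤ EIJ μ κ L := EIJ_nonneg h.nonneg hκ L
    have a5 : 0 ≤ ls d L := ls_nonneg hd0 L
    have a6 : 0 ≤ ls g L := ls_nonneg hg0 L
    calc hd d L * pw μ L * ls d L + hd d L * EIJ μ κ L * ls d L + hd g L * pw μ L * ls d L +
        hd d L * pw μ L * ls g L
        ≤ (hd d L + hd g L) * (pw μ L + EIJ μ κ L) * (ls d L + ls g L) := by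
          have b1 := mul_nonneg (mul_nonneg a2 a4) a5
          have b2 := mul_nonneg (mul_nonneg a1 a4) a6
          have b3 := mul_nonneg (mul_nonneg a2 a3) a6
          have b4 := mul_nonneg (mul_nonneg a2 a4) a6
          nlinarith
      _ ≤ (hd d L + hd g L) * pw (fun a b => μ a b + κ a b) L * (ls d L + ls g L) := by
          apply mul_le_mul_of_nonneg_right _ (by positivity)
          exact mul_le_mul_of_nonneg_left h1 (by positivity)
  have hsum := Finset.sum_le_sum hkey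
  rw [Finset.sum_add_distrib, Finset.sum_add_distrib, Finset.sum_add_distrib, hJ, hA, hB] at hsum
  have h1 : Wo μ d l = ∑ L ∈ NL (∅ : Finset V) l, hd d L * pw μ L * ls d L := rfl
  have h2 : Wo (fun a b => μ a b + κ a b) (fun v => d v + g v) l = ∑ L ∈ NL (∅ : Finset V) l,
    hd (fun v => d v + g v) L * pw (fun a b => μ a b + κ a b) L * ls (fun v => d v + g v) L := rfl
  rw [h1, h2]
  linarith

end

end Pool.Agent.Lib.MP_009d13_co.OD
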