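import Pool.Agent.Lib.MP_009d13_co.OD.Defs
import Pool.Agent.Lib.MP_009d13_co.OD.LS1
import Pool.Agent.Lib.MP_009d13_co.OD.LS4

/-!
# `En` near a ring
-/

set_option autoImplicit false

namespace Pool.Agent.Lib.MP_009d13_co.OD

open Finset Classical

noncomputable section

variable {V : Type} [Fintype V]

/-- the list `h j, h (j + 1), ...` of length `k` -/
def enr_R {l : ℕ} (h : Fin l ↪ V) : ℕ → Fin l → List V
  | 0, _ => []
  | k + 1, j => h j :: enr_R h k (finRotate l j)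

theorem enr_length {l : ℕ} (h : Fin l ↪ V) : ∀ (k : ℕ) (j : Fin l), (enr_R h k j).length = k
  | 0, _ => rfl
  | k + 1, j => by
    rw [enr_R, List.length_cons, enr_length h k]

theorem enr_mem {l : ℕ} (h : Fin l ↪ V) : ∀ (k : ℕ) (j : Fin l) (y : V), y ∈ enr_R h k j →
    ∃ i < k, y = h ((finRotate l)^[i] j)
  | 0, _, y, hy => by simp [enr_R] at hy
  | k + 1, j, y, hy => by
    rw [enr_R, List.mem_cons] at hy
    rcases hy with rfl | hy
    · exact ⟨0, Nat.succ_pos k, rfl⟩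
    · obtain ⟨i, hi, rfl⟩ := enr_mem h k _ y hy
      exact ⟨i + 1, Nat.succ_lt_succ hi, rfl⟩

theorem enr_iter {m : ℕ} (n : ℕ) (j : Fin (m + 1)) :
    ((finRotate (m + 1))^[n] j).val = (j.val + n) % (m + 1) := by
  induction n with
  | zero => simp [Nat.mod_eq_of_lt j.isLt]
  | succ n ih =>
    rw [Function.iterate_succ_apply', finRotate_apply, Fin.val_add, ih, Fin.val_one',
      ← Nat.add_mod]
    rfl

theorem enr_nodup {l : ℕ} (h : Fin l ↪ V) : ∀ (k : ℕ) (j : Fin l), k ≤ l →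
    (enr_R h k j).Nodup
  | 0, _, _ => by simp [enr_R]
  | k + 1, j, hk => by
    rw [enr_R, List.nodup_cons]
    refine ⟨fun hmem => ?_, enr_nodup h k _ (by omega)⟩
    obtain ⟨i, hi, hy⟩ := enr_mem h k _ _ hmem
    obtain ⟨m, rfl⟩ : ∃ m, l = m + 1 := ⟨l - 1, by omega⟩
    have h1 := h.injective hy
    have h2 : (finRotate (m + 1))^[i] (finRotate (m + 1) j) = (finRotate (m + 1))^[i + 1] j := rfl
    have h4 := congrArg Fin.val h1
    rw [h2, enr_iter] at h4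
    have h3 : (j.val + 0) % (m + 1) = (j.val + (i + 1)) % (m + 1) := by
      rw [← h4, Nat.add_zero]
      exact Nat.mod_eq_of_lt j.isLt
    have h5 : 0 ≡ i + 1 [MOD (m + 1)] := Nat.ModEq.add_left_cancel' j.val h3
    have h6 : (m + 1) ∣ (i + 1) := (Nat.modEq_zero_iff_dvd).1 h5.symm
    exact absurd (Nat.le_of_dvd (Nat.succ_pos i) h6) (by omega)

theorem enr_pw {μ : V → V → ℝ} {l : ℕ} (h : Fin l ↪ V) {x : ℝ} (hx : 0 ≤ x)
    (hr : ∀ j, x ≤ μ (h j) (h (finRotate l j))) :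
    ∀ (k : ℕ) (j : Fin l), x ^ k ≤ pw μ (enr_R h (k + 1) j)
  | 0, j => by simp [enr_R, pw]
  | k + 1, j => by
    have ih := enr_pw h hx hr k (finRotate l j)
    rw [enr_R] at ih
    rw [enr_R, enr_R]
    change _ ≤ μ (h j) (h (finRotate l j)) * pw μ _
    rw [pow_succ']
    exact mul_le_mul (hr j) ih (pow_nonneg hx k) (hx.trans (hr j))

theorem enr_ls {μ : V → V → ℝ} (h0 : ∀ a b, 0 ≤ μ a b) {d : V → ℝ} {l : ℕ}
    (hd : ∀ v, dg μ v ≤ d v) (h : Fin l ↪ V) {x : ℝ}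
    (hr : ∀ j, x ≤ μ (h j) (h (finRotate l j))) :
    ∀ (k : ℕ) (j : Fin l), x ≤ ls d (enr_R h (k + 1) j)
  | 0, j => by
    have h1 : ls d (enr_R h 1 j) = d (h j) := by simp [enr_R, ls, OD.hd]
    rw [h1]
    refine ((hr j).trans ?_).trans (hd (h j))
    unfold dg
    exact Finset.single_le_sum (fun b _ => h0 (h j) b) (Finset.mem_univ (h (finRotate l j)))
  | k + 1, j => by
    have ih := enr_ls h0 hd h hr k (finRotate l j)
    rw [enr_R]
    have h2 : h j :: enr_R h (k + 1) (finRotate l j) =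
        [h j] ++ enr_R h (k + 1) (finRotate l j) := rfl
    rw [h2, ls_append d [h j] (by rw [enr_R]; simp)]
    exact ih

theorem en_ring {μ : V → V → ℝ} (h0 : ∀ a b, 0 ≤ μ a b) {d : V → ℝ} {l : ℕ} (hl : 3 ≤ l)
    (hd : ∀ v, dg μ v ≤ d v)
    (h : Fin l ↪ V) {x : ℝ} (hx : 0 ≤ x) (hr : ∀ j, x ≤ μ (h j) (h (finRotate l j))) (j : Fin l) :
    x ^ l ≤ En μ d l (h j) := by
  obtain ⟨k, rfl⟩ : ∃ k, l = k + 1 := ⟨l - 1, by omega⟩
  have hd0 : ∀ v, 0 ≤ d v := fun v =>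
    (Finset.sum_nonneg (fun b _ => h0 v b)).trans (hd v)
  unfold En
  have hmem : enr_R h (k + 1) j ∈ NL (∅ : Finset V) (k + 1) := by
    rw [mem_NL]
    exact ⟨enr_length h _ _, enr_nodup h _ _ le_rfl, fun x _ => Finset.notMem_empty x⟩
  refine le_trans ?_ (Finset.single_le_sum (f := fun L =>
    OD.hd (fun u => if u = h j then (1 : ℝ) else 0) L * pw μ L * ls d L) (fun L _ => ?_) hmem)
  · have h1 : OD.hd (fun u => if u = h j then (1 : ℝ) else 0) (enr_R h (k + 1) j) = 1 := by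
      simp [enr_R, OD.hd]
    rw [h1, one_mul, pow_succ]
    exact mul_le_mul (enr_pw h hx hr k j) (enr_ls h0 hd h hr k j) hx
      (pw_nonneg μ h0 _)
  · refine mul_nonneg (mul_nonneg (hd_nonneg (fun u => ?_) L) (pw_nonneg μ h0 L))
      (ls_nonneg hd0 L)
    split_ifs <;> norm_num

end

end Pool.Agent.Lib.MP_009d13_co.OD
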