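import Pool.Agent.Lib.MP_009d13_co.OD.TKD
import Pool.Agent.Lib.MP_009d13_co.OD.CNH

/-! # OD, module NRA: the hubs of a ring -/

set_option autoImplicit false

namespace Pool.Agent.Lib.MP_009d13_co.OD

open Finset Classical
open Pool.Agent.Lib.MP_009d13_co.P5 (nb kk)

noncomputable section

variable {V : Type} [Fintype V] (G : SimpleGraph V) (H : Finset V)

theorem NRA_zero (L : List V) (x : V) (hx : x ∈ L) (hxH : x ∉ H) :
    pw (mH G H) L * ls (dH G H) L = 0 := by
  induction L with
  | nil => simp at hx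
  | cons a T ih =>
    cases T with
    | nil =>
      have h1 : x = a := by simpa using hx
      subst h1
      exact CNF_zero G H hxH []
    | cons b t =>
      by_cases ha : a ∈ H
      · have hxT : x ∈ b :: t := by
          rcases List.mem_cons.mp hx with h1 | h1
          · subst h1
            exact absurd ha hxH
          · exact h1
        have h2 : pw (mH G H) (a :: b :: t) = mH G H a b * pw (mH G H) (b :: t) := rfl
        rw [h2, CNF_ls_cons, mul_assoc, ih hxT, mul_zero]
      · exact CNF_zero G H ha (b :: t)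

theorem NRA_zero' (L : List V) (x : V) (hx : x ∈ L) (hxH : x ∉ H) :
    hd (dH G H) L * pw (mH G H) L = 0 := by
  have h1 := NRA_zero G H L.reverse x (List.mem_reverse.mpr hx) hxH
  rw [pw_reverse (mH G H) (CNH_mH_symm G H), ls_reverse] at h1
  rw [mul_comm]
  exact h1

theorem NRA_exists {k : ℕ} (hk : H.card < k) (L : List V) (h1 : L.length = k)
    (h2 : L.Nodup) : ∃ x ∈ L, x ∉ H := by
  by_contra hcon
  push Not at hcon
  have h3 : L.toFinset ⊆ H := fun x hx => hcon x (List.mem_toFinset.mp hx)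
  have h4 := Finset.card_le_card h3
  rw [List.toFinset_card_of_nodup h2, h1] at h4
  omega

theorem NRA_ao {l : ℕ} (hH : H.card ≤ l) : Ao (mH G H) (dH G H) l = 0 := by
  unfold Ao
  refine Finset.sum_eq_zero fun L hL => ?_
  obtain ⟨h1, h2, -⟩ := mem_NL.mp hL
  obtain ⟨x, hx, hxH⟩ := NRA_exists H (by omega : H.card < l + 1) L h1 h2
  exact NRA_zero G H L x hx hxH

theorem NRA_cc {l : ℕ} (hH : H.card ≤ l) (e : V → V → ℝ) :
    CC (mH G H) (dH G H) e (dH G H) (l + 1) = 0 := by
  unfold CC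
  refine Finset.sum_eq_zero fun i hi => Finset.sum_eq_zero fun P hP =>
    Finset.sum_eq_zero fun Q hQ => ?_
  have hi' : i < l := by
    have := Finset.mem_range.mp hi
    omega
  obtain ⟨h1, h2, -⟩ := mem_NL.mp hP
  obtain ⟨h3, h4, h5⟩ := mem_NL.mp hQ
  have h6 : (P ++ Q).length = l + 1 := by
    rw [List.length_append, h1, h3]
    omega
  have h7 : (P ++ Q).Nodup := by
    rw [List.nodup_append]
    refine ⟨h2, h4, ?_⟩
    intro a ha b hb hab
    subst hab
    exact h5 a hb (List.mem_toFinset.mpr ha)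
  obtain ⟨x, hx, hxH⟩ := NRA_exists H (by omega : H.card < l + 1) (P ++ Q) h6 h7
  rcases List.mem_append.mp hx with hx | hx
  · rw [NRA_zero' G H P x hx hxH]
    ring
  · have h8 := NRA_zero G H Q x hx hxH
    calc hd (dH G H) P * pw (mH G H) P * ls (fun a => hd (e a) Q) P * pw (mH G H) Q
          * ls (dH G H) Q
        = hd (dH G H) P * pw (mH G H) P * ls (fun a => hd (e a) Q) P
          * (pw (mH G H) Q * ls (dH G H) Q) := by ring
      _ = 0 := by rw [h8, mul_zero]

theorem NRA_card {l : ℕ} (h : Fin l ↪ V) : (Hr h).card = l := by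
  unfold Hr
  rw [Finset.card_map, Finset.card_univ, Fintype.card_fin]

theorem tk_ring (hS : P5.Sparse6 G) {l : ℕ} (hl : 1 ≤ l) (h : Fin l ↪ V) :
    Tk G (2 * l + 2) ≤ ∑ p ∈ P5.pr G (Hr h)ᶜ (Hr h)ᶜ, ps G (Hr h) l p.1 p.2
      + 4 ^ (l + 1) * ((6 * (Fintype.card V : ℝ)) ^ (l - 1) * x4 G (Hr h)
        + (l : ℝ) ^ 2 * (6 * (Fintype.card V : ℝ)) ^ l) := by
  have h1 := tk_dec G (Hr h) hS hl
  rw [NRA_ao G (Hr h) (NRA_card h).le, NRA_cc G (Hr h) (NRA_card h).le, NRA_card h] at h1
  linarith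

end

end Pool.Agent.Lib.MP_009d13_co.OD
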