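import Pool.Agent.Lib.MP_009d13_co.OD.Defs2
import Pool.Agent.Lib.MP_009d13_co.P5.K33

/-! NRB: degrees near a ring. -/

set_option autoImplicit false

namespace Pool.Agent.Lib.MP_009d13_co.OD

open Finset Classical
open Pool.Agent.Lib.MP_009d13_co.P5 (nb kk)

noncomputable section

variable {V : Type} [Fintype V] (G : SimpleGraph V)

theorem nrb_rot1 {l : ℕ} (hl : 3 ≤ l) (j : Fin l) : finRotate l j ≠ j := by
  obtain ⟨m, rfl⟩ : ∃ m, l = m + 3 := ⟨l - 3, by omega⟩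
  rw [finRotate_apply]
  intro h
  have h1 : (1 : Fin (m + 3)) = 0 := add_eq_left.mp h
  have h2 := congrArg Fin.val h1
  simp at h2

theorem nrb_rot2 {l : ℕ} (hl : 3 ≤ l) (j : Fin l) : finRotate l (finRotate l j) ≠ j := by
  obtain ⟨m, rfl⟩ : ∃ m, l = m + 3 := ⟨l - 3, by omega⟩
  rw [finRotate_apply, finRotate_apply, add_assoc]
  intro h
  have h1 : (1 + 1 : Fin (m + 3)) = 0 := add_eq_left.mp h
  have h2 := congrArg Fin.val h1
  rw [Fin.val_add] at h2
  simp at h2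
  rw [Nat.mod_eq_of_lt (by omega)] at h2
  omega

theorem nrb_pair {l : ℕ} (hl : 3 ≤ l) (h : Fin l ↪ V) {i j : Fin l}
    (hij : ({h i, h (finRotate l i)} : Finset V) = {h j, h (finRotate l j)}) : i = j := by
  have h1 : h i ∈ ({h j, h (finRotate l j)} : Finset V) := by rw [← hij]; simp
  have h2 : h (finRotate l i) ∈ ({h j, h (finRotate l j)} : Finset V) := by rw [← hij]; simp
  simp only [mem_insert, mem_singleton, h.injective.eq_iff, EmbeddingLike.apply_eq_iff_eq] at h1 h2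
  rcases h1 with h1 | h1
  · exact h1
  · rcases h2 with h2 | h2
    · rw [h1] at h2
      exact absurd h2 (nrb_rot2 hl j)
    · exact h2

theorem nrb_mem_Hr {l : ℕ} (h : Fin l ↪ V) (v : V) : v ∈ Hr h ↔ ∃ j, h j = v := by
  unfold Hr; simp

theorem nrb_mem_Yj {l : ℕ} (h : Fin l ↪ V) (j : Fin l) (z : V) :
    z ∈ Yj G h j ↔ z ∉ Hr h ∧ kk G (Hr h) z = {h j, h (finRotate l j)} := by
  unfold Yj; simp

theorem nrb_mem_Or {l : ℕ} (h : Fin l ↪ V) (z : V) :
    z ∈ Or G h ↔ z ∉ Hr h ∧ ∀ j, kk G (Hr h) z ≠ {h j, h (finRotate l j)} := by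
  unfold Or; simp

theorem nrb_disj {l : ℕ} (hl : 3 ≤ l) (h : Fin l ↪ V) {i j : Fin l} (hij : i ≠ j) :
    Disjoint (Yj G h i) (Yj G h j) := by
  rw [Finset.disjoint_left]
  intro z hz hz'
  rw [nrb_mem_Yj] at hz hz'
  exact hij (nrb_pair hl h (hz.2.symm.trans hz'.2))

/-- The vertices outside the ring. -/
theorem nrb_compl {l : ℕ} (h : Fin l ↪ V) :
    (Hr h)ᶜ = univ.biUnion (fun j => Yj G h j) ∪ Or G h := by
  ext z
  rw [mem_compl, mem_union, mem_biUnion, nrb_mem_Or]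
  constructor
  · intro hz
    by_cases hj : ∃ j, kk G (Hr h) z = {h j, h (finRotate l j)}
    · obtain ⟨j, hj⟩ := hj
      exact Or.inl ⟨j, mem_univ _, (nrb_mem_Yj G h j z).mpr ⟨hz, hj⟩⟩
    · push Not at hj
      exact Or.inr ⟨hz, hj⟩
  · rintro (⟨j, _, hj⟩ | hz)
    · exact ((nrb_mem_Yj G h j z).mp hj).1
    · exact hz.1

theorem nrb_disj_Or {l : ℕ} (h : Fin l ↪ V) :
    Disjoint (univ.biUnion (fun j => Yj G h j)) (Or G h) := by
  rw [Finset.disjoint_left]
  intro z hz hz'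
  rw [mem_biUnion] at hz
  obtain ⟨j, _, hj⟩ := hz
  exact ((nrb_mem_Or G h z).mp hz').2 j ((nrb_mem_Yj G h j z).mp hj).2

/-- Sums over a set that is intersected with the classes. -/
theorem nrb_split {l : ℕ} (hl : 3 ≤ l) (h : Fin l ↪ V) (S : Finset V) (hS : Disjoint S (Hr h)) :
    S.card = ∑ j, (S ∩ Yj G h j).card + (S ∩ Or G h).card := by
  have h1 : S = S.filter (fun z => z ∈ univ.biUnion (fun j => Yj G h j)) ∪ (S ∩ Or G h) := by
    ext z
    simp only [mem_union, mem_filter, mem_inter]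
    constructor
    · intro hz
      have h2 : z ∈ (Hr h)ᶜ := mem_compl.mpr (Finset.disjoint_left.mp hS hz)
      rw [nrb_compl G h, mem_union] at h2
      rcases h2 with h2 | h2
      · exact Or.inl ⟨hz, h2⟩
      · exact Or.inr ⟨hz, h2⟩
    · rintro (hz | hz)
      · exact hz.1
      · exact hz.1
  have h2 : S.filter (fun z => z ∈ univ.biUnion (fun j => Yj G h j))
      = univ.biUnion (fun j => S ∩ Yj G h j) := by
    ext z
    simp only [mem_filter, mem_biUnion, mem_univ, true_and, mem_inter]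
    constructor
    · rintro ⟨hz, j, hj⟩
      exact ⟨j, hz, hj⟩
    · rintro ⟨j, hz, hj⟩
      exact ⟨hz, j, hj⟩
  have h3 : (univ.biUnion (fun j => S ∩ Yj G h j)).card = ∑ j, (S ∩ Yj G h j).card := by
    apply card_biUnion
    intro i _ j _ hij
    exact (nrb_disj G hl h hij).mono inter_subset_right inter_subset_right
  conv_lhs => rw [h1]
  rw [card_union_of_disjoint, h2, h3]
  rw [h2]
  rw [Finset.disjoint_left]
  intro z hz hz'
  rw [mem_biUnion] at hz
  obtain ⟨j, _, hj⟩ := hz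
  exact Finset.disjoint_left.mp (nrb_disj_Or G h)
    (mem_biUnion.mpr ⟨j, mem_univ _, (mem_inter.mp hj).2⟩) (mem_inter.mp hz').2

theorem nrb_card_Hr {l : ℕ} (h : Fin l ↪ V) : (Hr h).card = l := by
  unfold Hr
  rw [card_map, card_univ, Fintype.card_fin]

theorem nrb_Yj_sub {l : ℕ} (h : Fin l ↪ V) (j : Fin l) : Yj G h j ⊆ (Hr h)ᶜ := by
  intro z hz
  exact mem_compl.mpr ((nrb_mem_Yj G h j z).mp hz).1

theorem nrb_Or_sub {l : ℕ} (h : Fin l ↪ V) : Or G h ⊆ (Hr h)ᶜ := by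
  intro z hz
  exact mem_compl.mpr ((nrb_mem_Or G h z).mp hz).1

theorem card_ring {l : ℕ} (hl : 3 ≤ l) (h : Fin l ↪ V) :
    l + ∑ j, (Yj G h j).card + (Or G h).card = Fintype.card V := by
  have h1 := nrb_split G hl h (Hr h)ᶜ disjoint_compl_left
  have h2 : ∀ j, (Hr h)ᶜ ∩ Yj G h j = Yj G h j := fun j =>
    inter_eq_right.mpr (nrb_Yj_sub G h j)
  have h3 : (Hr h)ᶜ ∩ Or G h = Or G h := inter_eq_right.mpr (nrb_Or_sub G h)
  simp only [h2, h3] at h1
  have h4 := card_compl (Hr h)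
  have h5 := nrb_card_Hr h
  have h6 : (Hr h).card ≤ Fintype.card V := card_le_univ _
  omega

theorem nrb_adj {l : ℕ} (h : Fin l ↪ V) {j : Fin l} {z : V} (hz : z ∈ Yj G h j) :
    G.Adj z (h j) ∧ G.Adj z (h (finRotate l j)) := by
  have h1 := ((nrb_mem_Yj G h j z).mp hz).2
  constructor
  · have : h j ∈ kk G (Hr h) z := by rw [h1]; simp
    simpa [P5.kk, P5.nb] using (mem_inter.mp this).1
  · have : h (finRotate l j) ∈ kk G (Hr h) z := by rw [h1]; simp
    simpa [P5.kk, P5.nb] using (mem_inter.mp this).1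

theorem nb_Yj (hK : P5.NoK33m G) {l : ℕ} (hl : 3 ≤ l) (h : Fin l ↪ V) (j : Fin l) {v : V}
    (hv : v ∉ Hr h) : (nb G v ∩ Yj G h j).card ≤ 2 := by
  have h1 : v ≠ h j := fun e => hv ((nrb_mem_Hr h v).mpr ⟨j, e.symm⟩)
  have h2 : v ≠ h (finRotate l j) := fun e => hv ((nrb_mem_Hr h v).mpr ⟨_, e.symm⟩)
  have h3 : h j ≠ h (finRotate l j) := fun e => nrb_rot1 hl j (h.injective e).symm
  refine le_trans (card_le_card ?_) (P5.three_common G hK h1 h2 h3)
  intro z hz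
  rw [mem_inter] at hz
  have h4 := nrb_adj G h hz.2
  simp only [mem_inter, P5.nb, mem_filter, mem_univ, true_and] at hz ⊢
  exact ⟨⟨hz.1, h4.1.symm⟩, h4.2.symm⟩

theorem pr_Yj (hS : P5.Sparse6 G) {l : ℕ} (hl : 3 ≤ l) (h : Fin l ↪ V) (j : Fin l) :
    (P5.pr G (Yj G h j) (Yj G h j)).card ≤ 2 * (Yj G h j).card + 12 := by
  set Y := Yj G h j with hY
  set T : Finset V := {h j, h (finRotate l j)} with hT
  have h3 : h j ≠ h (finRotate l j) := fun e => nrb_rot1 hl j (h.injective e).symm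
  have hTc : T.card = 2 := card_pair h3
  have hYT : Disjoint Y T := by
    rw [Finset.disjoint_left]
    intro z hz hz'
    have h4 := mem_compl.mp (nrb_Yj_sub G h j hz)
    rw [hT, mem_insert, mem_singleton] at hz'
    rcases hz' with rfl | rfl
    · exact h4 ((nrb_mem_Hr h _).mpr ⟨_, rfl⟩)
    · exact h4 ((nrb_mem_Hr h _).mpr ⟨_, rfl⟩)
  have hadj : ∀ z ∈ Y, ∀ t ∈ T, G.Adj z t := by
    intro z hz t ht
    rw [hT, mem_insert, mem_singleton] at ht
    rcases ht with rfl | rfl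
    · exact (nrb_adj G h hz).1
    · exact (nrb_adj G h hz).2
  have hsub : P5.pr G Y Y ∪ (Y ×ˢ T ∪ T ×ˢ Y) ⊆ P5.pr G (Y ∪ T) (Y ∪ T) := by
    intro p hp
    simp only [mem_union, mem_product, P5.pr, mem_filter, mem_univ, true_and] at hp ⊢
    rcases hp with hp | hp | hp
    · exact ⟨Or.inl hp.1, Or.inl hp.2.1, hp.2.2⟩
    · exact ⟨Or.inl hp.1, Or.inr hp.2, hadj _ hp.1 _ hp.2⟩
    · exact ⟨Or.inr hp.1, Or.inl hp.2, (hadj _ hp.2 _ hp.1).symm⟩
  have hd1 : Disjoint (Y ×ˢ T) (T ×ˢ Y) := by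
    rw [Finset.disjoint_left]
    intro p hp hp'
    rw [mem_product] at hp hp'
    exact Finset.disjoint_left.mp hYT hp.1 hp'.1
  have hd2 : Disjoint (P5.pr G Y Y) (Y ×ˢ T ∪ T ×ˢ Y) := by
    rw [Finset.disjoint_left]
    intro p hp hp'
    simp only [mem_union, mem_product, P5.pr, mem_filter, mem_univ, true_and] at hp hp'
    rcases hp' with hp' | hp'
    · exact Finset.disjoint_left.mp hYT hp.2.1 hp'.2
    · exact Finset.disjoint_left.mp hYT hp.1 hp'.1
  have h5 := card_le_card hsub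
  rw [card_union_of_disjoint hd2, card_union_of_disjoint hd1, card_product, card_product,
    hTc] at h5
  have h6 := hS (Y ∪ T)
  rw [card_union_of_disjoint hYT, hTc] at h6
  omega

theorem nrb_pr_eq (S T : Finset V) :
    (P5.pr G S T).card = ∑ v ∈ S, (nb G v ∩ T).card := by
  have h1 : P5.pr G S T = S.biUnion fun v => (nb G v ∩ T).image fun w => (v, w) := by
    ext ⟨a, b⟩
    simp only [P5.pr, P5.nb, mem_filter, mem_univ, true_and, mem_biUnion, mem_image, mem_inter,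
      Prod.mk.injEq]
    constructor
    · rintro ⟨ha, hb, hab⟩
      exact ⟨a, ha, b, ⟨hab, hb⟩, rfl, rfl⟩
    · rintro ⟨v, hv, w, ⟨hw, hw'⟩, rfl, rfl⟩
      exact ⟨hv, hw', hw⟩
  rw [h1, card_biUnion]
  · refine sum_congr rfl fun v _ => ?_
    apply card_image_of_injective
    intro a b hab
    simpa using hab
  · intro a _ b _ hab
    rw [Function.onFun, Finset.disjoint_left]
    rintro p hp hp'
    rw [mem_image] at hp hp'
    obtain ⟨w, _, rfl⟩ := hp
    obtain ⟨w', _, hw'⟩ := hp'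
    rw [Prod.mk.injEq] at hw'
    exact hab hw'.1.symm

theorem nrb_pr_swap (S T : Finset V) : (P5.pr G S T).card = (P5.pr G T S).card := by
  apply card_bij (fun p _ => (p.2, p.1))
  · intro p hp
    simp only [P5.pr, mem_filter, mem_univ, true_and] at hp ⊢
    exact ⟨hp.2.1, hp.1, hp.2.2.symm⟩
  · rintro ⟨a, b⟩ _ ⟨c, d⟩ _ h
    simp only [Prod.mk.injEq] at h
    rw [h.1, h.2]
  · rintro ⟨a, b⟩ hp
    refine ⟨(b, a), ?_, rfl⟩
    simp only [P5.pr, mem_filter, mem_univ, true_and] at hp ⊢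
    exact ⟨hp.2.1, hp.1, hp.2.2.symm⟩

/-- pairs between different classes -/
theorem pr_cross (hK : P5.NoK33m G) {l : ℕ} (hl : 3 ≤ l) (h : Fin l ↪ V) :
    ∑ i, ∑ j ∈ univ.erase i, (P5.pr G (Yj G h i) (Yj G h j)).card ≤ 16 * l ^ 4 := by
  obtain ⟨Q, hQ1, hQ2, hQ3⟩ := P5.exists_cover G hK (Hr h)
  rw [nrb_card_Hr] at hQ2
  have hQs : ∑ i, (Q ∩ Yj G h i).card ≤ Q.card := by
    have := nrb_split G hl h Q hQ1
    omega
  -- one pair of classes
  have h1 : ∀ i j, i ≠ j → (P5.pr G (Yj G h i) (Yj G h j)).card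
      ≤ 2 * (Q ∩ Yj G h i).card + 2 * (Q ∩ Yj G h j).card := by
    intro i j hij
    have hsub : P5.pr G (Yj G h i) (Yj G h j) ⊆ P5.pr G (Q ∩ Yj G h i) (Yj G h j)
        ∪ P5.pr G (Yj G h i) (Q ∩ Yj G h j) := by
      intro p hp
      simp only [P5.pr, mem_filter, mem_univ, true_and, mem_union, mem_inter] at hp ⊢
      by_contra hcon
      push Not at hcon
      have hq1 : p.1 ∉ Q := fun hq => hcon.1 ⟨hq, hp.1⟩ hp.2.1 hp.2.2
      have hq2 : p.2 ∉ Q := fun hq => hcon.2 hp.1 ⟨hq, hp.2.1⟩ hp.2.2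
      have hm1 := (nrb_mem_Yj G h i p.1).mp hp.1
      have hm2 := (nrb_mem_Yj G h j p.2).mp hp.2.1
      have h2 := hQ3 p.1 p.2 hq1 hq2 hm1.1 hm2.1 (Or.inr hp.2.2)
      have hne : ∀ k : Fin l, h k ≠ h (finRotate l k) := fun k e =>
        nrb_rot1 hl k (h.injective e).symm
      have hc1 : (kk G (Hr h) p.1).card = 2 := by rw [hm1.2]; exact card_pair (hne i)
      have hc2 : (kk G (Hr h) p.2).card = 2 := by rw [hm2.2]; exact card_pair (hne j)
      have e1 : kk G (Hr h) p.1 = kk G (Hr h) p.1 ∪ kk G (Hr h) p.2 :=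
        eq_of_subset_of_card_le subset_union_left (by omega)
      have e2 : kk G (Hr h) p.2 = kk G (Hr h) p.1 ∪ kk G (Hr h) p.2 :=
        eq_of_subset_of_card_le subset_union_right (by omega)
      have e3 : kk G (Hr h) p.1 = kk G (Hr h) p.2 := e1.trans e2.symm
      rw [hm1.2, hm2.2] at e3
      exact hij (nrb_pair hl h e3)
    have h2 : (P5.pr G (Q ∩ Yj G h i) (Yj G h j)).card ≤ 2 * (Q ∩ Yj G h i).card := by
      rw [nrb_pr_eq, mul_comm]
      exact sum_le_card_nsmul _ _ 2 fun v hv => nb_Yj G hK hl h j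
        (Finset.disjoint_left.mp hQ1 (mem_inter.mp hv).1)
    have h3 : (P5.pr G (Yj G h i) (Q ∩ Yj G h j)).card ≤ 2 * (Q ∩ Yj G h j).card := by
      rw [nrb_pr_swap, nrb_pr_eq, mul_comm]
      exact sum_le_card_nsmul _ _ 2 fun v hv => nb_Yj G hK hl h i
        (Finset.disjoint_left.mp hQ1 (mem_inter.mp hv).1)
    exact (card_le_card hsub).trans ((card_union_le _ _).trans (add_le_add h2 h3))
  have h2 : ∑ i, ∑ j ∈ univ.erase i, (P5.pr G (Yj G h i) (Yj G h j)).card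
      ≤ ∑ i : Fin l, ∑ j : Fin l, (2 * (Q ∩ Yj G h i).card + 2 * (Q ∩ Yj G h j).card) := by
    refine sum_le_sum fun i _ => ?_
    refine (sum_le_sum fun j hj => h1 i j (ne_of_mem_erase hj).symm).trans ?_
    exact sum_le_sum_of_subset (erase_subset _ _)
  refine h2.trans ?_
  simp only [sum_add_distrib, sum_const, card_univ, Fintype.card_fin, smul_eq_mul, ← mul_sum]
  calc l * (2 * ∑ i, (Q ∩ Yj G h i).card) + l * (2 * ∑ i, (Q ∩ Yj G h i).card)
      ≤ l * (2 * (4 * l ^ 3)) + l * (2 * (4 * l ^ 3)) := by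
        have := hQs.trans hQ2
        gcongr
    _ = 16 * l ^ 4 := by ring

theorem deg_low (hK : P5.NoK33m G) {l : ℕ} (hl : 3 ≤ l) (h : Fin l ↪ V) {u : V}
    (hu : u ∉ Hr h) : (nb G u).card ≤ 3 * l + (nb G u ∩ Or G h).card ∧
      (nb G u \ Hr h).card ≤ 2 * l + (nb G u ∩ Or G h).card := by
  have h1 := nrb_split G hl h (nb G u \ Hr h) sdiff_disjoint
  have h2 : ∑ j, ((nb G u \ Hr h) ∩ Yj G h j).card ≤ 2 * l := by
    have : ∑ j : Fin l, ((nb G u \ Hr h) ∩ Yj G h j).card ≤ ∑ _j : Fin l, 2 := by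
      refine sum_le_sum fun j _ => ?_
      exact (card_le_card (inter_subset_inter_right sdiff_subset)).trans (nb_Yj G hK hl h j hu)
    refine this.trans (le_of_eq ?_)
    rw [sum_const, card_univ, Fintype.card_fin, smul_eq_mul, mul_comm]
  have h3 : ((nb G u \ Hr h) ∩ Or G h).card ≤ (nb G u ∩ Or G h).card :=
    card_le_card (inter_subset_inter_right sdiff_subset)
  have h4 : (nb G u).card ≤ (nb G u \ Hr h).card + l := by
    have := card_sdiff_add_card (nb G u) (Hr h)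
    have h5 : (nb G u).card ≤ (nb G u ∪ Hr h).card := card_le_card subset_union_left
    rw [nrb_card_Hr] at this
    omega
  constructor <;> omega

theorem sum_nb_Or (hS : P5.Sparse6 G) (hK : P5.NoK33m G) {l : ℕ} (hl : 3 ≤ l) (h : Fin l ↪ V) :
    ∑ u ∈ (Hr h)ᶜ, (nb G u ∩ Or G h).card ≤ (2 * l + 6) * (Or G h).card := by
  rw [← nrb_pr_eq, nrb_pr_swap, nrb_pr_eq]
  have h1 : ∀ z ∈ Or G h, (nb G z ∩ (Hr h)ᶜ).card ≤ 2 * l + (nb G z ∩ Or G h).card := by
    intro z hz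
    have h2 := (deg_low G hK hl h ((nrb_mem_Or G h z).mp hz).1).2
    have h3 : nb G z ∩ (Hr h)ᶜ = nb G z \ Hr h := by
      ext w; simp [mem_sdiff]
    rw [h3]; exact h2
  refine (sum_le_sum h1).trans ?_
  rw [sum_add_distrib, sum_const, smul_eq_mul, ← nrb_pr_eq]
  have h4 := hS (Or G h)
  nlinarith

end

end Pool.Agent.Lib.MP_009d13_co.OD
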