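import Pool.Agent.Lib.MP_009d13_co.OD.Defs2
import Pool.Agent.Lib.MP_009d13_co.OD.NRB
import Pool.Agent.Lib.MP_009d13_co.OD.BDA
import Pool.Agent.Lib.MP_009d13_co.OD.EM
import Pool.Agent.Lib.MP_009d13_co.P5.CONL

/-! NRPC: the pairs of low vertices with an end outside the classes of the ring. -/

set_option autoImplicit false

namespace Pool.Agent.Lib.MP_009d13_co.OD

open Finset Classical
open Pool.Agent.Lib.MP_009d13_co.P5 (nb kk)

noncomputable section

variable {V : Type} [Fintype V] (G : SimpleGraph V)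

/-! ### the weights of the ring -/

theorem nrpc_mem_nb {u v : V} : v ∈ nb G u ↔ G.Adj u v := by simp [P5.nb]

theorem nrpc_kk {l : ℕ} (h : Fin l ↪ V) {z : V} {i : Fin l} (hz : G.Adj (h i) z) :
    h i ∈ kk G (Hr h) z := by
  unfold P5.kk
  rw [mem_inter, nrpc_mem_nb]
  exact ⟨hz.symm, (nrb_mem_Hr h _).mpr ⟨i, rfl⟩⟩

/-- the class of a vertex that is adjacent to `h i` -/
theorem nrpc_one {l : ℕ} (h : Fin l ↪ V) {z : V} (hz : z ∉ Hr h) (hO : z ∉ Or G h)
    {i : Fin l} (hi : G.Adj (h i) z) :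
    ∃ k, z ∈ Yj G h k ∧ (i = k ∨ i = finRotate l k) := by
  rw [nrb_mem_Or] at hO
  push Not at hO
  obtain ⟨k, hk⟩ := hO hz
  refine ⟨k, (nrb_mem_Yj G h k z).mpr ⟨hz, hk⟩, ?_⟩
  have h1 := nrpc_kk G h hi
  rw [hk] at h1
  simpa only [mem_insert, mem_singleton, h.injective.eq_iff] using h1

theorem nrpc_ring {l : ℕ} (hl : 3 ≤ l) (h : Fin l ↪ V) (j : Fin l) :
    mH G (Hr h) (h j) (h (finRotate l j)) ≤ (Yj G h j).card + (Or G h).card := by
  have hsub : (nb G (h j) ∩ nb G (h (finRotate l j))) \ Hr h ⊆ Yj G h j ∪ Or G h := by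
    intro z hz
    rw [mem_sdiff, mem_inter, nrpc_mem_nb, nrpc_mem_nb] at hz
    rw [mem_union]
    by_contra hcon
    push Not at hcon
    obtain ⟨k, hk, h1⟩ := nrpc_one G h hz.2 hcon.2 hz.1.1
    have h2 := nrpc_kk G h hz.1.2
    rw [((nrb_mem_Yj G h k z).mp hk).2] at h2
    simp only [mem_insert, mem_singleton, h.injective.eq_iff, EmbeddingLike.apply_eq_iff_eq] at h2
    rcases h1 with rfl | h1
    · exact hcon.1 hk
    · rcases h2 with h2 | h2
      · rw [h1] at h2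
        exact nrb_rot2 hl k h2
      · rw [h2] at hcon
        exact hcon.1 hk
  have h3 := (card_le_card hsub).trans (card_union_le _ _)
  unfold mH
  split_ifs
  · exact_mod_cast h3
  · positivity

theorem nrpc_chord {l : ℕ} (h : Fin l ↪ V) {i j : Fin l} (hij : i ≠ j)
    (h1 : j ≠ finRotate l i) (h2 : i ≠ finRotate l j) :
    mH G (Hr h) (h i) (h j) ≤ (Or G h).card := by
  have hsub : (nb G (h i) ∩ nb G (h j)) \ Hr h ⊆ Or G h := by
    intro z hz
    rw [mem_sdiff, mem_inter, nrpc_mem_nb, nrpc_mem_nb] at hz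
    by_contra hcon
    obtain ⟨k, hk, h3⟩ := nrpc_one G h hz.2 hcon hz.1.1
    have h4 := nrpc_kk G h hz.1.2
    rw [((nrb_mem_Yj G h k z).mp hk).2] at h4
    simp only [mem_insert, mem_singleton, h.injective.eq_iff] at h4
    rcases h3 with rfl | rfl <;> rcases h4 with rfl | rfl
    · exact hij rfl
    · exact h1 rfl
    · exact h2 rfl
    · exact hij rfl
  have h3 := card_le_card hsub
  unfold mH
  split_ifs
  · exact_mod_cast h3
  · positivity

theorem nrpc_deg {l : ℕ} (h : Fin l ↪ V) (i : Fin l) :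
    dH G (Hr h) (h i) ≤ (Yj G h i).card + (Yj G h ((finRotate l).symm i)).card
      + (Or G h).card := by
  have hsub : nb G (h i) \ Hr h ⊆ (Yj G h i ∪ Yj G h ((finRotate l).symm i)) ∪ Or G h := by
    intro z hz
    rw [mem_sdiff, nrpc_mem_nb] at hz
    rw [mem_union, mem_union]
    by_contra hcon
    push Not at hcon
    obtain ⟨k, hk, h3⟩ := nrpc_one G h hz.2 hcon.2 hz.1
    rcases h3 with rfl | rfl
    · exact hcon.1.1 hk
    · rw [Equiv.symm_apply_apply] at hcon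
      exact hcon.1.2 hk
  have h3 := (card_le_card hsub).trans ((card_union_le _ _).trans
    (Nat.add_le_add_right (card_union_le _ _) _))
  unfold dH
  split_ifs
  · exact_mod_cast h3
  · positivity

theorem nrpc_out {l : ℕ} (h : Fin l ↪ V) (a b : V) (ha : ∀ i, h i ≠ a) :
    mH G (Hr h) a b = 0 ∧ dH G (Hr h) a = 0 := by
  have h1 : a ∉ Hr h := fun hh => by
    obtain ⟨j, hj⟩ := (nrb_mem_Hr h a).mp hh
    exact ha j hj
  unfold mH dH
  exact ⟨if_neg fun h2 => h1 h2.1, if_neg h1⟩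

/-! ### sums over the neighbours -/

theorem nrpc_split {l : ℕ} (hl : 3 ≤ l) (h : Fin l ↪ V) (S : Finset V) (hS : Disjoint S (Hr h))
    (f : V → ℝ) : ∑ y ∈ S, f y = ∑ j, ∑ y ∈ S ∩ Yj G h j, f y + ∑ y ∈ S ∩ Or G h, f y := by
  have h1 : S = univ.biUnion (fun j => S ∩ Yj G h j) ∪ (S ∩ Or G h) := by
    ext z
    simp only [mem_union, mem_biUnion, mem_univ, true_and, mem_inter]
    constructor
    · intro hz
      have h2 : z ∈ (Hr h)ᶜ := mem_compl.mpr (Finset.disjoint_left.mp hS hz)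
      rw [nrb_compl G h, mem_union, mem_biUnion] at h2
      rcases h2 with ⟨j, _, h2⟩ | h2
      · exact Or.inl ⟨j, hz, h2⟩
      · exact Or.inr ⟨hz, h2⟩
    · rintro (⟨j, hz, _⟩ | ⟨hz, _⟩)
      · exact hz
      · exact hz
  have h2 : Disjoint (univ.biUnion (fun j => S ∩ Yj G h j)) (S ∩ Or G h) := by
    rw [Finset.disjoint_left]
    intro z hz hz'
    rw [mem_biUnion] at hz
    obtain ⟨j, _, hj⟩ := hz
    exact Finset.disjoint_left.mp (nrb_disj_Or G h)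
      (mem_biUnion.mpr ⟨j, mem_univ _, (mem_inter.mp hj).2⟩) (mem_inter.mp hz').2
  conv_lhs => rw [h1]
  rw [sum_union h2, sum_biUnion]
  intro i _ j _ hij
  exact (nrb_disj G hl h hij).mono inter_subset_right inter_subset_right

theorem nrpc_pr_sum (S T : Finset V) (f : V → V → ℝ) :
    ∑ p ∈ P5.pr G S T, f p.1 p.2 = ∑ v ∈ S, ∑ y ∈ nb G v ∩ T, f v y := by
  have h1 : P5.pr G S T = S.biUnion fun v => (nb G v ∩ T).image fun w => (v, w) := by
    ext ⟨a, b⟩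
    simp only [P5.pr, P5.nb, mem_filter, mem_univ, true_and, mem_biUnion, mem_image, mem_inter,
      Prod.mk.injEq]
    constructor
    · rintro ⟨ha, hb, hab⟩
      exact ⟨a, ha, b, ⟨hab, hb⟩, rfl, rfl⟩
    · rintro ⟨v, hv, w, ⟨hw, hw'⟩, rfl, rfl⟩
      exact ⟨hv, hw', hw⟩
  rw [h1, sum_biUnion]
  · refine sum_congr rfl fun v _ => ?_
    rw [sum_image (fun a _ b _ hab => by simpa using hab)]
  · intro a _ b _ hab
    rw [Function.onFun, Finset.disjoint_left]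
    rintro p hp hp'
    rw [mem_image] at hp hp'
    obtain ⟨w, _, rfl⟩ := hp
    obtain ⟨w', _, hw'⟩ := hp'
    rw [Prod.mk.injEq] at hw'
    exact hab hw'.1.symm

theorem nrpc_swap (S T : Finset V) (f : V → V → ℝ) (hf : ∀ x y, f x y = f y x) :
    ∑ p ∈ P5.pr G S T, f p.1 p.2 = ∑ p ∈ P5.pr G T S, f p.1 p.2 := by
  apply sum_bij (fun p _ => (p.2, p.1))
  · intro p hp
    simp only [P5.pr, mem_filter, mem_univ, true_and] at hp ⊢
    exact ⟨hp.2.1, hp.1, hp.2.2.symm⟩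
  · rintro ⟨a, b⟩ _ ⟨c, d⟩ _ h
    simp only [Prod.mk.injEq] at h
    rw [h.1, h.2]
  · rintro ⟨a, b⟩ hp
    refine ⟨(b, a), ?_, rfl⟩
    simp only [P5.pr, mem_filter, mem_univ, true_and] at hp ⊢
    exact ⟨hp.2.1, hp.1, hp.2.2.symm⟩
  · intro p _
    exact hf p.1 p.2

/-! ### bounds for the hubs -/

theorem nrpc_sum_Hr {l : ℕ} (h : Fin l ↪ V) (f : V → ℝ) :
    ∑ b ∈ Hr h, f b = ∑ j, f (h j) := by
  unfold Hr
  rw [sum_map]

/-- Upper bounds for the paths of the hubs. -/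
structure NrpcB {l : ℕ} (h : Fin l ↪ V) (E S1 S2 C0 : ℝ) : Prop where
  E0 : 0 ≤ E
  S10 : 0 ≤ S1
  S20 : 0 ≤ S2
  C00 : 0 ≤ C0
  hE : ∀ i, En (mH G (Hr h)) (dH G (Hr h)) l (h i) ≤ E
  hS1 : ∀ i j, So (mH G (Hr h)) (dH G (Hr h)) l (h i) (h j) ≤ S1
  hS2 : ∀ i j, i ≠ j → j ≠ finRotate l i → i ≠ finRotate l j →
    So (mH G (Hr h)) (dH G (Hr h)) l (h i) (h j) ≤ S2
  hC : ∀ x y, ps G (Hr h) l x y ≤ C0

theorem nrpc_So_nonneg {l : ℕ} (h : Fin l ↪ V) (a b : V) :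
    0 ≤ So (mH G (Hr h)) (dH G (Hr h)) l a b :=
  (so_nonneg (wt_mH G (Hr h)).nonneg (dH_nonneg G (Hr h)) l a b).1

theorem nrpc_En_nonneg {l : ℕ} (h : Fin l ↪ V) (a : V) :
    0 ≤ En (mH G (Hr h)) (dH G (Hr h)) l a :=
  (so_nonneg (wt_mH G (Hr h)).nonneg (dH_nonneg G (Hr h)) l a a).2.1

theorem nrpc_SS {l : ℕ} {h : Fin l ↪ V} {E S1 S2 C0 : ℝ} (B : NrpcB G h E S1 S2 C0) {a : V}
    (ha : a ∈ Hr h) :
    ∑ j, So (mH G (Hr h)) (dH G (Hr h)) l a (h j) ≤ 2 * S1 + l * S2 := by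
  obtain ⟨i, rfl⟩ := (nrb_mem_Hr h a).mp ha
  have h1 : ∀ j, So (mH G (Hr h)) (dH G (Hr h)) l (h i) (h j)
      ≤ (if j = finRotate l i then S1 else 0) + (if j = (finRotate l).symm i then S1 else 0)
        + S2 := by
    intro j
    have hS10 := B.S10
    have hS20 := B.S20
    by_cases hj1 : j = finRotate l i
    · rw [if_pos hj1]
      have := B.hS1 i j
      split_ifs <;> linarith
    · by_cases hj2 : j = (finRotate l).symm i
      · rw [if_neg hj1, if_pos hj2]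
        have := B.hS1 i j
        linarith
      · rw [if_neg hj1, if_neg hj2]
        by_cases hij : i = j
        · rw [hij, so_self]
          linarith
        · have := B.hS2 i j hij hj1 (fun e => hj2 (by rw [e, Equiv.symm_apply_apply]))
          linarith
  calc ∑ j, So (mH G (Hr h)) (dH G (Hr h)) l (h i) (h j)
      ≤ ∑ j : Fin l, ((if j = finRotate l i then S1 else 0)
        + (if j = (finRotate l).symm i then S1 else 0) + S2) := sum_le_sum fun j _ => h1 j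
    _ = 2 * S1 + l * S2 := by
        rw [sum_add_distrib, sum_add_distrib, sum_ite_eq', sum_ite_eq', if_pos (mem_univ _),
          if_pos (mem_univ _), sum_const, card_univ, Fintype.card_fin, nsmul_eq_mul]
        ring

theorem nrpc_kk_sub {l : ℕ} (h : Fin l ↪ V) (z : V) : kk G (Hr h) z ⊆ Hr h :=
  Finset.inter_subset_right

theorem nrpc_En_le {l : ℕ} {h : Fin l ↪ V} {E S1 S2 C0 : ℝ} (B : NrpcB G h E S1 S2 C0) {a : V}
    (ha : a ∈ Hr h) : En (mH G (Hr h)) (dH G (Hr h)) l a ≤ E := by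
  obtain ⟨i, rfl⟩ := (nrb_mem_Hr h a).mp ha
  exact B.hE i

/-- one pair, the first vertex is not exceptional -/
theorem nrpc_pair {l : ℕ} {h : Fin l ↪ V} {E S1 S2 C0 : ℝ} (B : NrpcB G h E S1 S2 C0) {o : V}
    (ho : (kk G (Hr h) o).card ≤ 2) (y : V) :
    ps G (Hr h) l o y ≤ 2 * (2 * S1 + l * S2) + 2 * E + l * E := by
  have hE0 := B.E0
  have hS10 := B.S10
  have hS20 := B.S20
  have hl0 : (0 : ℝ) ≤ l := Nat.cast_nonneg _
  have ho' : ((kk G (Hr h) o).card : ℝ) ≤ 2 := by exact_mod_cast ho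
  have h1 : ∑ a ∈ kk G (Hr h) o, ∑ b ∈ kk G (Hr h) y, So (mH G (Hr h)) (dH G (Hr h)) l a b
      ≤ 2 * (2 * S1 + l * S2) := by
    calc _ ≤ ∑ a ∈ kk G (Hr h) o, (2 * S1 + l * S2) := by
          refine sum_le_sum fun a ha => ?_
          refine le_trans ?_ (nrpc_SS G B (nrpc_kk_sub G h o ha))
          rw [← nrpc_sum_Hr h (fun b => So (mH G (Hr h)) (dH G (Hr h)) l a b)]
          exact sum_le_sum_of_subset_of_nonneg (nrpc_kk_sub G h y)
            fun b _ _ => nrpc_So_nonneg G h a b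
      _ = ((kk G (Hr h) o).card : ℝ) * (2 * S1 + l * S2) := by rw [sum_const, nsmul_eq_mul]
      _ ≤ _ := mul_le_mul_of_nonneg_right ho' (by positivity)
  have h2 : ∑ a ∈ kk G (Hr h) o, En (mH G (Hr h)) (dH G (Hr h)) l a ≤ 2 * E := by
    calc _ ≤ ∑ a ∈ kk G (Hr h) o, E :=
          sum_le_sum fun a ha => nrpc_En_le G B (nrpc_kk_sub G h o ha)
      _ = ((kk G (Hr h) o).card : ℝ) * E := by rw [sum_const, nsmul_eq_mul]
      _ ≤ _ := mul_le_mul_of_nonneg_right ho' hE0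
  have h3 : ∑ a ∈ kk G (Hr h) y, En (mH G (Hr h)) (dH G (Hr h)) l a ≤ l * E := by
    have hc : ((kk G (Hr h) y).card : ℝ) ≤ l := by
      have := card_le_card (nrpc_kk_sub G h y)
      rw [nrb_card_Hr] at this
      exact_mod_cast this
    calc _ ≤ ∑ a ∈ kk G (Hr h) y, E :=
          sum_le_sum fun a ha => nrpc_En_le G B (nrpc_kk_sub G h y ha)
      _ = ((kk G (Hr h) y).card : ℝ) * E := by rw [sum_const, nsmul_eq_mul]
      _ ≤ _ := mul_le_mul_of_nonneg_right hc hE0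
  unfold ps
  linarith

/-- the neighbours in the classes of a vertex that is not exceptional -/
theorem nrpc_classes (hK : P5.NoK33m G) {l : ℕ} (hl : 3 ≤ l) {h : Fin l ↪ V}
    {E S1 S2 C0 : ℝ} (B : NrpcB G h E S1 S2 C0) {o : V} (hoH : o ∉ Hr h)
    (ho : (kk G (Hr h) o).card ≤ 2) :
    ∑ j, ∑ y ∈ nb G o ∩ Yj G h j, ps G (Hr h) l o y ≤ 8 * (2 * S1 + l * S2) + 8 * l * E := by
  have hE0 := B.E0
  have hS10 := B.S10
  have hS20 := B.S20
  have hl0 : (0 : ℝ) ≤ l := Nat.cast_nonneg _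
  have ho' : ((kk G (Hr h) o).card : ℝ) ≤ 2 := by exact_mod_cast ho
  set K := kk G (Hr h) o with hKd
  set S : V → V → ℝ := So (mH G (Hr h)) (dH G (Hr h)) l with hSd
  have hS0 : ∀ a b, 0 ≤ S a b := nrpc_So_nonneg G h
  -- one neighbour
  have h1 : ∀ j, ∀ y ∈ nb G o ∩ Yj G h j, ps G (Hr h) l o y
      ≤ ∑ a ∈ K, (S a (h j) + S a (h (finRotate l j))) + 4 * E := by
    intro j y hy
    have hk := ((nrb_mem_Yj G h j y).mp (mem_inter.mp hy).2).2
    have hne : h j ≠ h (finRotate l j) := fun e => nrb_rot1 hl j (h.injective e).symm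
    unfold ps
    rw [hk]
    have h2 : ∑ a ∈ K, ∑ b ∈ ({h j, h (finRotate l j)} : Finset V), S a b
        = ∑ a ∈ K, (S a (h j) + S a (h (finRotate l j))) := by
      refine sum_congr rfl fun a _ => sum_pair hne
    have h3 : ∑ b ∈ ({h j, h (finRotate l j)} : Finset V),
        En (mH G (Hr h)) (dH G (Hr h)) l b ≤ 2 * E := by
      rw [sum_pair hne]
      have := B.hE j
      have := B.hE (finRotate l j)
      linarith
    have h4 : ∑ a ∈ K, En (mH G (Hr h)) (dH G (Hr h)) l a ≤ 2 * E := by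
      calc _ ≤ ∑ a ∈ K, E :=
            sum_le_sum fun a ha => nrpc_En_le G B (nrpc_kk_sub G h o ha)
        _ = (K.card : ℝ) * E := by rw [sum_const, nsmul_eq_mul]
        _ ≤ _ := mul_le_mul_of_nonneg_right ho' hE0
    rw [← h2]
    linarith
  have h2 : ∀ j, ∑ y ∈ nb G o ∩ Yj G h j, ps G (Hr h) l o y
      ≤ 2 * (∑ a ∈ K, (S a (h j) + S a (h (finRotate l j))) + 4 * E) := by
    intro j
    have hc : ((nb G o ∩ Yj G h j).card : ℝ) ≤ 2 := by
      exact_mod_cast nb_Yj G hK hl h j hoH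
    calc _ ≤ ∑ y ∈ nb G o ∩ Yj G h j, (∑ a ∈ K, (S a (h j) + S a (h (finRotate l j))) + 4 * E) :=
          sum_le_sum (h1 j)
      _ = ((nb G o ∩ Yj G h j).card : ℝ) *
          (∑ a ∈ K, (S a (h j) + S a (h (finRotate l j))) + 4 * E) := by
          rw [sum_const, nsmul_eq_mul]
      _ ≤ _ := by
          apply mul_le_mul_of_nonneg_right hc
          have : 0 ≤ ∑ a ∈ K, (S a (h j) + S a (h (finRotate l j))) :=
            sum_nonneg fun a _ => add_nonneg (hS0 _ _) (hS0 _ _)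
          linarith
  have h3 : ∀ a ∈ K, ∑ j, (S a (h j) + S a (h (finRotate l j))) ≤ 2 * (2 * S1 + l * S2) := by
    intro a ha
    have h4 := nrpc_SS G B (nrpc_kk_sub G h o ha)
    rw [sum_add_distrib, Equiv.sum_comp (finRotate l) (fun j => S a (h j))]
    linarith
  have h5 : ∑ j, ∑ a ∈ K, (S a (h j) + S a (h (finRotate l j))) ≤ 4 * (2 * S1 + l * S2) := by
    rw [sum_comm]
    calc _ ≤ ∑ a ∈ K, 2 * (2 * S1 + l * S2) := sum_le_sum h3
      _ = (K.card : ℝ) * (2 * (2 * S1 + l * S2)) := by rw [sum_const, nsmul_eq_mul]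
      _ ≤ 2 * (2 * (2 * S1 + l * S2)) := mul_le_mul_of_nonneg_right ho' (by positivity)
      _ = _ := by ring
  calc _ ≤ ∑ j, 2 * (∑ a ∈ K, (S a (h j) + S a (h (finRotate l j))) + 4 * E) :=
        sum_le_sum fun j _ => h2 j
    _ = 2 * (∑ j, ∑ a ∈ K, (S a (h j) + S a (h (finRotate l j)))) + 8 * l * E := by
        rw [← mul_sum, sum_add_distrib, sum_const, card_univ, Fintype.card_fin, nsmul_eq_mul]
        ring
    _ ≤ _ := by linarith

theorem nrpc_classes_exc (hK : P5.NoK33m G) {l : ℕ} (hl : 3 ≤ l) {h : Fin l ↪ V}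
    {E S1 S2 C0 : ℝ} (B : NrpcB G h E S1 S2 C0) {o : V} (hoH : o ∉ Hr h) :
    ∑ j, ∑ y ∈ nb G o ∩ Yj G h j, ps G (Hr h) l o y ≤ 2 * l * C0 := by
  have hC0 := B.C00
  have h2 : ∀ j, ∑ y ∈ nb G o ∩ Yj G h j, ps G (Hr h) l o y ≤ 2 * C0 := by
    intro j
    have hc : ((nb G o ∩ Yj G h j).card : ℝ) ≤ 2 := by
      exact_mod_cast nb_Yj G hK hl h j hoH
    calc _ ≤ ∑ y ∈ nb G o ∩ Yj G h j, C0 := sum_le_sum fun y _ => B.hC o y
      _ = ((nb G o ∩ Yj G h j).card : ℝ) * C0 := by rw [sum_const, nsmul_eq_mul]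
      _ ≤ _ := mul_le_mul_of_nonneg_right hc hC0
  calc _ ≤ ∑ _j : Fin l, 2 * C0 := sum_le_sum fun j _ => h2 j
    _ = _ := by
        rw [sum_const, card_univ, Fintype.card_fin, nsmul_eq_mul]
        ring

/-- the exceptional vertices -/
def nrpcX {l : ℕ} (h : Fin l ↪ V) : Finset V :=
  (Hr h)ᶜ.filter fun z => 3 ≤ (kk G (Hr h) z).card

theorem nrpc_X_card (hK : P5.NoK33m G) {l : ℕ} (h : Fin l ↪ V) :
    ((nrpcX G h).card : ℝ) ≤ 2 * (l : ℝ) ^ 3 := by
  have := P5.card_exc G hK (Hr h)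
  rw [nrb_card_Hr] at this
  unfold nrpcX
  exact_mod_cast this

theorem nrpc_first (hK : P5.NoK33m G) {l : ℕ} (hl : 3 ≤ l) {h : Fin l ↪ V}
    {E S1 S2 C0 : ℝ} (B : NrpcB G h E S1 S2 C0) :
    ∑ o ∈ Or G h, ∑ j, ∑ y ∈ nb G o ∩ Yj G h j, ps G (Hr h) l o y
      ≤ (Or G h).card * (8 * (2 * S1 + l * S2) + 8 * l * E) + 2 * (l : ℝ) ^ 3 * (2 * l * C0) := by
  have hE0 := B.E0
  have hS10 := B.S10
  have hS20 := B.S20
  have hC0 := B.C00
  have hl0 : (0 : ℝ) ≤ l := Nat.cast_nonneg _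
  have h1 : ∀ o ∈ Or G h, ∑ j, ∑ y ∈ nb G o ∩ Yj G h j, ps G (Hr h) l o y
      ≤ (8 * (2 * S1 + l * S2) + 8 * l * E) + (if o ∈ nrpcX G h then 2 * l * C0 else 0) := by
    intro o ho
    have hoH := ((nrb_mem_Or G h o).mp ho).1
    by_cases hx : (kk G (Hr h) o).card ≤ 2
    · have h2 := nrpc_classes G hK hl B hoH hx
      split_ifs
      · have : 0 ≤ 2 * (l : ℝ) * C0 := by positivity
        linarith
      · linarith
    · have h2 := nrpc_classes_exc G hK hl B hoH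
      have h3 : o ∈ nrpcX G h := by
        unfold nrpcX
        rw [mem_filter, mem_compl]
        exact ⟨hoH, by omega⟩
      rw [if_pos h3]
      have : 0 ≤ 8 * (2 * S1 + l * S2) + 8 * l * E := by positivity
      linarith
  calc _ ≤ ∑ o ∈ Or G h, ((8 * (2 * S1 + l * S2) + 8 * l * E)
        + (if o ∈ nrpcX G h then 2 * l * C0 else 0)) := sum_le_sum h1
    _ = (Or G h).card * (8 * (2 * S1 + l * S2) + 8 * l * E)
        + ((Or G h).filter fun o => o ∈ nrpcX G h).card * (2 * l * C0) := by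
        rw [sum_add_distrib, sum_const, nsmul_eq_mul, ← sum_filter, sum_const, nsmul_eq_mul]
    _ ≤ _ := by
        have h4 : (((Or G h).filter fun o => o ∈ nrpcX G h).card : ℝ) ≤ 2 * (l : ℝ) ^ 3 := by
          refine le_trans ?_ (nrpc_X_card G hK h)
          have : ((Or G h).filter fun o => o ∈ nrpcX G h) ⊆ nrpcX G h := fun z hz =>
            (mem_filter.mp hz).2
          exact_mod_cast card_le_card this
        gcongr

theorem nrpc_second (hS : P5.Sparse6 G) (hK : P5.NoK33m G) {l : ℕ} {h : Fin l ↪ V}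
    {E S1 S2 C0 : ℝ} (B : NrpcB G h E S1 S2 C0) :
    ∑ p ∈ P5.pr G (Or G h) (Or G h), ps G (Hr h) l p.1 p.2
      ≤ 6 * (Or G h).card * (2 * (2 * S1 + l * S2) + 2 * E + l * E)
        + (2 * (l : ℝ) ^ 3) ^ 2 * C0 := by
  have hE0 := B.E0
  have hS10 := B.S10
  have hS20 := B.S20
  have hC0 := B.C00
  have hl0 : (0 : ℝ) ≤ l := Nat.cast_nonneg _
  set M : ℝ := 2 * (2 * S1 + l * S2) + 2 * E + l * E with hM
  have hM0 : 0 ≤ M := by positivity
  have h1 : ∀ p ∈ P5.pr G (Or G h) (Or G h), ps G (Hr h) l p.1 p.2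
      ≤ M + (if p ∈ nrpcX G h ×ˢ nrpcX G h then C0 else 0) := by
    intro p hp
    simp only [P5.pr, mem_filter, mem_univ, true_and] at hp
    have h1H := ((nrb_mem_Or G h p.1).mp hp.1).1
    have h2H := ((nrb_mem_Or G h p.2).mp hp.2.1).1
    by_cases hx : (kk G (Hr h) p.1).card ≤ 2
    · have h2 := nrpc_pair G B hx p.2
      split_ifs <;> linarith
    · by_cases hy : (kk G (Hr h) p.2).card ≤ 2
      · have h2 := nrpc_pair G B hy p.1
        rw [ps_comm] at h2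
        split_ifs <;> linarith
      · have h3 : p ∈ nrpcX G h ×ˢ nrpcX G h := by
          rw [mem_product]
          unfold nrpcX
          rw [mem_filter, mem_filter, mem_compl, mem_compl]
          exact ⟨⟨h1H, by omega⟩, h2H, by omega⟩
        rw [if_pos h3]
        have := B.hC p.1 p.2
        linarith
  calc _ ≤ ∑ p ∈ P5.pr G (Or G h) (Or G h),
        (M + (if p ∈ nrpcX G h ×ˢ nrpcX G h then C0 else 0)) := sum_le_sum h1
    _ = (P5.pr G (Or G h) (Or G h)).card * M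
        + ((P5.pr G (Or G h) (Or G h)).filter fun p => p ∈ nrpcX G h ×ˢ nrpcX G h).card * C0 := by
        rw [sum_add_distrib, sum_const, nsmul_eq_mul, ← sum_filter, sum_const, nsmul_eq_mul]
    _ ≤ _ := by
        have h4 : (((P5.pr G (Or G h) (Or G h)).filter
            fun p => p ∈ nrpcX G h ×ˢ nrpcX G h).card : ℝ) ≤ (2 * (l : ℝ) ^ 3) ^ 2 := by
          have h5 : ((P5.pr G (Or G h) (Or G h)).filter
            fun p => p ∈ nrpcX G h ×ˢ nrpcX G h) ⊆ nrpcX G h ×ˢ nrpcX G h := fun z hz =>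
            (mem_filter.mp hz).2
          have h6 := card_le_card h5
          rw [card_product] at h6
          have h7 : (((P5.pr G (Or G h) (Or G h)).filter
            fun p => p ∈ nrpcX G h ×ˢ nrpcX G h).card : ℝ)
            ≤ ((nrpcX G h).card : ℝ) * ((nrpcX G h).card : ℝ) := by exact_mod_cast h6
          have h8 := nrpc_X_card G hK h
          calc _ ≤ ((nrpcX G h).card : ℝ) * ((nrpcX G h).card : ℝ) := h7
            _ ≤ (2 * (l : ℝ) ^ 3) * (2 * (l : ℝ) ^ 3) :=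
                mul_le_mul h8 h8 (Nat.cast_nonneg _) (by positivity)
            _ = _ := by ring
        have h5 : ((P5.pr G (Or G h) (Or G h)).card : ℝ) ≤ 6 * (Or G h).card := by
          exact_mod_cast hS (Or G h)
        gcongr

theorem nrpc_main (hS : P5.Sparse6 G) (hK : P5.NoK33m G) {l : ℕ} (hl : 3 ≤ l) {h : Fin l ↪ V}
    {E S1 S2 C0 : ℝ} (B : NrpcB G h E S1 S2 C0) :
    ∑ p ∈ (P5.pr G (Hr h)ᶜ (Hr h)ᶜ).filter (fun p => ¬ (p.1 ∉ Or G h ∧ p.2 ∉ Or G h)),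
        ps G (Hr h) l p.1 p.2
      ≤ 2 * ((Or G h).card * (8 * (2 * S1 + l * S2) + 8 * l * E) + 2 * (l : ℝ) ^ 3 * (2 * l * C0)
        + (6 * (Or G h).card * (2 * (2 * S1 + l * S2) + 2 * E + l * E)
        + (2 * (l : ℝ) ^ 3) ^ 2 * C0)) := by
  have hps := ps_nonneg G (Hr h) l
  have hOr := nrb_Or_sub G h
  have hsub : (P5.pr G (Hr h)ᶜ (Hr h)ᶜ).filter (fun p => ¬ (p.1 ∉ Or G h ∧ p.2 ∉ Or G h))
      ⊆ P5.pr G (Or G h) (Hr h)ᶜ ∪ P5.pr G (Hr h)ᶜ (Or G h) := by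
    intro p hp
    simp only [P5.pr, mem_filter, mem_univ, true_and, mem_union] at hp ⊢
    by_cases h1 : p.1 ∈ Or G h
    · exact Or.inl ⟨h1, hp.1.2.1, hp.1.2.2⟩
    · by_cases h2 : p.2 ∈ Or G h
      · exact Or.inr ⟨hp.1.1, h2, hp.1.2.2⟩
      · exact absurd ⟨h1, h2⟩ hp.2
  have h1 : ∑ p ∈ (P5.pr G (Hr h)ᶜ (Hr h)ᶜ).filter (fun p => ¬ (p.1 ∉ Or G h ∧ p.2 ∉ Or G h)),
        ps G (Hr h) l p.1 p.2
      ≤ 2 * ∑ p ∈ P5.pr G (Or G h) (Hr h)ᶜ, ps G (Hr h) l p.1 p.2 := by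
    calc _ ≤ ∑ p ∈ P5.pr G (Or G h) (Hr h)ᶜ ∪ P5.pr G (Hr h)ᶜ (Or G h), ps G (Hr h) l p.1 p.2 :=
          sum_le_sum_of_subset_of_nonneg hsub fun p _ _ => hps _ _
      _ ≤ ∑ p ∈ P5.pr G (Or G h) (Hr h)ᶜ, ps G (Hr h) l p.1 p.2
          + ∑ p ∈ P5.pr G (Hr h)ᶜ (Or G h), ps G (Hr h) l p.1 p.2 := by
          rw [← sum_union_inter]
          have : 0 ≤ ∑ p ∈ P5.pr G (Or G h) (Hr h)ᶜ ∩ P5.pr G (Hr h)ᶜ (Or G h),
            ps G (Hr h) l p.1 p.2 := sum_nonneg fun p _ => hps _ _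
          linarith
      _ = _ := by
          rw [nrpc_swap G (Hr h)ᶜ (Or G h) (fun x y => ps G (Hr h) l x y)
            (fun x y => ps_comm G (Hr h) l x y)]
          ring
  refine h1.trans (mul_le_mul_of_nonneg_left ?_ (by norm_num))
  rw [nrpc_pr_sum G (Or G h) (Hr h)ᶜ (fun x y => ps G (Hr h) l x y)]
  have h2 : ∀ o ∈ Or G h, ∑ y ∈ nb G o ∩ (Hr h)ᶜ, ps G (Hr h) l o y
      = ∑ j, ∑ y ∈ nb G o ∩ Yj G h j, ps G (Hr h) l o y
        + ∑ y ∈ nb G o ∩ Or G h, ps G (Hr h) l o y := by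
    intro o _
    rw [nrpc_split G hl h (nb G o ∩ (Hr h)ᶜ)
      (Finset.disjoint_left.mpr fun z hz => mem_compl.mp (mem_inter.mp hz).2)]
    congr 1
    · refine sum_congr rfl fun j _ => ?_
      have : nb G o ∩ (Hr h)ᶜ ∩ Yj G h j = nb G o ∩ Yj G h j := by
        rw [inter_assoc, inter_eq_right.mpr (nrb_Yj_sub G h j)]
      rw [this]
    · have : nb G o ∩ (Hr h)ᶜ ∩ Or G h = nb G o ∩ Or G h := by
        rw [inter_assoc, inter_eq_right.mpr hOr]
      rw [this]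
  rw [sum_congr rfl h2, sum_add_distrib,
    ← nrpc_pr_sum G (Or G h) (Or G h) (fun x y => ps G (Hr h) l x y)]
  exact add_le_add (nrpc_first G hK hl B) (nrpc_second G hS hK B)

end

end Pool.Agent.Lib.MP_009d13_co.OD
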