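import Pool.Agent.Lib.MP_009d13_co.OD.Defs2
import Pool.Agent.Lib.MP_009d13_co.OD.LS1
import Pool.Agent.Lib.MP_009d13_co.OD.LS4

/-!
# The functional near a ring, upper bounds

First the sums are reduced to lists of positions on the ring (type `W`, identified with `ZMod l` by `φ`).
A list without repetition all of whose links are ring links is an arc (`nrs_arc_char`).
-/

set_option autoImplicit false

namespace Pool.Agent.Lib.MP_009d13_co.OD

open Finset Classical

noncomputable section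

variable {V : Type} [Fintype V]

/-! ### Reduction to the ring -/

section red

variable {W : Type} [Fintype W]

theorem nrs_mem_map (h : W ↪ V) {A : Finset W} {A' : Finset V} (hA : ∀ i, h i ∈ A' ↔ i ∈ A)
    {k : ℕ} {L : List W} : L ∈ NL A k ↔ L.map h ∈ NL A' k := by
  rw [mem_NL, mem_NL, List.length_map, List.nodup_map_iff h.injective]
  simp [hA]

theorem nrs_red (h : W ↪ V) {A : Finset W} {A' : Finset V} (hA : ∀ i, h i ∈ A' ↔ i ∈ A) (k : ℕ)
    (f : List V → ℝ)
    (hf : ∀ L : List V, L.length = k → (∃ x ∈ L, ∀ i, h i ≠ x) → f L = 0) :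
    ∑ L ∈ NL A' k, f L = ∑ L ∈ NL A k, f (L.map h) := by
  rw [← Finset.sum_image (f := f) (g := List.map h) (s := NL A k)
    (fun a _ b _ hab => List.map_injective_iff.2 h.injective hab)]
  symm
  refine Finset.sum_subset ?_ ?_
  · intro L hL
    rw [mem_image] at hL
    obtain ⟨L0, hL0, rfl⟩ := hL
    exact (nrs_mem_map h hA).1 hL0
  · intro L hL hL'
    refine hf L (mem_NL.1 hL).1 ?_
    by_contra hc
    push Not at hc
    have h1 : L ∈ Set.range (List.map h) := by
      rw [Set.range_list_map]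
      intro x hx
      exact hc x hx
    obtain ⟨L0, rfl⟩ := h1
    exact hL' (mem_image_of_mem _ ((nrs_mem_map h hA).2 hL))

theorem nrs_pw_map (μ : V → V → ℝ) (h : W ↪ V) :
    ∀ L : List W, pw μ (L.map h) = pw (fun i j => μ (h i) (h j)) L
  | [] => rfl
  | [_] => rfl
  | a :: b :: t => by
    have ih := nrs_pw_map μ h (b :: t)
    rw [List.map_cons] at ih
    rw [List.map_cons, List.map_cons]
    change μ (h a) (h b) * pw μ _ = μ (h a) (h b) * pw _ _
    rw [ih]

theorem nrs_hd_map (g : V → ℝ) (h : W ↪ V) (L : List W) :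
    hd g (L.map h) = hd (fun i => g (h i)) L := by
  cases L <;> rfl

theorem nrs_ls_map (g : V → ℝ) (h : W ↪ V) (L : List W) :
    ls g (L.map h) = ls (fun i => g (h i)) L := by
  unfold ls
  rw [← List.map_reverse, nrs_hd_map]

theorem nrs_off {μ : V → V → ℝ} (hμ : Wt μ) (h : W ↪ V)
    (hz : ∀ a b, (∀ i, h i ≠ a) → μ a b = 0) :
    ∀ L : List V, 2 ≤ L.length → (∃ x ∈ L, ∀ i, h i ≠ x) → pw μ L = 0
  | [], h1, _ => by simp at h1
  | [_], h1, _ => by simp at h1
  | a :: b :: t, _, ⟨x, hx, hxo⟩ => by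
    change μ a b * pw μ (b :: t) = 0
    rw [List.mem_cons] at hx
    rcases hx with rfl | hx
    · rw [hz x b hxo, zero_mul]
    · cases t with
      | nil =>
        rw [List.mem_singleton] at hx
        subst hx
        rw [hμ.symm, hz x a hxo, zero_mul]
      | cons c t =>
        rw [nrs_off hμ h hz (b :: c :: t) (by simp) ⟨x, hx, hxo⟩, mul_zero]

theorem nrs_offd {μ : V → V → ℝ} (hμ : Wt μ) (h : W ↪ V)
    (hz : ∀ a b, (∀ i, h i ≠ a) → μ a b = 0) {d : V → ℝ} (hd0 : ∀ a, (∀ i, h i ≠ a) → d a = 0)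
    (L : List V) (hL : ∃ x ∈ L, ∀ i, h i ≠ x) : hd d L * pw μ L = 0 ∧ pw μ L * ls d L = 0 := by
  rcases Nat.lt_or_ge L.length 2 with h1 | h1
  · cases L with
    | nil => simp at hL
    | cons a t =>
      cases t with
      | nil =>
        obtain ⟨x, hx, hxo⟩ := hL
        rw [List.mem_singleton] at hx
        subst hx
        simp [hd, ls, hd0 x hxo]
      | cons b t => simp at h1
  · rw [nrs_off hμ h hz L h1 hL]
    simp

theorem nrs_En {μ : V → V → ℝ} (hμ : Wt μ) (h : W ↪ V)
    (hz : ∀ a b, (∀ i, h i ≠ a) → μ a b = 0) {d : V → ℝ} (hd0 : ∀ a, (∀ i, h i ≠ a) → d a = 0)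
    (l : ℕ) (i : W) :
    En μ d l (h i) = En (fun i j => μ (h i) (h j)) (fun i => d (h i)) l i := by
  unfold En
  rw [nrs_red h (A := (∅ : Finset W)) (A' := (∅ : Finset V)) (fun i => by simp) l _
    (fun L _ hL => by
      rw [mul_assoc, (nrs_offd hμ h hz hd0 L hL).2, mul_zero])]
  refine Finset.sum_congr rfl fun L _ => ?_
  rw [nrs_hd_map, nrs_pw_map, nrs_ls_map]
  have e : (fun j : W => if h j = h i then (1 : ℝ) else 0) = fun u => if u = i then 1 else 0 := by
    funext j
    by_cases hj : j = i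
    · simp [hj]
    · rw [if_neg hj, if_neg (fun hh => hj (h.injective hh))]
  rw [e]

theorem nrs_So {μ : V → V → ℝ} (hμ : Wt μ) (h : W ↪ V)
    (hz : ∀ a b, (∀ i, h i ≠ a) → μ a b = 0) {d : V → ℝ} (hd0 : ∀ a, (∀ i, h i ≠ a) → d a = 0)
    (l : ℕ) (i j : W) :
    So μ d l (h i) (h j) = So (fun i j => μ (h i) (h j)) (fun i => d (h i)) l i j := by
  unfold So CC
  refine Finset.sum_congr rfl fun k _ => ?_
  rw [nrs_red h (A := (∅ : Finset W)) (A' := (∅ : Finset V)) (fun i => by simp) (k + 1) _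
    (fun L _ hL => by
      refine Finset.sum_eq_zero fun Q _ => ?_
      rw [(nrs_offd hμ h hz hd0 L hL).1]
      ring)]
  refine Finset.sum_congr rfl fun P _ => ?_
  rw [nrs_red h (A := P.toFinset) (A' := (P.map h).toFinset) (fun i => by simp) _ _
    (fun L _ hL => by
      rw [mul_assoc, (nrs_offd hμ h hz hd0 L hL).2, mul_zero])]
  refine Finset.sum_congr rfl fun Q _ => ?_
  rw [nrs_hd_map, nrs_pw_map, nrs_ls_map, nrs_pw_map, nrs_ls_map]
  have e : (fun u : W => hd (fun w : V => if h u = h i ∧ w = h j then (1 : ℝ) else 0) (Q.map h)) =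
      fun u => hd (fun w : W => if u = i ∧ w = j then (1 : ℝ) else 0) Q := by
    funext u
    rw [nrs_hd_map]
    congr 1
    funext w
    by_cases hj : u = i ∧ w = j
    · rw [if_pos hj, if_pos ⟨by rw [hj.1], by rw [hj.2]⟩]
    · rw [if_neg hj, if_neg (fun hh => hj ⟨h.injective hh.1, h.injective hh.2⟩)]
  rw [e]

end red

/-! ### Arcs -/

section arcs

variable {W : Type} {l : ℕ} (φ : W ≃ ZMod l)

/-- direction -/
def nrs_s (l : ℕ) (s : Bool) : ZMod l := if s then 1 else -1

theorem nrs_s_sq (l : ℕ) (s : Bool) : nrs_s l s * nrs_s l s = 1 := by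
  cases s <;> simp [nrs_s]

/-- neighbours on the ring -/
def nrs_lk (x y : W) : Prop := φ y = φ x + 1 ∨ φ x = φ y + 1

/-- arcs -/
def nrs_arc (s : Bool) (k : ℕ) (x : W) : List W :=
  (List.range k).map fun u : ℕ => φ.symm (φ x + nrs_s l s * (u : ZMod l))

theorem nrs_arc_succ (s : Bool) (k : ℕ) (x : W) :
    nrs_arc φ s (k + 1) x = x :: nrs_arc φ s k (φ.symm (φ x + nrs_s l s)) := by
  unfold nrs_arc
  rw [List.range_succ_eq_map, List.map_cons, List.map_map]
  congr 1
  · simp
  · refine List.map_congr_left fun u _ => ?_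
    simp only [Function.comp, Equiv.apply_symm_apply]
    congr 1
    push_cast
    ring

theorem nrs_arc_one (s : Bool) (x : W) : nrs_arc φ s 1 x = [x] := by
  rw [nrs_arc_succ]
  rfl

theorem nrs_mem_arc (s : Bool) {k u : ℕ} (hu : u < k) (x : W) :
    φ.symm (φ x + nrs_s l s * (u : ZMod l)) ∈ nrs_arc φ s k x := by
  unfold nrs_arc
  exact List.mem_map.2 ⟨u, List.mem_range.2 hu, rfl⟩

theorem nrs_arc_char : ∀ (L : List W) (x : W), (x :: L).IsChain (nrs_lk φ) → (x :: L).Nodup →
    ∃ s : Bool, x :: L = nrs_arc φ s (L.length + 1) x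
  | [], x, _, _ => ⟨true, by rw [List.length_nil, nrs_arc_one]⟩
  | y :: T, x, hc, hn => by
    rw [List.isChain_cons_cons] at hc
    obtain ⟨s', hs'⟩ := nrs_arc_char T y hc.2 (List.nodup_cons.1 hn).2
    have hdir : ∃ s : Bool, y = φ.symm (φ x + nrs_s l s) := by
      rcases hc.1 with h | h
      · exact ⟨true, by rw [nrs_s, if_pos rfl, ← h, Equiv.symm_apply_apply]⟩
      · refine ⟨false, ?_⟩
        rw [nrs_s, if_neg (by simp), h, add_neg_cancel_right, Equiv.symm_apply_apply]
    obtain ⟨s, hs⟩ := hdir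
    by_cases hss : s' = s
    · refine ⟨s, ?_⟩
      rw [List.length_cons, nrs_arc_succ, ← hs, hs', hss]
    · cases T with
      | nil =>
        refine ⟨s, ?_⟩
        rw [List.length_cons, List.length_nil, nrs_arc_succ, ← hs, nrs_arc_one]
      | cons z T =>
        exfalso
        rw [List.length_cons, nrs_arc_succ, nrs_arc_succ] at hs'
        have h2 : z = φ.symm (φ y + nrs_s l s') := by
          have := List.cons.inj hs'
          exact (List.cons.inj this.2).1
        have h3 : nrs_s l s' = -nrs_s l s := by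
          cases s <;> cases s' <;> simp [nrs_s] at hss ⊢
        have h4 : z = x := by
          rw [h2, h3, hs, Equiv.apply_symm_apply, add_neg_cancel_right, Equiv.symm_apply_apply]
        rw [h4] at hn
        simp at hn

/-- two disjoint arcs that cover the ring -/
theorem nrs_two [NeZero l] (s s' : Bool) (α β : ZMod l) {p q : ℕ} (hp : 1 ≤ p)
    (hpq : p + q = l)
    (hd : ∀ u < p, ∀ v < q, α + nrs_s l s * (u : ZMod l) ≠ β + nrs_s l s' * (v : ZMod l))
    (hq : 1 ≤ q) (h1 : α ≠ β + 1) (h2 : β ≠ α + 1) :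
    p = (nrs_s l s * (β - α)).val := by
  set σ := nrs_s l s with hσ
  have hσ2 : σ * σ = 1 := nrs_s_sq l s
  set t := (σ * (β - α)).val with ht
  have htl : t < l := ZMod.val_lt _
  have htc : ((t : ℕ) : ZMod l) = σ * (β - α) := by rw [ht, ZMod.natCast_zmod_val]
  have hβ : β = α + σ * (t : ZMod l) := by
    rw [htc, ← mul_assoc, hσ2]
    ring
  have hl0 : ((l : ℕ) : ZMod l) = 0 := ZMod.natCast_self l
  -- t ≥ p
  have hpt : p ≤ t := by
    by_contra hc
    push Not at hc
    refine hd t hc 0 (by omega) ?_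
    rw [← hβ]
    simp
  by_cases hss : s' = s
  · by_contra hne
    have hlt : p < t := lt_of_le_of_ne hpt hne
    refine hd 0 (by omega) (l - t) (by omega) ?_
    rw [hss, ← hσ, hβ, Nat.cast_sub htl.le, hl0]
    push_cast
    ring
  · exfalso
    have h3 : nrs_s l s' = -σ := by
      rw [hσ]
      cases s <;> cases s' <;> simp [nrs_s] at hss ⊢
    by_cases htl1 : t = l - 1
    · have h4 : β = α - σ := by
        rw [hβ, htl1, Nat.cast_sub (by omega), hl0]
        push_cast
        ring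
      rw [hσ] at h4
      cases s
      · simp [nrs_s] at h4
        exact h2 h4
      · simp [nrs_s] at h4
        exact h1 (by rw [h4]; ring)
    · refine hd (p - 1) (by omega) (t - p + 1) (by omega) ?_
      rw [h3, hβ, Nat.cast_sub hp]
      push_cast [Nat.cast_sub hpt]
      ring

end arcs

/-! ### Bounds on the ring -/

section core

variable {W : Type} [Fintype W] {l : ℕ} (φ : W ≃ ZMod l) {μ : W → W → ℝ} {Y τ : ℝ}

theorem nrs_pw_le (h0 : ∀ a b, 0 ≤ μ a b) (h1 : ∀ a b, μ a b ≤ Y) :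
    ∀ (L : List W) (n : ℕ), L.length = n + 1 → pw μ L ≤ Y ^ n
  | [], n, h => by simp at h
  | [a], n, h => by
    have : n = 0 := by simpa using h.symm
    subst this
    simp [pw]
  | a :: b :: t, n, h => by
    obtain ⟨m, rfl⟩ : ∃ m, n = m + 1 := ⟨n - 1, by simp at h; omega⟩
    have ih := nrs_pw_le h0 h1 (b :: t) m (by simp at h ⊢; omega)
    change μ a b * pw μ (b :: t) ≤ _
    rw [pow_succ']
    exact mul_le_mul (h1 a b) ih (pw_nonneg μ h0 _) ((h0 a b).trans (h1 a b))

theorem nrs_pw_bad (h0 : ∀ a b, 0 ≤ μ a b) (h1 : ∀ a b, μ a b ≤ Y)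
    (h2 : ∀ a b, ¬ nrs_lk φ a b → μ a b ≤ τ) (hY : 0 ≤ Y) (hτ : 0 ≤ τ) :
    ∀ (L : List W) (n : ℕ), L.length = n + 1 → ¬ L.IsChain (nrs_lk φ) →
      pw μ L * Y ≤ τ * Y ^ n
  | [], n, h, _ => by simp at h
  | [a], n, h, hc => by simp at hc
  | a :: b :: t, n, h, hc => by
    obtain ⟨m, rfl⟩ : ∃ m, n = m + 1 := ⟨n - 1, by simp at h; omega⟩
    have hlen : (b :: t).length = m + 1 := by simp at h ⊢; omega
    change μ a b * pw μ (b :: t) * Y ≤ _
    by_cases hl : nrs_lk φ a b
    · have hc' : ¬ (b :: t).IsChain (nrs_lk φ) := fun hh =>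
        hc (List.isChain_cons_cons.2 ⟨hl, hh⟩)
      have ih := nrs_pw_bad h0 h1 h2 hY hτ (b :: t) m hlen hc'
      calc μ a b * pw μ (b :: t) * Y = μ a b * (pw μ (b :: t) * Y) := by ring
        _ ≤ Y * (τ * Y ^ m) := mul_le_mul (h1 a b) ih
            (mul_nonneg (pw_nonneg μ h0 _) hY) hY
        _ = _ := by ring
    · have ih := nrs_pw_le h0 h1 (b :: t) m hlen
      calc μ a b * pw μ (b :: t) * Y ≤ τ * Y ^ m * Y :=
            mul_le_mul_of_nonneg_right (mul_le_mul (h2 a b hl) ih (pw_nonneg μ h0 _) hτ) hY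
        _ = _ := by ring

theorem nrs_core_En (h0 : ∀ a b, 0 ≤ μ a b) (h1 : ∀ a b, μ a b ≤ Y)
    (h2 : ∀ a b, ¬ nrs_lk φ a b → μ a b ≤ τ) (hτ : 0 ≤ τ) (hτY : τ ≤ Y) {d : W → ℝ}
    (d0 : ∀ a, 0 ≤ d a) (d1 : ∀ a, d a ≤ 2 * Y + τ) (hl : 1 ≤ l) (a : W) :
    En μ d l a ≤ 2 * (Y ^ (l - 1) * (2 * Y + τ)) +
      ((NL (∅ : Finset W) l).card : ℝ) * (3 * (τ * Y ^ (l - 1))) := by
  obtain ⟨k, rfl⟩ : ∃ k, l = k + 1 := ⟨l - 1, by omega⟩
  have hY : 0 ≤ Y := hτ.trans hτY
  rw [Nat.add_sub_cancel]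
  set G : ℝ := Y ^ k * (2 * Y + τ) with hG
  set B : ℝ := 3 * (τ * Y ^ k) with hB
  have hG0 : 0 ≤ G := by rw [hG]; positivity
  have hB0 : 0 ≤ B := by rw [hB]; positivity
  have key : ∀ L ∈ NL (∅ : Finset W) (k + 1),
      hd (fun u => if u = a then (1 : ℝ) else 0) L * pw μ L * ls d L ≤
      (if L = nrs_arc φ true (k + 1) a then G else 0) +
      (if L = nrs_arc φ false (k + 1) a then G else 0) + B := by
    intro L hL
    rw [mem_NL] at hL
    obtain ⟨hlen, hnd, -⟩ := hL
    cases L with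
    | nil => simp at hlen
    | cons x T =>
      have hls0 := ls_nonneg d0 (x :: T)
      have hls1 : ls d (x :: T) ≤ 2 * Y + τ := by
        unfold ls
        cases hr : (x :: T).reverse with
        | nil => simp at hr
        | cons z R => exact d1 z
      have hpw0 := pw_nonneg μ h0 (x :: T)
      have hA : 0 ≤ (if (x :: T) = nrs_arc φ true (k + 1) a then G else 0) := by
        split_ifs <;> simp [hG0]
      have hA' : 0 ≤ (if (x :: T) = nrs_arc φ false (k + 1) a then G else 0) := by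
        split_ifs <;> simp [hG0]
      change (if x = a then (1 : ℝ) else 0) * pw μ (x :: T) * ls d (x :: T) ≤ _
      by_cases hxa : x = a
      · rw [if_pos hxa, one_mul]
        by_cases hc : (x :: T).IsChain (nrs_lk φ)
        · obtain ⟨s, hs⟩ := nrs_arc_char φ T x hc hnd
          have hT : T.length + 1 = k + 1 := by simpa using hlen
          rw [hT, hxa] at hs
          rw [hxa] at hpw0 hls0 hls1 hA hA' ⊢
          have h3 : pw μ (a :: T) * ls d (a :: T) ≤ G := by
            rw [hG]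
            exact mul_le_mul (nrs_pw_le h0 h1 (a :: T) k (by simpa using hT)) hls1 hls0
              (pow_nonneg hY k)
          cases s
          · rw [if_pos hs] at hA' ⊢
            linarith
          · rw [if_pos hs] at hA ⊢
            linarith
        · have h3 := nrs_pw_bad φ h0 h1 h2 hY hτ (x :: T) k hlen hc
          have h4 : pw μ (x :: T) * ls d (x :: T) ≤ B := by
            calc pw μ (x :: T) * ls d (x :: T) ≤ pw μ (x :: T) * (3 * Y) :=
                  mul_le_mul_of_nonneg_left (by linarith) hpw0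
              _ = 3 * (pw μ (x :: T) * Y) := by ring
              _ ≤ B := by rw [hB]; linarith
          linarith
      · rw [if_neg hxa]
        simp only [zero_mul]
        linarith
  unfold En
  refine (Finset.sum_le_sum key).trans ?_
  rw [Finset.sum_add_distrib, Finset.sum_add_distrib, Finset.sum_ite_eq', Finset.sum_ite_eq',
    Finset.sum_const, nsmul_eq_mul]
  have e1 : (if nrs_arc φ true (k + 1) a ∈ NL (∅ : Finset W) (k + 1) then G else 0) ≤ G := by
    split_ifs <;> simp [hG0]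
  have e2 : (if nrs_arc φ false (k + 1) a ∈ NL (∅ : Finset W) (k + 1) then G else 0) ≤ G := by
    split_ifs <;> simp [hG0]
  linarith

/-- number of pairs of disjoint lists -/
def nrs_N (W : Type) [Fintype W] (l : ℕ) : ℝ :=
  ∑ i ∈ range (l - 1), ∑ P ∈ NL (∅ : Finset W) (i + 1),
    ∑ _Q ∈ NL P.toFinset (l - 1 - i), (1 : ℝ)

theorem nrs_N_nonneg (W : Type) [Fintype W] (l : ℕ) : 0 ≤ nrs_N W l := by
  unfold nrs_N
  positivity

/-- the two arcs are disjoint -/
def nrs_D (a b : W) (i : ℕ) (s s' : Bool) : Prop :=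
  nrs_arc φ s' (l - 1 - i) b ∈ NL (nrs_arc φ s (i + 1) a).reverse.toFinset (l - 1 - i)

theorem nrs_core_So (hs : ∀ a b, μ a b = μ b a) (h0 : ∀ a b, 0 ≤ μ a b) (h1 : ∀ a b, μ a b ≤ Y)
    (h2 : ∀ a b, ¬ nrs_lk φ a b → μ a b ≤ τ) (hτ : 0 ≤ τ) (hτY : τ ≤ Y) {d : W → ℝ}
    (d0 : ∀ a, 0 ≤ d a) (d1 : ∀ a, d a ≤ 2 * Y + τ) (hl : 4 ≤ l) (a b : W) :
    So μ d l a b ≤ (∑ i ∈ range (l - 1), ∑ s : Bool, ∑ s' : Bool,
        if nrs_D φ a b i s s' then Y ^ (l - 2) * (2 * Y + τ) ^ 2 else 0) +
      nrs_N W l * (9 * (τ * Y ^ (l - 1))) := by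
  have hY : 0 ≤ Y := hτ.trans hτY
  set G : ℝ := Y ^ (l - 2) * (2 * Y + τ) ^ 2 with hG
  set B : ℝ := 9 * (τ * Y ^ (l - 1)) with hB
  have hG0 : 0 ≤ G := by rw [hG]; positivity
  have hB0 : 0 ≤ B := by rw [hB]; positivity
  have key : ∀ i ∈ range (l - 1), ∀ P ∈ NL (∅ : Finset W) (i + 1),
      ∀ Q ∈ NL P.toFinset (l - 1 - i),
      hd d P * pw μ P * ls (fun u => hd (fun w => if u = a ∧ w = b then (1 : ℝ) else 0) Q) P *
        pw μ Q * ls d Q ≤
      (∑ s : Bool, ∑ s' : Bool, if P = (nrs_arc φ s (i + 1) a).reverse ∧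
        Q = nrs_arc φ s' (l - 1 - i) b then G else 0) + B := by
    intro i hi P hP Q hQ
    rw [mem_range] at hi
    rw [mem_NL] at hP hQ
    obtain ⟨hlP, hnP, -⟩ := hP
    obtain ⟨hlQ, hnQ, -⟩ := hQ
    have hS0 : 0 ≤ ∑ s : Bool, ∑ s' : Bool, (if P = (nrs_arc φ s (i + 1) a).reverse ∧
        Q = nrs_arc φ s' (l - 1 - i) b then G else 0) := by
      refine Finset.sum_nonneg fun s _ => Finset.sum_nonneg fun s' _ => ?_
      split_ifs <;> simp [hG0]
    cases hr : P.reverse with
    | nil =>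
      rw [List.reverse_eq_nil_iff] at hr
      rw [hr] at hlP
      simp at hlP
    | cons x T =>
      cases Q with
      | nil => simp at hlQ; omega
      | cons y T' =>
        have e1 : ls (fun u => hd (fun w => if u = a ∧ w = b then (1 : ℝ) else 0) (y :: T')) P =
            if x = a ∧ y = b then 1 else 0 := by
          unfold ls
          rw [hr]
          rfl
        rw [e1]
        have hPr : P = (x :: T).reverse := by rw [← hr, List.reverse_reverse]
        have hpwP : pw μ P = pw μ (x :: T) := by rw [hPr, pw_reverse μ hs]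
        have hlen : (x :: T).length = i + 1 := by rw [← hr, List.length_reverse, hlP]
        have hnd : (x :: T).Nodup := by rw [← hr, List.nodup_reverse]; exact hnP
        by_cases hxy : x = a ∧ y = b
        · rw [if_pos hxy, mul_one, hpwP]
          have hd1 : hd d P ≤ 2 * Y + τ := by
            cases P with
            | nil => simp at hlP
            | cons z R => exact d1 z
          have hd0' := hd_nonneg d0 P
          have hls0 := ls_nonneg d0 (y :: T')
          have hls1 : ls d (y :: T') ≤ 2 * Y + τ := by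
            unfold ls
            cases hr' : (y :: T').reverse with
            | nil => simp at hr'
            | cons z R => exact d1 z
          have hp0 := pw_nonneg μ h0 (x :: T)
          have hq0 := pw_nonneg μ h0 (y :: T')
          obtain ⟨q, hq⟩ : ∃ q, l - 1 - i = q + 1 := ⟨l - 1 - i - 1, by omega⟩
          have hp1 := nrs_pw_le h0 h1 (x :: T) i hlen
          have hq1 := nrs_pw_le h0 h1 (y :: T') q (by rw [hlQ, hq])
          have hiq : i + q = l - 2 := by omega
          have hiq1 : i + q + 1 = l - 1 := by omega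
          by_cases hc : (x :: T).IsChain (nrs_lk φ)
          · by_cases hc' : (y :: T').IsChain (nrs_lk φ)
            · obtain ⟨s, hs1⟩ := nrs_arc_char φ T x hc hnd
              obtain ⟨s', hs2⟩ := nrs_arc_char φ T' y hc' hnQ
              have hT : T.length + 1 = i + 1 := by simpa using hlen
              have hT' : T'.length + 1 = l - 1 - i := by simpa using hlQ
              rw [hT, hxy.1] at hs1
              rw [hT', hxy.2] at hs2
              have h3 : hd d P * pw μ (x :: T) * pw μ (y :: T') * ls d (y :: T') ≤ G := by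
                calc hd d P * pw μ (x :: T) * pw μ (y :: T') * ls d (y :: T')
                    ≤ (2 * Y + τ) * Y ^ i * Y ^ q * (2 * Y + τ) := by gcongr
                  _ = G := by rw [hG, ← hiq, pow_add]; ring
              have h4 : G ≤ ∑ s : Bool, ∑ s' : Bool,
                  (if P = (nrs_arc φ s (i + 1) a).reverse ∧
                  (y :: T') = nrs_arc φ s' (l - 1 - i) b then G else 0) := by
                have h5 : ∀ s s' : Bool, 0 ≤ (if P = (nrs_arc φ s (i + 1) a).reverse ∧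
                  (y :: T') = nrs_arc φ s' (l - 1 - i) b then G else 0) := by
                  intro s s'
                  split_ifs <;> simp [hG0]
                refine le_trans ?_ (Finset.single_le_sum (f := fun s : Bool => ∑ s' : Bool,
                  (if P = (nrs_arc φ s (i + 1) a).reverse ∧
                  (y :: T') = nrs_arc φ s' (l - 1 - i) b then G else 0))
                  (fun s _ => Finset.sum_nonneg fun s' _ => h5 s s') (Finset.mem_univ s))
                refine le_trans ?_ (Finset.single_le_sum (f := fun s' : Bool =>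
                  (if P = (nrs_arc φ s (i + 1) a).reverse ∧
                  (y :: T') = nrs_arc φ s' (l - 1 - i) b then G else 0))
                  (fun s' _ => h5 s s') (Finset.mem_univ s'))
                rw [if_pos]
                refine ⟨?_, ?_⟩
                · rw [hPr, ← hs1, hxy.1]
                · rw [← hs2, hxy.2]
              linarith
            · have h3 := nrs_pw_bad φ h0 h1 h2 hY hτ (y :: T') q (by rw [hlQ, hq]) hc'
              have h4 : hd d P * pw μ (x :: T) * pw μ (y :: T') * ls d (y :: T') ≤ B := by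
                calc hd d P * pw μ (x :: T) * pw μ (y :: T') * ls d (y :: T')
                    ≤ (3 * Y) * Y ^ i * pw μ (y :: T') * (3 * Y) := by
                      gcongr <;> linarith
                  _ = 9 * Y ^ (i + 1) * (pw μ (y :: T') * Y) := by ring
                  _ ≤ 9 * Y ^ (i + 1) * (τ * Y ^ q) :=
                      mul_le_mul_of_nonneg_left h3 (by positivity)
                  _ = B := by rw [hB, ← hiq1]; ring
              linarith
          · have h3 := nrs_pw_bad φ h0 h1 h2 hY hτ (x :: T) i hlen hc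
            have h4 : hd d P * pw μ (x :: T) * pw μ (y :: T') * ls d (y :: T') ≤ B := by
              calc hd d P * pw μ (x :: T) * pw μ (y :: T') * ls d (y :: T')
                  ≤ (3 * Y) * pw μ (x :: T) * Y ^ q * (3 * Y) := by
                    gcongr <;> linarith
                _ = 9 * Y ^ (q + 1) * (pw μ (x :: T) * Y) := by ring
                _ ≤ 9 * Y ^ (q + 1) * (τ * Y ^ i) :=
                    mul_le_mul_of_nonneg_left h3 (by positivity)
                _ = B := by rw [hB, ← hiq1]; ring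
            linarith
        · rw [if_neg hxy]
          simp only [mul_zero, zero_mul]
          linarith
  unfold So CC
  refine (Finset.sum_le_sum fun i hi => Finset.sum_le_sum fun P hP =>
    Finset.sum_le_sum fun Q hQ => key i hi P hP Q hQ).trans ?_
  have e2 : ∀ i ∈ range (l - 1), ∑ P ∈ NL (∅ : Finset W) (i + 1),
      ∑ Q ∈ NL P.toFinset (l - 1 - i), ((∑ s : Bool, ∑ s' : Bool,
        if P = (nrs_arc φ s (i + 1) a).reverse ∧
        Q = nrs_arc φ s' (l - 1 - i) b then G else 0) + B) ≤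
      (∑ s : Bool, ∑ s' : Bool,
        if nrs_arc φ s' (l - 1 - i) b ∈
          NL (nrs_arc φ s (i + 1) a).reverse.toFinset (l - 1 - i) then G else 0) +
      (∑ P ∈ NL (∅ : Finset W) (i + 1), ∑ _Q ∈ NL P.toFinset (l - 1 - i), (1 : ℝ)) * B := by
    intro i _
    simp_rw [Finset.sum_add_distrib]
    refine add_le_add ?_ (le_of_eq ?_)
    · have e3 : ∑ P ∈ NL (∅ : Finset W) (i + 1), ∑ Q ∈ NL P.toFinset (l - 1 - i),
          (∑ s : Bool, ∑ s' : Bool, if P = (nrs_arc φ s (i + 1) a).reverse ∧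
            Q = nrs_arc φ s' (l - 1 - i) b then G else 0) =
          ∑ s : Bool, ∑ s' : Bool, ∑ P ∈ NL (∅ : Finset W) (i + 1),
            ∑ Q ∈ NL P.toFinset (l - 1 - i), (if P = (nrs_arc φ s (i + 1) a).reverse ∧
            Q = nrs_arc φ s' (l - 1 - i) b then G else 0) := by
        calc _ = ∑ P ∈ NL (∅ : Finset W) (i + 1), ∑ s : Bool, ∑ s' : Bool,
            ∑ Q ∈ NL P.toFinset (l - 1 - i), (if P = (nrs_arc φ s (i + 1) a).reverse ∧
            Q = nrs_arc φ s' (l - 1 - i) b then G else 0) := by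
              refine Finset.sum_congr rfl fun P _ => ?_
              rw [Finset.sum_comm]
              refine Finset.sum_congr rfl fun s _ => ?_
              rw [Finset.sum_comm]
          _ = _ := by
              rw [Finset.sum_comm]
              refine Finset.sum_congr rfl fun s _ => ?_
              rw [Finset.sum_comm]
      rw [e3]
      refine Finset.sum_le_sum fun s _ => Finset.sum_le_sum fun s' _ => ?_
      set P0 := (nrs_arc φ s (i + 1) a).reverse with hP0
      set Q0 := nrs_arc φ s' (l - 1 - i) b with hQ0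
      have e4 : ∀ P ∈ NL (∅ : Finset W) (i + 1), ∑ Q ∈ NL P.toFinset (l - 1 - i),
          (if P = P0 ∧ Q = Q0 then G else 0) ≤
          if P = P0 then (if Q0 ∈ NL P0.toFinset (l - 1 - i) then G else 0) else 0 := by
        intro P _
        by_cases hP : P = P0
        · rw [if_pos hP, hP]
          simp only [true_and]
          rw [Finset.sum_ite_eq']
        · rw [if_neg hP]
          simp [hP]
      refine (Finset.sum_le_sum e4).trans ?_
      rw [Finset.sum_ite_eq']
      split_ifs <;> simp [hG0]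
    · rw [Finset.sum_mul]
      refine Finset.sum_congr rfl fun P _ => ?_
      rw [Finset.sum_mul]
      simp
  refine (Finset.sum_le_sum e2).trans ?_
  rw [Finset.sum_add_distrib, ← Finset.sum_mul]
  refine add_le_add (le_of_eq ?_) le_rfl
  refine Finset.sum_congr rfl fun i _ => Finset.sum_congr rfl fun s _ =>
    Finset.sum_congr rfl fun s' _ => ?_
  exact if_congr Iff.rfl rfl rfl

/-- the number of good pairs, general case -/
theorem nrs_count_all {G : ℝ} (hG0 : 0 ≤ G) (D : ℕ → Bool → Bool → Prop) :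
    (∑ i ∈ range (l - 1), ∑ s : Bool, ∑ s' : Bool, if D i s s' then G else 0) ≤ 4 * l * G := by
  have h1 : ∀ i ∈ range (l - 1), (∑ s : Bool, ∑ s' : Bool, if D i s s' then G else 0) ≤
      4 * G := by
    intro i _
    calc (∑ s : Bool, ∑ s' : Bool, if D i s s' then G else 0) ≤ ∑ _s : Bool, ∑ _s' : Bool, G := by
          refine Finset.sum_le_sum fun s _ => Finset.sum_le_sum fun s' _ => ?_
          split_ifs <;> simp [hG0]
      _ = 4 * G := by simp; ring
  refine (Finset.sum_le_sum h1).trans ?_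
  rw [Finset.sum_const, card_range, nsmul_eq_mul]
  have h2 : ((l - 1 : ℕ) : ℝ) ≤ l := by exact_mod_cast Nat.sub_le l 1
  have h3 : ((l - 1 : ℕ) : ℝ) * (4 * G) ≤ l * (4 * G) := mul_le_mul_of_nonneg_right h2 (by positivity)
  linarith

/-- the number of good pairs for a chord -/
theorem nrs_count_chord {G : ℝ} (hG0 : 0 ≤ G) (D : ℕ → Bool → Bool → Prop)
    (t : Bool → ℕ) (ht : ∀ i s s', i < l - 1 → D i s s' → i + 1 = t s) :
    (∑ i ∈ range (l - 1), ∑ s : Bool, ∑ s' : Bool, if D i s s' then G else 0) ≤ 4 * G := by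
  have h1 : (∑ i ∈ range (l - 1), ∑ s : Bool, ∑ s' : Bool, if D i s s' then G else 0) ≤
      ∑ i ∈ range (l - 1), ∑ s : Bool, ∑ _s' : Bool, if i = t s - 1 then G else 0 := by
    refine Finset.sum_le_sum fun i hi => Finset.sum_le_sum fun s _ => Finset.sum_le_sum
      fun s' _ => ?_
    rw [mem_range] at hi
    by_cases hD : D i s s'
    · have := ht i s s' hi hD
      rw [if_pos hD, if_pos (by omega)]
    · rw [if_neg hD]
      split_ifs <;> simp [hG0]
  refine h1.trans ?_
  rw [Finset.sum_comm]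
  have h2 : ∀ s : Bool, ∑ i ∈ range (l - 1), ∑ _s' : Bool, (if i = t s - 1 then G else 0) ≤
      2 * G := by
    intro s
    rw [Finset.sum_comm]
    calc _ ≤ ∑ _s' : Bool, G := by
          refine Finset.sum_le_sum fun s' _ => ?_
          rw [Finset.sum_ite_eq']
          split_ifs <;> simp [hG0]
      _ = 2 * G := by simp
  calc _ ≤ ∑ _s : Bool, 2 * G := Finset.sum_le_sum fun s _ => h2 s
    _ = 4 * G := by simp; ring

end core

theorem nrs_disj {W : Type} [Fintype W] {l : ℕ} (φ : W ≃ ZMod l) {s s' : Bool} {i : ℕ} {a b : W}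
    (hD : nrs_D φ a b i s s') :
    ∀ u < i + 1, ∀ v < l - 1 - i,
      φ a + nrs_s l s * (u : ZMod l) ≠ φ b + nrs_s l s' * (v : ZMod l) := by
  intro u hu v hv he
  unfold nrs_D at hD
  rw [mem_NL] at hD
  refine hD.2.2 _ (nrs_mem_arc φ s' hv b) ?_
  rw [List.mem_toFinset, List.mem_reverse, ← he]
  exact nrs_mem_arc φ s hu a

theorem ring_bounds {l : ℕ} (hl : 4 ≤ l) : ∃ C : ℝ, 0 ≤ C ∧ ∀ (V : Type) [Fintype V]
    (h : Fin l ↪ V) (μ : V → V → ℝ) (d : V → ℝ) (Y τ : ℝ), Wt μ → 0 ≤ τ → τ ≤ Y →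
    (∀ j, μ (h j) (h (finRotate l j)) ≤ Y) →
    (∀ i j, i ≠ j → j ≠ finRotate l i → i ≠ finRotate l j → μ (h i) (h j) ≤ τ) →
    (∀ a b, (∀ i, h i ≠ a) → μ a b = 0) → (∀ a, 0 ≤ d a) → (∀ i, d (h i) ≤ 2 * Y + τ) →
    (∀ a, (∀ i, h i ≠ a) → d a = 0) →
    (∀ i, En μ d l (h i) ≤ 8 * Y ^ l + C * τ * Y ^ (l - 1)) ∧
    (∀ i j, So μ d l (h i) (h j) ≤ 16 * l * Y ^ l + C * τ * Y ^ (l - 1)) ∧
    (∀ i j, i ≠ j → j ≠ finRotate l i → i ≠ finRotate l j →
      So μ d l (h i) (h j) ≤ 16 * Y ^ l + C * τ * Y ^ (l - 1)) := by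
  have : NeZero l := ⟨by omega⟩
  let φ : Fin l ≃ ZMod l := (ZMod.finEquiv l).toEquiv
  have hφ : ∀ i, φ (finRotate l i) = φ i + 1 := by
    intro i
    change (ZMod.finEquiv l) (finRotate l i) = (ZMod.finEquiv l) i + 1
    rw [finRotate_apply, map_add, map_one]
  have hlk : ∀ i j, nrs_lk φ i j → j = finRotate l i ∨ i = finRotate l j := by
    intro i j hij
    rcases hij with hij | hij
    · left
      refine φ.injective ?_
      rw [hφ, hij]
    · right
      refine φ.injective ?_
      rw [hφ, hij]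
  set N1 : ℝ := ((NL (∅ : Finset (Fin l)) l).card : ℝ) with hN1
  have hN10 : 0 ≤ N1 := by rw [hN1]; positivity
  set N2 : ℝ := nrs_N (Fin l) l with hN2
  have hN20 : 0 ≤ N2 := nrs_N_nonneg _ _
  refine ⟨2 + 3 * N1 + 20 * l + 9 * N2, by positivity, ?_⟩
  intro V _ h μ d Y τ hμ hτ hτY hr hn hz hd0 hd1 hdz
  have hY : 0 ≤ Y := hτ.trans hτY
  have m0 : ∀ a b : Fin l, 0 ≤ μ (h a) (h b) := fun a b => hμ.nonneg _ _
  have m2 : ∀ a b : Fin l, ¬ nrs_lk φ a b → μ (h a) (h b) ≤ τ := by
    intro a b hab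
    by_cases he : a = b
    · rw [he, hμ.diag]
      exact hτ
    · refine hn a b he (fun h1 => hab ?_) (fun h1 => hab ?_)
      · left
        rw [h1, hφ]
      · right
        rw [h1, hφ]
  have m1 : ∀ a b : Fin l, μ (h a) (h b) ≤ Y := by
    intro a b
    by_cases hab : nrs_lk φ a b
    · rcases hlk a b hab with h1 | h1
      · rw [h1]
        exact hr a
      · rw [h1, hμ.symm]
        exact hr b
    · exact (m2 a b hab).trans hτY
  have ms : ∀ a b : Fin l, μ (h a) (h b) = μ (h b) (h a) := fun a b => hμ.symm _ _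
  have hYl : Y ^ l = Y * Y ^ (l - 1) := by
    rw [← pow_succ']
    congr 1
    omega
  have hY1 : Y ^ (l - 1) = Y * Y ^ (l - 2) := by
    rw [← pow_succ']
    congr 1
    omega
  have hP1 : 0 ≤ Y ^ (l - 1) := pow_nonneg hY _
  have hP2 : 0 ≤ Y ^ (l - 2) := pow_nonneg hY _
  have hPl : 0 ≤ Y ^ l := pow_nonneg hY _
  have hτP : 0 ≤ τ * Y ^ (l - 1) := mul_nonneg hτ hP1
  have hl1 : (1 : ℝ) ≤ l := by exact_mod_cast (show 1 ≤ l by omega)
  -- the value of a good pair
  have hG : Y ^ (l - 2) * (2 * Y + τ) ^ 2 ≤ 4 * Y ^ l + 5 * (τ * Y ^ (l - 1)) := by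
    have e1 : Y ^ (l - 2) * (2 * Y + τ) ^ 2 =
        4 * Y ^ l + 4 * (τ * Y ^ (l - 1)) + τ * (τ * Y ^ (l - 2)) := by
      rw [hYl, hY1]; ring
    have e2 : τ * (τ * Y ^ (l - 2)) ≤ τ * Y ^ (l - 1) := by
      rw [hY1]
      exact mul_le_mul_of_nonneg_left (mul_le_mul_of_nonneg_right hτY hP2) hτ
    linarith
  have hG0 : 0 ≤ Y ^ (l - 2) * (2 * Y + τ) ^ 2 := by positivity
  refine ⟨fun i => ?_, fun i j => ?_, fun i j hij h1 h2 => ?_⟩
  · rw [nrs_En hμ h hz hdz l i]
    refine (nrs_core_En φ m0 m1 m2 hτ hτY (fun a => hd0 (h a)) hd1 (by omega) i).trans ?_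
    have e1 : 2 * (Y ^ (l - 1) * (2 * Y + τ)) = 4 * Y ^ l + 2 * (τ * Y ^ (l - 1)) := by
      rw [hYl]; ring
    have e2 : 0 ≤ (20 * l + 9 * N2) * (τ * Y ^ (l - 1)) := by positivity
    have e3 : N1 * (3 * (τ * Y ^ (l - 1))) = 3 * N1 * (τ * Y ^ (l - 1)) := by ring
    have e4 : (2 + 3 * N1 + 20 * l + 9 * N2) * τ * Y ^ (l - 1) =
        2 * (τ * Y ^ (l - 1)) + 3 * N1 * (τ * Y ^ (l - 1)) +
        (20 * l + 9 * N2) * (τ * Y ^ (l - 1)) := by ring
    rw [e1, e4, ← hN1, e3]
    linarith
  · rw [nrs_So hμ h hz hdz l i j]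
    refine (nrs_core_So φ ms m0 m1 m2 hτ hτY (fun a => hd0 (h a)) hd1 hl i j).trans ?_
    have e0 := nrs_count_all (l := l) hG0 (nrs_D φ i j)
    have e1 : 4 * l * (Y ^ (l - 2) * (2 * Y + τ) ^ 2) ≤
        4 * l * (4 * Y ^ l + 5 * (τ * Y ^ (l - 1))) :=
      mul_le_mul_of_nonneg_left hG (by positivity)
    have e4 : (2 + 3 * N1 + 20 * l + 9 * N2) * τ * Y ^ (l - 1) =
        20 * l * (τ * Y ^ (l - 1)) + N2 * (9 * (τ * Y ^ (l - 1))) +
        (2 + 3 * N1) * (τ * Y ^ (l - 1)) := by ring
    have e5 : 0 ≤ (2 + 3 * N1) * (τ * Y ^ (l - 1)) := by positivity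
    rw [e4]
    linarith
  · rw [nrs_So hμ h hz hdz l i j]
    refine (nrs_core_So φ ms m0 m1 m2 hτ hτY (fun a => hd0 (h a)) hd1 hl i j).trans ?_
    have e0 := nrs_count_chord (l := l) hG0 (nrs_D φ i j)
      (fun s => (nrs_s l s * (φ j - φ i)).val)
      (fun k s s' hk hD => nrs_two s s' (φ i) (φ j) (p := k + 1) (q := l - 1 - k) (by omega)
        (by omega) (nrs_disj φ hD) (by omega)
        (fun hh => h2 (φ.injective (by rw [hφ, hh]))) (fun hh => h1 (φ.injective (by rw [hφ, hh]))))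
    have e1 : 4 * (Y ^ (l - 2) * (2 * Y + τ) ^ 2) ≤
        4 * (4 * Y ^ l + 5 * (τ * Y ^ (l - 1))) := mul_le_mul_of_nonneg_left hG (by positivity)
    have e4 : (2 + 3 * N1 + 20 * l + 9 * N2) * τ * Y ^ (l - 1) =
        20 * l * (τ * Y ^ (l - 1)) + N2 * (9 * (τ * Y ^ (l - 1))) +
        (2 + 3 * N1) * (τ * Y ^ (l - 1)) := by ring
    have e5 : 0 ≤ (2 + 3 * N1) * (τ * Y ^ (l - 1)) := by positivity
    have e6 : 20 * (τ * Y ^ (l - 1)) ≤ 20 * l * (τ * Y ^ (l - 1)) := by
      have : 20 * (τ * Y ^ (l - 1)) * 1 ≤ 20 * (τ * Y ^ (l - 1)) * l :=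
        mul_le_mul_of_nonneg_left hl1 (by positivity)
      linarith
    rw [e4]
    linarith

end

end Pool.Agent.Lib.MP_009d13_co.OD
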