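import Pool.Agent.Lib.MP_009d13_co.OD.NRPA
import Pool.Agent.Lib.MP_009d13_co.OD.NRPC
import Pool.Agent.Lib.MP_009d13_co.OD.NRS
import Pool.Agent.Lib.MP_009d13_co.OD.BDB
import Pool.Agent.Lib.MP_009d13_co.OD.CFG

/-! NRP: the pairs of low vertices near a ring, `κ = 2 l ^ 3`. -/

set_option autoImplicit false

namespace Pool.Agent.Lib.MP_009d13_co.OD

open Finset Classical
open Pool.Agent.Lib.MP_009d13_co.P5 (nb kk)

noncomputable section

theorem nrp_ms_mono {V : Type} [Fintype V] {μ μ' : V → V → ℝ} (h : ∀ a b, μ a b ≤ μ' a b) :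
    ms μ ∅ ≤ ms μ' ∅ := by
  unfold ms
  have : ∑ a ∈ (∅ : Finset V)ᶜ, ∑ b ∈ (∅ : Finset V)ᶜ, μ a b
      ≤ ∑ a ∈ (∅ : Finset V)ᶜ, ∑ b ∈ (∅ : Finset V)ᶜ, μ' a b :=
    sum_le_sum fun a _ => sum_le_sum fun b _ => h a b
  linarith

/-- the final computation -/
theorem nrp_num {l t P n1 C1 c0 N : ℝ} (hl : 1 ≤ l) (ht : 0 ≤ t) (hP : 0 ≤ P) (hn1 : 0 ≤ n1)
    (hC1 : 0 ≤ C1) (hc0 : 0 ≤ c0) (hN : 0 ≤ N) :
    (12 * l + 16 * l ^ 4) * (c0 * N)
      + 2 * (t * (8 * (2 * (48 * l * P + C1 * t * n1) + l * (48 * P + C1 * t * n1))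
          + 8 * l * (24 * P + C1 * t * n1)) + 2 * l ^ 3 * (2 * l * (c0 * N))
        + (6 * t * (2 * (2 * (48 * l * P + C1 * t * n1) + l * (48 * P + C1 * t * n1))
          + 2 * (24 * P + C1 * t * n1) + l * (24 * P + C1 * t * n1))
        + (2 * l ^ 3) ^ 2 * (c0 * N)))
      ≤ 10 ^ 5 * l * t * P + ((104 + 68 * l) * C1
        + (12 * l + 24 * l ^ 4 + 8 * l ^ 6) * c0) * (N + t ^ 2 * n1) := by
  have h1 : 0 ≤ (104 + 68 * l) * C1 * N := by positivity
  have h2 : 0 ≤ (12 * l + 24 * l ^ 4 + 8 * l ^ 6) * c0 * (t ^ 2 * n1) := by positivity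
  have h3 : 0 ≤ t * P := by positivity
  have h4 : 576 * (t * P) ≤ 576 * l * (t * P) := by
    have := mul_le_mul_of_nonneg_right hl h3
    linarith
  have h5 : 0 ≤ l * (t * P) := by positivity
  nlinarith

theorem ps_ring {l : ℕ} (hl : 1000 ≤ l) : ∃ C N : ℝ, ∀ (V : Type) [Fintype V]
    (G : SimpleGraph V) (h : Fin l ↪ V), P5.Sparse6 G → P5.NoK33m G →
    N ≤ (Fintype.card V : ℝ) →
    (∀ j, ((Yj G h j).card : ℝ) ≤ (1 + 1 / (100 * l)) * ((Fintype.card V : ℝ) / l)) →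
    ((Or G h).card : ℝ) ≤ (Fintype.card V : ℝ) / (100 * l ^ 2) →
    ∑ p ∈ P5.pr G (Hr h)ᶜ (Hr h)ᶜ, ps G (Hr h) l p.1 p.2
      ≤ 2 * (l + 1) * Wo (muG G (Hr h) (2 * (l : ℝ) ^ 3))
          (dn (muG G (Hr h) (2 * (l : ℝ) ^ 3)) (nuG G (Hr h) (2 * (l : ℝ) ^ 3))) l
        + 10 ^ 5 * l * (Or G h).card * ((Fintype.card V : ℝ) / l) ^ l
        + C * ((Fintype.card V : ℝ) ^ l
          + ((Or G h).card : ℝ) ^ 2 * (Fintype.card V : ℝ) ^ (l - 1)) := by
  obtain ⟨C1, hC1, hrb⟩ := ring_bounds (l := l) (by omega)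
  refine ⟨(104 + 68 * (l : ℝ)) * C1
    + (12 * (l : ℝ) + 24 * (l : ℝ) ^ 4 + 8 * (l : ℝ) ^ 6) * (40 * l * 2 ^ l),
    4 * (l : ℝ) ^ 5, ?_⟩
  intro V _ G h hS hK hN hY hO
  set n : ℝ := (Fintype.card V : ℝ) with hn
  set t : ℝ := ((Or G h).card : ℝ) with ht
  have hl1 : (1000 : ℝ) ≤ l := by exact_mod_cast hl
  have hl0 : (0 : ℝ) < l := by linarith
  have hn0 : 0 ≤ n := Nat.cast_nonneg _
  have ht0 : 0 ≤ t := Nat.cast_nonneg _
  have hnl : 0 ≤ n / l := by positivity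
  -- crude data
  have hcfg := cfg G (Hr h) hK
  rw [nrb_card_Hr] at hcfg
  obtain ⟨_, hmu, _, hmass, _, _⟩ := hcfg
  have hm : ms (mH G (Hr h)) ∅ ≤ 2 * n := by
    have h1 := nrp_ms_mono hmu
    have h2 : 0 ≤ ∑ a, nuG G (Hr h) (2 * (l : ℝ) ^ 3) a := by
      refine sum_nonneg fun a _ => ?_
      unfold nuG
      split_ifs
      · positivity
      · exact le_rfl
    have h3 : (0 : ℝ) ≤ (P5.n0 G (Hr h) : ℝ) := Nat.cast_nonneg _
    linarith
  have hd := sum_dH G (Hr h) hS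
  -- the bounds of the ring
  set Y : ℝ := (1 + 1 / l) * (n / l) with hYd
  have hY0 : 0 ≤ Y := by positivity
  have htn : t ≤ 1 / 100 * (1 / l) * (n / l) := by
    refine hO.trans (le_of_eq ?_)
    field_simp
  have h1l : 0 ≤ 1 / (l : ℝ) := by positivity
  have h1l' : 1 / (l : ℝ) ≤ 1 := by
    rw [div_le_one hl0]; linarith
  have hprod : 0 ≤ 1 / (l : ℝ) * (n / l) := by positivity
  have htY : t ≤ Y := by
    rw [hYd]
    nlinarith
  have hYj : ∀ j, ((Yj G h j).card : ℝ) ≤ n / l + 1 / 100 * (1 / l) * (n / l) := by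
    intro j
    refine (hY j).trans (le_of_eq ?_)
    field_simp
  have hYY : Y = n / l + 1 / l * (n / l) := by rw [hYd]; ring
  have hrb' := hrb V h (mH G (Hr h)) (dH G (Hr h)) Y t (wt_mH G (Hr h)) ht0 htY
    (fun j => (nrpc_ring G (by omega) h j).trans (by
      have := hYj j
      rw [hYY]
      linarith))
    (fun i j hij h1 h2 => nrpc_chord G h hij h1 h2)
    (fun a b ha => (nrpc_out G h a b ha).1)
    (dH_nonneg G (Hr h))
    (fun i => (nrpc_deg G h i).trans (by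
      have h1 := hYj i
      have h2 := hYj ((finRotate l).symm i)
      rw [hYY]
      linarith))
    (fun a ha => (nrpc_out G h a a ha).2)
  set P : ℝ := (n / l) ^ l with hP
  have hP0 : 0 ≤ P := by positivity
  have hYl : Y ^ l ≤ 3 * P := by
    rw [hYd, mul_pow]
    apply mul_le_mul_of_nonneg_right _ hP0
    have h1 : 1 + 1 / (l : ℝ) ≤ Real.exp (1 / l) := by
      have := Real.add_one_le_exp (1 / (l : ℝ))
      linarith
    calc (1 + 1 / (l : ℝ)) ^ l ≤ (Real.exp (1 / l)) ^ l := pow_le_pow_left₀ (by positivity) h1 l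
      _ = Real.exp 1 := by
          rw [← Real.exp_nat_mul]
          congr 1
          field_simp
      _ ≤ 3 := by
          have := Real.exp_one_lt_d9
          linarith
  have hYn : Y ^ (l - 1) ≤ n ^ (l - 1) := by
    apply pow_le_pow_left₀ hY0
    rw [hYd]
    have h1 : n / l ≤ n / 2 := div_le_div_of_nonneg_left hn0 (by norm_num) (by linarith)
    nlinarith
  have hD : C1 * t * Y ^ (l - 1) ≤ C1 * t * n ^ (l - 1) := by gcongr
  set C0 : ℝ := 40 * l * 2 ^ l * n ^ l with hC0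
  have B : NrpcB G h (24 * P + C1 * t * n ^ (l - 1)) (48 * l * P + C1 * t * n ^ (l - 1))
      (48 * P + C1 * t * n ^ (l - 1)) C0 := by
    refine ⟨by positivity, by positivity, by positivity, by positivity, ?_, ?_, ?_, ?_⟩
    · intro i
      refine (hrb'.1 i).trans ?_
      linarith
    · intro i j
      refine (hrb'.2.1 i j).trans ?_
      have : 16 * (l : ℝ) * Y ^ l ≤ 16 * l * (3 * P) := by gcongr
      linarith
    · intro i j h1 h2 h3
      refine (hrb'.2.2 i j h1 h2 h3).trans ?_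
      linarith
    · intro x y
      exact ps_crude G (Hr h) (by omega) hm hd x y
  have hA := nrpa_main G hS hK (by omega : 3 ≤ l) h hm hd
  have hC := nrpc_main G hS hK (by omega : 3 ≤ l) B
  have hsplit := Finset.sum_filter_add_sum_filter_not (P5.pr G (Hr h)ᶜ (Hr h)ᶜ)
    (fun p => p.1 ∉ Or G h ∧ p.2 ∉ Or G h) (fun p => ps G (Hr h) l p.1 p.2)
  rw [← hsplit]
  have hnum := nrp_num (l := l) (t := t) (P := P) (n1 := n ^ (l - 1)) (C1 := C1)
    (c0 := 40 * l * 2 ^ l) (N := n ^ l) (by linarith) ht0 hP0 (by positivity) hC1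
    (by positivity) (by positivity)
  rw [← hC0] at hnum
  linarith

end

end Pool.Agent.Lib.MP_009d13_co.OD
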