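import Pool.Agent.Lib.MP_009d13_co.OD.OPA
import Pool.Agent.Lib.MP_009d13_co.OD.NFC
import Pool.Agent.Lib.MP_009d13_co.OD.Defs2

/-!
# NRF: the natural walk near a ring
-/

set_option autoImplicit false

namespace Pool.Agent.Lib.MP_009d13_co.OD

open Finset Classical

noncomputable section

variable {V : Type} [Fintype V]

/-- the first `k` members of a sequence -/
def nrfA (u : ℕ → V) (k : ℕ) : Finset V := (range k).image u

theorem nrfA_succ (u : ℕ → V) (k : ℕ) : insert (u k) (nrfA u k) = nrfA u (k + 1) := by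
  unfold nrfA
  rw [range_add_one, image_insert]

theorem nrf_notMem {l : ℕ} {u : ℕ → V} (hinj : ∀ a < l, ∀ b < l, u a = u b → a = b) {k j : ℕ}
    (hkj : k ≤ j) (hj : j < l) : u j ∉ nrfA u k := by
  unfold nrfA
  intro h
  obtain ⟨a, ha, hau⟩ := mem_image.1 h
  rw [mem_range] at ha
  have := hinj a (by omega) j hj hau
  omega

theorem nrf_sum {μ : V → V → ℝ} (hμ : Wt μ) {l : ℕ} {u : ℕ → V}
    (hinj : ∀ a < l, ∀ b < l, u a = u b → a = b)
    (hout : ∀ a b, (∀ k < l, u k ≠ a) → μ a b = 0) (k : ℕ) (v : V) (f : V → ℝ) :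
    ∑ b ∈ (nrfA u k)ᶜ, μ v b * f b = ∑ j ∈ Ico k l, μ v (u j) * f (u j) := by
  have h1 : ∑ b ∈ (Ico k l).image u, μ v b * f b = ∑ j ∈ Ico k l, μ v (u j) * f (u j) := by
    apply sum_image
    intro a ha b hb hab
    have ha' := (mem_Ico.1 (mem_coe.1 ha)).2
    have hb' := (mem_Ico.1 (mem_coe.1 hb)).2
    exact hinj a ha' b hb' hab
  rw [← h1]
  symm
  apply sum_subset
  · intro b hb
    obtain ⟨j, hj, rfl⟩ := mem_image.1 hb
    rw [mem_Ico] at hj
    exact mem_compl.2 (nrf_notMem hinj hj.1 hj.2)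
  · intro b hb hb2
    have h2 : μ b v = 0 := by
      apply hout
      intro j hj hjb
      rcases lt_or_ge j k with h3 | h3
      · apply mem_compl.1 hb
        unfold nrfA
        exact mem_image.2 ⟨j, mem_range.2 h3, hjb⟩
      · exact hb2 (mem_image.2 ⟨j, mem_Ico.2 ⟨h3, hj⟩, hjb⟩)
    rw [hμ.symm v b, h2, zero_mul]

theorem nrf_un {μ : V → V → ℝ} (hμ : Wt μ) {l : ℕ} {u : ℕ → V}
    (hinj : ∀ a < l, ∀ b < l, u a = u b → a = b)
    (hout : ∀ a b, (∀ k < l, u k ≠ a) → μ a b = 0) (k : ℕ) (v : V) :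
    un μ (nrfA u k) v = ∑ j ∈ Ico k l, μ v (u j) := by
  have h1 := nrf_sum hμ hinj hout k v (fun _ => 1)
  simp only [mul_one] at h1
  exact h1

theorem nrf_split {l k : ℕ} (hk : k + 3 ≤ l) (f : ℕ → ℝ) :
    ∑ j ∈ Ico (k + 1) l, f j = f (k + 1) + (∑ j ∈ Ico (k + 2) (l - 1), f j + f (l - 1)) := by
  rw [sum_eq_sum_Ico_succ_bot (by omega : k + 1 < l)]
  congr 1
  obtain ⟨m, rfl⟩ : ∃ m, l = m + 1 := ⟨l - 1, by omega⟩
  rw [sum_Ico_succ_top (by omega : k + 1 + 1 ≤ m)]
  rfl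

theorem nrf_nonneg {μ : V → V → ℝ} (h : Wt μ) (k : ℕ) (A : Finset V) (v : V) :
    0 ≤ (Nf μ)^[k] (fun _ _ => 1) A v := by
  induction k generalizing A v with
  | zero => simp
  | succ k ih =>
    rw [Function.iterate_succ_apply']
    unfold Nf
    refine sum_nonneg fun b _ => ?_
    have ih' := ih (insert v A) b
    unfold Nf at ih'
    refine mul_nonneg (mul_nonneg (div_nonneg (h.nonneg v b) (un_nonneg h A v)) ?_) ih'
    exact mul_nonneg (un_nonneg h _ _) (Real.exp_pos _).le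

theorem nrf_phi {x : ℝ} (hx : 9 / 5 ≤ x) : x * Real.exp (1 - x) ≤ 81 / 100 := by
  have h1 : Real.exp (1 - x) = Real.exp (-(4 / 5)) * Real.exp (-(x - 9 / 5)) := by
    rw [← Real.exp_add]
    congr 1
    ring
  have h2 : Real.exp (-(4 / 5)) ≤ 45 / 100 := by
    rw [Real.exp_neg, inv_le_comm₀ (Real.exp_pos _) (by norm_num)]
    have h3 := Real.sum_le_exp_of_nonneg (x := 4 / 5) (by norm_num) 6
    refine le_trans ?_ h3
    norm_num [Finset.sum_range_succ, Nat.factorial]
  have h4 : x * Real.exp (-(x - 9 / 5)) ≤ 9 / 5 := by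
    have h5 := Real.add_one_le_exp (x - 9 / 5)
    have h6 : Real.exp (x - 9 / 5) * Real.exp (-(x - 9 / 5)) = 1 := by
      rw [← Real.exp_add]
      simp
    have h7 : x ≤ 9 / 5 * Real.exp (x - 9 / 5) := by nlinarith
    calc x * Real.exp (-(x - 9 / 5))
        ≤ 9 / 5 * Real.exp (x - 9 / 5) * Real.exp (-(x - 9 / 5)) :=
          mul_le_mul_of_nonneg_right h7 (Real.exp_pos _).le
      _ = 9 / 5 * (Real.exp (x - 9 / 5) * Real.exp (-(x - 9 / 5))) := by ring
      _ = 9 / 5 := by rw [h6, mul_one]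
  rw [h1]
  calc x * (Real.exp (-(4 / 5)) * Real.exp (-(x - 9 / 5)))
      = Real.exp (-(4 / 5)) * (x * Real.exp (-(x - 9 / 5))) := by ring
    _ ≤ 45 / 100 * (9 / 5) := by
        apply mul_le_mul h2 h4 _ (by norm_num)
        exact mul_nonneg (by linarith) (Real.exp_pos _).le
    _ = 81 / 100 := by norm_num

theorem nrf_num {q c e D R S : ℝ} (hD : D = q + c + e) (hq : 9 / 10 ≤ q) (hq' : q ≤ 11 / 10)
    (hc : 0 ≤ c) (he : 0 ≤ e) (hR : 0 ≤ R) (hS : 0 ≤ S) (h10 : c + e + R ≤ 1 / 10) :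
    1 / D * (q * (1 - 19 / 120 * (1 - 10 / 9 * R) * S) + 81 / 100 * c + e) ≤
      1 - 19 / 120 * (1 - 10 / 9 * (c + e + R)) * (c + S) := by
  have hD0 : 9 / 10 ≤ D := by linarith
  have hDp : 0 < D := by linarith
  have hD1 : D ≤ 12 / 10 := by linarith
  rw [one_div, inv_mul_le_iff₀ hDp]
  -- multiply out
  obtain ⟨w, hw⟩ : ∃ w, w = c + e := ⟨_, rfl⟩
  have hw0 : 0 ≤ w := by linarith
  have h1 : D * (1 - 10 / 9 * w) ≤ q := by
    have : D * w ≥ 9 / 10 * w := mul_le_mul_of_nonneg_right hD0 hw0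
    nlinarith
  have hR1 : 0 ≤ 1 - 10 / 9 * R := by linarith
  have h2 : 1 - 10 / 9 * (w + R) ≤ (1 - 10 / 9 * w) * (1 - 10 / 9 * R) := by
    have : 0 ≤ w * R := mul_nonneg hw0 hR
    nlinarith
  have h3 : D * (1 - 10 / 9 * (w + R)) * S ≤ q * (1 - 10 / 9 * R) * S := by
    apply mul_le_mul_of_nonneg_right _ hS
    calc D * (1 - 10 / 9 * (w + R)) ≤ D * ((1 - 10 / 9 * w) * (1 - 10 / 9 * R)) :=
          mul_le_mul_of_nonneg_left h2 hDp.le
      _ = D * (1 - 10 / 9 * w) * (1 - 10 / 9 * R) := by ring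
      _ ≤ q * (1 - 10 / 9 * R) := mul_le_mul_of_nonneg_right h1 hR1
  have h4 : D * (1 - 10 / 9 * (w + R)) * c ≤ 12 / 10 * c := by
    apply mul_le_mul_of_nonneg_right _ hc
    have h5 : 1 - 10 / 9 * (w + R) ≤ 1 := by linarith
    nlinarith
  have e1 : D * (1 - 19 / 120 * (1 - 10 / 9 * (c + e + R)) * (c + S)) =
      D - 19 / 120 * (D * (1 - 10 / 9 * (w + R)) * c) -
        19 / 120 * (D * (1 - 10 / 9 * (w + R)) * S) := by
    rw [hw]
    ring
  rw [e1]
  have e2 : q * (1 - 19 / 120 * (1 - 10 / 9 * R) * S) + 81 / 100 * c + e =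
      q + 81 / 100 * c + e - 19 / 120 * (q * (1 - 10 / 9 * R) * S) := by ring
  rw [e2]
  linarith

theorem nrf_walk {μ : V → V → ℝ} (hμ : Wt μ) {l : ℕ} {u : ℕ → V}
    (hinj : ∀ a < l, ∀ b < l, u a = u b → a = b)
    (hout : ∀ a b, (∀ k < l, u k ≠ a) → μ a b = 0)
    (hq : ∀ k, k + 1 < l → 9 / 10 ≤ μ (u k) (u (k + 1)))
    (hq' : ∀ k, k + 1 < l → μ (u k) (u (k + 1)) ≤ 11 / 10) {c e : ℕ → ℝ}
    (hc : ∀ m, c m = ∑ b ∈ Ico (m + 2) (l - 1), μ (u m) (u b))
    (he : ∀ m, e m = μ (u m) (u (l - 1)))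
    (hR : ∑ m ∈ Ico 1 (l - 3), (c m + e m) ≤ 1 / 10) (n : ℕ) : ∀ k, k + n = l - 3 → 1 ≤ k →
    (Nf μ)^[n + 1] (fun _ _ => 1) (nrfA u k) (u k) ≤
      1 - 19 / 120 * (1 - 10 / 9 * ∑ m ∈ Ico k (l - 3), (c m + e m)) *
        ∑ m ∈ Ico k (l - 3), c m := by
  have hc0 : ∀ m, 0 ≤ c m := fun m => by
    rw [hc]
    exact sum_nonneg fun _ _ => hμ.nonneg _ _
  have he0 : ∀ m, 0 ≤ e m := fun m => by
    rw [he]
    exact hμ.nonneg _ _
  induction n with
  | zero =>
    intro k hk _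
    have h1 : Ico k (l - 3) = ∅ := by
      rw [Ico_eq_empty_iff]
      omega
    rw [h1]
    simp only [sum_empty, mul_zero, sub_zero]
    have h2 : k < l := by omega
    exact nf_one hμ _ (nrf_notMem hinj le_rfl h2)
  | succ n ih =>
    intro k hk hk1
    have ih' := ih (k + 1) (by omega) (by omega)
    rw [Function.iterate_succ_apply']
    obtain ⟨g, hg⟩ : ∃ g, g = (Nf μ)^[n + 1] (fun (_ : Finset V) (_ : V) => (1 : ℝ)) := ⟨_, rfl⟩
    rw [← hg] at ih' ⊢
    have hg0 : ∀ A v, 0 ≤ g A v := fun A v => by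
      rw [hg]
      exact nrf_nonneg hμ _ A v
    have hg1 : ∀ j, k + 1 ≤ j → j < l → g (nrfA u (k + 1)) (u j) ≤ 1 := fun j hj hjl => by
      rw [hg]
      exact nf_one hμ _ (nrf_notMem hinj hj hjl)
    set D : ℝ := un μ (nrfA u k) (u k) with hD
    have hDsum : D = μ (u k) (u (k + 1)) + c k + e k := by
      rw [hD, nrf_un hμ hinj hout, sum_eq_sum_Ico_succ_bot (by omega : k < l), hμ.diag,
        nrf_split (by omega : k + 3 ≤ l), hc, he]
      ring
    have hDp : 0 < D := by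
      have := hq k (by omega)
      have := hc0 k
      have := he0 k
      linarith
    obtain ⟨F, hF⟩ : ∃ F : V → ℝ, F = fun b => 1 / D * (un μ (nrfA u (k + 1)) b *
      Real.exp (1 - un μ (nrfA u (k + 1)) b)) * g (nrfA u (k + 1)) b := ⟨_, rfl⟩
    have hNf : Nf μ g (nrfA u k) (u k) = ∑ j ∈ Ico (k + 1) l, μ (u k) (u j) * F (u j) := by
      rw [← nrf_sum hμ hinj hout (k + 1) (u k) F]
      unfold Nf
      rw [nrfA_succ]
      refine sum_congr rfl fun b _ => ?_
      rw [hF, ← hD]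
      ring
    rw [hNf, nrf_split (by omega : k + 3 ≤ l)]
    set X : ℝ := 19 / 120 * (1 - 10 / 9 * ∑ m ∈ Ico (k + 1) (l - 3), (c m + e m)) *
        ∑ m ∈ Ico (k + 1) (l - 3), c m with hX
    have hFnn : ∀ j, k + 1 ≤ j → j < l → F (u j) ≤ 1 / D * 1 := by
      intro j hj hjl
      rw [hF]
      simp only
      rw [mul_assoc]
      apply mul_le_mul_of_nonneg_left _ (by positivity)
      have h1 := nfc_le (un μ (nrfA u (k + 1)) (u j))
      have h2 := hg1 j hj hjl
      have h3 := hg0 (nrfA u (k + 1)) (u j)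
      calc un μ (nrfA u (k + 1)) (u j) * Real.exp (1 - un μ (nrfA u (k + 1)) (u j)) *
          g (nrfA u (k + 1)) (u j) ≤ 1 * 1 := mul_le_mul h1 h2 h3 (by norm_num)
        _ = 1 := by norm_num
    have hF1 : F (u (k + 1)) ≤ 1 / D * (1 - X) := by
      rw [hF]
      simp only
      rw [mul_assoc]
      apply mul_le_mul_of_nonneg_left _ (by positivity)
      have h1 := nfc_le (un μ (nrfA u (k + 1)) (u (k + 1)))
      have h3 := hg0 (nrfA u (k + 1)) (u (k + 1))
      calc un μ (nrfA u (k + 1)) (u (k + 1)) *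
          Real.exp (1 - un μ (nrfA u (k + 1)) (u (k + 1))) *
          g (nrfA u (k + 1)) (u (k + 1)) ≤ 1 * g (nrfA u (k + 1)) (u (k + 1)) :=
            mul_le_mul_of_nonneg_right h1 h3
        _ = g (nrfA u (k + 1)) (u (k + 1)) := one_mul _
        _ ≤ 1 - X := ih'
    have hFm : ∀ j ∈ Ico (k + 2) (l - 1), F (u j) ≤ 1 / D * (81 / 100) := by
      intro j hj
      rw [mem_Ico] at hj
      rw [hF]
      simp only
      rw [mul_assoc]
      apply mul_le_mul_of_nonneg_left _ (by positivity)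
      have hun : 9 / 5 ≤ un μ (nrfA u (k + 1)) (u j) := by
        rw [nrf_un hμ hinj hout]
        have h4 : ∑ i ∈ ({j - 1, j + 1} : Finset ℕ), μ (u j) (u i) ≤
            ∑ i ∈ Ico (k + 1) l, μ (u j) (u i) := by
          apply sum_le_sum_of_subset_of_nonneg
          · intro i hi
            rw [mem_insert, mem_singleton] at hi
            rw [mem_Ico]
            omega
          · intro i _ _
            exact hμ.nonneg _ _
        rw [sum_pair (by omega)] at h4
        have h5 := hq (j - 1) (by omega)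
        have h6 := hq j (by omega)
        have h7 : j - 1 + 1 = j := by omega
        rw [h7, hμ.symm] at h5
        linarith
      have h1 := nrf_phi hun
      have h2 := hg1 j (by omega) (by omega)
      have h3 := hg0 (nrfA u (k + 1)) (u j)
      calc un μ (nrfA u (k + 1)) (u j) * Real.exp (1 - un μ (nrfA u (k + 1)) (u j)) *
          g (nrfA u (k + 1)) (u j) ≤ 81 / 100 * 1 := mul_le_mul h1 h2 h3 (by norm_num)
        _ = 81 / 100 := by norm_num
    have hsumm : ∑ j ∈ Ico (k + 2) (l - 1), μ (u k) (u j) * F (u j) ≤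
        c k * (1 / D * (81 / 100)) := by
      rw [hc, sum_mul]
      exact sum_le_sum fun j hj => mul_le_mul_of_nonneg_left (hFm j hj) (hμ.nonneg _ _)
    have hlast : μ (u k) (u (l - 1)) * F (u (l - 1)) ≤ e k * (1 / D * 1) := by
      rw [he]
      exact mul_le_mul_of_nonneg_left (hFnn (l - 1) (by omega) (by omega)) (hμ.nonneg _ _)
    have hfirst : μ (u k) (u (k + 1)) * F (u (k + 1)) ≤
        μ (u k) (u (k + 1)) * (1 / D * (1 - X)) :=
      mul_le_mul_of_nonneg_left hF1 (hμ.nonneg _ _)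
    have hbot : ∀ f : ℕ → ℝ, ∑ m ∈ Ico k (l - 3), f m = f k + ∑ m ∈ Ico (k + 1) (l - 3), f m :=
      fun f => sum_eq_sum_Ico_succ_bot (by omega : k < l - 3) f
    rw [hbot, hbot]
    have hRk : c k + e k + ∑ m ∈ Ico (k + 1) (l - 3), (c m + e m) ≤ 1 / 10 := by
      rw [← hbot (fun m => c m + e m)]
      refine le_trans ?_ hR
      apply sum_le_sum_of_subset_of_nonneg
      · intro m hm
        rw [mem_Ico] at hm ⊢
        omega
      · intro m _ _
        exact add_nonneg (hc0 m) (he0 m)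
    have hnum := nrf_num hDsum (hq k (by omega)) (hq' k (by omega)) (hc0 k) (he0 k)
      (sum_nonneg fun m _ => add_nonneg (hc0 m) (he0 m) :
        0 ≤ ∑ m ∈ Ico (k + 1) (l - 3), (c m + e m))
      (sum_nonneg fun m _ => hc0 m : 0 ≤ ∑ m ∈ Ico (k + 1) (l - 3), c m) hRk
    refine le_trans ?_ hnum
    rw [← hX]
    have e1 : 1 / D * (μ (u k) (u (k + 1)) * (1 - X) + 81 / 100 * c k + e k) =
        μ (u k) (u (k + 1)) * (1 / D * (1 - X)) + (c k * (1 / D * (81 / 100)) +
          e k * (1 / D * 1)) := by ring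
    rw [e1]
    exact add_le_add hfirst (add_le_add hsumm hlast)

/-- a double sum of a symmetric function with zero diagonal -/
theorem nrf_double (E : ℕ → ℕ → ℝ) (hs : ∀ a b, E a b = E b a) (hd : ∀ a, E a a = 0) (l : ℕ) :
    ∑ m ∈ range l, ∑ b ∈ range l, E m b = 2 * ∑ m ∈ range l, ∑ b ∈ Ico (m + 1) l, E m b := by
  induction l with
  | zero => simp
  | succ l ih =>
    rw [sum_range_succ]
    have h1 : ∀ m ∈ range l, ∑ b ∈ range (l + 1), E m b = ∑ b ∈ range l, E m b + E m l :=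
      fun m _ => sum_range_succ _ _
    rw [sum_congr rfl h1, sum_add_distrib, ih, sum_range_succ, hd]
    have h2 : ∑ b ∈ range l, E l b = ∑ m ∈ range l, E m l := sum_congr rfl fun b _ => hs l b
    rw [h2, sum_range_succ]
    have h3 : ∀ m ∈ range l, ∑ b ∈ Ico (m + 1) (l + 1), E m b =
        ∑ b ∈ Ico (m + 1) l, E m b + E m l := by
      intro m hm
      rw [mem_range] at hm
      exact sum_Ico_succ_top (by omega) _
    rw [sum_congr rfl h3, sum_add_distrib, Ico_self]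
    simp only [sum_empty]
    ring

/-- decomposition of the sum of all chords -/
theorem nrf_chords (E : ℕ → ℕ → ℝ) (hs : ∀ a b, E a b = E b a) (hd : ∀ a, E a a = 0) {l : ℕ}
    (hl : 4 ≤ l) (h0 : E 0 (l - 1) = 0) (h1 : ∀ m, m + 1 < l → E m (m + 1) = 0) :
    ∑ m ∈ range l, ∑ b ∈ range l, E m b = 2 * (∑ b ∈ range l, E 0 b + ∑ b ∈ range l, E (l - 1) b
      + ∑ m ∈ Ico 1 (l - 3), ∑ b ∈ Ico (m + 2) (l - 1), E m b) := by
  rw [nrf_double E hs hd]
  congr 1
  have a1 : ∀ f : ℕ → ℝ, ∑ m ∈ range l, f m = f 0 + ∑ m ∈ Ico 1 l, f m := fun f => by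
    rw [range_eq_Ico]
    exact sum_eq_sum_Ico_succ_bot (by omega) f
  rw [a1, a1 (fun b => E 0 b), a1 (fun b => E (l - 1) b), hd, zero_add, hs (l - 1) 0, h0, zero_add]
  have a2 : ∀ m ∈ Ico 1 l, ∑ b ∈ Ico (m + 1) l, E m b =
      E (l - 1) m + ∑ b ∈ Ico (m + 1) (l - 1), E m b := by
    intro m hm
    rw [mem_Ico] at hm
    rcases Nat.lt_or_ge m (l - 1) with h | h
    · obtain ⟨n, rfl⟩ : ∃ n, l = n + 1 := ⟨l - 1, by omega⟩
      rw [sum_Ico_succ_top (by omega : m + 1 ≤ n)]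
      rw [Nat.add_sub_cancel, hs n m, add_comm]
    · have h2 : m = l - 1 := by omega
      have h3 : Ico (m + 1) l = ∅ := by
        rw [Ico_eq_empty_iff]
        omega
      have h4 : Ico (m + 1) (l - 1) = ∅ := by
        rw [Ico_eq_empty_iff]
        omega
      rw [h3, h4, h2, hd]
      simp
  rw [sum_congr rfl a2, sum_add_distrib]
  have a3 : ∑ m ∈ Ico 1 l, ∑ b ∈ Ico (m + 1) (l - 1), E m b =
      ∑ m ∈ Ico 1 (l - 3), ∑ b ∈ Ico (m + 2) (l - 1), E m b := by
    rw [← sum_Ico_consecutive _ (by omega : 1 ≤ l - 3) (by omega : l - 3 ≤ l)]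
    have a4 : ∑ m ∈ Ico (l - 3) l, ∑ b ∈ Ico (m + 1) (l - 1), E m b = 0 := by
      refine sum_eq_zero fun m hm => ?_
      rw [mem_Ico] at hm
      rcases Nat.lt_or_ge (l - 3) m with h | h
      · have h4 : Ico (m + 1) (l - 1) = ∅ := by
          rw [Ico_eq_empty_iff]
          omega
        rw [h4, sum_empty]
      · refine sum_eq_zero fun b hb => ?_
        rw [mem_Ico] at hb
        have h5 : b = m + 1 := by omega
        rw [h5]
        exact h1 m (by omega)
    rw [a4, add_zero]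
    refine sum_congr rfl fun m hm => ?_
    rw [mem_Ico] at hm
    rw [sum_eq_sum_Ico_succ_bot (by omega : m + 1 < l - 1), h1 m (by omega), zero_add]
  rw [a3]
  ring

theorem nrf_trans {l : ℕ} (r : Fin l → Fin l) (i : Fin l)
    (hr : ∀ a < l, ∀ b < l, r^[a] i = r^[b] i → a = b) (F : Fin l → ℝ) :
    ∑ j, F j = ∑ k ∈ range l, F (r^[k] i) := by
  have h1 : Function.Injective fun k : Fin l => r^[(k : ℕ)] i := fun a b hab =>
    Fin.ext (hr a a.2 b b.2 hab)
  have h2 : Function.Bijective fun k : Fin l => r^[(k : ℕ)] i := Finite.injective_iff_bijective.1 h1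
  rw [← h2.sum_comp F, Fin.sum_univ_eq_sum_range (fun k => F (r^[k] i)) l]

/-- one direction -/
theorem nrf_dir {μ : V → V → ℝ} (hμ : Wt μ) {l : ℕ} (hl : 10 ≤ l) (h : Fin l ↪ V)
    (r : Fin l → Fin l) (i : Fin l)
    (hr : ∀ a < l, ∀ b < l, r^[a] i = r^[b] i → a = b) (hrl : r^[l] i = i)
    (h9 : ∀ j, 9 / 10 ≤ μ (h j) (h (r j))) (h11 : ∀ j, μ (h j) (h (r j)) ≤ 11 / 10)
    (hout : ∀ a b, (∀ i, h i ≠ a) → μ a b = 0) {E : Fin l → Fin l → ℝ}
    (hE : ∀ j j', E j j' = if j' ≠ j ∧ j' ≠ r j ∧ j ≠ r j' then μ (h j) (h j') else 0)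
    (hC : ∑ j, ∑ j', E j j' ≤ 1 / 5) :
    2 * ∑ j, E i j ≤ ∑ j, ∑ j', E j j' ∧
    2 * (∑ j, E i j + ∑ j, E (r^[l - 1] i) j) ≤ ∑ j, ∑ j', E j j' ∧
    (Nf μ)^[l - 3] (fun _ _ => 1) {h i} (h (r i)) ≤ 1 - 19 / 135 *
      ((∑ j, ∑ j', E j j') / 2 - ∑ j, E i j - ∑ j, E (r^[l - 1] i) j) := by
  have hEs : ∀ j j', E j j' = E j' j := by
    intro j j'
    rw [hE, hE, hμ.symm (h j) (h j')]
    congr 1
    apply propext
    constructor
    · rintro ⟨a, b, c⟩
      exact ⟨fun h => a h.symm, c, b⟩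
    · rintro ⟨a, b, c⟩
      exact ⟨fun h => a h.symm, c, b⟩
  have hE0 : ∀ j j', 0 ≤ E j j' := by
    intro j j'
    rw [hE]
    split_ifs
    · exact hμ.nonneg _ _
    · exact le_rfl
  have hEd : ∀ j, E j j = 0 := by
    intro j
    rw [hE, if_neg]
    rintro ⟨a, -⟩
    exact a rfl
  have hEr : ∀ j, E j (r j) = 0 := by
    intro j
    rw [hE, if_neg]
    rintro ⟨-, a, -⟩
    exact a rfl
  obtain ⟨u, hu⟩ : ∃ u : ℕ → V, u = fun k => h (r^[k] i) := ⟨_, rfl⟩
  obtain ⟨E', hE'⟩ : ∃ E' : ℕ → ℕ → ℝ, E' = fun a b => E (r^[a] i) (r^[b] i) := ⟨_, rfl⟩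
  have hus : ∀ k, r^[k + 1] i = r (r^[k] i) := fun k => Function.iterate_succ_apply' r k i
  have hinj : ∀ a < l, ∀ b < l, u a = u b → a = b := by
    intro a ha b hb hab
    rw [hu] at hab
    exact hr a ha b hb (h.injective hab)
  have hsurj : ∀ j, ∃ k < l, r^[k] i = j := by
    intro j
    have h1 : Function.Injective fun k : Fin l => r^[(k : ℕ)] i := fun a b hab =>
      Fin.ext (hr a a.2 b b.2 hab)
    obtain ⟨k, hk⟩ := (Finite.injective_iff_surjective.1 h1) j
    exact ⟨k, k.2, hk⟩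
  have hout' : ∀ a b, (∀ k < l, u k ≠ a) → μ a b = 0 := by
    intro a b hab
    apply hout
    intro j hj
    obtain ⟨k, hk, hkj⟩ := hsurj j
    apply hab k hk
    rw [hu]
    simp only
    rw [hkj, hj]
  have hq : ∀ k, k + 1 < l → 9 / 10 ≤ μ (u k) (u (k + 1)) := by
    intro k _
    rw [hu]
    simp only
    rw [hus]
    exact h9 _
  have hq' : ∀ k, k + 1 < l → μ (u k) (u (k + 1)) ≤ 11 / 10 := by
    intro k _
    rw [hu]
    simp only
    rw [hus]
    exact h11 _
  -- the chords in terms of the sequence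
  have hC1 : ∑ j, ∑ j', E j j' = ∑ m ∈ range l, ∑ b ∈ range l, E' m b := by
    rw [nrf_trans r i hr]
    refine sum_congr rfl fun m _ => ?_
    rw [nrf_trans r i hr, hE']
  have hi1 : ∑ j, E i j = ∑ b ∈ range l, E' 0 b := by
    rw [nrf_trans r i hr, hE']
    rfl
  have hi2 : ∑ j, E (r^[l - 1] i) j = ∑ b ∈ range l, E' (l - 1) b := by
    rw [nrf_trans r i hr, hE']
  have hE's : ∀ a b, E' a b = E' b a := fun a b => by
    rw [hE']
    exact hEs _ _
  have hE'd : ∀ a, E' a a = 0 := fun a => by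
    rw [hE']
    exact hEd _
  have hE'1 : ∀ m, m + 1 < l → E' m (m + 1) = 0 := fun m _ => by
    rw [hE']
    simp only
    rw [hus]
    exact hEr _
  have hE'0 : E' 0 (l - 1) = 0 := by
    rw [hE's, hE']
    simp only
    have h2 : r^[0] i = r (r^[l - 1] i) := by
      rw [← hus, Nat.sub_add_cancel (by omega), hrl]
      rfl
    rw [h2]
    exact hEr _
  have hE'nn : ∀ a b, 0 ≤ E' a b := fun a b => by
    rw [hE']
    exact hE0 _ _
  have hMu : ∀ m b, m < l → b < l → m + 2 ≤ b → (m ≠ 0 ∨ b ≠ l - 1) →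
      μ (u m) (u b) = E' m b := by
    intro m b hm hb hmb hor
    rw [hE', hu]
    simp only
    rw [hE, if_pos]
    refine ⟨?_, ?_, ?_⟩
    · intro h3
      have := hr b hb m hm h3
      omega
    · intro h3
      rw [← hus] at h3
      have := hr b hb (m + 1) (by omega) h3
      omega
    · intro h3
      rw [← hus] at h3
      rcases Nat.lt_or_ge (b + 1) l with h4 | h4
      · have := hr m hm (b + 1) h4 h3
        omega
      · have h5 : b + 1 = l := by omega
        rw [h5, hrl] at h3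
        have := hr m hm 0 (by omega) h3
        omega
  have hsplit := nrf_chords E' hE's hE'd (by omega : 4 ≤ l) hE'0 hE'1
  rw [← hC1, ← hi1, ← hi2] at hsplit
  have hS : ∑ m ∈ Ico 1 (l - 3), ∑ b ∈ Ico (m + 2) (l - 1), μ (u m) (u b) =
      ∑ m ∈ Ico 1 (l - 3), ∑ b ∈ Ico (m + 2) (l - 1), E' m b := by
    refine sum_congr rfl fun m hm => sum_congr rfl fun b hb => ?_
    rw [mem_Ico] at hm hb
    exact hMu m b (by omega) (by omega) (by omega) (Or.inl (by omega))
  have he1 : ∑ m ∈ Ico 1 (l - 3), μ (u m) (u (l - 1)) ≤ ∑ j, E (r^[l - 1] i) j := by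
    rw [hi2]
    have h3 : ∑ m ∈ Ico 1 (l - 3), μ (u m) (u (l - 1)) = ∑ m ∈ Ico 1 (l - 3), E' (l - 1) m := by
      refine sum_congr rfl fun m hm => ?_
      rw [mem_Ico] at hm
      rw [hMu m (l - 1) (by omega) (by omega) (by omega) (Or.inl (by omega)), hE's]
    rw [h3]
    apply sum_le_sum_of_subset_of_nonneg
    · intro m hm
      rw [mem_Ico] at hm
      rw [mem_range]
      omega
    · intro m _ _
      exact hE'nn _ _
  have hi0 : 0 ≤ ∑ j, E i j := sum_nonneg fun j _ => hE0 _ _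
  have hl0 : 0 ≤ ∑ j, E (r^[l - 1] i) j := sum_nonneg fun j _ => hE0 _ _
  obtain ⟨S, hSd⟩ : ∃ S, S = ∑ m ∈ Ico 1 (l - 3), ∑ b ∈ Ico (m + 2) (l - 1), E' m b := ⟨_, rfl⟩
  have hS0 : 0 ≤ S := by
    rw [hSd]
    exact sum_nonneg fun m _ => sum_nonneg fun b _ => hE'nn _ _
  rw [← hSd] at hsplit hS
  have hR : ∑ m ∈ Ico 1 (l - 3), (∑ b ∈ Ico (m + 2) (l - 1), μ (u m) (u b) +
      μ (u m) (u (l - 1))) ≤ 1 / 10 := by
    rw [sum_add_distrib, hS]
    linarith
  refine ⟨by linarith, by linarith, ?_⟩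
  have hwalk := nrf_walk hμ hinj hout' hq hq'
    (c := fun m => ∑ b ∈ Ico (m + 2) (l - 1), μ (u m) (u b))
    (e := fun m => μ (u m) (u (l - 1))) (fun _ => rfl) (fun _ => rfl) hR (l - 4) 1 (by omega)
    le_rfl
  have h4 : l - 4 + 1 = l - 3 := by omega
  have h5 : nrfA u 1 = {h i} := by
    unfold nrfA
    rw [range_one, image_singleton, hu]
    rfl
  have h6 : u 1 = h (r i) := by
    rw [hu]
    rfl
  rw [h4, h5, h6, hS] at hwalk
  refine hwalk.trans ?_
  have h7 : (∑ j, ∑ j', E j j') / 2 - ∑ j, E i j - ∑ j, E (r^[l - 1] i) j = S := by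
    rw [hsplit]
    ring
  rw [h7]
  have h8 : 8 / 9 ≤ 1 - 10 / 9 * ∑ m ∈ Ico 1 (l - 3), (∑ b ∈ Ico (m + 2) (l - 1),
      μ (u m) (u b) + μ (u m) (u (l - 1))) := by linarith
  have h9' : 19 / 120 * (8 / 9) * S ≤ 19 / 120 * (1 - 10 / 9 * ∑ m ∈ Ico 1 (l - 3),
      (∑ b ∈ Ico (m + 2) (l - 1), μ (u m) (u b) + μ (u m) (u (l - 1)))) * S := by
    apply mul_le_mul_of_nonneg_right _ hS0
    linarith
  linarith

section fin

open scoped Fin.CommRing Fin.NatCast

theorem nrf_rot {n : ℕ} (k : ℕ) (i : Fin (n + 1)) :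
    (finRotate (n + 1))^[k] i = i + (k : Fin (n + 1)) := by
  induction k with
  | zero => simp
  | succ k ih =>
    rw [Function.iterate_succ_apply', ih, finRotate_apply]
    push_cast
    ring

theorem nrf_rot_symm {n : ℕ} (i : Fin (n + 1)) : (finRotate (n + 1)).symm i = i - 1 := by
  rw [Equiv.symm_apply_eq, finRotate_apply]
  ring

theorem nrf_rots {n : ℕ} (k : ℕ) (i : Fin (n + 1)) :
    (finRotate (n + 1)).symm^[k] i = i - (k : Fin (n + 1)) := by
  induction k with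
  | zero => simp
  | succ k ih =>
    rw [Function.iterate_succ_apply', ih, nrf_rot_symm]
    push_cast
    ring

theorem nrf_cast_inj {n a b : ℕ} (ha : a < n + 1) (hb : b < n + 1)
    (h : (a : Fin (n + 1)) = (b : Fin (n + 1))) : a = b := by
  have h1 := congrArg Fin.val h
  rw [Fin.val_natCast, Fin.val_natCast, Nat.mod_eq_of_lt ha, Nat.mod_eq_of_lt hb] at h1
  exact h1

theorem nrf_cast_top {n : ℕ} : ((n : ℕ) : Fin (n + 1)) + 1 = 0 := by
  have h1 : ((n : ℕ) : Fin (n + 1)) + 1 = ((n + 1 : ℕ) : Fin (n + 1)) := by push_cast; ring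
  rw [h1]
  apply Fin.ext
  rw [Fin.val_natCast, Nat.mod_self]
  rfl

theorem nrf_inj1 {n : ℕ} (i : Fin (n + 1)) : ∀ a < n + 1, ∀ b < n + 1,
    (finRotate (n + 1))^[a] i = (finRotate (n + 1))^[b] i → a = b := by
  intro a ha b hb hab
  rw [nrf_rot, nrf_rot] at hab
  exact nrf_cast_inj ha hb (add_left_cancel hab)

theorem nrf_inj2 {n : ℕ} (i : Fin (n + 1)) : ∀ a < n + 1, ∀ b < n + 1,
    (finRotate (n + 1)).symm^[a] i = (finRotate (n + 1)).symm^[b] i → a = b := by
  intro a ha b hb hab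
  rw [nrf_rots, nrf_rots] at hab
  exact nrf_cast_inj ha hb (sub_right_injective hab)

theorem nrf_per1 {n : ℕ} (i : Fin (n + 1)) : (finRotate (n + 1))^[n + 1] i = i := by
  rw [nrf_rot]
  push_cast
  rw [nrf_cast_top, add_zero]

theorem nrf_per2 {n : ℕ} (i : Fin (n + 1)) : (finRotate (n + 1)).symm^[n + 1] i = i := by
  rw [nrf_rots]
  push_cast
  rw [nrf_cast_top, sub_zero]

theorem nrf_last1 {n : ℕ} (i : Fin (n + 1)) :
    (finRotate (n + 1))^[n + 1 - 1] i = (finRotate (n + 1)).symm i := by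
  rw [nrf_rot, nrf_rot_symm, Nat.add_sub_cancel, eq_neg_of_add_eq_zero_left nrf_cast_top,
    sub_eq_add_neg]

theorem nrf_last2 {n : ℕ} (i : Fin (n + 1)) :
    (finRotate (n + 1)).symm^[n + 1 - 1] i = finRotate (n + 1) i := by
  rw [nrf_rots, finRotate_apply, Nat.add_sub_cancel, eq_neg_of_add_eq_zero_left nrf_cast_top,
    sub_neg_eq_add]

theorem nrf_ne1 {n : ℕ} (hn : 1 ≤ n) (j : Fin (n + 1)) : finRotate (n + 1) j ≠ j := by
  intro h
  have := nrf_inj1 j 1 (by omega) 0 (by omega) (by simpa using h)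
  omega

theorem nrf_ne2 {n : ℕ} (hn : 2 ≤ n) (i : Fin (n + 1)) :
    finRotate (n + 1) i ≠ (finRotate (n + 1)).symm i := by
  intro h
  rw [Equiv.eq_symm_apply] at h
  have := nrf_inj1 i 2 (by omega) 0 (by omega) (by simpa using h)
  omega

end fin

theorem nf_ring {μ : V → V → ℝ} (hμ : Wt μ) {l : ℕ} (hl : 10 ≤ l) (h : Fin l ↪ V)
    (h9 : ∀ j, 9 / 10 ≤ μ (h j) (h (finRotate l j)))
    (h11 : ∀ j, μ (h j) (h (finRotate l j)) ≤ 11 / 10)
    (hout : ∀ a b, (∀ i, h i ≠ a) → μ a b = 0)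
    (hch : ∑ i, ch h μ i ≤ 1 / 5) (i : Fin l) :
    (Nf μ)^[l - 2] (fun _ _ => 1) ∅ (h i)
      ≤ 1 - 1 / 25 * (∑ j, ch h μ j - 2 * ch h μ i - ch h μ (finRotate l i)
        - ch h μ ((finRotate l).symm i)) := by
  obtain ⟨n, rfl⟩ : ∃ n, l = n + 1 := ⟨l - 1, by omega⟩
  obtain ⟨E, hE⟩ : ∃ E : Fin (n + 1) → Fin (n + 1) → ℝ, E = fun j j' =>
    if j' ≠ j ∧ j' ≠ finRotate (n + 1) j ∧ j ≠ finRotate (n + 1) j' then μ (h j) (h j') else 0 :=
    ⟨_, rfl⟩
  have hchE : ∀ j, ch h μ j = ∑ j', E j j' := by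
    intro j
    unfold ch
    rw [sum_filter, hE]
  have hE0 : ∀ j j', 0 ≤ E j j' := by
    intro j j'
    rw [hE]
    simp only
    split_ifs
    · exact hμ.nonneg _ _
    · exact le_rfl
  simp only [hchE] at hch ⊢
  -- the two directions
  have d1 := nrf_dir hμ hl h (finRotate (n + 1)) i
    (nrf_inj1 i) (nrf_per1 i) h9 h11 hout (E := E) (fun j j' => by rw [hE]) hch
  have hrs : ∀ j, finRotate (n + 1) ((finRotate (n + 1)).symm j) = j := fun j =>
    Equiv.apply_symm_apply _ _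
  have d2 := nrf_dir hμ hl h (finRotate (n + 1)).symm i
    (nrf_inj2 i) (nrf_per2 i)
    (fun j => by
      have := h9 ((finRotate (n + 1)).symm j)
      rw [hrs, hμ.symm] at this
      exact this)
    (fun j => by
      have := h11 ((finRotate (n + 1)).symm j)
      rw [hrs, hμ.symm] at this
      exact this) hout (E := E)
    (fun j j' => by
      rw [hE]
      simp only
      congr 1
      apply propext
      rw [Ne, Ne, Ne, Ne, Ne, Equiv.eq_symm_apply, Equiv.eq_symm_apply]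
      constructor
      · rintro ⟨a, b, c⟩
        exact ⟨a, fun h => c h.symm, fun h => b h.symm⟩
      · rintro ⟨a, b, c⟩
        exact ⟨a, fun h => c h.symm, fun h => b h.symm⟩) hch
  rw [nrf_last1] at d1
  rw [nrf_last2] at d2
  obtain ⟨C, hC⟩ : ∃ C, C = ∑ j, ∑ j', E j j' := ⟨_, rfl⟩
  obtain ⟨c0, hc0⟩ : ∃ c, c = ∑ j', E i j' := ⟨_, rfl⟩
  obtain ⟨c1, hc1⟩ : ∃ c, c = ∑ j', E (finRotate (n + 1) i) j' := ⟨_, rfl⟩
  obtain ⟨c2, hc2⟩ : ∃ c, c = ∑ j', E ((finRotate (n + 1)).symm i) j' := ⟨_, rfl⟩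
  rw [← hC, ← hc0, ← hc2] at d1
  rw [← hC, ← hc0, ← hc1] at d2
  rw [← hC] at hch
  rw [← hC, ← hc0, ← hc1, ← hc2]
  have hc00 : 0 ≤ c0 := by
    rw [hc0]
    exact sum_nonneg fun j _ => hE0 _ _
  -- the first step
  have hne : h (finRotate (n + 1) i) ≠ h ((finRotate (n + 1)).symm i) := fun h1 =>
    nrf_ne2 (by omega) i (h.injective h1)
  have hni : ∀ j : Fin (n + 1), finRotate (n + 1) j ≠ j := fun j => nrf_ne1 (by omega) j
  set D : ℝ := un μ ∅ (h i) with hD
  -- the degree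
  have hDle : D ≤ 23 / 10 := by
    have e1 : D = ∑ j, μ (h i) (h j) := by
      rw [hD]
      unfold un
      rw [compl_empty]
      have e2 : ∑ j, μ (h i) (h j) = ∑ b ∈ univ.map h, μ (h i) b := by rw [sum_map]
      rw [e2]
      symm
      apply sum_subset (subset_univ _)
      intro b _ hb
      rw [hμ.symm]
      apply hout
      intro j hj
      apply hb
      exact mem_map.2 ⟨j, mem_univ _, hj⟩
    have e3 : ∀ j, μ (h i) (h j) ≤ E i j + ((if j = finRotate (n + 1) i then 11 / 10 else 0) +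
        if j = (finRotate (n + 1)).symm i then 11 / 10 else 0) := by
      intro j
      have e4 : 0 ≤ (if j = finRotate (n + 1) i then (11 / 10 : ℝ) else 0) := by
        split_ifs <;> norm_num
      have e5 : 0 ≤ (if j = (finRotate (n + 1)).symm i then (11 / 10 : ℝ) else 0) := by
        split_ifs <;> norm_num
      by_cases a1 : j = i
      · rw [a1, hμ.diag]
        have := hE0 i i
        rw [a1] at e4 e5
        linarith
      · by_cases a2 : j = finRotate (n + 1) i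
        · rw [if_pos a2]
          have := h11 i
          rw [← a2] at this
          have := hE0 i j
          linarith
        · by_cases a3 : i = finRotate (n + 1) j
          · have a4 : j = (finRotate (n + 1)).symm i := by
              rw [Equiv.eq_symm_apply]
              exact a3.symm
            rw [if_pos a4]
            have := h11 j
            rw [← a3, hμ.symm] at this
            have := hE0 i j
            linarith
          · have a5 : μ (h i) (h j) = E i j := by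
              rw [hE]
              simp only
              rw [if_pos ⟨a1, a2, a3⟩]
            linarith
    have e6 := sum_le_sum (s := univ) fun j _ => e3 j
    rw [sum_add_distrib, sum_add_distrib, sum_ite_eq', sum_ite_eq', if_pos (mem_univ _),
      if_pos (mem_univ _), ← hc0, ← e1] at e6
    have := d1.1
    linarith
  have hm1 : 9 / 10 ≤ μ (h i) (h (finRotate (n + 1) i)) := h9 i
  have hm2 : 9 / 10 ≤ μ (h i) (h ((finRotate (n + 1)).symm i)) := by
    have := h9 ((finRotate (n + 1)).symm i)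
    rw [hrs, hμ.symm] at this
    exact this
  have hDp : 0 < D := by
    have := le_un hμ (A := ∅) (v := h i) (b := h (finRotate (n + 1) i)) (notMem_empty _)
    rw [← hD] at this
    linarith
  obtain ⟨X1, hX1⟩ : ∃ X, X = 19 / 135 * (C / 2 - c0 - c2) := ⟨_, rfl⟩
  obtain ⟨X2, hX2⟩ : ∃ X, X = 19 / 135 * (C / 2 - c0 - c1) := ⟨_, rfl⟩
  have hX10 : 0 ≤ X1 := by
    rw [hX1]
    have := d1.2.1
    linarith
  have hX20 : 0 ≤ X2 := by
    rw [hX2]
    have := d2.2.1
    linarith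
  have hstep : (Nf μ)^[n + 1 - 2] (fun _ _ => 1) ∅ (h i) ≤
      ∑ b ∈ (insert (h i) ∅)ᶜ, μ (h i) b * (1 / D * (1 -
        ((if b = h (finRotate (n + 1) i) then X1 else 0) +
          if b = h ((finRotate (n + 1)).symm i) then X2 else 0))) := by
    have h2 : n + 1 - 2 = (n + 1 - 3) + 1 := by omega
    rw [h2, Function.iterate_succ_apply']
    obtain ⟨g, hg⟩ : ∃ g, g = (Nf μ)^[n + 1 - 3] (fun (_ : Finset V) (_ : V) => (1 : ℝ)) :=
      ⟨_, rfl⟩
    rw [← hg] at d1 d2 ⊢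
    unfold Nf
    refine sum_le_sum fun b hb => ?_
    rw [← hD]
    have h3 : μ (h i) b / D * (un μ (insert (h i) ∅) b *
        Real.exp (1 - un μ (insert (h i) ∅) b)) * g (insert (h i) ∅) b =
        μ (h i) b * (1 / D * ((un μ (insert (h i) ∅) b *
        Real.exp (1 - un μ (insert (h i) ∅) b)) * g (insert (h i) ∅) b)) := by ring
    rw [h3]
    apply mul_le_mul_of_nonneg_left _ (hμ.nonneg _ _)
    apply mul_le_mul_of_nonneg_left _ (by positivity)
    have h4 := nfc_le (un μ (insert (h i) ∅) b)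
    have h5 : 0 ≤ g (insert (h i) ∅) b := by
      rw [hg]
      exact nrf_nonneg hμ _ _ _
    have h6 : (un μ (insert (h i) ∅) b * Real.exp (1 - un μ (insert (h i) ∅) b)) *
        g (insert (h i) ∅) b ≤ g (insert (h i) ∅) b := by
      calc _ ≤ 1 * g (insert (h i) ∅) b := mul_le_mul_of_nonneg_right h4 h5
        _ = _ := one_mul _
    refine h6.trans ?_
    have h7 : (insert (h i) ∅ : Finset V) = {h i} := insert_empty_eq _
    by_cases a1 : b = h (finRotate (n + 1) i)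
    · have a2 : b ≠ h ((finRotate (n + 1)).symm i) := by
        rw [a1]
        exact hne
      rw [if_pos a1, if_neg a2, add_zero, h7, a1, hX1]
      exact d1.2.2
    · by_cases a2 : b = h ((finRotate (n + 1)).symm i)
      · rw [if_neg a1, if_pos a2, zero_add, h7, a2, hX2]
        exact d2.2.2
      · rw [if_neg a1, if_neg a2, add_zero, sub_zero, hg]
        exact nf_one hμ _ (mem_compl.1 hb)
  refine hstep.trans ?_
  -- evaluate the sum
  have hmem1 : h (finRotate (n + 1) i) ∈ (insert (h i) (∅ : Finset V))ᶜ := by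
    rw [mem_compl, insert_empty_eq, mem_singleton]
    exact fun h1 => hni i (h.injective h1)
  have hmem2 : h ((finRotate (n + 1)).symm i) ∈ (insert (h i) (∅ : Finset V))ᶜ := by
    rw [mem_compl, insert_empty_eq, mem_singleton]
    intro h1
    have h2 := h.injective h1
    rw [Equiv.symm_apply_eq] at h2
    exact hni i h2.symm
  have hval : ∑ b ∈ (insert (h i) (∅ : Finset V))ᶜ, μ (h i) b * (1 / D * (1 -
        ((if b = h (finRotate (n + 1) i) then X1 else 0) +
          if b = h ((finRotate (n + 1)).symm i) then X2 else 0))) =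
      1 / D * (D - (μ (h i) (h (finRotate (n + 1) i)) * X1 +
        μ (h i) (h ((finRotate (n + 1)).symm i)) * X2)) := by
    have e1 : ∀ b ∈ (insert (h i) (∅ : Finset V))ᶜ, μ (h i) b * (1 / D * (1 -
        ((if b = h (finRotate (n + 1) i) then X1 else 0) +
          if b = h ((finRotate (n + 1)).symm i) then X2 else 0))) =
        1 / D * (μ (h i) b - ((if b = h (finRotate (n + 1) i) then μ (h i) b * X1 else 0) +
          if b = h ((finRotate (n + 1)).symm i) then μ (h i) b * X2 else 0)) := by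
      intro b _
      split_ifs <;> ring
    rw [sum_congr rfl e1, ← mul_sum, sum_sub_distrib, sum_add_distrib, sum_ite_eq', sum_ite_eq',
      if_pos hmem1, if_pos hmem2, un_eq_insert hμ ∅ (h i), ← hD]
  rw [hval]
  have hfin : μ (h i) (h (finRotate (n + 1) i)) * X1 +
        μ (h i) (h ((finRotate (n + 1)).symm i)) * X2 ≥ 9 / 10 * (X1 + X2) := by
    have e1 : 9 / 10 * X1 ≤ μ (h i) (h (finRotate (n + 1) i)) * X1 :=
      mul_le_mul_of_nonneg_right hm1 hX10
    have e2 : 9 / 10 * X2 ≤ μ (h i) (h ((finRotate (n + 1)).symm i)) * X2 :=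
      mul_le_mul_of_nonneg_right hm2 hX20
    linarith
  have hfin2 : 1 / D * (D - (μ (h i) (h (finRotate (n + 1) i)) * X1 +
        μ (h i) (h ((finRotate (n + 1)).symm i)) * X2)) ≤ 1 - 9 / 23 * (X1 + X2) := by
    rw [one_div, inv_mul_le_iff₀ hDp]
    have e3 : D * (X1 + X2) ≤ 23 / 10 * (X1 + X2) :=
      mul_le_mul_of_nonneg_right hDle (by linarith)
    nlinarith
  refine hfin2.trans ?_
  have e4 : X1 + X2 = 19 / 135 * (C - 2 * c0 - c1 - c2) := by
    rw [hX1, hX2]
    ring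
  have e5 : 0 ≤ C - 2 * c0 - c1 - c2 := by
    have := d1.2.1
    have := d2.2.1
    linarith
  rw [e4]
  linarith

end

end Pool.Agent.Lib.MP_009d13_co.OD
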