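import Pool.Agent.Lib.MP_009d13_co.OD.Defs2
import Pool.Agent.Lib.MP_009d13_co.OD.OPA
import Pool.Agent.Lib.MP_009d13_co.OD.OPB
import Pool.Agent.Lib.MP_009d13_co.OD.NFC
import Pool.Agent.Lib.MP_009d13_co.OD.BR
import Pool.Agent.Lib.MP_009d13_co.OD.RC
import Pool.Agent.Lib.MP_009d13_co.OD.NRF

/-!
# OD.NRW: `Wo` near a ring

`Wo <= sum d^2 Pp^[l-1] 1 <= 4 sum_v dg v exp(-(N - nu v + rho)) Nf^[l-2] 1` (`N` the sum of the
`nu v`), because `d^2 exp(2 - d) <= 4` for `d = dn v`. Then `nf_ring`, `exp(-x) <= 1 - x/2`, and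
the sums over the ring.
-/

set_option autoImplicit false

namespace Pool.Agent.Lib.MP_009d13_co.OD

open Finset Classical

noncomputable section

variable {V : Type} [Fintype V]

theorem nrw_rot1 {l : ℕ} (hl : 3 ≤ l) (j : Fin l) : finRotate l j ≠ j := by
  obtain ⟨m, rfl⟩ : ∃ m, l = m + 3 := ⟨l - 3, by omega⟩
  rw [finRotate_apply]
  intro h
  have h1 : (1 : Fin (m + 3)) = 0 := add_eq_left.mp h
  have h2 := congrArg Fin.val h1
  simp at h2

theorem nrw_rot2 {l : ℕ} (hl : 3 ≤ l) (j : Fin l) : finRotate l (finRotate l j) ≠ j := by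
  obtain ⟨m, rfl⟩ : ∃ m, l = m + 3 := ⟨l - 3, by omega⟩
  rw [finRotate_apply, finRotate_apply, add_assoc]
  intro h
  have h1 : (1 + 1 : Fin (m + 3)) = 0 := add_eq_left.mp h
  have h2 := congrArg Fin.val h1
  rw [Fin.val_add] at h2
  simp at h2
  rw [Nat.mod_eq_of_lt (by omega)] at h2
  omega

theorem nrw_sq {d : ℝ} (hd : 0 ≤ d) : d ^ 2 * Real.exp (2 - d) ≤ 4 := by
  have h1 : d / 2 * Real.exp (1 - d / 2) ≤ 1 := nfc_le _
  have h0 : 0 ≤ d / 2 * Real.exp (1 - d / 2) := by positivity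
  have h3 : (d / 2 * Real.exp (1 - d / 2)) * (d / 2 * Real.exp (1 - d / 2)) ≤ 1 := by
    nlinarith
  have h4 : (d / 2 * Real.exp (1 - d / 2)) * (d / 2 * Real.exp (1 - d / 2))
      = d ^ 2 / 4 * Real.exp (2 - d) := by
    have h5 : Real.exp (2 - d) = Real.exp (1 - d / 2) * Real.exp (1 - d / 2) := by
      rw [← Real.exp_add]; congr 1; ring
    rw [h5]; ring
  rw [h4] at h3
  linarith

theorem nrw_mono {μ : V → V → ℝ} (h : Wt μ) {g g' : Finset V → V → ℝ}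
    (hg : ∀ B u, u ∉ B → g B u ≤ g' B u) (k : ℕ) {A : Finset V} {v : V} (hv : v ∉ A) :
    (Nf μ)^[k] g A v ≤ (Nf μ)^[k] g' A v := by
  rw [Nf_eq_TW]
  exact TW_mono (fun A v b => mul_nonneg (div_nonneg (h.nonneg _ _) (un_nonneg h _ _))
    (mul_nonneg (un_nonneg h _ _) (Real.exp_pos _).le)) hg k hv

theorem nrw_nf_nonneg {μ : V → V → ℝ} (h : Wt μ) (k : ℕ) {A : Finset V} {v : V} (hv : v ∉ A) :
    0 ≤ (Nf μ)^[k] (fun _ _ => 1) A v := by
  rw [Nf_eq_TW]
  exact TW_nonneg (fun A v b => mul_nonneg (div_nonneg (h.nonneg _ _) (un_nonneg h _ _))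
    (mul_nonneg (un_nonneg h _ _) (Real.exp_pos _).le)) (fun _ _ _ => zero_le_one) k hv

/-- The contribution of one hub. -/
theorem nrw_one {μ : V → V → ℝ} (h : Wt μ) {ν : V → ℝ} (hν : ∀ v, 0 ≤ ν v) {ρ : ℝ} {l : ℕ}
    (hl : 2 ≤ l) (hm : ms μ ∅ + ∑ v, ν v + ρ = l) (v : V) :
    dn μ ν v ^ 2 * (Pp μ)^[l - 1] (fun _ _ => 1) ∅ v
      ≤ 4 * (dg μ v * (Real.exp (-(∑ v, ν v - ν v + ρ))
        * (Nf μ)^[l - 2] (fun _ _ => 1) ∅ v)) := by
  have hv : v ∉ (∅ : Finset V) := notMem_empty v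
  have hd0 : 0 ≤ dg μ v := by
    rw [dg_eq]; exact un_nonneg h _ _
  have hd1 : 0 ≤ dn μ ν v := add_nonneg hd0 (hν v)
  have h2 : l - 1 = (l - 2) + 1 := by omega
  have h3 : (Pp μ)^[l - 1] (fun _ _ => 1) ∅ v
      = (Pp μ)^[l - 2] (fun B u => un μ B u * 1) ∅ v := by
    have h20 : Pp μ (fun _ _ => 1) = fun B u => un μ B u * 1 := by
      funext A u
      unfold Pp
      rw [← sum_mul, un_eq_insert h A u]
    rw [h2, Function.iterate_succ_apply, h20]
  have h4 := nf_conj h (fun _ _ => 1) (l - 2) hv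
  have h5 : (Nf μ)^[l - 2] (fun B u => Real.exp (-(ms μ (insert u B))) * 1) ∅ v
      ≤ (Nf μ)^[l - 2] (fun _ _ => 1) ∅ v := by
    refine nrw_mono h (fun B u _ => ?_) (l - 2) hv
    rw [mul_one]
    apply Real.exp_le_one_iff.2
    have := ms_nonneg h (insert u B)
    linarith
  have h6 : (((l - 2 : ℕ) : ℝ)) = (l : ℝ) - 2 := by
    rw [Nat.cast_sub hl]; norm_num
  rw [h3, h4, ← dg_eq, h6]
  have h8 : Real.exp (ms μ ∅ - dg μ v - ((l : ℝ) - 2))
      = Real.exp (2 - dn μ ν v) * Real.exp (-(∑ v, ν v - ν v + ρ)) := by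
    rw [← Real.exp_add]
    congr 1
    unfold dn
    linarith
  rw [h8]
  have h9 : 0 ≤ dg μ v * (Real.exp (2 - dn μ ν v) * Real.exp (-(∑ v, ν v - ν v + ρ))) :=
    mul_nonneg hd0 (mul_nonneg (Real.exp_pos _).le (Real.exp_pos _).le)
  have h10 := mul_le_mul_of_nonneg_left h5 h9
  have h11 := mul_le_mul_of_nonneg_left h10 (sq_nonneg (dn μ ν v))
  refine h11.trans ?_
  have h12 : 0 ≤ dg μ v * (Real.exp (-(∑ v, ν v - ν v + ρ))
        * (Nf μ)^[l - 2] (fun _ _ => 1) ∅ v) :=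
    mul_nonneg hd0 (mul_nonneg (Real.exp_pos _).le (nrw_nf_nonneg h _ hv))
  have h13 := mul_le_mul_of_nonneg_right (nrw_sq hd1) h12
  refine le_trans (le_of_eq ?_) h13
  ring

/-- The degree of a hub of the ring. -/
theorem nrw_deg {μ : V → V → ℝ} (hμ : Wt μ) {l : ℕ} (hl : 3 ≤ l) (h : Fin l ↪ V)
    (hout : ∀ a b, (∀ i, h i ≠ a) → μ a b = 0) (i : Fin l) :
    dg μ (h i) = μ (h i) (h (finRotate l i))
      + μ (h ((finRotate l).symm i)) (h (finRotate l ((finRotate l).symm i))) + ch h μ i := by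
  have h1 : dg μ (h i) = ∑ j, μ (h i) (h j) :=
    rc_sum_range h (fun b => μ (h i) b) fun a ha => by
      rw [hμ.symm]
      exact hout a _ ha
  have hn1 : finRotate l i ≠ i := nrw_rot1 hl i
  have hn2 : (finRotate l).symm i ≠ i := fun e => by
    have := nrw_rot1 hl ((finRotate l).symm i)
    rw [Equiv.apply_symm_apply] at this
    exact this e.symm
  have hn3 : finRotate l i ≠ (finRotate l).symm i := fun e => by
    have := nrw_rot2 hl ((finRotate l).symm i)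
    rw [Equiv.apply_symm_apply] at this
    exact this e
  have h2 : univ.filter (fun j => ¬ (j ≠ i ∧ j ≠ finRotate l i ∧ i ≠ finRotate l j))
      = {i, finRotate l i, (finRotate l).symm i} := by
    ext j
    simp only [mem_filter, mem_univ, true_and, mem_insert, mem_singleton]
    have h3 : i = finRotate l j ↔ j = (finRotate l).symm i := by
      rw [Equiv.eq_symm_apply]
      exact eq_comm
    rw [Ne, Ne, Ne, h3]
    tauto
  rw [h1, ← sum_filter_add_sum_filter_not univ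
    (fun j => j ≠ i ∧ j ≠ finRotate l i ∧ i ≠ finRotate l j), h2,
    sum_insert (by simp only [mem_insert, mem_singleton, not_or]; exact ⟨hn1.symm, hn2.symm⟩),
    sum_insert (by simpa using hn3), sum_singleton, hμ.diag, Equiv.apply_symm_apply,
    hμ.symm (h ((finRotate l).symm i)) (h i)]
  unfold ch
  ring

theorem nrw_exp {x : ℝ} (h0 : 0 ≤ x) (h1 : x ≤ 1) : Real.exp (-x) ≤ 1 - x / 2 := by
  have h2 := Real.exp_pos (-x)
  have h3 : Real.exp (-x) * Real.exp x = 1 := by rw [← Real.exp_add]; simp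
  have h4 := Real.add_one_le_exp x
  have h5 := mul_le_mul_of_nonneg_left h4 h2.le
  rw [h3] at h5
  by_contra hc
  push Not at hc
  have h6 : (1 - x / 2) * (x + 1) < Real.exp (-x) * (x + 1) :=
    mul_lt_mul_of_pos_right hc (by linarith)
  nlinarith

theorem wo_ring {μ : V → V → ℝ} (hμ : Wt μ) {ν : V → ℝ} (hν : ∀ v, 0 ≤ ν v) {ρ : ℝ}
    (hρ : 0 ≤ ρ) {l : ℕ} (hl : 1000 ≤ l) (h : Fin l ↪ V)
    (h9 : ∀ j, 9 / 10 ≤ μ (h j) (h (finRotate l j)))
    (h11 : ∀ j, μ (h j) (h (finRotate l j)) ≤ 11 / 10)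
    (hout : ∀ a b, (∀ i, h i ≠ a) → μ a b = 0) (hνo : ∀ a, (∀ i, h i ≠ a) → ν a = 0)
    (hm : ms μ ∅ + ∑ v, ν v + ρ = l)
    (hoff : l - ∑ j, μ (h j) (h (finRotate l j)) ≤ 1 / 10) :
    Wo μ (dn μ ν) l ≤ 8 * l - l / 10 * (l - ∑ j, μ (h j) (h (finRotate l j))) := by
  have hl3 : 3 ≤ l := by omega
  have hlR : (1000 : ℝ) ≤ l := by exact_mod_cast hl
  obtain ⟨m, hmdef⟩ : ∃ m : Fin l → ℝ, m = fun j => μ (h j) (h (finRotate l j)) := ⟨_, rfl⟩
  obtain ⟨M, hM⟩ : ∃ M : ℝ, M = ∑ j, μ (h j) (h (finRotate l j)) := ⟨_, rfl⟩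
  obtain ⟨N, hN⟩ : ∃ N : ℝ, N = ∑ v, ν v := ⟨_, rfl⟩
  obtain ⟨C, hC⟩ : ∃ C : ℝ, C = ∑ i, ch h μ i := ⟨_, rfl⟩
  have hN0 : 0 ≤ N := hN ▸ sum_nonneg fun v _ => hν v
  have hch0 : ∀ i, 0 ≤ ch h μ i := fun i => by
    unfold ch
    exact sum_nonneg fun j _ => hμ.nonneg _ _
  have hC0 : 0 ≤ C := hC ▸ sum_nonneg fun i _ => hch0 i
  have hchC : ∀ i, ch h μ i ≤ C := fun i => by
    rw [hC]
    exact single_le_sum (fun i _ => hch0 i) (mem_univ i)
  have hνN : ∀ v, ν v ≤ N := fun v => by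
    rw [hN]
    exact single_le_sum (fun i _ => hν i) (mem_univ v)
  have hdout : ∀ a, (∀ i, h i ≠ a) → dg μ a = 0 := fun a ha => by
    unfold dg
    exact sum_eq_zero fun b _ => hout a b ha
  have hD : ∑ i, dg μ (h i) = 2 * ms μ ∅ := by
    rw [← sum_dg, rc_sum_range h (dg μ) hdout]
  have hS : ∑ i, dg μ (h i) = 2 * M + C := by
    rw [sum_congr rfl fun i _ => nrw_deg hμ hl3 h hout i, sum_add_distrib, sum_add_distrib,
      Equiv.sum_comp (finRotate l).symm fun j => μ (h j) (h (finRotate l j)), ← hM, ← hC]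
    ring
  have hms : ms μ ∅ = M + C / 2 := by linarith
  rw [← hN] at hm
  rw [← hM] at hoff
  have hoff' : (l : ℝ) - M = C / 2 + N + ρ := by linarith
  rw [hoff'] at hoff
  have hC5 : C ≤ 1 / 5 := by linarith
  have hDb : ∀ i, dg μ (h i) ≤ 12 / 5 := fun i => by
    rw [nrw_deg hμ hl3 h hout i]
    have := h11 i
    have := h11 ((finRotate l).symm i)
    have := hchC i
    linarith
  have hD0 : ∀ i, 0 ≤ dg μ (h i) := fun i => by
    rw [dg_eq]; exact un_nonneg hμ _ _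
  have hterm : ∀ i, dn μ ν (h i) ^ 2 * (Pp μ)^[l - 1] (fun _ _ => 1) ∅ (h i)
      ≤ 4 * dg μ (h i) - 19 / 10 * (N + ρ) * dg μ (h i) + 5 * ν (h i)
        - 4 / 25 * C * dg μ (h i)
        + 2 / 5 * (2 * ch h μ i + ch h μ (finRotate l i) + ch h μ ((finRotate l).symm i)) := by
    intro i
    have k1 := nrw_one hμ hν (ρ := ρ) (by omega : 2 ≤ l) (by rw [← hN]; exact hm) (h i)
    rw [← hN] at k1
    have k2 := nf_ring hμ (by omega : 10 ≤ l) h h9 h11 hout (by rw [← hC]; exact hC5) i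
    rw [← hC] at k2
    obtain ⟨x, hx⟩ : ∃ x : ℝ, x = N - ν (h i) + ρ := ⟨_, rfl⟩
    obtain ⟨c, hc⟩ : ∃ c : ℝ, c = 2 * ch h μ i + ch h μ (finRotate l i)
        + ch h μ ((finRotate l).symm i) := ⟨_, rfl⟩
    obtain ⟨f, hf⟩ : ∃ f : ℝ, f = (Nf μ)^[l - 2] (fun _ _ => 1) ∅ (h i) := ⟨_, rfl⟩
    have hx0 : 0 ≤ x := by
      have := hνN (h i)
      linarith
    have hx1 : x ≤ 1 / 10 := by
      have := hν (h i)
      linarith
    have hc0 : 0 ≤ c := by
      have := hch0 i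
      have := hch0 (finRotate l i)
      have := hch0 ((finRotate l).symm i)
      linarith
    have hc1 : c ≤ 4 * C := by
      have := hchC i
      have := hchC (finRotate l i)
      have := hchC ((finRotate l).symm i)
      linarith
    have k3 := nrw_exp hx0 (by linarith)
    have k4 : f ≤ 1 - 1 / 25 * (C - c) := by
      rw [hf, hc]
      linarith
    have hf0 : 0 ≤ f := hf ▸ nrw_nf_nonneg hμ _ (notMem_empty _)
    have k5 : Real.exp (-x) * f ≤ (1 - x / 2) * (1 - 1 / 25 * (C - c)) :=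
      mul_le_mul k3 k4 hf0 (by linarith)
    have k6 : (1 - x / 2) * (1 - 1 / 25 * (C - c))
        ≤ 1 - 19 / 40 * x - 1 / 25 * (C - c) := by
      nlinarith
    have k7 := mul_le_mul_of_nonneg_left (k5.trans k6) (hD0 i)
    rw [← hx, ← hf] at k1
    have hb := hDb i
    have h0 := hD0 i
    have hν0 := hν (h i)
    have k8 : dg μ (h i) * ν (h i) ≤ 12 / 5 * ν (h i) := mul_le_mul_of_nonneg_right hb hν0
    have k9 : dg μ (h i) * c ≤ 12 / 5 * c := mul_le_mul_of_nonneg_right hb hc0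
    rw [← hc]
    rw [hx] at k7 k1
    nlinarith
  have hW := wo_le_sq hμ (d := dn μ ν) l (by omega)
  have hsum : ∑ v, dn μ ν v ^ 2 * (Pp μ)^[l - 1] (fun _ _ => 1) ∅ v
      = ∑ i, dn μ ν (h i) ^ 2 * (Pp μ)^[l - 1] (fun _ _ => 1) ∅ (h i) := by
    refine rc_sum_range h (fun v => dn μ ν v ^ 2 * (Pp μ)^[l - 1] (fun _ _ => 1) ∅ v)
      fun a ha => ?_
    have : dn μ ν a = 0 := by
      unfold dn
      rw [hdout a ha, hνo a ha, add_zero]
    rw [this]
    ring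
  rw [hsum] at hW
  have hsum2 := sum_le_sum fun i (_ : i ∈ univ) => hterm i
  have hνs : ∑ i, ν (h i) = N := by rw [hN, rc_sum_range h ν hνo]
  have hr1 : ∑ i, ch h μ (finRotate l i) = C := by
    rw [hC]
    exact Equiv.sum_comp (finRotate l) (ch h μ)
  have hr2 : ∑ i, ch h μ ((finRotate l).symm i) = C := by
    rw [hC]
    exact Equiv.sum_comp (finRotate l).symm (ch h μ)
  have hsum3 : ∑ i, (4 * dg μ (h i) - 19 / 10 * (N + ρ) * dg μ (h i) + 5 * ν (h i)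
        - 4 / 25 * C * dg μ (h i)
        + 2 / 5 * (2 * ch h μ i + ch h μ (finRotate l i) + ch h μ ((finRotate l).symm i)))
      = 4 * (2 * M + C) - 19 / 10 * (N + ρ) * (2 * M + C) + 5 * N - 4 / 25 * C * (2 * M + C)
        + 2 / 5 * (4 * C) := by
    rw [sum_add_distrib, sum_sub_distrib, sum_add_distrib, sum_sub_distrib, ← mul_sum, ← mul_sum,
      ← mul_sum, ← mul_sum, ← mul_sum, sum_add_distrib, sum_add_distrib, ← mul_sum, hS, hνs, hr1,
      hr2, ← hC]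
    ring
  rw [hsum3] at hsum2
  have hfin := hW.trans hsum2
  rw [← hM, hoff']
  have hMl : M = l - (C / 2 + N + ρ) := by linarith
  have hM1 : (l : ℝ) - 1 / 10 ≤ M := by linarith
  refine hfin.trans ?_
  have e1 : 19 / 10 * (N + ρ) * (2 * M + C) ≥ 19 / 10 * (N + ρ) * (2 * l - 1 / 5) :=
    mul_le_mul_of_nonneg_left (by linarith) (by positivity)
  have e2 : 4 / 25 * C * (2 * M + C) ≥ 4 / 25 * C * (2 * l - 1 / 5) :=
    mul_le_mul_of_nonneg_left (by linarith) (by positivity)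
  have e3 : 0 ≤ C * (l - 1000) := mul_nonneg hC0 (by linarith)
  have e4 : 0 ≤ N * (l - 1000) := mul_nonneg hN0 (by linarith)
  have e5 : 0 ≤ ρ * (l - 1000) := mul_nonneg hρ (by linarith)
  nlinarith

end

end Pool.Agent.Lib.MP_009d13_co.OD
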