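import Pool.Agent.Lib.MP_009d13_co.OD.NRB
import Pool.Agent.Lib.MP_009d13_co.OD.LAY

/-! NRX: the sum of the products of the degrees near a ring. -/

set_option autoImplicit false

namespace Pool.Agent.Lib.MP_009d13_co.OD

open Finset Classical
open Pool.Agent.Lib.MP_009d13_co.P5 (nb kk)

noncomputable section

variable {V : Type} [Fintype V] (G : SimpleGraph V)

theorem nrx_sum_fst (S T : Finset V) (f : V → ℝ) :
    ∑ p ∈ P5.pr G S T, f p.1 = ∑ v ∈ S, ((nb G v ∩ T).card : ℝ) * f v := by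
  have h1 : P5.pr G S T = S.biUnion fun v => (nb G v ∩ T).image fun w => (v, w) := by
    ext ⟨a, b⟩
    simp only [P5.pr, P5.nb, mem_filter, mem_univ, true_and, mem_biUnion, mem_image, mem_inter,
      Prod.mk.injEq]
    constructor
    · rintro ⟨ha, hb, hab⟩
      exact ⟨a, ha, b, ⟨hab, hb⟩, rfl, rfl⟩
    · rintro ⟨v, hv, w, ⟨hw, hw'⟩, rfl, rfl⟩
      exact ⟨hv, hw', hw⟩
  rw [h1, sum_biUnion]
  · refine sum_congr rfl fun v _ => ?_
    rw [sum_image (fun a _ b _ hab => by simpa using hab)]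
    simp only
    rw [sum_const, nsmul_eq_mul]
  · intro a _ b _ hab
    rw [Function.onFun, Finset.disjoint_left]
    rintro p hp hp'
    rw [mem_image] at hp hp'
    obtain ⟨w, _, rfl⟩ := hp
    obtain ⟨w', _, hw'⟩ := hp'
    rw [Prod.mk.injEq] at hw'
    exact hab hw'.1.symm

theorem nrx_sum_snd (S : Finset V) (f : V → ℝ) :
    ∑ p ∈ P5.pr G S S, f p.2 = ∑ p ∈ P5.pr G S S, f p.1 := by
  apply sum_bij (fun p _ => (p.2, p.1))
  · intro p hp
    simp only [P5.pr, mem_filter, mem_univ, true_and] at hp ⊢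
    exact ⟨hp.2.1, hp.1, hp.2.2.symm⟩
  · rintro ⟨a, b⟩ _ ⟨c, d⟩ _ h
    simp only [Prod.mk.injEq] at h
    rw [h.1, h.2]
  · rintro ⟨a, b⟩ hp
    refine ⟨(b, a), ?_, rfl⟩
    simp only [P5.pr, mem_filter, mem_univ, true_and] at hp ⊢
    exact ⟨hp.2.1, hp.1, hp.2.2.symm⟩
  · intro p _
    rfl

theorem nrx_final {l n T : ℝ} (hl : 3 ≤ l) (hn : 0 ≤ n) (hT : 0 ≤ T) (hTT : T ≤ T ^ 2) :
    9 * l ^ 2 * (6 * n) + 3 * l * (2 * ((2 * l + T) * ((2 * l + 6) * T)))
      + T * (6 * ((2 * l + 6) * T)) ≤ 1000 * l ^ 3 * (n + T ^ 2) := by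
  have h0 : 0 ≤ l := by linarith
  have h1 : 2 * l + 6 ≤ 4 * l := by linarith
  have h2 : (2 * l + 6) * T ≤ 4 * l * T := mul_le_mul_of_nonneg_right h1 hT
  have h3 : 3 * l * (2 * ((2 * l + T) * ((2 * l + 6) * T)))
      ≤ 3 * l * (2 * ((2 * l + T) * (4 * l * T))) := by gcongr
  have h4 : T * (6 * ((2 * l + 6) * T)) ≤ T * (6 * (4 * l * T)) := by gcongr
  have h5 : 3 * l * (2 * ((2 * l + T) * (4 * l * T))) = 48 * l ^ 3 * T + 24 * l ^ 2 * T ^ 2 := by
    ring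
  have h6 : 48 * l ^ 3 * T ≤ 48 * l ^ 3 * T ^ 2 := by gcongr
  have h7 : l ^ 2 ≤ l ^ 3 := pow_le_pow_right₀ (by linarith) (by norm_num)
  have h8 : l ≤ l ^ 3 := le_self_pow₀ (by linarith) (by norm_num)
  have h9 : 24 * l ^ 2 * T ^ 2 ≤ 24 * l ^ 3 * T ^ 2 := by gcongr
  have h10 : T * (6 * (4 * l * T)) ≤ 24 * l ^ 3 * T ^ 2 := by
    have : T * (6 * (4 * l * T)) = 24 * l * T ^ 2 := by ring
    rw [this]; gcongr
  have h11 : 9 * l ^ 2 * (6 * n) ≤ 54 * l ^ 3 * n := by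
    have : 9 * l ^ 2 * (6 * n) = 54 * l ^ 2 * n := by ring
    rw [this]; gcongr
  have h12 : 0 ≤ l ^ 3 * n := by positivity
  have h13 : 0 ≤ l ^ 3 * T ^ 2 := by positivity
  nlinarith

/-! ### NRX (uses NRB LAY) -/
theorem x4_ring (hS : P5.Sparse6 G) (hK : P5.NoK33m G) {l : ℕ} (hl : 3 ≤ l) (h : Fin l ↪ V) :
    x4 G (Hr h) ≤ 1000 * (l : ℝ) ^ 3 * ((Fintype.card V : ℝ) + ((Or G h).card : ℝ) ^ 2) := by
  set S : Finset V := (Hr h)ᶜ with hSd
  set t : V → ℝ := fun u => ((nb G u ∩ Or G h).card : ℝ) with ht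
  set T : ℝ := ((Or G h).card : ℝ) with hT
  have ht0 : ∀ u, 0 ≤ t u := fun u => Nat.cast_nonneg _
  have htT : ∀ u, t u ≤ T := fun u => by
    simp only [ht, hT]
    exact_mod_cast card_le_card inter_subset_right
  have hT0 : 0 ≤ T := Nat.cast_nonneg _
  have hTT : T ≤ T ^ 2 := by
    simp only [hT]
    have : (Or G h).card ≤ (Or G h).card ^ 2 := Nat.le_self_pow (by norm_num) _
    exact_mod_cast this
  have hl3 : (3 : ℝ) ≤ l := by exact_mod_cast hl
  have hl0 : (0 : ℝ) ≤ l := by linarith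
  have hdeg : ∀ u ∈ S, ((nb G u).card : ℝ) ≤ 3 * l + t u := by
    intro u hu
    have := (deg_low G hK hl h (mem_compl.mp hu)).1
    simp only [ht]
    exact_mod_cast this
  have hdeg2 : ∀ u ∈ S, ((nb G u ∩ S).card : ℝ) ≤ 2 * l + T := by
    intro u hu
    have h1 := (deg_low G hK hl h (mem_compl.mp hu)).2
    have h3 : nb G u ∩ S = nb G u \ Hr h := by
      ext w; simp [hSd, mem_sdiff]
    rw [h3]
    have h4 : ((nb G u \ Hr h).card : ℝ) ≤ 2 * l + t u := by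
      simp only [ht]
      exact_mod_cast h1
    linarith [htT u]
  have hsumt : ∑ u ∈ S, t u ≤ (2 * l + 6) * T := by
    have := sum_nb_Or G hS hK hl h
    simp only [ht, hT]
    exact_mod_cast this
  have hfst : ∑ p ∈ P5.pr G S S, t p.1 ≤ (2 * l + T) * ((2 * l + 6) * T) := by
    rw [nrx_sum_fst]
    calc ∑ v ∈ S, ((nb G v ∩ S).card : ℝ) * t v ≤ ∑ v ∈ S, (2 * l + T) * t v :=
          sum_le_sum fun v hv => mul_le_mul_of_nonneg_right (hdeg2 v hv) (ht0 v)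
      _ = (2 * l + T) * ∑ v ∈ S, t v := by rw [mul_sum]
      _ ≤ _ := mul_le_mul_of_nonneg_left hsumt (by positivity)
  have hsnd : ∑ p ∈ P5.pr G S S, t p.2 ≤ (2 * l + T) * ((2 * l + 6) * T) := by
    rw [nrx_sum_snd G S t]; exact hfst
  have hcard : ((P5.pr G S S).card : ℝ) ≤ 6 * (Fintype.card V : ℝ) := by
    have h1 := hS S
    have h2 : S.card ≤ Fintype.card V := card_le_univ S
    have h3 : (P5.pr G S S).card ≤ 6 * Fintype.card V := h1.trans (by omega)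
    exact_mod_cast h3
  have hmin : ∑ p ∈ P5.pr G S S, min (t p.1) (t p.2) ≤ 6 * ((2 * l + 6) * T) := by
    have h1 := layer_real (P5.pr G S S) S (fun _ => 3) t 0 T (fun _ => by norm_num) le_rfl ht0 hT0
      (fun z _ => htT z) (by
        intro p hp
        simp only [P5.pr, mem_filter, mem_univ, true_and] at hp
        exact ⟨hp.1, hp.2.1⟩) (by
        intro Z _
        have h2 : ((P5.pr G S S).filter fun p => p.1 ∈ Z ∧ p.2 ∈ Z).card ≤ 6 * Z.card := by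
          refine (card_le_card ?_).trans (hS Z)
          intro p hp
          simp only [P5.pr, mem_filter, mem_univ, true_and] at hp ⊢
          exact ⟨hp.2.1, hp.2.2, hp.1.2.2⟩
        have h3 : (((P5.pr G S S).filter fun p => p.1 ∈ Z ∧ p.2 ∈ Z).card : ℝ)
            ≤ 6 * (Z.card : ℝ) := by exact_mod_cast h2
        refine h3.trans (le_of_eq ?_)
        rw [sum_const, nsmul_eq_mul]
        ring)
    refine h1.trans ?_
    rw [← mul_sum]
    linarith
  have hterm : ∀ p ∈ P5.pr G S S, ((nb G p.1).card : ℝ) * ((nb G p.2).card : ℝ)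
      ≤ 9 * l ^ 2 + 3 * l * (t p.1 + t p.2) + T * min (t p.1) (t p.2) := by
    intro p hp
    simp only [P5.pr, mem_filter, mem_univ, true_and] at hp
    have h1 := hdeg p.1 hp.1
    have h2 := hdeg p.2 hp.2.1
    have h3 : t p.1 * t p.2 ≤ T * min (t p.1) (t p.2) := by
      rw [← max_mul_min (t p.1) (t p.2)]
      exact mul_le_mul_of_nonneg_right (max_le (htT _) (htT _)) (le_min (ht0 _) (ht0 _))
    calc ((nb G p.1).card : ℝ) * ((nb G p.2).card : ℝ) ≤ (3 * l + t p.1) * (3 * l + t p.2) :=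
          mul_le_mul h1 h2 (Nat.cast_nonneg _) (by have := ht0 p.1; positivity)
      _ = 9 * l ^ 2 + 3 * l * (t p.1 + t p.2) + t p.1 * t p.2 := by ring
      _ ≤ _ := by linarith
  calc x4 G (Hr h) = ∑ p ∈ P5.pr G S S, ((nb G p.1).card : ℝ) * ((nb G p.2).card : ℝ) := rfl
    _ ≤ ∑ p ∈ P5.pr G S S, (9 * l ^ 2 + 3 * l * (t p.1 + t p.2) + T * min (t p.1) (t p.2)) :=
        sum_le_sum hterm
    _ = 9 * l ^ 2 * ((P5.pr G S S).card : ℝ)
        + 3 * l * (∑ p ∈ P5.pr G S S, t p.1 + ∑ p ∈ P5.pr G S S, t p.2)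
        + T * ∑ p ∈ P5.pr G S S, min (t p.1) (t p.2) := by
        simp only [sum_add_distrib, mul_add, sum_const, nsmul_eq_mul, mul_sum]
        ring
    _ ≤ 9 * l ^ 2 * (6 * (Fintype.card V : ℝ))
        + 3 * l * (2 * ((2 * l + T) * ((2 * l + 6) * T))) + T * (6 * ((2 * l + 6) * T)) := by
        have h1 : ∑ p ∈ P5.pr G S S, t p.1 + ∑ p ∈ P5.pr G S S, t p.2
            ≤ 2 * ((2 * l + T) * ((2 * l + 6) * T)) := by linarith
        gcongr
    _ ≤ _ := nrx_final hl3 (Nat.cast_nonneg _) hT0 hTT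

end

end Pool.Agent.Lib.MP_009d13_co.OD
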