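import Pool.Agent.Lib.MP_009d13_co.OD.Defs2
import Pool.Agent.Lib.MP_009d13_co.OD.NRA
import Pool.Agent.Lib.MP_009d13_co.OD.NRX
import Pool.Agent.Lib.MP_009d13_co.OD.NRW
import Pool.Agent.Lib.MP_009d13_co.OD.NRP
import Pool.Agent.Lib.MP_009d13_co.OD.CFG
import Pool.Agent.Lib.MP_009d13_co.OD.NRB
import Pool.Agent.Lib.MP_009d13_co.OD.KA
import Pool.Agent.Lib.MP_009d13_co.P5.CONL

/-!
# OD.NEA

Let κ = 2 l^3, C the constants of ps_ring etc. δ := small, δ <= 1/(10^4 l^3) and such that C δ..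
<= (see below). h given with m_j := |nb(h j) ∩ nb(h(rot j))| >= (1-δ) n/l for all j. y_j >= m_j -
l - κ (common neighbours that are hubs or exceptional), Σ y_j + t + l = n (card_ring), so t <= δ n
+ l(l + κ) and y_j <= n - Σ_(i≠j) y_i <= n/l + δ n + C <= (1 + 1/(100 l)) n/l for n >= N (δ l <=
1/(200 l)). So ps_ring applies (t <= n/(100 l^2)).
n < N: Tk G (2l+2) <= n^(2l+2) (number of lists; pw <= 1) <= N^(l+2) * N^l.. <= K n^l if n >= 1 (V
empty: Tk = 0); so take K large.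
n >= N: tk_ring + x4_ring + ps_ring: Tk <= 2(l+1) Wo(mu,dd) l + 10^5 l t (n/l)^l + C (n^l + t^2
n^(l-1)) + 4^(l+1)((6n)^(l-1) 1000 l^3 (n + t^2) + l^2 (6n)^l) <= 2(l+1) Wo + 10^5 l t (n/l)^l +
C2 (n^l + t^2 n^(l-1)).
t^2 n^(l-1) <= t (δ n + C3) n^(l-1) <= C2-small: C2 t δ n^l <= l t (n/l)^l if δ <= l^(1-l)/C2,
rest C n^l.
Wo: total mass m = ms mu ∅ + Σ nu + n0, n - l - κ <= m <= n + 4 l^5 (cfg). Scale by l/m: μ~ =
(l/m) mu etc: total l; Wo(mu,dd) l = (m/l)^(l+1) Wo(scaled). wo_ring for the scaled weights: ring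
entries (l/m) muG(h j)(h(rot j)) = (l/m)(n2 + κ), n2 (h j)(h(rot j)) = y_j: in [.9,1.1] as
(1-δ)n/l - C <= y_j <= (1+1/(100l)) n/l. hout: muG = 0 outside Hr. off = l - (l/m) Σ_j (y_j + κ) =
(l/m)(m - Σ y_j - lκ) >= (l/m)(n - l - κ - (n - l - t) - lκ) = (l/m)(t - κ - lκ)
and off <= (l/m)(n + 4 l^5 - (n - l - t)) <= 1/10 for n large (t <= n/(100 l^2)..). So Wo(scaled)
<= 8l - (l/10)(l/m)(t - C4), 2(l+1) Wo <= 16 l(l+1) (m/l)^(l+1) - 2(l+1)(l/10)(m/l)^l (t - C4) and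
(m/l)^(l+1) <= ((n + 4l^5)/l)^(l+1) <= (n/l)^(l+1) + C n^l; (m/l)^l >= (1/2)(n/l)^l for n >= N. So
the gain is (l(l+1)/10) t (n/l)^l which beats (10^5 + 1) l t (n/l)^l because l >= 10^40. If t < C4
the gain term is replaced by C n^l.
-/

set_option autoImplicit false

namespace Pool.Agent.Lib.MP_009d13_co.OD

open Finset Classical
open Pool.Agent.Lib.MP_009d13_co.P5 (nb kk)

noncomputable section

variable {V : Type} [Fintype V]
variable (G : SimpleGraph V) (H : Finset V)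

/-! ### scaling -/

theorem nea_wo_smul (μ : V → V → ℝ) (d : V → ℝ) (l : ℕ) (hl : 1 ≤ l) (c : ℝ) :
    Wo (fun a b => c * μ a b) (fun v => c * d v) l = c ^ (l + 1) * Wo μ d l := by
  unfold Wo
  rw [Finset.mul_sum]
  refine Finset.sum_congr rfl fun L hL => ?_
  have hne := ka_ne hL hl
  have hlen := (mem_NL.1 hL).1
  rw [ka_hd_smul _ _ hne, ka_ls_smul _ _ hne, pw_smul, hlen]
  have : c ^ (l + 1) = c * c ^ (l - 1) * c := by
    rw [show l + 1 = (l - 1) + 1 + 1 by omega, pow_succ, pow_succ]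
    ring
  rw [this]; ring

theorem nea_dn_smul (μ : V → V → ℝ) (ν : V → ℝ) (c : ℝ) :
    dn (fun a b => c * μ a b) (fun a => c * ν a) = fun v => c * dn μ ν v := by
  funext v
  unfold dn
  rw [ka_dg_smul]
  ring

/-! ### the crude bound for small graphs -/

theorem nea_card_NL (k : ℕ) : ∀ A : Finset V,
    ∑ _L ∈ NL A k, (1 : ℝ) ≤ (Fintype.card V : ℝ) ^ k := by
  induction k with
  | zero =>
    intro A
    rw [sum_NL_zero]
    simp
  | succ k ih =>
    intro A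
    rw [sum_NL_succ]
    refine (Finset.sum_le_sum fun a _ => ih (insert a A)).trans ?_
    rw [Finset.sum_const, nsmul_eq_mul, pow_succ']
    refine mul_le_mul_of_nonneg_right ?_ (by positivity)
    exact_mod_cast Finset.card_le_univ _

theorem nea_aj (a b : V) : 0 ≤ aj G a b ∧ aj G a b ≤ 1 := by
  unfold aj
  split_ifs <;> norm_num

theorem nea_pw_le (L : List V) : 0 ≤ pw (aj G) L ∧ pw (aj G) L ≤ 1 := by
  induction L with
  | nil => simp [pw]
  | cons a T ih =>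
    cases T with
    | nil => simp [pw]
    | cons b t =>
      have h1 := nea_aj G a b
      show 0 ≤ aj G a b * pw (aj G) (b :: t) ∧ aj G a b * pw (aj G) (b :: t) ≤ 1
      exact ⟨mul_nonneg h1.1 ih.1, mul_le_one₀ h1.2 ih.1 ih.2⟩

theorem nea_tk_le (k : ℕ) : Tk G k ≤ (Fintype.card V : ℝ) ^ k := by
  unfold Tk
  exact (Finset.sum_le_sum fun L _ => (nea_pw_le G L).2).trans (nea_card_NL k ∅)

/-! ### the classes of the ring -/

theorem nea_ne {l : ℕ} (hl : 2 ≤ l) (h : Fin l ↪ V) (j : Fin l) : h j ≠ h (finRotate l j) := by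
  intro hh
  have h1 := h.injective hh
  obtain ⟨k, rfl⟩ : ∃ k, l = k + 1 := ⟨l - 1, by omega⟩
  rw [finRotate_succ_apply] at h1
  have h2 := congrArg Fin.val h1
  rw [Fin.val_add_one] at h2
  split_ifs at h2 with h3
  · rw [h3] at h2
    simp at h2
    omega
  · omega

theorem nea_mu {l : ℕ} (hl : 2 ≤ l) (h : Fin l ↪ V) (κ : ℝ) (j : Fin l) :
    muG G (Hr h) κ (h j) (h (finRotate l j)) = (Yj G h j).card + κ := by
  have hmem : ∀ i, h i ∈ Hr h := fun i => Finset.mem_map_of_mem h (mem_univ i)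
  unfold muG
  rw [if_pos ⟨hmem _, hmem _, nea_ne hl h j⟩]
  have e : P5.n2 G (Hr h) (h j) (h (finRotate l j)) = (Yj G h j).card := by
    unfold P5.n2 Yj
    congr 1
    ext z
    simp only [mem_filter, mem_compl, mem_univ, true_and]
  rw [e]

theorem nea_common (hK : P5.NoK33m G) {l : ℕ} (hl : 2 ≤ l) (h : Fin l ↪ V) (j : Fin l) :
    ((nb G (h j) ∩ nb G (h (finRotate l j))).card : ℝ) ≤
      (Yj G h j).card + (l + 2 * (l : ℝ) ^ 3) := by
  have hmem : ∀ i, h i ∈ Hr h := fun i => Finset.mem_map_of_mem h (mem_univ i)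
  have hcard : (Hr h).card = l := by
    unfold Hr
    rw [Finset.card_map, Finset.card_univ, Fintype.card_fin]
  have hne := nea_ne hl h j
  have hsub : nb G (h j) ∩ nb G (h (finRotate l j)) ⊆
      Yj G h j ∪ (Hr h ∪ ((Hr h)ᶜ.filter fun z => 3 ≤ (kk G (Hr h) z).card)) := by
    intro z hz
    rw [mem_inter] at hz
    by_cases hzH : z ∈ Hr h
    · exact mem_union_right _ (mem_union_left _ hzH)
    by_cases h3 : 3 ≤ (kk G (Hr h) z).card
    · exact mem_union_right _ (mem_union_right _ (mem_filter.2 ⟨mem_compl.2 hzH, h3⟩))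
    · apply mem_union_left
      unfold Yj
      rw [mem_filter]
      refine ⟨mem_univ z, hzH, ?_⟩
      symm
      have ha : ∀ i, z ∈ nb G (h i) → h i ∈ kk G (Hr h) z := by
        intro i hi
        unfold P5.kk P5.nb
        rw [mem_inter, mem_filter]
        unfold P5.nb at hi
        rw [mem_filter] at hi
        exact ⟨⟨mem_univ _, hi.2.symm⟩, hmem i⟩
      apply Finset.eq_of_subset_of_card_le
      · intro x hx
        rw [mem_insert, mem_singleton] at hx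
        rcases hx with rfl | rfl
        · exact ha _ hz.1
        · exact ha _ hz.2
      · rw [Finset.card_pair hne]
        omega
  have h1 := Finset.card_le_card hsub
  have h2 := P5.card_exc G hK (Hr h)
  have h3 := Finset.card_union_le (Yj G h j)
    (Hr h ∪ ((Hr h)ᶜ.filter fun z => 3 ≤ (kk G (Hr h) z).card))
  have h4 := Finset.card_union_le (Hr h)
    ((Hr h)ᶜ.filter fun z => 3 ≤ (kk G (Hr h) z).card)
  rw [hcard] at h2 h4
  have h5 : (nb G (h j) ∩ nb G (h (finRotate l j))).card ≤ (Yj G h j).card + (l + 2 * l ^ 3) := by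
    omega
  exact_mod_cast h5

/-! ### real arithmetic -/

theorem nea_pow1 (k : ℕ) {x y : ℝ} (hx : 0 ≤ x) (hxy : x ≤ y) :
    y ^ (k + 1) ≤ x ^ (k + 1) + (k + 1) * (y - x) * y ^ k := by
  have hy : 0 ≤ y := hx.trans hxy
  induction k with
  | zero => simp
  | succ k ih =>
    have h1 : y ^ (k + 1 + 1) = y * y ^ (k + 1) := pow_succ' y (k + 1)
    have h2 : y * y ^ (k + 1) ≤ y * (x ^ (k + 1) + (k + 1) * (y - x) * y ^ k) :=
      mul_le_mul_of_nonneg_left ih hy
    have h3 : (y - x) * x ^ (k + 1) ≤ (y - x) * y ^ (k + 1) :=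
      mul_le_mul_of_nonneg_left (pow_le_pow_left₀ hx hxy _) (by linarith)
    have h4 : y * (x ^ (k + 1) + (k + 1) * (y - x) * y ^ k) =
        x ^ (k + 1 + 1) + (y - x) * x ^ (k + 1) + (k + 1) * (y - x) * y ^ (k + 1) := by
      rw [pow_succ x (k + 1), pow_succ y k]
      ring
    rw [h1]
    push_cast
    rw [h4] at h2
    nlinarith

theorem nea_pow2 (k : ℕ) {n a L : ℝ} (hn : 1 ≤ n) (ha : 0 ≤ a) (hL : 1 ≤ L) :
    ((n + a) / L) ^ (k + 1) ≤ (n / L) ^ (k + 1) + (k + 1) * a * (1 + a) ^ k * n ^ k := by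
  have h1 := nea_pow1 k (show (0 : ℝ) ≤ n by linarith) (show n ≤ n + a by linarith)
  have h2 : (n + a) ^ k ≤ ((1 + a) * n) ^ k := by
    apply pow_le_pow_left₀ (by linarith)
    nlinarith
  rw [mul_pow] at h2
  have h3 : (1 : ℝ) ≤ L ^ (k + 1) := one_le_pow₀ hL
  have h0 : (0 : ℝ) < L ^ (k + 1) := by positivity
  have h4 : (n + a) ^ (k + 1) ≤ n ^ (k + 1) + (k + 1) * a * ((1 + a) ^ k * n ^ k) := by
    have h5 : (k + 1) * (n + a - n) * (n + a) ^ k ≤ (k + 1) * a * ((1 + a) ^ k * n ^ k) := by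
      rw [add_sub_cancel_left]
      exact mul_le_mul_of_nonneg_left h2 (by positivity)
    linarith
  rw [div_pow, div_pow, div_le_iff₀ h0, add_mul, div_mul_cancel₀ _ h0.ne']
  refine h4.trans ?_
  have h6 : (k + 1) * a * ((1 + a) ^ k * n ^ k) * 1 ≤
      (k + 1) * a * ((1 + a) ^ k * n ^ k) * L ^ (k + 1) :=
    mul_le_mul_of_nonneg_left h3 (by positivity)
  linarith

theorem nea_pow3 (k : ℕ) {n m b L : ℝ} (hn : 1 ≤ n) (hL : 0 < L) (hb : 0 ≤ b) (hm : n - b ≤ m)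
    (h2 : 2 * k * b ≤ n) (hbn : b ≤ n) : 1 / 2 * (n / L) ^ k ≤ (m / L) ^ k := by
  have hn0 : 0 < n := by linarith
  have h1 : 1 + (k : ℝ) * (-(b / n)) ≤ (1 + -(b / n)) ^ k := by
    apply one_add_mul_le_pow
    have : b / n ≤ 1 := (div_le_one hn0).2 hbn
    linarith
  have h3 : (k : ℝ) * (b / n) ≤ 1 / 2 := by
    rw [← mul_div_assoc, div_le_iff₀ hn0]
    linarith
  have h4 : 1 / 2 ≤ (1 - b / n) ^ k := by
    have : (1 : ℝ) + -(b / n) = 1 - b / n := by ring
    rw [this] at h1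
    linarith
  have h5 : (n / L) * (1 - b / n) ≤ m / L := by
    have : (n / L) * (1 - b / n) = (n - b) / L := by
      field_simp
    rw [this]
    gcongr
  have h6 : 0 ≤ 1 - b / n := by
    have : b / n ≤ 1 := (div_le_one hn0).2 hbn
    linarith
  calc 1 / 2 * (n / L) ^ k ≤ (1 - b / n) ^ k * (n / L) ^ k :=
        mul_le_mul_of_nonneg_right h4 (by positivity)
    _ = ((n / L) * (1 - b / n)) ^ k := by rw [mul_pow, mul_comm]
    _ ≤ (m / L) ^ k := pow_le_pow_left₀ (mul_nonneg (by positivity) h6) h5 _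

theorem nea_hcard {l : ℕ} (h : Fin l ↪ V) : (Hr h).card = l := by
  unfold Hr
  rw [Finset.card_map, Finset.card_univ, Fintype.card_fin]

/-- bounds for the classes -/
theorem nea_y {l : ℕ} (hl : 1000 ≤ l) (h : Fin l ↪ V) {δ : ℝ} (hδ : 0 ≤ δ)
    (hy : ∀ j, (1 - δ) * ((Fintype.card V : ℝ) / l) ≤
      (Yj G h j).card + (l + 2 * (l : ℝ) ^ 3)) :
    ((Or G h).card : ℝ) ≤ δ * Fintype.card V + ((l : ℝ) ^ 2 + 2 * (l : ℝ) ^ 4) ∧
    ∀ j, ((Yj G h j).card : ℝ) ≤ (Fintype.card V : ℝ) / l + δ * Fintype.card V +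
      ((l : ℝ) ^ 2 + 2 * (l : ℝ) ^ 4) := by
  have hc := card_ring G (show 3 ≤ l by omega) h
  have hL : (1000 : ℝ) ≤ l := by exact_mod_cast hl
  have hL0 : (0 : ℝ) < l := by linarith
  set n : ℝ := (Fintype.card V : ℝ) with hn
  have hn0 : 0 ≤ n := Nat.cast_nonneg _
  set L : ℝ := (l : ℝ) with hLdef
  have hc' : L + ∑ j, ((Yj G h j).card : ℝ) + ((Or G h).card : ℝ) = n := by
    rw [hn, ← hc]
    push_cast
    rfl
  set q : ℝ := n / L with hq
  have hqL : L * q = n := by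
    rw [hq]
    field_simp
  have hq0 : 0 ≤ q := by positivity
  have hY : L * ((1 - δ) * q) ≤ ∑ j, ((Yj G h j).card : ℝ) + L * (L + 2 * L ^ 3) := by
    have h1 := Finset.sum_le_sum fun j (_ : j ∈ univ) => hy j
    rw [Finset.sum_const, Finset.card_univ, Fintype.card_fin, nsmul_eq_mul,
      Finset.sum_add_distrib, Finset.sum_const, Finset.card_univ, Fintype.card_fin,
      nsmul_eq_mul] at h1
    exact h1
  have e1 : L * ((1 - δ) * q) = (1 - δ) * n := by
    rw [← hqL]; ring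
  have e2 : L * (L + 2 * L ^ 3) = L ^ 2 + 2 * L ^ 4 := by ring
  rw [e1, e2] at hY
  constructor
  · nlinarith
  · intro j
    have h1 := Finset.sum_le_sum fun i (_ : i ∈ univ.erase j) => hy i
    rw [Finset.sum_const, Finset.card_erase_of_mem (mem_univ j), Finset.card_univ,
      Fintype.card_fin, nsmul_eq_mul, Finset.sum_add_distrib, Finset.sum_const,
      Finset.card_erase_of_mem (mem_univ j), Finset.card_univ, Fintype.card_fin,
      nsmul_eq_mul] at h1
    have h2 := Finset.add_sum_erase univ (fun i => ((Yj G h i).card : ℝ)) (mem_univ j)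
    have h3 : (((l - 1 : ℕ)) : ℝ) = L - 1 := by
      rw [Nat.cast_sub (by omega)]
      push_cast
      rfl
    rw [h3] at h1
    have h4 : (L - 1) * ((1 - δ) * q) = (1 - δ) * n - (1 - δ) * q := by
      rw [← hqL]; ring
    have h5 : (L - 1) * (L + 2 * L ^ 3) ≤ L ^ 2 + 2 * L ^ 4 := by
      rw [← e2]
      refine mul_le_mul_of_nonneg_right (by linarith) (by positivity)
    have h6 : 0 ≤ ((Or G h).card : ℝ) := Nat.cast_nonneg _
    have h7 : 0 ≤ δ * q := mul_nonneg hδ hq0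
    have h8 : ((Yj G h j).card : ℝ) + ∑ i ∈ univ.erase j, ((Yj G h i).card : ℝ) =
        ∑ i, ((Yj G h i).card : ℝ) := h2
    rw [h4] at h1
    nlinarith

theorem nea_wo {l : ℕ} (hl : 1000 ≤ l) : ∃ C : ℝ, 0 ≤ C ∧ ∀ (V : Type) [Fintype V]
    (G : SimpleGraph V) (h : Fin l ↪ V) (δ : ℝ), P5.NoK33m G → 0 ≤ δ →
    δ * (l : ℝ) ^ 2 ≤ 1 / 200 → 1000 * (l : ℝ) ^ 6 ≤ (Fintype.card V : ℝ) →
    (∀ j, (1 - δ) * ((Fintype.card V : ℝ) / l) ≤ (Yj G h j).card + (l + 2 * (l : ℝ) ^ 3)) →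
    2 * (l + 1) * Wo (muG G (Hr h) (2 * (l : ℝ) ^ 3))
          (dn (muG G (Hr h) (2 * (l : ℝ) ^ 3)) (nuG G (Hr h) (2 * (l : ℝ) ^ 3))) l ≤
      16 * l * (l + 1) * ((Fintype.card V : ℝ) / l) ^ (l + 1)
        - l * (l + 1) / 10 * ((Or G h).card : ℝ) * ((Fintype.card V : ℝ) / l) ^ l
        + C * (Fintype.card V : ℝ) ^ l := by
  have hL : (1000 : ℝ) ≤ l := by exact_mod_cast hl
  have hL0 : (0 : ℝ) < l := by linarith
  have hL1 : (1 : ℝ) ≤ l := by linarith
  refine ⟨16 * l * (l + 1) * ((l + 1) * (4 * (l : ℝ) ^ 5) * (1 + 4 * (l : ℝ) ^ 5) ^ l) +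
    l * (l + 1) / 5 * (2 * (l : ℝ) ^ 3 + l * (2 * (l : ℝ) ^ 3)) * (1 + 4 * (l : ℝ) ^ 5) ^ l,
    by positivity, ?_⟩
  intro V _ G h δ hK hδ0 hδ hn hy
  obtain ⟨ht, hyu⟩ := nea_y G hl h hδ0 hy
  have hc := card_ring G (show 3 ≤ l by omega) h
  obtain ⟨hW, _, _, hm1, hm2, _⟩ := cfg G (Hr h) hK
  rw [nea_hcard] at hW hm1 hm2
  have hmuj := fun j => nea_mu G (show 2 ≤ l by omega) h (2 * (l : ℝ) ^ 3) j
  set μ := muG G (Hr h) (2 * (l : ℝ) ^ 3) with hμ
  set ν := nuG G (Hr h) (2 * (l : ℝ) ^ 3) with hν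
  set N0 : ℝ := (P5.n0 G (Hr h) : ℝ) with hN0
  set n : ℝ := (Fintype.card V : ℝ) with hndef
  set L : ℝ := (l : ℝ) with hLdef
  set t : ℝ := ((Or G h).card : ℝ) with htdef
  set m : ℝ := ms μ ∅ + ∑ a, ν a + N0 with hmdef
  have hc' : L + ∑ j, ((Yj G h j).card : ℝ) + t = n := by
    rw [hndef, ← hc]
    push_cast
    rfl
  set Y : ℝ := ∑ j, ((Yj G h j).card : ℝ) with hYdef
  have p1 : L ≤ L ^ 6 := by
    calc L = L ^ 1 := (pow_one L).symm
      _ ≤ L ^ 6 := pow_le_pow_right₀ hL1 (by norm_num)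
  have p2 : L ^ 2 ≤ L ^ 6 := pow_le_pow_right₀ hL1 (by norm_num)
  have p3 : L ^ 3 ≤ L ^ 6 := pow_le_pow_right₀ hL1 (by norm_num)
  have p4 : L ^ 4 ≤ L ^ 6 := pow_le_pow_right₀ hL1 (by norm_num)
  have p5 : L ^ 5 ≤ L ^ 6 := pow_le_pow_right₀ hL1 (by norm_num)
  have p0 : (1 : ℝ) ≤ L ^ 6 := one_le_pow₀ hL1
  have hn1 : 1 ≤ n := by linarith
  have hn0 : 0 < n := by linarith
  have ht0 : 0 ≤ t := Nat.cast_nonneg _
  have d0 : δ * n * L ^ 2 ≤ n / 200 := by
    have := mul_le_mul_of_nonneg_right hδ hn0.le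
    linarith
  have hδn : 0 ≤ δ * n := mul_nonneg hδ0 hn0.le
  have d1 : δ * n * L ≤ n / 200 := by
    refine le_trans ?_ d0
    refine mul_le_mul_of_nonneg_left ?_ hδn
    nlinarith
  have d2 : δ * n ≤ n / 200 := by
    refine le_trans ?_ d1
    nlinarith
  have hmL : n - (L + 2 * L ^ 3) ≤ m := by linarith
  have hmU : m ≤ n + 4 * L ^ 5 := hm1
  have hm0 : 0 < m := by linarith
  set c : ℝ := L / m with hcdef
  have hc0 : 0 < c := by positivity
  have hcm : c * m = L := by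
    rw [hcdef]
    field_simp
  have hR : ∑ j, c * μ (h j) (h (finRotate l j)) = c * (Y + L * (2 * L ^ 3)) := by
    rw [← Finset.mul_sum]
    congr 1
    rw [Finset.sum_congr rfl fun j _ => hmuj j, Finset.sum_add_distrib, Finset.sum_const,
      Finset.card_univ, Fintype.card_fin, nsmul_eq_mul]
  have hnotin : ∀ a : V, (∀ i, h i ≠ a) → a ∉ Hr h := by
    intro a ha hmem
    unfold Hr at hmem
    rw [Finset.mem_map] at hmem
    obtain ⟨i, _, hi⟩ := hmem
    exact ha i hi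
  have hq : L * (n / L) = n := by field_simp
  have hwo := wo_ring (μ := fun a b => c * μ a b) (wt_smul hW hc0.le) (ν := fun a => c * ν a)
    (fun v => mul_nonneg hc0.le (by
      rw [hν]
      unfold nuG
      split_ifs
      · positivity
      · exact le_rfl)) (ρ := c * N0) (mul_nonneg hc0.le (Nat.cast_nonneg _)) hl h
    (fun j => by
      rw [hmuj j, hcdef, div_mul_eq_mul_div, le_div_iff₀ hm0]
      have h1 := mul_le_mul_of_nonneg_left (hy j) hL0.le
      have e1 : L * ((1 - δ) * (n / L)) = (1 - δ) * n := by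
        rw [mul_left_comm, hq]
      have e2 : L * (((Yj G h j).card : ℝ) + (L + 2 * L ^ 3)) =
        L * (((Yj G h j).card : ℝ) + 2 * L ^ 3) + L ^ 2 := by ring
      rw [e1, e2] at h1
      nlinarith)
    (fun j => by
      rw [hmuj j, hcdef, div_mul_eq_mul_div, div_le_iff₀ hm0]
      have h1 := mul_le_mul_of_nonneg_left (hyu j) hL0.le
      have e2 : L * (n / L + δ * n + (L ^ 2 + 2 * L ^ 4)) =
        n + δ * n * L + L ^ 3 + 2 * L ^ 5 := by
        rw [mul_add, mul_add, hq]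
        ring
      have e3 : L * (((Yj G h j).card : ℝ) + 2 * L ^ 3) =
        L * ((Yj G h j).card : ℝ) + 2 * L ^ 4 := by ring
      rw [e2] at h1
      rw [e3]
      linarith)
    (fun a b ha => by
      have : μ a b = 0 := by
        rw [hμ]
        unfold muG
        rw [if_neg fun hh => hnotin a ha hh.1]
      show c * μ a b = 0
      rw [this, mul_zero])
    (fun a ha => by
      have : ν a = 0 := by
        rw [hν]
        unfold nuG
        rw [if_neg (hnotin a ha)]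
      show c * ν a = 0
      rw [this, mul_zero])
    (by
      rw [ms_smul, ← Finset.mul_sum]
      have : c * ms μ ∅ + c * ∑ a, ν a + c * N0 = c * m := by
        rw [hmdef]; ring
      rw [this, hcm])
    (by
      rw [hR]
      have e1 : L - c * (Y + L * (2 * L ^ 3)) = L * (m - (Y + L * (2 * L ^ 3))) / m := by
        rw [hcdef]
        field_simp
      rw [e1, div_le_iff₀ hm0]
      have h1 : m - (Y + L * (2 * L ^ 3)) ≤ L + δ * n + L ^ 2 + 2 * L ^ 4 + 4 * L ^ 5 := by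
        have : 0 ≤ L * (2 * L ^ 3) := by positivity
        linarith
      have h2 := mul_le_mul_of_nonneg_left h1 hL0.le
      have e2 : L * (L + δ * n + L ^ 2 + 2 * L ^ 4 + 4 * L ^ 5) =
        L ^ 2 + δ * n * L + L ^ 3 + 2 * L ^ 5 + 4 * L ^ 6 := by ring
      rw [e2] at h2
      linarith)
  rw [hR, nea_dn_smul, nea_wo_smul μ (dn μ ν) l (by omega) c] at hwo
  set W := Wo μ (dn μ ν) l with hWdef
  set x : ℝ := m / L with hx
  have hx0 : 0 < x := by positivity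
  have hcx : c * x = 1 := by
    rw [hcdef, hx]
    field_simp
  have hxL : x * L = m := by
    rw [hx]
    field_simp
  have hcxl : c ^ (l + 1) * x ^ (l + 1) = 1 := by
    rw [← mul_pow, hcx, one_pow]
  set R := Y + L * (2 * L ^ 3) with hRdef
  have h1 : W ≤ 8 * L * x ^ (l + 1) - L / 10 * (x ^ l * (m - R)) := by
    have h2 := mul_le_mul_of_nonneg_right hwo (pow_nonneg hx0.le (l + 1))
    have e1 : c ^ (l + 1) * W * x ^ (l + 1) = W := by
      calc c ^ (l + 1) * W * x ^ (l + 1) = (c ^ (l + 1) * x ^ (l + 1)) * W := by ring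
        _ = W := by rw [hcxl, one_mul]
    have e2 : (8 * L - L / 10 * (L - c * R)) * x ^ (l + 1) =
        8 * L * x ^ (l + 1) - L / 10 * (x ^ l * (m - R)) := by
      rw [pow_succ]
      have e3 : (L - c * R) * (x ^ l * x) = x ^ l * (x * L - (c * x) * R) := by ring
      have e4 : (8 * L - L / 10 * (L - c * R)) * (x ^ l * x) =
        8 * L * (x ^ l * x) - L / 10 * ((L - c * R) * (x ^ l * x)) := by ring
      rw [e4, e3, hcx, hxL, one_mul]
    rw [e1, e2] at h2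
    exact h2
  have hb : 2 * (l : ℝ) * (L + 2 * L ^ 3) ≤ n := by
    have : 2 * L * (L + 2 * L ^ 3) = 2 * L ^ 2 + 4 * L ^ 4 := by ring
    rw [← hLdef, this]
    linarith
  have h3 : 1 / 2 * (n / L) ^ l ≤ x ^ l :=
    nea_pow3 l hn1 hL0 (by positivity) hmL hb (by linarith)
  have h4 : x ^ (l + 1) ≤ (n / L) ^ (l + 1) +
      (l + 1) * (4 * L ^ 5) * (1 + 4 * L ^ 5) ^ l * n ^ l := by
    refine le_trans ?_ (nea_pow2 l hn1 (by positivity) hL1)
    apply pow_le_pow_left₀ hx0.le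
    rw [hx]
    gcongr
  have h5 : x ^ l ≤ (1 + 4 * L ^ 5) ^ l * n ^ l := by
    rw [← mul_pow]
    apply pow_le_pow_left₀ hx0.le
    rw [hx, div_le_iff₀ hL0]
    have h6 : n + 4 * L ^ 5 ≤ (1 + 4 * L ^ 5) * n := by
      have h7 : 4 * L ^ 5 * 1 ≤ 4 * L ^ 5 * n := mul_le_mul_of_nonneg_left hn1 (by positivity)
      nlinarith
    have h8 : (1 + 4 * L ^ 5) * n * 1 ≤ (1 + 4 * L ^ 5) * n * L :=
      mul_le_mul_of_nonneg_left hL1 (by positivity)
    linarith
  have h6 : t - (2 * L ^ 3 + L * (2 * L ^ 3)) ≤ m - R := by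
    rw [hRdef]
    linarith
  have h7 : x ^ l * (t - (2 * L ^ 3 + L * (2 * L ^ 3))) ≤ x ^ l * (m - R) :=
    mul_le_mul_of_nonneg_left h6 (by positivity)
  have h8 : 1 / 2 * (n / L) ^ l * t ≤ x ^ l * t := mul_le_mul_of_nonneg_right h3 ht0
  have h9 : (2 * L ^ 3 + L * (2 * L ^ 3)) * x ^ l ≤
      (2 * L ^ 3 + L * (2 * L ^ 3)) * ((1 + 4 * L ^ 5) ^ l * n ^ l) :=
    mul_le_mul_of_nonneg_left h5 (by positivity)
  have h10 : 1 / 2 * (n / L) ^ l * t -
      (2 * L ^ 3 + L * (2 * L ^ 3)) * ((1 + 4 * L ^ 5) ^ l * n ^ l) ≤ x ^ l * (m - R) := by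
    have : x ^ l * (t - (2 * L ^ 3 + L * (2 * L ^ 3))) =
      x ^ l * t - (2 * L ^ 3 + L * (2 * L ^ 3)) * x ^ l := by ring
    linarith
  have h11 := mul_le_mul_of_nonneg_left h1 (show (0 : ℝ) ≤ 2 * (L + 1) by positivity)
  refine h11.trans ?_
  have h12 := mul_le_mul_of_nonneg_left h4 (show (0 : ℝ) ≤ 16 * L * (L + 1) by positivity)
  have h13 := mul_le_mul_of_nonneg_left h10 (show (0 : ℝ) ≤ L * (L + 1) / 5 by positivity)
  have e1 : 2 * (L + 1) * (8 * L * x ^ (l + 1) - L / 10 * (x ^ l * (m - R))) =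
      16 * L * (L + 1) * x ^ (l + 1) - L * (L + 1) / 5 * (x ^ l * (m - R)) := by ring
  rw [e1]
  have e2 : 16 * L * (L + 1) * ((n / L) ^ (l + 1) +
      (l + 1) * (4 * L ^ 5) * (1 + 4 * L ^ 5) ^ l * n ^ l) =
      16 * L * (L + 1) * (n / L) ^ (l + 1) + 16 * L * (L + 1) *
        ((l + 1) * (4 * L ^ 5) * (1 + 4 * L ^ 5) ^ l) * n ^ l := by ring
  have e3 : L * (L + 1) / 5 * (1 / 2 * (n / L) ^ l * t -
      (2 * L ^ 3 + L * (2 * L ^ 3)) * ((1 + 4 * L ^ 5) ^ l * n ^ l)) =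
      L * (L + 1) / 10 * t * (n / L) ^ l -
        L * (L + 1) / 5 * (2 * L ^ 3 + L * (2 * L ^ 3)) * (1 + 4 * L ^ 5) ^ l * n ^ l := by ring
  rw [e2] at h12
  rw [e3] at h13
  rw [add_mul]
  linarith

theorem near {l : ℕ} (hl : 10 ^ 40 ≤ l) : ∃ δ K : ℝ, 0 < δ ∧ ∀ (V : Type) [Fintype V]
    (G : SimpleGraph V) (h : Fin l ↪ V), P5.Sparse6 G → P5.NoK33m G →
    (∀ j, (1 - δ) * ((Fintype.card V : ℝ) / l)
      ≤ ((nb G (h j) ∩ nb G (h (finRotate l j))).card : ℝ)) →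
    Tk G (2 * l + 2) ≤ 16 * l * (l + 1) * ((Fintype.card V : ℝ) / l) ^ (l + 1)
      + K * (Fintype.card V : ℝ) ^ l := by
  have hl3 : 1000 ≤ l := le_trans (by norm_num) hl
  have hLbig : (10 : ℝ) ^ 40 ≤ l := by exact_mod_cast hl
  have hL : (1000 : ℝ) ≤ l := by exact_mod_cast hl3
  have hL0 : (0 : ℝ) < l := by linarith
  have hL1 : (1 : ℝ) ≤ l := by linarith
  obtain ⟨C1, N, hps⟩ := ps_ring hl3
  obtain ⟨C2, hC2, hwo⟩ := nea_wo hl3
  set L : ℝ := (l : ℝ) with hLdef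
  set D0 : ℝ := 6 ^ (l - 1) * (1000 * L ^ 3) + L ^ 2 * 6 ^ l with hD0
  have hD0p : 0 < D0 := by positivity
  set C3 : ℝ := max C1 0 + 4 ^ (l + 1) * D0 with hC3
  have hC3p : 0 < C3 := by
    have h1 : 0 ≤ max C1 0 := le_max_right _ _
    have h2 : 0 < 4 ^ (l + 1) * D0 := by positivity
    linarith
  set C4 : ℝ := L ^ 2 + 2 * L ^ 4 with hC4
  have hC4p : 0 ≤ C4 := by positivity
  set δ : ℝ := min (1 / (200 * L ^ 2)) (1 / (C3 * L ^ l)) with hδ
  have hδ0 : 0 < δ := lt_min (by positivity) (by positivity)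
  have hδ1 : δ * L ^ 2 ≤ 1 / 200 := by
    have h1 : δ ≤ 1 / (200 * L ^ 2) := min_le_left _ _
    have h2 := mul_le_mul_of_nonneg_right h1 (show (0 : ℝ) ≤ L ^ 2 by positivity)
    have e1 : 1 / (200 * L ^ 2) * L ^ 2 = 1 / 200 := by
      field_simp
    linarith
  have hδ2 : C3 * δ ≤ 1 / L ^ l := by
    have h1 : δ ≤ 1 / (C3 * L ^ l) := min_le_right _ _
    have h2 := mul_le_mul_of_nonneg_left h1 hC3p.le
    have e1 : C3 * (1 / (C3 * L ^ l)) = 1 / L ^ l := by
      field_simp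
    linarith
  set N1 : ℝ := max N (1000 * L ^ 6) with hN1
  have hN1p : 0 ≤ N1 := le_trans (by positivity) (le_max_right N (1000 * L ^ 6))
  refine ⟨δ, C2 + C3 + C3 * C4 + N1 ^ (l + 2), hδ0, ?_⟩
  intro V _ G h hS hK hm
  set n : ℝ := (Fintype.card V : ℝ) with hn
  have hn0 : 0 ≤ n := Nat.cast_nonneg _
  have hmain0 : 0 ≤ 16 * L * (L + 1) * (n / L) ^ (l + 1) := by positivity
  have hnl : 0 ≤ n ^ l := by positivity
  rcases lt_or_ge n N1 with hnN | hnN
  · have h1 := nea_tk_le G (2 * l + 2)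
    rw [← hn, show 2 * l + 2 = (l + 2) + l by ring, pow_add] at h1
    rw [show (l + 2) + l = 2 * l + 2 by ring] at h1
    have h2 : n ^ (l + 2) * n ^ l ≤ N1 ^ (l + 2) * n ^ l :=
      mul_le_mul_of_nonneg_right (pow_le_pow_left₀ hn0 hnN.le _) hnl
    have h3 : 0 ≤ (C2 + C3 + C3 * C4) * n ^ l :=
      mul_nonneg (by positivity) hnl
    have h4 : (C2 + C3 + C3 * C4 + N1 ^ (l + 2)) * n ^ l =
      (C2 + C3 + C3 * C4) * n ^ l + N1 ^ (l + 2) * n ^ l := by ring
    rw [h4]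
    linarith
  · have hnN' : N ≤ n := (le_max_left _ _).trans hnN
    have hn6 : 1000 * L ^ 6 ≤ n := (le_max_right _ _).trans hnN
    have hy : ∀ j, (1 - δ) * (n / L) ≤ (Yj G h j).card + (L + 2 * L ^ 3) := fun j =>
      (hm j).trans (nea_common G hK (by omega) h j)
    obtain ⟨ht, hyu⟩ := nea_y G hl3 h hδ0.le hy
    rw [← hn, ← hLdef, ← hC4] at ht
    rw [← hn, ← hLdef, ← hC4] at hyu
    set t : ℝ := ((Or G h).card : ℝ) with htdef
    have ht0 : 0 ≤ t := Nat.cast_nonneg _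
    have p0 : (1 : ℝ) ≤ L ^ 6 := one_le_pow₀ hL1
    have p4 : L ^ 4 ≤ L ^ 6 := pow_le_pow_right₀ hL1 (by norm_num)
    have hn1 : 1 ≤ n := by linarith
    have hnp : 0 < n := by linarith
    have htn : t ≤ n := by
      have hc := card_ring G (show 3 ≤ l by omega) h
      have : (Or G h).card ≤ Fintype.card V := by omega
      rw [htdef, hn]
      exact_mod_cast this
    have hsmall : δ * n + C4 ≤ n / (100 * L ^ 2) := by
      rw [le_div_iff₀ (by positivity)]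
      have h1 := mul_le_mul_of_nonneg_right hδ1 hn0
      have e1 : (δ * n + C4) * (100 * L ^ 2) =
        100 * (δ * L ^ 2 * n) + 100 * L ^ 4 + 200 * L ^ 6 := by
        rw [hC4]; ring
      rw [e1]
      linarith
    have hyy : ∀ j, ((Yj G h j).card : ℝ) ≤ (1 + 1 / (100 * L)) * (n / L) := by
      intro j
      have e1 : (1 + 1 / (100 * L)) * (n / L) = n / L + n / (100 * L ^ 2) := by
        field_simp
      rw [e1]
      linarith [hyu j]
    have htt : t ≤ n / (100 * L ^ 2) := ht.trans hsmall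
    have h1 := tk_ring G hS (show 1 ≤ l by omega) h
    have h2 := hps V G h hS hK hnN' hyy htt
    have h3 := x4_ring G hS hK (show 3 ≤ l by omega) h
    have h4 := hwo V G h δ hK hδ0.le hδ1 hn6 hy
    rw [← htdef] at h2 h3 h4
    set W := Wo (muG G (Hr h) (2 * L ^ 3)) (dn (muG G (Hr h) (2 * L ^ 3))
      (nuG G (Hr h) (2 * L ^ 3))) l with hW
    set Z := n ^ l + t ^ 2 * n ^ (l - 1) with hZ
    have hZ0 : 0 ≤ Z := by positivity
    have hnn : n ^ (l - 1) * n = n ^ l := by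
      rw [← pow_succ]
      congr 1
      omega
    have hD : (6 * n) ^ (l - 1) * x4 G (Hr h) + L ^ 2 * (6 * n) ^ l ≤ D0 * Z := by
      have h5 : (6 * n) ^ (l - 1) * x4 G (Hr h) ≤
          (6 * n) ^ (l - 1) * (1000 * L ^ 3 * (n + t ^ 2)) :=
        mul_le_mul_of_nonneg_left h3 (by positivity)
      have e1 : (6 * n) ^ (l - 1) * (1000 * L ^ 3 * (n + t ^ 2)) =
          6 ^ (l - 1) * (1000 * L ^ 3) * (n ^ (l - 1) * n + t ^ 2 * n ^ (l - 1)) := by
        rw [mul_pow]; ring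
      have e2 : L ^ 2 * (6 * n) ^ l = L ^ 2 * 6 ^ l * n ^ l := by
        rw [mul_pow]; ring
      rw [e1, hnn] at h5
      rw [e2, hD0, add_mul]
      have h6 : L ^ 2 * 6 ^ l * n ^ l ≤ L ^ 2 * 6 ^ l * Z :=
        mul_le_mul_of_nonneg_left (by
          rw [hZ]
          have : 0 ≤ t ^ 2 * n ^ (l - 1) := by positivity
          linarith) (by positivity)
      linarith
    have h5 : C1 * Z ≤ max C1 0 * Z := mul_le_mul_of_nonneg_right (le_max_left _ _) hZ0
    have h6 : 4 ^ (l + 1) * ((6 * n) ^ (l - 1) * x4 G (Hr h) + L ^ 2 * (6 * n) ^ l) ≤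
        4 ^ (l + 1) * (D0 * Z) := mul_le_mul_of_nonneg_left hD (by positivity)
    -- the quadratic term
    have h7 : C3 * (t ^ 2 * n ^ (l - 1)) ≤ L * t * (n / L) ^ l + C3 * C4 * n ^ l := by
      have a1 : t ^ 2 * n ^ (l - 1) ≤ t * (δ * n + C4) * n ^ (l - 1) := by
        refine mul_le_mul_of_nonneg_right ?_ (by positivity)
        rw [pow_two]
        exact mul_le_mul_of_nonneg_left ht ht0
      have a2 : t * (δ * n + C4) * n ^ (l - 1) = δ * t * n ^ l + C4 * (t * n ^ (l - 1)) := by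
        rw [← hnn]; ring
      have a3 : t * n ^ (l - 1) ≤ n ^ l := by
        rw [← hnn, mul_comm]
        exact mul_le_mul_of_nonneg_left htn (by positivity)
      have a4 : C4 * (t * n ^ (l - 1)) ≤ C4 * n ^ l := mul_le_mul_of_nonneg_left a3 hC4p
      have a5 : C3 * (t ^ 2 * n ^ (l - 1)) ≤ C3 * (δ * t * n ^ l + C4 * n ^ l) :=
        mul_le_mul_of_nonneg_left (by linarith) hC3p.le
      have a6 : C3 * (δ * t * n ^ l) ≤ L * t * (n / L) ^ l := by
        have b1 : C3 * δ * (t * n ^ l) ≤ 1 / L ^ l * (t * n ^ l) :=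
          mul_le_mul_of_nonneg_right hδ2 (by positivity)
        have b2 : 1 / L ^ l * (t * n ^ l) = 1 * (t * (n / L) ^ l) := by
          rw [div_pow]
          field_simp
        have b3 : 1 * (t * (n / L) ^ l) ≤ L * (t * (n / L) ^ l) :=
          mul_le_mul_of_nonneg_right hL1 (by positivity)
        calc C3 * (δ * t * n ^ l) = C3 * δ * (t * n ^ l) := by ring
          _ ≤ L * (t * (n / L) ^ l) := by rw [b2] at b1; exact b1.trans b3
          _ = L * t * (n / L) ^ l := by ring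
      have a7 : C3 * (δ * t * n ^ l + C4 * n ^ l) =
          C3 * (δ * t * n ^ l) + C3 * C4 * n ^ l := by ring
      linarith
    have h8 : C3 * Z = C3 * n ^ l + C3 * (t ^ 2 * n ^ (l - 1)) := by rw [hZ]; ring
    have h9 : C3 * Z = max C1 0 * Z + 4 ^ (l + 1) * (D0 * Z) := by rw [hC3]; ring
    have h10 : 0 ≤ L * (t * (n / L) ^ l) := by positivity
    have h11 : 10 ^ 5 * L * t * (n / L) ^ l + L * t * (n / L) ^ l ≤
        L * (L + 1) / 10 * t * (n / L) ^ l := by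
      have e1 : L * (L + 1) / 10 * t * (n / L) ^ l =
        (L + 1) / 10 * (L * (t * (n / L) ^ l)) := by ring
      have e2 : 10 ^ 5 * L * t * (n / L) ^ l + L * t * (n / L) ^ l =
        (10 ^ 5 + 1) * (L * (t * (n / L) ^ l)) := by ring
      rw [e1, e2]
      refine mul_le_mul_of_nonneg_right ?_ h10
      linarith
    have h12 : 0 ≤ N1 ^ (l + 2) * n ^ l := by positivity
    have h13 : (C2 + C3 + C3 * C4 + N1 ^ (l + 2)) * n ^ l =
      C2 * n ^ l + C3 * n ^ l + C3 * C4 * n ^ l + N1 ^ (l + 2) * n ^ l := by ring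
    rw [h13]
    linarith

end

end Pool.Agent.Lib.MP_009d13_co.OD
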