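import Pool.Agent.Lib.MP_009d13_co.OD.TKD
import Pool.Agent.Lib.MP_009d13_co.OD.BDM
import Pool.Agent.Lib.MP_009d13_co.OD.CFG
import Pool.Agent.Lib.MP_009d13_co.OD.EM
import Pool.Agent.Lib.MP_009d13_co.OD.EI
import Pool.Agent.Lib.MP_009d13_co.OD.CNF
import Pool.Agent.Lib.MP_009d13_co.P5.HUBS

/-! # OD, module PTA: every graph is bounded by the functional -/

set_option autoImplicit false

namespace Pool.Agent.Lib.MP_009d13_co.OD

open Finset Classical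
open Pool.Agent.Lib.MP_009d13_co.P5 (nb kk)

noncomputable section

variable {V : Type} [Fintype V] (G : SimpleGraph V) (H : Finset V)

theorem PTA_nuG_nonneg {κ : ℝ} (hκ : 0 ≤ κ) (a : V) : 0 ≤ nuG G H κ a := by
  unfold nuG
  split_ifs
  · exact add_nonneg (Nat.cast_nonneg _) hκ
  · exact le_refl _

theorem PTA_ao_mono {μ μ' : V → V → ℝ} {d d' : V → ℝ} (h0 : ∀ a b, 0 ≤ μ a b)
    (h : ∀ a b, μ a b ≤ μ' a b) (hd0 : ∀ a, 0 ≤ d a) (hd : ∀ a, d a ≤ d' a) (l : ℕ) :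
    Ao μ d l ≤ Ao μ' d' l := by
  unfold Ao
  refine Finset.sum_le_sum fun L _ => ?_
  exact mul_le_mul (pw_mono h0 h L) (em_ls_mono hd L) (ls_nonneg hd0 L)
    (pw_nonneg _ (fun a b => (h0 a b).trans (h a b)) L)

/-- the main terms -/
theorem PTA_main {κ : ℝ} (hκ : 0 ≤ κ) {l : ℕ} (hl : 1 ≤ l)
    (hW : Wt (muG G H κ)) (hmu : ∀ a b, mH G H a b ≤ muG G H κ a b)
    (hd : ∀ a, dH G H a ≤ dn (muG G H κ) (nuG G H κ) a) :
    (∑ a ∈ H, ∑ b ∈ H.erase a, (P5.n2 G H a b : ℝ)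
          * (2 * So (mH G H) (dH G H) l a b + 2 * En (mH G H) (dH G H) l a
            + 2 * En (mH G H) (dH G H) l b))
        + 4 * (∑ a ∈ H, (P5.n1 G H a : ℝ)
          * (En (mH G H) (dH G H) l a + gm (mH G H) (dH G H) l a))
        + 6 * ((P5.n0 G H : ℝ) * em (mH G H) (dH G H) l)
        + 2 * Ao (mH G H) (dH G H) l + CC (mH G H) (dH G H) (aj G) (dH G H) (l + 1)
      ≤ FG (muG G H κ) (nuG G H κ) (P5.n0 G H : ℝ) (aj G) l := by
  have m0 := CNF_mH_nonneg G H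
  have d0 := CNF_dH_nonneg G H
  have d0' : ∀ a, 0 ≤ dn (muG G H κ) (nuG G H κ) a := fun a => (d0 a).trans (hd a)
  have so := so_mono m0 hmu d0 hd l
  have so0 := so_nonneg m0 d0 l
  have so0' := so_nonneg hW.nonneg d0' l
  have gmm := gm_mono m0 hmu d0 hd l
  have t1 : (∑ a ∈ H, ∑ b ∈ H.erase a, (P5.n2 G H a b : ℝ)
          * (2 * So (mH G H) (dH G H) l a b + 2 * En (mH G H) (dH G H) l a
            + 2 * En (mH G H) (dH G H) l b))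
      ≤ ∑ a, ∑ b, muG G H κ a b * (2 * So (muG G H κ) (dn (muG G H κ) (nuG G H κ)) l a b
        + 2 * En (muG G H κ) (dn (muG G H κ) (nuG G H κ)) l a
        + 2 * En (muG G H κ) (dn (muG G H κ) (nuG G H κ)) l b) := by
    have hnn : ∀ a b, 0 ≤ muG G H κ a b *
        (2 * So (muG G H κ) (dn (muG G H κ) (nuG G H κ)) l a b
        + 2 * En (muG G H κ) (dn (muG G H κ) (nuG G H κ)) l a
        + 2 * En (muG G H κ) (dn (muG G H κ) (nuG G H κ)) l b) := fun a b => by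
      have h1 := (so0' a b).1
      have h2 := (so0' a b).2.1
      have h3 := (so0' b b).2.1
      exact mul_nonneg (hW.nonneg a b) (by linarith)
    refine le_trans ?_ (Finset.sum_le_sum_of_subset_of_nonneg (Finset.subset_univ H)
      fun a _ _ => Finset.sum_nonneg fun b _ => hnn a b)
    refine Finset.sum_le_sum fun a ha => ?_
    refine le_trans ?_ (Finset.sum_le_sum_of_subset_of_nonneg (Finset.subset_univ (H.erase a))
      fun b _ _ => hnn a b)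
    refine Finset.sum_le_sum fun b hb => ?_
    have hb1 : b ∈ H := Finset.mem_of_mem_erase hb
    have hb2 : a ≠ b := (Finset.ne_of_mem_erase hb).symm
    have e1 : muG G H κ a b = (P5.n2 G H a b : ℝ) + κ := by
      unfold muG
      rw [if_pos ⟨ha, hb1, hb2⟩]
    rw [e1]
    have h1 := (so a b).1
    have h2 := (so a b).2
    have h3 := (so b b).2
    have g1 := (so0 a b).1
    have g2 := (so0 a b).2.1
    have g3 := (so0 b b).2.1
    refine mul_le_mul (by linarith) (by linarith) (by linarith) ?_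
    exact add_nonneg (Nat.cast_nonneg _) hκ
  have t2 : (∑ a ∈ H, (P5.n1 G H a : ℝ)
          * (En (mH G H) (dH G H) l a + gm (mH G H) (dH G H) l a))
      ≤ ∑ a, nuG G H κ a * (En (muG G H κ) (dn (muG G H κ) (nuG G H κ)) l a
        + gm (muG G H κ) (dn (muG G H κ) (nuG G H κ)) l a) := by
    refine le_trans ?_ (Finset.sum_le_sum_of_subset_of_nonneg (Finset.subset_univ H)
      fun a _ _ => ?_)
    · refine Finset.sum_le_sum fun a ha => ?_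
      have e1 : nuG G H κ a = (P5.n1 G H a : ℝ) + κ := by
        unfold nuG
        rw [if_pos ha]
      rw [e1]
      have h1 := (so a a).2
      have h2 := (gmm a).1
      have g1 := (so0 a a).2.1
      have g2 := (so0 a a).2.2.1
      refine mul_le_mul (by linarith) (by linarith) (by linarith) ?_
      exact add_nonneg (Nat.cast_nonneg _) hκ
    · have g1 := (so0' a a).2.1
      have g2 := (so0' a a).2.2.1
      exact mul_nonneg (PTA_nuG_nonneg G H hκ a) (by linarith)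
  have t3 : (P5.n0 G H : ℝ) * em (mH G H) (dH G H) l
      ≤ (P5.n0 G H : ℝ) * em (muG G H κ) (dn (muG G H κ) (nuG G H κ)) l := by
    by_cases hV : Nonempty V
    · obtain ⟨a⟩ := hV
      exact mul_le_mul_of_nonneg_left (gmm a).2 (Nat.cast_nonneg _)
    · have e0 : P5.n0 G H = 0 := by
        unfold P5.n0
        rw [Finset.card_eq_zero, Finset.eq_empty_iff_forall_notMem]
        intro x
        exact absurd ⟨x⟩ hV
      rw [e0]
      simp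
  have t4 := PTA_ao_mono m0 hmu d0 hd l
  have t5 : CC (mH G H) (dH G H) (aj G) (dH G H) (l + 1)
      ≤ CC (muG G H κ) (dn (muG G H κ) (nuG G H κ)) (aj G)
        (dn (muG G H κ) (nuG G H κ)) (l + 1) :=
    em_cc_mono m0 hmu d0 hd d0 hd (CNF_aj_nonneg G) (fun _ _ => le_refl _) (l + 1)
  have hid := fg_identity hW (nuG G H κ) hl
  have t6 : ∑ a, nuG G H κ a * (En (muG G H κ) (dn (muG G H κ) (nuG G H κ)) l a
        + gm (muG G H κ) (dn (muG G H κ) (nuG G H κ)) l a)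
      = ∑ a, nuG G H κ a * En (muG G H κ) (dn (muG G H κ) (nuG G H κ)) l a
        + ∑ a, nuG G H κ a * gm (muG G H κ) (dn (muG G H κ) (nuG G H κ)) l a := by
    rw [← Finset.sum_add_distrib]
    refine Finset.sum_congr rfl fun a _ => ?_
    ring
  unfold FG Fd
  rw [← hid]
  rw [t6] at t2
  linarith

/-- the error terms -/
theorem PTA_err {l : ℕ} (hl : 2 ≤ l) {ε n h K0 k x : ℝ} (hε : 0 < ε) (hn : 0 ≤ n)
    (hh : 0 ≤ h) (hhK : h ≤ K0) (hk : 0 < k)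
    (hk1 : 2 * (4 ^ (l + 1) * 6 ^ (l + 1) + 80 * l * 2 ^ l) ≤ ε * k)
    (hn1 : 2 * (4 ^ (l + 1) * K0 ^ 2 * 6 ^ l + 240 * K0 * l * 2 ^ l) ≤ ε * n)
    (hx : x ≤ 36 * (n / k) * n) :
    4 ^ (l + 1) * ((6 * n) ^ (l - 1) * x + h ^ 2 * (6 * n) ^ l)
      + (6 * h + 2 * n / k) * (40 * l * 2 ^ l * n ^ l) ≤ ε * n ^ (l + 1) := by
  obtain ⟨m, rfl⟩ : ∃ m, l = m + 2 := ⟨l - 2, by omega⟩
  have e1 : m + 2 - 1 = m + 1 := by omega
  rw [e1]
  have hn6 : 0 ≤ (6 * n) ^ (m + 1) := by positivity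
  have hl0 : (0 : ℝ) ≤ ((m + 2 : ℕ) : ℝ) := Nat.cast_nonneg _
  set L : ℝ := ((m + 2 : ℕ) : ℝ) with hL
  have s1 : (6 * n) ^ (m + 1) * x ≤ (6 * n) ^ (m + 1) * (36 * (n / k) * n) :=
    mul_le_mul_of_nonneg_left hx hn6
  have s2 : (6 * n) ^ (m + 1) * (36 * (n / k) * n) = 6 ^ (m + 2 + 1) * (n ^ (m + 2 + 1) / k) := by
    rw [mul_pow]
    field_simp
    ring
  have s3 : h ^ 2 ≤ K0 ^ 2 := pow_le_pow_left₀ hh hhK 2
  have s4 : h ^ 2 * (6 * n) ^ (m + 2) ≤ K0 ^ 2 * (6 * n) ^ (m + 2) :=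
    mul_le_mul_of_nonneg_right s3 (by positivity)
  have s5 : (6 * h + 2 * n / k) * (40 * L * 2 ^ (m + 2) * n ^ (m + 2))
      ≤ (6 * K0 + 2 * n / k) * (40 * L * 2 ^ (m + 2) * n ^ (m + 2)) := by
    refine mul_le_mul_of_nonneg_right (by linarith) (by positivity)
  have s6 : 4 ^ (m + 2 + 1) * ((6 * n) ^ (m + 1) * x + h ^ 2 * (6 * n) ^ (m + 2))
      ≤ 4 ^ (m + 2 + 1) * (6 ^ (m + 2 + 1) * (n ^ (m + 2 + 1) / k)
        + K0 ^ 2 * (6 * n) ^ (m + 2)) := by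
    refine mul_le_mul_of_nonneg_left (by linarith) (by positivity)
  have s7 : 4 ^ (m + 2 + 1) * (6 ^ (m + 2 + 1) * (n ^ (m + 2 + 1) / k)
        + K0 ^ 2 * (6 * n) ^ (m + 2))
      + (6 * K0 + 2 * n / k) * (40 * L * 2 ^ (m + 2) * n ^ (m + 2))
      = (4 ^ (m + 2 + 1) * 6 ^ (m + 2 + 1) + 80 * L * 2 ^ (m + 2)) * (n ^ (m + 2 + 1) / k)
        + (4 ^ (m + 2 + 1) * K0 ^ 2 * 6 ^ (m + 2) + 240 * K0 * L * 2 ^ (m + 2))
          * n ^ (m + 2) := by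
    rw [mul_pow 6 n (m + 2)]
    have h1 : 2 * n / k * n ^ (m + 2) = 2 * (n ^ (m + 2 + 1) / k) := by
      rw [pow_succ n (m + 2)]
      ring
    calc 4 ^ (m + 2 + 1) * (6 ^ (m + 2 + 1) * (n ^ (m + 2 + 1) / k)
        + K0 ^ 2 * (6 ^ (m + 2) * n ^ (m + 2)))
      + (6 * K0 + 2 * n / k) * (40 * L * 2 ^ (m + 2) * n ^ (m + 2))
        = 4 ^ (m + 2 + 1) * 6 ^ (m + 2 + 1) * (n ^ (m + 2 + 1) / k)
          + (4 ^ (m + 2 + 1) * K0 ^ 2 * 6 ^ (m + 2) + 240 * K0 * L * 2 ^ (m + 2))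
            * n ^ (m + 2)
          + (40 * L * 2 ^ (m + 2)) * (2 * n / k * n ^ (m + 2)) := by ring
      _ = _ := by rw [h1]; ring
  have s8 : (4 ^ (m + 2 + 1) * 6 ^ (m + 2 + 1) + 80 * L * 2 ^ (m + 2)) * (n ^ (m + 2 + 1) / k)
      ≤ ε / 2 * n ^ (m + 2 + 1) := by
    have h1 : (4 ^ (m + 2 + 1) * 6 ^ (m + 2 + 1) + 80 * L * 2 ^ (m + 2)) ≤ ε / 2 * k := by
      linarith
    have h2 : 0 ≤ n ^ (m + 2 + 1) / k := by positivity
    have h3 := mul_le_mul_of_nonneg_right h1 h2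
    have h4 : ε / 2 * k * (n ^ (m + 2 + 1) / k) = ε / 2 * n ^ (m + 2 + 1) := by
      field_simp
    linarith
  have s9 : (4 ^ (m + 2 + 1) * K0 ^ 2 * 6 ^ (m + 2) + 240 * K0 * L * 2 ^ (m + 2))
          * n ^ (m + 2) ≤ ε / 2 * n ^ (m + 2 + 1) := by
    have h1 : (4 ^ (m + 2 + 1) * K0 ^ 2 * 6 ^ (m + 2) + 240 * K0 * L * 2 ^ (m + 2))
        ≤ ε / 2 * n := by linarith
    have h2 : 0 ≤ n ^ (m + 2) := by positivity
    have h3 := mul_le_mul_of_nonneg_right h1 h2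
    have h4 : ε / 2 * n * n ^ (m + 2) = ε / 2 * n ^ (m + 2 + 1) := by
      rw [pow_succ n (m + 2)]
      ring
    linarith
  linarith

theorem part_a {l : ℕ} (hl : 2 ≤ l) {ε : ℝ} (hε : 0 < ε) : ∃ K : ℝ, ∀ (V : Type) [Fintype V]
    (G : SimpleGraph V), P5.Sparse6 G → P5.NoK33m G → K ≤ (Fintype.card V : ℝ) →
    ∃ (μ : V → V → ℝ) (ν : V → ℝ) (ρ : ℝ), Wt μ ∧ (∀ v, 0 ≤ ν v) ∧ 0 ≤ ρ ∧
      ms μ ∅ + ∑ v, ν v + ρ ≤ (1 + ε) * (Fintype.card V : ℝ) ∧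
      (∀ a b, a ≠ b → μ a b ≤ ((nb G a ∩ nb G b).card : ℝ) + ε * (Fintype.card V : ℝ)) ∧
      Tk G (2 * l + 2) ≤ FG μ ν ρ (aj G) l + ε * (Fintype.card V : ℝ) ^ (l + 1) := by
  set C1 : ℝ := 4 ^ (l + 1) * 6 ^ (l + 1) + 80 * l * 2 ^ l with hC1
  obtain ⟨k0, hk0⟩ := exists_nat_ge (2 * C1 / ε)
  set k : ℕ := k0 + 1 with hk
  have hk1 : 1 ≤ k := by omega
  have hkpos : (0 : ℝ) < (k : ℝ) := by exact_mod_cast hk1
  have hk2 : 2 * C1 ≤ ε * (k : ℝ) := by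
    have h1 : 2 * C1 ≤ (k0 : ℝ) * ε := (div_le_iff₀ hε).mp hk0
    have h2 : (k : ℝ) = (k0 : ℝ) + 1 := by rw [hk]; push_cast; ring
    rw [h2]
    linarith
  obtain ⟨K0, hK0⟩ := P5.exists_hubs k hk1
  set C2 : ℝ := 4 ^ (l + 1) * (K0 : ℝ) ^ 2 * 6 ^ l + 240 * (K0 : ℝ) * l * 2 ^ l with hC2
  have hC2n : 0 ≤ C2 := by positivity
  refine ⟨4 * (K0 : ℝ) ^ 5 + 4 * (K0 : ℝ) ^ 5 / ε + 2 * (K0 : ℝ) ^ 3 / ε + 2 * C2 / ε + 1, ?_⟩
  intro V _ G hS hK hcard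
  have p1 : 0 ≤ 4 * (K0 : ℝ) ^ 5 := by positivity
  have p2 : 0 ≤ 4 * (K0 : ℝ) ^ 5 / ε := by positivity
  have p3 : 0 ≤ 2 * (K0 : ℝ) ^ 3 / ε := by positivity
  have p4 : 0 ≤ 2 * C2 / ε := by positivity
  have q1 : 4 * (K0 : ℝ) ^ 5 ≤ (Fintype.card V : ℝ) := by linarith
  have q2 : 4 * (K0 : ℝ) ^ 5 ≤ ε * (Fintype.card V : ℝ) := by
    have h1 : 4 * (K0 : ℝ) ^ 5 / ε ≤ (Fintype.card V : ℝ) := by linarith
    have h2 := (div_le_iff₀ hε).mp h1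
    linarith
  have q3 : 2 * (K0 : ℝ) ^ 3 ≤ ε * (Fintype.card V : ℝ) := by
    have h1 : 2 * (K0 : ℝ) ^ 3 / ε ≤ (Fintype.card V : ℝ) := by linarith
    have h2 := (div_le_iff₀ hε).mp h1
    linarith
  have q4 : 2 * C2 ≤ ε * (Fintype.card V : ℝ) := by
    have h1 : 2 * C2 / ε ≤ (Fintype.card V : ℝ) := by linarith
    have h2 := (div_le_iff₀ hε).mp h1
    linarith
  have hpr : (P5.pr G univ univ).card ≤ 6 * Fintype.card V := by
    have h1 := hS univ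
    rwa [Finset.card_univ] at h1
  obtain ⟨H, hH1, hH2⟩ := hK0 G hpr
  have hHr : (H.card : ℝ) ≤ (K0 : ℝ) := by exact_mod_cast hH1
  have hH0 : (0 : ℝ) ≤ (H.card : ℝ) := Nat.cast_nonneg _
  have hH5 : (H.card : ℝ) ^ 5 ≤ (K0 : ℝ) ^ 5 := pow_le_pow_left₀ hH0 hHr 5
  have hH3 : (H.card : ℝ) ^ 3 ≤ (K0 : ℝ) ^ 3 := pow_le_pow_left₀ hH0 hHr 3
  obtain ⟨hW, hmu, hdd, hmass, -, hcls⟩ := cfg G H hK
  have hκ : (0 : ℝ) ≤ 2 * (H.card : ℝ) ^ 3 := by positivity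
  have hνs : 0 ≤ ∑ a, nuG G H (2 * (H.card : ℝ) ^ 3) a :=
    Finset.sum_nonneg fun a _ => PTA_nuG_nonneg G H hκ a
  have hn0 : (0 : ℝ) ≤ (P5.n0 G H : ℝ) := Nat.cast_nonneg _
  have hmsm : ms (mH G H) ∅ ≤ ms (muG G H (2 * (H.card : ℝ) ^ 3)) ∅ := by
    unfold ms
    have h1 : ∑ a ∈ (∅ : Finset V)ᶜ, ∑ b ∈ (∅ : Finset V)ᶜ, mH G H a b
        ≤ ∑ a ∈ (∅ : Finset V)ᶜ, ∑ b ∈ (∅ : Finset V)ᶜ,
          muG G H (2 * (H.card : ℝ) ^ 3) a b :=
      Finset.sum_le_sum fun a _ => Finset.sum_le_sum fun b _ => hmu a b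
    linarith
  have hm : ms (mH G H) ∅ ≤ 2 * (Fintype.card V : ℝ) := by linarith
  have hdH := sum_dH G H hS
  refine ⟨muG G H (2 * (H.card : ℝ) ^ 3), nuG G H (2 * (H.card : ℝ) ^ 3), (P5.n0 G H : ℝ),
    hW, PTA_nuG_nonneg G H hκ, hn0, ?_, ?_, ?_⟩
  · linarith
  · intro a b hab
    have h1 := hcls a b hab
    linarith
  · have h1 := tk_dec G H hS (by omega : 1 ≤ l)
    have h2 := bd_main G H hS hK hl hk1 hH2 hm hdH
    have h3 := PTA_main G H hκ (by omega : 1 ≤ l) hW hmu hdd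
    have hdeg : ∀ v ∉ H, ((nb G v).card : ℝ) ≤ (Fintype.card V : ℝ) / k := by
      intro v hv
      have h4 := hH2 {v} (by simpa using hv) (by simp)
      rw [Finset.sum_singleton] at h4
      rw [le_div_iff₀ hkpos]
      have h5 : ((k * (nb G v).card : ℕ) : ℝ) ≤ (Fintype.card V : ℝ) := by exact_mod_cast h4
      push_cast at h5
      linarith
    have h6 := x4_le G H hS (by positivity : (0 : ℝ) ≤ (Fintype.card V : ℝ) / k) hdeg
    have h7 := PTA_err hl hε (Nat.cast_nonneg _ : (0 : ℝ) ≤ (Fintype.card V : ℝ)) hH0 hHr hkpos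
      hk2 q4 h6
    linarith

end

end Pool.Agent.Lib.MP_009d13_co.OD
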