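import Pool.Agent.Lib.MP_009d13_co.OD.MV

/-! MW: all moves of private mass into classes between two hubs. -/

set_option autoImplicit false

namespace Pool.Agent.Lib.MP_009d13_co.OD

open Finset Classical

noncomputable section

variable {V : Type} [Fintype V]

/-- The state `(μ', ν', ρ')` is obtained from `(μ, ν, ρ)` by moving the mass `m`. -/
structure MwR (e : V → V → ℝ) (l : ℕ) (E2 : ℝ) (μ : V → V → ℝ) (ν : V → ℝ) (ρ : ℝ)
    (μ' : V → V → ℝ) (ν' : V → ℝ) (ρ' : ℝ) (m : ℝ) : Prop where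
  wt : Wt μ'
  nu : ∀ v, 0 ≤ ν' v
  rho : 0 ≤ ρ'
  le : ∀ a b, μ a b ≤ μ' a b
  dn_le : ∀ v, dn μ ν v ≤ dn μ' ν' v
  priv : ∑ v, ν' v + ρ' = ∑ v, ν v + ρ - m
  mass : ms μ' ∅ = ms μ ∅ + m
  fg : FG μ ν ρ e l + 4 * (l - 1) * m * E2 ≤ FG μ' ν' ρ' e l

theorem MwR.trans {e : V → V → ℝ} {l : ℕ} {E2 : ℝ} {μ : V → V → ℝ} {ν : V → ℝ} {ρ : ℝ}
    {μ' : V → V → ℝ} {ν' : V → ℝ} {ρ' : ℝ} {m : ℝ} {μ'' : V → V → ℝ} {ν'' : V → ℝ} {ρ'' : ℝ}
    {m' : ℝ} (h : MwR e l E2 μ ν ρ μ' ν' ρ' m) (h' : MwR e l E2 μ' ν' ρ' μ'' ν'' ρ'' m') :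
    MwR e l E2 μ ν ρ μ'' ν'' ρ'' (m + m') where
  wt := h'.wt
  nu := h'.nu
  rho := h'.rho
  le := fun a b => (h.le a b).trans (h'.le a b)
  dn_le := fun v => (h.dn_le v).trans (h'.dn_le v)
  priv := by rw [h'.priv, h.priv]; ring
  mass := by rw [h'.mass, h.mass]; ring
  fg := by
    have h1 := h.fg
    have h2 := h'.fg
    have h3 : 4 * ((l : ℝ) - 1) * (m + m') * E2 =
        4 * (l - 1) * m * E2 + 4 * (l - 1) * m' * E2 := by ring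
    rw [h3]
    linarith

theorem MwR.hE {e : V → V → ℝ} {l : ℕ} {E2 : ℝ} {μ : V → V → ℝ} {ν : V → ℝ} {ρ : ℝ}
    {μ' : V → V → ℝ} {ν' : V → ℝ} {ρ' : ℝ} {m : ℝ} (h : MwR e l E2 μ ν ρ μ' ν' ρ' m)
    (hw : Wt μ) (hν : ∀ v, 0 ≤ ν v) (hE : ∀ a, ∃ b, b ≠ a ∧ E2 ≤ En μ (dn μ ν) l b) :
    ∀ a, ∃ b, b ≠ a ∧ E2 ≤ En μ' (dn μ' ν') l b := by
  intro a
  obtain ⟨b, hb, h1⟩ := hE a
  exact ⟨b, hb, h1.trans (so_mono hw.nonneg h.le (mv_dn_nonneg hw hν) h.dn_le l b b).2⟩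

theorem mw_refl {e : V → V → ℝ} {l : ℕ} {E2 : ℝ} {μ : V → V → ℝ} {ν : V → ℝ} {ρ : ℝ}
    (hw : Wt μ) (hν : ∀ v, 0 ≤ ν v) (hρ : 0 ≤ ρ) : MwR e l E2 μ ν ρ μ ν ρ 0 where
  wt := hw
  nu := hν
  rho := hρ
  le := fun _ _ => le_refl _
  dn_le := fun _ => le_refl _
  priv := by ring
  mass := by ring
  fg := by simp

theorem mw_dn_nu (μ : V → V → ℝ) (ν : V → ℝ) {a b : V} (hab : a ≠ b) (η : ℝ) (v : V) :
    dn (ad μ a b η) (fun v => if v = a then ν a - η else ν v) v =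
      dn μ ν v + if v = b then η else 0 := by
  unfold dn
  rw [mv_dg_ad μ hab]
  by_cases hva : v = a
  · have hvb : v ≠ b := fun hh => hab (hva.symm.trans hh)
    simp only [if_pos hva, if_neg hvb]
    rw [hva]; ring
  · simp only [if_neg hva]; ring

theorem mw_one_nu {e : V → V → ℝ} (he : ∀ a b, 0 ≤ e a b) {l : ℕ} (hl : 2 ≤ l)
    (hV : 2 ≤ Fintype.card V) {E2 : ℝ} {μ : V → V → ℝ} {ν : V → ℝ} {ρ : ℝ} (hw : Wt μ)
    (hν : ∀ v, 0 ≤ ν v) (hρ : 0 ≤ ρ) (hE : ∀ a, ∃ b, b ≠ a ∧ E2 ≤ En μ (dn μ ν) l b)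
    (a : V) {η : ℝ} (hη : 0 ≤ η) (hηa : η ≤ ν a) :
    ∃ μ' : V → V → ℝ, MwR e l E2 μ ν ρ μ' (fun v => if v = a then ν a - η else ν v) ρ η := by
  obtain ⟨b, hb, hF⟩ := move_nu hw hν hρ he hl hV a hη hηa (hE a)
  refine ⟨ad μ a b η, ?_⟩
  exact
    { wt := wt_ad hw (Ne.symm hb) hη
      nu := by
        intro v
        show 0 ≤ if v = a then ν a - η else ν v
        split_ifs
        · linarith
        · exact hν v
      rho := hρ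
      le := mv_ad_le μ a b hη
      dn_le := by
        intro v
        rw [mw_dn_nu μ ν (Ne.symm hb)]
        split_ifs <;> linarith
      priv := by
        have h1 : ∑ v, (if v = a then ν a - η else ν v) = ∑ v, ν v - η := by
          have h2 : ∑ v, (if v = a then ν a - η else ν v) =
              ∑ v, (ν v - if v = a then η else 0) := by
            refine Finset.sum_congr rfl fun v _ => ?_
            split_ifs with hv
            · rw [hv]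
            · ring
          rw [h2, Finset.sum_sub_distrib]
          simp
        rw [h1]; ring
      mass := ms_ad μ (Ne.symm hb) η
      fg := hF }

theorem mw_one_rho {e : V → V → ℝ} (he : ∀ a b, 0 ≤ e a b) {l : ℕ} (hl : 2 ≤ l)
    (hV : 2 ≤ Fintype.card V) {E2 : ℝ} {μ : V → V → ℝ} {ν : V → ℝ} {ρ : ℝ} (hw : Wt μ)
    (hν : ∀ v, 0 ≤ ν v) (hE : ∀ a, ∃ b, b ≠ a ∧ E2 ≤ En μ (dn μ ν) l b)
    {η : ℝ} (hη : 0 ≤ η) (hηρ : η ≤ ρ) :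
    ∃ μ' : V → V → ℝ, MwR e l E2 μ ν ρ μ' ν (ρ - η) η := by
  obtain ⟨a, b, hab, hF⟩ := move_rho hw hν he hl hV hη hηρ hE
  refine ⟨ad μ a b η, ?_⟩
  exact
    { wt := wt_ad hw hab hη
      nu := hν
      rho := by linarith
      le := mv_ad_le μ a b hη
      dn_le := by
        intro v
        unfold dn
        rw [mv_dg_ad μ hab]
        split_ifs <;> linarith
      priv := by ring
      mass := ms_ad μ hab η
      fg := hF }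

theorem mw_all_nu {e : V → V → ℝ} (he : ∀ a b, 0 ≤ e a b) {l : ℕ} (hl : 2 ≤ l)
    (hV : 2 ≤ Fintype.card V) {E2 : ℝ} (S : Finset V) :
    ∀ (μ : V → V → ℝ) (ν : V → ℝ) (ρ m : ℝ), Wt μ → (∀ v, 0 ≤ ν v) → 0 ≤ ρ →
      (∀ a, ∃ b, b ≠ a ∧ E2 ≤ En μ (dn μ ν) l b) → 0 ≤ m → m ≤ ∑ v ∈ S, ν v →
      ∃ (μ' : V → V → ℝ) (ν' : V → ℝ), MwR e l E2 μ ν ρ μ' ν' ρ m := by
  induction S using Finset.induction_on with
  | empty =>
    intro μ ν ρ m hw hν hρ _ hm hm1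
    rw [Finset.sum_empty] at hm1
    have h0 : m = 0 := le_antisymm hm1 hm
    rw [h0]
    exact ⟨μ, ν, mw_refl hw hν hρ⟩
  | insert a S ha ih =>
    intro μ ν ρ m hw hν hρ hE hm hm1
    rw [Finset.sum_insert ha] at hm1
    by_cases hma : m ≤ ν a
    · obtain ⟨μ', h1⟩ := mw_one_nu he hl hV hw hν hρ hE a hm hma
      exact ⟨μ', _, h1⟩
    · push Not at hma
      obtain ⟨μ', h1⟩ := mw_one_nu he hl hV hw hν hρ hE a (hν a) (le_refl (ν a))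
      have h2 : m - ν a ≤ ∑ v ∈ S, (fun v => if v = a then ν a - ν a else ν v) v := by
        have h3 : ∑ v ∈ S, (fun v => if v = a then ν a - ν a else ν v) v = ∑ v ∈ S, ν v := by
          refine Finset.sum_congr rfl fun v hv => ?_
          show (if v = a then ν a - ν a else ν v) = ν v
          rw [if_neg]
          rintro rfl
          exact ha hv
        rw [h3]
        linarith
      obtain ⟨μ'', ν'', h4⟩ := ih μ' _ ρ (m - ν a) h1.wt h1.nu hρ (h1.hE hw hν hE)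
        (by linarith) h2
      refine ⟨μ'', ν'', ?_⟩
      have h5 := h1.trans h4
      have h6 : ν a + (m - ν a) = m := by ring
      rw [h6] at h5
      exact h5

theorem move_all {μ : V → V → ℝ} (h : Wt μ) {ν : V → ℝ} (hν : ∀ v, 0 ≤ ν v) {ρ : ℝ}
    (hρ : 0 ≤ ρ) {e : V → V → ℝ} (he : ∀ a b, 0 ≤ e a b) {l : ℕ} (hl : 2 ≤ l)
    (hV : 2 ≤ Fintype.card V) {E2 : ℝ} (hE : ∀ a, ∃ b, b ≠ a ∧ E2 ≤ En μ (dn μ ν) l b)
    {r : ℝ} (hr : 0 ≤ r) (hr1 : r ≤ ∑ v, ν v + ρ) :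
    ∃ (μ' : V → V → ℝ) (ν' : V → ℝ) (ρ' : ℝ), Wt μ' ∧ (∀ v, 0 ≤ ν' v) ∧ 0 ≤ ρ' ∧
      (∀ a b, μ a b ≤ μ' a b) ∧ ∑ v, ν' v + ρ' = r ∧
      ms μ' ∅ + r = ms μ ∅ + ∑ v, ν v + ρ ∧
      FG μ ν ρ e l + 4 * (l - 1) * (∑ v, ν v + ρ - r) * E2 ≤ FG μ' ν' ρ' e l := by
  have key : ∃ (μ' : V → V → ℝ) (ν' : V → ℝ) (ρ' : ℝ),
      MwR e l E2 μ ν ρ μ' ν' ρ' (∑ v, ν v + ρ - r) := by
    by_cases hc : ∑ v, ν v + ρ - r ≤ ∑ v, ν v
    · obtain ⟨μ', ν', h1⟩ := mw_all_nu he hl hV (E2 := E2) univ μ ν ρ (∑ v, ν v + ρ - r) h hν hρ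
        hE (by linarith) hc
      exact ⟨μ', ν', ρ, h1⟩
    · push Not at hc
      obtain ⟨μ', ν', h1⟩ := mw_all_nu he hl hV (E2 := E2) univ μ ν ρ (∑ v, ν v) h hν hρ
        hE (Finset.sum_nonneg fun v _ => hν v) (le_refl _)
      obtain ⟨μ'', h2⟩ := mw_one_rho (ρ := ρ) (η := ρ - r) he hl hV h1.wt h1.nu
        (h1.hE h hν hE) (by linarith) (by linarith)
      refine ⟨μ'', ν', ρ - (ρ - r), ?_⟩
      have h5 := h1.trans h2
      have h6 : ∑ v, ν v + (ρ - r) = ∑ v, ν v + ρ - r := by ring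
      rw [h6] at h5
      exact h5
  obtain ⟨μ', ν', ρ', h1⟩ := key
  refine ⟨μ', ν', ρ', h1.wt, h1.nu, h1.rho, h1.le, ?_, ?_, h1.fg⟩
  · rw [h1.priv]; ring
  · rw [h1.mass]; ring

end

end Pool.Agent.Lib.MP_009d13_co.OD
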