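import Pool.Agent.Lib.MP_009d13_co.OD.Defs
import Pool.Agent.Lib.MP_009d13_co.OD.BST
import Pool.Agent.Lib.MP_009d13_co.OD.MW
import Pool.Agent.Lib.MP_009d13_co.OD.ENR
import Pool.Agent.Lib.MP_009d13_co.OD.KB
import Pool.Agent.Lib.MP_009d13_co.OD.LS1
import Pool.Agent.Lib.MP_009d13_co.OD.OPA
import Pool.Agent.Lib.MP_009d13_co.OD.EM

/-!
# OD.STB: stability with private classes

`δ1 = min (δ / 4) (1 / (100 l))`, `lam` from `bstar`, `ε = lam * δ1`. If the private mass `T` is at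
most `δ1`, move everything: the new weight is within `2 δ1` of a ring, and the old one within
`3 δ1`. Otherwise move to private mass exactly `δ1`, then to zero: the final weight is near a ring,
so `En >= 1 / 2` at all ring hubs already before the last moves, and the last moves gain at least
`2 (l - 1) δ1 > ε`.
-/

set_option autoImplicit false

namespace Pool.Agent.Lib.MP_009d13_co.OD

open Finset Classical

noncomputable section

variable {V : Type} [Fintype V]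

theorem stb_nl {l : ℕ} (hV : Fintype.card V < l) : NL (∅ : Finset V) l = ∅ := by
  apply NL_eq_empty
  rw [compl_empty, card_univ]
  exact hV

theorem stb_cc {N : ℕ} (hV : Fintype.card V < N) (μ : V → V → ℝ) (χ : V → ℝ) (e : V → V → ℝ)
    (ψ : V → ℝ) : CC μ χ e ψ N = 0 := by
  unfold CC
  refine sum_eq_zero fun i hi => sum_eq_zero fun P hP => ?_
  rw [NL_eq_empty, sum_empty]
  rw [card_compl, List.toFinset_card_of_nodup (mem_NL.1 hP).2.1, (mem_NL.1 hP).1]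
  have := mem_range.1 hi
  omega

/-- With less than `l` hubs the functional vanishes. -/
theorem stb_small {l : ℕ} (hV : Fintype.card V < l) (μ e : V → V → ℝ) (ν : V → ℝ) (ρ : ℝ) :
    FG μ ν ρ e l = 0 := by
  have hWo : ∀ d : V → ℝ, Wo μ d l = 0 := fun d => by
    unfold Wo
    rw [stb_nl hV, sum_empty]
  have hAo : ∀ d : V → ℝ, Ao μ d l = 0 := fun d => by
    unfold Ao
    rw [stb_nl (l := l + 1) (by omega), sum_empty]
  have hEn : ∀ (d : V → ℝ) (a : V), En μ d l a = 0 := fun d a => by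
    unfold En
    rw [stb_nl hV, sum_empty]
  have hSo : ∀ (d : V → ℝ) (a b : V), So μ d l a b = 0 := fun d a b => stb_cc hV _ _ _ _
  have hgm : ∀ (d : V → ℝ) (a : V), gm μ d l a = 0 := fun d a => by
    unfold gm
    simp only [hSo, hEn, add_zero, ite_self]
    exact Real.iSup_const_zero
  have hem : ∀ d : V → ℝ, em μ d l = 0 := fun d => by
    unfold em
    simp only [hEn, add_zero, ite_self]
    exact Real.iSup_const_zero
  unfold FG Fd
  rw [hWo, hAo, stb_cc (N := l + 1) (by omega), hem]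
  simp only [hgm, mul_zero, sum_const_zero, add_zero]

theorem stb_zero {l : ℕ} {μ e : V → V → ℝ} {ν : V → ℝ} {ρ : ℝ} (hν : ∀ v, 0 ≤ ν v)
    (hρ : 0 ≤ ρ) (hs : ∑ v, ν v + ρ = 0) : FG μ ν ρ e l = Fo μ e l := by
  have h1 : 0 ≤ ∑ v, ν v := sum_nonneg fun v _ => hν v
  have h2 : ρ = 0 := by linarith
  have h3 : ∑ v, ν v = 0 := by linarith
  have h4 : ∀ v, ν v = 0 := fun v =>
    (sum_eq_zero_iff_of_nonneg fun v _ => hν v).1 h3 v (mem_univ v)
  have h5 : dn μ ν = dg μ := by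
    funext v
    unfold dn
    rw [h4, add_zero]
  unfold FG Fo
  rw [h5, h2]
  simp only [h4, zero_mul, sum_const_zero, mul_zero, add_zero]

theorem stb_entry {μ μ' : V → V → ℝ} (h : Wt μ) (h' : Wt μ') (hle : ∀ a b, μ a b ≤ μ' a b)
    (a b : V) : μ' a b - μ a b ≤ ms μ' ∅ - ms μ ∅ := by
  have hg : Wt (fun a b => μ' a b - μ a b) :=
    ⟨fun a b => by rw [h.symm a b, h'.symm a b], fun a => by rw [h.diag, h'.diag, sub_zero],
      fun a b => sub_nonneg.2 (hle a b)⟩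
  have h1 := le_un hg (A := (∅ : Finset V)) (v := a) (b := b) (notMem_empty b)
  have h2 := un_le_ms hg (A := (∅ : Finset V)) (v := a) (notMem_empty a)
  have h3 : ms (fun a b => μ' a b - μ a b) ∅ = ms μ' ∅ - ms μ ∅ := by
    unfold ms
    simp only [sum_sub_distrib]
    ring
  rw [h3] at h2
  exact h1.trans h2

/-- All private mass is moved, with a lower bound for `En`. -/
theorem stb_move {l : ℕ} (hl : 2 ≤ l) {μ e : V → V → ℝ} {ν : V → ℝ} {ρ : ℝ} (h : Wt μ)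
    (he : Sp e) (hν : ∀ v, 0 ≤ ν v) (hρ : 0 ≤ ρ) (hm : ms μ ∅ + ∑ v, ν v + ρ = l)
    (hV : 2 ≤ Fintype.card V) {E2 : ℝ} (hE : ∀ a, ∃ b, b ≠ a ∧ E2 ≤ En μ (dn μ ν) l b) :
    ∃ μ' : V → V → ℝ, Wt μ' ∧ ms μ' ∅ = l ∧ (∀ a b, μ' a b ≤ μ a b + (∑ v, ν v + ρ)) ∧
      FG μ ν ρ e l + 4 * (l - 1) * (∑ v, ν v + ρ) * E2 ≤ Fo μ' e l := by
  have hs : 0 ≤ ∑ v, ν v + ρ := add_nonneg (sum_nonneg fun v _ => hν v) hρ
  obtain ⟨μ', ν', ρ', h1, h2, h3, h4, h5, h6, h7⟩ :=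
    move_all h hν hρ he.nonneg hl hV hE le_rfl hs
  refine ⟨μ', h1, by linarith, fun a b => ?_, ?_⟩
  · have := stb_entry h h1 h4 a b
    linarith
  · rw [stb_zero h2 h3 h5, sub_zero] at h7
    exact h7

theorem stb_E0 {l : ℕ} {μ : V → V → ℝ} {ν : V → ℝ} (h : Wt μ) (hν : ∀ v, 0 ≤ ν v)
    (hV : 2 ≤ Fintype.card V) (a : V) : ∃ b, b ≠ a ∧ 0 ≤ En μ (dn μ ν) l b := by
  obtain ⟨b, hb⟩ := Fintype.exists_ne_of_one_lt_card (by omega) a
  exact ⟨b, hb, (so_nonneg h.nonneg (mv_dn_nonneg h hν) l b b).2.1⟩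

theorem stb_ring {l : ℕ} {δ1 lam : ℝ} (hlam : 0 < lam) {μ e : V → V → ℝ}
    (hb : Fo μ e l + lam * max 0 (ze l μ - δ1) ≤ 16 * l * (l + 1))
    (hV : l ≤ Fintype.card V) (hF : 16 * l * (l + 1) - lam * δ1 ≤ Fo μ e l) :
    ∃ h : Fin l ↪ V, ∀ j, 1 - 2 * δ1 ≤ μ (h j) (h (finRotate l j)) := by
  have h1 : lam * max 0 (ze l μ - δ1) ≤ lam * δ1 := by linarith
  have h2 : max 0 (ze l μ - δ1) ≤ δ1 := le_of_mul_le_mul_left h1 hlam
  have h3 : ze l μ - δ1 ≤ δ1 := (le_max_right _ _).trans h2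
  obtain ⟨h, hh⟩ := ze_attained l μ hV
  refine ⟨h, fun j => ?_⟩
  have h4 : |μ (h j) (h (finRotate l j)) - 1| ≤ rs l μ h := by
    unfold rs
    exact single_le_sum (f := fun j => |μ (h j) (h (finRotate l j)) - 1|)
      (fun i _ => abs_nonneg _) (mem_univ j)
  have h5 := (abs_le.1 (h4.trans (hh.le.trans (by linarith : ze l μ ≤ 2 * δ1)))).1
  linarith

theorem stab {l : ℕ} (hl : 10 ^ 40 ≤ l) {δ : ℝ} (hδ : 0 < δ) : ∃ ε : ℝ, 0 < ε ∧
    ∀ (V : Type) [Fintype V] (μ e : V → V → ℝ) (ν : V → ℝ) (ρ : ℝ), Wt μ → Sp e →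
      (∀ v, 0 ≤ ν v) → 0 ≤ ρ → ms μ ∅ + ∑ v, ν v + ρ = l →
      16 * l * (l + 1) - ε ≤ FG μ ν ρ e l →
      ∃ h : Fin l ↪ V, ∀ j, 1 - δ ≤ μ (h j) (h (finRotate l j)) := by
  have hl3 : 3 ≤ l := le_trans (by norm_num) hl
  have hl2 : 2 ≤ l := by omega
  have hlR : (3 : ℝ) ≤ l := by exact_mod_cast hl3
  have hl0 : (0 : ℝ) < l := by linarith
  obtain ⟨δ1, hδ1⟩ : ∃ δ1 : ℝ, δ1 = min (δ / 4) (1 / (100 * l)) := ⟨_, rfl⟩
  have hd0 : 0 < δ1 := by
    rw [hδ1]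
    exact lt_min (by linarith) (by positivity)
  have hd1 : δ1 ≤ δ / 4 := hδ1 ▸ min_le_left _ _
  have hd2 : δ1 * (100 * l) ≤ 1 := by
    have : δ1 ≤ 1 / (100 * l) := hδ1 ▸ min_le_right _ _
    rwa [le_div_iff₀ (by positivity)] at this
  have hd3 : δ1 ≤ 1 / 100 := by nlinarith
  obtain ⟨lam, hlam, hlam1, hb⟩ := bstar hl hd0
  have hε : lam * δ1 ≤ δ1 := by nlinarith
  refine ⟨lam * δ1, mul_pos hlam hd0, ?_⟩
  intro V _ μ e ν ρ hW he hν hρ hm hF
  rcases Nat.lt_or_ge (Fintype.card V) l with hV | hV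
  · exfalso
    rw [stb_small hV] at hF
    nlinarith
  have hV2 : 2 ≤ Fintype.card V := by omega
  have hs : 0 ≤ ∑ v, ν v + ρ := add_nonneg (sum_nonneg fun v _ => hν v) hρ
  rcases le_or_gt (∑ v, ν v + ρ) δ1 with hT | hT
  · obtain ⟨μ2, h1, h2, h3, h4⟩ :=
      stb_move (e := e) hl2 hW he hν hρ hm hV2 (stb_E0 hW hν hV2)
    rw [mul_zero, add_zero] at h4
    obtain ⟨h, hh⟩ := stb_ring hlam (hb V μ2 e h1 he h2) hV (hF.trans h4)
    refine ⟨h, fun j => ?_⟩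
    have h5 := hh j
    have h6 := h3 (h j) (h (finRotate l j))
    linarith
  · exfalso
    obtain ⟨μ1, ν1, ρ1, h1, h2, h3, h4, h5, h6, h7⟩ :=
      move_all hW hν hρ he.nonneg hl2 hV2 (stb_E0 hW hν hV2) hd0.le hT.le
    rw [mul_zero, add_zero] at h7
    have hm1 : ms μ1 ∅ + ∑ v, ν1 v + ρ1 = l := by linarith
    obtain ⟨μ2, g1, g2, g3, g4⟩ :=
      stb_move (e := e) hl2 h1 he h2 h3 hm1 hV2 (stb_E0 h1 h2 hV2)
    rw [mul_zero, add_zero] at g4
    obtain ⟨h, hh⟩ := stb_ring hlam (hb V μ2 e g1 he g2) hV (hF.trans (h7.trans g4))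
    have hr : ∀ j, 1 - 3 * δ1 ≤ μ1 (h j) (h (finRotate l j)) := fun j => by
      have k1 := hh j
      have k2 := g3 (h j) (h (finRotate l j))
      rw [h5] at k2
      linarith
    have hpow : 1 / 2 ≤ (1 - 3 * δ1) ^ l := by
      have k1 := one_add_mul_le_pow (a := -(3 * δ1)) (by linarith) l
      have k2 : (1 : ℝ) + -(3 * δ1) = 1 - 3 * δ1 := by ring
      rw [k2] at k1
      nlinarith
    have hEn : ∀ j, 1 / 2 ≤ En μ1 (dn μ1 ν1) l (h j) := fun j =>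
      hpow.trans (en_ring h1.nonneg hl3 (fun v => by
        unfold dn
        linarith [h2 v]) h (by linarith) hr j)
    have hE : ∀ a, ∃ b, b ≠ a ∧ 1 / 2 ≤ En μ1 (dn μ1 ν1) l b := fun a => by
      by_cases ha : h ⟨0, by omega⟩ = a
      · refine ⟨h ⟨1, by omega⟩, ?_, hEn _⟩
        rw [← ha]
        intro hc
        have := h.injective hc
        simp at this
      · exact ⟨_, ha, hEn _⟩
    obtain ⟨μ3, f1, f2, f3, f4⟩ := stb_move (e := e) hl2 h1 he h2 h3 hm1 hV2 hE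
    have hb3 := hb V μ3 e f1 he f2
    have hp : 0 ≤ lam * max 0 (ze l μ3 - δ1) := mul_nonneg hlam.le (le_max_left _ _)
    rw [h5] at f4
    nlinarith

theorem fg_le {l : ℕ} (hl : 10 ^ 40 ≤ l) 
    {V : Type} [Fintype V] {μ e : V → V → ℝ} {ν : V → ℝ} {ρ : ℝ} (h : Wt μ) (he : Sp e)
    (hν : ∀ v, 0 ≤ ν v) (hρ : 0 ≤ ρ) (hm : ms μ ∅ + ∑ v, ν v + ρ = l) :
    FG μ ν ρ e l ≤ 16 * l * (l + 1) := by
  have hl2 : 2 ≤ l := le_trans (by norm_num) hl
  rcases Nat.lt_or_ge (Fintype.card V) l with hV | hV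
  · rw [stb_small hV]
    positivity
  · obtain ⟨lam, hlam, hlam1, hb⟩ := bstar hl one_pos
    obtain ⟨μ2, h1, h2, h3, h4⟩ :=
      stb_move (e := e) hl2 h he hν hρ hm (by omega) (stb_E0 h hν (by omega))
    rw [mul_zero, add_zero] at h4
    have h5 := hb V μ2 e h1 he h2
    have hp : 0 ≤ lam * max 0 (ze l μ2 - 1) := mul_nonneg hlam.le (le_max_left _ _)
    linarith

end

end Pool.Agent.Lib.MP_009d13_co.OD
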