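import Pool.Agent.Lib.MP_009d13_co.OD.Defs2
import Pool.Agent.Lib.MP_009d13_co.OD.PTA
import Pool.Agent.Lib.MP_009d13_co.OD.STB
import Pool.Agent.Lib.MP_009d13_co.OD.NEA

/-!
# OD.FAS

T = 16 l(l+1). δ, K1 from near; δ' = δ/4; ε1 from stab (δ'); then choose ε > 0 small: (1+ε)^(l+1)
(T - ε1) + ε l^(l+1) <= T - ε1/2 .. <= T, (1-δ')^(l+1) T (..)^.. see below, ε <= δ'/(l+..). K2
from part_a (ε). For n < K2: trivial bound Tk <= n^(2l+2) <= K n^l (n >= 1; V empty: Tk = 0). For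
n >= K2: part_a: (μ,ν,ρ), e = aj G (sp_aj), total m = ms μ ∅ + Σν + ρ <= (1+ε) n. Tk <= FG μ ν ρ e
l + ε n^(l+1).
m = 0: FG = 0 (everything is 0; or by fg_smul with c = 0?) so Tk <= ε n^(l+1) <= T (n/l)^(l+1). m
> 0: scaled FG~ = (l/m)^(l+1) FG (fg_smul, c = l/m), total mass l: FG~ <= T (fg_le). Case m <
(1-δ') n: FG <= T (m/l)^(l+1) <= T (1-δ')^(l+1) (n/l)^(l+1) and ε n^(l+1) <= the rest for ε small.
Case FG~ <= T - ε1: FG <= (T - ε1) ((1+ε) n/l)^(l+1): again fine for ε small. Case FG~ > T - ε1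
and m >= (1-δ')n: stab: embedding h with
(l/m) μ(h j)(h (rot j)) >= 1 - δ': μ >= (1-δ')^2 n/l, so |nb(h j) ∩ nb(h(rot j))| >= (1-δ')^2 n/l
- ε n >= (1 - δ) n/l (ε <= δ'/l: (1-2δ') - δ' >= 1 - δ): near gives the claim. In the first cases
there is no n^l term. K = max of the constants, all >= 0.
-/

set_option autoImplicit false

namespace Pool.Agent.Lib.MP_009d13_co.OD

open Finset Classical
open Pool.Agent.Lib.MP_009d13_co.P5 (nb kk)

noncomputable section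

variable {V : Type} [Fintype V]
variable (G : SimpleGraph V) (H : Finset V)

omit [Fintype V] in
theorem fas_pw_le_one : ∀ L : List V, 0 ≤ pw (aj G) L ∧ pw (aj G) L ≤ 1
  | [] => ⟨zero_le_one, le_refl _⟩
  | [_] => ⟨zero_le_one, le_refl _⟩
  | a :: b :: t => by
    obtain ⟨h1, h2⟩ := fas_pw_le_one (b :: t)
    have h3 : pw (aj G) (a :: b :: t) = aj G a b * pw (aj G) (b :: t) := rfl
    have h4 : 0 ≤ aj G a b ∧ aj G a b ≤ 1 := by
      unfold aj
      split_ifs <;> norm_num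
    rw [h3]
    exact ⟨mul_nonneg h4.1 h1, mul_le_one₀ h4.2 h1 h2⟩

theorem fas_sum_one (k : ℕ) : ∀ A : Finset V,
    ∑ _L ∈ NL A k, (1 : ℝ) ≤ (Fintype.card V : ℝ) ^ k := by
  induction k with
  | zero => intro A; simp [NL]
  | succ k ih =>
    intro A
    rw [sum_NL_succ]
    calc ∑ a ∈ Aᶜ, ∑ _T ∈ NL (insert a A) k, (1 : ℝ)
        ≤ ∑ _a ∈ Aᶜ, (Fintype.card V : ℝ) ^ k := Finset.sum_le_sum fun a _ => ih (insert a A)
      _ = (Aᶜ.card : ℝ) * (Fintype.card V : ℝ) ^ k := by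
        rw [Finset.sum_const, nsmul_eq_mul]
      _ ≤ (Fintype.card V : ℝ) * (Fintype.card V : ℝ) ^ k := by
        refine mul_le_mul_of_nonneg_right ?_ (by positivity)
        exact_mod_cast Finset.card_le_univ _
      _ = (Fintype.card V : ℝ) ^ (k + 1) := by ring

theorem fas_crude (k : ℕ) : Tk G k ≤ (Fintype.card V : ℝ) ^ k := by
  unfold Tk
  exact (Finset.sum_le_sum fun L _ => (fas_pw_le_one G L).2).trans (fas_sum_one k ∅)

theorem fas_pow (x : ℝ) (h0 : 0 ≤ x) (h1 : x ≤ 1) (N : ℕ) :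
    (1 + x) ^ N ≤ 1 + x * 2 ^ N := by
  have key : (1 + x) ^ N ≤ 1 + x * (2 ^ N - 1) := by
    induction N with
    | zero => simp
    | succ N ih =>
      have h2 : (1 : ℝ) ≤ 2 ^ N := one_le_pow₀ (by norm_num)
      calc (1 + x) ^ (N + 1) = (1 + x) ^ N * (1 + x) := by ring
        _ ≤ (1 + x * (2 ^ N - 1)) * (1 + x) := mul_le_mul_of_nonneg_right ih (by linarith)
        _ = 1 + x * (1 + (2 ^ N - 1) + x * (2 ^ N - 1)) := by ring
        _ ≤ 1 + x * (1 + (2 ^ N - 1) + 1 * (2 ^ N - 1)) := by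
          have h3 : x * (2 ^ N - 1) ≤ 1 * (2 ^ N - 1) :=
            mul_le_mul_of_nonneg_right h1 (by linarith)
          have h4 := mul_le_mul_of_nonneg_left h3 h0
          linarith
        _ = 1 + x * (2 ^ (N + 1) - 1) := by ring
  linarith

theorem fas_eps (b1 b2 b3 b4 a2 a3 a4 : ℝ) (h1 : 0 < b1) (h2 : 0 < b2) (h3 : 0 < b3) (h4 : 0 < b4)
    (k2 : 0 < a2) (k3 : 0 < a3) (k4 : 0 < a4) :
    ∃ ε : ℝ, 0 < ε ∧ ε ≤ b1 ∧ ε * a2 ≤ b2 ∧ ε * a3 ≤ b3 ∧ ε * a4 ≤ b4 := by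
  refine ⟨min b1 (min (b2 / a2) (min (b3 / a3) (b4 / a4))), ?_, min_le_left _ _, ?_, ?_, ?_⟩
  · have := div_pos h2 k2
    have := div_pos h3 k3
    have := div_pos h4 k4
    simp only [lt_min_iff]
    exact ⟨h1, by assumption, by assumption, by assumption⟩
  · rw [← le_div_iff₀ k2]
    exact (min_le_right _ _).trans (min_le_left _ _)
  · rw [← le_div_iff₀ k3]
    exact (min_le_right _ _).trans ((min_le_right _ _).trans (min_le_left _ _))
  · rw [← le_div_iff₀ k4]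
    exact (min_le_right _ _).trans ((min_le_right _ _).trans (min_le_right _ _))

omit [Fintype V] in
theorem fas_wt_smul {μ : V → V → ℝ} (h : Wt μ) {c : ℝ} (hc : 0 ≤ c) :
    Wt (fun a b => c * μ a b) where
  symm a b := by simp only [h.symm a b]
  diag a := by simp only [h.diag a, mul_zero]
  nonneg a b := mul_nonneg hc (h.nonneg a b)

theorem fas_ms_nonneg {μ : V → V → ℝ} (h : Wt μ) : 0 ≤ ms μ ∅ := by
  unfold ms
  have : 0 ≤ ∑ a ∈ (∅ : Finset V)ᶜ, ∑ b ∈ (∅ : Finset V)ᶜ, μ a b :=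
    Finset.sum_nonneg fun a _ => Finset.sum_nonneg fun b _ => h.nonneg a b
  linarith

theorem fas_ms_smul (μ : V → V → ℝ) (c : ℝ) : ms (fun a b => c * μ a b) ∅ = c * ms μ ∅ := by
  unfold ms
  simp only [← Finset.mul_sum]
  ring

/-- Nothing is left if the total mass is zero. -/
theorem fas_zero {μ : V → V → ℝ} (h : Wt μ) {ν : V → ℝ} (hν : ∀ v, 0 ≤ ν v) {ρ : ℝ} (hρ : 0 ≤ ρ)
    (e : V → V → ℝ) {l : ℕ} (hl : 1 ≤ l) (hm : ms μ ∅ + ∑ v, ν v + ρ = 0) : FG μ ν ρ e l = 0 := by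
  have h1 := fas_ms_nonneg h
  have h2 : 0 ≤ ∑ v, ν v := Finset.sum_nonneg fun v _ => hν v
  have h3 : ms μ ∅ = 0 := by linarith
  have h4 : ∑ v, ν v = 0 := by linarith
  have h5 : ρ = 0 := by linarith
  have h6 : ∀ v, ν v = 0 := fun v =>
    (Finset.sum_eq_zero_iff_of_nonneg fun v _ => hν v).mp h4 v (Finset.mem_univ v)
  have h7 : ∀ a b, μ a b = 0 := by
    intro a b
    unfold ms at h3
    have h8 : ∑ a ∈ (∅ : Finset V)ᶜ, ∑ b ∈ (∅ : Finset V)ᶜ, μ a b = 0 := by linarith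
    have h9 := (Finset.sum_eq_zero_iff_of_nonneg fun a _ =>
      Finset.sum_nonneg fun b _ => h.nonneg a b).mp h8 a (by simp)
    exact (Finset.sum_eq_zero_iff_of_nonneg fun b _ => h.nonneg a b).mp h9 b (by simp)
  have h8 : μ = fun a b => 0 * μ a b := by
    funext a b
    rw [h7 a b, zero_mul]
  have h9 : ν = fun a => 0 * ν a := by
    funext a
    rw [h6 a, zero_mul]
  have h10 : ρ = 0 * ρ := by rw [h5, zero_mul]
  have h11 := fg_smul μ ν ρ e hl (le_refl (0 : ℝ))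
  rw [← h8, ← h9, ← h10] at h11
  rw [h11, zero_pow (by omega), zero_mul]

/-- The main estimate for a given graph. -/
theorem fas_main {l : ℕ} (hl : 10 ^ 40 ≤ l) {δ δ' ε0 ε1 ε K1 : ℝ} (hδ' : 0 < δ')
    (hδ1 : δ' ≤ 1 / 4) (hδ4 : 4 * δ' ≤ δ) (hε1 : 0 < ε1) (hε11 : ε1 ≤ 1) (hε10 : ε1 ≤ ε0)
    (hε : 0 < ε) (e1 : ε ≤ 1) (e2 : ε * (l : ℝ) ^ (l + 1) ≤ 16 * l * (l + 1) * δ')
    (e3 : ε * (16 * l * (l + 1) * 2 ^ (l + 1) + (l : ℝ) ^ (l + 1)) ≤ ε1)
    (e4 : ε * (l : ℝ) ≤ δ')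
    (hstab : ∀ (V : Type) [Fintype V] (μ e : V → V → ℝ) (ν : V → ℝ) (ρ : ℝ), Wt μ → Sp e →
      (∀ v, 0 ≤ ν v) → 0 ≤ ρ → ms μ ∅ + ∑ v, ν v + ρ = l →
      16 * l * (l + 1) - ε0 ≤ FG μ ν ρ e l →
      ∃ h : Fin l ↪ V, ∀ j, 1 - δ' ≤ μ (h j) (h (finRotate l j)))
    (hnear : ∀ (V : Type) [Fintype V]
      (G : SimpleGraph V) (h : Fin l ↪ V), P5.Sparse6 G → P5.NoK33m G →
      (∀ j, (1 - δ) * ((Fintype.card V : ℝ) / l)
        ≤ ((nb G (h j) ∩ nb G (h (finRotate l j))).card : ℝ)) →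
      Tk G (2 * l + 2) ≤ 16 * l * (l + 1) * ((Fintype.card V : ℝ) / l) ^ (l + 1)
        + K1 * (Fintype.card V : ℝ) ^ l)
    (hS : P5.Sparse6 G) (hN : P5.NoK33m G)
    {μ : V → V → ℝ} {ν : V → ℝ} {ρ : ℝ} (hμ : Wt μ) (hν : ∀ v, 0 ≤ ν v) (hρ : 0 ≤ ρ)
    (hm : ms μ ∅ + ∑ v, ν v + ρ ≤ (1 + ε) * (Fintype.card V : ℝ))
    (hcl : ∀ a b, a ≠ b → μ a b ≤ ((nb G a ∩ nb G b).card : ℝ) + ε * (Fintype.card V : ℝ))
    (hT : Tk G (2 * l + 2) ≤ FG μ ν ρ (aj G) l + ε * (Fintype.card V : ℝ) ^ (l + 1)) :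
    Tk G (2 * l + 2) ≤ 16 * l * (l + 1) * ((Fintype.card V : ℝ) / l) ^ (l + 1)
        + |K1| * (Fintype.card V : ℝ) ^ l := by
  have hl1 : 1 ≤ l := le_trans (Nat.one_le_pow _ _ (by norm_num)) hl
  have hL : (1 : ℝ) ≤ (l : ℝ) := by exact_mod_cast hl1
  have hL0 : (0 : ℝ) < (l : ℝ) := by linarith
  have hn0 : (0 : ℝ) ≤ (Fintype.card V : ℝ) := Nat.cast_nonneg _
  generalize hn : (Fintype.card V : ℝ) = n at hm hcl hT hn0 ⊢
  set T : ℝ := 16 * l * (l + 1) with hTd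
  have hT1 : 1 ≤ T := by
    rw [hTd]
    nlinarith
  set y : ℝ := n / l with hy
  have hy0 : 0 ≤ y := div_nonneg hn0 hL0.le
  have hny : n = l * y := by
    rw [hy]
    field_simp
  have hyp : 0 ≤ y ^ (l + 1) := pow_nonneg hy0 _
  have hK : 0 ≤ |K1| * n ^ l := mul_nonneg (abs_nonneg _) (pow_nonneg hn0 _)
  have hen : ε * n ^ (l + 1) = ε * (l : ℝ) ^ (l + 1) * y ^ (l + 1) := by
    rw [hny, mul_pow, mul_assoc]
  set m : ℝ := ms μ ∅ + ∑ v, ν v + ρ with hmd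
  have hm0 : 0 ≤ m := by
    have h1 := fas_ms_nonneg hμ
    have h2 : 0 ≤ ∑ v, ν v := Finset.sum_nonneg fun v _ => hν v
    rw [hmd]
    linarith
  rcases hm0.eq_or_lt with hmz | hmp
  · have h1 := fas_zero hμ hν hρ (aj G) hl1 hmz.symm
    rw [h1, zero_add, hen] at hT
    have h2 : ε * (l : ℝ) ^ (l + 1) ≤ T := by
      calc ε * (l : ℝ) ^ (l + 1) ≤ T * δ' := e2
        _ ≤ T * 1 := mul_le_mul_of_nonneg_left (by linarith) (by linarith)
        _ = T := mul_one T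
    have h3 := mul_le_mul_of_nonneg_right h2 hyp
    linarith
  -- scaling
  set c : ℝ := l / m with hc
  have hc0 : 0 < c := div_pos hL0 hmp
  have hcm : c * m = l := by
    rw [hc]
    field_simp
  set X : ℝ := FG (fun a b => c * μ a b) (fun a => c * ν a) (c * ρ) (aj G) l with hX
  have hXe : X = c ^ (l + 1) * FG μ ν ρ (aj G) l := fg_smul μ ν ρ (aj G) hl1 hc0.le
  have hFG : FG μ ν ρ (aj G) l = (m / l) ^ (l + 1) * X := by
    rw [hXe, ← mul_assoc, ← mul_pow]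
    have h1 : m / l * c = 1 := by
      rw [hc]
      field_simp
    rw [h1, one_pow, one_mul]
  have htot : ms (fun a b => c * μ a b) ∅ + ∑ v, c * ν v + c * ρ = l := by
    rw [fas_ms_smul, ← Finset.mul_sum, ← hcm, hmd]
    ring
  have hsp := sp_aj G hS
  have hXT : X ≤ T := fg_le hl (fas_wt_smul hμ hc0.le) hsp
    (fun v => mul_nonneg hc0.le (hν v)) (mul_nonneg hc0.le hρ) htot
  have hml0 : 0 ≤ m / l := div_nonneg hm0 hL0.le
  by_cases hA : m ≤ (1 - δ') * n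
  · -- the mass is small
    have h1 : m / l ≤ (1 - δ') * y := by
      rw [hy, ← mul_div_assoc]
      exact div_le_div_of_nonneg_right hA hL0.le
    have h2 : (m / l) ^ (l + 1) ≤ (1 - δ') * y ^ (l + 1) := by
      calc (m / l) ^ (l + 1) ≤ ((1 - δ') * y) ^ (l + 1) := pow_le_pow_left₀ hml0 h1 _
        _ = (1 - δ') ^ (l + 1) * y ^ (l + 1) := mul_pow _ _ _
        _ ≤ (1 - δ') * y ^ (l + 1) := by
          refine mul_le_mul_of_nonneg_right ?_ hyp
          exact pow_le_of_le_one (by linarith) (by linarith) (by omega)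
    have h3 : FG μ ν ρ (aj G) l ≤ (1 - δ') * y ^ (l + 1) * T := by
      rw [hFG]
      calc (m / l) ^ (l + 1) * X ≤ (m / l) ^ (l + 1) * T :=
            mul_le_mul_of_nonneg_left hXT (pow_nonneg hml0 _)
        _ ≤ (1 - δ') * y ^ (l + 1) * T := mul_le_mul_of_nonneg_right h2 (by linarith)
    have h4 := mul_le_mul_of_nonneg_right e2 hyp
    rw [← hen] at h4
    calc Tk G (2 * l + 2) ≤ (1 - δ') * y ^ (l + 1) * T + T * δ' * y ^ (l + 1) := by linarith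
      _ = T * y ^ (l + 1) := by ring
      _ ≤ T * y ^ (l + 1) + |K1| * n ^ l := by linarith
  push Not at hA
  by_cases hB : X ≤ T - ε1
  · have h1 : m / l ≤ (1 + ε) * y := by
      rw [hy, ← mul_div_assoc]
      exact div_le_div_of_nonneg_right hm hL0.le
    have h2 : (m / l) ^ (l + 1) ≤ (1 + ε * 2 ^ (l + 1)) * y ^ (l + 1) := by
      calc (m / l) ^ (l + 1) ≤ ((1 + ε) * y) ^ (l + 1) := pow_le_pow_left₀ hml0 h1 _
        _ = (1 + ε) ^ (l + 1) * y ^ (l + 1) := mul_pow _ _ _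
        _ ≤ (1 + ε * 2 ^ (l + 1)) * y ^ (l + 1) :=
          mul_le_mul_of_nonneg_right (fas_pow ε hε.le e1 _) hyp
    have h3 : FG μ ν ρ (aj G) l ≤ (1 + ε * 2 ^ (l + 1)) * y ^ (l + 1) * (T - ε1) := by
      rw [hFG]
      calc (m / l) ^ (l + 1) * X ≤ (m / l) ^ (l + 1) * (T - ε1) :=
            mul_le_mul_of_nonneg_left hB (pow_nonneg hml0 _)
        _ ≤ (1 + ε * 2 ^ (l + 1)) * y ^ (l + 1) * (T - ε1) :=
          mul_le_mul_of_nonneg_right h2 (by linarith)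
    have h4 : (1 + ε * 2 ^ (l + 1)) * (T - ε1) + ε * (l : ℝ) ^ (l + 1) ≤ T := by
      have h5 : 0 ≤ ε * 2 ^ (l + 1) * ε1 := by positivity
      have h6 : (1 + ε * 2 ^ (l + 1)) * (T - ε1) + ε * (l : ℝ) ^ (l + 1)
          = T - ε1 - ε * 2 ^ (l + 1) * ε1 + ε * (T * 2 ^ (l + 1) + (l : ℝ) ^ (l + 1)) := by ring
      rw [h6]
      linarith
    have h5 := mul_le_mul_of_nonneg_right h4 hyp
    calc Tk G (2 * l + 2) ≤ (1 + ε * 2 ^ (l + 1)) * y ^ (l + 1) * (T - ε1)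
          + ε * (l : ℝ) ^ (l + 1) * y ^ (l + 1) := by
            rw [← hen]
            linarith
      _ = ((1 + ε * 2 ^ (l + 1)) * (T - ε1) + ε * (l : ℝ) ^ (l + 1)) * y ^ (l + 1) := by ring
      _ ≤ T * y ^ (l + 1) := h5
      _ ≤ T * y ^ (l + 1) + |K1| * n ^ l := by linarith
  push Not at hB
  obtain ⟨h, hh⟩ := hstab V (fun a b => c * μ a b) (aj G) (fun a => c * ν a) (c * ρ)
    (fas_wt_smul hμ hc0.le) hsp (fun v => mul_nonneg hc0.le (hν v)) (mul_nonneg hc0.le hρ) htot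
    (by
      have : T - ε0 ≤ X := by linarith
      exact this)
  have hfin := hnear V G h hS hN (fun j => by
    have h1 := hh j
    have h2 : h j ≠ h (finRotate l j) := by
      intro h3
      rw [← h3] at h1
      simp only [hμ.diag, mul_zero] at h1
      linarith
    have h3 := hcl _ _ h2
    have h4 : (1 - δ') * (m / l) ≤ μ (h j) (h (finRotate l j)) := by
      have h5 : μ (h j) (h (finRotate l j)) = (m / l) * (c * μ (h j) (h (finRotate l j))) := by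
        rw [← mul_assoc]
        have h6 : m / l * c = 1 := by
          rw [hc]
          field_simp
        rw [h6, one_mul]
      rw [h5, mul_comm]
      exact mul_le_mul_of_nonneg_left h1 hml0
    have h5 : (1 - δ') * y ≤ m / l := by
      rw [hy, ← mul_div_assoc]
      exact div_le_div_of_nonneg_right hA.le hL0.le
    have h6 : (1 - δ') * ((1 - δ') * y) ≤ (1 - δ') * (m / l) :=
      mul_le_mul_of_nonneg_left h5 (by linarith)
    have h7 : ε * n ≤ δ' * y := by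
      rw [hny, ← mul_assoc]
      exact mul_le_mul_of_nonneg_right e4 hy0
    rw [hn]
    have h8 : 0 ≤ δ' * δ' * y := by positivity
    have h9 : (1 - δ) * y ≤ (1 - 3 * δ') * y := by
      refine mul_le_mul_of_nonneg_right ?_ hy0
      linarith
    change (1 - δ) * y ≤ _
    have h10 : (1 - δ') * ((1 - δ') * y) = (1 - 2 * δ') * y + δ' * δ' * y := by ring
    have h11 : (1 - 3 * δ') * y = (1 - 2 * δ') * y - δ' * y := by ring
    linarith)
  rw [hn] at hfin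
  have h1 : K1 * n ^ l ≤ |K1| * n ^ l := mul_le_mul_of_nonneg_right (le_abs_self _)
    (pow_nonneg hn0 _)
  linarith

theorem tk_upper {l : ℕ} (hl : 10 ^ 40 ≤ l) : ∃ K : ℝ, ∀ (V : Type) [Fintype V]
    (G : SimpleGraph V), P5.Sparse6 G → P5.NoK33m G →
    Tk G (2 * l + 2) ≤ 16 * l * (l + 1) * ((Fintype.card V : ℝ) / l) ^ (l + 1)
      + K * (Fintype.card V : ℝ) ^ l := by
  have hl1 : 1 ≤ l := le_trans (Nat.one_le_pow _ _ (by norm_num)) hl
  have hl2 : 2 ≤ l := le_trans (by norm_num) hl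
  have hL : (1 : ℝ) ≤ (l : ℝ) := by exact_mod_cast hl1
  have hL0 : (0 : ℝ) < (l : ℝ) := by linarith
  obtain ⟨δ, K1, hδ, hnear⟩ := near hl
  have hδ' : 0 < min δ 1 / 4 := by
    have := lt_min hδ one_pos
    linarith
  obtain ⟨ε0, hε0, hstab⟩ := stab hl hδ'
  have hT0 : (0 : ℝ) < 16 * l * (l + 1) := by positivity
  obtain ⟨ε, hε, q1, q2, q3, q4⟩ := fas_eps 1 (16 * l * (l + 1) * (min δ 1 / 4)) (min ε0 1)
    (min δ 1 / 4) ((l : ℝ) ^ (l + 1)) (16 * l * (l + 1) * 2 ^ (l + 1) + (l : ℝ) ^ (l + 1)) l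
    one_pos (mul_pos hT0 hδ') (lt_min hε0 one_pos) hδ' (by positivity) (by positivity) hL0
  obtain ⟨K2, hK2⟩ := part_a hl2 hε
  refine ⟨|K1| + |K2| ^ (l + 2), fun V _ G hS hN => ?_⟩
  have hn0 : (0 : ℝ) ≤ (Fintype.card V : ℝ) := Nat.cast_nonneg _
  by_cases hn : K2 ≤ (Fintype.card V : ℝ)
  · obtain ⟨μ, ν, ρ, hμ, hν, hρ, hm, hcl, hT⟩ := hK2 V G hS hN hn
    have h1 := fas_main G hl (δ := δ) (δ' := min δ 1 / 4) (ε0 := ε0) (ε1 := min ε0 1) (ε := ε)
      (K1 := K1) hδ' (by have := min_le_right δ 1; linarith)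
      (by have := min_le_left δ 1; linarith) (lt_min hε0 one_pos) (min_le_right _ _)
      (min_le_left _ _) hε q1 q2 q3 q4 hstab hnear hS hN hμ hν hρ hm hcl hT
    have h2 : 0 ≤ |K2| ^ (l + 2) * (Fintype.card V : ℝ) ^ l := by positivity
    rw [add_mul]
    linarith
  · push Not at hn
    have h1 := fas_crude G (2 * l + 2)
    have h2 : (Fintype.card V : ℝ) ^ (2 * l + 2)
        = (Fintype.card V : ℝ) ^ (l + 2) * (Fintype.card V : ℝ) ^ l := by
      rw [← pow_add]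
      congr 1
      ring
    have h3 : (Fintype.card V : ℝ) ^ (l + 2) ≤ |K2| ^ (l + 2) :=
      pow_le_pow_left₀ hn0 (hn.le.trans (le_abs_self _)) _
    have h4 := mul_le_mul_of_nonneg_right h3 (pow_nonneg hn0 l)
    have h5 : 0 ≤ |K1| * (Fintype.card V : ℝ) ^ l := by positivity
    have h6 : 0 ≤ 16 * (l : ℝ) * (l + 1) * ((Fintype.card V : ℝ) / l) ^ (l + 1) := by positivity
    rw [add_mul]
    linarith

end

end Pool.Agent.Lib.MP_009d13_co.OD
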