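import Pool.Agent.Lib.MP_009d13_co.OD.OPB
import Pool.Agent.Lib.MP_009d13_co.OD.GEN
import Pool.Agent.Lib.MP_009d13_co.OD.BR

/-! FBS: the walk hits the last hub, star form. -/

set_option autoImplicit false

namespace Pool.Agent.Lib.MP_009d13_co.OD

open Finset Classical

noncomputable section

variable {V : Type} [Fintype V]

theorem fbs_scale (w : Finset V → V → V → ℝ) (c : ℝ) (g : Finset V → V → ℝ) (k : ℕ)
    (A : Finset V) (v : V) :
    (TW (fun A v b => c * w A v b))^[k] g A v = c ^ k * (TW w)^[k] g A v := by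
  induction k generalizing A v with
  | zero => simp
  | succ k ih =>
    rw [Function.iterate_succ_apply', Function.iterate_succ_apply']
    unfold TW
    rw [mul_sum]
    refine sum_congr rfl fun b _ => ?_
    have := ih (insert v A) b
    unfold TW at this
    rw [this]
    ring

theorem fbs_xw_le {μ : V → V → ℝ} (h : Wt μ) {g : Finset V → V → ℝ}
    (hg : ∀ A v, v ∉ A → 0 ≤ g A v) (τ : ℕ) {A : Finset V} {v : V} (hv : v ∉ A) :
    (Xw μ)^[τ] g A v ≤ 2 ^ τ * (Pp μ)^[τ] g A v := by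
  have h1 : (Xw μ)^[τ] g A v ≤ (TW (fun _ v b => 2 * μ v b))^[τ] g A v := by
    rw [Xw_eq_TW]
    apply TW_le _ _ hg τ hv
    · intro A v b
      apply mul_nonneg _ (h.nonneg v b)
      split_ifs with hc
      · exact inv_nonneg.mpr (by linarith)
      · exact le_rfl
    · intro A v b _ _
      apply mul_le_mul_of_nonneg_right _ (h.nonneg v b)
      split_ifs with hc
      · calc (un μ A v)⁻¹ ≤ (1 / 2 : ℝ)⁻¹ := inv_anti₀ (by norm_num) hc
          _ = 2 := by norm_num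
      · norm_num
  rw [fbs_scale (fun _ v b => μ v b) 2 g τ A v, ← Pp_eq_TW] at h1
  exact h1

/-- The mass of the walks that end in `z`. -/
theorem fbs_end {μ : V → V → ℝ} (h : Wt μ) (h6 : ∀ v, dg μ v ≤ 6) (z : V) (k : ℕ) :
    ∑ v, dg μ v * (Pp μ)^[k] (fun _ u => if u = z then 1 else 0) ∅ v
      ≤ 6 * Real.exp (ms μ ∅ - k) := by
  have h1 := br1 μ (dg μ) (fun u => if u = z then 1 else 0) k
  have h2 := br1 μ (fun u => if u = z then 1 else 0) (dg μ) k
  rw [← h1, wo_rev h, h2]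
  have h3 : ∑ v, (if v = z then (1 : ℝ) else 0) * (Pp μ)^[k] (fun _ u => dg μ u) ∅ v
      = (Pp μ)^[k] (fun _ u => dg μ u) ∅ z := by
    rw [Finset.sum_eq_single z]
    · simp
    · intro b _ hb; simp [hb]
    · intro hz; exact absurd (mem_univ z) hz
  rw [h3]
  have h4 : (Pp μ)^[k] (fun _ u => dg μ u) ∅ z ≤ (Pp μ)^[k] (fun _ _ => 6 * 1) ∅ z := by
    rw [Pp_eq_TW]
    apply TW_mono (fun _ a b => h.nonneg a b) _ k (notMem_empty z)
    intro A v _
    simpa using h6 v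
  have h5 : (Pp μ)^[k] (fun _ _ => 6 * 1) ∅ z = 6 * (Pp μ)^[k] (fun _ _ => 1) ∅ z := by
    rw [Pp_eq_TW]
    exact TW_smul _ 6 (fun _ _ => 1) k ∅ z
  have h6' := gen_exp h k (notMem_empty z)
  linarith

theorem fbs_geom (n : ℕ) : ∑ τ ∈ range n, (2 : ℝ) ^ (τ + 1) * (6 * Real.exp (-(τ : ℝ))) ≤ 50 := by
  have he := Real.exp_one_gt_d9
  have hr : (2 : ℝ) * Real.exp (-1) ≤ 7358 / 10000 := by
    rw [Real.exp_neg]
    have : (Real.exp 1)⁻¹ ≤ (2.7182818283 : ℝ)⁻¹ := inv_anti₀ (by norm_num) he.le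
    calc 2 * (Real.exp 1)⁻¹ ≤ 2 * (2.7182818283 : ℝ)⁻¹ := by linarith
      _ ≤ 7358 / 10000 := by norm_num
  have hr0 : (0 : ℝ) ≤ 2 * Real.exp (-1) := by positivity
  have h1 : ∀ τ ∈ range n, (2 : ℝ) ^ (τ + 1) * (6 * Real.exp (-(τ : ℝ))) ≤ 12 * (7358 / 10000 : ℝ) ^ τ := by
    intro τ _
    have e1 : Real.exp (-(τ : ℝ)) = Real.exp (-1) ^ τ := by
      rw [← Real.exp_nat_mul]; congr 1; ring
    have e2 : (2 : ℝ) ^ (τ + 1) * (6 * Real.exp (-(τ : ℝ))) = 12 * (2 * Real.exp (-1)) ^ τ := by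
      rw [e1, pow_succ, mul_pow]; ring
    rw [e2]
    gcongr
  refine (sum_le_sum h1).trans ?_
  rw [← mul_sum]
  have h2 : ∑ τ ∈ range n, (7358 / 10000 : ℝ) ^ τ ≤ (1 - 7358 / 10000 : ℝ)⁻¹ := by
    have hs := (summable_geometric_of_lt_one (r := (7358 / 10000 : ℝ)) (by norm_num) (by norm_num))
    have := hs.sum_le_tsum (range n) (fun i _ => by positivity)
    rwa [tsum_geometric_of_lt_one (by norm_num) (by norm_num)] at this
  have h3 : (12 : ℝ) * (1 - 7358 / 10000 : ℝ)⁻¹ ≤ 50 := by norm_num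
  linarith

theorem far_b_star {μ : V → V → ℝ} (h : Wt μ) {l : ℕ} (hl : 1 ≤ l) (hm : ms μ ∅ = l)
    (h6 : ∀ v, dg μ v ≤ 6) (z : V) (n : ℕ) :
    ∑ i ∈ range l, ∑ τ ∈ range n, ∑ v, dg μ v *
      (Pp μ)^[i] (fun A x => (Xw μ)^[τ + 1]
        (Ls μ (fun y => if y = z then 1 else 0) (l - i)) A x) ∅ v ≤ 50 * l := by
  set t : V → ℝ := fun y => if y = z then 1 else 0 with ht
  have ht0 : ∀ y, 0 ≤ t y := fun y => by simp only [ht]; split_ifs <;> norm_num
  have hdg : ∀ v, 0 ≤ dg μ v := fun v => by rw [dg_eq]; exact un_nonneg h _ _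
  have hP0 : ∀ (k : ℕ) (A : Finset V) (v : V), v ∉ A → 0 ≤ (Pp μ)^[k] (fun _ u => t u) A v := by
    intro k A v hv
    rw [Pp_eq_TW]
    exact TW_nonneg (fun _ a b => h.nonneg a b) (fun _ u _ => ht0 u) k hv
  have key : ∀ i ∈ range l, ∀ τ ∈ range n, ∑ v, dg μ v *
      (Pp μ)^[i] (fun A x => (Xw μ)^[τ + 1] (Ls μ t (l - i)) A x) ∅ v
      ≤ (2 : ℝ) ^ (τ + 1) * (6 * Real.exp (-(τ : ℝ))) := by
    intro i hi τ _
    rw [mem_range] at hi
    have hstep : ∀ v, (Pp μ)^[i] (fun A x => (Xw μ)^[τ + 1] (Ls μ t (l - i)) A x) ∅ v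
        ≤ 2 ^ (τ + 1) * (Pp μ)^[l + τ] (fun _ u => t u) ∅ v := by
      intro v
      have h1 : (Pp μ)^[i] (fun A x => (Xw μ)^[τ + 1] (Ls μ t (l - i)) A x) ∅ v
          ≤ (Pp μ)^[i] (fun A x => 2 ^ (τ + 1) * (Pp μ)^[τ + 1 + (l - i - 1)] (fun _ u => t u) A x) ∅ v := by
        conv_lhs => rw [Pp_eq_TW]
        conv_rhs => rw [Pp_eq_TW]
        apply TW_mono (fun _ a b => h.nonneg a b) _ i (notMem_empty v)
        intro A x hx
        rw [← Pp_eq_TW]
        have h2 : (Xw μ)^[τ + 1] (Ls μ t (l - i)) A x ≤ 2 ^ (τ + 1) * (Pp μ)^[τ + 1] (Ls μ t (l - i)) A x := by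
          apply fbs_xw_le h _ _ hx
          intro B b hb
          unfold Ls
          split_ifs
          · exact hP0 _ _ _ hb
          · exact le_rfl
        refine h2.trans ?_
        have h3 : (Pp μ)^[τ + 1] (Ls μ t (l - i)) A x
            ≤ (Pp μ)^[τ + 1] ((Pp μ)^[l - i - 1] (fun _ u => t u)) A x := by
          rw [Pp_eq_TW]
          apply TW_mono (fun _ a b => h.nonneg a b) _ _ hx
          intro B b hb
          rw [← Pp_eq_TW]
          unfold Ls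
          split_ifs
          · exact le_rfl
          · exact hP0 _ _ _ hb
        rw [← Function.iterate_add_apply] at h3
        gcongr
      refine h1.trans (le_of_eq ?_)
      rw [Pp_eq_TW, TW_smul]
      congr 1
      rw [← Function.iterate_add_apply]
      have e : i + (τ + 1 + (l - i - 1)) = l + τ := by omega
      rw [e]
    calc ∑ v, dg μ v * (Pp μ)^[i] (fun A x => (Xw μ)^[τ + 1] (Ls μ t (l - i)) A x) ∅ v
        ≤ ∑ v, dg μ v * (2 ^ (τ + 1) * (Pp μ)^[l + τ] (fun _ u => t u) ∅ v) :=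
          sum_le_sum fun v _ => mul_le_mul_of_nonneg_left (hstep v) (hdg v)
      _ = 2 ^ (τ + 1) * ∑ v, dg μ v * (Pp μ)^[l + τ] (fun _ u => t u) ∅ v := by
          rw [mul_sum]; exact sum_congr rfl fun v _ => by ring
      _ ≤ _ := by
          have := fbs_end h h6 z (l + τ)
          rw [hm] at this
          have e : (l : ℝ) - ((l + τ : ℕ) : ℝ) = -(τ : ℝ) := by push_cast; ring
          rw [e] at this
          gcongr
  calc _ ≤ ∑ i ∈ range l, ∑ τ ∈ range n, (2 : ℝ) ^ (τ + 1) * (6 * Real.exp (-(τ : ℝ))) :=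
        sum_le_sum fun i hi => sum_le_sum fun τ hτ => key i hi τ hτ
    _ ≤ ∑ i ∈ range l, (50 : ℝ) := sum_le_sum fun i _ => fbs_geom n
    _ = 50 * l := by rw [sum_const, card_range, nsmul_eq_mul]; ring

end

end Pool.Agent.Lib.MP_009d13_co.OD
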