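import Pool.Agent.Lib.MP_009d13_co.OD.OPA
import Pool.Agent.Lib.MP_009d13_co.OD.OPB

/-! HIT: the normalised walk hits every hub at most once. -/

set_option autoImplicit false

namespace Pool.Agent.Lib.MP_009d13_co.OD

open Finset Classical

noncomputable section

variable {V : Type} [Fintype V]

theorem hit_step (D : ℝ) : Real.exp (1 - D) * D ≤ 1 := by
  have h1 : D ≤ Real.exp (D - 1) := by
    have := Real.add_one_le_exp (D - 1)
    linarith
  calc Real.exp (1 - D) * D ≤ Real.exp (1 - D) * Real.exp (D - 1) :=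
        mul_le_mul_of_nonneg_left h1 (Real.exp_pos _).le
    _ = 1 := by
        rw [← Real.exp_add]
        simp

theorem hit_w {μ : V → V → ℝ} (h : Wt μ) (A : Finset V) (v b : V) :
    0 ≤ Real.exp (1 - un μ A v) * μ v b :=
  mul_nonneg (Real.exp_pos _).le (h.nonneg _ _)

theorem hit {μ : V → V → ℝ} (h : Wt μ) {t : V → ℝ} (ht : ∀ y, 0 ≤ t y) (n : ℕ)
    {A : Finset V} {v : V} (hv : v ∉ A) :
    ∑ k ∈ range n, (Op μ)^[k] (fun _ u => t u) A v ≤ ∑ y ∈ Aᶜ, t y := by
  induction n generalizing A v with
  | zero =>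
    simp only [Finset.range_zero, Finset.sum_empty]
    exact Finset.sum_nonneg fun y _ => ht y
  | succ n ih =>
    rw [Finset.sum_range_succ']
    have h1 : ∀ k, (Op μ)^[k + 1] (fun _ u => t u) A v
        = ∑ b ∈ (insert v A)ᶜ, Real.exp (1 - un μ A v) * μ v b
            * (Op μ)^[k] (fun _ u => t u) (insert v A) b := by
      intro k
      rw [Function.iterate_succ_apply', Op_eq_TW]
      rfl
    simp only [h1]
    rw [Finset.sum_comm]
    have h2 : ∑ b ∈ (insert v A)ᶜ, ∑ k ∈ range n, Real.exp (1 - un μ A v) * μ v b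
          * (Op μ)^[k] (fun _ u => t u) (insert v A) b
        ≤ ∑ b ∈ (insert v A)ᶜ, Real.exp (1 - un μ A v) * μ v b
          * ∑ y ∈ (insert v A)ᶜ, t y := by
      refine Finset.sum_le_sum fun b hb => ?_
      rw [← Finset.mul_sum]
      exact mul_le_mul_of_nonneg_left (ih (Finset.mem_compl.1 hb)) (hit_w h A v b)
    have h3 : ∑ b ∈ (insert v A)ᶜ, Real.exp (1 - un μ A v) * μ v b
          * ∑ y ∈ (insert v A)ᶜ, t y
        = (Real.exp (1 - un μ A v) * un μ A v) * ∑ y ∈ (insert v A)ᶜ, t y := by
      rw [← un_eq_insert h A v, ← Finset.sum_mul, ← Finset.mul_sum]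
    have h4 : 0 ≤ ∑ y ∈ (insert v A)ᶜ, t y := Finset.sum_nonneg fun y _ => ht y
    have h5 := mul_le_mul_of_nonneg_right (hit_step (un μ A v)) h4
    have h6 : ∑ y ∈ Aᶜ, t y = t v + ∑ y ∈ (insert v A)ᶜ, t y := opa_sum hv t
    rw [h6]
    have h7 : (Op μ)^[0] (fun _ u => t u) A v = t v := rfl
    rw [h7]
    linarith

theorem hit2 {μ : V → V → ℝ} (h : Wt μ) {t : V → ℝ} (ht : ∀ y, 0 ≤ t y) (n : ℕ) (a : V) :
    ∑ k ∈ range n, (Op μ)^[k] (fun _ u => t u) ∅ a
      ≤ t a + 3 * ∑ x, t x * min 1 (dg μ x) := by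
  have ha : a ∉ (∅ : Finset V) := Finset.notMem_empty a
  have hdg : ∀ x, 0 ≤ dg μ x := fun x => by
    rw [dg_eq]
    exact un_nonneg h ∅ x
  have hR : 0 ≤ ∑ x, t x * min 1 (dg μ x) :=
    Finset.sum_nonneg fun x _ => mul_nonneg (ht x) (le_min zero_le_one (hdg x))
  cases n with
  | zero =>
    simp only [Finset.range_zero, Finset.sum_empty]
    have := ht a
    linarith
  | succ n =>
    rw [Finset.sum_range_succ']
    have h7 : (Op μ)^[0] (fun _ u => t u) ∅ a = t a := rfl
    rw [h7]
    -- indicator of x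
    set δ : V → Finset V → V → ℝ := fun x _ u => if u = x then 1 else 0 with hδ
    have e1 : (fun (_ : Finset V) (u : V) => t u) = fun A u => ∑ x, t x * δ x A u := by
      funext A u
      simp [hδ]
    have e2 : ∀ k, (Op μ)^[k + 1] (fun _ u => t u) ∅ a
        = ∑ x, t x * (Op μ)^[k + 1] (δ x) ∅ a := by
      intro k
      rw [e1, Op_eq_TW, TW_sum _ Finset.univ (fun x A u => t x * δ x A u)]
      refine Finset.sum_congr rfl fun x _ => ?_
      rw [TW_smul _ (t x) (δ x)]
    simp only [e2]
    rw [Finset.sum_comm]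
    have key : ∀ x, ∑ k ∈ range n, (Op μ)^[k + 1] (δ x) ∅ a ≤ 3 * min 1 (dg μ x) := by
      intro x
      have b1 : ∑ k ∈ range n, (Op μ)^[k + 1] (δ x) ∅ a ≤ 1 := by
        have c1 := hit h (t := fun u => if u = x then 1 else 0)
          (fun y => by split_ifs <;> norm_num) (n + 1) ha
        rw [Finset.sum_range_succ', Finset.compl_empty] at c1
        have c2 : ∑ y : V, (if y = x then (1 : ℝ) else 0) = 1 := by simp
        rw [c2] at c1
        have c3 : 0 ≤ (Op μ)^[0] (fun _ u => if u = x then (1 : ℝ) else 0) ∅ a := by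
          show (0 : ℝ) ≤ if a = x then 1 else 0
          split_ifs <;> norm_num
        linarith
      have b2 : ∑ k ∈ range n, (Op μ)^[k + 1] (δ x) ∅ a ≤ Real.exp 1 * dg μ x := by
        have c1 : ∀ k, (Op μ)^[k + 1] (δ x) ∅ a
            ≤ Real.exp 1 * (Op μ)^[k] (fun _ u => μ u x) ∅ a := by
          intro k
          rw [Function.iterate_succ_apply, Op_eq_TW, ← TW_smul]
          refine TW_mono (hit_w h) ?_ k ha
          intro A u _
          unfold TW
          have c2 : ∑ b ∈ (insert u A)ᶜ, Real.exp (1 - un μ A u) * μ u b * δ x (insert u A) b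
              ≤ ∑ b : V, Real.exp (1 - un μ A u) * μ u b * δ x (insert u A) b := by
            refine Finset.sum_le_sum_of_subset_of_nonneg (Finset.subset_univ _) ?_
            intro b _ _
            refine mul_nonneg (hit_w h A u b) ?_
            show (0 : ℝ) ≤ if b = x then 1 else 0
            split_ifs <;> norm_num
          refine c2.trans ?_
          have c3 : ∑ b : V, Real.exp (1 - un μ A u) * μ u b * δ x (insert u A) b
              = Real.exp (1 - un μ A u) * μ u x := by
            simp [hδ]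
          rw [c3]
          refine mul_le_mul_of_nonneg_right ?_ (h.nonneg _ _)
          exact Real.exp_le_exp.2 (by have := un_nonneg h A u; linarith)
        refine (Finset.sum_le_sum fun k _ => c1 k).trans ?_
        rw [← Finset.mul_sum]
        refine mul_le_mul_of_nonneg_left ?_ (Real.exp_pos _).le
        refine (hit h (t := fun u => μ u x) (fun y => h.nonneg _ _) n ha).trans ?_
        rw [Finset.compl_empty]
        unfold dg
        exact (Finset.sum_congr rfl fun u _ => h.symm u x).le
      have b3 : Real.exp 1 ≤ 3 := by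
        have := Real.exp_one_lt_d9
        linarith
      rcases le_total 1 (dg μ x) with h1 | h1
      · rw [min_eq_left h1]
        linarith
      · rw [min_eq_right h1]
        have := mul_le_mul_of_nonneg_right b3 (hdg x)
        linarith
    have h8 : ∑ x, ∑ k ∈ range n, t x * (Op μ)^[k + 1] (δ x) ∅ a
        ≤ ∑ x, t x * (3 * min 1 (dg μ x)) := by
      refine Finset.sum_le_sum fun x _ => ?_
      rw [← Finset.mul_sum]
      exact mul_le_mul_of_nonneg_left (key x) (ht x)
    have h9 : ∑ x, t x * (3 * min 1 (dg μ x)) = 3 * ∑ x, t x * min 1 (dg μ x) := by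
      rw [Finset.mul_sum]
      exact Finset.sum_congr rfl fun x _ => by ring
    linarith

end

end Pool.Agent.Lib.MP_009d13_co.OD
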