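import Pool.Agent.Lib.MP_009d13_co.OD.Defs
import Pool.Agent.Lib.MP_009d13_co.OD.LS1
import Pool.Agent.Lib.MP_009d13_co.OD.LS2
import Pool.Agent.Lib.MP_009d13_co.OD.LS4
import Pool.Agent.Lib.MP_009d13_co.OD.OPA
import Pool.Agent.Lib.MP_009d13_co.OD.OPC
import Pool.Agent.Lib.MP_009d13_co.OD.POT1
import Pool.Agent.Lib.MP_009d13_co.OD.POT4

/-!
# INB: the walk hits an inner hub, one state
-/

set_option autoImplicit false

namespace Pool.Agent.Lib.MP_009d13_co.OD

open Finset Classical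

noncomputable section

variable {V : Type} [Fintype V]

theorem INB_exp_half : Real.exp (1 / 2) ≤ 2 := by
  have h1 := Real.exp_one_lt_d9
  have h2 : Real.exp (1 / 2) * Real.exp (1 / 2) = Real.exp 1 := by
    rw [← Real.exp_add]
    norm_num
  have h3 := Real.exp_pos (1 / 2)
  nlinarith

theorem INB_num {S0 S1 p0 p1 : ℝ} (hS : S0 ≤ 69 / 10 + S1) (h0 : p0 ≤ 1) (h1 : 0 ≤ p1) :
    -(9 / 50000 * (9 / 10000 * S1 + p1)) ≤ 1 / 2 + -(9 / 50000 * (9 / 10000 * S0 + p0)) := by
  nlinarith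

theorem INB_exp {S0 S1 p0 p1 : ℝ} (hS : S0 ≤ 69 / 10 + S1) (h0 : p0 ≤ 1) (h1 : 0 ≤ p1) :
    Real.exp (-(9 / 50000 * (9 / 10000 * S1 + p1)))
      ≤ 2 * Real.exp (-(9 / 50000 * (9 / 10000 * S0 + p0))) := by
  calc Real.exp (-(9 / 50000 * (9 / 10000 * S1 + p1)))
      ≤ Real.exp (1 / 2 + -(9 / 50000 * (9 / 10000 * S0 + p0))) :=
        Real.exp_le_exp.2 (INB_num hS h0 h1)
    _ = Real.exp (1 / 2) * Real.exp (-(9 / 50000 * (9 / 10000 * S0 + p0))) := Real.exp_add _ _
    _ ≤ 2 * Real.exp (-(9 / 50000 * (9 / 10000 * S0 + p0))) :=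
        mul_le_mul_of_nonneg_right INB_exp_half (Real.exp_pos _).le

theorem INB_sum {μ : V → V → ℝ} (h : Wt μ) (h6 : ∀ v, dg μ v ≤ 6) {B : Finset V} {u c : V}
    (hu : u ∉ B) (hc : c ∉ insert u B) :
    ∑ z ∈ (insert u B)ᶜ, kap (un μ B z)
      ≤ 69 / 10 + ∑ z ∈ (insert c (insert u B))ᶜ, kap (un μ (insert u B) z) := by
  have e1 : (insert u B)ᶜ = insert c (insert c (insert u B))ᶜ := by
    ext z
    simp only [mem_compl, mem_insert]
    by_cases hz : z = c
    · subst hz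
      simpa using hc
    · simp [hz]
  rw [e1, sum_insert (by simp)]
  have h1 : kap (un μ B c) ≤ 9 / 10 := kap_le _
  have h2 : ∀ z ∈ (insert c (insert u B))ᶜ, kap (un μ B z)
      ≤ kap (un μ (insert u B) z) + μ u z := by
    intro z _
    have h3 := un_insert μ hu z
    have h4 := h.nonneg z u
    have h5 : un μ (insert u B) z ≤ un μ B z := by linarith
    have h7 := kap_sub_le h5
    rw [h.symm u z]
    linarith
  have h3 : ∑ z ∈ (insert c (insert u B))ᶜ, kap (un μ B z)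
      ≤ ∑ z ∈ (insert c (insert u B))ᶜ, (kap (un μ (insert u B) z) + μ u z) := sum_le_sum h2
  rw [sum_add_distrib] at h3
  have h4 : ∑ z ∈ (insert c (insert u B))ᶜ, μ u z ≤ dg μ u := un_le_dg h _ u
  have h5 := h6 u
  linarith

theorem INB_EE {μ : V → V → ℝ} (h : Wt μ) (h6 : ∀ v, dg μ v ≤ 6) {B : Finset V} {u c : V}
    (hu : u ∉ B) (hc : c ∉ insert u B) : EE μ (insert u B) c ≤ 2 * EE μ B u := by
  unfold EE
  exact INB_exp (INB_sum h h6 hu hc) (phit_le_one _) (phit_nonneg _)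

theorem INB_en {μ : V → V → ℝ} (h : Wt μ) (h6 : ∀ v, dg μ v ≤ 6) (P : List V) (hP : P ≠ []) :
    ∀ (B : Finset V), (∀ x ∈ P, x ∉ B) → P.Nodup → ∀ c : V, c ∉ B ∪ P.toFinset →
      Real.exp (ms μ (B ∪ P.toFinset)) * EE μ (B ∪ P.toFinset) c
        ≤ 2 * en (fun A u => Real.exp (ms μ A) * EE μ A u) B P := by
  induction P with
  | nil => exact absurd rfl hP
  | cons a T ih =>
    intro B hB hn c hc
    have e1 : B ∪ (a :: T).toFinset = insert a B ∪ T.toFinset := by
      rw [List.toFinset_cons, union_insert, insert_union]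
    have ha : a ∉ B := hB a List.mem_cons_self
    rw [e1] at hc ⊢
    cases T with
    | nil =>
      have e2 : insert a B ∪ ([] : List V).toFinset = insert a B := by simp
      rw [e2] at hc ⊢
      have h1 := INB_EE h h6 ha hc
      have h2 : Real.exp (ms μ (insert a B)) ≤ Real.exp (ms μ B) :=
        Real.exp_le_exp.2 (ms_anti h (subset_insert a B))
      have h3 : 0 ≤ EE μ (insert a B) c := (Real.exp_pos _).le
      have h4 := (Real.exp_pos (ms μ B)).le
      show _ ≤ 2 * (Real.exp (ms μ B) * EE μ B a)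
      calc Real.exp (ms μ (insert a B)) * EE μ (insert a B) c
          ≤ Real.exp (ms μ B) * (2 * EE μ B a) := mul_le_mul h2 h1 h3 h4
        _ = 2 * (Real.exp (ms μ B) * EE μ B a) := by ring
    | cons b T =>
      have hn' := List.nodup_cons.1 hn
      refine ih (by simp) (insert a B) ?_ hn'.2 c hc
      intro x hx hx'
      rcases mem_insert.1 hx' with rfl | hx'
      · exact hn'.1 hx
      · exact hB x (List.mem_cons_of_mem a hx) hx'

theorem INB_en_mul (t : V → ℝ) (g : Finset V → V → ℝ) (P : List V) :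
    ∀ (A : Finset V), en (fun B u => t u * g B u) A P = ls t P * en g A P := by
  induction P with
  | nil => intro A; simp [en, ls, hd]
  | cons a T ih =>
    intro A
    cases T with
    | nil => simp [en, ls, hd]
    | cons b T =>
      have h1 := ih (insert a A)
      have h2 : ls t (a :: b :: T) = ls t (b :: T) :=
        ls_append t [a] (by simp : b :: T ≠ [])
      rw [h2]
      exact h1

omit [Fintype V] in
theorem INB_en_nonneg {g : Finset V → V → ℝ} (hg : ∀ A u, 0 ≤ g A u) (P : List V) :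
    ∀ (A : Finset V), 0 ≤ en g A P := by
  induction P with
  | nil => intro A; simp [en]
  | cons a T ih =>
    intro A
    cases T with
    | nil => exact hg A a
    | cons b T => exact ih (insert a A)

omit [Fintype V] in
theorem INB_ls_one (L : List V) : ls (fun _ : V => (1 : ℝ)) L = 1 := by
  unfold ls
  cases L.reverse <;> rfl

theorem INB_R (μ : V → V → ℝ) (k : ℕ) (B : Finset V) (b : V) :
    ∑ R ∈ NL B (k + 1), pw μ (b :: R)
      = ∑ c ∈ Bᶜ, μ b c * (Pp μ)^[k] (fun _ _ => 1) B c := by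
  rw [sum_NL_succ]
  refine sum_congr rfl fun c hc => ?_
  have h1 := Pp_list_ls μ (fun _ => (1 : ℝ)) k (mem_compl.1 hc)
  rw [h1, mul_sum]
  refine sum_congr rfl fun T _ => ?_
  rw [INB_ls_one, mul_one]
  rfl

/-- The second part of the second path. -/
theorem INB_R_le {μ : V → V → ℝ} (h : Wt μ) (h6 : ∀ v, dg μ v ≤ 6) (k : ℕ) {A : Finset V}
    {b b1 : V} (hb1 : b1 ∉ insert b A) (T : List V)
    (hT : ∀ x ∈ b1 :: T, x ∉ insert b A) (hn : (b1 :: T).Nodup) :
    ∑ R ∈ NL (insert b A ∪ (b1 :: T).toFinset) (k + 1), pw μ (b :: R)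
      ≤ (un μ A b - μ b b1) * (4 * Real.exp (-k)
        * en (fun A u => Real.exp (ms μ A) * EE μ A u) (insert b A) (b1 :: T)) := by
  rw [INB_R]
  obtain ⟨E, hE⟩ : ∃ E, E = en (fun A u => Real.exp (ms μ A) * EE μ A u) (insert b A) (b1 :: T) :=
    ⟨_, rfl⟩
  obtain ⟨B, hB⟩ : ∃ B, B = insert b A ∪ (b1 :: T).toFinset := ⟨_, rfl⟩
  have h1 : ∀ c ∈ Bᶜ, Real.exp (ms μ B) * EE μ B c ≤ 2 * E := by
    intro c hc
    rw [hE, hB]
    exact INB_en h h6 (b1 :: T) (by simp) (insert b A) hT hn c (hB ▸ mem_compl.1 hc)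
  rw [← hE, ← hB]
  have h2 : ∀ c ∈ Bᶜ, μ b c * (Pp μ)^[k] (fun _ _ => 1) B c
      ≤ μ b c * (4 * Real.exp (-k) * E) := by
    intro c hc
    have h3 := ve h h6 k (mem_compl.1 hc)
    have h4 := h1 c hc
    have h5 : 2 * Real.exp (ms μ B - k) * EE μ B c
        = 2 * Real.exp (-k) * (Real.exp (ms μ B) * EE μ B c) := by
      rw [sub_eq_add_neg, Real.exp_add]
      ring
    have h7 : 2 * Real.exp (-k) * (Real.exp (ms μ B) * EE μ B c)
        ≤ 2 * Real.exp (-k) * (2 * E) :=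
      mul_le_mul_of_nonneg_left h4 (by positivity)
    refine mul_le_mul_of_nonneg_left ?_ (h.nonneg b c)
    linarith
  have hE0 : 0 ≤ 4 * Real.exp (-k) * E := by
    have h3 : 0 ≤ E := by
      rw [hE]
      refine INB_en_nonneg (fun A u => ?_) _ _
      unfold EE
      positivity
    positivity
  calc ∑ c ∈ Bᶜ, μ b c * (Pp μ)^[k] (fun _ _ => 1) B c
      ≤ ∑ c ∈ Bᶜ, μ b c * (4 * Real.exp (-k) * E) := sum_le_sum h2
    _ = un μ B b * (4 * Real.exp (-k) * E) := by
        rw [← sum_mul]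
        rfl
    _ ≤ (un μ A b - μ b b1) * (4 * Real.exp (-k) * E) := by
        refine mul_le_mul_of_nonneg_right ?_ hE0
        have hA : b1 ∉ A := fun h0 => hb1 (mem_insert_of_mem h0)
        rw [← un_insert μ hA b]
        refine un_anti h ?_ b
        intro z hz
        rw [hB]
        rcases mem_insert.1 hz with rfl | hz
        · exact mem_union_right _ (by simp)
        · exact mem_union_left _ (mem_insert_of_mem hz)

/-- The paths of the walk of length `k + 1` from `b`. -/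
theorem INB_fix {μ : V → V → ℝ} (h : Wt μ) (h6 : ∀ v, dg μ v ≤ 6) {t : V → ℝ}
    (ht : ∀ y, 0 ≤ t y) (k m : ℕ) (A : Finset V) (b : V) :
    ∑ Q ∈ NL (insert b A) (k + 1), ∑ R ∈ NL (insert b A ∪ Q.toFinset) (m + 1),
        hd t Q * pw μ (Q ++ b :: R)
      ≤ 4 * Real.exp (-m) * ∑ c ∈ (insert b A)ᶜ, μ b c * (un μ A b - μ b c) *
        (Pp μ)^[k] (fun B u => t u * (Real.exp (ms μ B) * EE μ B u)) (insert b A) c := by
  rw [← sum_NL_reverse (insert b A) (k + 1)
    (fun Q => ∑ R ∈ NL (insert b A ∪ Q.toFinset) (m + 1), hd t Q * pw μ (Q ++ b :: R))]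
  rw [sum_NL_succ, mul_sum]
  refine sum_le_sum fun c hc => ?_
  have hc' : c ∉ insert b A := mem_compl.1 hc
  rw [Pp_list μ _ k hc', mul_sum, mul_sum]
  refine sum_le_sum fun T hT => ?_
  have hT' := mem_NL.1 hT
  have hmem : ∀ x ∈ c :: T, x ∉ insert b A := by
    intro x hx
    rcases List.mem_cons.1 hx with rfl | hx
    · exact hc'
    · exact fun h0 => hT'.2.2 x hx (mem_insert_of_mem h0)
  have hnd : (c :: T).Nodup :=
    List.nodup_cons.2 ⟨fun h0 => hT'.2.2 c h0 (mem_insert_self _ _), hT'.2.1⟩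
  rw [INB_en_mul t (fun B u => Real.exp (ms μ B) * EE μ B u)]
  have h1 := INB_R_le h h6 m hc' T hmem hnd
  have h2 : ∑ R ∈ NL (insert b A ∪ (c :: T).reverse.toFinset) (m + 1),
      hd t (c :: T).reverse * pw μ ((c :: T).reverse ++ b :: R)
      = ls t (c :: T) * (μ b c * pw μ (c :: T))
        * ∑ R ∈ NL (insert b A ∪ (c :: T).toFinset) (m + 1), pw μ (b :: R) := by
    rw [List.toFinset_reverse, mul_sum]
    refine sum_congr rfl fun R _ => ?_
    have h3 : (c :: T).reverse ++ [b] = (b :: c :: T).reverse := by simp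
    rw [pw_append, h3, pw_reverse μ h.symm]
    show hd t (c :: T).reverse * (μ b c * pw μ (c :: T) * pw μ (b :: R)) = _
    unfold ls
    ring
  have h3 : 0 ≤ ls t (c :: T) * (μ b c * pw μ (c :: T)) :=
    mul_nonneg (ls_nonneg ht _) (mul_nonneg (h.nonneg b c) (pw_nonneg μ h.nonneg _))
  calc _ = ls t (c :: T) * (μ b c * pw μ (c :: T))
        * ∑ R ∈ NL (insert b A ∪ (c :: T).toFinset) (m + 1), pw μ (b :: R) := h2
    _ ≤ ls t (c :: T) * (μ b c * pw μ (c :: T)) * ((un μ A b - μ b c) * (4 * Real.exp (-m)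
        * en (fun A u => Real.exp (ms μ A) * EE μ A u) (insert b A) (c :: T))) :=
        mul_le_mul_of_nonneg_left h1 h3
    _ = _ := by ring

theorem INB_conj {μ : V → V → ℝ} (h : Wt μ) (t : V → ℝ) (k : ℕ) {A : Finset V} {c : V}
    (hc : c ∉ A) :
    (Pp μ)^[k] (fun B u => t u * (Real.exp (ms μ B) * EE μ B u)) A c
      = Real.exp (ms μ A - k) * (Op μ)^[k] (fun B u => t u * EE μ B u) A c := by
  rw [Pp_conj h _ k hc]
  have e1 : (fun (B : Finset V) (u : V) =>
      Real.exp (-ms μ B) * (t u * (Real.exp (ms μ B) * EE μ B u)))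
      = fun B u => t u * EE μ B u := by
    funext B u
    have h1 : Real.exp (-ms μ B) * Real.exp (ms μ B) = 1 := by
      rw [← Real.exp_add, neg_add_cancel, Real.exp_zero]
    calc Real.exp (-ms μ B) * (t u * (Real.exp (ms μ B) * EE μ B u))
        = (Real.exp (-ms μ B) * Real.exp (ms μ B)) * (t u * EE μ B u) := by ring
      _ = t u * EE μ B u := by rw [h1, one_mul]
  rw [e1]

theorem INB_num2 {j k : ℕ} (hk : k + 3 ≤ j) (M : ℝ) :
    Real.exp (-((j - 3 - k : ℕ) : ℝ)) * Real.exp (M - k) = Real.exp (M + 3 - j) := by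
  rw [← Real.exp_add]
  congr 1
  have h1 : ((j - 3 - k : ℕ) : ℝ) = (j : ℝ) - 3 - k := by
    rw [Nat.cast_sub (by omega), Nat.cast_sub (by omega)]
    norm_num
  rw [h1]
  ring

theorem INB_main {μ : V → V → ℝ} (h : Wt μ) (h6 : ∀ v, dg μ v ≤ 6) {t : V → ℝ}
    (ht : ∀ y, 0 ≤ t y) (j : ℕ) (A : Finset V) (b : V) :
    In μ t j A b ≤ 4 * Real.exp (ms μ (insert b A) + 3 - j) * ((∑ y, t y) *
      ∑ c ∈ (insert b A)ᶜ, μ b c * ((un μ A b - μ b c) * EE μ (insert b A) c)) := by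
  have hA : ∀ c ∈ (insert b A)ᶜ, 0 ≤ μ b c * (un μ A b - μ b c) := by
    intro c hc
    have h1 : c ∉ A := fun h0 => (mem_compl.1 hc) (mem_insert_of_mem h0)
    have h2 := le_un h h1 (v := b)
    exact mul_nonneg (h.nonneg b c) (by linarith)
  have h1 : In μ t j A b ≤ ∑ i ∈ Ico 1 (j - 1), 4 * Real.exp (ms μ (insert b A) + 3 - j) *
      ∑ c ∈ (insert b A)ᶜ, μ b c * (un μ A b - μ b c) *
        (Op μ)^[i - 1] (fun B u => t u * EE μ B u) (insert b A) c := by
    unfold In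
    refine sum_le_sum fun i hi => ?_
    have hi' := mem_Ico.1 hi
    obtain ⟨k, rfl⟩ : ∃ k, i = k + 1 := ⟨i - 1, by omega⟩
    have e1 : j - 1 - (k + 1) = (j - 3 - k) + 1 := by omega
    rw [e1]
    refine (INB_fix h h6 ht k (j - 3 - k) A b).trans (le_of_eq ?_)
    rw [← INB_num2 (by omega : k + 3 ≤ j), Nat.add_sub_cancel, mul_assoc 4, mul_assoc 4,
      mul_assoc (Real.exp _)]
    congr 2
    rw [mul_sum]
    refine sum_congr rfl fun c hc => ?_
    rw [INB_conj h t k (mem_compl.1 hc)]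
    ring
  refine h1.trans ?_
  rw [← mul_sum]
  refine mul_le_mul_of_nonneg_left ?_ (by positivity)
  rw [sum_comm, mul_sum]
  refine sum_le_sum fun c hc => ?_
  have h2 : ∑ i ∈ Ico 1 (j - 1), (Op μ)^[i - 1] (fun B u => t u * EE μ B u) (insert b A) c
      = ∑ k ∈ range (j - 2), (Op μ)^[k] (fun B u => t u * EE μ B u) (insert b A) c := by
    rw [sum_Ico_eq_sum_range]
    have e2 : j - 1 - 1 = j - 2 := by omega
    rw [e2]
    refine sum_congr rfl fun k _ => ?_
    rw [Nat.add_sub_cancel_left]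
  rw [← mul_sum, h2]
  have h3 := nc0 h h6 ht (j - 2) (mem_compl.1 hc)
  have h4 : ∑ y ∈ (insert b A)ᶜ, t y ≤ ∑ y, t y :=
    sum_le_sum_of_subset_of_nonneg (subset_univ _) fun y _ _ => ht y
  have h5 : 0 ≤ EE μ (insert b A) c := (Real.exp_pos _).le
  have h7 := mul_le_mul_of_nonneg_right h4 h5
  calc μ b c * (un μ A b - μ b c) *
        ∑ k ∈ range (j - 2), (Op μ)^[k] (fun B u => t u * EE μ B u) (insert b A) c
      ≤ μ b c * (un μ A b - μ b c) * ((∑ y, t y) * EE μ (insert b A) c) :=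
        mul_le_mul_of_nonneg_left (h3.trans h7) (hA c hc)
    _ = _ := by ring

/-! ### INB (uses LS OPA OPB OPC POT4 JL) : the walk hits an inner hub, one state -/
theorem in_le {μ : V → V → ℝ} (h : Wt μ) (h6 : ∀ v, dg μ v ≤ 6) {t : V → ℝ}
    (ht : ∀ y, 0 ≤ t y) (j : ℕ) {A : Finset V} {b : V} (hb : b ∉ A) :
    In μ t j A b ≤ 4 * Real.exp (2 - j) * (∑ y, t y) * Real.exp (ms μ A) * K1 μ A b := by
  refine (INB_main h h6 ht j A b).trans (le_of_eq ?_)
  unfold K1
  have h1 : Real.exp (ms μ (insert b A) + 3 - j)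
      = Real.exp (2 - j) * Real.exp (ms μ A) * Real.exp (1 - un μ A b) := by
    rw [← Real.exp_add, ← Real.exp_add, ms_insert h hb]
    congr 1
    ring
  rw [h1]
  ring

end

end Pool.Agent.Lib.MP_009d13_co.OD
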