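import Pool.Agent.Lib.MP_009d13_co.OD.EI

/-! # OD, module KE: mass added to a class -/

set_option autoImplicit false

namespace Pool.Agent.Lib.MP_009d13_co.OD

open Finset Classical

noncomputable section

variable {V : Type} [Fintype V]

theorem KE_hd_mono {f g : V → ℝ} (h : ∀ a, f a ≤ g a) (L : List V) : hd f L ≤ hd g L := by
  cases L with
  | nil => exact le_rfl
  | cons a t => exact h a

theorem KE_ls_mono {f g : V → ℝ} (h : ∀ a, f a ≤ g a) (L : List V) : ls f L ≤ ls g L :=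
  KE_hd_mono h L.reverse

theorem KE_ao_mono {μ μ' : V → V → ℝ} {d d' : V → ℝ} (h0 : ∀ a b, 0 ≤ μ a b)
    (h : ∀ a b, μ a b ≤ μ' a b) (hd0 : ∀ a, 0 ≤ d a) (hdd : ∀ a, d a ≤ d' a) (l : ℕ) :
    Ao μ d l ≤ Ao μ' d' l := by
  refine Finset.sum_le_sum fun L _ => ?_
  have h1 : 0 ≤ pw μ L := pw_nonneg μ h0 L
  have h2 := pw_mono h0 h L
  have h3 := KE_ls_mono hdd L
  have h4 : 0 ≤ ls d L := ls_nonneg hd0 L
  exact mul_le_mul h2 h3 h4 (h1.trans h2)

theorem KE_cc_mono {μ μ' : V → V → ℝ} {d d' : V → ℝ} {e : V → V → ℝ} (h0 : ∀ a b, 0 ≤ μ a b)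
    (h : ∀ a b, μ a b ≤ μ' a b) (hd0 : ∀ a, 0 ≤ d a) (hdd : ∀ a, d a ≤ d' a)
    (he : ∀ a b, 0 ≤ e a b) (N : ℕ) : CC μ d e d N ≤ CC μ' d' e d' N := by
  refine Finset.sum_le_sum fun i _ => Finset.sum_le_sum fun P _ => Finset.sum_le_sum fun Q _ => ?_
  have a1 : 0 ≤ hd d P := hd_nonneg hd0 P
  have a2 : 0 ≤ pw μ P := pw_nonneg μ h0 P
  have a3 : 0 ≤ pw μ Q := pw_nonneg μ h0 Q
  have a4 : 0 ≤ ls d Q := ls_nonneg hd0 Q
  have a5 : 0 ≤ ls (fun a => hd (e a) Q) P := ls_nonneg (fun u => hd_nonneg (fun w => he u w) Q) P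
  have b1 := KE_hd_mono hdd P
  have b2 := pw_mono h0 h P
  have b3 := pw_mono h0 h Q
  have b4 := KE_ls_mono hdd Q
  have c1 : hd d P * pw μ P ≤ hd d' P * pw μ' P := mul_le_mul b1 b2 a2 (a1.trans b1)
  have c2 : hd d P * pw μ P * ls (fun a => hd (e a) Q) P ≤
      hd d' P * pw μ' P * ls (fun a => hd (e a) Q) P := mul_le_mul_of_nonneg_right c1 a5
  have c3 := mul_le_mul c2 b3 a3 ((mul_nonneg (mul_nonneg a1 a2) a5).trans c2)
  exact mul_le_mul c3 b4 a4
    ((mul_nonneg (mul_nonneg (mul_nonneg a1 a2) a5) a3).trans c3)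

theorem KE_dg_ad (μ : V → V → ℝ) {x y : V} (hxy : x ≠ y) (η : ℝ) (v : V) :
    dg (ad μ x y η) v = dg μ v + (if v = x then η else 0) + if v = y then η else 0 := by
  rw [dg, dg]
  have h1 : ∀ b, ad μ x y η v b = μ v b + ((if b = y then (if v = x then η else 0) else 0) +
      if b = x then (if v = y then η else 0) else 0) := by
    intro b
    rw [ad]
    congr 1
    by_cases h1 : v = x
    · have h2 : v ≠ y := fun h => hxy (h1.symm.trans h)
      by_cases h3 : b = y <;> simp [h1, h3, hxy]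
    · by_cases h2 : v = y
      · by_cases h3 : b = x <;> simp [h2, h3, hxy.symm]
      · simp [h1, h2]
  rw [Finset.sum_congr rfl fun b _ => h1 b, Finset.sum_add_distrib, Finset.sum_add_distrib]
  simp [add_assoc]

theorem fo_ad {μ : V → V → ℝ} (h : Wt μ) {e : V → V → ℝ} (he : ∀ a b, 0 ≤ e a b) {l : ℕ}
    (hl : 2 ≤ l) {x y : V} (hxy : x ≠ y) {η : ℝ} (hη : 0 ≤ η) :
    Fo μ e l + 4 * (l + 1) * η * (So μ (dg μ) l x y + En μ (dg μ) l x + En μ (dg μ) l y)
      ≤ Fo (ad μ x y η) e l := by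
  have hdg0 : ∀ v, 0 ≤ dg μ v := fun v => Finset.sum_nonneg fun b _ => h.nonneg v b
  have hdg : dg (ad μ x y η) = fun v => dg μ v + (if v = x then η else 0) +
      if v = y then η else 0 := by
    ext v
    exact KE_dg_ad μ hxy η v
  have hle : ∀ a b, μ a b ≤ ad μ x y η a b := by
    intro a b
    rw [ad]
    split_ifs
    · linarith
    · linarith
  have hdle : ∀ v, dg μ v ≤ dg μ v + (if v = x then η else 0) + if v = y then η else 0 := by
    intro v
    split_ifs <;> linarith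
  have h1 := wo_ad h hdg0 hl hxy hη hη hη
  have h2 := KE_ao_mono h.nonneg hle hdg0 hdle l
  have h3 := KE_cc_mono h.nonneg hle hdg0 hdle he (l + 1)
  rw [Fo, Fo, Fd, Fd, hdg]
  have hl0 : (0 : ℝ) ≤ 2 * ((l : ℝ) + 1) := by positivity
  have h4 := mul_le_mul_of_nonneg_left h1 hl0
  nlinarith

end

end Pool.Agent.Lib.MP_009d13_co.OD
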