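import Pool.Agent.Lib.MP_009d13_co.OD.KD6
import Pool.Agent.Lib.MP_009d13_co.OD.KE
import Pool.Agent.Lib.MP_009d13_co.OD.EM

/-!
# KSS: the number of structures through a class of a maximiser
-/

set_option autoImplicit false

namespace Pool.Agent.Lib.MP_009d13_co.OD

open Finset Classical

noncomputable section

variable {V : Type} [Fintype V]

/-- adding mass to a class of a maximiser -/
theorem kss_ad {μ : V → V → ℝ} {e : V → V → ℝ} (he : ∀ a b, 0 ≤ e a b) {l : ℕ} (hl : 1 ≤ l)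
    {lam δ : ℝ} (hlam : 0 ≤ lam) (hlam1 : lam ≤ 1) (hM : Mx μ e l lam δ) {x y : V}
    (hxy : x ≠ y) {η : ℝ} (hη : 0 ≤ η) :
    Fo (ad μ x y η) e l ≤ Real.exp ((l + 1 : ℕ) * (η / l)) * (Fo μ e l + 4 * η) := by
  have hW := hM.1
  have hm := hM.2.1
  have hl0 : (0 : ℝ) < l := by exact_mod_cast hl
  have h1 := mx_sup he hl hlam hM (wt_ad hW hxy hη)
  rw [ms_ad μ hxy, dist_ad μ hxy hη, hm] at h1
  have h2 : ((l : ℝ) + η) / l = 1 + η / l := by
    field_simp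
  rw [h2] at h1
  have hF := fo_nonneg hW he l
  have h4 := kd6_pow (by positivity : 0 ≤ 1 + η / l) (l + 1)
  have h6 : Fo μ e l + 2 * lam * (2 * η) ≤ Fo μ e l + 4 * η := by
    nlinarith
  refine h1.trans (mul_le_mul h4 h6 ?_ (Real.exp_pos _).le)
  have h7 : 0 ≤ lam * η := mul_nonneg hlam hη
  linarith

theorem kss_exp {u : ℝ} (h0 : 0 ≤ u) (h1 : u ≤ 1) : Real.exp u ≤ 1 + u + u ^ 2 := by
  have h2 := Real.abs_exp_sub_one_sub_id_le (x := u) (by rw [abs_of_nonneg h0]; exact h1)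
  have h3 := (abs_le.1 h2).2
  linarith

theorem mx_class {μ : V → V → ℝ} {e : V → V → ℝ} (he : Sp e) {l : ℕ} (hl : 1000 ≤ l)
    {lam δ : ℝ} (hlam : 0 ≤ lam) (hlam1 : lam ≤ 1) (hM : Mx μ e l lam δ)
    (hF : 16 * (l : ℝ) ^ 2 ≤ Fo μ e l) {x y : V} (hxy : x ≠ y) :
    So μ (dg μ) l x y + En μ (dg μ) l x + En μ (dg μ) l y
      ≤ 101 / 100 * (Fo μ e l / (4 * l)) := by
  have hW := hM.1
  have hl0 : (1000 : ℝ) ≤ l := by exact_mod_cast hl
  obtain ⟨T, hT⟩ : ∃ T, T = So μ (dg μ) l x y + En μ (dg μ) l x + En μ (dg μ) l y := ⟨_, rfl⟩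
  obtain ⟨F, hFd⟩ : ∃ F, F = Fo μ e l := ⟨_, rfl⟩
  obtain ⟨L, hL⟩ : ∃ L : ℝ, L = l := ⟨_, rfl⟩
  obtain ⟨η, hη⟩ : ∃ η : ℝ, η = 1 / L ^ 2 := ⟨_, rfl⟩
  have hL0 : 1000 ≤ L := by rw [hL]; exact hl0
  have hLp : 0 < L := by linarith
  have hη0 : 0 < η := by
    rw [hη]
    positivity
  have h1 := fo_ad hW he.nonneg (by omega : 2 ≤ l) hxy hη0.le
  have h2 := kss_ad he.nonneg (by omega : 1 ≤ l) hlam hlam1 hM hxy hη0.le
  rw [← hT, ← hFd, ← hL] at h1
  rw [← hFd, ← hL] at h2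
  rw [← hT, ← hFd, ← hL]
  rw [← hFd, ← hL] at hF
  push_cast at h2
  rw [← hL] at h2
  obtain ⟨u, hu⟩ : ∃ u, u = (L + 1) * (η / L) := ⟨_, rfl⟩
  rw [← hu] at h2
  have hηL : η * L ^ 2 = 1 := by
    rw [hη]
    field_simp
  have hu0 : 0 ≤ u := by
    rw [hu]
    positivity
  have huL : u * L = (L + 1) * η := by
    rw [hu]
    field_simp
  have hη1 : η ≤ 1 / 1000 := by
    rw [hη]
    apply one_div_le_one_div_of_le (by norm_num)
    nlinarith
  have hu1 : u ≤ 2 * η := by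
    have h3 : (L + 1) * η ≤ 2 * η * L := by nlinarith
    rw [← huL] at h3
    exact le_of_mul_le_mul_right h3 hLp
  have hexp := kss_exp hu0 (by linarith)
  have hF0 : 0 < F := by
    have : 0 < 16 * L ^ 2 := by positivity
    linarith
  have h4 : Real.exp u * (F + 4 * η) ≤ (1 + u + u ^ 2) * (F + 4 * η) :=
    mul_le_mul_of_nonneg_right hexp (by linarith)
  have h5 : F + 4 * (L + 1) * η * T ≤ (1 + u + u ^ 2) * (F + 4 * η) := h1.trans (h2.trans h4)
  -- divide by `4 (L + 1) η = 4 u L`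
  have h6 : 4 * (L + 1) * η = 4 * (u * L) := by rw [huL]; ring
  have h7 : 4 * (u * L) * T ≤ u * (1 + u) * F + 8 * η := by
    have h8 : (1 + u + u ^ 2) * (4 * η) ≤ 8 * η := by
      have h9 : 1 + u + u ^ 2 ≤ 2 := by nlinarith
      nlinarith
    rw [h6] at h5
    nlinarith
  have hηu : η ≤ u := by
    have h8 : η * L ≤ u * L := by
      rw [huL]
      nlinarith
    exact le_of_mul_le_mul_right h8 hLp
  have hup : 0 < u := by linarith
  have h8 : 4 * (u * L) * T ≤ u * ((1 + u) * F + 8) := by nlinarith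
  have h9 : 4 * L * T ≤ (1 + u) * F + 8 := by
    have h10 : u * (4 * L * T) ≤ u * ((1 + u) * F + 8) := by
      calc u * (4 * L * T) = 4 * (u * L) * T := by ring
        _ ≤ _ := h8
    exact le_of_mul_le_mul_left h10 hup
  have h10 : (1 + u) * F + 8 ≤ 101 / 100 * F := by
    have h11 : (8 : ℝ) ≤ 1 / 1000 * F := by nlinarith
    have h12 : u * F ≤ 2 / 1000 * F := mul_le_mul_of_nonneg_right (by linarith) hF0.le
    linarith
  have h11 : 101 / 100 * (F / (4 * L)) = (101 / 100 * F) / (4 * L) := by ring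
  rw [h11, le_div_iff₀ (by positivity)]
  linarith

end

end Pool.Agent.Lib.MP_009d13_co.OD
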