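import Pool.Agent.Lib.MP_009d13_co.OD.LS1
import Pool.Agent.Lib.MP_009d13_co.OD.LS4
import Pool.Agent.Lib.MP_009d13_co.OD.BR

set_option autoImplicit false
set_option linter.unusedSectionVars false

namespace Pool.Agent.Lib.MP_009d13_co.OD

open Finset Classical

noncomputable section

variable {V : Type} [Fintype V]

/-! ### KU : how often a hub is used -/

theorem ku_sc_nonneg {μ : V → V → ℝ} (h : Wt μ) (z : V) {c : ℝ} (hc : 0 ≤ c) (a b : V) :
    0 ≤ sc μ z c a b := by
  unfold sc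
  split_ifs
  · exact mul_nonneg hc (h.nonneg _ _)
  · exact h.nonneg _ _

theorem ku_sc_symm {μ : V → V → ℝ} (h : Wt μ) (z : V) (c : ℝ) (a b : V) :
    sc μ z c a b = sc μ z c b a := by
  unfold sc
  rw [h.symm a b]
  have : (a = z ∨ b = z) ↔ (b = z ∨ a = z) := or_comm
  simp only [this]

theorem ku_sc_ge {μ : V → V → ℝ} (h : Wt μ) (z : V) {c : ℝ} (hc : 1 ≤ c) (a b : V) :
    μ a b ≤ sc μ z c a b := by
  unfold sc
  split_ifs
  · exact le_mul_of_one_le_left (h.nonneg _ _) hc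
  · exact le_rfl

theorem ku_dg_ge {μ : V → V → ℝ} (h : Wt μ) (z : V) {c : ℝ} (hc : 1 ≤ c) (a : V) :
    dg μ a ≤ dg (sc μ z c) a := by
  unfold dg
  exact Finset.sum_le_sum fun b _ => ku_sc_ge h z hc a b

theorem ku_dg_z (μ : V → V → ℝ) (z : V) (c : ℝ) : dg (sc μ z c) z = c * dg μ z := by
  unfold dg sc
  simp only [true_or, if_true, Finset.mul_sum]

theorem ku_dg_nonneg {μ : V → V → ℝ} (h : Wt μ) (a : V) : 0 ≤ dg μ a := by
  unfold dg
  exact Finset.sum_nonneg fun b _ => h.nonneg _ _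

theorem ku_dg0_nonneg {μ : V → V → ℝ} (h : Wt μ) (z a : V) : 0 ≤ dg (sc μ z 0) a := by
  unfold dg
  exact Finset.sum_nonneg fun b _ => ku_sc_nonneg h z le_rfl _ _

theorem ku_dg0 {μ : V → V → ℝ} (h : Wt μ) {z a : V} (ha : a ≠ z) :
    dg (sc μ z 0) a = dg μ a - μ z a := by
  unfold dg sc
  have h1 : ∀ b, (if a = z ∨ b = z then 0 * μ a b else μ a b)
      = μ a b - (if b = z then μ a b else 0) := by
    intro b
    by_cases hb : b = z
    · simp [hb]
    · simp [ha, hb]
  simp only [h1, Finset.sum_sub_distrib, Finset.sum_ite_eq', Finset.mem_univ, if_true]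
  rw [h.symm a z]

/-- A list that avoids `z` keeps its weight. -/
theorem ku_pw_avoid (μ : V → V → ℝ) (z : V) (c : ℝ) (L : List V) (hL : z ∉ L) :
    pw (sc μ z c) L = pw μ L := by
  induction L with
  | nil => rfl
  | cons a T ih =>
    cases T with
    | nil => rfl
    | cons b T =>
      have h1 : z ∉ b :: T := fun h => hL (List.mem_cons_of_mem _ h)
      have ha : a ≠ z := fun h => hL (by rw [h]; exact List.mem_cons_self)
      have hb : b ≠ z := fun h => h1 (by rw [h]; exact List.mem_cons_self)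
      show sc μ z c a b * pw (sc μ z c) (b :: T) = μ a b * pw μ (b :: T)
      rw [ih h1]
      unfold sc
      rw [if_neg (by simp [ha, hb])]

theorem ku_pw_ge {μ : V → V → ℝ} (h : Wt μ) (z : V) {c : ℝ} (hc : 1 ≤ c) (L : List V) :
    pw μ L ≤ pw (sc μ z c) L := pw_mono h.nonneg (ku_sc_ge h z hc) L

/-- A nonempty path starting at `z`. -/
theorem ku_pw_cons {μ : V → V → ℝ} (h : Wt μ) (z : V) {c : ℝ} (hc : 1 ≤ c) {Q : List V}
    (hQ : Q ≠ []) : c * pw μ (z :: Q) ≤ pw (sc μ z c) (z :: Q) := by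
  cases Q with
  | nil => exact absurd rfl hQ
  | cons b T =>
    show c * (μ z b * pw μ (b :: T)) ≤ sc μ z c z b * pw (sc μ z c) (b :: T)
    have h1 : sc μ z c z b = c * μ z b := by unfold sc; simp
    rw [h1, ← mul_assoc]
    exact mul_le_mul_of_nonneg_left (ku_pw_ge h z hc _)
      (mul_nonneg (by linarith) (h.nonneg _ _))

theorem ku_pw_snoc {μ : V → V → ℝ} (h : Wt μ) (z : V) {c : ℝ} (hc : 1 ≤ c) {P : List V}
    (hP : P ≠ []) : c * pw μ (P ++ [z]) ≤ pw (sc μ z c) (P ++ [z]) := by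
  rw [← pw_reverse μ h.symm, ← pw_reverse (sc μ z c) (ku_sc_symm h z c), List.reverse_append]
  exact ku_pw_cons h z hc (by simpa using hP)

theorem ku_hd_ge {g g' : V → ℝ} (hg : ∀ a, g a ≤ g' a) (L : List V) : hd g L ≤ hd g' L := by
  cases L with
  | nil => exact le_rfl
  | cons a T => exact hg a

theorem ku_ls_ge {g g' : V → ℝ} (hg : ∀ a, g a ≤ g' a) (L : List V) : ls g L ≤ ls g' L :=
  ku_hd_ge hg _

/-- Path starting at `z` with a degree at the end. -/
theorem ku_Y {μ : V → V → ℝ} (h : Wt μ) (z : V) {c : ℝ} (hc : 1 ≤ c) (Q : List V) :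
    c * (pw μ (z :: Q) * ls (dg μ) (z :: Q))
      ≤ pw (sc μ z c) (z :: Q) * ls (dg (sc μ z c)) (z :: Q) := by
  by_cases hQ : Q = []
  · subst hQ
    show c * (1 * dg μ z) ≤ 1 * dg (sc μ z c) z
    rw [ku_dg_z]
    linarith
  · rw [← mul_assoc]
    apply mul_le_mul (ku_pw_cons h z hc hQ) (ku_ls_ge (ku_dg_ge h z hc) _)
      (ls_nonneg (ku_dg_nonneg h) _)
    exact pw_nonneg _ (ku_sc_nonneg h z (by linarith)) _

theorem ku_X {μ : V → V → ℝ} (h : Wt μ) (z : V) {c : ℝ} (hc : 1 ≤ c) (P : List V) :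
    c * (hd (dg μ) (P ++ [z]) * pw μ (P ++ [z]))
      ≤ hd (dg (sc μ z c)) (P ++ [z]) * pw (sc μ z c) (P ++ [z]) := by
  have h1 := ku_Y h z hc P.reverse
  have h2 : z :: P.reverse = (P ++ [z]).reverse := by simp
  rw [h2, pw_reverse μ h.symm, pw_reverse (sc μ z c) (ku_sc_symm h z c), ls_reverse,
    ls_reverse] at h1
  linarith

theorem ku_hd_mid (g : V → ℝ) (P : List V) (z : V) (Q : List V) :
    hd g (P ++ z :: Q) = hd g (P ++ [z]) := by
  cases P <;> rfl

theorem ku_ls_mid (g : V → ℝ) (P : List V) (z : V) (Q : List V) :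
    ls g (P ++ z :: Q) = ls g (z :: Q) := ls_append g P (by simp)

theorem ku_hd0 {μ : V → V → ℝ} (h : Wt μ) {z : V} {L : List V} (hL : L ≠ []) (hz : z ∉ L) :
    hd (dg (sc μ z 0)) L = hd (dg μ) L - hd (μ z) L := by
  cases L with
  | nil => exact absurd rfl hL
  | cons a T =>
    exact ku_dg0 h (fun e => hz (by rw [e]; exact List.mem_cons_self))

theorem ku_ls0 {μ : V → V → ℝ} (h : Wt μ) {z : V} {L : List V} (hL : L ≠ []) (hz : z ∉ L) :
    ls (dg (sc μ z 0)) L = ls (dg μ) L - ls (μ z) L :=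
  ku_hd0 h (by simpa using hL) (by simpa using hz)

/-- Lists counted by `Wo`. -/
theorem ku_W {μ : V → V → ℝ} (h : Wt μ) (z : V) {s : ℝ} (hs : 0 ≤ s) {L : List V} (hL : L ≠ []) :
    0 ≤ hd (dg (sc μ z (1 + s))) L * pw (sc μ z (1 + s)) L * ls (dg (sc μ z (1 + s))) L
      - (hd (dg μ) L * pw μ L * ls (dg μ) L
        + (2 * s + s ^ 2) * (hd (dg μ) L * pw μ L * ls (dg μ) L
          - hd (dg (sc μ z 0)) L * pw (sc μ z 0) L * ls (dg (sc μ z 0)) L
          - hd (μ z) L * pw μ L * ls (dg μ) L - hd (dg μ) L * pw μ L * ls (μ z) L)) := by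
  have hc : 1 ≤ 1 + s := by linarith
  have n1 := hd_nonneg (ku_dg_nonneg h) L
  have n2 := ls_nonneg (ku_dg_nonneg h) L
  have n3 := pw_nonneg μ h.nonneg L
  have n4 := hd_nonneg (fun a => h.nonneg z a) L
  have n5 := ls_nonneg (fun a => h.nonneg z a) L
  have n6 := hd_nonneg (ku_dg0_nonneg h z) L
  have n7 := ls_nonneg (ku_dg0_nonneg h z) L
  have n8 := pw_nonneg (sc μ z 0) (ku_sc_nonneg h z le_rfl) L
  have g1 := ku_hd_ge (ku_dg_ge h z hc) L
  have g2 := ku_ls_ge (ku_dg_ge h z hc) L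
  have g3 := ku_pw_ge h z hc L
  have hT0 : 0 ≤ hd (dg (sc μ z 0)) L * pw (sc μ z 0) L * ls (dg (sc μ z 0)) L := by positivity
  have hC1 : 0 ≤ hd (μ z) L * pw μ L * ls (dg μ) L := by positivity
  have hC2 : 0 ≤ hd (dg μ) L * pw μ L * ls (μ z) L := by positivity
  have hT : 0 ≤ hd (dg μ) L * pw μ L * ls (dg μ) L := by positivity
  have hk : 0 ≤ 2 * s + s ^ 2 := by positivity
  by_cases hz : z ∈ L
  · obtain ⟨P, Q, rfl⟩ := List.append_of_mem hz
    have e1 : (1 + s) ^ 2 * (hd (dg μ) (P ++ z :: Q) * pw μ (P ++ z :: Q)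
        * ls (dg μ) (P ++ z :: Q))
        ≤ hd (dg (sc μ z (1 + s))) (P ++ z :: Q) * pw (sc μ z (1 + s)) (P ++ z :: Q)
          * ls (dg (sc μ z (1 + s))) (P ++ z :: Q) := by
      rw [ku_hd_mid (dg μ) P z Q, ku_hd_mid (dg (sc μ z (1 + s))) P z Q, ku_ls_mid, ku_ls_mid,
        pw_append μ P z Q, pw_append (sc μ z (1 + s)) P z Q]
      have x1 := ku_X h z hc P
      have y1 := ku_Y h z hc Q
      have x0 : 0 ≤ hd (dg μ) (P ++ [z]) * pw μ (P ++ [z]) :=
        mul_nonneg (hd_nonneg (ku_dg_nonneg h) _) (pw_nonneg _ h.nonneg _)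
      have y0 : 0 ≤ pw μ (z :: Q) * ls (dg μ) (z :: Q) :=
        mul_nonneg (pw_nonneg _ h.nonneg _) (ls_nonneg (ku_dg_nonneg h) _)
      have := mul_le_mul x1 y1 (mul_nonneg (by linarith) y0)
        ((mul_nonneg (by linarith) x0).trans x1)
      linarith
    nlinarith
  · have e1 : hd (dg μ) L * pw μ L * ls (dg μ) L
        ≤ hd (dg (sc μ z (1 + s))) L * pw (sc μ z (1 + s)) L * ls (dg (sc μ z (1 + s))) L :=
      mul_le_mul (mul_le_mul g1 g3 n3 (n1.trans g1)) g2 n2
        (mul_nonneg (n1.trans g1) (n3.trans g3))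
    have e2 : hd (dg μ) L * pw μ L * ls (dg μ) L
        ≤ hd (dg (sc μ z 0)) L * pw (sc μ z 0) L * ls (dg (sc μ z 0)) L
          + hd (μ z) L * pw μ L * ls (dg μ) L + hd (dg μ) L * pw μ L * ls (μ z) L := by
      rw [ku_hd0 h hL hz, ku_ls0 h hL hz, ku_pw_avoid μ z 0 L hz]
      have : 0 ≤ pw μ L * (hd (μ z) L * ls (μ z) L) := by positivity
      nlinarith
    have e3 := mul_nonneg hk (sub_nonneg.2 e2)
    nlinarith

/-- Lists counted by `Ao`. -/
theorem ku_A {μ : V → V → ℝ} (h : Wt μ) (z : V) {s : ℝ} (hs : 0 ≤ s) {L : List V} (hL : L ≠ []) :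
    0 ≤ pw (sc μ z (1 + s)) L * ls (dg (sc μ z (1 + s))) L
      - (pw μ L * ls (dg μ) L
        + (2 * s + s ^ 2) * (pw μ L * ls (dg μ) L
          - pw (sc μ z 0) L * ls (dg (sc μ z 0)) L
          - hd (fun u => if u = z then 1 else 0) L * pw μ L * ls (dg μ) L
          - pw μ L * ls (μ z) L)) := by
  have hc : 1 ≤ 1 + s := by linarith
  have n2 := ls_nonneg (ku_dg_nonneg h) L
  have n3 := pw_nonneg μ h.nonneg L
  have n5 := ls_nonneg (fun a => h.nonneg z a) L
  have n7 := ls_nonneg (ku_dg0_nonneg h z) L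
  have n8 := pw_nonneg (sc μ z 0) (ku_sc_nonneg h z le_rfl) L
  have g2 := ku_ls_ge (ku_dg_ge h z hc) L
  have g3 := ku_pw_ge h z hc L
  have n9 : 0 ≤ hd (fun u => if u = z then (1 : ℝ) else 0) L :=
    hd_nonneg (fun a => by split_ifs <;> norm_num) L
  have hT0 : 0 ≤ pw (sc μ z 0) L * ls (dg (sc μ z 0)) L := by positivity
  have hF : 0 ≤ hd (fun u => if u = z then (1 : ℝ) else 0) L * pw μ L * ls (dg μ) L := by
    positivity
  have hC2 : 0 ≤ pw μ L * ls (μ z) L := by positivity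
  have hT : 0 ≤ pw μ L * ls (dg μ) L := by positivity
  have hk : 0 ≤ 2 * s + s ^ 2 := by positivity
  have e1 : pw μ L * ls (dg μ) L ≤ pw (sc μ z (1 + s)) L * ls (dg (sc μ z (1 + s))) L :=
    mul_le_mul g3 g2 n2 (n3.trans g3)
  by_cases hz : z ∈ L
  · obtain ⟨P, Q, rfl⟩ := List.append_of_mem hz
    by_cases hP : P = []
    · subst hP
      simp only [List.nil_append] at *
      have e2 : hd (fun u => if u = z then (1 : ℝ) else 0) (z :: Q) = 1 := by
        show (if z = z then (1 : ℝ) else 0) = 1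
        simp
      rw [e2, one_mul]
      nlinarith
    · have e2 : (1 + s) ^ 2 * (pw μ (P ++ z :: Q) * ls (dg μ) (P ++ z :: Q))
          ≤ pw (sc μ z (1 + s)) (P ++ z :: Q) * ls (dg (sc μ z (1 + s))) (P ++ z :: Q) := by
        rw [ku_ls_mid, ku_ls_mid, pw_append μ P z Q, pw_append (sc μ z (1 + s)) P z Q]
        have x1 := ku_pw_snoc h z hc hP
        have y1 := ku_Y h z hc Q
        have x0 : 0 ≤ pw μ (P ++ [z]) := pw_nonneg _ h.nonneg _
        have y0 : 0 ≤ pw μ (z :: Q) * ls (dg μ) (z :: Q) :=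
          mul_nonneg (pw_nonneg _ h.nonneg _) (ls_nonneg (ku_dg_nonneg h) _)
        have := mul_le_mul x1 y1 (mul_nonneg (by linarith) y0)
          ((mul_nonneg (by linarith) x0).trans x1)
        linarith
      nlinarith
  · have e2 : pw μ L * ls (dg μ) L
        = pw (sc μ z 0) L * ls (dg (sc μ z 0)) L + pw μ L * ls (μ z) L := by
      rw [ku_ls0 h hL hz, ku_pw_avoid μ z 0 L hz]
      ring
    nlinarith

/-- Pairs counted by `CC`. -/
theorem ku_C {μ : V → V → ℝ} (h : Wt μ) {e : V → V → ℝ} (he : ∀ a b, 0 ≤ e a b) (z : V) {s : ℝ}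
    (hs : 0 ≤ s) {P Q : List V} (hP : P ≠ []) (hQ : Q ≠ []) :
    0 ≤ hd (dg (sc μ z (1 + s))) P * pw (sc μ z (1 + s)) P * ls (fun a => hd (e a) Q) P
        * pw (sc μ z (1 + s)) Q * ls (dg (sc μ z (1 + s))) Q
      - (hd (dg μ) P * pw μ P * ls (fun a => hd (e a) Q) P * pw μ Q * ls (dg μ) Q
        + (2 * s + s ^ 2) * (hd (dg μ) P * pw μ P * ls (fun a => hd (e a) Q) P * pw μ Q
            * ls (dg μ) Q
          - hd (dg (sc μ z 0)) P * pw (sc μ z 0) P * ls (fun a => hd (e a) Q) P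
            * pw (sc μ z 0) Q * ls (dg (sc μ z 0)) Q
          - hd (dg μ) P * pw μ P * ls (fun a => hd ((fun a b => if b = z then e a b else 0) a) Q) P
            * pw μ Q * ls (dg μ) Q
          - hd (dg μ) P * pw μ P * ls (fun a => hd ((fun a b => if a = z then e a b else 0) a) Q) P
            * pw μ Q * ls (dg μ) Q
          - hd (μ z) P * pw μ P * ls (fun a => hd (e a) Q) P * pw μ Q * ls (dg μ) Q
          - hd (dg μ) P * pw μ P * ls (fun a => hd (e a) Q) P * pw μ Q * ls (μ z) Q)) := by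
  have hc : 1 ≤ 1 + s := by linarith
  have n1 := hd_nonneg (ku_dg_nonneg h) P
  have n2 := ls_nonneg (ku_dg_nonneg h) Q
  have n3 := pw_nonneg μ h.nonneg P
  have n3' := pw_nonneg μ h.nonneg Q
  have n4 := hd_nonneg (fun a => h.nonneg z a) P
  have n5 := ls_nonneg (fun a => h.nonneg z a) Q
  have n6 := hd_nonneg (ku_dg0_nonneg h z) P
  have n7 := ls_nonneg (ku_dg0_nonneg h z) Q
  have n8 := pw_nonneg (sc μ z 0) (ku_sc_nonneg h z le_rfl) P
  have n8' := pw_nonneg (sc μ z 0) (ku_sc_nonneg h z le_rfl) Q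
  have nE : 0 ≤ ls (fun a => hd (e a) Q) P := ls_nonneg (fun a => hd_nonneg (he a) Q) P
  have nA : 0 ≤ ls (fun a => hd ((fun a b => if b = z then e a b else 0) a) Q) P :=
    ls_nonneg (fun a => hd_nonneg (fun b => by
      show 0 ≤ if b = z then e a b else 0
      split_ifs
      · exact he _ _
      · exact le_rfl) Q) P
  have nB : 0 ≤ ls (fun a => hd ((fun a b => if a = z then e a b else 0) a) Q) P :=
    ls_nonneg (fun a => hd_nonneg (fun b => by
      show 0 ≤ if a = z then e a b else 0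
      split_ifs
      · exact he _ _
      · exact le_rfl) Q) P
  have g1 := ku_hd_ge (ku_dg_ge h z hc) P
  have g2 := ku_ls_ge (ku_dg_ge h z hc) Q
  have g3 := ku_pw_ge h z hc P
  have g3' := ku_pw_ge h z hc Q
  have hT0 : 0 ≤ hd (dg (sc μ z 0)) P * pw (sc μ z 0) P * ls (fun a => hd (e a) Q) P
            * pw (sc μ z 0) Q * ls (dg (sc μ z 0)) Q := by positivity
  have hA : 0 ≤ hd (dg μ) P * pw μ P
      * ls (fun a => hd ((fun a b => if b = z then e a b else 0) a) Q) P
            * pw μ Q * ls (dg μ) Q := by positivity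
  have hB : 0 ≤ hd (dg μ) P * pw μ P
      * ls (fun a => hd ((fun a b => if a = z then e a b else 0) a) Q) P
            * pw μ Q * ls (dg μ) Q := by positivity
  have hC1 : 0 ≤ hd (μ z) P * pw μ P * ls (fun a => hd (e a) Q) P * pw μ Q * ls (dg μ) Q := by
    positivity
  have hC2 : 0 ≤ hd (dg μ) P * pw μ P * ls (fun a => hd (e a) Q) P * pw μ Q * ls (μ z) Q := by
    positivity
  have hT : 0 ≤ hd (dg μ) P * pw μ P * ls (fun a => hd (e a) Q) P * pw μ Q * ls (dg μ) Q := by
    positivity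
  have hk : 0 ≤ 2 * s + s ^ 2 := by positivity
  have hge : hd (dg μ) P * pw μ P * ls (fun a => hd (e a) Q) P * pw μ Q * ls (dg μ) Q
      ≤ hd (dg (sc μ z (1 + s))) P * pw (sc μ z (1 + s)) P * ls (fun a => hd (e a) Q) P
        * pw (sc μ z (1 + s)) Q * ls (dg (sc μ z (1 + s))) Q := by
    apply mul_le_mul _ g2 n2 _
    · apply mul_le_mul _ g3' n3' _
      · apply mul_le_mul_of_nonneg_right _ nE
        exact mul_le_mul g1 g3 n3 (n1.trans g1)
      · exact mul_nonneg (mul_nonneg (n1.trans g1) (n3.trans g3)) nE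
    · exact mul_nonneg (mul_nonneg (mul_nonneg (n1.trans g1) (n3.trans g3)) nE) (n3'.trans g3')
  -- it is enough to have one of the following
  have fin1 : (1 + s) ^ 2 * (hd (dg μ) P * pw μ P * ls (fun a => hd (e a) Q) P * pw μ Q
      * ls (dg μ) Q) ≤ hd (dg (sc μ z (1 + s))) P * pw (sc μ z (1 + s)) P
        * ls (fun a => hd (e a) Q) P * pw (sc μ z (1 + s)) Q * ls (dg (sc μ z (1 + s))) Q →
      0 ≤ hd (dg (sc μ z (1 + s))) P * pw (sc μ z (1 + s)) P * ls (fun a => hd (e a) Q) P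
        * pw (sc μ z (1 + s)) Q * ls (dg (sc μ z (1 + s))) Q
      - (hd (dg μ) P * pw μ P * ls (fun a => hd (e a) Q) P * pw μ Q * ls (dg μ) Q
        + (2 * s + s ^ 2) * (hd (dg μ) P * pw μ P * ls (fun a => hd (e a) Q) P * pw μ Q
            * ls (dg μ) Q
          - hd (dg (sc μ z 0)) P * pw (sc μ z 0) P * ls (fun a => hd (e a) Q) P
            * pw (sc μ z 0) Q * ls (dg (sc μ z 0)) Q
          - hd (dg μ) P * pw μ P * ls (fun a => hd ((fun a b => if b = z then e a b else 0) a) Q) P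
            * pw μ Q * ls (dg μ) Q
          - hd (dg μ) P * pw μ P * ls (fun a => hd ((fun a b => if a = z then e a b else 0) a) Q) P
            * pw μ Q * ls (dg μ) Q
          - hd (μ z) P * pw μ P * ls (fun a => hd (e a) Q) P * pw μ Q * ls (dg μ) Q
          - hd (dg μ) P * pw μ P * ls (fun a => hd (e a) Q) P * pw μ Q * ls (μ z) Q)) := by
    intro h1
    have h2 := mul_nonneg hk (add_nonneg hT0 (add_nonneg hA (add_nonneg hB (add_nonneg hC1 hC2))))
    nlinarith
  have fin2 : hd (dg μ) P * pw μ P * ls (fun a => hd (e a) Q) P * pw μ Q * ls (dg μ) Q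
      ≤ hd (dg (sc μ z 0)) P * pw (sc μ z 0) P * ls (fun a => hd (e a) Q) P
            * pw (sc μ z 0) Q * ls (dg (sc μ z 0)) Q
          + hd (dg μ) P * pw μ P * ls (fun a => hd ((fun a b => if b = z then e a b else 0) a) Q) P
            * pw μ Q * ls (dg μ) Q
          + hd (dg μ) P * pw μ P * ls (fun a => hd ((fun a b => if a = z then e a b else 0) a) Q) P
            * pw μ Q * ls (dg μ) Q
          + hd (μ z) P * pw μ P * ls (fun a => hd (e a) Q) P * pw μ Q * ls (dg μ) Q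
          + hd (dg μ) P * pw μ P * ls (fun a => hd (e a) Q) P * pw μ Q * ls (μ z) Q →
      0 ≤ hd (dg (sc μ z (1 + s))) P * pw (sc μ z (1 + s)) P * ls (fun a => hd (e a) Q) P
        * pw (sc μ z (1 + s)) Q * ls (dg (sc μ z (1 + s))) Q
      - (hd (dg μ) P * pw μ P * ls (fun a => hd (e a) Q) P * pw μ Q * ls (dg μ) Q
        + (2 * s + s ^ 2) * (hd (dg μ) P * pw μ P * ls (fun a => hd (e a) Q) P * pw μ Q
            * ls (dg μ) Q
          - hd (dg (sc μ z 0)) P * pw (sc μ z 0) P * ls (fun a => hd (e a) Q) P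
            * pw (sc μ z 0) Q * ls (dg (sc μ z 0)) Q
          - hd (dg μ) P * pw μ P * ls (fun a => hd ((fun a b => if b = z then e a b else 0) a) Q) P
            * pw μ Q * ls (dg μ) Q
          - hd (dg μ) P * pw μ P * ls (fun a => hd ((fun a b => if a = z then e a b else 0) a) Q) P
            * pw μ Q * ls (dg μ) Q
          - hd (μ z) P * pw μ P * ls (fun a => hd (e a) Q) P * pw μ Q * ls (dg μ) Q
          - hd (dg μ) P * pw μ P * ls (fun a => hd (e a) Q) P * pw μ Q * ls (μ z) Q)) := by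
    intro h1
    have h2 := mul_nonneg hk (sub_nonneg.2 h1)
    nlinarith
  by_cases hzP : z ∈ P
  · obtain ⟨P1, P2, rfl⟩ := List.append_of_mem hzP
    by_cases hP2 : P2 = []
    · subst hP2
      apply fin2
      have e1 : ls (fun a => hd ((fun a b => if a = z then e a b else 0) a) Q) (P1 ++ [z])
          = ls (fun a => hd (e a) Q) (P1 ++ [z]) := by
        rw [ls_snoc, ls_snoc]
        cases Q with
        | nil => exact absurd rfl hQ
        | cons b T => show (if z = z then e z b else 0) = e z b; simp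
      rw [e1]
      linarith
    · apply fin1
      have x1 := ku_X h z hc P1
      have y1 := ku_pw_cons h z hc hP2
      have x0 : 0 ≤ hd (dg μ) (P1 ++ [z]) * pw μ (P1 ++ [z]) :=
        mul_nonneg (hd_nonneg (ku_dg_nonneg h) _) (pw_nonneg _ h.nonneg _)
      have y0 : 0 ≤ pw μ (z :: P2) := pw_nonneg _ h.nonneg _
      have h1 := mul_le_mul x1 y1 (mul_nonneg (by linarith) y0)
        ((mul_nonneg (by linarith) x0).trans x1)
      have h2 : (1 + s) ^ 2 * (hd (dg μ) (P1 ++ z :: P2) * pw μ (P1 ++ z :: P2))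
          ≤ hd (dg (sc μ z (1 + s))) (P1 ++ z :: P2) * pw (sc μ z (1 + s)) (P1 ++ z :: P2) := by
        rw [ku_hd_mid (dg μ) P1 z P2, ku_hd_mid (dg (sc μ z (1 + s))) P1 z P2,
          pw_append μ P1 z P2, pw_append (sc μ z (1 + s)) P1 z P2]
        linarith
      have h3 : (1 + s) ^ 2 * (hd (dg μ) (P1 ++ z :: P2) * pw μ (P1 ++ z :: P2)
            * ls (fun a => hd (e a) Q) (P1 ++ z :: P2))
          ≤ hd (dg (sc μ z (1 + s))) (P1 ++ z :: P2) * pw (sc μ z (1 + s)) (P1 ++ z :: P2)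
            * ls (fun a => hd (e a) Q) (P1 ++ z :: P2) := by
        rw [← mul_assoc]
        exact mul_le_mul_of_nonneg_right h2 nE
      have h4 : 0 ≤ (1 + s) ^ 2 * (hd (dg μ) (P1 ++ z :: P2) * pw μ (P1 ++ z :: P2)
            * ls (fun a => hd (e a) Q) (P1 ++ z :: P2)) := by positivity
      have h5 := mul_le_mul h3 g3' n3' (h4.trans h3)
      have h6 := mul_le_mul h5 g2 n2 ((mul_nonneg h4 n3').trans h5)
      linarith
  · by_cases hzQ : z ∈ Q
    · obtain ⟨Q1, Q2, rfl⟩ := List.append_of_mem hzQ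
      by_cases hQ1 : Q1 = []
      · subst hQ1
        apply fin2
        simp only [List.nil_append] at *
        have e1 : ls (fun a => hd ((fun a b => if b = z then e a b else 0) a) (z :: Q2)) P
            = ls (fun a => hd (e a) (z :: Q2)) P := by
          have e2 : (fun a => hd ((fun a b => if b = z then e a b else 0) a) (z :: Q2))
              = fun a => hd (e a) (z :: Q2) := by
            funext a
            show (if z = z then e a z else 0) = e a z
            simp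
          rw [e2]
        rw [e1]
        linarith
      · apply fin1
        have x1 := ku_pw_snoc h z hc hQ1
        have y1 := ku_Y h z hc Q2
        have x0 : 0 ≤ pw μ (Q1 ++ [z]) := pw_nonneg _ h.nonneg _
        have y0 : 0 ≤ pw μ (z :: Q2) * ls (dg μ) (z :: Q2) :=
          mul_nonneg (pw_nonneg _ h.nonneg _) (ls_nonneg (ku_dg_nonneg h) _)
        have h1 := mul_le_mul x1 y1 (mul_nonneg (by linarith) y0)
          ((mul_nonneg (by linarith) x0).trans x1)
        have h2 : (1 + s) ^ 2 * (pw μ (Q1 ++ z :: Q2) * ls (dg μ) (Q1 ++ z :: Q2))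
            ≤ pw (sc μ z (1 + s)) (Q1 ++ z :: Q2) * ls (dg (sc μ z (1 + s))) (Q1 ++ z :: Q2) := by
          rw [ku_ls_mid, ku_ls_mid, pw_append μ Q1 z Q2, pw_append (sc μ z (1 + s)) Q1 z Q2]
          linarith
        have h3 : hd (dg μ) P * pw μ P * ls (fun a => hd (e a) (Q1 ++ z :: Q2)) P
            ≤ hd (dg (sc μ z (1 + s))) P * pw (sc μ z (1 + s)) P
              * ls (fun a => hd (e a) (Q1 ++ z :: Q2)) P := by
          apply mul_le_mul_of_nonneg_right _ nE
          exact mul_le_mul g1 g3 n3 (n1.trans g1)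
        have h4 : 0 ≤ hd (dg μ) P * pw μ P * ls (fun a => hd (e a) (Q1 ++ z :: Q2)) P := by
          positivity
        have h5 : 0 ≤ (1 + s) ^ 2 * (pw μ (Q1 ++ z :: Q2) * ls (dg μ) (Q1 ++ z :: Q2)) := by
          positivity
        have h6 := mul_le_mul h3 h2 h5 (h4.trans h3)
        linarith
    · apply fin2
      rw [ku_hd0 h hP hzP, ku_ls0 h hQ hzQ, ku_pw_avoid μ z 0 P hzP, ku_pw_avoid μ z 0 Q hzQ]
      have : 0 ≤ pw μ P * ls (fun a => hd (e a) Q) P * pw μ Q * (hd (μ z) P * ls (μ z) Q) := by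
        positivity
      nlinarith

theorem usage {μ : V → V → ℝ} (h : Wt μ) {e : V → V → ℝ} (he : Sp e) {l : ℕ} (hl : 2 ≤ l)
    (z : V) {s : ℝ} (hs : 0 ≤ s) :
    Fo μ e l + (2 * s + s ^ 2) * (Fo μ e l - Fo (sc μ z 0) e l - Xz μ e l z)
      ≤ Fo (sc μ z (1 + s)) e l := by
  have hW : 0 ≤ ∑ L ∈ NL (∅ : Finset V) l,
      (hd (dg (sc μ z (1 + s))) L * pw (sc μ z (1 + s)) L * ls (dg (sc μ z (1 + s))) L
      - (hd (dg μ) L * pw μ L * ls (dg μ) L
        + (2 * s + s ^ 2) * (hd (dg μ) L * pw μ L * ls (dg μ) L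
          - hd (dg (sc μ z 0)) L * pw (sc μ z 0) L * ls (dg (sc μ z 0)) L
          - hd (μ z) L * pw μ L * ls (dg μ) L - hd (dg μ) L * pw μ L * ls (μ z) L))) := by
    apply Finset.sum_nonneg
    intro L hL
    apply ku_W h z hs
    intro h0
    have := (mem_NL.1 hL).1
    rw [h0] at this
    simp at this
    omega
  have hA : 0 ≤ ∑ L ∈ NL (∅ : Finset V) (l + 1),
      (pw (sc μ z (1 + s)) L * ls (dg (sc μ z (1 + s))) L
      - (pw μ L * ls (dg μ) L
        + (2 * s + s ^ 2) * (pw μ L * ls (dg μ) L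
          - pw (sc μ z 0) L * ls (dg (sc μ z 0)) L
          - hd (fun u => if u = z then 1 else 0) L * pw μ L * ls (dg μ) L
          - pw μ L * ls (μ z) L))) := by
    apply Finset.sum_nonneg
    intro L hL
    apply ku_A h z hs
    intro h0
    have := (mem_NL.1 hL).1
    rw [h0] at this
    simp at this
  have hC : 0 ≤ ∑ i ∈ range (l + 1 - 1), ∑ P ∈ NL (∅ : Finset V) (i + 1),
      ∑ Q ∈ NL P.toFinset (l + 1 - 1 - i),
      (hd (dg (sc μ z (1 + s))) P * pw (sc μ z (1 + s)) P * ls (fun a => hd (e a) Q) P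
        * pw (sc μ z (1 + s)) Q * ls (dg (sc μ z (1 + s))) Q
      - (hd (dg μ) P * pw μ P * ls (fun a => hd (e a) Q) P * pw μ Q * ls (dg μ) Q
        + (2 * s + s ^ 2) * (hd (dg μ) P * pw μ P * ls (fun a => hd (e a) Q) P * pw μ Q
            * ls (dg μ) Q
          - hd (dg (sc μ z 0)) P * pw (sc μ z 0) P * ls (fun a => hd (e a) Q) P
            * pw (sc μ z 0) Q * ls (dg (sc μ z 0)) Q
          - hd (dg μ) P * pw μ P * ls (fun a => hd ((fun a b => if b = z then e a b else 0) a) Q) P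
            * pw μ Q * ls (dg μ) Q
          - hd (dg μ) P * pw μ P * ls (fun a => hd ((fun a b => if a = z then e a b else 0) a) Q) P
            * pw μ Q * ls (dg μ) Q
          - hd (μ z) P * pw μ P * ls (fun a => hd (e a) Q) P * pw μ Q * ls (dg μ) Q
          - hd (dg μ) P * pw μ P * ls (fun a => hd (e a) Q) P * pw μ Q * ls (μ z) Q))) := by
    apply Finset.sum_nonneg
    intro i hi
    have hi' := Finset.mem_range.1 hi
    apply Finset.sum_nonneg
    intro P hP
    apply Finset.sum_nonneg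
    intro Q hQ
    apply ku_C h he.nonneg z hs
    · intro h0
      have := (mem_NL.1 hP).1
      rw [h0] at this
      simp at this
    · intro h0
      have := (mem_NL.1 hQ).1
      rw [h0] at this
      simp at this
      omega
  simp only [Finset.sum_sub_distrib, Finset.sum_add_distrib, ← Finset.mul_sum] at hW hA hC
  have r1 := wo_rev h (dg μ) (μ z) l
  have r2 : CC μ (dg μ) (fun a b => if a = z then e a b else 0) (dg μ) (l + 1)
      = CC μ (dg μ) (fun a b => if b = z then e a b else 0) (dg μ) (l + 1) := by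
    apply cc_rev h
    intro a b
    simp only [he.symm a b]
  have r3 : CC μ (dg μ) e (μ z) (l + 1) = CC μ (μ z) e (dg μ) (l + 1) :=
    cc_rev h (dg μ) (μ z) he.symm (l + 1)
  unfold Fo Fd Xz
  unfold Wo Ao
  unfold CC at r2 r3 ⊢
  rw [r1] at hW
  simp only at r2 r3 hC ⊢
  rw [r2, r3] at hC
  have hl0 : (0 : ℝ) ≤ 2 * (l + 1) := by positivity
  have hW2 := mul_nonneg hl0 hW
  nlinarith

end

end Pool.Agent.Lib.MP_009d13_co.OD
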