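import Pool.Agent.Lib.MP_009d13_co.OD.JUN
import Pool.Agent.Lib.MP_009d13_co.OD.HIT
import Pool.Agent.Lib.MP_009d13_co.OD.GEN
import Pool.Agent.Lib.MP_009d13_co.OD.COMP
import Pool.Agent.Lib.MP_009d13_co.OD.OPC

/-! STA: a jump to a star, the walk hits the second path in its first hub. -/

set_option autoImplicit false

namespace Pool.Agent.Lib.MP_009d13_co.OD

open Finset Classical

noncomputable section

variable {V : Type} [Fintype V]

theorem sta_one {μ : V → V → ℝ} (h : Wt μ) {l : ℕ} (hm : ms μ ∅ = l) (z : V) {i : ℕ}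
    (hi : i < l) (τ : ℕ) (v : V) :
    (Pp μ)^[i] (fun A x => (Xw μ)^[τ + 1]
        (Hd μ (fun y => if y = z then 1 else 0) (l - i)) A x) ∅ v
      ≤ 2 * ((2 * Real.exp (-1)) ^ τ
        * (Op μ)^[i + τ] (Op μ (fun _ y => if y = z then 1 else 0)) ∅ v) := by
  have hv : v ∉ (∅ : Finset V) := Finset.notMem_empty v
  have hμ0 : ∀ (_ : Finset V) (v b : V), 0 ≤ μ v b := fun _ v b => h.nonneg v b
  have hδ : ∀ y : V, (0 : ℝ) ≤ if y = z then 1 else 0 := fun y => by split_ifs <;> norm_num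
  set k0 : ℕ := l - i - 1 with hk0
  have hk0r : (k0 : ℝ) = l - i - 1 := by
    rw [hk0, Nat.sub_sub, Nat.cast_sub (by omega)]
    push_cast
    ring
  set g1 : Finset V → V → ℝ := fun A b => (if b = z then 1 else 0) * Real.exp (ms μ A - k0)
    with hg1
  have hHd0 : ∀ A b, b ∉ A → 0 ≤ Hd μ (fun y => if y = z then 1 else 0) (l - i) A b := by
    intro A b hb
    unfold Hd
    refine mul_nonneg (hδ b) ?_
    rw [Pp_eq_TW]
    exact TW_nonneg hμ0 (fun _ _ _ => zero_le_one) _ hb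
  have hHd : ∀ A b, b ∉ A → Hd μ (fun y => if y = z then 1 else 0) (l - i) A b ≤ g1 A b := by
    intro A b hb
    exact mul_le_mul_of_nonneg_left (gen_exp h k0 hb) (hδ b)
  have e1 : ∀ A x, x ∉ A → (Xw μ)^[τ + 1] (Hd μ (fun y => if y = z then 1 else 0) (l - i)) A x
      ≤ 2 ^ (τ + 1) * (Pp μ)^[τ + 1] g1 A x := by
    intro A x hx
    refine (xw_le h hHd0 (τ + 1) hx).trans ?_
    refine mul_le_mul_of_nonneg_left ?_ (by positivity)
    rw [Pp_eq_TW]
    exact TW_mono hμ0 hHd (τ + 1) hx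
  have e2 : (Pp μ)^[i] (fun A x => (Xw μ)^[τ + 1]
        (Hd μ (fun y => if y = z then 1 else 0) (l - i)) A x) ∅ v
      ≤ (Pp μ)^[i] (fun A x => 2 ^ (τ + 1) * (Pp μ)^[τ + 1] g1 A x) ∅ v := by
    conv_lhs => rw [Pp_eq_TW]
    conv_rhs => enter [1]; rw [Pp_eq_TW]
    exact TW_mono hμ0 e1 i hv
  refine e2.trans (le_of_eq ?_)
  have e3 : (Pp μ)^[i] (fun A x => 2 ^ (τ + 1) * (Pp μ)^[τ + 1] g1 A x) ∅ v
      = 2 ^ (τ + 1) * (Pp μ)^[i + (τ + 1)] g1 ∅ v := by
    rw [Function.iterate_add_apply (Pp μ) i (τ + 1) g1]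
    have := TW_smul (fun _ v b => μ v b) (2 ^ (τ + 1)) ((Pp μ)^[τ + 1] g1) i ∅ v
    rw [← Pp_eq_TW] at this
    exact this
  rw [e3, Pp_conj h g1 (i + (τ + 1)) hv, hm]
  have e4 : (fun (A : Finset V) (b : V) => Real.exp (-ms μ A) * g1 A b)
      = fun A b => Real.exp (-(k0 : ℝ)) * (if b = z then 1 else 0) := by
    funext A b
    rw [hg1]
    show Real.exp (-ms μ A) * ((if b = z then 1 else 0) * Real.exp (ms μ A - k0)) = _
    have : Real.exp (-(k0 : ℝ)) = Real.exp (-ms μ A) * Real.exp (ms μ A - k0) := by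
      rw [← Real.exp_add]
      congr 1
      ring
    rw [this]
    ring
  rw [e4, Op_eq_TW, TW_smul, ← Op_eq_TW]
  have e5 : (Op μ)^[i + (τ + 1)] (fun _ (b : V) => if b = z then (1 : ℝ) else 0)
      = (Op μ)^[i + τ] (Op μ (fun _ y => if y = z then 1 else 0)) := by
    rw [← Function.iterate_succ_apply]
    rfl
  rw [e5]
  have e6 : Real.exp ((l : ℝ) - ((i + (τ + 1) : ℕ) : ℝ)) * Real.exp (-(k0 : ℝ))
      = Real.exp (-1) ^ τ := by
    rw [← Real.exp_add, ← Real.exp_nat_mul, hk0r]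
    congr 1
    push_cast
    ring
  rw [mul_pow, ← e6]
  ring

theorem star_a {μ : V → V → ℝ} (h : Wt μ) {l : ℕ} (hl : 1 ≤ l) (hm : ms μ ∅ = l)
    {χ : V → ℝ} (hχ : ∀ v, 0 ≤ χ v) (z : V) (n : ℕ) :
    ∑ i ∈ range l, ∑ τ ∈ range n, ∑ v, χ v *
      (Pp μ)^[i] (fun A x => (Xw μ)^[τ + 1]
        (Hd μ (fun y => if y = z then 1 else 0) (l - i)) A x) ∅ v ≤ 11 * ∑ v, χ v := by
  have _ := hl
  have hδ : ∀ y : V, (0 : ℝ) ≤ if y = z then 1 else 0 := fun y => by split_ifs <;> norm_num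
  have hw : ∀ (A : Finset V) (v b : V), 0 ≤ Real.exp (1 - un μ A v) * μ v b := hit_w h
  set g : Finset V → V → ℝ := Op μ (fun _ y => if y = z then 1 else 0) with hg
  have hg0 : ∀ A v, v ∉ A → 0 ≤ g A v := by
    intro A v hv
    rw [hg, Op_eq_TW]
    exact TW_nonneg hw (fun _ y _ => hδ y) 1 hv
  set r : ℝ := 2 * Real.exp (-1) with hr
  have hr0 : 0 ≤ r := by positivity
  have he : Real.exp (-1) < 0.37 := by
    have := Real.exp_neg_one_lt_d9
    linarith
  have hr1 : r < 1 := by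
    rw [hr]
    linarith
  have key : ∀ v, ∑ i ∈ range l, ∑ τ ∈ range n, (Pp μ)^[i] (fun A x => (Xw μ)^[τ + 1]
        (Hd μ (fun y => if y = z then 1 else 0) (l - i)) A x) ∅ v ≤ 11 := by
    intro v
    have hv : v ∉ (∅ : Finset V) := Finset.notMem_empty v
    have s1 : ∑ i ∈ range l, ∑ τ ∈ range n, (Pp μ)^[i] (fun A x => (Xw μ)^[τ + 1]
        (Hd μ (fun y => if y = z then 1 else 0) (l - i)) A x) ∅ v
        ≤ ∑ i ∈ range l, ∑ τ ∈ range n, 2 * (r ^ τ * (Op μ)^[i + τ] g ∅ v) :=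
      Finset.sum_le_sum fun i hi => Finset.sum_le_sum fun τ _ =>
        sta_one h hm z (Finset.mem_range.1 hi) τ v
    have s2 : ∑ i ∈ range l, ∑ τ ∈ range n, 2 * (r ^ τ * (Op μ)^[i + τ] g ∅ v)
        = 2 * ∑ i ∈ range l, (Op μ)^[i] (fun A v => ∑ τ ∈ range n, r ^ τ * (Op μ)^[τ] g A v) ∅ v := by
      rw [Finset.mul_sum]
      refine Finset.sum_congr rfl fun i _ => ?_
      rw [← Finset.mul_sum]
      congr 1
      rw [Op_eq_TW, TW_sum _ (range n) (fun τ A v => r ^ τ * (TW _)^[τ] g A v)]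
      refine Finset.sum_congr rfl fun τ _ => ?_
      rw [TW_smul _ (r ^ τ) ((TW _)^[τ] g), Function.iterate_add_apply]
    have s3 := comp h hg0 hr0 hr1 l n hv
    have s4 : ∑ k ∈ range (l + n), (Op μ)^[k] g ∅ v ≤ 1 := by
      have c1 := hit h hδ (l + n + 1) hv
      rw [Finset.sum_range_succ', Finset.compl_empty] at c1
      have c2 : ∑ y : V, (if y = z then (1 : ℝ) else 0) = 1 := by simp
      rw [c2] at c1
      have c3 : 0 ≤ (Op μ)^[0] (fun _ u => if u = z then (1 : ℝ) else 0) ∅ v := hδ v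
      have c4 : ∀ k, (Op μ)^[k + 1] (fun _ u => if u = z then (1 : ℝ) else 0) ∅ v
          = (Op μ)^[k] g ∅ v := by
        intro k
        rw [Function.iterate_succ_apply]
      simp only [c4] at c1
      linarith
    have s5 : 1 / (1 - r) ≤ 11 / 2 := by
      rw [div_le_div_iff₀ (by linarith) (by norm_num)]
      rw [hr]
      linarith
    have s6 : 0 ≤ 1 / (1 - r) := by
      apply div_nonneg zero_le_one
      linarith
    have s7 : (1 / (1 - r)) * ∑ k ∈ range (l + n), (Op μ)^[k] g ∅ v ≤ 11 / 2 := by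
      have := mul_le_mul_of_nonneg_left s4 s6
      linarith
    linarith
  have e1 : ∑ i ∈ range l, ∑ τ ∈ range n, ∑ v, χ v *
      (Pp μ)^[i] (fun A x => (Xw μ)^[τ + 1]
        (Hd μ (fun y => if y = z then 1 else 0) (l - i)) A x) ∅ v
      = ∑ v, χ v * ∑ i ∈ range l, ∑ τ ∈ range n, (Pp μ)^[i] (fun A x => (Xw μ)^[τ + 1]
        (Hd μ (fun y => if y = z then 1 else 0) (l - i)) A x) ∅ v := by
    simp only [Finset.mul_sum]
    rw [Finset.sum_comm (s := (Finset.univ : Finset V)) (t := range l)]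
    exact Finset.sum_congr rfl fun i _ => Finset.sum_comm
  rw [e1, Finset.mul_sum]
  refine Finset.sum_le_sum fun v _ => ?_
  have := mul_le_mul_of_nonneg_left (key v) (hχ v)
  linarith

end

end Pool.Agent.Lib.MP_009d13_co.OD
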