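import Pool.Agent.Lib.MP_009d13_co.OD.FAR
import Pool.Agent.Lib.MP_009d13_co.OD.FBS
import Pool.Agent.Lib.MP_009d13_co.OD.STA

/-! STAR: the jumps to one hub. -/

set_option autoImplicit false

namespace Pool.Agent.Lib.MP_009d13_co.OD

open Finset Classical

noncomputable section

variable {V : Type} [Fintype V]

/-- The last degree is at most `6`. -/
theorem STAR_six {μ : V → V → ℝ} (h : Wt μ) {χ : V → ℝ} (hχ : ∀ v, 0 ≤ χ v) {e : V → V → ℝ}
    (he : ∀ a b, 0 ≤ e a b) {ψ : V → ℝ} (hψ : ∀ v, ψ v ≤ 6) (N : ℕ) :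
    CC μ χ e ψ N ≤ 6 * CC μ χ e (fun _ => 1) N := by
  unfold CC
  rw [Finset.mul_sum]
  refine Finset.sum_le_sum fun i _ => ?_
  rw [Finset.mul_sum]
  refine Finset.sum_le_sum fun P _ => ?_
  rw [Finset.mul_sum]
  refine Finset.sum_le_sum fun Q _ => ?_
  have h1 : ls ψ Q ≤ 6 * ls (fun _ => 1) Q := by
    unfold ls
    cases Q.reverse with
    | nil =>
      unfold hd
      norm_num
    | cons a L =>
      unfold hd
      rw [mul_one]
      exact hψ a
  have h2 : 0 ≤ hd χ P * pw μ P * ls (fun a => hd (e a) Q) P * pw μ Q :=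
    mul_nonneg (mul_nonneg (mul_nonneg (hd_nonneg hχ P) (pw_nonneg μ h.nonneg P))
      (ls_nonneg (fun a => hd_nonneg (he a) Q) P)) (pw_nonneg μ h.nonneg Q)
  calc hd χ P * pw μ P * ls (fun a => hd (e a) Q) P * pw μ Q * ls ψ Q
      ≤ hd χ P * pw μ P * ls (fun a => hd (e a) Q) P * pw μ Q * (6 * ls (fun _ => 1) Q) :=
        mul_le_mul_of_nonneg_left h1 h2
    _ = _ := by ring

theorem star {μ : V → V → ℝ} (h : Wt μ) {l : ℕ} (hl : 1 ≤ l) (hm : ms μ ∅ = l)
    (h6 : ∀ v, dg μ v ≤ 6) (z : V) :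
    CC μ (dg μ) (fun _ b => if b = z then 1 else 0) (dg μ) (l + 1) ≤ 3 * 10 ^ 12 * l := by
  have hχ : ∀ v, 0 ≤ dg μ v := by
    intro v
    rw [dg_eq]
    exact un_nonneg h ∅ v
  have he : ∀ a b : V, 0 ≤ (fun _ b => if b = z then 1 else 0 : V → V → ℝ) a b := by
    intro a b
    simp only
    split_ifs
    · exact zero_le_one
    · exact le_rfl
  have hrow : ∀ x : V, ∑ y, (fun _ b => if b = z then 1 else 0 : V → V → ℝ) x y ≤ 1 := by
    intro x
    simp
  have hs : ∑ v, dg μ v = 2 * l := by rw [sum_dg, hm]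
  have h0 := STAR_six h hχ he h6 (l + 1)
  have h1 := star_a h hl hm hχ z (Fintype.card V)
  have h2 := far_b_star h hl hm h6 z (Fintype.card V)
  have h3 := far_c h hl hm h6 hχ he hrow (Fintype.card V)
  have h4 := far_d h hl hm hχ he hrow (Fintype.card V)
  rw [FAR_dec h hl] at h0
  rw [hs] at h1 h3 h4
  have hl0 : (0 : ℝ) ≤ l := Nat.cast_nonneg l
  refine h0.trans ?_
  nlinarith

end

end Pool.Agent.Lib.MP_009d13_co.OD
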