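import Pool.Agent.Lib.MP_009d13_co.OD.Defs

/-! SPS: sparse sums. -/

set_option autoImplicit false

namespace Pool.Agent.Lib.MP_009d13_co.OD

open Finset Classical

noncomputable section

variable {V : Type} [Fintype V]

theorem sps_aux {e : V → V → ℝ} (he : Sp e) {f : V → ℝ} (hf : ∀ a, 0 ≤ f a) (S : Finset V) :
    ∑ a ∈ S, ∑ b ∈ S, e a b * min (f a) (f b) ≤ 12 * ∑ a ∈ S, f a := by
  induction S using Finset.strongInduction with
  | H S ih =>
    rcases S.eq_empty_or_nonempty with rfl | hne
    · simp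
    · have h1 : ∑ a ∈ S, ∑ b ∈ S, e a b ≤ ∑ _a ∈ S, (6 : ℝ) := by
        have := he.sparse S
        rw [Finset.sum_const, nsmul_eq_mul]
        linarith
      obtain ⟨v, hvS, hv⟩ := Finset.exists_le_of_sum_le hne h1
      have hT := ih (S.erase v) (Finset.erase_ssubset hvS)
      have hvT : v ∉ S.erase v := Finset.notMem_erase v S
      set T := S.erase v with hTdef
      have hS : insert v T = S := Finset.insert_erase hvS
      rw [← hS] at hv ⊢
      rw [Finset.sum_insert hvT] at hv
      rw [Finset.sum_insert hvT, Finset.sum_insert hvT, Finset.sum_insert hvT]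
      have h2 : ∑ a ∈ T, ∑ b ∈ insert v T, e a b * min (f a) (f b)
          = ∑ a ∈ T, e a v * min (f a) (f v) + ∑ a ∈ T, ∑ b ∈ T, e a b * min (f a) (f b) := by
        rw [← Finset.sum_add_distrib]
        exact Finset.sum_congr rfl fun a _ => Finset.sum_insert hvT
      rw [h2, he.diag v]
      rw [he.diag v] at hv
      have h3 : ∑ b ∈ T, e v b * min (f v) (f b) ≤ ∑ b ∈ T, e v b * f v :=
        Finset.sum_le_sum fun b _ => mul_le_mul_of_nonneg_left (min_le_left _ _) (he.nonneg _ _)
      have h4 : ∑ a ∈ T, e a v * min (f a) (f v) ≤ ∑ a ∈ T, e v a * f v :=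
        Finset.sum_le_sum fun a _ => by
          rw [he.symm a v]
          exact mul_le_mul_of_nonneg_left (min_le_right _ _) (he.nonneg _ _)
      rw [← Finset.sum_mul] at h3 h4
      have h5 : (∑ b ∈ T, e v b) * f v ≤ 6 * f v :=
        mul_le_mul_of_nonneg_right (by linarith) (hf v)
      linarith

theorem sparse_min {e : V → V → ℝ} (he : Sp e) {f : V → ℝ} (hf : ∀ a, 0 ≤ f a) :
    ∑ a, ∑ b, e a b * min (f a) (f b) ≤ 12 * ∑ a, f a :=
  sps_aux he hf Finset.univ

end

end Pool.Agent.Lib.MP_009d13_co.OD
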