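import Pool.Agent.Lib.MP_009d13_co.OD.OPC
import Pool.Agent.Lib.MP_009d13_co.OD.GEN
import Pool.Agent.Lib.MP_009d13_co.OD.HIT
import Pool.Agent.Lib.MP_009d13_co.OD.SPS
import Pool.Agent.Lib.MP_009d13_co.OD.BR

set_option autoImplicit false

namespace Pool.Agent.Lib.MP_009d13_co.OD

open Finset Classical

noncomputable section

variable {V : Type} [Fintype V]

/-! ### XOP : open structures -/

theorem xop_nonneg {μ : V → V → ℝ} (h : Wt μ) {g : Finset V → V → ℝ}
    (hg : ∀ B u, u ∉ B → 0 ≤ g B u) (k : ℕ) {A : Finset V} {v : V} (hv : v ∉ A) :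
    0 ≤ (Pp μ)^[k] g A v := by
  rw [Pp_eq_TW]
  exact TW_nonneg (fun _ _ _ => h.nonneg _ _) hg k hv

theorem xop_mono {μ : V → V → ℝ} (h : Wt μ) {g g' : Finset V → V → ℝ}
    (hg : ∀ B u, u ∉ B → g B u ≤ g' B u) (k : ℕ) {A : Finset V} {v : V} (hv : v ∉ A) :
    (Pp μ)^[k] g A v ≤ (Pp μ)^[k] g' A v := by
  rw [Pp_eq_TW]
  exact TW_mono (fun _ _ _ => h.nonneg _ _) hg k hv

theorem xop_smul (μ : V → V → ℝ) (c : ℝ) (g : Finset V → V → ℝ) (k : ℕ) (A : Finset V)
    (v : V) : (Pp μ)^[k] (fun B b => c * g B b) A v = c * (Pp μ)^[k] g A v := by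
  rw [Pp_eq_TW]
  exact TW_smul _ c g k A v

theorem xop_op_smul (μ : V → V → ℝ) (c : ℝ) (g : Finset V → V → ℝ) (k : ℕ) (A : Finset V)
    (v : V) : (Op μ)^[k] (fun B b => c * g B b) A v = c * (Op μ)^[k] g A v := by
  rw [Op_eq_TW]
  exact TW_smul _ c g k A v

theorem xop_e6 : 6 * Real.exp 1 ≤ 17 := by
  have := Real.exp_one_lt_d9
  linarith

theorem xop_xexp {D : ℝ} : D * Real.exp (1 - D) ≤ 1 := by
  have h1 := Real.add_one_le_exp (D - 1)
  have h2 : Real.exp (1 - D) * Real.exp (D - 1) = 1 := by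
    rw [← Real.exp_add]; simp
  have h3 := Real.exp_pos (1 - D)
  have h4 : Real.exp (1 - D) * D ≤ Real.exp (1 - D) * Real.exp (D - 1) :=
    mul_le_mul_of_nonneg_left (by linarith) h3.le
  linarith

theorem xop_end {μ : V → V → ℝ} (h : Wt μ) (h6 : ∀ v, dg μ v ≤ 6) (k : ℕ) {A : Finset V} {y : V}
    (hy : y ∉ A) : (Pp μ)^[k] (fun _ u => dg μ u) A y
      ≤ 17 * min 1 (dg μ y) * Real.exp (ms μ A - k) := by
  have hd0 : 0 ≤ dg μ y := by rw [dg_eq]; exact un_nonneg h _ _
  have hm0 : 0 ≤ min 1 (dg μ y) := le_min zero_le_one hd0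
  rcases k with _ | k
  · simp only [Function.iterate_zero, id, Nat.cast_zero, sub_zero]
    have h1 : 1 ≤ Real.exp (ms μ A) := Real.one_le_exp (ms_nonneg h A)
    have h2 : dg μ y ≤ 17 * min 1 (dg μ y) := by
      rcases le_total 1 (dg μ y) with h3 | h3
      · rw [min_eq_left h3]; linarith [h6 y]
      · rw [min_eq_right h3]; linarith
    calc dg μ y ≤ 17 * min 1 (dg μ y) := h2
      _ ≤ 17 * min 1 (dg μ y) * Real.exp (ms μ A) :=
          le_mul_of_one_le_right (by linarith) h1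
  · rw [Function.iterate_succ_apply']
    have h1 : Pp μ ((Pp μ)^[k] (fun _ u => dg μ u)) A y
        ≤ un μ A y * (6 * Real.exp (ms μ A - un μ A y - k)) := by
      rw [← un_eq_insert h A y, Finset.sum_mul]
      unfold Pp
      apply Finset.sum_le_sum
      intro b hb
      have hb' : b ∉ insert y A := by simpa using hb
      apply mul_le_mul_of_nonneg_left _ (h.nonneg _ _)
      have h2 : (Pp μ)^[k] (fun _ u => dg μ u) (insert y A) b
          ≤ (Pp μ)^[k] (fun _ _ => 6 * 1) (insert y A) b :=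
        xop_mono h (fun B u _ => by rw [mul_one]; exact h6 u) k hb'
      have h3 := xop_smul μ 6 (fun _ _ => 1) k (insert y A) b
      have h4 := gen_exp h k hb'
      have h5 := ms_insert h hy
      have h6' := un_eq_insert h A y
      rw [h5] at h4
      calc _ ≤ (Pp μ)^[k] (fun _ _ => 6 * 1) (insert y A) b := h2
        _ = 6 * (Pp μ)^[k] (fun _ _ => 1) (insert y A) b := h3
        _ ≤ 6 * Real.exp (ms μ A - un μ A y - k) := by linarith
        _ = _ := by rw [h6']
    refine h1.trans ?_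
    have hD0 := un_nonneg h A y
    have hDd := un_le_dg h A y
    have h2 : Real.exp (ms μ A - un μ A y - k)
        = Real.exp (1 - un μ A y) * Real.exp (ms μ A - (k + 1 : ℕ)) := by
      rw [← Real.exp_add]; congr 1; push_cast; ring
    rw [h2]
    have h3 : un μ A y * (6 * Real.exp (1 - un μ A y)) ≤ 17 * min 1 (dg μ y) := by
      rcases le_total 1 (dg μ y) with h4 | h4
      · rw [min_eq_left h4]
        have := xop_xexp (D := un μ A y)
        nlinarith
      · rw [min_eq_right h4]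
        have h5 : Real.exp (1 - un μ A y) ≤ Real.exp 1 := by
          apply Real.exp_le_exp.2; linarith
        have h7 := xop_e6
        have h8 : 6 * Real.exp (1 - un μ A y) ≤ 17 := by linarith
        have h9 : 0 ≤ 6 * Real.exp (1 - un μ A y) := by positivity
        calc un μ A y * (6 * Real.exp (1 - un μ A y)) ≤ dg μ y * 17 :=
              mul_le_mul hDd h8 h9 hd0
          _ = 17 * dg μ y := by ring
    calc _ = un μ A y * (6 * Real.exp (1 - un μ A y)) * Real.exp (ms μ A - (k + 1 : ℕ)) := by ring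
      _ ≤ _ := mul_le_mul_of_nonneg_right h3 (Real.exp_pos _).le

theorem open_le {μ : V → V → ℝ} (h : Wt μ) {e : V → V → ℝ} (he : Sp e) {l : ℕ} (hl : 1 ≤ l)
    (hm : ms μ ∅ = l) (h6 : ∀ v, dg μ v ≤ 6) {χ : V → ℝ} (hχ : ∀ v, 0 ≤ χ v) :
    CC μ χ e (dg μ) (l + 1) ≤ 3500 * l * ∑ v, χ v := by
  rw [br2 μ χ (dg μ) e l hl]
  have hd0 : ∀ y, 0 ≤ dg μ y := by
    intro y; rw [dg_eq]; exact un_nonneg h _ _
  have hm0 : ∀ y, 0 ≤ min 1 (dg μ y) := fun y => le_min zero_le_one (hd0 y)
  set t : V → ℝ := fun x => ∑ y, e x y * min 1 (dg μ y) with ht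
  have ht0 : ∀ x, 0 ≤ t x := fun x => Finset.sum_nonneg fun y _ =>
    mul_nonneg (he.nonneg _ _) (hm0 y)
  have hsum1 : ∑ y, min 1 (dg μ y) ≤ 2 * l := by
    rw [← hm, ← sum_dg]
    exact Finset.sum_le_sum fun y _ => min_le_right _ _
  have ht1 : ∀ x, t x ≤ 2 * l := by
    intro x
    refine le_trans (Finset.sum_le_sum fun y _ => ?_) hsum1
    exact mul_le_of_le_one_left (hm0 y) (he.le_one _ _)
  have ht2 : ∑ x, t x * min 1 (dg μ x) ≤ 24 * l := by
    have h1 : ∑ x, t x * min 1 (dg μ x)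
        ≤ ∑ a, ∑ b, e a b * min (min 1 (dg μ a)) (min 1 (dg μ b)) := by
      apply Finset.sum_le_sum
      intro a _
      rw [ht, Finset.sum_mul]
      apply Finset.sum_le_sum
      intro b _
      rw [mul_assoc]
      apply mul_le_mul_of_nonneg_left _ (he.nonneg _ _)
      apply le_min
      · exact mul_le_of_le_one_left (hm0 a) (min_le_left _ _)
      · exact mul_le_of_le_one_right (hm0 b) (min_le_left _ _)
    have h2 := sparse_min he hm0
    linarith
  have hstep : ∀ v, ∀ i ∈ range l, (Pp μ)^[i] (fun A x =>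
      ∑ y ∈ (insert x A)ᶜ, e x y * (Pp μ)^[l - 1 - i] (fun _ u => dg μ u) (insert x A) y) ∅ v
      ≤ 17 * Real.exp 1 * (Op μ)^[i] (fun _ u => t u) ∅ v := by
    intro v i hi
    have hi' : i < l := Finset.mem_range.1 hi
    have hv : v ∉ (∅ : Finset V) := Finset.notMem_empty v
    have h1 : (Pp μ)^[i] (fun A x =>
      ∑ y ∈ (insert x A)ᶜ, e x y * (Pp μ)^[l - 1 - i] (fun _ u => dg μ u) (insert x A) y) ∅ v
      ≤ (Pp μ)^[i] (fun A x => (17 * Real.exp (-((l - 1 - i : ℕ) : ℝ)))
        * (Real.exp (ms μ A) * t x)) ∅ v := by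
      apply xop_mono h _ i hv
      intro A x hx
      have h2 : ∀ y ∈ (insert x A)ᶜ, e x y * (Pp μ)^[l - 1 - i] (fun _ u => dg μ u) (insert x A) y
          ≤ (17 * Real.exp (-((l - 1 - i : ℕ) : ℝ))) * (Real.exp (ms μ A)
            * (e x y * min 1 (dg μ y))) := by
        intro y hy
        have hy' : y ∉ insert x A := by simpa using hy
        have h3 := xop_end h h6 (l - 1 - i) hy'
        have h4 : Real.exp (ms μ (insert x A) - ((l - 1 - i : ℕ) : ℝ))
            ≤ Real.exp (ms μ A) * Real.exp (-((l - 1 - i : ℕ) : ℝ)) := by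
          rw [← Real.exp_add]
          apply Real.exp_le_exp.2
          have := ms_anti h (Finset.subset_insert x A)
          linarith
        have h5 : 0 ≤ 17 * min 1 (dg μ y) := by linarith [hm0 y]
        have h7 := h3.trans (mul_le_mul_of_nonneg_left h4 h5)
        have h8 := mul_le_mul_of_nonneg_left h7 (he.nonneg x y)
        refine h8.trans (le_of_eq ?_)
        ring
      refine (Finset.sum_le_sum h2).trans ?_
      rw [← Finset.mul_sum, ← Finset.mul_sum]
      apply mul_le_mul_of_nonneg_left _ (by positivity)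
      apply mul_le_mul_of_nonneg_left _ (Real.exp_pos _).le
      exact Finset.sum_le_sum_of_subset_of_nonneg (Finset.subset_univ _)
        fun y _ _ => mul_nonneg (he.nonneg _ _) (hm0 y)
    refine h1.trans ?_
    rw [xop_smul, Pp_conj h _ i hv]
    have h2 : (fun (A : Finset V) (v : V) => Real.exp (-ms μ A) * (Real.exp (ms μ A) * t v))
        = fun _ u => t u := by
      funext A u
      rw [← mul_assoc, ← Real.exp_add]
      simp
    rw [h2, hm]
    have h3 : 17 * Real.exp (-((l - 1 - i : ℕ) : ℝ)) * (Real.exp ((l : ℝ) - i)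
        * (Op μ)^[i] (fun _ u => t u) ∅ v)
        = 17 * (Real.exp (-((l - 1 - i : ℕ) : ℝ)) * Real.exp ((l : ℝ) - i))
        * (Op μ)^[i] (fun _ u => t u) ∅ v := by ring
    have h4 : Real.exp (-((l - 1 - i : ℕ) : ℝ)) * Real.exp ((l : ℝ) - i) = Real.exp 1 := by
      rw [← Real.exp_add]
      congr 1
      have h5 : ((l - 1 - i : ℕ) : ℝ) = (l : ℝ) - 1 - i := by
        rw [Nat.cast_sub (by omega), Nat.cast_sub hl]; simp
      rw [h5]; ring
    rw [h3, h4]
  calc ∑ i ∈ range l, ∑ v, χ v * (Pp μ)^[i] (fun A x =>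
      ∑ y ∈ (insert x A)ᶜ, e x y * (Pp μ)^[l - 1 - i] (fun _ u => dg μ u) (insert x A) y) ∅ v
      ≤ ∑ i ∈ range l, ∑ v, χ v * (17 * Real.exp 1 * (Op μ)^[i] (fun _ u => t u) ∅ v) := by
        apply Finset.sum_le_sum
        intro i hi
        apply Finset.sum_le_sum
        intro v _
        exact mul_le_mul_of_nonneg_left (hstep v i hi) (hχ v)
    _ = ∑ v, χ v * (17 * Real.exp 1 * ∑ i ∈ range l, (Op μ)^[i] (fun _ u => t u) ∅ v) := by
        rw [Finset.sum_comm]
        apply Finset.sum_congr rfl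
        intro v _
        rw [← Finset.mul_sum, ← Finset.mul_sum]
    _ ≤ ∑ v, χ v * (3500 * l) := by
        apply Finset.sum_le_sum
        intro v _
        apply mul_le_mul_of_nonneg_left _ (hχ v)
        have h1 := hit2 h ht0 l v
        have h2 := ht1 v
        have h3 : ∑ i ∈ range l, (Op μ)^[i] (fun _ u => t u) ∅ v ≤ 74 * l := by linarith
        have h4 := Real.exp_one_lt_d9
        have h5 : (0 : ℝ) ≤ l := Nat.cast_nonneg l
        have h6 : 0 < Real.exp 1 := Real.exp_pos 1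
        calc 17 * Real.exp 1 * ∑ i ∈ range l, (Op μ)^[i] (fun _ u => t u) ∅ v
            ≤ 17 * Real.exp 1 * (74 * l) := mul_le_mul_of_nonneg_left h3 (by positivity)
          _ ≤ 3500 * l := by nlinarith
    _ = 3500 * l * ∑ v, χ v := by
        rw [← Finset.sum_mul]; ring

end

end Pool.Agent.Lib.MP_009d13_co.OD
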