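import Pool.Agent.Lib.MP_009d13_co.OD.BR
import Pool.Agent.Lib.MP_009d13_co.OD.GEN
import Pool.Agent.Lib.MP_009d13_co.OD.OPA
import Pool.Agent.Lib.MP_009d13_co.OD.OPB
import Pool.Agent.Lib.MP_009d13_co.OD.XOP

/-!
# XBD: structures using a hub exactly once
-/

set_option autoImplicit false

namespace Pool.Agent.Lib.MP_009d13_co.OD

open Finset Classical

noncomputable section

variable {V : Type} [Fintype V]

/-- paths ending in a hub of degree at most `6` -/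
theorem xbd_pp {μ : V → V → ℝ} (h : Wt μ) (h6 : ∀ v, dg μ v ≤ 6) (k : ℕ) {A : Finset V} {v : V}
    (hv : v ∉ A) : (Pp μ)^[k] (fun _ u => dg μ u) A v ≤ 6 * Real.exp (ms μ A - k) := by
  have h1 : (Pp μ)^[k] (fun _ u => dg μ u) A v ≤ (Pp μ)^[k] (fun _ _ => 6 * 1) A v := by
    rw [Pp_eq_TW]
    exact TW_mono (fun _ v b => h.nonneg v b) (fun _ u _ => by linarith [h6 u]) k hv
  have h2 : (Pp μ)^[k] (fun _ _ => 6 * 1) A v = 6 * (Pp μ)^[k] (fun _ _ => 1) A v := by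
    rw [Pp_eq_TW]
    exact TW_smul _ 6 (fun _ _ => 1) k A v
  have h3 := gen_exp h k hv
  rw [h2] at h1
  linarith

theorem xbd_pp_succ {μ : V → V → ℝ} (h : Wt μ) (h6 : ∀ v, dg μ v ≤ 6) {l : ℕ} (hl : 1 ≤ l)
    (hm : ms μ ∅ = l) (z : V) :
    (Pp μ)^[l] (fun _ u => dg μ u) ∅ z ≤ 6 * Real.exp 1 * dg μ z := by
  obtain ⟨k, rfl⟩ : ∃ k, l = k + 1 := ⟨l - 1, by omega⟩
  rw [Function.iterate_succ_apply']
  unfold Pp
  have h1 : ∀ b ∈ (insert z (∅ : Finset V))ᶜ, μ z b *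
      (Pp μ)^[k] (fun _ u => dg μ u) (insert z ∅) b ≤ μ z b * (6 * Real.exp 1) := by
    intro b hb
    rw [Finset.mem_compl] at hb
    have h2 := xbd_pp h h6 k hb
    have h3 : ms μ (insert z ∅) - k ≤ 1 := by
      rw [ms_insert h (Finset.notMem_empty z), hm]
      have := un_nonneg h ∅ z
      push_cast
      linarith
    have h4 : Real.exp (ms μ (insert z ∅) - k) ≤ Real.exp 1 := Real.exp_le_exp.2 h3
    exact mul_le_mul_of_nonneg_left (by linarith) (h.nonneg z b)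
  refine (Finset.sum_le_sum h1).trans ?_
  rw [← Finset.sum_mul, mul_comm]
  have h5 : ∑ b ∈ (insert z (∅ : Finset V))ᶜ, μ z b ≤ dg μ z := by
    unfold dg
    exact Finset.sum_le_sum_of_subset_of_nonneg (Finset.subset_univ _)
      (fun b _ _ => h.nonneg z b)
  exact mul_le_mul_of_nonneg_left h5 (by positivity)

theorem xbd_ls_one (L : List V) : ls (fun _ : V => (1 : ℝ)) L = 1 := by
  unfold ls
  cases L.reverse <;> rfl

theorem xbd_hd_one (L : List V) : hd (fun _ : V => (1 : ℝ)) L = 1 := by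
  cases L <;> rfl

theorem xz_le {μ : V → V → ℝ} (h : Wt μ) {e : V → V → ℝ} (he : Sp e) {l : ℕ} (hl : 2 ≤ l)
    (hm : ms μ ∅ = l) (h6 : ∀ v, dg μ v ≤ 6) (z : V) :
    Xz μ e l z ≤ 7200 * l * dg μ z
      + 2 * CC μ (dg μ) (fun a b => if b = z then e a b else 0) (dg μ) (l + 1) := by
  obtain ⟨k, rfl⟩ : ∃ k, l = k + 1 := ⟨l - 1, by omega⟩
  have hd0 : 0 ≤ dg μ z := Finset.sum_nonneg fun b _ => h.nonneg z b
  have hexp : Real.exp 1 < 2.7182818286 := Real.exp_one_lt_d9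
  have hexp0 : 0 < Real.exp 1 := Real.exp_pos 1
  -- first term
  have t1 : ∑ L ∈ NL (∅ : Finset V) (k + 1), hd (μ z) L * pw μ L * ls (dg μ) L
      ≤ 6 * Real.exp 1 * dg μ z := by
    rw [br1 μ (μ z) (dg μ) k]
    have h1 : ∀ v ∈ (univ : Finset V), μ z v * (Pp μ)^[k] (fun _ u => dg μ u) ∅ v
        ≤ μ z v * (6 * Real.exp 1) := by
      intro v _
      have h2 := xbd_pp h h6 k (Finset.notMem_empty v)
      have h3 : ms μ ∅ - k = 1 := by rw [hm]; push_cast; ring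
      rw [h3] at h2
      exact mul_le_mul_of_nonneg_left h2 (h.nonneg z v)
    refine (Finset.sum_le_sum h1).trans ?_
    rw [← Finset.sum_mul]
    unfold dg
    linarith
  -- second term
  have t2 : ∑ L ∈ NL (∅ : Finset V) (k + 1 + 1),
      hd (fun u => if u = z then 1 else 0) L * pw μ L * ls (dg μ) L
      ≤ 6 * Real.exp 1 * dg μ z := by
    rw [br1 μ (fun u => if u = z then 1 else 0) (dg μ) (k + 1)]
    simp only [ite_mul, one_mul, zero_mul, Finset.sum_ite_eq', Finset.mem_univ, if_true]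
    exact xbd_pp_succ h h6 (by omega) hm z
  -- third term
  have t3 : ∑ L ∈ NL (∅ : Finset V) (k + 1 + 1), pw μ L * ls (μ z) L ≤ dg μ z := by
    have h1 := wo_rev h (fun _ => (1 : ℝ)) (μ z) (k + 1 + 1)
    simp only [xbd_hd_one, xbd_ls_one, one_mul, mul_one] at h1
    rw [h1]
    have h2 := br1 μ (μ z) (fun _ => (1 : ℝ)) (k + 1)
    simp only [xbd_ls_one, mul_one] at h2
    rw [h2]
    have h3 : ∀ v ∈ (univ : Finset V), μ z v * (Pp μ)^[k + 1] (fun _ _ => 1) ∅ v ≤ μ z v := by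
      intro v _
      have h4 := gen_exp h (k + 1) (Finset.notMem_empty v)
      rw [hm, sub_self, Real.exp_zero] at h4
      have := mul_le_mul_of_nonneg_left h4 (h.nonneg z v)
      linarith
    exact Finset.sum_le_sum h3
  -- last term
  have t5 : CC μ (μ z) e (dg μ) (k + 1 + 1) ≤ 3500 * ((k + 1 : ℕ) : ℝ) * dg μ z :=
    open_le h he (by omega) hm h6 (fun v => h.nonneg z v)
  have hk : (1 : ℝ) ≤ k := by
    have : 1 ≤ k := by omega
    exact_mod_cast this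
  have t1' := mul_le_mul_of_nonneg_left t1 (by positivity : (0 : ℝ) ≤ 4 * (((k + 1 : ℕ) : ℝ) + 1))
  have e1 : 6 * Real.exp 1 * dg μ z ≤ 17 * dg μ z :=
    mul_le_mul_of_nonneg_right (by linarith) hd0
  have e2 : 4 * (((k + 1 : ℕ) : ℝ) + 1) * (6 * Real.exp 1 * dg μ z) ≤
      4 * (((k + 1 : ℕ) : ℝ) + 1) * (17 * dg μ z) :=
    mul_le_mul_of_nonneg_left e1 (by positivity)
  have e3 : 0 ≤ (k : ℝ) * dg μ z := by positivity
  unfold Xz
  push_cast at t1' e2 t5 ⊢
  nlinarith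

end

end Pool.Agent.Lib.MP_009d13_co.OD
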