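import Pool.Agent.Lib.MP_009d13_co.OD.KD6
import Pool.Agent.Lib.MP_009d13_co.OD.KSS
import Pool.Agent.Lib.MP_009d13_co.OD.KU
import Pool.Agent.Lib.MP_009d13_co.OD.XBD
import Pool.Agent.Lib.MP_009d13_co.OD.STAR

/-!
# KDI: the hubs of a maximiser are heavy or tiny
-/

set_option autoImplicit false

namespace Pool.Agent.Lib.MP_009d13_co.OD

open Finset Classical

noncomputable section

theorem kdi_exp_neg {d : ℝ} (h0 : 0 ≤ d) : Real.exp (-d) ≤ 1 - d + d ^ 2 / 2 := by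
  have h1 := Real.quadratic_le_exp_of_nonneg h0
  have h2 : Real.exp d * Real.exp (-d) = 1 := by
    rw [← Real.exp_add]
    simp
  have h3 : (1 + d + d ^ 2 / 2) * Real.exp (-d) ≤ 1 :=
    (mul_le_mul_of_nonneg_right h1 (Real.exp_pos _).le).trans h2.le
  have h4 : 0 < 1 + d + d ^ 2 / 2 := by positivity
  have h5 : 1 ≤ (1 + d + d ^ 2 / 2) * (1 - d + d ^ 2 / 2) := by nlinarith [sq_nonneg (d ^ 2)]
  have h6 : (1 + d + d ^ 2 / 2) * Real.exp (-d) ≤ (1 + d + d ^ 2 / 2) * (1 - d + d ^ 2 / 2) :=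
    h3.trans h5
  exact le_of_mul_le_mul_left h6 h4

theorem kdi_small {d : ℝ} (h0 : 0 ≤ d) (h1 : d ≤ 1 / 2) : d / 2 ≤ 2 * (1 - Real.exp (-d)) - d := by
  have h2 := kdi_exp_neg h0
  nlinarith

theorem kdi_e1 : Real.exp (-(1 / 2)) ≤ 6066 / 10000 := by
  rw [Real.exp_neg, inv_le_comm₀ (Real.exp_pos _) (by norm_num)]
  have h2 := Real.sum_le_exp_of_nonneg (x := 1 / 2) (by norm_num) 6
  refine le_trans ?_ h2
  norm_num [Finset.sum_range_succ, Nat.factorial]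

theorem kdi_e2 : Real.exp (-(3 / 2)) ≤ 2232 / 10000 := by
  rw [Real.exp_neg, inv_le_comm₀ (Real.exp_pos _) (by norm_num)]
  have h2 := Real.sum_le_exp_of_nonneg (x := 3 / 2) (by norm_num) 10
  refine le_trans ?_ h2
  norm_num [Finset.sum_range_succ, Nat.factorial]

theorem kdi_mid {d : ℝ} (h0 : 1 / 2 ≤ d) (h1 : d ≤ 3 / 2) :
    5 / 100 ≤ 2 * (1 - Real.exp (-d)) - d := by
  have h2 := convexOn_exp.2 (Set.mem_univ (-(1 / 2) : ℝ)) (Set.mem_univ (-(3 / 2) : ℝ))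
    (by linarith : (0 : ℝ) ≤ 3 / 2 - d) (by linarith : (0 : ℝ) ≤ d - 1 / 2) (by ring)
  simp only [smul_eq_mul] at h2
  have h3 : (3 / 2 - d) * -(1 / 2) + (d - 1 / 2) * -(3 / 2) = -d := by ring
  rw [h3] at h2
  have h4 : (3 / 2 - d) * Real.exp (-(1 / 2)) ≤ (3 / 2 - d) * (6066 / 10000) :=
    mul_le_mul_of_nonneg_left kdi_e1 (by linarith)
  have h5 : (d - 1 / 2) * Real.exp (-(3 / 2)) ≤ (d - 1 / 2) * (2232 / 10000) :=
    mul_le_mul_of_nonneg_left kdi_e2 (by linarith)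
  linarith

/-- the numerical part -/
theorem kdi_num {L F F0 X G d : ℝ} (hL : 10 ^ 40 ≤ L) (hF : 16 * L ^ 2 ≤ F) (hd0 : 0 ≤ d)
    (hd6 : d ≤ 6) (hX : X ≤ 61 / 10 * 10 ^ 12 * L)
    (hF0 : F0 ≤ Real.exp (-d) * (F + 4 * d))
    (hG : G ≤ Real.exp ((L + 1) * (1 / L * d / L)) * (F + 4 * (1 / L * d)))
    (hU : F + (2 * (1 / L) + (1 / L) ^ 2) * (F - F0 - X) ≤ G) :
    2 * (1 - Real.exp (-d)) - d ≤ 10 ^ 12 / L := by
  have hLp : 0 < L := lt_of_lt_of_le (by positivity) hL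
  have hLbig : (10 : ℝ) ^ 12 ≤ L := le_trans (by norm_num) hL
  obtain ⟨E, hE⟩ : ∃ E, E = Real.exp (-d) := ⟨_, rfl⟩
  have hE0 : 0 < E := by rw [hE]; exact Real.exp_pos _
  have hE1 : E ≤ 1 := by rw [hE]; exact Real.exp_le_one_iff.2 (by linarith)
  rw [← hE] at hF0 ⊢
  obtain ⟨s, hs⟩ : ∃ s, s = 1 / L := ⟨_, rfl⟩
  have hs0 : 0 < s := by rw [hs]; positivity
  have hsL : s * L = 1 := by rw [hs]; field_simp
  have hs1 : s ≤ 1 / 10 ^ 12 := by
    rw [hs]
    exact one_div_le_one_div_of_le (by positivity) hLbig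
  rw [← hs] at hG hU
  have hu : (L + 1) * (s * d / L) = s * d * (1 + s) := by
    have : s * d / L = s * d * s := by rw [hs]; ring
    rw [this]
    calc (L + 1) * (s * d * s) = s * d * (s * L + s) := by ring
      _ = _ := by rw [hsL]
  rw [hu] at hG
  obtain ⟨u, hud⟩ : ∃ u, u = s * d * (1 + s) := ⟨_, rfl⟩
  rw [← hud] at hG
  have hsd : s * d ≤ 6 * s := by nlinarith
  have hu0 : 0 ≤ u := by rw [hud]; positivity
  have hu1 : u ≤ 7 * s := by
    rw [hud]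
    have h1 : s * d * (1 + s) ≤ 6 * s * (1 + 1 / 10 ^ 12) :=
      mul_le_mul hsd (by linarith) (by positivity) (by positivity)
    refine h1.trans ?_
    nlinarith
  have hu2 : u ≤ s * d + 6 * s ^ 2 := by
    rw [hud]
    nlinarith
  have hus : u ≤ 1 := by
    have : (7 : ℝ) * (1 / 10 ^ 12) ≤ 1 := by norm_num
    nlinarith
  have hexp := kss_exp hu0 hus
  have hu3 : u ^ 2 ≤ 49 * s ^ 2 := by nlinarith
  have hexp2 : Real.exp u ≤ 1 + s * d + 55 * s ^ 2 := by linarith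
  have hFp : 0 < F := by
    have : 0 < 16 * L ^ 2 := by positivity
    linarith
  have h4 : 0 ≤ s * d := mul_nonneg hs0.le hd0
  have hG2 : G ≤ (1 + s * d + 55 * s ^ 2) * (F + 4 * (s * d)) :=
    hG.trans (mul_le_mul_of_nonneg_right hexp2 (by linarith))
  -- sum up, everything relative to `F`
  have hFs : s ^ 2 * F ≥ 16 := by
    have h5 : s ^ 2 * (16 * L ^ 2) ≤ s ^ 2 * F := mul_le_mul_of_nonneg_left hF (by positivity)
    have h6 : s ^ 2 * (16 * L ^ 2) = 16 * (s * L) ^ 2 := by ring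
    rw [h6, hsL] at h5
    linarith
  have hF1 : 1 ≤ s ^ 2 * F := by linarith
  -- bounds for the left side
  have hFF0 : F - F0 - X ≥ F * (1 - E) - 24 - 61 / 10 * 10 ^ 12 * L := by
    have h5 : E * (F + 4 * d) ≤ E * F + 24 := by nlinarith
    nlinarith
  have hXs : 61 / 10 * 10 ^ 12 * L ≤ 61 / 160 * 10 ^ 12 * (s * F) := by
    have h5 : 16 * L ≤ s * F := by
      have h6 : s * (16 * L ^ 2) ≤ s * F := mul_le_mul_of_nonneg_left hF hs0.le
      have h7 : s * (16 * L ^ 2) = 16 * L * (s * L) := by ring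
      rw [h7, hsL] at h6
      linarith
    linarith
  have h24 : (24 : ℝ) ≤ 24 * (s ^ 2 * F) := by linarith
  have hA : F - F0 - X ≥ F * (1 - E - 24 * s ^ 2 - 61 / 160 * 10 ^ 12 * s) := by
    nlinarith
  have hcoef : 0 ≤ 2 * s + s ^ 2 := by positivity
  have hB : F + (2 * s + s ^ 2) * (F * (1 - E - 24 * s ^ 2 - 61 / 160 * 10 ^ 12 * s)) ≤
      (1 + s * d + 55 * s ^ 2) * (F + 4 * (s * d)) := by
    have h5 : (2 * s + s ^ 2) * (F * (1 - E - 24 * s ^ 2 - 61 / 160 * 10 ^ 12 * s)) ≤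
        (2 * s + s ^ 2) * (F - F0 - X) := mul_le_mul_of_nonneg_left hA hcoef
    linarith
  have hC : (1 + s * d + 55 * s ^ 2) * (F + 4 * (s * d)) ≤
      F * (1 + s * d + 56 * s ^ 2) := by
    have h5 : (1 + s * d + 55 * s ^ 2) ≤ 2 := by nlinarith
    have h6 : 4 * (s * d) ≤ 24 * s * 1 := by linarith
    have h7 : 24 * s * 1 ≤ 24 * s * (s ^ 2 * F) :=
      mul_le_mul_of_nonneg_left hF1 (by positivity)
    have h8 : (1 + s * d + 55 * s ^ 2) * (4 * (s * d)) ≤ 2 * (24 * s * (s ^ 2 * F)) :=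
      mul_le_mul h5 (h6.trans h7) (by positivity) (by norm_num)
    have h9 : 48 * s ≤ 1 := by linarith
    have h10 : 2 * (24 * s * (s ^ 2 * F)) ≤ s ^ 2 * F := by
      have : 0 ≤ s ^ 2 * F := by positivity
      nlinarith
    nlinarith
  -- divide by `F`
  have hD : 1 + (2 * s + s ^ 2) * (1 - E - 24 * s ^ 2 - 61 / 160 * 10 ^ 12 * s) ≤
      1 + s * d + 56 * s ^ 2 := by
    have h5 : F * (1 + (2 * s + s ^ 2) * (1 - E - 24 * s ^ 2 - 61 / 160 * 10 ^ 12 * s)) ≤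
        F * (1 + s * d + 56 * s ^ 2) := by
      refine le_trans (le_of_eq ?_) (hB.trans hC)
      ring
    exact le_of_mul_le_mul_left h5 hFp
  -- divide by `s`
  have hE2 : 0 ≤ 1 - E := by linarith
  have hI : s * ((2 + s) * (1 - E - 24 * s ^ 2 - 61 / 160 * 10 ^ 12 * s)) ≤
      s * (d + 56 * s) := by nlinarith
  have hJ := le_of_mul_le_mul_left hI hs0
  have hK : (2 + s) * (24 * s ^ 2 + 61 / 160 * 10 ^ 12 * s) ≤ 8 / 10 * 10 ^ 12 * s := by
    have h5 : 24 * s ^ 2 ≤ s := by nlinarith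
    have h6 : 24 * s ^ 2 + 61 / 160 * 10 ^ 12 * s ≤ (61 / 160 * 10 ^ 12 + 1) * s := by linarith
    have h7 : (2 + s) * (24 * s ^ 2 + 61 / 160 * 10 ^ 12 * s) ≤
        (2 + 1 / 10 ^ 12) * ((61 / 160 * 10 ^ 12 + 1) * s) :=
      mul_le_mul (by linarith) h6 (by positivity) (by norm_num)
    refine h7.trans ?_
    nlinarith
  have hM : 2 * (1 - E) ≤ (2 + s) * (1 - E) := by nlinarith
  have hfin : 2 * (1 - E) - d ≤ 10 ^ 12 * s := by nlinarith
  rw [hs] at hfin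
  calc 2 * (1 - E) - d ≤ 10 ^ 12 * (1 / L) := hfin
    _ = 10 ^ 12 / L := by ring

variable {V : Type} [Fintype V]

theorem kdi_sc_zero {μ : V → V → ℝ} {e : V → V → ℝ} (he : Sp e) {l : ℕ} (hl : 1 ≤ l)
    {lam δ : ℝ} (hlam : 0 ≤ lam) (hlam1 : lam ≤ 1) (hM : Mx μ e l lam δ) (z : V) :
    Fo (sc μ z 0) e l ≤ Real.exp (-dg μ z) * (Fo μ e l + 4 * dg μ z) := by
  have hW := hM.1
  have hd0 := kd6_dg_nonneg hW z
  have h1 := kd6_sc he.nonneg hl hlam hlam1 hM z le_rfl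
  have h2 : |(0 : ℝ) - 1| = 1 := by norm_num
  rw [h2, one_mul] at h1
  refine h1.trans (mul_le_mul_of_nonneg_right ?_ ?_)
  · apply Real.exp_le_exp.2
    have hl0 : (0 : ℝ) < l := by exact_mod_cast hl
    have h3 : ((l + 1 : ℕ) : ℝ) * ((0 - 1) * dg μ z / l) = -(dg μ z) * (((l : ℝ) + 1) / l) := by
      push_cast
      field_simp
      ring
    rw [h3]
    have h5 : (1 : ℝ) ≤ ((l : ℝ) + 1) / l := by
      rw [le_div_iff₀ hl0]
      linarith
    nlinarith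
  · have := fo_nonneg hW he.nonneg l
    linarith

theorem mx_dich {μ : V → V → ℝ} {e : V → V → ℝ} (he : Sp e) {l : ℕ} (hl : 10 ^ 40 ≤ l)
    {lam δ : ℝ} (hlam : 0 ≤ lam) (hlam1 : lam ≤ 1) (hM : Mx μ e l lam δ)
    (hF : 16 * (l : ℝ) ^ 2 ≤ Fo μ e l) (z : V) :
    dg μ z ≤ 10 ^ 13 / l ∨ 3 / 2 ≤ dg μ z := by
  have hW := hM.1
  have hm := hM.2.1
  have hlR : (10 : ℝ) ^ 40 ≤ l := by exact_mod_cast hl
  have hl100 : 100 ≤ l := le_trans (by norm_num) hl
  have hlp : (0 : ℝ) < l := lt_of_lt_of_le (by positivity) hlR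
  have h6 : ∀ v, dg μ v ≤ 6 := fun v => mx_deg6 he hl100 hlam hlam1 hM hF v
  have hd0 := kd6_dg_nonneg hW z
  have hX : Xz μ e l z ≤ 61 / 10 * 10 ^ 12 * l := by
    have h1 := xz_le hW he (by omega : 2 ≤ l) hm h6 z
    have h2 : CC μ (dg μ) (fun a b => if b = z then e a b else 0) (dg μ) (l + 1) ≤
        CC μ (dg μ) (fun _ b => if b = z then 1 else 0) (dg μ) (l + 1) := by
      have hdg : ∀ v, 0 ≤ dg μ v := fun v => kd6_dg_nonneg hW v
      apply em_cc_mono hW.nonneg (fun _ _ => le_rfl) hdg (fun _ => le_rfl) hdg (fun _ => le_rfl)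
      · intro a b
        split_ifs
        · exact he.nonneg a b
        · exact le_rfl
      · intro a b
        split_ifs
        · exact he.le_one a b
        · exact le_rfl
    have h3 := star hW (by omega : 1 ≤ l) hm h6 z
    have h4 : 7200 * (l : ℝ) * dg μ z ≤ 7200 * l * 6 :=
      mul_le_mul_of_nonneg_left (h6 z) (by positivity)
    have h5 : 7200 * (l : ℝ) * 6 + 2 * (3 * 10 ^ 12 * l) ≤ 61 / 10 * 10 ^ 12 * l := by
      nlinarith
    linarith
  have hs : (0 : ℝ) ≤ 1 / (l : ℝ) := by positivity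
  have hU := usage hW he (by omega : 2 ≤ l) z hs
  have hG := kd6_sc he.nonneg (by omega : 1 ≤ l) hlam hlam1 hM z
    (by positivity : (0 : ℝ) ≤ 1 + 1 / (l : ℝ))
  rw [add_sub_cancel_left, abs_of_nonneg hs] at hG
  push_cast at hG
  have hmain := kdi_num hlR hF hd0 (h6 z) hX (kdi_sc_zero he (by omega) hlam hlam1 hM z) hG hU
  rcases le_total (dg μ z) (1 / 2) with hc | hc
  · left
    have h7 := kdi_small hd0 hc
    have h8 : dg μ z ≤ 2 * (10 ^ 12 / l) := by linarith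
    refine h8.trans ?_
    rw [mul_div_assoc', div_le_div_iff_of_pos_right hlp]
    norm_num
  · right
    by_contra hcon
    push Not at hcon
    have h7 := kdi_mid hc hcon.le
    have h8 : (10 : ℝ) ^ 12 / l ≤ 1 / 10 ^ 28 := by
      rw [div_le_div_iff₀ hlp (by positivity)]
      refine le_trans (le_of_eq ?_) (le_trans hlR (le_of_eq (one_mul _).symm))
      norm_num
    have h9 : (1 : ℝ) / 10 ^ 28 < 5 / 100 := by norm_num
    linarith

end

end Pool.Agent.Lib.MP_009d13_co.OD
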