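import Pool.Agent.Lib.MP_009d13_co.OD.EI
import Pool.Agent.Lib.MP_009d13_co.OD.EM
import Pool.Agent.Lib.MP_009d13_co.OD.KA

/-! MV: one move of private mass into a class between two hubs. -/

set_option autoImplicit false

namespace Pool.Agent.Lib.MP_009d13_co.OD

open Finset Classical

noncomputable section

variable {V : Type} [Fintype V]

theorem mv_dg_ad (μ : V → V → ℝ) {x y : V} (hxy : x ≠ y) (η : ℝ) (v : V) :
    dg (ad μ x y η) v = dg μ v + (if v = x then η else 0) + if v = y then η else 0 := by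
  unfold dg ad
  rw [Finset.sum_add_distrib, add_assoc]
  congr 1
  by_cases hx : v = x
  · have hy : v ≠ y := fun h => hxy (hx.symm.trans h)
    rw [if_pos hx, if_neg hy, add_zero]
    rw [Finset.sum_eq_single y]
    · rw [if_pos (Or.inl ⟨hx, rfl⟩)]
    · intro b _ hb
      rw [if_neg]
      rintro (⟨_, h⟩ | ⟨h, _⟩)
      · exact hb h
      · exact hy h
    · intro h
      exact absurd (Finset.mem_univ _) h
  · rw [if_neg hx, zero_add]
    by_cases hy : v = y
    · rw [if_pos hy, Finset.sum_eq_single x]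
      · rw [if_pos (Or.inr ⟨hy, rfl⟩)]
      · intro b _ hb
        rw [if_neg]
        rintro (⟨h, _⟩ | ⟨_, h⟩)
        · exact hx h
        · exact hb h
      · intro h
        exact absurd (Finset.mem_univ _) h
    · rw [if_neg hy]
      refine Finset.sum_eq_zero fun b _ => ?_
      rw [if_neg]
      rintro (⟨h, _⟩ | ⟨h, _⟩)
      · exact hx h
      · exact hy h

theorem mv_ao_mono {μ μ' : V → V → ℝ} {d d' : V → ℝ} (h0 : ∀ a b, 0 ≤ μ a b)
    (h : ∀ a b, μ a b ≤ μ' a b) (hd0 : ∀ a, 0 ≤ d a) (hd : ∀ a, d a ≤ d' a) (l : ℕ) :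
    Ao μ d l ≤ Ao μ' d' l := by
  refine Finset.sum_le_sum fun P _ => ?_
  exact mul_le_mul (pw_mono h0 h P) (em_ls_mono hd P) (ls_nonneg hd0 P)
    ((pw_nonneg μ h0 P).trans (pw_mono h0 h P))

/-- the functional increases at least as much as the first term -/
theorem mv_fd {μ μ' : V → V → ℝ} {d d' : V → ℝ} {e : V → V → ℝ} (h0 : ∀ a b, 0 ≤ μ a b)
    (h : ∀ a b, μ a b ≤ μ' a b) (hd0 : ∀ a, 0 ≤ d a) (hd : ∀ a, d a ≤ d' a)
    (he : ∀ a b, 0 ≤ e a b) (l : ℕ) {X : ℝ} (hX : Wo μ d l + X ≤ Wo μ' d' l) :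
    Fd μ d e l + 2 * (l + 1) * X ≤ Fd μ' d' e l := by
  have h2 := mv_ao_mono h0 h hd0 hd l
  have h3 : CC μ d e d (l + 1) ≤ CC μ' d' e d' (l + 1) :=
    em_cc_mono h0 h hd0 hd hd0 hd he (fun _ _ => le_refl _) (l + 1)
  unfold Fd
  have h4 : (0 : ℝ) ≤ 2 * (l + 1) := by positivity
  have h5 := mul_le_mul_of_nonneg_left hX h4
  rw [mul_add] at h5
  linarith

omit [Fintype V] in
theorem mv_ad_le (μ : V → V → ℝ) (x y : V) {η : ℝ} (hη : 0 ≤ η) (a b : V) :
    μ a b ≤ ad μ x y η a b := by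
  unfold ad
  split_ifs <;> linarith

theorem mv_dn_nonneg {μ : V → V → ℝ} (h : Wt μ) {ν : V → ℝ} (hν : ∀ v, 0 ≤ ν v) (v : V) :
    0 ≤ dn μ ν v := add_nonneg (Finset.sum_nonneg fun _ _ => h.nonneg _ _) (hν v)

theorem move_nu {μ : V → V → ℝ} (h : Wt μ) {ν : V → ℝ} (hν : ∀ v, 0 ≤ ν v) {ρ : ℝ}
    (hρ : 0 ≤ ρ) {e : V → V → ℝ} (he : ∀ a b, 0 ≤ e a b) {l : ℕ} (hl : 2 ≤ l)
    (hV : 2 ≤ Fintype.card V) (a : V) {η : ℝ} (hη : 0 ≤ η) (hηa : η ≤ ν a) {E2 : ℝ}
    (hE : ∃ b, b ≠ a ∧ E2 ≤ En μ (dn μ ν) l b) :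
    ∃ b, b ≠ a ∧ FG μ ν ρ e l + 4 * (l - 1) * η * E2
      ≤ FG (ad μ a b η) (fun v => if v = a then ν a - η else ν v) ρ e l := by
  have hd0 := mv_dn_nonneg h hν
  -- the best partner
  obtain ⟨b₀, hb₀, hE2⟩ := hE
  have hne : (univ.erase a : Finset V).Nonempty := ⟨b₀, by simp [hb₀]⟩
  obtain ⟨b, hb, hbmax⟩ := Finset.exists_max_image (univ.erase a)
    (fun b => So μ (dn μ ν) l a b + En μ (dn μ ν) l b) hne
  have hba : b ≠ a := (Finset.mem_erase.mp hb).1
  have hmax : ∀ c, c ≠ a → So μ (dn μ ν) l a c + En μ (dn μ ν) l c ≤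
      So μ (dn μ ν) l a b + En μ (dn μ ν) l b := fun c hc =>
    hbmax c (Finset.mem_erase.mpr ⟨hc, Finset.mem_univ c⟩)
  refine ⟨b, hba, ?_⟩
  set d := dn μ ν with hd
  set M := So μ d l a b + En μ d l b with hM
  have hnn := fun x y => so_nonneg h.nonneg hd0 l x y
  have hM0 : 0 ≤ M := add_nonneg (hnn a b).1 (hnn b b).2.1
  have hME2 : E2 ≤ M := hE2.trans (le_trans (by
    have := (hnn a b₀).1
    linarith) (hmax b₀ hb₀))
  -- `gm` is attained at `b`
  have hgm : gm μ d l a ≤ M + En μ d l a := by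
    unfold gm
    have : Nonempty V := ⟨a⟩
    refine ciSup_le fun c => ?_
    split_ifs with hc
    · exact add_nonneg hM0 (hnn a a).2.1
    · have := hmax c hc
      linarith
  -- new degrees
  have hd' : dn (ad μ a b η) (fun v => if v = a then ν a - η else ν v) =
      fun v => d v + (if v = a then 0 else 0) + if v = b then η else 0 := by
    funext v
    unfold dn
    rw [mv_dg_ad μ (Ne.symm hba)]
    by_cases hva : v = a
    · have hvb : v ≠ b := fun hh => hba (hh.symm.trans hva)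
      simp only [if_pos hva, if_neg hvb, hd, dn]
      rw [hva]; ring
    · by_cases hvb : v = b
      · simp only [if_neg hva, if_pos hvb, hd, dn]; ring
      · simp only [if_neg hva, if_neg hvb, hd, dn]; ring
  have hdd : ∀ v, d v ≤ dn (ad μ a b η) (fun v => if v = a then ν a - η else ν v) v := by
    intro v
    rw [hd']
    show d v ≤ d v + (if v = a then 0 else 0) + if v = b then η else 0
    split_ifs <;> linarith
  have hW := wo_ad h hd0 hl (Ne.symm hba) (η := η) (α := 0) (β := η) hη (le_refl _) hη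
  rw [← hd'] at hW
  have hF := mv_fd (e := e) h.nonneg (mv_ad_le μ a b hη) hd0 hdd he l
    (X := 2 * η * So μ d l a b + 2 * 0 * En μ d l a + 2 * η * En μ d l b) (by linarith)
  have hG : ∀ c, gm μ d l c ≤
      gm (ad μ a b η) (dn (ad μ a b η) (fun v => if v = a then ν a - η else ν v)) l c :=
    fun c => (gm_mono h.nonneg (mv_ad_le μ a b hη) hd0 hdd l c).1
  have hEm : em μ d l ≤
      em (ad μ a b η) (dn (ad μ a b η) (fun v => if v = a then ν a - η else ν v)) l :=
    (gm_mono h.nonneg (mv_ad_le μ a b hη) hd0 hdd l a).2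
  have hsum : (∑ c, ν c * gm μ d l c) - η * gm μ d l a ≤
      ∑ c, (if c = a then ν a - η else ν c) *
        gm (ad μ a b η) (dn (ad μ a b η) (fun v => if v = a then ν a - η else ν v)) l c := by
    have h1 : (∑ c, ν c * gm μ d l c) - η * gm μ d l a =
        ∑ c, (if c = a then ν a - η else ν c) * gm μ d l c := by
      have h2 : ∑ c, (if c = a then ν a - η else ν c) * gm μ d l c =
          ∑ c, (ν c * gm μ d l c - if c = a then η * gm μ d l a else 0) := by
        refine Finset.sum_congr rfl fun c _ => ?_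
        split_ifs with hc
        · rw [hc]; ring
        · ring
      rw [h2, Finset.sum_sub_distrib]
      simp
    rw [h1]
    refine Finset.sum_le_sum fun c _ => ?_
    refine mul_le_mul_of_nonneg_left (hG c) ?_
    split_ifs
    · linarith
    · exact hν c
  -- `En a ≤ M` if `η > 0`
  have hEa : η * En μ d l a ≤ η * M := by
    rcases hη.eq_or_lt with h0 | h0
    · rw [← h0]; simp
    · refine mul_le_mul_of_nonneg_left ?_ hη
      rcases (hnn a a).2.1.eq_or_lt with h1 | h1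
      · rw [← h1]; exact hM0
      · have hda : 0 < d a := by
          have : 0 ≤ dg μ a := Finset.sum_nonneg fun _ _ => h.nonneg _ _
          show 0 < dg μ a + ν a
          linarith
        have hdg : dg μ a ≤ d a := by
          show dg μ a ≤ dg μ a + ν a
          have := hν a
          linarith
        obtain ⟨c, hc, hc2⟩ := exists_so_ge h hl hd0 hdg hda h1
        have h3 := hmax c hc
        have h4 := (hnn c c).2.1
        linarith
  have hl1 : (0 : ℝ) ≤ (l : ℝ) - 1 := by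
    have : (1 : ℝ) ≤ l := by exact_mod_cast (by omega : 1 ≤ l)
    linarith
  have hfin : 4 * (l - 1) * η * E2 ≤ 4 * (l - 1) * η * M :=
    mul_le_mul_of_nonneg_left hME2 (by positivity)
  have hη1 : η * gm μ d l a ≤ η * (M + En μ d l a) := mul_le_mul_of_nonneg_left hgm hη
  have hρem := mul_le_mul_of_nonneg_left hEm hρ
  unfold FG
  rw [← hd]
  have hMη : η * So μ d l a b + η * En μ d l b = η * M := by rw [hM]; ring
  have key : 2 * ((l : ℝ) + 1) * (2 * η * So μ d l a b + 2 * 0 * En μ d l a + 2 * η * En μ d l b)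
      = 4 * (l + 1) * (η * M) := by rw [← hMη]; ring
  rw [key] at hF
  have e1 : 4 * ((l : ℝ) + 1) * (η * M) - 4 * (η * (M + En μ d l a)) ≥ 4 * (l - 1) * η * M := by
    nlinarith
  linarith

theorem move_rho {μ : V → V → ℝ} (h : Wt μ) {ν : V → ℝ} (hν : ∀ v, 0 ≤ ν v) {ρ : ℝ}
    {e : V → V → ℝ} (he : ∀ a b, 0 ≤ e a b) {l : ℕ} (hl : 2 ≤ l)
    (hV : 2 ≤ Fintype.card V) {η : ℝ} (hη : 0 ≤ η) (hηρ : η ≤ ρ) {E2 : ℝ}
    (hE : ∀ a, ∃ b, b ≠ a ∧ E2 ≤ En μ (dn μ ν) l b) :
    ∃ a b, a ≠ b ∧ FG μ ν ρ e l + 4 * (l - 1) * η * E2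
      ≤ FG (ad μ a b η) ν (ρ - η) e l := by
  have hd0 := mv_dn_nonneg h hν
  have hnn := fun x y => so_nonneg h.nonneg hd0 l x y
  -- the best pair
  obtain ⟨a₀, b₀, hab₀⟩ := Fintype.exists_pair_of_one_lt_card (by omega : 1 < Fintype.card V)
  have hne : (univ.filter fun p : V × V => p.1 ≠ p.2).Nonempty := ⟨(a₀, b₀), by simp [hab₀]⟩
  obtain ⟨p, hp, hpmax⟩ := Finset.exists_max_image (univ.filter fun p : V × V => p.1 ≠ p.2)
    (fun p => En μ (dn μ ν) l p.1 + En μ (dn μ ν) l p.2) hne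
  obtain ⟨a, b⟩ := p
  have hab : a ≠ b := (Finset.mem_filter.mp hp).2
  have hmax : ∀ c c', c ≠ c' → En μ (dn μ ν) l c + En μ (dn μ ν) l c' ≤
      En μ (dn μ ν) l a + En μ (dn μ ν) l b := fun c c' hc =>
    hpmax (c, c') (Finset.mem_filter.mpr ⟨Finset.mem_univ _, hc⟩)
  refine ⟨a, b, hab, ?_⟩
  set d := dn μ ν with hd
  set M := En μ d l a + En μ d l b with hM
  have hM0 : 0 ≤ M := add_nonneg (hnn a b).2.1 (hnn b b).2.1
  obtain ⟨c, hc, hc2⟩ := hE a
  have hME2 : E2 ≤ M := by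
    have h1 := hmax a c (Ne.symm hc)
    have h2 := (hnn a a).2.1
    linarith
  have hem : em μ d l ≤ M := by
    unfold em
    have : Nonempty (V × V) := ⟨(a, b)⟩
    refine ciSup_le fun q => ?_
    split_ifs with hq
    · exact hM0
    · exact hmax q.1 q.2 hq
  have hd' : dn (ad μ a b η) ν = fun v => d v + (if v = a then η else 0) + if v = b then η else 0 := by
    funext v
    unfold dn
    rw [mv_dg_ad μ hab, hd]
    unfold dn
    ring
  have hdd : ∀ v, d v ≤ dn (ad μ a b η) ν v := by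
    intro v
    rw [hd']
    show d v ≤ d v + (if v = a then η else 0) + if v = b then η else 0
    split_ifs <;> linarith
  have hW := wo_ad h hd0 hl hab (η := η) (α := η) (β := η) hη hη hη
  rw [← hd'] at hW
  have hF := mv_fd (e := e) h.nonneg (mv_ad_le μ a b hη) hd0 hdd he l
    (X := 2 * η * So μ d l a b + 2 * η * En μ d l a + 2 * η * En μ d l b) (by linarith)
  have hG : ∑ c, ν c * gm μ d l c ≤ ∑ c, ν c * gm (ad μ a b η) (dn (ad μ a b η) ν) l c :=
    Finset.sum_le_sum fun c _ => mul_le_mul_of_nonneg_left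
      (gm_mono h.nonneg (mv_ad_le μ a b hη) hd0 hdd l c).1 (hν c)
  have hEm : em μ d l ≤ em (ad μ a b η) (dn (ad μ a b η) ν) l :=
    (gm_mono h.nonneg (mv_ad_le μ a b hη) hd0 hdd l a).2
  have hl1 : (1 : ℝ) ≤ l := by exact_mod_cast (by omega : 1 ≤ l)
  have hfin : 4 * (l - 1) * η * E2 ≤ 4 * (l - 1) * η * M :=
    mul_le_mul_of_nonneg_left hME2 (by
      have : (0 : ℝ) ≤ (l : ℝ) - 1 := by linarith
      positivity)
  have hρem : (ρ - η) * em μ d l ≤ (ρ - η) * em (ad μ a b η) (dn (ad μ a b η) ν) l :=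
    mul_le_mul_of_nonneg_left hEm (by linarith)
  have hηem : η * em μ d l ≤ η * M := mul_le_mul_of_nonneg_left hem hη
  unfold FG
  rw [← hd]
  have hSo : 0 ≤ η * So μ d l a b := mul_nonneg hη (hnn a b).1
  have key : 2 * ((l : ℝ) + 1) * (2 * η * So μ d l a b + 2 * η * En μ d l a + 2 * η * En μ d l b)
      ≥ 4 * (l + 1) * (η * M) := by
    have e2 : η * M = η * En μ d l a + η * En μ d l b := by rw [hM]; ring
    rw [e2]
    nlinarith
  have hηM : 0 ≤ η * M := mul_nonneg hη hM0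
  have e1 : 4 * ((l : ℝ) + 1) * (η * M) - 6 * (η * M) ≥ 4 * (l - 1) * η * M := by
    nlinarith
  nlinarith

end

end Pool.Agent.Lib.MP_009d13_co.OD
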