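import Pool.Agent.Lib.MP_009d13_co.OD.Defs2
import Pool.Agent.Lib.MP_009d13_co.OD.NRB
import Pool.Agent.Lib.MP_009d13_co.OD.BDA
import Pool.Agent.Lib.MP_009d13_co.OD.BDB
import Pool.Agent.Lib.MP_009d13_co.OD.EM
import Pool.Agent.Lib.MP_009d13_co.OD.EI
import Pool.Agent.Lib.MP_009d13_co.OD.CFG

/-!
NRPA: parts (a) and (b) of NRP (pairs whose ends are not in `Or`), see the head comment of NRP in
OD_skel.tgz. Every vertex outside `Hr h` and `Or G h` lies in exactly one class `Yj G h j`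
(`nrb_compl`, `nrb_disj`, `nrb_split`). `ps_crude` bounds every single pair.
-/

set_option autoImplicit false

namespace Pool.Agent.Lib.MP_009d13_co.OD

open Finset Classical
open Pool.Agent.Lib.MP_009d13_co.P5 (nb kk)

noncomputable section

variable {V : Type} [Fintype V] (G : SimpleGraph V)

omit [Fintype V] in
theorem nrpa_ne {l : ℕ} (hl : 3 ≤ l) (h : Fin l ↪ V) (j : Fin l) : h j ≠ h (finRotate l j) :=
  fun e => nrb_rot1 hl j (h.injective e).symm

/-- A pair inside one class. -/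
theorem nrpa_ps {l : ℕ} (hl : 3 ≤ l) (h : Fin l ↪ V) (j : Fin l) {x y : V}
    (hx : x ∈ Yj G h j) (hy : y ∈ Yj G h j) :
    ps G (Hr h) l x y = 2 * So (mH G (Hr h)) (dH G (Hr h)) l (h j) (h (finRotate l j))
      + 2 * En (mH G (Hr h)) (dH G (Hr h)) l (h j)
      + 2 * En (mH G (Hr h)) (dH G (Hr h)) l (h (finRotate l j)) := by
  unfold ps
  rw [((nrb_mem_Yj G h j x).mp hx).2, ((nrb_mem_Yj G h j y).mp hy).2]
  rw [Finset.sum_pair (nrpa_ne hl h j), Finset.sum_pair (nrpa_ne hl h j),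
    Finset.sum_pair (nrpa_ne hl h j), Finset.sum_pair (nrpa_ne hl h j), so_self, so_self,
    so_symm (wt_mH G (Hr h)) _ l (h (finRotate l j)) (h j)]
  ring

theorem nrpa_mem_pr (S T : Finset V) (p : V × V) :
    p ∈ P5.pr G S T ↔ p.1 ∈ S ∧ p.2 ∈ T ∧ G.Adj p.1 p.2 := by
  simp only [P5.pr, mem_filter, mem_univ, true_and]

/-- The pairs inside one class. -/
theorem nrpa_same (hS : P5.Sparse6 G) {l : ℕ} (hl : 3 ≤ l) (h : Fin l ↪ V)
    (hm : ms (mH G (Hr h)) ∅ ≤ 2 * (Fintype.card V : ℝ))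
    (hd : ∑ a, dH G (Hr h) a ≤ 6 * (Fintype.card V : ℝ)) (j : Fin l) :
    ∑ p ∈ P5.pr G (Yj G h j) (Yj G h j), ps G (Hr h) l p.1 p.2
      ≤ 2 * ((Yj G h j).card * (2 * So (mH G (Hr h)) (dH G (Hr h)) l (h j) (h (finRotate l j))
        + 2 * En (mH G (Hr h)) (dH G (Hr h)) l (h j)
        + 2 * En (mH G (Hr h)) (dH G (Hr h)) l (h (finRotate l j))))
        + 12 * (40 * l * 2 ^ l * (Fintype.card V : ℝ) ^ l) := by
  set f := 2 * So (mH G (Hr h)) (dH G (Hr h)) l (h j) (h (finRotate l j))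
        + 2 * En (mH G (Hr h)) (dH G (Hr h)) l (h j)
        + 2 * En (mH G (Hr h)) (dH G (Hr h)) l (h (finRotate l j)) with hf
  have h1 := bda_nn G (Hr h) l (h j) (h (finRotate l j))
  have h2 := bda_nn G (Hr h) l (h (finRotate l j)) (h j)
  have hf0 : 0 ≤ f := by
    have := h1.1
    have := h1.2.1
    have := h2.2.1
    rw [hf]
    linarith
  have hB0 : (0 : ℝ) ≤ 40 * l * 2 ^ l * (Fintype.card V : ℝ) ^ l := by positivity
  have e1 : ∑ p ∈ P5.pr G (Yj G h j) (Yj G h j), ps G (Hr h) l p.1 p.2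
      = ((P5.pr G (Yj G h j) (Yj G h j)).card : ℝ) * f := by
    rw [← nsmul_eq_mul, ← Finset.sum_const]
    refine Finset.sum_congr rfl fun p hp => ?_
    rw [nrpa_mem_pr] at hp
    exact nrpa_ps G hl h j hp.1 hp.2.1
  rw [e1]
  rcases (P5.pr G (Yj G h j) (Yj G h j)).eq_empty_or_nonempty with he | ⟨p, hp⟩
  · rw [he, card_empty, Nat.cast_zero, zero_mul]
    positivity
  · rw [nrpa_mem_pr] at hp
    have e2 := nrpa_ps G hl h j hp.1 hp.2.1
    have e3 := ps_crude G (Hr h) (l := l) (by omega) hm hd p.1 p.2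
    rw [e2] at e3
    have e4 : ((P5.pr G (Yj G h j) (Yj G h j)).card : ℝ) ≤ 2 * (Yj G h j).card + 12 := by
      exact_mod_cast pr_Yj G hS hl h j
    have e5 := mul_le_mul_of_nonneg_right e4 hf0
    calc ((P5.pr G (Yj G h j) (Yj G h j)).card : ℝ) * f
        ≤ (2 * (Yj G h j).card + 12) * f := e5
      _ = 2 * ((Yj G h j).card * f) + 12 * f := by ring
      _ ≤ 2 * ((Yj G h j).card * f) + 12 * (40 * l * 2 ^ l * (Fintype.card V : ℝ) ^ l) := by
        linarith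

/-- Decomposition into classes. -/
theorem nrpa_split {l : ℕ} (h : Fin l ↪ V) (f : V × V → ℝ) (hf : ∀ p, 0 ≤ f p) :
    ∑ p ∈ (P5.pr G (Hr h)ᶜ (Hr h)ᶜ).filter (fun p => p.1 ∉ Or G h ∧ p.2 ∉ Or G h), f p
      ≤ ∑ i, ∑ j, ∑ p ∈ P5.pr G (Yj G h i) (Yj G h j), f p := by
  have h1 : ∀ p ∈ (P5.pr G (Hr h)ᶜ (Hr h)ᶜ).filter (fun p => p.1 ∉ Or G h ∧ p.2 ∉ Or G h),
      f p ≤ ∑ i, ∑ j, if p ∈ P5.pr G (Yj G h i) (Yj G h j) then f p else 0 := by
    intro p hp
    rw [mem_filter, nrpa_mem_pr] at hp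
    obtain ⟨⟨p1, p2, p3⟩, p4, p5⟩ := hp
    rw [nrb_compl G h, mem_union] at p1 p2
    have q1 := p1.resolve_right p4
    have q2 := p2.resolve_right p5
    rw [mem_biUnion] at q1 q2
    obtain ⟨i, -, hi⟩ := q1
    obtain ⟨j, -, hj⟩ := q2
    have hnn : ∀ i j, 0 ≤ if p ∈ P5.pr G (Yj G h i) (Yj G h j) then f p else 0 := by
      intro i j
      split_ifs
      · exact hf p
      · exact le_refl _
    calc f p = if p ∈ P5.pr G (Yj G h i) (Yj G h j) then f p else 0 := by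
          rw [if_pos ((nrpa_mem_pr G _ _ p).mpr ⟨hi, hj, p3⟩)]
      _ ≤ ∑ j, if p ∈ P5.pr G (Yj G h i) (Yj G h j) then f p else 0 :=
          Finset.single_le_sum (f := fun j => if p ∈ P5.pr G (Yj G h i) (Yj G h j) then f p else 0)
            (fun j _ => hnn i j) (mem_univ j)
      _ ≤ _ := Finset.single_le_sum
            (f := fun i => ∑ j, if p ∈ P5.pr G (Yj G h i) (Yj G h j) then f p else 0)
            (fun i _ => Finset.sum_nonneg fun j _ => hnn i j) (mem_univ i)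
  refine (Finset.sum_le_sum h1).trans ?_
  rw [Finset.sum_comm]
  refine Finset.sum_le_sum fun i _ => ?_
  rw [Finset.sum_comm]
  refine Finset.sum_le_sum fun j _ => ?_
  rw [← Finset.sum_filter]
  refine Finset.sum_le_sum_of_subset_of_nonneg ?_ fun p _ _ => hf p
  intro p hp
  exact (mem_filter.mp hp).2

/-- The pairs of neighbours on the ring are distinct. -/
theorem nrpa_ring {l : ℕ} (hl : 3 ≤ l) (h : Fin l ↪ V) (F : V → V → ℝ) (hF : ∀ a b, 0 ≤ F a b) :
    ∑ j, (F (h j) (h (finRotate l j)) + F (h (finRotate l j)) (h j)) ≤ ∑ a, ∑ b, F a b := by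
  have h1 : ∑ a, ∑ b, F a b = ∑ p : V × V, F p.1 p.2 := by
    rw [Fintype.sum_prod_type]
  rw [h1]
  let e : Fin l ⊕ Fin l → V × V := Sum.elim (fun j => (h j, h (finRotate l j)))
    (fun j => (h (finRotate l j), h j))
  have he : Function.Injective e := by
    rintro (i | i) (j | j) hij
    · simp only [e, Sum.elim_inl, Prod.mk.injEq] at hij
      rw [h.injective hij.1]
    · simp only [e, Sum.elim_inl, Sum.elim_inr, Prod.mk.injEq] at hij
      have a1 := h.injective hij.1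
      have a2 := h.injective hij.2
      rw [a1] at a2
      exact absurd a2 (nrb_rot2 hl j)
    · simp only [e, Sum.elim_inl, Sum.elim_inr, Prod.mk.injEq] at hij
      have a1 := h.injective hij.1
      have a2 := h.injective hij.2
      rw [← a1] at a2
      exact absurd a2.symm (nrb_rot2 hl i)
    · simp only [e, Sum.elim_inr, Prod.mk.injEq] at hij
      rw [h.injective hij.2]
  have h2 : ∑ j, (F (h j) (h (finRotate l j)) + F (h (finRotate l j)) (h j))
      = ∑ x : Fin l ⊕ Fin l, F (e x).1 (e x).2 := by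
    rw [Fintype.sum_sum_type, Finset.sum_add_distrib]
    rfl
  rw [h2, ← Finset.sum_image (s := univ) (g := e) (f := fun p : V × V => F p.1 p.2)
    (fun x _ y _ hxy => he hxy)]
  exact Finset.sum_le_sum_of_subset_of_nonneg (subset_univ _) fun p _ _ => hF _ _

theorem nrpa_card {l : ℕ} (h : Fin l ↪ V) (j : Fin l) :
    (Yj G h j).card = P5.n2 G (Hr h) (h j) (h (finRotate l j)) := by
  unfold P5.n2
  congr 1
  ext z
  rw [nrb_mem_Yj, mem_filter, mem_compl]

/-- The classes count at most the main term. -/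
theorem nrpa_Wo (hK : P5.NoK33m G) {l : ℕ} (hl : 3 ≤ l) (h : Fin l ↪ V) :
    ∑ j, 2 * ((Yj G h j).card *
        (2 * So (mH G (Hr h)) (dH G (Hr h)) l (h j) (h (finRotate l j))
        + 2 * En (mH G (Hr h)) (dH G (Hr h)) l (h j)
        + 2 * En (mH G (Hr h)) (dH G (Hr h)) l (h (finRotate l j))))
      ≤ 2 * (l + 1) * Wo (muG G (Hr h) (2 * (l : ℝ) ^ 3))
          (dn (muG G (Hr h) (2 * (l : ℝ) ^ 3)) (nuG G (Hr h) (2 * (l : ℝ) ^ 3))) l := by
  obtain ⟨c1, c2, c3, -, -, -⟩ := cfg G (Hr h) hK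
  rw [nrb_card_Hr h] at c1 c2 c3
  set κ : ℝ := 2 * (l : ℝ) ^ 3 with hκ
  have hκ0 : 0 ≤ κ := by positivity
  set μ := muG G (Hr h) κ with hμ
  set ν := nuG G (Hr h) κ with hν
  have hν0 : ∀ a, 0 ≤ ν a := by
    intro a
    rw [hν]
    unfold nuG
    split_ifs
    · positivity
    · exact le_refl _
  have hm0 : ∀ a b, 0 ≤ mH G (Hr h) a b := (wt_mH G (Hr h)).nonneg
  have hd0 : ∀ a, 0 ≤ dH G (Hr h) a := dH_nonneg G (Hr h)
  have hdn0 : ∀ a, 0 ≤ dn μ ν a := fun a => (hd0 a).trans (c3 a)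
  have hmono := fun a b => so_mono hm0 c2 hd0 c3 l a b
  have hnn := fun a b => so_nonneg c1.nonneg hdn0 l a b
  set g : V → V → ℝ := fun a b => 2 * So μ (dn μ ν) l a b + 2 * En μ (dn μ ν) l a
    + 2 * En μ (dn μ ν) l b with hg
  have hg0 : ∀ a b, 0 ≤ g a b := by
    intro a b
    have := (hnn a b).1
    have := (hnn a b).2.1
    have := (hnn b a).2.1
    simp only [hg]
    linarith
  have hgs : ∀ a b, g a b = g b a := by
    intro a b
    simp only [hg]
    rw [so_symm c1 _ l a b]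
    ring
  have hid := fg_identity c1 ν (l := l) (by omega)
  have hen : 0 ≤ 4 * ∑ a, ν a * En μ (dn μ ν) l a := by
    have : 0 ≤ ∑ a, ν a * En μ (dn μ ν) l a :=
      Finset.sum_nonneg fun a _ => mul_nonneg (hν0 a) (hnn a a).2.1
    linarith
  have hring := nrpa_ring hl h (fun a b => μ a b * g a b)
    (fun a b => mul_nonneg (c1.nonneg a b) (hg0 a b))
  have hterm : ∀ j, 2 * ((Yj G h j).card *
        (2 * So (mH G (Hr h)) (dH G (Hr h)) l (h j) (h (finRotate l j))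
        + 2 * En (mH G (Hr h)) (dH G (Hr h)) l (h j)
        + 2 * En (mH G (Hr h)) (dH G (Hr h)) l (h (finRotate l j))))
      ≤ μ (h j) (h (finRotate l j)) * g (h j) (h (finRotate l j))
        + μ (h (finRotate l j)) (h j) * g (h (finRotate l j)) (h j) := by
    intro j
    rw [c1.symm (h (finRotate l j)) (h j), hgs (h (finRotate l j)) (h j)]
    have a1 : ((Yj G h j).card : ℝ) ≤ μ (h j) (h (finRotate l j)) := by
      rw [nrpa_card, hμ]
      unfold muG
      rw [if_pos ⟨(nrb_mem_Hr h _).mpr ⟨_, rfl⟩, (nrb_mem_Hr h _).mpr ⟨_, rfl⟩, nrpa_ne hl h j⟩]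
      linarith
    have a2 : 2 * So (mH G (Hr h)) (dH G (Hr h)) l (h j) (h (finRotate l j))
        + 2 * En (mH G (Hr h)) (dH G (Hr h)) l (h j)
        + 2 * En (mH G (Hr h)) (dH G (Hr h)) l (h (finRotate l j))
        ≤ g (h j) (h (finRotate l j)) := by
      have b1 := hmono (h j) (h (finRotate l j))
      have b2 := hmono (h (finRotate l j)) (h j)
      simp only [hg]
      linarith [b1.1, b1.2, b2.2]
    have a3 := bda_nn G (Hr h) l (h j) (h (finRotate l j))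
    have a4 := bda_nn G (Hr h) l (h (finRotate l j)) (h j)
    have a5 := mul_le_mul a1 a2 (by linarith [a3.1, a3.2.1, a4.2.1]) (c1.nonneg _ _)
    linarith
  have h1 := (Finset.sum_le_sum fun j (_ : j ∈ univ) => hterm j).trans hring
  have h2 : ∑ a, ∑ b, μ a b * g a b = ∑ a, ∑ b, μ a b * (2 * So μ (dn μ ν) l a b
      + 2 * En μ (dn μ ν) l a + 2 * En μ (dn μ ν) l b) := rfl
  rw [h2] at h1
  linarith

theorem nrpa_main (hS : P5.Sparse6 G) (hK : P5.NoK33m G) {l : ℕ} (hl : 3 ≤ l) (h : Fin l ↪ V)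
    (hm : ms (mH G (Hr h)) ∅ ≤ 2 * (Fintype.card V : ℝ))
    (hd : ∑ a, dH G (Hr h) a ≤ 6 * (Fintype.card V : ℝ)) :
    ∑ p ∈ (P5.pr G (Hr h)ᶜ (Hr h)ᶜ).filter (fun p => p.1 ∉ Or G h ∧ p.2 ∉ Or G h),
        ps G (Hr h) l p.1 p.2
      ≤ 2 * (l + 1) * Wo (muG G (Hr h) (2 * (l : ℝ) ^ 3))
          (dn (muG G (Hr h) (2 * (l : ℝ) ^ 3)) (nuG G (Hr h) (2 * (l : ℝ) ^ 3))) l
        + (12 * l + 16 * (l : ℝ) ^ 4) * (40 * l * 2 ^ l * (Fintype.card V : ℝ) ^ l) := by
  refine (nrpa_split G h (fun p => ps G (Hr h) l p.1 p.2) fun p => ps_nonneg _ _ _ _ _).trans ?_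
  set B : ℝ := 40 * l * 2 ^ l * (Fintype.card V : ℝ) ^ l with hB
  have hB0 : 0 ≤ B := by rw [hB]; positivity
  have h1 : ∀ i : Fin l, ∑ j, ∑ p ∈ P5.pr G (Yj G h i) (Yj G h j), ps G (Hr h) l p.1 p.2
      = ∑ j ∈ univ.erase i, ∑ p ∈ P5.pr G (Yj G h i) (Yj G h j), ps G (Hr h) l p.1 p.2
        + ∑ p ∈ P5.pr G (Yj G h i) (Yj G h i), ps G (Hr h) l p.1 p.2 := fun i =>
    (Finset.sum_erase_add _ _ (mem_univ i)).symm
  rw [Finset.sum_congr rfl fun i _ => h1 i, Finset.sum_add_distrib]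
  have h2 : ∑ i, ∑ j ∈ univ.erase i, ∑ p ∈ P5.pr G (Yj G h i) (Yj G h j),
      ps G (Hr h) l p.1 p.2 ≤ 16 * (l : ℝ) ^ 4 * B := by
    have h3 : ∀ i j, ∑ p ∈ P5.pr G (Yj G h i) (Yj G h j), ps G (Hr h) l p.1 p.2
        ≤ ((P5.pr G (Yj G h i) (Yj G h j)).card : ℝ) * B := by
      intro i j
      rw [← nsmul_eq_mul]
      exact Finset.sum_le_card_nsmul _ _ _ fun p _ =>
        ps_crude G (Hr h) (l := l) (by omega) hm hd p.1 p.2
    calc ∑ i, ∑ j ∈ univ.erase i, ∑ p ∈ P5.pr G (Yj G h i) (Yj G h j), ps G (Hr h) l p.1 p.2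
        ≤ ∑ i, ∑ j ∈ univ.erase i, ((P5.pr G (Yj G h i) (Yj G h j)).card : ℝ) * B :=
          Finset.sum_le_sum fun i _ => Finset.sum_le_sum fun j _ => h3 i j
      _ = ((∑ i, ∑ j ∈ univ.erase i, (P5.pr G (Yj G h i) (Yj G h j)).card : ℕ) : ℝ) * B := by
          push_cast
          rw [Finset.sum_mul]
          exact Finset.sum_congr rfl fun i _ => by rw [Finset.sum_mul]
      _ ≤ ((16 * l ^ 4 : ℕ) : ℝ) * B := by
          refine mul_le_mul_of_nonneg_right ?_ hB0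
          exact_mod_cast pr_cross G hK hl h
      _ = 16 * (l : ℝ) ^ 4 * B := by push_cast; ring
  have h4 : ∑ i, ∑ p ∈ P5.pr G (Yj G h i) (Yj G h i), ps G (Hr h) l p.1 p.2
      ≤ 2 * (l + 1) * Wo (muG G (Hr h) (2 * (l : ℝ) ^ 3))
          (dn (muG G (Hr h) (2 * (l : ℝ) ^ 3)) (nuG G (Hr h) (2 * (l : ℝ) ^ 3))) l
        + 12 * l * B := by
    refine (Finset.sum_le_sum fun i _ => nrpa_same G hS hl h hm hd i).trans ?_
    rw [Finset.sum_add_distrib, Finset.sum_const, card_univ, Fintype.card_fin, nsmul_eq_mul]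
    have h5 := nrpa_Wo G hK hl h
    have h6 : (l : ℝ) * (12 * B) = 12 * l * B := by ring
    rw [h6]
    linarith
  have h7 : (12 * l + 16 * (l : ℝ) ^ 4) * B = 12 * l * B + 16 * (l : ℝ) ^ 4 * B := by ring
  rw [h7]
  linarith

end

end Pool.Agent.Lib.MP_009d13_co.OD
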