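import Pool.Agent.Lib.MP_009d13_co.OD.OPA
import Pool.Agent.Lib.MP_009d13_co.OD.POT1

/-!
# POT2: one step from a tip of ordinary strength
-/

set_option autoImplicit false

namespace Pool.Agent.Lib.MP_009d13_co.OD

open Finset Classical

noncomputable section

/-- the probabilistic inequality -/
theorem pot2_abs {ι : Type*} (B : Finset ι) (p a : ι → ℝ) (G0 : ℝ) (hp : ∀ b ∈ B, 0 ≤ p b)
    (hsum : ∑ b ∈ B, p b = 1) (ha : ∀ b ∈ B, -(1 / 1000) ≤ a b ∧ a b ≤ 1) (hG : |G0| ≤ 9 / 1000)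
    (hm : 27 / 100000 * ∑ b ∈ B, p b * (1 - p b) ≤ G0 + ∑ b ∈ B, p b * a b) :
    ∑ b ∈ B, p b * (1 + 3 / 10 ^ 9 * (1 - p b)) * Real.exp (-(9 / 50000 * (G0 + a b))) ≤ 1 := by
  obtain ⟨g, hg⟩ : ∃ g : ι → ℝ, g = fun b => G0 + a b := ⟨_, rfl⟩
  have hgb : ∀ b ∈ B, -(1 / 100) ≤ g b ∧ g b ≤ 101 / 100 := by
    intro b hb
    have h1 := ha b hb
    have h2 := abs_le.1 hG
    rw [hg]
    constructor
    · show -(1 / 100) ≤ G0 + a b
      linarith [h1.1, h2.1]
    · show G0 + a b ≤ 101 / 100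
      linarith [h1.2, h2.2]
  have hp1 : ∀ b ∈ B, p b ≤ 1 := fun b hb => by
    rw [← hsum]
    exact single_le_sum hp hb
  obtain ⟨m, hmd⟩ : ∃ m, m = ∑ b ∈ B, p b * g b := ⟨_, rfl⟩
  obtain ⟨s, hsd⟩ : ∃ s, s = ∑ b ∈ B, p b * g b ^ 2 := ⟨_, rfl⟩
  obtain ⟨Q, hQd⟩ : ∃ Q, Q = ∑ b ∈ B, p b * (1 - p b) := ⟨_, rfl⟩
  have hQ0 : 0 ≤ Q := by
    rw [hQd]
    exact sum_nonneg fun b hb => mul_nonneg (hp b hb) (by linarith [hp1 b hb])
  have hm1 : m = G0 + ∑ b ∈ B, p b * a b := by
    rw [hmd, hg]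
    have : ∀ b ∈ B, p b * (G0 + a b) = p b * G0 + p b * a b := fun b _ => by ring
    rw [sum_congr rfl this, sum_add_distrib, ← sum_mul, hsum, one_mul]
  have hmQ : 27 / 100000 * Q ≤ m := by
    rw [hm1, hQd]
    exact hm
  have hm101 : m ≤ 101 / 100 := by
    have h1 : m ≤ ∑ b ∈ B, p b * (101 / 100) := by
      rw [hmd]
      exact sum_le_sum fun b hb => mul_le_mul_of_nonneg_left (hgb b hb).2 (hp b hb)
    rw [← sum_mul, hsum, one_mul] at h1
    exact h1
  -- the variance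
  have hvar : 2 * s - 2 * m ^ 2 ≤ 11 / 10 * Q := by
    have e1 : ∑ b ∈ B, ∑ c ∈ B, p b * p c * (g b - g c) ^ 2 = 2 * s - 2 * m ^ 2 := by
      have e2 : ∀ b ∈ B, ∑ c ∈ B, p b * p c * (g b - g c) ^ 2 =
          p b * g b ^ 2 + p b * s - 2 * (p b * g b) * m := by
        intro b _
        have e3 : ∀ c ∈ B, p b * p c * (g b - g c) ^ 2 =
            p b * g b ^ 2 * p c + p b * (p c * g c ^ 2) - 2 * (p b * g b) * (p c * g c) :=
          fun c _ => by ring
        rw [sum_congr rfl e3, sum_sub_distrib, sum_add_distrib, ← mul_sum, ← mul_sum, ← mul_sum,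
          hsum, ← hsd, ← hmd, mul_one]
      rw [sum_congr rfl e2, sum_sub_distrib, sum_add_distrib, ← sum_mul, ← sum_mul, ← mul_sum,
        hsum, ← hsd, ← hmd]
      ring
    rw [← e1]
    have e4 : ∀ b ∈ B, ∑ c ∈ B, p b * p c * (g b - g c) ^ 2 ≤ 11 / 10 * (p b * (1 - p b)) := by
      intro b hb
      have e5 : ∑ c ∈ B, p b * p c * (g b - g c) ^ 2 =
          ∑ c ∈ B.erase b, p b * p c * (g b - g c) ^ 2 := by
        rw [← add_sum_erase B _ hb]
        simp
      have e6 : ∑ c ∈ B.erase b, p c = 1 - p b := by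
        have := add_sum_erase B p hb
        linarith
      rw [e5]
      have e7 : ∀ c ∈ B.erase b, p b * p c * (g b - g c) ^ 2 ≤ 11 / 10 * p b * p c := by
        intro c hc
        have hcB := mem_of_mem_erase hc
        have h1 := hgb b hb
        have h2 := hgb c hcB
        have h3 : (g b - g c) ^ 2 ≤ 11 / 10 := by
          have h4 : |g b - g c| ≤ 102 / 100 := by
            rw [abs_le]
            constructor <;> linarith [h1.1, h1.2, h2.1, h2.2]
          calc (g b - g c) ^ 2 = |g b - g c| ^ 2 := (sq_abs _).symm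
            _ ≤ (102 / 100) ^ 2 := pow_le_pow_left₀ (abs_nonneg _) h4 2
            _ ≤ 11 / 10 := by norm_num
        have h5 : 0 ≤ p b * p c := mul_nonneg (hp b hb) (hp c hcB)
        nlinarith
      refine (sum_le_sum e7).trans (le_of_eq ?_)
      rw [← mul_sum, e6]
      ring
    refine (sum_le_sum e4).trans (le_of_eq ?_)
    rw [← mul_sum, hQd]
  -- the exponentials
  have hexp : ∀ b ∈ B, p b * (1 + 3 / 10 ^ 9 * (1 - p b)) *
      Real.exp (-(9 / 50000 * (G0 + a b))) ≤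
      p b * 1 - 9 / 50000 * (p b * g b) + (9 / 50000) ^ 2 * (p b * g b ^ 2) +
        6 / 10 ^ 9 * (p b * (1 - p b)) := by
    intro b hb
    have h1 := hgb b hb
    have e0 : G0 + a b = g b := by rw [hg]
    rw [e0]
    have h2 : |-(9 / 50000 * g b)| ≤ 1 := by
      rw [abs_le]
      constructor <;> linarith [h1.1, h1.2]
    have h3 := Real.abs_exp_sub_one_sub_id_le h2
    have h4 := (abs_le.1 h3).2
    have h5 : Real.exp (-(9 / 50000 * g b)) ≤ 1 - 9 / 50000 * g b + (9 / 50000) ^ 2 * g b ^ 2 := by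
      nlinarith
    have h6 : Real.exp (-(9 / 50000 * g b)) ≤ 2 := by
      have h7 : g b ^ 2 ≤ 2 := by nlinarith [h1.1, h1.2]
      have h8 : (9 / 50000 : ℝ) ^ 2 * g b ^ 2 ≤ (9 / 50000) ^ 2 * 2 :=
        mul_le_mul_of_nonneg_left h7 (by positivity)
      have h9 : (9 / 50000 : ℝ) ^ 2 * 2 ≤ 1 / 2 := by norm_num
      linarith [h1.1]
    have h7 := hp b hb
    have h8 : 0 ≤ p b * (1 - p b) := mul_nonneg h7 (by linarith [hp1 b hb])
    have h9 : p b * Real.exp (-(9 / 50000 * g b)) ≤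
        p b * (1 - 9 / 50000 * g b + (9 / 50000) ^ 2 * g b ^ 2) :=
      mul_le_mul_of_nonneg_left h5 h7
    have h10 : p b * (1 - p b) * Real.exp (-(9 / 50000 * g b)) ≤ p b * (1 - p b) * 2 :=
      mul_le_mul_of_nonneg_left h6 h8
    calc p b * (1 + 3 / 10 ^ 9 * (1 - p b)) * Real.exp (-(9 / 50000 * g b))
        = p b * Real.exp (-(9 / 50000 * g b)) +
          3 / 10 ^ 9 * (p b * (1 - p b) * Real.exp (-(9 / 50000 * g b))) := by ring
      _ ≤ p b * (1 - 9 / 50000 * g b + (9 / 50000) ^ 2 * g b ^ 2) +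
          3 / 10 ^ 9 * (p b * (1 - p b) * 2) := by
          apply add_le_add h9
          exact mul_le_mul_of_nonneg_left h10 (by positivity)
      _ = _ := by ring
  refine (sum_le_sum hexp).trans ?_
  rw [sum_add_distrib, sum_add_distrib, sum_sub_distrib, ← mul_sum, ← mul_sum, ← mul_sum,
    ← sum_mul, hsum, ← hmd, ← hsd, ← hQd]
  have hm0 : 0 ≤ m := le_trans (by positivity) hmQ
  have hmm : m ^ 2 ≤ 101 / 100 * m := by nlinarith
  nlinarith

variable {V : Type} [Fintype V]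

/-- increments of the first part of the potential -/
def pG (μ : V → V → ℝ) (A : Finset V) (v : V) : ℝ :=
  9 / 10000 * (∑ z ∈ (insert v A)ᶜ, kap (un μ (insert v A) z)
    - ∑ z ∈ (insert v A)ᶜ, kap (un μ A z))

/-- the part of the increment that depends on the next hub -/
def pa (μ : V → V → ℝ) (A : Finset V) (v b : V) : ℝ :=
  phit (un μ (insert v A) b) - 9 / 10000 * kap (un μ (insert v A) b)

theorem pot2_EE (μ : V → V → ℝ) {A : Finset V} {v b : V} (hb : b ∈ (insert v A)ᶜ) :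
    EE μ (insert v A) b = EE μ A v * Real.exp (9 / 50000 * phit (un μ A v)) *
      Real.exp (-(9 / 50000 * (pG μ A v + pa μ A v b))) := by
  unfold EE pG pa
  rw [← Real.exp_add, ← Real.exp_add]
  congr 1
  have h1 : ∑ z ∈ (insert b (insert v A))ᶜ, kap (un μ (insert v A) z) =
      ∑ z ∈ (insert v A)ᶜ, kap (un μ (insert v A) z) - kap (un μ (insert v A) b) := by
    rw [Finset.compl_insert, ← add_sum_erase (insert v A)ᶜ _ hb]
    ring
  rw [h1]
  ring

theorem pot2_EE_pos (μ : V → V → ℝ) (A : Finset V) (v : V) : 0 < EE μ A v := Real.exp_pos _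

theorem pot2_sum_p {μ : V → V → ℝ} (h : Wt μ) {A : Finset V} {v : V} (hD : 0 < un μ A v) :
    ∑ b ∈ (insert v A)ᶜ, μ v b / un μ A v = 1 := by
  rw [← sum_div, un_eq_insert h A v, div_self hD.ne']

/-- the left side of the one step inequality -/
theorem pot2_reduce (μ : V → V → ℝ) {A : Finset V} {v : V} (hD : 0 < un μ A v) :
    Op μ (EE μ) A v + 1 / 10 ^ 9 * K1 μ A v = EE μ A v *
      (un μ A v * Real.exp (1 - un μ A v) * Real.exp (9 / 50000 * phit (un μ A v))) *
      ∑ b ∈ (insert v A)ᶜ, μ v b / un μ A v *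
        (1 + 1 / 10 ^ 9 * (un μ A v * (1 - μ v b / un μ A v))) *
        Real.exp (-(9 / 50000 * (pG μ A v + pa μ A v b))) := by
  unfold Op Pp K1
  rw [mul_sum, mul_sum, mul_sum, mul_sum, ← sum_add_distrib]
  refine sum_congr rfl fun b hb => ?_
  rw [pot2_EE μ hb]
  have h1 : un μ A v ≠ 0 := hD.ne'
  field_simp

theorem pot2_G_bound {μ : V → V → ℝ} (h : Wt μ) {A : Finset V} {v : V} (hv : v ∉ A) :
    -(9 / 10000 * un μ A v) ≤ pG μ A v ∧ pG μ A v ≤ 9 / 10000 * (3 * un μ A v) := by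
  unfold pG
  rw [← sum_sub_distrib]
  have hle : ∀ z, un μ (insert v A) z ≤ un μ A z := fun z =>
    un_anti h (subset_insert v A) z
  have hsum : ∑ z ∈ (insert v A)ᶜ, (un μ A z - un μ (insert v A) z) = un μ A v := by
    rw [← un_eq_insert h A v]
    refine sum_congr rfl fun z _ => ?_
    rw [un_insert μ hv z, h.symm z v]
    ring
  constructor
  · have h1 : ∑ z ∈ (insert v A)ᶜ, -(un μ A z - un μ (insert v A) z) ≤
        ∑ z ∈ (insert v A)ᶜ, (kap (un μ (insert v A) z) - kap (un μ A z)) := by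
      refine sum_le_sum fun z _ => ?_
      have := kap_sub_le (hle z)
      linarith
    rw [sum_neg_distrib, hsum] at h1
    linarith
  · have h1 : ∑ z ∈ (insert v A)ᶜ, (kap (un μ (insert v A) z) - kap (un μ A z)) ≤
        ∑ z ∈ (insert v A)ᶜ, 3 * (un μ A z - un μ (insert v A) z) := by
      refine sum_le_sum fun z _ => ?_
      exact kap_sub_ge (hle z)
    rw [← mul_sum, hsum] at h1
    linarith

theorem pot2_a_bound (μ : V → V → ℝ) (A : Finset V) (v b : V) :
    -(81 / 100000) ≤ pa μ A v b ∧ pa μ A v b ≤ 1 := by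
  unfold pa
  have h1 := phit_nonneg (un μ (insert v A) b)
  have h2 := phit_le_one (un μ (insert v A) b)
  have h3 := kap_nonneg (un μ (insert v A) b)
  have h4 := kap_le (un μ (insert v A) b)
  constructor <;> linarith

/-- `D exp (1 - D) ≤ exp (- phit D)` -/
theorem pot2_D {D : ℝ} (hD : 0 < D) : D * Real.exp (1 - D) * Real.exp (9 / 50000 * phit D) ≤ 1 := by
  have h1 := phit_le hD
  have h2 := phit_nonneg D
  have h3 : D = Real.exp (Real.log D) := (Real.exp_log hD).symm
  have h4 : D * Real.exp (1 - D) * Real.exp (9 / 50000 * phit D) =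
      Real.exp (Real.log D + (1 - D) + 9 / 50000 * phit D) := by
    rw [Real.exp_add, Real.exp_add, ← h3]
  rw [h4]
  apply Real.exp_le_one_iff.2
  linarith

theorem step_normal {μ : V → V → ℝ} (h : Wt μ) {A : Finset V} {v : V} (hv : v ∉ A)
    (h1 : 1 / 2 ≤ un μ A v) (h2 : un μ A v ≤ 3) :
    Op μ (EE μ) A v + 1 / 10 ^ 9 * K1 μ A v ≤ EE μ A v := by
  have hD : 0 < un μ A v := by linarith
  rw [pot2_reduce μ hD]
  have hE := pot2_EE_pos μ A v
  have hprob := pot2_sum_p h hD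
  have hp0 : ∀ b ∈ (insert v A)ᶜ, 0 ≤ μ v b / un μ A v := fun b _ =>
    div_nonneg (h.nonneg v b) hD.le
  have hp1 : ∀ b ∈ (insert v A)ᶜ, μ v b / un μ A v ≤ 1 := fun b hb => by
    rw [← hprob]
    exact single_le_sum hp0 hb
  have hmain : ∑ b ∈ (insert v A)ᶜ, μ v b / un μ A v *
      (1 + 3 / 10 ^ 9 * (1 - μ v b / un μ A v)) *
      Real.exp (-(9 / 50000 * (pG μ A v + pa μ A v b))) ≤ 1 := by
    apply pot2_abs _ _ _ _ hp0 hprob
    · intro b _
      have := pot2_a_bound μ A v b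
      constructor <;> linarith [this.1, this.2]
    · have := pot2_G_bound h hv
      rw [abs_le]
      constructor <;> linarith [this.1, this.2]
    · have e1 : pG μ A v + ∑ b ∈ (insert v A)ᶜ, μ v b / un μ A v * pa μ A v b =
          ∑ b ∈ (insert v A)ᶜ, (9 / 10000 * (kap (un μ (insert v A) b) - kap (un μ A b)) +
            μ v b / un μ A v * pa μ A v b) := by
        unfold pG
        rw [sum_add_distrib, ← mul_sum, sum_sub_distrib]
      rw [e1, mul_sum]
      refine sum_le_sum fun b hb => ?_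
      have e2 : un μ (insert v A) b = un μ A b - μ v b / un μ A v * un μ A v := by
        rw [un_insert μ hv b, h.symm b v, div_mul_cancel₀ _ hD.ne']
      have e3 := hub_ineq (x := un μ A b) (hp0 b hb) (hp1 b hb) h1 h2 (by
        rw [← e2]
        exact un_nonneg h _ _)
      unfold pa
      rw [e2]
      exact e3
  have hle : ∑ b ∈ (insert v A)ᶜ, μ v b / un μ A v *
        (1 + 1 / 10 ^ 9 * (un μ A v * (1 - μ v b / un μ A v))) *
        Real.exp (-(9 / 50000 * (pG μ A v + pa μ A v b))) ≤ 1 := by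
    refine le_trans (sum_le_sum fun b hb => ?_) hmain
    apply mul_le_mul_of_nonneg_right _ (Real.exp_pos _).le
    apply mul_le_mul_of_nonneg_left _ (hp0 b hb)
    have h3 : 0 ≤ 1 - μ v b / un μ A v := by linarith [hp1 b hb]
    have h4 : un μ A v * (1 - μ v b / un μ A v) ≤ 3 * (1 - μ v b / un μ A v) :=
      mul_le_mul_of_nonneg_right h2 h3
    linarith
  have hS0 : 0 ≤ ∑ b ∈ (insert v A)ᶜ, μ v b / un μ A v *
        (1 + 1 / 10 ^ 9 * (un μ A v * (1 - μ v b / un μ A v))) *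
        Real.exp (-(9 / 50000 * (pG μ A v + pa μ A v b))) := by
    refine sum_nonneg fun b hb => ?_
    have h3 : 0 ≤ 1 - μ v b / un μ A v := by linarith [hp1 b hb]
    have h4 := hp0 b hb
    positivity
  have hfac := pot2_D hD
  have hfac0 : 0 ≤ un μ A v * Real.exp (1 - un μ A v) *
      Real.exp (9 / 50000 * phit (un μ A v)) := by positivity
  calc EE μ A v *
      (un μ A v * Real.exp (1 - un μ A v) * Real.exp (9 / 50000 * phit (un μ A v))) *
      ∑ b ∈ (insert v A)ᶜ, μ v b / un μ A v *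
        (1 + 1 / 10 ^ 9 * (un μ A v * (1 - μ v b / un μ A v))) *
        Real.exp (-(9 / 50000 * (pG μ A v + pa μ A v b)))
      ≤ EE μ A v * 1 * 1 := by
        apply mul_le_mul _ hle hS0 (by positivity)
        exact mul_le_mul_of_nonneg_left hfac hE.le
    _ = EE μ A v := by ring

end

end Pool.Agent.Lib.MP_009d13_co.OD
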