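import Pool.Agent.Lib.MP_009d13_co.OD.BR
import Pool.Agent.Lib.MP_009d13_co.OD.NFC

/-!
# OD, module RA: weights on exactly `l` hubs, the case of equality

`Wo ≤ 8 l` with equality only for the balanced ring.
-/

set_option autoImplicit false

namespace Pool.Agent.Lib.MP_009d13_co.OD

open Finset Classical

noncomputable section

variable {V : Type} [Fintype V]

theorem ra_xexp (x : ℝ) : x * Real.exp (1 - x) ≤ 1 := by
  have h1 := Real.add_one_le_exp (x - 1)
  have h2 : Real.exp (1 - x) * Real.exp (x - 1) = 1 := by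
    rw [← Real.exp_add]
    simp
  have h3 := Real.exp_pos (1 - x)
  nlinarith

theorem ra_xexp_eq {x : ℝ} (h : x * Real.exp (1 - x) = 1) : x = 1 := by
  by_contra hne
  have h1 := Real.add_one_lt_exp (x := x - 1) (fun h' => hne (by linarith))
  have h2 : Real.exp (1 - x) * Real.exp (x - 1) = 1 := by
    rw [← Real.exp_add]
    simp
  have h3 := Real.exp_pos (1 - x)
  nlinarith

/-- the normalised number of paths starting in `v` -/
def ra_N (μ : V → V → ℝ) (l : ℕ) (v : V) : ℝ :=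
  (Nf μ)^[l - 2] (fun B u => Real.exp (-(ms μ (insert u B))) * 1) ∅ v

theorem ra_nf_nonneg {μ : V → V → ℝ} (h : Wt μ) (A : Finset V) (v b : V) :
    0 ≤ μ v b / un μ A v * (un μ (insert v A) b * Real.exp (1 - un μ (insert v A) b)) := by
  have h1 := h.nonneg v b
  have h2 := un_nonneg h A v
  have h3 := un_nonneg h (insert v A) b
  have h4 := Real.exp_pos (1 - un μ (insert v A) b)
  positivity

theorem ra_iter_le_one {μ : V → V → ℝ} (h : Wt μ) (k : ℕ) {A : Finset V} {v : V} (hv : v ∉ A) :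
    (Nf μ)^[k] (fun B u => Real.exp (-(ms μ (insert u B))) * 1) A v ≤ 1 := by
  refine le_trans ?_ (nf_one h k hv)
  rw [Nf_eq_TW]
  refine TW_mono (fun A v b => ra_nf_nonneg h A v b) (fun B u _ => ?_) k hv
  rw [mul_one]
  exact Real.exp_le_one_iff.2 (by have := ms_nonneg h (insert u B); linarith)

theorem ra_iter_nonneg {μ : V → V → ℝ} (h : Wt μ) (k : ℕ) {A : Finset V} {v : V} (hv : v ∉ A) :
    0 ≤ (Nf μ)^[k] (fun B u => Real.exp (-(ms μ (insert u B))) * 1) A v := by
  rw [Nf_eq_TW]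
  refine TW_nonneg (fun A v b => ra_nf_nonneg h A v b) (fun B u _ => ?_) k hv
  rw [mul_one]
  exact (Real.exp_pos _).le

/-- the number of paths with `l` hubs from `v` -/
theorem ra_paths {μ : V → V → ℝ} (h : Wt μ) {l : ℕ} (hl : 2 ≤ l) (hm : ms μ ∅ = l) (v : V) :
    (Pp μ)^[l - 1] (fun _ _ => 1) ∅ v = dg μ v * Real.exp (2 - dg μ v) * ra_N μ l v := by
  have h1 : l - 1 = (l - 2) + 1 := by omega
  have h2 : Pp μ (fun _ _ => 1) = fun B u => un μ B u * 1 := by
    funext B u
    unfold Pp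
    rw [mul_one, ← un_eq_insert h B u]
    simp
  rw [h1, Function.iterate_succ_apply, h2, nf_conj h (fun _ _ => 1) (l - 2) (Finset.notMem_empty v),
    hm, ← dg_eq]
  unfold ra_N
  have h3 : ((l - 2 : ℕ) : ℝ) = (l : ℝ) - 2 := by
    rw [Nat.cast_sub hl]
    norm_num
  rw [h3, show (l : ℝ) - dg μ v - ((l : ℝ) - 2) = 2 - dg μ v by ring]

theorem ra_wo_le {μ : V → V → ℝ} (h : Wt μ) {l : ℕ} (hl : 2 ≤ l) (hm : ms μ ∅ = l) :
    Wo μ (dg μ) l ≤ ∑ v, dg μ v * (dg μ v ^ 2 * Real.exp (2 - dg μ v) * ra_N μ l v) := by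
  refine (wo_le_sq h l (by omega)).trans (le_of_eq ?_)
  refine Finset.sum_congr rfl fun v _ => ?_
  rw [ra_paths h hl hm v]
  ring

theorem ra_sq (d : ℝ) : d ^ 2 * Real.exp (2 - d) = 4 * (d / 2 * Real.exp (1 - d / 2)) ^ 2 := by
  rw [mul_pow, ← Real.exp_nat_mul]
  push_cast
  rw [show (2 : ℝ) * (1 - d / 2) = 2 - d by ring]
  ring

theorem ra_dg_nonneg {μ : V → V → ℝ} (h : Wt μ) (v : V) : 0 ≤ dg μ v := by
  rw [dg_eq]
  exact un_nonneg h ∅ v

theorem ra_term {μ : V → V → ℝ} (h : Wt μ) (l : ℕ) (v : V) :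
    dg μ v ^ 2 * Real.exp (2 - dg μ v) * ra_N μ l v ≤ 4 := by
  have h1 : ra_N μ l v ≤ 1 := ra_iter_le_one h (l - 2) (Finset.notMem_empty v)
  have h2 : 0 ≤ ra_N μ l v := ra_iter_nonneg h (l - 2) (Finset.notMem_empty v)
  rw [ra_sq]
  have h3 := ra_xexp (dg μ v / 2)
  have h4 : 0 ≤ dg μ v / 2 * Real.exp (1 - dg μ v / 2) := by
    have := ra_dg_nonneg h v
    positivity
  have h5 : (dg μ v / 2 * Real.exp (1 - dg μ v / 2)) ^ 2 ≤ 1 := by nlinarith
  nlinarith [sq_nonneg (dg μ v / 2 * Real.exp (1 - dg μ v / 2))]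

/-- the bound `Wo ≤ 8 l` -/
theorem ra_le {μ : V → V → ℝ} (h : Wt μ) {l : ℕ} (hl : 2 ≤ l) (hm : ms μ ∅ = l) :
    Wo μ (dg μ) l ≤ 8 * l := by
  refine (ra_wo_le h hl hm).trans ?_
  have h1 : ∑ v, dg μ v * 4 = 8 * l := by
    rw [← Finset.sum_mul, sum_dg, hm]
    ring
  rw [← h1]
  refine Finset.sum_le_sum fun v _ => ?_
  exact mul_le_mul_of_nonneg_left (ra_term h l v) (ra_dg_nonneg h v)

theorem ra_01 {μ : V → V → ℝ} (h : Wt μ) {l : ℕ} (hl : 3 ≤ l) (hd2 : ∀ v, dg μ v = 2) {v : V}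
    (hN : ra_N μ l v = 1) {b : V} (hvb : μ v b ≠ 0) : μ v b = 1 := by
  have hbv : b ≠ v := by
    rintro rfl
    exact hvb (h.diag b)
  have hb : b ∈ (insert v (∅ : Finset V))ᶜ := by simpa using hbv
  have h1 := hN
  unfold ra_N at h1
  have h2 : l - 2 = (l - 3) + 1 := by omega
  rw [h2, Function.iterate_succ_apply'] at h1
  obtain ⟨G, hG⟩ : ∃ G, G = (Nf μ)^[l - 3]
    (fun B u => Real.exp (-(ms μ (insert u B))) * 1) := ⟨_, rfl⟩
  rw [← hG] at h1
  unfold Nf at h1
  have hun : un μ ∅ v = 2 := by rw [← dg_eq]; exact hd2 v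
  have hG1 : ∀ c ∈ (insert v (∅ : Finset V))ᶜ, G (insert v ∅) c ≤ 1 := fun c hc => by
    rw [hG]
    exact ra_iter_le_one h (l - 3) (by simpa using hc)
  have hG0 : ∀ c ∈ (insert v (∅ : Finset V))ᶜ, 0 ≤ G (insert v ∅) c := fun c hc => by
    rw [hG]
    exact ra_iter_nonneg h (l - 3) (by simpa using hc)
  have hy0 : ∀ c, 0 ≤ un μ (insert v ∅) c * Real.exp (1 - un μ (insert v ∅) c) := fun c => by
    have := un_nonneg h (insert v ∅) c
    positivity
  have h3 : ∑ c ∈ (insert v (∅ : Finset V))ᶜ, μ v c / un μ ∅ v *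
      (1 - (un μ (insert v ∅) c * Real.exp (1 - un μ (insert v ∅) c)) * G (insert v ∅) c)
        = 0 := by
    have h4 : ∑ c ∈ (insert v (∅ : Finset V))ᶜ, μ v c / un μ ∅ v = 1 := by
      rw [← Finset.sum_div, un_eq_insert h ∅ v, hun]
      norm_num
    have h5 : ∑ c ∈ (insert v (∅ : Finset V))ᶜ, μ v c / un μ ∅ v *
        (1 - (un μ (insert v ∅) c * Real.exp (1 - un μ (insert v ∅) c)) * G (insert v ∅) c)
        = ∑ c ∈ (insert v (∅ : Finset V))ᶜ, μ v c / un μ ∅ v -
          ∑ c ∈ (insert v (∅ : Finset V))ᶜ, μ v c / un μ ∅ v *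
            (un μ (insert v ∅) c * Real.exp (1 - un μ (insert v ∅) c)) *
              G (insert v ∅) c := by
      rw [← Finset.sum_sub_distrib]
      exact Finset.sum_congr rfl fun c _ => by ring
    rw [h5, h4, h1]
    norm_num
  have hnn : ∀ c ∈ (insert v (∅ : Finset V))ᶜ, 0 ≤ μ v c / un μ ∅ v *
      (1 - (un μ (insert v ∅) c * Real.exp (1 - un μ (insert v ∅) c)) *
        G (insert v ∅) c) := by
    intro c hc
    have e1 : 0 ≤ μ v c / un μ ∅ v := div_nonneg (h.nonneg v c) (un_nonneg h ∅ v)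
    have e2 := ra_xexp (un μ (insert v ∅) c)
    have e3 := hG1 c hc
    have e4 := hG0 c hc
    have e5 := hy0 c
    refine mul_nonneg e1 ?_
    nlinarith
  have h6 := (Finset.sum_eq_zero_iff_of_nonneg hnn).1 h3 b hb
  have h7 : μ v b / un μ ∅ v ≠ 0 := by
    rw [hun]
    exact div_ne_zero hvb (by norm_num)
  rcases mul_eq_zero.1 h6 with h8 | h8
  · exact absurd h8 h7
  · have e2 := ra_xexp (un μ (insert v ∅) b)
    have e3 := hG1 b hb
    have e4 := hG0 b hb
    have e5 := hy0 b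
    have e6 : un μ (insert v ∅) b * Real.exp (1 - un μ (insert v ∅) b) = 1 := by
      refine le_antisymm e2 ?_
      nlinarith
    have e7 := ra_xexp_eq e6
    rw [un_insert μ (Finset.notMem_empty v) b, ← dg_eq, hd2] at e7
    rw [h.symm v b]
    linarith

theorem ra_pw_ne {μ : V → V → ℝ} {L : List V} (h : pw μ L ≠ 0) :
    ∀ i, (hi : i + 1 < L.length) → μ (L[i]'(by omega)) (L[i + 1]'hi) ≠ 0 := by
  induction L with
  | nil => intro i hi; simp at hi
  | cons a T ih =>
    cases T with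
    | nil => intro i hi; simp at hi
    | cons b t =>
      have h1 : μ a b * pw μ (b :: t) ≠ 0 := h
      intro i hi
      cases i with
      | zero => exact left_ne_zero_of_mul h1
      | succ i =>
        have := ih (right_ne_zero_of_mul h1) i (by simpa using hi)
        simpa using this

/-- equality in `wo_le` -/
theorem ring_of_eq {l : ℕ} (hl : 3 ≤ l) {μ : Fin l → Fin l → ℝ} (h : Wt μ) (hm : ms μ ∅ = l)
    (he : Wo μ (dg μ) l = 8 * l) : ∃ h : Fin l ↪ Fin l, rs l μ h = 0 := by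
  have hlR : (0 : ℝ) < l := by
    have : 0 < l := by omega
    exact_mod_cast this
  -- all terms are equal
  have hsum : ∑ v, dg μ v * (4 - dg μ v ^ 2 * Real.exp (2 - dg μ v) * ra_N μ l v) = 0 := by
    have hnn : ∀ v ∈ (Finset.univ : Finset (Fin l)),
        0 ≤ dg μ v * (4 - dg μ v ^ 2 * Real.exp (2 - dg μ v) * ra_N μ l v) := fun v _ =>
      mul_nonneg (ra_dg_nonneg h v) (by linarith [ra_term h l v])
    refine le_antisymm ?_ (Finset.sum_nonneg hnn)
    have h1 : ∑ v, dg μ v * (4 - dg μ v ^ 2 * Real.exp (2 - dg μ v) * ra_N μ l v) =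
        ∑ v, dg μ v * 4 -
          ∑ v, dg μ v * (dg μ v ^ 2 * Real.exp (2 - dg μ v) * ra_N μ l v) := by
      rw [← Finset.sum_sub_distrib]
      exact Finset.sum_congr rfl fun v _ => by ring
    have h2 : ∑ v, dg μ v * 4 = 8 * l := by
      rw [← Finset.sum_mul, sum_dg, hm]
      ring
    have h3 := ra_wo_le h (by omega : 2 ≤ l) hm
    rw [h1, h2, ← he]
    linarith
  have hterm : ∀ v, dg μ v = 0 ∨ (dg μ v = 2 ∧ ra_N μ l v = 1) := by
    intro v
    have h1 := (Finset.sum_eq_zero_iff_of_nonneg (fun v _ =>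
      mul_nonneg (ra_dg_nonneg h v) (by linarith [ra_term h l v]))).1 hsum v (Finset.mem_univ v)
    rcases mul_eq_zero.1 h1 with h2 | h2
    · exact Or.inl h2
    · right
      have h3 : ra_N μ l v ≤ 1 := ra_iter_le_one h (l - 2) (Finset.notMem_empty v)
      have h4 : 0 ≤ ra_N μ l v := ra_iter_nonneg h (l - 2) (Finset.notMem_empty v)
      have h5 := ra_xexp (dg μ v / 2)
      have h6 : 0 ≤ dg μ v / 2 * Real.exp (1 - dg μ v / 2) := by
        have := ra_dg_nonneg h v
        positivity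
      rw [ra_sq] at h2
      obtain ⟨y, hy⟩ : ∃ y, y = dg μ v / 2 * Real.exp (1 - dg μ v / 2) := ⟨_, rfl⟩
      rw [← hy] at h2 h5 h6
      have h7 : y ^ 2 * ra_N μ l v = 1 := by linarith
      have h8 : y ^ 2 ≤ 1 := by nlinarith
      have h9 : y ^ 2 = 1 := by
        refine le_antisymm h8 ?_
        rw [← h7]
        nlinarith [sq_nonneg y]
      have h10 : y = 1 := by nlinarith
      constructor
      · rw [hy] at h10
        have := ra_xexp_eq h10
        linarith
      · rw [h9, one_mul] at h7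
        exact h7
  have hd2 : ∀ v, dg μ v = 2 := by
    have h1 : ∑ v, (2 - dg μ v) = 0 := by
      rw [Finset.sum_sub_distrib, sum_dg, hm]
      simp
      ring
    intro v
    have h2 := (Finset.sum_eq_zero_iff_of_nonneg (fun v _ => by
      rcases hterm v with h3 | h3
      · rw [h3]; norm_num
      · rw [h3.1]; norm_num)).1 h1 v (Finset.mem_univ v)
    linarith
  have hN : ∀ v, ra_N μ l v = 1 := by
    intro v
    rcases hterm v with h1 | h1
    · rw [hd2] at h1
      norm_num at h1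
    · exact h1.2
  have h01 : ∀ v b, μ v b ≠ 0 → μ v b = 1 := fun v b hvb => ra_01 h hl hd2 (hN v) hvb
  -- a path through all hubs
  have hne : Wo μ (dg μ) l ≠ 0 := by
    rw [he]
    positivity
  unfold Wo at hne
  obtain ⟨L, hL, hL0⟩ := Finset.exists_ne_zero_of_sum_ne_zero hne
  obtain ⟨hlen, hnd, -⟩ := mem_NL.1 hL
  have hpw : pw μ L ≠ 0 := right_ne_zero_of_mul (left_ne_zero_of_mul hL0)
  have hstep : ∀ i, (hi : i + 1 < L.length) → μ (L[i]'(by omega)) (L[i + 1]'hi) = 1 :=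
    fun i hi => h01 _ _ (ra_pw_ne hpw i hi)
  let f : Fin l → Fin l := fun j => L[(j : ℕ)]'(by rw [hlen]; exact j.2)
  have hf : Function.Injective f := by
    intro i j hij
    have := (List.Nodup.getElem_inj_iff hnd).1 hij
    exact Fin.ext this
  have hfb : Function.Bijective f := Finite.injective_iff_bijective.1 hf
  have hfs : ∀ i, (hi : i + 1 < l) → μ (f ⟨i, by omega⟩) (f ⟨i + 1, hi⟩) = 1 := fun i hi =>
    hstep i (by rw [hlen]; exact hi)
  have hrow : ∀ v, ∑ j, μ v (f j) = 2 := by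
    intro v
    rw [← hd2 v]
    unfold dg
    exact (Equiv.ofBijective f hfb).sum_comp (fun b => μ v b)
  have hinner : ∀ j, 2 ≤ j → (hj : j + 1 < l) → μ (f ⟨j, by omega⟩) (f ⟨0, by omega⟩) = 0 := by
    intro j hj2 hj
    have e1 : μ (f ⟨j, by omega⟩) (f ⟨j - 1, by omega⟩) = 1 := by
      rw [h.symm]
      have := hfs (j - 1) (by omega)
      have e2 : j - 1 + 1 = j := by omega
      simp only [e2] at this
      exact this
    have e2 : μ (f ⟨j, by omega⟩) (f ⟨j + 1, hj⟩) = 1 := hfs j hj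
    have e3 : ∑ i ∈ ({⟨0, by omega⟩, ⟨j - 1, by omega⟩, ⟨j + 1, hj⟩} : Finset (Fin l)),
        μ (f ⟨j, by omega⟩) (f i) ≤ ∑ i, μ (f ⟨j, by omega⟩) (f i) :=
      Finset.sum_le_sum_of_subset_of_nonneg (Finset.subset_univ _) fun i _ _ => h.nonneg _ _
    rw [Finset.sum_insert, Finset.sum_insert, Finset.sum_singleton, e1, e2, hrow] at e3
    · exact le_antisymm (by linarith) (h.nonneg _ _)
    · simp only [Finset.mem_singleton, Fin.mk.injEq]
      omega
    · simp only [Finset.mem_insert, Finset.mem_singleton, Fin.mk.injEq]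
      omega
  have hclose : μ (f ⟨0, by omega⟩) (f ⟨l - 1, by omega⟩) = 1 := by
    have e1 := hrow (f ⟨0, by omega⟩)
    have e2 : ∑ j, μ (f ⟨0, by omega⟩) (f j) =
        μ (f ⟨0, by omega⟩) (f ⟨1, by omega⟩) + μ (f ⟨0, by omega⟩) (f ⟨l - 1, by omega⟩) := by
      refine Finset.sum_eq_add (⟨1, by omega⟩ : Fin l) ⟨l - 1, by omega⟩ ?_ ?_ ?_ ?_
      · intro h'
        have := congrArg Fin.val h'
        simp only at this
        omega
      · rintro ⟨c, hc⟩ - ⟨hc1, hc2⟩
        rw [Ne, Fin.mk.injEq] at hc1 hc2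
        rcases Nat.eq_zero_or_pos c with h0 | h0
        · subst h0
          exact h.diag _
        · rw [h.symm]
          exact hinner c (by omega) (by omega)
      · intro h'
        exact absurd (Finset.mem_univ _) h'
      · intro h'
        exact absurd (Finset.mem_univ _) h'
    rw [e2, hfs 0 (by omega)] at e1
    linarith
  refine ⟨⟨f, hf⟩, ?_⟩
  unfold rs
  refine Finset.sum_eq_zero fun j _ => ?_
  have hkey : μ (f j) (f (finRotate l j)) = 1 := by
    obtain ⟨n, rfl⟩ : ∃ n, l = n + 1 := ⟨l - 1, by omega⟩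
    by_cases hj : (j : ℕ) < n
    · have e1 : finRotate (n + 1) j = ⟨(j : ℕ) + 1, by omega⟩ := by
        have := finRotate_of_lt hj
        simpa using this
      rw [e1]
      exact hfs j (by omega)
    · have e1 : j = Fin.last n := by
        apply Fin.ext
        have := j.2
        simp only [Fin.val_last]
        omega
      rw [e1, finRotate_last]
      rw [h.symm]
      exact hclose
  show |μ (f j) (f (finRotate l j)) - 1| = 0
  rw [hkey]
  simp

end

end Pool.Agent.Lib.MP_009d13_co.OD
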