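import Pool.Agent.Lib.MP_009d13_co.OD.RA
import Pool.Agent.Lib.MP_009d13_co.OD.KB

/-!
# OD, module RB: the gap for weights on exactly `l` hubs (compactness)
-/

set_option autoImplicit false

namespace Pool.Agent.Lib.MP_009d13_co.OD

open Finset Classical Filter Topology

noncomputable section

variable {V : Type} [Fintype V]

theorem rb_entry (a b : V) : Continuous fun μ : V → V → ℝ => μ a b :=
  (continuous_apply b).comp (continuous_apply a)

theorem rb_pw (L : List V) : Continuous fun μ : V → V → ℝ => pw μ L := by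
  induction L with
  | nil => exact continuous_const
  | cons a T ih =>
    cases T with
    | nil => exact continuous_const
    | cons b t => exact (rb_entry a b).mul ih

theorem rb_dg (v : V) : Continuous fun μ : V → V → ℝ => dg μ v :=
  continuous_finsetSum _ fun b _ => rb_entry v b

theorem rb_hd (L : List V) : Continuous fun μ : V → V → ℝ => hd (dg μ) L := by
  cases L with
  | nil => exact continuous_const
  | cons a T => exact rb_dg a

theorem rb_wo (l : ℕ) : Continuous fun μ : V → V → ℝ => Wo μ (dg μ) l :=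
  continuous_finsetSum _ fun L _ => ((rb_hd L).mul (rb_pw L)).mul (rb_hd L.reverse)

theorem rb_ms (A : Finset V) : Continuous fun μ : V → V → ℝ => ms μ A :=
  (continuous_finsetSum _ fun a _ => continuous_finsetSum _ fun b _ => rb_entry a b).div_const _

theorem rb_ze (l : ℕ) : Continuous fun μ : V → V → ℝ => ze l μ := by
  rw [continuous_iff_continuousAt]
  intro μ₀
  have h1 : Continuous fun μ : V → V → ℝ => ∑ a, ∑ b, |μ a b - μ₀ a b| :=
    continuous_finsetSum _ fun a _ => continuous_finsetSum _ fun b _ =>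
      ((rb_entry a b).sub continuous_const).abs
  have h2 : Tendsto (fun μ : V → V → ℝ => ∑ a, ∑ b, |μ a b - μ₀ a b|) (𝓝 μ₀) (𝓝 0) := by
    have := h1.tendsto μ₀
    simpa using this
  have h3 : Tendsto (fun μ : V → V → ℝ => ze l μ - ze l μ₀) (𝓝 μ₀) (𝓝 0) := by
    refine squeeze_zero_norm (fun μ => ?_) h2
    rw [Real.norm_eq_abs]
    exact ze_lip l μ μ₀
  have h4 := h3.add_const (ze l μ₀)
  rw [zero_add] at h4
  have h5 : (fun μ : V → V → ℝ => ze l μ - ze l μ₀ + ze l μ₀) = fun μ => ze l μ := by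
    funext μ
    ring
  rw [h5] at h4
  exact h4

theorem rb_wt_closed : IsClosed {μ : V → V → ℝ | Wt μ} := by
  have h1 : {μ : V → V → ℝ | Wt μ} = (⋂ a, ⋂ b, {μ : V → V → ℝ | μ a b = μ b a}) ∩
      ((⋂ a, {μ : V → V → ℝ | μ a a = 0}) ∩ ⋂ a, ⋂ b, {μ : V → V → ℝ | 0 ≤ μ a b}) := by
    ext μ
    simp only [Set.mem_inter_iff, Set.mem_iInter]
    constructor
    · intro h
      exact ⟨fun a b => h.symm a b, fun a => h.diag a, fun a b => h.nonneg a b⟩
    · rintro ⟨h1, h2, h3⟩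
      exact ⟨fun a b => h1 a b, fun a => h2 a, fun a b => h3 a b⟩
  rw [h1]
  refine (isClosed_iInter fun a => isClosed_iInter fun b =>
    isClosed_eq (rb_entry a b) (rb_entry b a)).inter
    ((isClosed_iInter fun a => isClosed_eq (rb_entry a a) continuous_const).inter
      (isClosed_iInter fun a => isClosed_iInter fun b =>
        isClosed_le continuous_const (rb_entry a b)))

theorem rb_entry_le {μ : V → V → ℝ} (h : Wt μ) (a b : V) : μ a b ≤ 2 * ms μ ∅ := by
  have h1 : μ a b ≤ ∑ c, μ a c :=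
    Finset.single_le_sum (f := fun c => μ a c) (fun c _ => h.nonneg a c) (Finset.mem_univ b)
  have h2 : ∑ c, μ a c ≤ ∑ v, ∑ c, μ v c :=
    Finset.single_le_sum (f := fun v => ∑ c, μ v c)
      (fun v _ => Finset.sum_nonneg fun c _ => h.nonneg v c) (Finset.mem_univ a)
  have h3 : 2 * ms μ ∅ = ∑ v, ∑ c, μ v c := by
    unfold ms
    simp
    ring
  rw [h3]
  exact h1.trans h2

theorem rb_compact (l : ℕ) (δ : ℝ) :
    IsCompact {μ : V → V → ℝ | Wt μ ∧ ms μ ∅ = l ∧ δ ≤ ze l μ} := by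
  have hb : IsCompact (Set.pi Set.univ fun _ : V =>
      (Set.pi Set.univ fun _ : V => Set.Icc (0 : ℝ) (2 * l))) :=
    isCompact_univ_pi fun _ => isCompact_univ_pi fun _ => isCompact_Icc
  refine hb.of_isClosed_subset ?_ ?_
  · exact rb_wt_closed.inter ((isClosed_eq (rb_ms ∅) continuous_const).inter
      (isClosed_le continuous_const (rb_ze l)))
  · rintro μ ⟨h1, h2, -⟩ a - b -
    refine ⟨h1.nonneg a b, ?_⟩
    rw [← h2]
    exact rb_entry_le h1 a b

theorem ring_gap {l : ℕ} (hl : 3 ≤ l) {δ : ℝ} (hδ : 0 < δ) : ∃ γ : ℝ, 0 < γ ∧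
    ∀ μ : Fin l → Fin l → ℝ, Wt μ → ms μ ∅ = l → δ ≤ ze l μ → Wo μ (dg μ) l ≤ 8 * l - γ := by
  rcases Set.eq_empty_or_nonempty
    {μ : Fin l → Fin l → ℝ | Wt μ ∧ ms μ ∅ = l ∧ δ ≤ ze l μ} with hE | hN
  · refine ⟨1, one_pos, fun μ h1 h2 h3 => ?_⟩
    exfalso
    have : μ ∈ {μ : Fin l → Fin l → ℝ | Wt μ ∧ ms μ ∅ = l ∧ δ ≤ ze l μ} := ⟨h1, h2, h3⟩
    rw [hE] at this
    exact this
  · obtain ⟨μ₀, ⟨h1, h2, h3⟩, hmax⟩ := (rb_compact l δ).exists_isMaxOn hN
      (rb_wo (V := Fin l) l).continuousOn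
    refine ⟨8 * l - Wo μ₀ (dg μ₀) l, ?_, fun μ e1 e2 e3 => ?_⟩
    · have h4 := ra_le h1 (by omega : 2 ≤ l) h2
      rcases h4.lt_or_eq with h5 | h5
      · linarith
      · exfalso
        obtain ⟨h, hh⟩ := ring_of_eq hl h1 h2 h5
        have h6 : ze l μ₀ ≤ rs l μ₀ h := ciInf_le (kb_bdd l μ₀) h
        rw [hh] at h6
        linarith
    · have h7 : Wo μ (dg μ) l ≤ Wo μ₀ (dg μ₀) l := hmax ⟨e1, e2, e3⟩
      linarith

end

end Pool.Agent.Lib.MP_009d13_co.OD
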