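import Pool.Agent.Lib.MP_009d13_co.OD.Defs2
import Pool.Agent.Lib.MP_009d13_co.OD.FAS
import Pool.Agent.Lib.MP_009d13_co.OD.CPY
import Pool.Agent.Lib.MP_009d13_co.P5.MAD4
import Pool.Agent.Lib.MP_009d13_co.P5.K33

/-!
# OD.RES

tk_upper with P5.sparse6_of_planar and P5.noK33m_of_planar, copy_le with k = 2l+2: 2 copies <= Tk
<= 16 l(l+1)(n/l)^(l+1) + K n^l; divide by 2.
-/

set_option autoImplicit false

namespace Pool.Agent.Lib.MP_009d13_co.OD

open Finset Classical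
open Pool.Agent.Lib.MP_009d13_co.P5 (nb kk)

noncomputable section

variable {V : Type} [Fintype V]
variable (G : SimpleGraph V) (H : Finset V)

theorem upper {l : ℕ} (hl : 10 ^ 40 ≤ l) : ∃ K : ℝ, ∀ (V : Type) [Fintype V]
    (G : SimpleGraph V), P5.IsPlanar G →
    (G.copyCount (SimpleGraph.pathGraph (2 * l + 2)) : ℝ)
      ≤ 8 * l * (l + 1) * ((Fintype.card V : ℝ) / l) ^ (l + 1)
        + K * (Fintype.card V : ℝ) ^ l := by
  obtain ⟨K, hK⟩ := tk_upper hl
  refine ⟨K / 2, fun V _ G hG => ?_⟩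
  have h1 := hK V G (P5.sparse6_of_planar G hG) (P5.noK33m_of_planar G hG)
  have h2 := copy_le G (2 * l + 2) (by omega)
  have h3 : 2 * (G.copyCount (SimpleGraph.pathGraph (2 * l + 2)) : ℝ)
      ≤ 2 * (8 * l * (l + 1) * ((Fintype.card V : ℝ) / l) ^ (l + 1)
        + K / 2 * (Fintype.card V : ℝ) ^ l) := by
    calc 2 * (G.copyCount (SimpleGraph.pathGraph (2 * l + 2)) : ℝ) ≤ Tk G (2 * l + 2) := h2
      _ ≤ 16 * l * (l + 1) * ((Fintype.card V : ℝ) / l) ^ (l + 1)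
          + K * (Fintype.card V : ℝ) ^ l := h1
      _ = _ := by ring
  linarith

end

end Pool.Agent.Lib.MP_009d13_co.OD
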