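import Pool.Agent.Lib.MP_009d13_co.OD.CNA
import Pool.Agent.Lib.MP_009d13_co.OD.CNW
import Pool.Agent.Lib.MP_009d13_co.OD.CNC
import Pool.Agent.Lib.MP_009d13_co.OD.CNH
import Pool.Agent.Lib.MP_009d13_co.OD.CNB
import Pool.Agent.Lib.MP_009d13_co.OD.CPS

/-! # OD, module TKD: decomposition of the number of paths -/

set_option autoImplicit false

namespace Pool.Agent.Lib.MP_009d13_co.OD

open Finset Classical
open Pool.Agent.Lib.MP_009d13_co.P5 (nb kk)

noncomputable section

variable {V : Type} [Fintype V] (G : SimpleGraph V) (H : Finset V)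

/-- The sets of a word. -/
def tkdF (w : List (Bool × Bool)) : List (Finset V) := w.flatMap fun p => [cl H p.1, cl H p.2]

theorem tkd_append (u v : List (Bool × Bool)) : tkdF H (u ++ v) = tkdF H u ++ tkdF H v :=
  List.flatMap_append

theorem tkd_rep (i : ℕ) (p : Bool × Bool) :
    tkdF H (List.replicate i p) = rp i (cl H p.1) (cl H p.2) := by
  unfold tkdF rp
  rw [List.flatMap_replicate]

theorem tkd_x4_nonneg : 0 ≤ x4 G H := by
  unfold x4
  exact Finset.sum_nonneg fun p _ => by positivity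

theorem tkd_hh : cn G [H, H] ≤ (H.card : ℝ) ^ 2 := by
  rw [cn_pair]
  have h1 : (P5.pr G H H).card ≤ (H ×ˢ H).card := by
    refine Finset.card_le_card fun p hp => ?_
    unfold P5.pr at hp
    simp only [mem_filter, mem_univ, true_and] at hp
    exact Finset.mem_product.mpr ⟨hp.1, hp.2.1⟩
  rw [Finset.card_product] at h1
  calc ((P5.pr G H H).card : ℝ) ≤ ((H.card * H.card : ℕ) : ℝ) := by exact_mod_cast h1
    _ = (H.card : ℝ) ^ 2 := by push_cast; ring

/-- The bound for a bad word. -/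
def tkdB (l : ℕ) : ℝ := (6 * (Fintype.card V : ℝ)) ^ (l - 1) * x4 G H
        + (H.card : ℝ) ^ 2 * (6 * (Fintype.card V : ℝ)) ^ l

/-- The good words. -/
def tkdW3 (l i : ℕ) : List (Bool × Bool) :=
  List.replicate i (false, true) ++ List.replicate (l + 1 - i) (true, false)

def tkdW4 (l i : ℕ) : List (Bool × Bool) :=
  List.replicate i (false, true) ++ (false, false) :: List.replicate (l - i) (true, false)

theorem tkd_cases (hS : P5.Sparse6 G) {l : ℕ} (w : List (Bool × Bool)) (hw : w.length = l + 1) :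
    cn G (tkdF H w) ≤ tkdB G H l ∨ (∃ i ∈ range (l + 2), w = tkdW3 l i) ∨
      (∃ i ∈ range (l + 1), w = tkdW4 l i) := by
  have hn : (0 : ℝ) ≤ 6 * (Fintype.card V : ℝ) := by positivity
  have hx := tkd_x4_nonneg G H
  rcases word_cases w with ⟨u, v, rfl⟩ | ⟨u, v, p, q, rfl⟩ | ⟨i, j, rfl⟩ | ⟨i, j, rfl⟩
  · left
    have hlen : u.length + v.length = l := by
      simp only [List.length_append, List.length_cons] at hw; omega
    have e : tkdF H (u ++ (true, true) :: v) = tkdF H u ++ ([H, H] ++ tkdF H v) := by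
      rw [tkd_append]; rfl
    rw [e]
    calc cn G (tkdF H u ++ ([H, H] ++ tkdF H v))
        ≤ cn G (tkdF H u) * (cn G [H, H] * cn G (tkdF H v)) :=
          (cn_append G _ _).trans (mul_le_mul_of_nonneg_left (cn_append G _ _) (cn_nonneg G _))
      _ ≤ (6 * (Fintype.card V : ℝ)) ^ u.length * ((H.card : ℝ) ^ 2 *
            (6 * (Fintype.card V : ℝ)) ^ v.length) := by
          have h1 := cn_pairs G H hS u
          have h2 := cn_pairs G H hS v
          have h3 := tkd_hh G H
          have n1 := cn_nonneg G (tkdF H u)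
          have n2 := cn_nonneg G (tkdF H v)
          have n3 := cn_nonneg G [H, H]
          exact mul_le_mul h1 (mul_le_mul h3 h2 n2 (by positivity)) (mul_nonneg n3 n2)
            (by positivity)
      _ = (H.card : ℝ) ^ 2 * (6 * (Fintype.card V : ℝ)) ^ l := by
          rw [← hlen, pow_add]; ring
      _ ≤ tkdB G H l := by
          unfold tkdB
          have : 0 ≤ (6 * (Fintype.card V : ℝ)) ^ (l - 1) * x4 G H := by positivity
          linarith
  · left
    have hlen : u.length + v.length = l - 1 := by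
      simp only [List.length_append, List.length_cons] at hw; omega
    have e : tkdF H (u ++ (p, false) :: (false, q) :: v) =
        tkdF H u ++ ([cl H p, Hᶜ, Hᶜ, cl H q] ++ tkdF H v) := by
      rw [tkd_append]; rfl
    rw [e]
    calc cn G (tkdF H u ++ ([cl H p, Hᶜ, Hᶜ, cl H q] ++ tkdF H v))
        ≤ cn G (tkdF H u) * (cn G [cl H p, Hᶜ, Hᶜ, cl H q] * cn G (tkdF H v)) :=
          (cn_append G _ _).trans (mul_le_mul_of_nonneg_left (cn_append G _ _) (cn_nonneg G _))
      _ ≤ (6 * (Fintype.card V : ℝ)) ^ u.length * (x4 G H *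
            (6 * (Fintype.card V : ℝ)) ^ v.length) := by
          have h1 := cn_pairs G H hS u
          have h2 := cn_pairs G H hS v
          have h3 := cn_four G H (cl H p) (cl H q)
          have n2 := cn_nonneg G (tkdF H v)
          have n3 := cn_nonneg G [cl H p, Hᶜ, Hᶜ, cl H q]
          exact mul_le_mul h1 (mul_le_mul h3 h2 n2 hx) (mul_nonneg n3 n2)
            (by positivity)
      _ = (6 * (Fintype.card V : ℝ)) ^ (l - 1) * x4 G H := by
          rw [← hlen, pow_add]; ring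
      _ ≤ tkdB G H l := by
          unfold tkdB
          have : 0 ≤ (H.card : ℝ) ^ 2 * (6 * (Fintype.card V : ℝ)) ^ l := by positivity
          linarith
  · right; left
    simp only [List.length_append, List.length_replicate] at hw
    refine ⟨i, Finset.mem_range.mpr (by omega), ?_⟩
    unfold tkdW3
    rw [show l + 1 - i = j by omega]
  · right; right
    simp only [List.length_append, List.length_replicate, List.length_cons] at hw
    refine ⟨i, Finset.mem_range.mpr (by omega), ?_⟩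
    unfold tkdW4
    rw [show l - i = j by omega]

theorem tkd_one (k : ℕ) (Z : List (Bool × Bool)) :
    ∑ w : Fin k → Bool × Bool, (if List.ofFn w = Z then cn G (tkdF H (List.ofFn w)) else 0) ≤
      cn G (tkdF H Z) := by
  by_cases h : ∃ w0 : Fin k → Bool × Bool, List.ofFn w0 = Z
  · obtain ⟨w0, rfl⟩ := h
    have e : ∀ w : Fin k → Bool × Bool,
        (if List.ofFn w = List.ofFn w0 then cn G (tkdF H (List.ofFn w)) else 0) =
        if w = w0 then cn G (tkdF H (List.ofFn w0)) else 0 := by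
      intro w
      by_cases hw : w = w0
      · subst hw; simp
      · rw [if_neg hw, if_neg (fun h => hw (List.ofFn_injective h))]
    simp only [e]
    rw [Finset.sum_ite_eq']
    simp
  · refine le_trans (le_of_eq (Finset.sum_eq_zero fun w _ => ?_)) (cn_nonneg G _)
    rw [if_neg (fun hw => h ⟨w, hw⟩)]

theorem tkd_w3 (l i : ℕ) : tkdF H (tkdW3 l i) = rp i Hᶜ H ++ rp (l + 1 - i) H Hᶜ := by
  unfold tkdW3
  rw [tkd_append, tkd_rep, tkd_rep]
  rfl

theorem tkd_w4 (l i : ℕ) : tkdF H (tkdW4 l i) = rp i Hᶜ H ++ Hᶜ :: Hᶜ :: rp (l - i) H Hᶜ := by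
  unfold tkdW4
  rw [tkd_append, tkd_rep]
  have : tkdF H ((false, false) :: List.replicate (l - i) (true, false)) =
      Hᶜ :: Hᶜ :: tkdF H (List.replicate (l - i) (true, false)) := rfl
  rw [this, tkd_rep]
  rfl

theorem tkd_rp_zero (X Y : Finset V) : rp 0 X Y = [] := rfl

theorem tkd_sum3 (l : ℕ) : ∑ i ∈ range (l + 2), cn G (tkdF H (tkdW3 l i)) ≤
    2 * Ao (mH G H) (dH G H) l + CC (mH G H) (dH G H) (aj G) (dH G H) (l + 1) := by
  rw [Finset.sum_range_succ, Finset.sum_range_succ']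
  have h0 : cn G (tkdF H (tkdW3 l 0)) ≤ Ao (mH G H) (dH G H) l := by
    rw [tkd_w3, tkd_rp_zero, List.nil_append]
    exact cn_hs G H (l + 1) (by omega)
  have h1 : cn G (tkdF H (tkdW3 l (l + 1))) ≤ Ao (mH G H) (dH G H) l := by
    rw [tkd_w3, Nat.sub_self, tkd_rp_zero, List.append_nil]
    exact cn_sh G H (l + 1) (by omega)
  have h2 : ∑ i ∈ range l, cn G (tkdF H (tkdW3 l (i + 1))) ≤
      CC (mH G H) (dH G H) (aj G) (dH G H) (l + 1) := by
    unfold CC
    rw [Nat.add_sub_cancel]
    refine Finset.sum_le_sum fun i hi => ?_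
    have hi' := Finset.mem_range.mp hi
    rw [tkd_w3, show l + 1 - (i + 1) = l - i by omega]
    exact cn_c G H (i + 1) (l - i) (by omega) (by omega)
  linarith

theorem tkd_sum4 {l : ℕ} (hl : 1 ≤ l) : ∑ i ∈ range (l + 1), cn G (tkdF H (tkdW4 l i)) ≤
    ∑ p ∈ P5.pr G Hᶜ Hᶜ, ps G H l p.1 p.2 := by
  obtain ⟨m, rfl⟩ : ∃ m, l = m + 1 := ⟨l - 1, by omega⟩
  rw [Finset.sum_range_succ, Finset.sum_range_succ']
  have h0 := cn_b0 G H (m + 1) (by omega)
  have h1 := cn_b1 G H (m + 1) (by omega)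
  have e0 : tkdF H (tkdW4 (m + 1) 0) = Hᶜ :: Hᶜ :: rp (m + 1) H Hᶜ := by
    rw [tkd_w4, tkd_rp_zero, List.nil_append]; rfl
  have e1 : tkdF H (tkdW4 (m + 1) (m + 1)) = rp (m + 1) Hᶜ H ++ [Hᶜ, Hᶜ] := by
    rw [tkd_w4, Nat.sub_self, tkd_rp_zero]
  rw [e0, e1]
  have h2 : ∑ i ∈ range m, cn G (tkdF H (tkdW4 (m + 1) (i + 1))) ≤
      ∑ i ∈ range m, ∑ p ∈ P5.pr G Hᶜ Hᶜ, ∑ P ∈ NL (∅ : Finset V) (i + 1),
        ∑ Q ∈ NL P.toFinset (m + 1 - 1 - i),
        hd (dH G H) P * pw (mH G H) P * ls (aj G p.1) P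
          * (hd (aj G p.2) Q * pw (mH G H) Q * ls (dH G H) Q) := by
    refine Finset.sum_le_sum fun i hi => ?_
    have hi' := Finset.mem_range.mp hi
    rw [tkd_w4, show m + 1 - (i + 1) = m + 1 - 1 - i by omega]
    exact cn_b G H (i + 1) (m + 1 - 1 - i) (by omega) (by omega)
  rw [Finset.sum_comm] at h2
  have h3 : ∀ p ∈ P5.pr G Hᶜ Hᶜ, _ := fun p _ => sum_ps G H (m + 1) (by omega) p.1 p.2
  have h4 := Finset.sum_le_sum h3
  rw [Finset.sum_add_distrib, Finset.sum_add_distrib] at h4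
  rw [Nat.add_sub_cancel] at h2 h4
  linarith

theorem tk_dec (hS : P5.Sparse6 G) {l : ℕ} (hl : 1 ≤ l) :
    Tk G (2 * l + 2) ≤ ∑ p ∈ P5.pr G Hᶜ Hᶜ, ps G H l p.1 p.2
      + 2 * Ao (mH G H) (dH G H) l + CC (mH G H) (dH G H) (aj G) (dH G H) (l + 1)
      + 4 ^ (l + 1) * ((6 * (Fintype.card V : ℝ)) ^ (l - 1) * x4 G H
        + (H.card : ℝ) ^ 2 * (6 * (Fintype.card V : ℝ)) ^ l) := by
  have hk : 2 * l + 2 = 2 * (l + 1) := by ring
  rw [hk, tk_words G H (l + 1)]
  have hx := tkd_x4_nonneg G H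
  have hB : 0 ≤ tkdB G H l := by unfold tkdB; positivity
  have h1 : ∀ w : Fin (l + 1) → Bool × Bool, cn G (tkdF H (List.ofFn w)) ≤
      tkdB G H l
      + ∑ i ∈ range (l + 2), (if List.ofFn w = tkdW3 l i then cn G (tkdF H (List.ofFn w)) else 0)
      + ∑ i ∈ range (l + 1),
        (if List.ofFn w = tkdW4 l i then cn G (tkdF H (List.ofFn w)) else 0) := by
    intro w
    have n3 : 0 ≤ ∑ i ∈ range (l + 2),
        (if List.ofFn w = tkdW3 l i then cn G (tkdF H (List.ofFn w)) else 0) :=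
      Finset.sum_nonneg fun i _ => by
        split_ifs
        · exact cn_nonneg G _
        · exact le_rfl
    have n4 : 0 ≤ ∑ i ∈ range (l + 1),
        (if List.ofFn w = tkdW4 l i then cn G (tkdF H (List.ofFn w)) else 0) :=
      Finset.sum_nonneg fun i _ => by
        split_ifs
        · exact cn_nonneg G _
        · exact le_rfl
    rcases tkd_cases G H hS (l := l) (List.ofFn w) (by simp) with h | ⟨i, hi, h⟩ | ⟨i, hi, h⟩
    · linarith
    · have : cn G (tkdF H (List.ofFn w)) ≤ ∑ i ∈ range (l + 2),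
          (if List.ofFn w = tkdW3 l i then cn G (tkdF H (List.ofFn w)) else 0) := by
        refine le_trans ?_ (Finset.single_le_sum (f := fun i =>
          (if List.ofFn w = tkdW3 l i then cn G (tkdF H (List.ofFn w)) else 0)) (fun j _ => ?_) hi)
        · rw [if_pos h]
        · split_ifs
          · exact cn_nonneg G _
          · exact le_rfl
      linarith
    · have : cn G (tkdF H (List.ofFn w)) ≤ ∑ i ∈ range (l + 1),
          (if List.ofFn w = tkdW4 l i then cn G (tkdF H (List.ofFn w)) else 0) := by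
        refine le_trans ?_ (Finset.single_le_sum (f := fun i =>
          (if List.ofFn w = tkdW4 l i then cn G (tkdF H (List.ofFn w)) else 0)) (fun j _ => ?_) hi)
        · rw [if_pos h]
        · split_ifs
          · exact cn_nonneg G _
          · exact le_rfl
      linarith
  have h2 := Finset.sum_le_sum (s := (univ : Finset (Fin (l + 1) → Bool × Bool)))
    fun w _ => h1 w
  rw [Finset.sum_add_distrib, Finset.sum_add_distrib, Finset.sum_const, Finset.card_univ,
    nsmul_eq_mul] at h2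
  have hcard : ((Fintype.card (Fin (l + 1) → Bool × Bool) : ℕ) : ℝ) = 4 ^ (l + 1) := by
    simp
  rw [hcard] at h2
  have h3 : ∑ w : Fin (l + 1) → Bool × Bool, ∑ i ∈ range (l + 2),
      (if List.ofFn w = tkdW3 l i then cn G (tkdF H (List.ofFn w)) else 0) ≤
      ∑ i ∈ range (l + 2), cn G (tkdF H (tkdW3 l i)) := by
    rw [Finset.sum_comm]
    exact Finset.sum_le_sum fun i _ => tkd_one G H (l + 1) (tkdW3 l i)
  have h4 : ∑ w : Fin (l + 1) → Bool × Bool, ∑ i ∈ range (l + 1),
      (if List.ofFn w = tkdW4 l i then cn G (tkdF H (List.ofFn w)) else 0) ≤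
      ∑ i ∈ range (l + 1), cn G (tkdF H (tkdW4 l i)) := by
    rw [Finset.sum_comm]
    exact Finset.sum_le_sum fun i _ => tkd_one G H (l + 1) (tkdW4 l i)
  have h5 := tkd_sum3 G H l
  have h6 := tkd_sum4 G H hl
  have hBdef : tkdB G H l = (6 * (Fintype.card V : ℝ)) ^ (l - 1) * x4 G H
        + (H.card : ℝ) ^ 2 * (6 * (Fintype.card V : ℝ)) ^ l := rfl
  rw [← hBdef]
  have h7 : ∑ w : Fin (l + 1) → Bool × Bool,
      cn G ((List.ofFn w).flatMap fun p => [cl H p.1, cl H p.2]) =
      ∑ w : Fin (l + 1) → Bool × Bool, cn G (tkdF H (List.ofFn w)) := rfl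
  rw [h7]
  linarith

end

end Pool.Agent.Lib.MP_009d13_co.OD
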